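import Pool.Agent.H78.CY.PsA

/-!
[H78 CY AVG] Double counting (30 min).

PROOF. `avgS`: the map `(x, e) ↦ (e x, x⁻¹ e x)` is a bijection from the pairs `x ∈ Y`, `e ∈ rgCj x J`
with `B (e x)` onto the pairs `(x', e')` with `x' ∈ Y`, `B x'`, `e' ∈ J` (`e = x e' x⁻¹`, `e x = x e'`, so
`x = x' e'⁻¹`; `J ≤ Y`). (`mem_rgCj : y ∈ rgCj x J ↔ x⁻¹ y x ∈ J`.) `avg1`, `avg2`: sum the hypothesis over
`x ∈ Y` and divide by `|J| > 0`.
-/

namespace H78CY

open Subgroup H78TP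
open scoped commutatorElement

variable {Γ : Type*} [Group Γ]

theorem avgS [Finite Γ] (Y J : Subgroup Γ) (hJ : J ≤ Y) (B : Γ → Prop) :
    Nat.card {z : Γ × Γ // z.1 ∈ Y ∧ z.2 ∈ rgCj z.1 J ∧ B (z.2 * z.1)} =
      Nat.card J * Nat.card {x : Γ // x ∈ Y ∧ B x} := by
  rw [← Nat.card_prod]
  refine Nat.card_congr
    { toFun := fun z => (⟨z.1.1⁻¹ * z.1.2 * z.1.1, mem_rgCj.1 z.2.2.1⟩,
        ⟨z.1.2 * z.1.1, ?_, z.2.2.2⟩)
      invFun := fun w => ⟨(w.2.1 * w.1.1⁻¹, w.2.1 * w.1.1⁻¹ * w.1.1 * (w.2.1 * w.1.1⁻¹)⁻¹), ?_, ?_, ?_⟩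
      left_inv := ?_
      right_inv := ?_ }
  · have h1 : z.1.2 * z.1.1 = z.1.1 * (z.1.1⁻¹ * z.1.2 * z.1.1) := by group
    rw [h1]
    exact Y.mul_mem z.2.1 (hJ (mem_rgCj.1 z.2.2.1))
  · exact Y.mul_mem w.2.2.1 (Y.inv_mem (hJ w.1.2))
  · rw [mem_rgCj]
    have h1 : (w.2.1 * w.1.1⁻¹)⁻¹ * (w.2.1 * w.1.1⁻¹ * w.1.1 * (w.2.1 * w.1.1⁻¹)⁻¹) *
        (w.2.1 * w.1.1⁻¹) = w.1.1 := by group
    rw [h1]
    exact w.1.2
  · have h1 : w.2.1 * w.1.1⁻¹ * w.1.1 * (w.2.1 * w.1.1⁻¹)⁻¹ * (w.2.1 * w.1.1⁻¹) = w.2.1 := by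
      group
    rw [h1]
    exact w.2.2.2
  · rintro ⟨⟨x, e⟩, hx, he, hB⟩
    apply Subtype.ext
    apply Prod.ext
    · change e * x * (x⁻¹ * e * x)⁻¹ = x
      group
    · change e * x * (x⁻¹ * e * x)⁻¹ * (x⁻¹ * e * x) * (e * x * (x⁻¹ * e * x)⁻¹)⁻¹ = e
      group
  · rintro ⟨⟨e, he⟩, ⟨x, hx, hB⟩⟩
    apply Prod.ext
    · apply Subtype.ext
      change (x * e⁻¹)⁻¹ * (x * e⁻¹ * e * (x * e⁻¹)⁻¹) * (x * e⁻¹) = e
      group
    · apply Subtype.ext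
      change x * e⁻¹ * e * (x * e⁻¹)⁻¹ * (x * e⁻¹) = x
      group

/-- the number of the pairs is the sum over the first component -/
private theorem avg_fib [Finite Γ] (Y J : Subgroup Γ) (B : Γ → Prop) :
    Nat.card {z : Γ × Γ // z.1 ∈ Y ∧ z.2 ∈ rgCj z.1 J ∧ B (z.2 * z.1)} =
      Nat.card (Σ x : {x : Γ // x ∈ Y}, {e : Γ // e ∈ rgCj x.1 J ∧ B (e * x.1)}) :=
  Nat.card_congr
    { toFun := fun z => ⟨⟨z.1.1, z.2.1⟩, ⟨z.1.2, z.2.2⟩⟩
      invFun := fun w => ⟨(w.1.1, w.2.1), w.1.2, w.2.2⟩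
      left_inv := fun _ => rfl
      right_inv := fun _ => rfl }

private theorem avg_sum [Finite Γ] (Y J : Subgroup Γ) (hJ : J ≤ Y) (B : Γ → Prop) [Fintype {x : Γ // x ∈ Y}] :
    Nat.card J * Nat.card {x : Γ // x ∈ Y ∧ B x} =
      ∑ x : {x : Γ // x ∈ Y}, Nat.card {e : Γ // e ∈ rgCj x.1 J ∧ B (e * x.1)} := by
  rw [← avgS Y J hJ B, avg_fib, Nat.card_sigma]

private theorem avg_sub (Y : Subgroup Γ) (Q : Γ → Prop) [Fintype {x : Γ // x ∈ Y}]
    [DecidablePred Q] :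
    Nat.card {x : Γ // x ∈ Y ∧ Q x} = ∑ x : {x : Γ // x ∈ Y}, (if Q x.1 then 1 else 0) := by
  rw [← Finset.card_filter, ← Fintype.card_subtype, ← Nat.card_eq_fintype_card]
  exact Nat.card_congr
    { toFun := fun z => ⟨⟨z.1, z.2.1⟩, z.2.2⟩
      invFun := fun w => ⟨w.1.1, w.1.2, w.2⟩
      left_inv := fun _ => rfl
      right_inv := fun _ => rfl }

theorem avg1 [Finite Γ] (Y J : Subgroup Γ) (hJ : J ≤ Y) (B : Γ → Prop) (a c : ℕ)
    (h : ∀ x ∈ Y, a * Nat.card {e : Γ // e ∈ rgCj x J ∧ B (e * x)} ≤ c * Nat.card J) :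
    a * Nat.card {x : Γ // x ∈ Y ∧ B x} ≤ c * Nat.card Y := by
  classical
  haveI : Fintype {x : Γ // x ∈ Y} := Fintype.ofFinite _
  have hJ0 : 0 < Nat.card J := Nat.card_pos
  have h1 : Nat.card J * (a * Nat.card {x : Γ // x ∈ Y ∧ B x}) ≤ Nat.card J * (c * Nat.card Y) := by
    calc Nat.card J * (a * Nat.card {x : Γ // x ∈ Y ∧ B x})
        = a * (Nat.card J * Nat.card {x : Γ // x ∈ Y ∧ B x}) := by ring
      _ = ∑ x : {x : Γ // x ∈ Y}, a * Nat.card {e : Γ // e ∈ rgCj x.1 J ∧ B (e * x.1)} := by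
          rw [avg_sum Y J hJ B, Finset.mul_sum]
      _ ≤ ∑ _x : {x : Γ // x ∈ Y}, c * Nat.card J := Finset.sum_le_sum fun x _ => h x.1 x.2
      _ = Nat.card J * (c * Nat.card Y) := by
          rw [Finset.sum_const, Finset.card_univ, ← Nat.card_eq_fintype_card, smul_eq_mul]
          have : Nat.card {x : Γ // x ∈ Y} = Nat.card Y := rfl
          rw [this]
          ring
  exact Nat.le_of_mul_le_mul_left h1 hJ0

theorem avg2 [Finite Γ] (Y J : Subgroup Γ) (hJ : J ≤ Y) (B Q : Γ → Prop) (a c : ℕ)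
    (h : ∀ x ∈ Y, Q x → c * Nat.card J ≤ a * Nat.card {e : Γ // e ∈ rgCj x J ∧ B (e * x)}) :
    c * Nat.card {x : Γ // x ∈ Y ∧ Q x} ≤ a * Nat.card {x : Γ // x ∈ Y ∧ B x} := by
  classical
  haveI : Fintype {x : Γ // x ∈ Y} := Fintype.ofFinite _
  have hJ0 : 0 < Nat.card J := Nat.card_pos
  have h1 : Nat.card J * (c * Nat.card {x : Γ // x ∈ Y ∧ Q x}) ≤
      Nat.card J * (a * Nat.card {x : Γ // x ∈ Y ∧ B x}) := by
    calc Nat.card J * (c * Nat.card {x : Γ // x ∈ Y ∧ Q x})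
        = ∑ x : {x : Γ // x ∈ Y}, c * Nat.card J * (if Q x.1 then 1 else 0) := by
          rw [avg_sub, ← Finset.mul_sum]
          ring
      _ ≤ ∑ x : {x : Γ // x ∈ Y}, a * Nat.card {e : Γ // e ∈ rgCj x.1 J ∧ B (e * x.1)} := by
          refine Finset.sum_le_sum fun x _ => ?_
          split_ifs with hx
          · rw [mul_one]
            exact h x.1 x.2 hx
          · rw [mul_zero]
            exact Nat.zero_le _
      _ = Nat.card J * (a * Nat.card {x : Γ // x ∈ Y ∧ B x}) := by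
          rw [← Finset.mul_sum, ← avg_sum Y J hJ B]
          ring
  exact Nat.le_of_mul_le_mul_left h1 hJ0

theorem avg3 [Finite Γ] (Y J : Subgroup Γ) (hJ : J ≤ Y) (B Q : Γ → Prop) (a c : ℕ)
    (h : ∀ x ∈ Y, ¬ Q x → a * Nat.card {e : Γ // e ∈ rgCj x J ∧ B (e * x)} ≤ c * Nat.card J) :
    a * Nat.card {x : Γ // x ∈ Y ∧ B x} ≤
      c * Nat.card Y + a * Nat.card {x : Γ // x ∈ Y ∧ Q x} := by
  classical
  haveI : Fintype {x : Γ // x ∈ Y} := Fintype.ofFinite _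
  have hJ0 : 0 < Nat.card J := Nat.card_pos
  have hle : ∀ x : Γ, Nat.card {e : Γ // e ∈ rgCj x J ∧ B (e * x)} ≤ Nat.card J := by
    intro x
    rw [← card_rgCj x J]
    exact Nat.card_le_card_of_injective
      (fun e : {e : Γ // e ∈ rgCj x J ∧ B (e * x)} => (⟨e.1, e.2.1⟩ : rgCj x J))
      (fun e e' h => Subtype.ext (by
        have h2 := congrArg Subtype.val h
        exact h2))
  have h1 : Nat.card J * (a * Nat.card {x : Γ // x ∈ Y ∧ B x}) ≤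
      Nat.card J * (c * Nat.card Y + a * Nat.card {x : Γ // x ∈ Y ∧ Q x}) := by
    calc Nat.card J * (a * Nat.card {x : Γ // x ∈ Y ∧ B x})
        = ∑ x : {x : Γ // x ∈ Y}, a * Nat.card {e : Γ // e ∈ rgCj x.1 J ∧ B (e * x.1)} := by
          rw [← Finset.mul_sum, ← avg_sum Y J hJ B]
          ring
      _ ≤ ∑ x : {x : Γ // x ∈ Y}, (c * Nat.card J + a * Nat.card J * (if Q x.1 then 1 else 0)) := by
          refine Finset.sum_le_sum fun x _ => ?_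
          split_ifs with hx
          · have h2 := Nat.mul_le_mul_left a (hle x.1)
            omega
          · have h2 := h x.1 x.2 hx
            omega
      _ = Nat.card J * (c * Nat.card Y + a * Nat.card {x : Γ // x ∈ Y ∧ Q x}) := by
          rw [Finset.sum_add_distrib, ← Finset.mul_sum Finset.univ _ (a * Nat.card J), ← avg_sub,
            Finset.sum_const, Finset.card_univ, ← Nat.card_eq_fintype_card, smul_eq_mul]
          have : Nat.card {x : Γ // x ∈ Y} = Nat.card Y := rfl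
          rw [this]
          ring
  exact Nat.le_of_mul_le_mul_left h1 hJ0

end H78CY
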