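import Pool.Agent.H78.CY.PsA

/-!
[H78 CY LHL] The hypotheses of Theorem D are inherited by `(P_a(G), R, H)` with length `l - a` (20 min).

PROOF. `PS p (PS p G a) c = PS p G (a + c)` (`PS_PS`). `GH`: `PS_nm h.GH a`. `ht`: `a' + b = l - a` gives
`(a + a') + b = l` (as `a ≤ l`). `fx` in the same way. The rest is unchanged.
-/

namespace H78CY

open Subgroup H78TP
open scoped commutatorElement

variable {Γ : Type*} [Group Γ]

theorem LH_loc {p n : ℕ} {m f : ℕ → ℕ} {l : ℕ} {G R H : Subgroup Γ} (h : LHyp p n m f l G R H)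
    (a : ℕ) (ha : a ≤ l) : LHyp p n m f (l - a) (PS p G a) R H := by
  have hps : ∀ c, PS p (PS p G a) c = PS p G (a + c) := fun c => PS_PS G a c
  refine
    { sol := h.sol
      GH := PS_nm h.GH a
      RH := h.RH
      nR := h.nR
      cop := h.cop
      cR := h.cR
      bot := ?_
      ht := ?_
      fx := ?_ }
  · rw [hps]
    have e : a + (l - a) = l := by omega
    rw [e]
    exact h.bot
  · intro c b hcb
    rw [hps]
    exact h.ht _ _ (by omega)
  · intro c b hcb
    rw [hps]
    exact h.fx _ _ (by omega)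

end H78CY
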