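import Pool.Agent.H78.CY.StA
import Pool.Agent.H78.CY.LhL

/-!
[H78 CY AVGL] One step of the boost (40 min): if `L₃` is invariant under `Y₁` and in every coset `Y₁ x` at least
`1 / d` of the elements are good for `L₁`, then `d |bad₁ ∩ bad₃| ≤ (d - 1) |bad₃|`.

PROOF. `avgL`: double counting over the pairs `(y, x)`, `y ∈ Y1`, `x ∈ Y`: the map `(y, x) ↦ (y, y x)`
is a bijection of `Y1 × Y`. `|Y1| * |{x ∈ Y | B1 x ∧ B3 x}| = |{(y, x) | B1 (y x) ∧ B3 (y x)}| =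
Σ_{x ∈ Y, B3 x} |{y ∈ Y1 | B1 (y x)}|`, and `|{y ∈ Y1 | B1 (y x)}| = |Y1| - |{y ∈ Y1 | ¬ B1 (y x)}|`, so
`d * |{y ∈ Y1 | B1 (y x)}| ≤ (d - 1) * |Y1|`.
`good_inv`: let `Y = G ⊔ H`, `Y1 = G1 ⊔ H`, where `G1 ≤ L3` and `G1` is normalised by `Y`. The set of
`y ∈ Y` with `|st R L3 (y x)| = |st R L3 x|` for all `x ∈ Y` contains `G1` (`st_left`: `y ∈ rgCj x L3`
because `x⁻¹ y x ∈ G1 ≤ L3`) and `H` (`st_conj`), and it is closed under products; as the group is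
finite it contains `G1 ⊔ H`.
-/

namespace H78CY

open Subgroup H78TP
open scoped commutatorElement

variable {Γ : Type*} [Group Γ]

theorem avgL [Finite Γ] (Y Y1 : Subgroup Γ) (hY : Y1 ≤ Y) (B1 B3 : Γ → Prop) (d : ℕ) (hd : 0 < d)
    (h3 : ∀ y ∈ Y1, ∀ x ∈ Y, (B3 (y * x) ↔ B3 x))
    (h1 : ∀ x ∈ Y, Nat.card Y1 ≤ d * Nat.card {y : Γ // y ∈ Y1 ∧ ¬ B1 (y * x)}) :
    d * Nat.card {x : Γ // x ∈ Y ∧ B1 x ∧ B3 x} ≤
      (d - 1) * Nat.card {x : Γ // x ∈ Y ∧ B3 x} := by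
  classical
  haveI : Fintype Γ := Fintype.ofFinite Γ
  -- counting in the cosets
  have h2 : ∀ x ∈ Y, d * Nat.card {y : Γ // y ∈ Y1 ∧ B1 (y * x)} ≤ (d - 1) * Nat.card Y1 := by
    intro x hx
    have h4 := h1 x hx
    have h5 : Nat.card Y1 = Nat.card {y : Γ // y ∈ Y1 ∧ B1 (y * x)} +
        Nat.card {y : Γ // y ∈ Y1 ∧ ¬ B1 (y * x)} := by
      have e1 : Nat.card {y : Γ // y ∈ Y1 ∧ B1 (y * x)} =
          (Finset.univ.filter (fun y : Γ => y ∈ Y1 ∧ B1 (y * x))).card := by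
        rw [Nat.card_eq_fintype_card, Fintype.card_subtype]
      have e2 : Nat.card {y : Γ // y ∈ Y1 ∧ ¬ B1 (y * x)} =
          (Finset.univ.filter (fun y : Γ => y ∈ Y1 ∧ ¬ B1 (y * x))).card := by
        rw [Nat.card_eq_fintype_card, Fintype.card_subtype]
      have e3 : Nat.card Y1 = (Finset.univ.filter (fun y : Γ => y ∈ Y1)).card := by
        rw [Nat.card_eq_fintype_card]
        exact Fintype.card_subtype _
      rw [e1, e2, e3, ← Finset.filter_filter, ← Finset.filter_filter,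
        Finset.card_filter_add_card_filter_not]
    have h6 : d * Nat.card Y1 = d * Nat.card {y : Γ // y ∈ Y1 ∧ B1 (y * x)} +
        d * Nat.card {y : Γ // y ∈ Y1 ∧ ¬ B1 (y * x)} := by
      rw [← Nat.mul_add, ← h5]
    have h7 : (d - 1) * Nat.card Y1 = d * Nat.card Y1 - Nat.card Y1 := by
      rw [Nat.sub_mul, one_mul]
    omega
  -- double counting
  have h4 : Nat.card Y1 * Nat.card {x : Γ // x ∈ Y ∧ B1 x ∧ B3 x} =
      Nat.card (Σ x : {x : Γ // x ∈ Y ∧ B3 x}, {y : Γ // y ∈ Y1 ∧ B1 (y * x.1)}) := by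
    rw [← Nat.card_prod]
    refine Nat.card_congr
      { toFun := fun z => ⟨⟨z.1.1⁻¹ * z.2.1, ?_, ?_⟩, ⟨z.1.1, z.1.2, ?_⟩⟩
        invFun := fun z => ⟨⟨z.2.1, z.2.2.1⟩, ⟨z.2.1 * z.1.1, ?_, z.2.2.2, ?_⟩⟩
        left_inv := ?_
        right_inv := ?_ }
    · exact Y.mul_mem (Y.inv_mem (hY z.1.2)) z.2.2.1
    · exact (h3 _ (Y1.inv_mem z.1.2) _ z.2.2.1).2 z.2.2.2.2
    · have e : z.1.1 * (z.1.1⁻¹ * z.2.1) = z.2.1 := by group
      change B1 (z.1.1 * (z.1.1⁻¹ * z.2.1))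
      rw [e]
      exact z.2.2.2.1
    · exact Y.mul_mem (hY z.2.2.1) z.1.2.1
    · exact (h3 _ z.2.2.1 _ z.1.2.1).2 z.1.2.2
    · rintro ⟨⟨y, hy⟩, ⟨x, hx⟩⟩
      simp
    · rintro ⟨⟨x, hx⟩, ⟨y, hy⟩⟩
      have e : y⁻¹ * (y * x) = x := by group
      refine Sigma.ext (Subtype.ext e) ((Subtype.heq_iff_coe_eq ?_).2 rfl)
      intro z
      change (z ∈ Y1 ∧ B1 (z * (y⁻¹ * (y * x)))) ↔ _
      rw [e]
  have h5 : Nat.card Y1 * (d * Nat.card {x : Γ // x ∈ Y ∧ B1 x ∧ B3 x}) ≤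
      Nat.card Y1 * ((d - 1) * Nat.card {x : Γ // x ∈ Y ∧ B3 x}) := by
    calc _ = d * (Nat.card Y1 * Nat.card {x : Γ // x ∈ Y ∧ B1 x ∧ B3 x}) := by ring
      _ = d * ∑ x : {x : Γ // x ∈ Y ∧ B3 x}, Nat.card {y : Γ // y ∈ Y1 ∧ B1 (y * x.1)} := by
        rw [h4, Nat.card_sigma]
      _ = ∑ x : {x : Γ // x ∈ Y ∧ B3 x}, d * Nat.card {y : Γ // y ∈ Y1 ∧ B1 (y * x.1)} := by
        rw [Finset.mul_sum]
      _ ≤ ∑ _x : {x : Γ // x ∈ Y ∧ B3 x}, (d - 1) * Nat.card Y1 :=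
        Finset.sum_le_sum fun x _ => h2 x.1 x.2.1
      _ = Nat.card Y1 * ((d - 1) * Nat.card {x : Γ // x ∈ Y ∧ B3 x}) := by
        rw [Finset.sum_const, Finset.card_univ, smul_eq_mul,
          Nat.card_eq_fintype_card (α := {x : Γ // x ∈ Y ∧ B3 x})]
        ring
  exact Nat.le_of_mul_le_mul_left h5 Nat.card_pos

theorem good_inv [Finite Γ] {G G1 R H L3 : Subgroup Γ} (j : ℕ) (h1 : G1 ≤ L3)
    (nG1 : Nm (G ⊔ H) G1) (hG1 : G1 ≤ G ⊔ H) (nR : Nm H R) :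
    ∀ y ∈ G1 ⊔ H, ∀ x ∈ G ⊔ H, (gd R L3 j (y * x) ↔ gd R L3 j x) := by
  intro y hy
  have hGH : H ≤ G ⊔ H := le_sup_right
  have hsub : G1 ⊔ H ≤ G ⊔ H := sup_le hG1 hGH
  have key : y ∈ G ⊔ H ∧ ∀ x ∈ G ⊔ H, Nat.card (st R L3 (y * x)) = Nat.card (st R L3 x) := by
    let K : Subgroup Γ :=
      { carrier := {y | y ∈ G ⊔ H ∧ ∀ x ∈ G ⊔ H, Nat.card (st R L3 (y * x)) = Nat.card (st R L3 x)}
        one_mem' := ⟨(G ⊔ H).one_mem, fun x _ => by rw [one_mul]⟩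
        mul_mem' := by
          rintro a b ⟨ha, ha'⟩ ⟨hb, hb'⟩
          refine ⟨(G ⊔ H).mul_mem ha hb, fun x hx => ?_⟩
          rw [mul_assoc, ha' _ ((G ⊔ H).mul_mem hb hx), hb' x hx]
        inv_mem' := by
          rintro a ⟨ha, ha'⟩
          refine ⟨(G ⊔ H).inv_mem ha, fun x hx => ?_⟩
          have h2 := ha' (a⁻¹ * x) ((G ⊔ H).mul_mem ((G ⊔ H).inv_mem ha) hx)
          rw [mul_inv_cancel_left] at h2
          exact h2.symm }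
    have hK : G1 ⊔ H ≤ K := by
      apply sup_le
      · intro g hg
        refine ⟨hG1 hg, fun x hx => ?_⟩
        have h2 : g ∈ rgCj x L3 := by
          rw [mem_rgCj]
          have h3 := nG1 x⁻¹ ((G ⊔ H).inv_mem hx) g hg
          rw [inv_inv] at h3
          exact h1 h3
        rw [st_left h2]
      · intro g hg
        refine ⟨hGH hg, fun x _ => st_conj (fun r hr => nR g hg r hr) x⟩
    exact hK hy
  intro x hx
  unfold gd
  rw [key.2 x hx]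

end H78CY
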