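import Pool.Agent.H78.CY.Bst2

/-!
[H78 CY BST] THE BOOST: `Q(j) → S(j)` (25 min).

PROOF. `d` from `bst2`; choose `w` with `e (d - 1) ^ w ≤ d ^ w` (for `d = 1`: `w = 1`; in general
`((d - 1) / d) ^ w → 0`; e.g. Bernoulli `d ^ w ≥ (d - 1) ^ w + w (d - 1) ^ (w - 1)` ..., so
`w = e * d` works). `T` of `bst2` for `w, e, b`. Given `L`, let `L' = L ⊓ (G ⊔ H)`: for `x ∈ G ⊔ H`,
`st R L' x = st R L x` (`R ≤ H`), `¬ PS p G (l - b) ≤ L'` (as `PS p G (l - b) ≤ G`). In the second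
alternative: `d ^ w e |bad| ≤ e (d - 1) ^ w |Y| ≤ d ^ w |Y|`.
-/

namespace H78CY

open Subgroup H78TP
open scoped commutatorElement

universe u

private theorem bstBer (c : ℕ) : ∀ w : ℕ, w * c ^ w ≤ c * (c + 1) ^ w
  | 0 => by simp
  | w + 1 => by
    have h1 := bstBer c w
    have h2 : c ^ w ≤ (c + 1) ^ w := Nat.pow_le_pow_left (Nat.le_succ c) w
    calc (w + 1) * c ^ (w + 1) = c * (w * c ^ w) + c * c ^ w := by ring
      _ ≤ c * (c * (c + 1) ^ w) + c * (c + 1) ^ w :=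
        Nat.add_le_add (Nat.mul_le_mul_left _ h1) (Nat.mul_le_mul_left _ h2)
      _ = c * (c + 1) ^ (w + 1) := by ring

private theorem bstExp (d e : ℕ) (hd : 0 < d) : ∃ w : ℕ, e * (d - 1) ^ w ≤ d ^ w := by
  obtain ⟨c, rfl⟩ : ∃ c, d = c + 1 := ⟨d - 1, by omega⟩
  rw [Nat.add_sub_cancel]
  rcases Nat.eq_zero_or_pos c with hc | hc
  · subst hc
    exact ⟨1, by simp⟩
  · refine ⟨e * c, ?_⟩
    have h1 := bstBer c (e * c)
    have h2 : c * (e * c ^ (e * c)) ≤ c * (c + 1) ^ (e * c) := by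
      refine le_trans (le_of_eq ?_) h1
      ring
    exact Nat.le_of_mul_le_mul_left h2 hc

theorem bst (p n : ℕ) [Fact p.Prime] (m f : ℕ → ℕ) (j : ℕ) (hQ : QP.{u} p n m f j) :
    QS.{u} p n m f j := by
  obtain ⟨d, hd, h⟩ := bst2 p n m f j hQ
  intro e b
  obtain ⟨w, hw⟩ := bstExp d e hd
  obtain ⟨T, hT⟩ := h w e b
  refine ⟨T, fun Γ _ _ G R H l hl hTl L hL => ?_⟩
  have h1 : ∀ x ∈ G ⊔ H, (gd R (L ⊓ (G ⊔ H)) j x ↔ gd R L j x) := by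
    intro x hx
    have h2 : st R (L ⊓ (G ⊔ H)) x = st R L x := by
      ext g
      rw [mem_st, mem_st]
      constructor
      · rintro ⟨h3, h4⟩
        exact ⟨h3, h4.1⟩
      · rintro ⟨h3, h4⟩
        refine ⟨h3, h4, ?_⟩
        have h5 : g ∈ G ⊔ H := (le_sup_right : H ≤ G ⊔ H) (hl.RH h3)
        exact (G ⊔ H).mul_mem ((G ⊔ H).mul_mem ((G ⊔ H).inv_mem hx) h5) hx
    unfold gd
    rw [h2]
  have h2 : {x : Γ | x ∈ G ⊔ H ∧ ¬ gd R (L ⊓ (G ⊔ H)) j x} = {x : Γ | x ∈ G ⊔ H ∧ ¬ gd R L j x} := by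
    ext x
    constructor
    · rintro ⟨h3, h4⟩
      exact ⟨h3, fun h5 => h4 ((h1 x h3).2 h5)⟩
    · rintro ⟨h3, h4⟩
      exact ⟨h3, fun h5 => h4 ((h1 x h3).1 h5)⟩
  have h3 : Nat.card {x : Γ // x ∈ G ⊔ H ∧ ¬ gd R (L ⊓ (G ⊔ H)) j x} =
      Nat.card {x : Γ // x ∈ G ⊔ H ∧ ¬ gd R L j x} := by
    have e1 : Nat.card {x : Γ // x ∈ G ⊔ H ∧ ¬ gd R (L ⊓ (G ⊔ H)) j x} =
        {x : Γ | x ∈ G ⊔ H ∧ ¬ gd R (L ⊓ (G ⊔ H)) j x}.ncard := Nat.card_coe_set_eq _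
    have e2 : Nat.card {x : Γ // x ∈ G ⊔ H ∧ ¬ gd R L j x} =
        {x : Γ | x ∈ G ⊔ H ∧ ¬ gd R L j x}.ncard := Nat.card_coe_set_eq _
    rw [e1, e2, h2]
  have h4 := hT Γ G R H l hl hTl (L ⊓ (G ⊔ H)) inf_le_right (fun h5 => hL (h5.trans inf_le_left))
  rw [h3] at h4
  rcases h4 with h4 | h4
  · exact h4
  · have h5 : d ^ w * (e * Nat.card {x : Γ // x ∈ G ⊔ H ∧ ¬ gd R L j x}) ≤
        d ^ w * Nat.card (G ⊔ H : Subgroup Γ) := by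
      calc _ = e * (d ^ w * Nat.card {x : Γ // x ∈ G ⊔ H ∧ ¬ gd R L j x}) := by ring
        _ ≤ e * ((d - 1) ^ w * Nat.card (G ⊔ H : Subgroup Γ)) := Nat.mul_le_mul_left _ h4
        _ = (e * (d - 1) ^ w) * Nat.card (G ⊔ H : Subgroup Γ) := by ring
        _ ≤ d ^ w * Nat.card (G ⊔ H : Subgroup Γ) := Nat.mul_le_mul_right _ hw
    exact Nat.le_of_mul_le_mul_left h5 (pow_pos hd w)

end H78CY
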