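import Pool.Agent.H78.CY.PsA
import Pool.Agent.H78.TP.NilSyl

/-!
[H78 CY PSB] The quotients `P_a / N_a` and `N_a / P_{a+1}` (40 min).

PROOFS. Let `X = PS p G a`, so `up p X = X` (`PS_up`) and `NS p G a = dn p X`.
(1) `dn p X` is normalised by `X` (`dn_nm (nm_self X)`), and `X / dn p X` is a `p`-group: for
`x ∈ X` write `orderOf x = p ^ k * t` with `p ∤ t`; then `x ^ (p ^ k)` has order `t`, so it lies in
`dn p X`. This is `PS_pow`; `NS_relIndex` follows (work in the group `X`, quotient by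
`(dn p X).subgroupOf X`, `IsPGroup.iff_card`; `Subgroup.relIndex`).
(2) `lns X 1 = nres X = dn p X`: `≤`: the quotient `X / dn p X` is a finite `p`-group, so it is
nilpotent, so some `gam X c ≤ dn p X` (map `gam` to the quotient of the group `X`). `≥`: let
`gam X c = nres X` (`exists_gam_eq`). `X / nres X` is nilpotent; in a finite nilpotent group the
elements of `p`-power order form a subgroup (the Sylow subgroup is normal, TP `nilSyl` may help), so
`X / nres X`, generated by elements of `p`-power order, is a `p`-group; the elements of order prime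
to `p` of `X` have trivial image, so `dn p X ≤ nres X`.
(3) `NS_le_comm`: `nres X ≤ ⁅X, X⁆` (`nres_le_commutator`).
(4) `PS_le_lns`: induction on `c`; `P_{a+c+1} ≤ N_{a+c} = lns (P_{a+c}) 1 ≤ lns (lns P_a c) 1
= lns P_a (c + 1)` by `lns_mono`, `lns_add`.
(5) `NS_ndvd`: if `p ∣ |N_a : P_{a+1}|`, there is by Cauchy's theorem (in `N_a / P_{a+1}`) an element
of order `p`; a suitable power of a preimage has `p`-power order and is not in `P_{a+1}`, but all
elements of `p`-power order of `N_a` are in `P_{a+1} = up p (N_a)`.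
(6) `PS_nil`, `XS_nil`: `X = P_a`: `gam P_a c = nres P_a = N_a`. `X = lns N_a c ⊔ P_{a+1}`:
`gam (A ⊔ B) k ≤ gam A k ⊔ B` for `A = lns N_a c`, `B = P_{a+1}`, which is normalised by `A`
(induction on `k`: `⁅gam A k ⊔ B, A ⊔ B⁆ ≤ gam A (k+1) ⊔ B`), and `gam A k = nres A` for large `k`.
-/

namespace H78CY

open Subgroup H78TP
open scoped commutatorElement

variable {Γ : Type*} [Group Γ] {p : ℕ}

private theorem psb_normal {S B : Subgroup Γ} (hB : Nm S B) : (B.subgroupOf S).Normal := ⟨fun n hn g => by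
  rw [mem_subgroupOf] at hn ⊢
  exact hB g g.2 n hn⟩

/-- decomposition of the order -/
private theorem psb_ord [Finite Γ] [hp : Fact p.Prime] (x : Γ) : ∃ k t : ℕ, ¬ p ∣ t ∧ orderOf x = p ^ k * t := by
  have h1 : orderOf x ≠ 0 := (orderOf_pos x).ne'
  obtain ⟨k, t, ht, h2⟩ := Nat.exists_eq_pow_mul_and_not_dvd h1 p hp.out.ne_one
  exact ⟨k, t, ht, h2⟩

private theorem psb_ord_pow [Finite Γ] [hp : Fact p.Prime] (x : Γ) (k t : ℕ) (h : orderOf x = p ^ k * t) :
    orderOf (x ^ (p ^ k)) = t := by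
  have h0 : p ^ k ≠ 0 := pow_ne_zero _ hp.out.ne_zero
  rw [orderOf_pow_of_dvd h0 (by rw [h]; exact Dvd.intro _ rfl), h]
  exact Nat.mul_div_cancel_left _ (Nat.pos_of_ne_zero h0)

/-- an element of order prime to `p` some `p`-power of which is in `K` is in `K` -/
private theorem psb_cop [Finite Γ] [hp : Fact p.Prime] (K : Subgroup Γ) (x : Γ) (hx : ¬ p ∣ orderOf x) (k : ℕ)
    (h : x ^ (p ^ k) ∈ K) : x ∈ K := by
  have h1 : Nat.Coprime (orderOf x) (p ^ k) :=
    Nat.Coprime.pow_right k ((Nat.Prime.coprime_iff_not_dvd hp.out).2 hx).symm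
  obtain ⟨m, hm⟩ := exists_pow_eq_self_of_coprime h1.symm
  rw [← hm]
  exact K.pow_mem h m

theorem PS_pow [Finite Γ] [Fact p.Prime] (G : Subgroup Γ) (a : ℕ) :
    ∀ x ∈ PS p G a, ∃ k : ℕ, x ^ (p ^ k) ∈ NS p G a := by
  intro x hx
  obtain ⟨k, t, ht, h⟩ := psb_ord (p := p) x
  refine ⟨k, subset_closure ⟨pow_mem hx _, ?_⟩⟩
  rw [psb_ord_pow x k t h]
  exact ht

/-- a quotient of `S` as an abstract group -/
private theorem psb_quot.{v} {Γ : Type v} [Group Γ] [Finite Γ] {S B : Subgroup Γ} (hB : Nm S B) :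
    ∃ (Q : Type v) (_ : Group Q) (_ : Finite Q) (f : ↥S →* Q), Function.Surjective f ∧
      (∀ x : ↥S, f x = 1 ↔ (x : Γ) ∈ B) ∧ Nat.card Q = B.relIndex S := by
  have := psb_normal hB
  refine ⟨↥S ⧸ B.subgroupOf S, inferInstance, inferInstance, QuotientGroup.mk' _, QuotientGroup.mk'_surjective _, ?_, rfl⟩
  intro x
  rw [QuotientGroup.mk'_apply, QuotientGroup.eq_one_iff, mem_subgroupOf]

theorem NS_relIndex [Finite Γ] [Fact p.Prime] (G : Subgroup Γ) (a : ℕ) :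
    ∃ k : ℕ, (NS p G a).relIndex (PS p G a) = p ^ k := by
  obtain ⟨Q, _, _, f, hf, hk, hc⟩ := psb_quot (S := PS p G a) (B := NS p G a) (dn_nm (nm_self _))
  rw [← hc]
  apply IsPGroup.iff_card.1
  intro q
  obtain ⟨x, rfl⟩ := hf q
  obtain ⟨k, h⟩ := PS_pow (p := p) G a x x.2
  refine ⟨k, ?_⟩
  rw [← map_pow, hk]
  exact h

/-- the image of `gam` in a quotient -/
private theorem psb_gam_quot {S : Subgroup Γ} {Q : Type*} [Group Q] (f : ↥S →* Q) (hf : Function.Surjective f)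
    (n : ℕ) (x : ↥S) : f x ∈ gam (⊤ : Subgroup Q) n ↔ ∃ y : ↥S, (y : Γ) ∈ gam S n ∧ f y = f x := by
  have h1 : (gam (⊤ : Subgroup ↥S) n).map f = gam (⊤ : Subgroup Q) n := by
    rw [gam_map]
    congr 1
    exact Subgroup.map_top_of_surjective f hf
  have h2 : (gam (⊤ : Subgroup ↥S) n).map S.subtype = gam S n := by
    rw [gam_map]
    congr 1
    rw [← MonoidHom.range_eq_map, Subgroup.range_subtype]
  rw [← h1]
  constructor
  · rintro ⟨y, hy, he⟩
    refine ⟨y, ?_, he⟩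
    rw [← h2]
    exact ⟨y, hy, rfl⟩
  · rintro ⟨y, hy, he⟩
    rw [← h2] at hy
    obtain ⟨z, hz, hzy⟩ := hy
    have : z = y := Subtype.ext hzy
    rw [← this] at he
    exact ⟨z, hz, he⟩

private theorem psb_gam_p [Finite Γ] [hp : Fact p.Prime] {X N : Subgroup Γ} (hn : Nm X N)
    (hpw : ∀ x ∈ X, ∃ k : ℕ, x ^ (p ^ k) ∈ N) : ∃ c, gam X c ≤ N := by
  obtain ⟨Q, _, _, f, hf, hk, -⟩ := psb_quot hn
  have hQ : IsPGroup p Q := by
    intro q
    obtain ⟨x, rfl⟩ := hf q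
    obtain ⟨k, h⟩ := hpw x x.2
    exact ⟨k, by rw [← map_pow, hk]; exact h⟩
  have hQt : IsPGroup p (⊤ : Subgroup Q) := hQ.to_subgroup ⊤
  have hnil : Group.IsNilpotent (⊤ : Subgroup Q) := hQt.isNilpotent
  obtain ⟨c, hc⟩ := gam_of_isNilpotent (⊤ : Subgroup Q) hnil
  refine ⟨c, ?_⟩
  intro x hx
  have hxX := gam_le X c hx
  have h1 : f ⟨x, hxX⟩ ∈ gam (⊤ : Subgroup Q) c := (psb_gam_quot f hf c ⟨x, hxX⟩).2 ⟨⟨x, hxX⟩, hx, rfl⟩
  rw [hc, mem_bot, hk] at h1
  exact h1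

private theorem psb_nres [Finite Γ] [hp : Fact p.Prime] {X : Subgroup Γ} (hX : up p X = X) : dn p X ≤ nres X := by
  have hn : Nm X (nres X) := by
    have := nm_lns (nm_self X) 1
    exact this
  obtain ⟨Q, _, _, f, hf, hk, -⟩ := psb_quot hn
  obtain ⟨c, hc⟩ := exists_gam_eq X
  have hbot : gam (⊤ : Subgroup Q) c = ⊥ := by
    rw [eq_bot_iff]
    intro q hq
    obtain ⟨x, rfl⟩ := hf q
    obtain ⟨y, hy, he⟩ := (psb_gam_quot f hf c x).1 hq
    rw [hc c le_rfl] at hy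
    rw [mem_bot, ← he, hk]
    exact hy
  obtain ⟨S, hSn, -, hSp, hSi⟩ := nilSyl (⊤ : Subgroup Q) inferInstance c hbot p
  have hSi' : ¬ p ∣ S.index := by rwa [relIndex_top_right] at hSi
  -- all elements of p-power order are in S
  have hS1 : ∀ q : Q, (∃ k : ℕ, q ^ (p ^ k) = 1) → q ∈ S := by
    rintro q ⟨k, hqk⟩
    have h1 : (QuotientGroup.mk' S q) ^ (p ^ k) = 1 := by rw [← map_pow, hqk, map_one]
    have h2 : (QuotientGroup.mk' S q) ^ (Nat.card (Q ⧸ S)) = 1 := pow_card_eq_one'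
    have h3 : Nat.Coprime (p ^ k) (Nat.card (Q ⧸ S)) := by
      apply Nat.Coprime.pow_left
      exact (Nat.Prime.coprime_iff_not_dvd hp.out).2 hSi'
    have h4 : orderOf (QuotientGroup.mk' S q) ∣ 1 := by
      rw [← h3.gcd_eq_one]
      exact Nat.dvd_gcd (orderOf_dvd_of_pow_eq_one h1) (orderOf_dvd_of_pow_eq_one h2)
    have h5 : QuotientGroup.mk' S q = 1 := orderOf_eq_one_iff.1 (Nat.dvd_one.1 h4)
    rwa [QuotientGroup.mk'_apply, QuotientGroup.eq_one_iff] at h5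
  -- f maps X into S
  have hS2 : ∀ x : ↥X, f x ∈ S := by
    have h1 : X ≤ (S.comap f).map X.subtype := by
      calc X = up p X := hX.symm
        _ ≤ (S.comap f).map X.subtype := by
          unfold up
          rw [closure_le]
          rintro x ⟨hx, k, hk'⟩
          refine ⟨⟨x, hx⟩, ?_, rfl⟩
          show f ⟨x, hx⟩ ∈ S
          refine hS1 _ ⟨k, ?_⟩
          rw [← map_pow]
          have : (⟨x, hx⟩ : ↥X) ^ (p ^ k) = 1 := Subtype.ext (by rw [SubmonoidClass.coe_pow]; exact hk')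
          rw [this, map_one]
    intro x
    obtain ⟨y, hy, he⟩ := h1 x.2
    have : y = x := Subtype.ext he
    rw [← this]
    exact hy
  unfold dn
  rw [closure_le]
  rintro x ⟨hx, hxo⟩
  obtain ⟨k, hk1⟩ := hSp ⟨f ⟨x, hx⟩, hS2 _⟩
  apply psb_cop (p := p) (nres X) x hxo k
  have h1 : f (⟨x, hx⟩ ^ (p ^ k)) = 1 := by
    have := congrArg Subtype.val hk1
    rw [SubmonoidClass.coe_pow] at this
    rw [map_pow]
    exact this
  rw [hk] at h1
  exact h1

theorem lns_PS_one [Finite Γ] [Fact p.Prime] (G : Subgroup Γ) (a : ℕ) :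
    lns (PS p G a) 1 = NS p G a := by
  apply le_antisymm
  · obtain ⟨c, hc⟩ := psb_gam_p (p := p) (X := PS p G a) (N := NS p G a) (dn_nm (nm_self _)) (PS_pow G a)
    exact lns_one_of_gam hc
  · exact psb_nres (PS_up G a)

theorem NS_le_comm [Finite Γ] [Fact p.Prime] (G : Subgroup Γ) (a : ℕ) :
    NS p G a ≤ ⁅PS p G a, PS p G a⁆ := by
  rw [← lns_PS_one]
  exact nres_le_commutator _

theorem PS_le_lns [Finite Γ] [Fact p.Prime] (G : Subgroup Γ) (a c : ℕ) :
    PS p G (a + c) ≤ lns (PS p G a) c := by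
  induction c with
  | zero => exact le_rfl
  | succ c ih =>
    calc PS p G (a + (c + 1)) ≤ NS p G (a + c) := PS_succ_le_NS G (a + c)
      _ = lns (PS p G (a + c)) 1 := (lns_PS_one G (a + c)).symm
      _ ≤ lns (lns (PS p G a) c) 1 := lns_mono ih 1
      _ = lns (PS p G a) (c + 1) := lns_add _ c 1

theorem NS_ndvd [Finite Γ] [hp : Fact p.Prime] (G : Subgroup Γ) (a : ℕ) :
    ¬ p ∣ (PS p G (a + 1)).relIndex (NS p G a) := by
  have hn : Nm (NS p G a) (PS p G (a + 1)) := up_nm (nm_self _)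
  obtain ⟨Q, _, _, f, hf, hk, hc⟩ := psb_quot hn
  rw [← hc]
  intro hdvd
  obtain ⟨q, hq⟩ := exists_prime_orderOf_dvd_card' p hdvd
  obtain ⟨x, rfl⟩ := hf q
  obtain ⟨k, t, ht, h⟩ := psb_ord (p := p) (x : Γ)
  have h1 : (x : Γ) ^ t ∈ PS p G (a + 1) := by
    refine subset_closure ⟨pow_mem x.2 _, k, ?_⟩
    rw [← pow_mul, mul_comm, ← h, pow_orderOf_eq_one]
  have h2 : f x ^ t = 1 := by
    rw [← map_pow, hk, SubmonoidClass.coe_pow]
    exact h1
  have h3 := orderOf_dvd_of_pow_eq_one h2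
  rw [hq] at h3
  exact ht h3

theorem PS_nil [Finite Γ] [Fact p.Prime] (G : Subgroup Γ) (a : ℕ) :
    ∃ k, gam (PS p G a) k ≤ NS p G a :=
  psb_gam_p (p := p) (X := PS p G a) (N := NS p G a) (dn_nm (nm_self _)) (PS_pow G a)

theorem XS_nil [Finite Γ] (G : Subgroup Γ) (a c : ℕ) :
    ∃ k, gam (XS p G a c) k ≤ XS p G a (c + 1) := by
  obtain ⟨A, hA⟩ : ∃ A, A = lns (NS p G a) c := ⟨_, rfl⟩
  obtain ⟨B, hB⟩ : ∃ B, B = PS p G (a + 1) := ⟨_, rfl⟩
  obtain ⟨S, hS⟩ : ∃ S, S = XS p G a c := ⟨_, rfl⟩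
  have hSAB : S = A ⊔ B := by rw [hS, hA, hB]; rfl
  have hAN : S ≤ NS p G a := by rw [hS]; exact XS_le_NS G a c
  have hn : Nm S B := by
    rw [hB]
    exact nm_mono (up_nm (nm_self _)) hAN
  obtain ⟨Q, _, _, f, hf, hk, -⟩ := psb_quot hn
  obtain ⟨k, hck⟩ := exists_gam_eq A
  refine ⟨k, ?_⟩
  have hAS : A ≤ S := by rw [hSAB]; exact le_sup_left
  have hBS : B ≤ S := by rw [hSAB]; exact le_sup_right
  have h1 : (A.subgroupOf S).map f = ⊤ := by
    have h2 : (A.subgroupOf S) ⊔ (B.subgroupOf S) = ⊤ := by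
      rw [← Subgroup.subgroupOf_sup hAS hBS, ← hSAB, subgroupOf_self]
    have h3 : ((A.subgroupOf S) ⊔ (B.subgroupOf S)).map f = ⊤ := by
      rw [h2]
      exact Subgroup.map_top_of_surjective f hf
    rw [Subgroup.map_sup] at h3
    have h4 : (B.subgroupOf S).map f = ⊥ := by
      rw [eq_bot_iff]
      rintro _ ⟨x, hx, rfl⟩
      rw [mem_bot, hk]
      exact hx
    rwa [h4, sup_bot_eq] at h3
  have h2 : (gam (A.subgroupOf S) k).map f = gam (⊤ : Subgroup Q) k := by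
    rw [gam_map, h1]
  have h3 : (gam (A.subgroupOf S) k).map S.subtype = gam A k := by
    rw [gam_map]
    congr 1
    rw [Subgroup.map_subgroupOf_eq_of_le hAS]
  rw [← hS]
  intro x hx
  have hxS : x ∈ S := gam_le S k hx
  have h4 : f ⟨x, hxS⟩ ∈ gam (⊤ : Subgroup Q) k := (psb_gam_quot f hf k ⟨x, hxS⟩).2 ⟨⟨x, hxS⟩, hx, rfl⟩
  rw [← h2] at h4
  obtain ⟨y, hy, he⟩ := h4
  have h5 : (y : Γ) ∈ gam A k := by
    rw [← h3]
    exact ⟨y, hy, rfl⟩
  rw [hck k le_rfl] at h5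
  have h6 : f (y⁻¹ * ⟨x, hxS⟩) = 1 := by rw [map_mul, map_inv, he, inv_mul_cancel]
  rw [hk] at h6
  have h7 : x = (y : Γ) * ((y : Γ)⁻¹ * x) := by group
  rw [h7]
  unfold XS
  have h8 : (y : Γ) ∈ lns (NS p G a) (c + 1) := by
    rw [lns_succ, ← hA]
    exact h5
  have h9 : (y : Γ)⁻¹ * x ∈ PS p G (a + 1) := by
    rw [← hB]
    exact h6
  exact mul_mem (mem_sup_left h8) (mem_sup_right h9)

end H78CY
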