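import Pool.Agent.H78.CY.NtA
import Pool.Agent.H78.CY.PsB

/-!
[H78 CY CHN] The chain lemma (40 min).

PROOF. `G ⊔ H` normalises `G` (`nm_left (nm_self G) h.GH`), hence all `PS`, `NS`, `XS` (`PS_nm` ...).
If `¬ G' ≤ NS p G a ⊔ L` take `X = PS p G a`, `Xm = NS p G a`. Otherwise `G' ≤ XS p G a 0 ⊔ L`
(`XS_zero`), and `¬ G' ≤ XS p G a k ⊔ L` for `k = f (l - a)` (`XS_bot` with `h.ht a (l - a)`). Take the
largest `c` with `G' ≤ XS p G a c ⊔ L` (`Nat.find` for the first `c'` with `¬ G' ≤ XS p G a c' ⊔ L`;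
`c' ≠ 0`), `X = XS p G a c`, `Xm = XS p G a (c + 1)`.
NONTRIVIAL ACTION. First case, `X = P_a`, `a = a' + 1`, `r` a prime, `N_a ≤ M ≤ P_a`, `x ^ r ∈ M` and
`P_{a'}` acts trivially on `X / M`. If `r = p`: `ntP` (`N_{a'} ≤ P_{a'}`). If `r ≠ p`: for `x ∈ X` some
`x ^ (p ^ k) ∈ N_a ≤ M` (`PS_pow`) and `x ^ r ∈ M`, so `x ∈ M`. Second case, `X = XS p G a c` and `P_a`
acts trivially on `X / M`: `c = 0`: `r = p`: `ntY`; `r ≠ p`: `ntN`. `c = c' + 1`: `ntX` (`XS p G a c' ≤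
N_a ≤ P_a`, `P_{a+1} ≤ Xm ≤ M`). In the second case the statement for `P_{a-1}` follows from the one
for `P_a ≤ P_{a-1}` (`PS_anti`).
-/

namespace H78CY

open Subgroup H78TP
open scoped commutatorElement

variable {Γ : Type*} [Group Γ]

/-- the first `c` at which a decreasing condition fails -/
private theorem chn_first {P : ℕ → Prop} (h0 : P 0) (k : ℕ) (hk : ¬ P k) : ∃ c, P c ∧ ¬ P (c + 1) := by
  induction k with
  | zero => exact absurd h0 hk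
  | succ k ih =>
    by_cases h : P k
    · exact ⟨k, h, hk⟩
    · exact ih h

private theorem chn_pow {p r : ℕ} (hp : p.Prime) (hr : r.Prime) (hne : r ≠ p) (M : Subgroup Γ) (x : Γ) (k : ℕ)
    (h1 : x ^ (p ^ k) ∈ M) (h2 : x ^ r ∈ M) : x ∈ M := by
  have h3 : Nat.Coprime (p ^ k) r :=
    Nat.Coprime.pow_left k ((Nat.coprime_primes hp hr).2 (Ne.symm hne))
  have h4 : (x ^ ((p ^ k : ℕ) : ℤ)) ∈ M := by rw [zpow_natCast]; exact h1
  have h5 : (x ^ ((r : ℕ) : ℤ)) ∈ M := by rw [zpow_natCast]; exact h2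
  have h6 : x = (x ^ ((p ^ k : ℕ) : ℤ)) ^ ((p ^ k).gcdA r) * (x ^ ((r : ℕ) : ℤ)) ^ ((p ^ k).gcdB r) := by
    rw [← zpow_mul, ← zpow_mul, ← zpow_add, ← Nat.gcd_eq_gcd_ab, h3.gcd_eq_one]
    simp
  rw [h6]
  exact M.mul_mem (M.zpow_mem h4 _) (M.zpow_mem h5 _)

/-- nontrivial action for the members of the chain below `N_a` -/
private theorem chn_XS {p : ℕ} [Fact p.Prime] [Finite Γ] (G : Subgroup Γ) (a c : ℕ) (M : Subgroup Γ) (r : ℕ)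
    (hr : r.Prime) (hM1 : XS p G a (c + 1) ≤ M) (hM2 : M ≤ XS p G a c) (hx : ∀ x ∈ XS p G a c, x ^ r ∈ M)
    (hc : ∀ y ∈ PS p G a, ∀ x ∈ XS p G a c, ⁅y, x⁆ ∈ M) : XS p G a c ≤ M := by
  cases c with
  | zero =>
    rw [XS_zero] at hM2 hx hc ⊢
    by_cases hrp : r = p
    · apply ntY p G M a
      intro x hx1
      refine ⟨1, ?_⟩
      rw [pow_one, ← hrp]
      exact hx x hx1
    · have : Fact r.Prime := ⟨hr⟩
      refine ntN p r hrp G M a hM2 ?_ hc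
      intro x hx1
      refine ⟨1, ?_⟩
      rw [pow_one]
      exact hx x hx1
  | succ c =>
    refine ntX p G M a c ((PS_le_XS G a (c + 1 + 1)).trans hM1) ?_
    intro y hy x hx1
    exact hc y (NS_le_PS G a (XS_le_NS G a c hy)) x hx1

theorem chn {p n : ℕ} {m f : ℕ → ℕ} {l : ℕ} [Fact p.Prime] [Finite Γ] {G R H : Subgroup Γ}
    (h : LHyp p n m f l G R H) (G' L : Subgroup Γ) (a : ℕ) (ha : a < l)
    (h1 : G' ≤ PS p G a ⊔ L) (h2 : ¬ G' ≤ PS p G (a + 1) ⊔ L) :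
    ∃ X Xm : Subgroup Γ, Xm ≤ X ∧ PS p G (a + 1) ≤ Xm ∧ X ≤ PS p G a ∧ Nm (G ⊔ H) X ∧
      Nm (G ⊔ H) Xm ∧ (∃ k, gam X k ≤ Xm) ∧ G' ≤ X ⊔ L ∧ ¬ G' ≤ Xm ⊔ L ∧
      (1 ≤ a → ∀ (M : Subgroup Γ) (r : ℕ), r.Prime → Xm ≤ M → M ≤ X → (∀ x ∈ X, x ^ r ∈ M) →
        (∀ y ∈ PS p G (a - 1), ∀ x ∈ X, ⁅y, x⁆ ∈ M) → X ≤ M) ∧
      ((X = PS p G a ∧ Xm = NS p G a) ∨
        (X ≤ NS p G a ∧ ∀ (M : Subgroup Γ) (r : ℕ), r.Prime → Xm ≤ M → M ≤ X →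
          (∀ x ∈ X, x ^ r ∈ M) → (∀ y ∈ PS p G a, ∀ x ∈ X, ⁅y, x⁆ ∈ M) → X ≤ M)) := by
  have hpp : p.Prime := Fact.out
  have hGH : Nm (G ⊔ H) G := nm_left (nm_self G) h.GH
  by_cases hN : G' ≤ NS p G a ⊔ L
  · have h0 : G' ≤ XS p G a 0 ⊔ L := by rw [XS_zero]; exact hN
    have hbot : ¬ G' ≤ XS p G a (f (l - a)) ⊔ L := by
      rw [XS_bot G a (f (l - a)) (h.ht a (l - a) (by omega))]
      exact h2
    obtain ⟨c, hc1, hc2⟩ := chn_first (P := fun c => G' ≤ XS p G a c ⊔ L) h0 _ hbot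
    refine ⟨XS p G a c, XS p G a (c + 1), XS_succ_le G a c, PS_le_XS G a (c + 1),
      (XS_le_NS G a c).trans (NS_le_PS G a), XS_nm hGH a c, XS_nm hGH a (c + 1), XS_nil G a c, hc1, hc2,
      ?_, Or.inr ⟨XS_le_NS G a c, ?_⟩⟩
    · intro ha1 M r hr hM1 hM2 hx hcc
      refine chn_XS G a c M r hr hM1 hM2 hx ?_
      intro y hy x hx1
      exact hcc y (PS_anti G (Nat.sub_le a 1) hy) x hx1
    · intro M r hr hM1 hM2 hx hcc
      exact chn_XS G a c M r hr hM1 hM2 hx hcc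
  · refine ⟨PS p G a, NS p G a, NS_le_PS G a, PS_succ_le_NS G a, le_rfl, PS_nm hGH a, NS_nm hGH a, PS_nil G a,
      h1, hN, ?_, Or.inl ⟨rfl, rfl⟩⟩
    intro ha1 M r hr hM1 hM2 hx hcc
    obtain ⟨b, rfl⟩ : ∃ b, a = b + 1 := ⟨a - 1, by omega⟩
    by_cases hrp : r = p
    · refine ntP p G M b hM2 ?_ ?_
      · intro x hx1
        refine ⟨1, ?_⟩
        rw [pow_one, ← hrp]
        exact hx x hx1
      · intro y hy x hx1
        refine hcc y ?_ x hx1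
        rw [Nat.add_sub_cancel]
        exact NS_le_PS G b hy
    · intro x hx1
      obtain ⟨k, hk⟩ := PS_pow (p := p) G (b + 1) x hx1
      exact chn_pow hpp hr hrp M x k (hM1 hk) (hx x hx1)

end H78CY
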