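import Pool.Agent.H78.CY.PsA

/-!
[H78 CY EXM] A chief-like factor for a section with nilpotent quotient (40 min).

PROOF. Let `M₀ = (X ⊓ L) ⊔ ⁅X, X⁆`. It is contained in `X`, contains `Xm` (`Xm ≤ X`, `Xm ≤ L`), is
normalised by `X` (it contains `⁅X, X⁆`) and by `L` (`L` normalises `X`, `X ⊓ L` and `⁅X, X⁆`).
CLAIM `M₀ ≠ X`. Suppose `M₀ = X`, put `I = X ⊓ L`. By induction `X = I ⊔ gam X k` for all `k`:
`k = 0` trivial; if `X = I ⊔ gam X k` (and `k ≥ 1` or `k = 0`), then modulo `N = gam X (k + 1)` (normal in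
`X`) the subgroup `gam X k` is central, so `⁅X, X⁆ = ⁅I (gam X k), I (gam X k)⁆ ≤ ⁅I, I⁆ N ≤ I N`, hence
`X = I ⁅X, X⁆ ≤ I N` (for `k = 0` the claim for `k + 1 = 1` is the assumption). So `X = I ⊔ gam X k ≤
I ⊔ Xm = I` for large `k`, i.e. `X ≤ L`: contradiction. [Alternative: `X / Xm` nilpotent, and a
subgroup `I` of a finite nilpotent group with `I ⁅X, X⁆ = X` is everything, e.g. by the normaliser
condition: a maximal subgroup containing `I` is normal of prime index.]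
Let `A = X / M₀`, a nontrivial finite commutative group, and `r` a prime divisor of its order.
`M = M₀ ⊔ closure {x ^ r | x ∈ X}` (`= {x ∈ X : x ∈ x'^r M₀}`); it is normalised by `X` and `L`. If
`M = X` then every element of `A` is an `r`-th power, so `a ↦ a ^ r` is surjective, hence injective
on `A`, contradicting Cauchy's theorem. `r` divides `|X : M₀|`, which divides `|X : Xm|`
(`Subgroup.relIndex_dvd...`).
-/

namespace H78CY

open Subgroup H78TP
open scoped commutatorElement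

variable {Γ : Type*} [Group Γ]

/-- the supplement of the derived subgroup is a supplement of the lower central series -/
private theorem exm_sup {A : Type*} [Group A] (I : Subgroup A) (h : I ⊔ ⁅(⊤ : Subgroup A), ⊤⁆ = ⊤) (n : ℕ) :
    I ⊔ gam (⊤ : Subgroup A) n = ⊤ := by
  induction n with
  | zero => exact sup_top_eq I
  | succ n ih =>
    have hn : (gam (⊤ : Subgroup A) n).Normal := gam_normal inferInstance n
    have hn1 : (gam (⊤ : Subgroup A) (n + 1)).Normal := gam_normal inferInstance (n + 1)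
    obtain ⟨N, hN⟩ : ∃ N, N = gam (⊤ : Subgroup A) (n + 1) := ⟨_, rfl⟩
    rw [← hN] at hn1 ⊢
    have hcen : ∀ g ∈ gam (⊤ : Subgroup A) n, ∀ a : A,
        Commute (QuotientGroup.mk' N g) (QuotientGroup.mk' N a) := by
      intro g hg a
      have h1 : ⁅g, a⁆ ∈ N := by
        rw [hN, gam_succ]
        exact Subgroup.commutator_mem_commutator hg (mem_top a)
      rw [← commutatorElement_eq_one_iff_commute, ← map_commutatorElement]
      rwa [QuotientGroup.mk'_apply, QuotientGroup.eq_one_iff]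
    have hcom : ⁅(⊤ : Subgroup A), ⊤⁆ ≤ I ⊔ N := by
      rw [Subgroup.commutator_le]
      intro x _ y _
      have hx : x ∈ I ⊔ gam (⊤ : Subgroup A) n := by rw [ih]; exact mem_top x
      have hy : y ∈ I ⊔ gam (⊤ : Subgroup A) n := by rw [ih]; exact mem_top y
      rw [Subgroup.mem_sup_of_normal_right] at hx hy
      obtain ⟨i, hi, g, hg, rfl⟩ := hx
      obtain ⟨i', hi', g', hg', rfl⟩ := hy
      have h1 : QuotientGroup.mk' N ⁅i * g, i' * g'⁆ = QuotientGroup.mk' N ⁅i, i'⁆ := by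
        rw [map_commutatorElement, map_commutatorElement, map_mul, map_mul, commutatorElement_def,
          commutatorElement_def]
        have c1 := hcen g hg i'
        have c2 := hcen g hg g'
        have c3 := hcen g' hg' i
        have c4 := hcen g hg i
        obtain ⟨a, ha⟩ : ∃ a, a = QuotientGroup.mk' N i := ⟨_, rfl⟩
        obtain ⟨b, hb⟩ : ∃ b, b = QuotientGroup.mk' N i' := ⟨_, rfl⟩
        obtain ⟨u, hu⟩ : ∃ u, u = QuotientGroup.mk' N g := ⟨_, rfl⟩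
        obtain ⟨v, hv⟩ : ∃ v, v = QuotientGroup.mk' N g' := ⟨_, rfl⟩
        rw [← ha, ← hb, ← hu, ← hv]
        rw [← hu, ← hb] at c1
        rw [← hu, ← hv] at c2
        rw [← hv, ← ha] at c3
        rw [← hu, ← ha] at c4
        have e1 : a * u * (b * v) = a * b * (v * u) := by
          calc a * u * (b * v) = a * (u * b) * v := by simp only [mul_assoc]
            _ = a * (b * u) * v := by rw [c1.eq]
            _ = a * b * (u * v) := by simp only [mul_assoc]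
            _ = a * b * (v * u) := by rw [c2.eq]
        calc a * u * (b * v) * (a * u)⁻¹ * (b * v)⁻¹ = a * b * (v * u) * (a * u)⁻¹ * (b * v)⁻¹ := by rw [e1]
          _ = a * b * v * a⁻¹ * v⁻¹ * b⁻¹ := by group
          _ = a * b * (v * a⁻¹) * v⁻¹ * b⁻¹ := by simp only [mul_assoc]
          _ = a * b * (a⁻¹ * v) * v⁻¹ * b⁻¹ := by rw [c3.inv_right.eq]
          _ = a * b * a⁻¹ * b⁻¹ := by group
      have h2 : ⁅i, i'⁆⁻¹ * ⁅i * g, i' * g'⁆ ∈ N := by
        rw [← QuotientGroup.eq_one_iff, ← QuotientGroup.mk'_apply, map_mul, map_inv, h1, inv_mul_cancel]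
      have h3 : ⁅i, i'⁆ ∈ I := by
        rw [commutatorElement_def]
        exact I.mul_mem (I.mul_mem (I.mul_mem hi hi') (I.inv_mem hi)) (I.inv_mem hi')
      have h4 : ⁅i * g, i' * g'⁆ = ⁅i, i'⁆ * (⁅i, i'⁆⁻¹ * ⁅i * g, i' * g'⁆) := by
        rw [mul_inv_cancel_left]
      rw [h4]
      exact mul_mem (mem_sup_left h3) (mem_sup_right h2)
    rw [eq_top_iff, ← h]
    exact sup_le le_sup_left hcom

/-- powers in a finite commutative quotient -/
private theorem exm_pow {A : Type*} [Group A] [Finite A] (N : Subgroup A) [N.Normal]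
    (hc : ∀ x y : A, ⁅x, y⁆ ∈ N) (hN : N ≠ ⊤) : ∃ (r : ℕ) (M : Subgroup A), r.Prime ∧ r ∣ N.index ∧ N ≤ M ∧
      M ≠ ⊤ ∧ (∀ x, x ^ r ∈ M) ∧ (∀ x, x ∈ M ↔ ∃ y, (y ^ r)⁻¹ * x ∈ N) := by
  have hcom : ∀ x y : A ⧸ N, Commute x y := by
    intro x y
    obtain ⟨x, rfl⟩ := QuotientGroup.mk'_surjective N x
    obtain ⟨y, rfl⟩ := QuotientGroup.mk'_surjective N y
    rw [← commutatorElement_eq_one_iff_commute, ← map_commutatorElement]
    rw [QuotientGroup.mk'_apply, QuotientGroup.eq_one_iff]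
    exact hc x y
  have hidx : N.index ≠ 1 := fun h => hN (Subgroup.index_eq_one.1 h)
  obtain ⟨r, hr, hrd⟩ := Nat.exists_prime_and_dvd hidx
  have hiff : ∀ x y : A, QuotientGroup.mk' N x = (QuotientGroup.mk' N y) ^ r ↔ (y ^ r)⁻¹ * x ∈ N := by
    intro x y
    rw [← QuotientGroup.eq_one_iff, ← QuotientGroup.mk'_apply, map_mul, map_inv, map_pow]
    constructor
    · intro h
      rw [h, inv_mul_cancel]
    · intro h
      exact (inv_mul_eq_one.1 h).symm
  let M : Subgroup A :=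
    { carrier := {x | ∃ y, QuotientGroup.mk' N x = (QuotientGroup.mk' N y) ^ r}
      one_mem' := ⟨1, by simp⟩
      mul_mem' := by
        rintro x x' ⟨y, hy⟩ ⟨y', hy'⟩
        exact ⟨y * y', by rw [map_mul, map_mul, (hcom _ _).mul_pow, hy, hy']⟩
      inv_mem' := by
        rintro x ⟨y, hy⟩
        exact ⟨y⁻¹, by rw [map_inv, map_inv, inv_pow, hy]⟩ }
  have hM : ∀ x, x ∈ M ↔ ∃ y, QuotientGroup.mk' N x = (QuotientGroup.mk' N y) ^ r := fun x => Iff.rfl
  refine ⟨r, M, hr, hrd, ?_, ?_, ?_, ?_⟩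
  · intro x hx
    refine (hM x).2 ⟨1, ?_⟩
    rw [map_one, one_pow, QuotientGroup.mk'_apply, QuotientGroup.eq_one_iff]
    exact hx
  · intro hT
    have hsur : Function.Surjective (fun q : A ⧸ N => q ^ r) := by
      intro q
      obtain ⟨x, rfl⟩ := QuotientGroup.mk'_surjective N q
      obtain ⟨y, hy⟩ := (hM x).1 (hT ▸ mem_top x)
      exact ⟨_, hy.symm⟩
    have hinj : Function.Injective (fun q : A ⧸ N => q ^ r) := Finite.injective_iff_surjective.2 hsur
    have : Fact r.Prime := ⟨hr⟩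
    obtain ⟨q, hq⟩ := exists_prime_orderOf_dvd_card' r (G := A ⧸ N) hrd
    have h1 : q = 1 := by
      apply hinj
      show q ^ r = 1 ^ r
      rw [one_pow, ← hq, pow_orderOf_eq_one]
    rw [h1, orderOf_one] at hq
    exact hr.one_lt.ne hq
  · intro x
    exact (hM _).2 ⟨x, by rw [map_pow]⟩
  · intro x
    rw [hM]
    exact exists_congr fun y => hiff x y

theorem exM [Finite Γ] (X Xm L : Subgroup Γ) (hm : Xm ≤ X) (nil : ∃ k, gam X k ≤ Xm)
    (nL : Nm L X) (hmL : Xm ≤ L) (hX : ¬ X ≤ L) :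
    ∃ (r : ℕ) (M : Subgroup Γ), r.Prime ∧ M ≤ X ∧ Xm ≤ M ∧ X ⊓ L ≤ M ∧ Nm X M ∧ Nm L M ∧
      (∀ x ∈ X, x ^ r ∈ M) ∧ (∀ x ∈ X, ∀ y ∈ X, ⁅x, y⁆ ∈ M) ∧ ¬ X ≤ M ∧
      r ∣ Xm.relIndex X := by
  obtain ⟨M₀, hM₀⟩ : ∃ M₀ : Subgroup Γ, M₀ = (X ⊓ L) ⊔ ⁅X, X⁆ := ⟨_, rfl⟩
  have hcomX : ⁅X, X⁆ ≤ X := by
    rw [Subgroup.commutator_le]
    intro a ha b hb
    rw [commutatorElement_def]
    exact X.mul_mem (X.mul_mem (X.mul_mem ha hb) (X.inv_mem ha)) (X.inv_mem hb)
  have h0X : M₀ ≤ X := by rw [hM₀]; exact sup_le inf_le_left hcomX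
  have h0c : ∀ x ∈ X, ∀ y ∈ X, ⁅x, y⁆ ∈ M₀ := by
    intro x hx y hy
    rw [hM₀]
    exact mem_sup_right (Subgroup.commutator_mem_commutator hx hy)
  have h0m : Xm ≤ M₀ := by
    rw [hM₀]
    exact (le_inf hm hmL).trans le_sup_left
  have h0I : X ⊓ L ≤ M₀ := by rw [hM₀]; exact le_sup_left
  have nX : ∀ M : Subgroup Γ, M ≤ X → (∀ x ∈ X, ∀ y ∈ X, ⁅x, y⁆ ∈ M) → Nm X M := by
    intro M hMX hMc y hy x hx
    have h1 : y * x * y⁻¹ = ⁅y, x⁆ * x := by
      rw [commutatorElement_def, inv_mul_cancel_right]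
    rw [h1]
    exact M.mul_mem (hMc y hy x (hMX hx)) hx
  have n0X : Nm X M₀ := nX M₀ h0X h0c
  have n0L : Nm L M₀ := by
    rw [hM₀]
    refine nm_sup (nm_inf nL (nm_self L)) ?_
    have h1 : (gam X 1) = ⁅X, X⁆ := rfl
    intro y hy x hx
    have h2 : (⁅X, X⁆ : Subgroup Γ).map (MulAut.conj y).toMonoidHom ≤ ⁅X, X⁆ := by
      rw [Subgroup.map_commutator]
      have h3 : X.map (MulAut.conj y).toMonoidHom ≤ X := by
        rintro _ ⟨z, hz, rfl⟩
        exact nL y hy z hz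
      exact Subgroup.commutator_mono h3 h3
    exact h2 ⟨x, hx, rfl⟩
  -- the claim
  have hclaim : ¬ X ≤ M₀ := by
    intro hXM
    obtain ⟨k, hk⟩ := nil
    have hmap : ∀ n, (gam (⊤ : Subgroup ↥X) n).map X.subtype = gam X n := by
      intro n
      rw [gam_map]
      congr 1
      rw [← MonoidHom.range_eq_map, Subgroup.range_subtype]
    have h1 : ((X ⊓ L).subgroupOf X) ⊔ ⁅(⊤ : Subgroup ↥X), ⊤⁆ = ⊤ := by
      rw [eq_top_iff]
      intro x _
      have h2 : (x : Γ) ∈ (((X ⊓ L).subgroupOf X) ⊔ ⁅(⊤ : Subgroup ↥X), ⊤⁆).map X.subtype := by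
        have h3 : (⁅(⊤ : Subgroup ↥X), ⊤⁆ : Subgroup ↥X).map X.subtype = ⁅X, X⁆ := hmap 1
        rw [Subgroup.map_sup, h3, Subgroup.map_subgroupOf_eq_of_le inf_le_left, ← hM₀]
        exact hXM x.2
      obtain ⟨z, hz, hzx⟩ := h2
      have : z = x := Subtype.ext hzx
      rwa [← this]
    have h2 := exm_sup _ h1 k
    apply hX
    intro x hx
    have h3 : (⟨x, hx⟩ : ↥X) ∈ ((X ⊓ L).subgroupOf X) ⊔ gam (⊤ : Subgroup ↥X) k := by
      rw [h2]; exact mem_top _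
    have h4 : gam (⊤ : Subgroup ↥X) k ≤ (X ⊓ L).subgroupOf X := by
      intro z hz
      rw [mem_subgroupOf]
      apply (le_inf hm hmL)
      apply hk
      rw [← hmap k]
      exact ⟨z, hz, rfl⟩
    rw [sup_eq_left.2 h4, mem_subgroupOf] at h3
    exact h3.2
  -- the quotient
  have hnor : (M₀.subgroupOf X).Normal := ⟨fun z hz g => by
    rw [mem_subgroupOf] at hz ⊢
    exact n0X g g.2 z hz⟩
  obtain ⟨r, M', hr, hrd, hNM, hMT, hpw, hmem⟩ := exm_pow (M₀.subgroupOf X)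
    (fun x y => by
      rw [mem_subgroupOf]
      exact h0c x x.2 y y.2)
    (fun h => hclaim (Subgroup.subgroupOf_eq_top.1 h))
  have hmemM : ∀ x, x ∈ M'.map X.subtype ↔ x ∈ X ∧ ∃ y ∈ X, (y ^ r)⁻¹ * x ∈ M₀ := by
    intro x
    constructor
    · rintro ⟨z, hz, rfl⟩
      obtain ⟨y, hy⟩ := (hmem z).1 hz
      exact ⟨z.2, y, y.2, hy⟩
    · rintro ⟨hx, y, hy, h⟩
      exact ⟨⟨x, hx⟩, (hmem _).2 ⟨⟨y, hy⟩, h⟩, rfl⟩
  have h0M : M₀ ≤ M'.map X.subtype := by
    intro x hx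
    exact ⟨⟨x, h0X hx⟩, hNM hx, rfl⟩
  have hMX : M'.map X.subtype ≤ X := fun x hx => ((hmemM x).1 hx).1
  have hMc : ∀ x ∈ X, ∀ y ∈ X, ⁅x, y⁆ ∈ M'.map X.subtype := fun x hx y hy => h0M (h0c x hx y hy)
  refine ⟨r, M'.map X.subtype, hr, hMX, h0m.trans h0M, h0I.trans h0M, nX _ hMX hMc, ?_, ?_, hMc, ?_, ?_⟩
  · intro l hl x hx
    obtain ⟨hxX, y, hy, h⟩ := (hmemM x).1 hx
    refine (hmemM _).2 ⟨nL l hl x hxX, l * y * l⁻¹, nL l hl y hy, ?_⟩
    have h1 : ((l * y * l⁻¹) ^ r)⁻¹ * (l * x * l⁻¹) = l * ((y ^ r)⁻¹ * x) * l⁻¹ := by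
      rw [conj_pow]
      group
    rw [h1]
    exact n0L l hl _ h
  · intro x hx
    exact ⟨⟨x, hx⟩ ^ r, hpw _, rfl⟩
  · intro h
    apply hMT
    rw [eq_top_iff]
    intro x _
    obtain ⟨z, hz, hzx⟩ := h x.2
    have : z = x := Subtype.ext hzx
    rwa [← this]
  · have h1 : Xm.relIndex M₀ * M₀.relIndex X = Xm.relIndex X := Subgroup.relIndex_mul_relIndex _ _ _ h0m h0X
    rw [← h1]
    exact Dvd.dvd.mul_left hrd _

end H78CY
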