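import Pool.Agent.H78.CY.Cc

/-!
[H78 CY LC1] Fixed points on `J L / L` (40 min).

PROOF. `lc1`: let `T = {e ∈ J | e⁻¹ g e ∈ L}`; if it is empty nothing is to be proved; let `e₁ ∈ T`,
`l₁ = e₁⁻¹ g e₁ ∈ L`. For `e₂ = e₁ y ∈ T` (`y ∈ J`) we have `y⁻¹ l₁ y ∈ L`, so `l₁⁻¹ y⁻¹ l₁ y ∈ L`, and it
is in `J` as `L` normalises `J`; so `l₁⁻¹ y⁻¹ l₁ y ∈ J ⊓ L ≤ M`, i.e. `⁅l₁⁻¹, y⁻¹⁆ ∈ M`. `l₁` normalises
`M` and `J`, and acts on `J / M` (commutative) in the same way as `g`: `g` normalises `J` and `M`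
(as `g ∈ J ⊔ L`), `l₁ = e₁⁻¹ (g e₁ g⁻¹) g ∈ J g`. Hence `⁅g, y⁆ ∈ M`, `y ∈ C`. So `T ⊆ e₁ C`,
`|T| ≤ |C|`, and `|C| * C.relIndex J = |J|` (`C ≤ J`, `Subgroup.card_mul_index` /
`Subgroup.relIndex_mul_card`).
`lc3`: take `g ∈ D` with `C = {x ∈ J | ⁅g, x⁆ ∈ M} ≠ J` (`exCg`), `C.relIndex J ≥ 2`, and `lc1`.
`lc2`: for `e ∈ J`, `g ∈ st R L e`: `g ∈ R`, `g ∈ e L e⁻¹ ≤ J ⊔ L`. If `g ∉ Dc R (J ⊔ L) J M (r ^ s)` then
`g` is not small, i.e. `r ^ s < C_g.relIndex J` for the subgroup `C_g` of `exCg`. So by `lc1` for every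
`g ∈ R` outside `Dc` the number of `e ∈ J` with `e⁻¹ g e ∈ L` is at most `|J| / 2 ^ s`; sum over `g`
(`{e | ¬ st R L e ≤ Dc}` is the union over `g ∈ R`, `g ∉ Dc` of these sets).
-/

namespace H78CY

open Subgroup H78TP
open scoped commutatorElement

variable {Γ : Type*} [Group Γ]

private theorem lcsurj [Finite Γ] {L J : Subgroup Γ} (h : Nm L J) {y : Γ} (hy : y ∈ L) {x : Γ} :
    y⁻¹ * x * y ∈ J ↔ x ∈ J := by
  constructor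
  · intro hx
    have h1 := h y hy _ hx
    have e : y * (y⁻¹ * x * y) * y⁻¹ = x := by group
    rwa [e] at h1
  · intro hx
    have h1 := h y⁻¹ (L.inv_mem hy) _ hx
    have e : y⁻¹ * x * y⁻¹⁻¹ = y⁻¹ * x * y := by group
    rwa [e] at h1

private theorem lckey [Finite Γ] {J L M : Subgroup Γ} {g : Γ}
    (nLJ : Nm L J) (hM : M ≤ J) (hJL : J ⊓ L ≤ M) (nJM : Nm J M) (nLM : Nm L M)
    (hc : ∀ x ∈ J, ∀ y ∈ J, ⁅x, y⁆ ∈ M) (hg : g ∈ J ⊔ L) {a b : Γ} (ha : a ∈ J)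
    (ha' : a⁻¹ * g * a ∈ L) (hb : b ∈ J) (hb' : (a * b)⁻¹ * g * (a * b) ∈ L) : ⁅g, b⁆ ∈ M := by
  obtain ⟨l, hl⟩ : ∃ l, l = a⁻¹ * g * a := ⟨_, rfl⟩
  have nYJ : Nm (J ⊔ L) J := nm_left (nm_self J) nLJ
  have hlL : l ∈ L := by rw [hl]; exact ha'
  have e1 : (a * b)⁻¹ * g * (a * b) = b⁻¹ * l * b := by rw [hl]; group
  rw [e1] at hb'
  -- `l⁻¹ b⁻¹ l b ∈ J ⊓ L`
  have h1 : l⁻¹ * b⁻¹ * l * b ∈ M := by
    apply hJL
    constructor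
    · have h2 := nLJ l⁻¹ (L.inv_mem hlL) b⁻¹ (J.inv_mem hb)
      have e : l⁻¹ * b⁻¹ * l⁻¹⁻¹ = l⁻¹ * b⁻¹ * l := by group
      rw [e] at h2
      exact J.mul_mem h2 hb
    · have h2 := L.mul_mem (L.inv_mem hlL) hb'
      have e : l⁻¹ * (b⁻¹ * l * b) = l⁻¹ * b⁻¹ * l * b := by group
      rwa [e] at h2
  -- `[l, b] ∈ M`
  have h3 : ⁅l, b⁆ ∈ M := by
    have h4 := nLM l hlL _ h1
    have e : l * (l⁻¹ * b⁻¹ * l * b) * l⁻¹ = b⁻¹ * (l * b * l⁻¹) := by group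
    rw [e] at h4
    have h5 := nJM b hb _ h4
    have e2 : b * (b⁻¹ * (l * b * l⁻¹)) * b⁻¹ = ⁅l, b⁆ := by
      rw [commutatorElement_def]
      group
    rwa [e2] at h5
  -- `g = u l` with `u ∈ J`
  have hu : a * (g * a⁻¹ * g⁻¹) ∈ J := J.mul_mem ha (nYJ g hg _ (J.inv_mem ha))
  obtain ⟨v, hv⟩ : ∃ v, v = g * l⁻¹ := ⟨_, rfl⟩
  have hvJ : v ∈ J := by
    have e4 : g * l⁻¹ = g * a⁻¹ * g⁻¹ * a := by
      rw [hl]
      group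
    rw [hv, e4]
    exact J.mul_mem (nYJ g hg _ (J.inv_mem ha)) ha
  have e5 : ⁅g, b⁆ = (v * ⁅l, b⁆ * v⁻¹) * ⁅v, b⁆ := by
    have e6 : g = v * l := by rw [hv]; group
    rw [e6, commutatorElement_def, commutatorElement_def, commutatorElement_def]
    group
  rw [e5]
  exact M.mul_mem (nJM v hvJ _ h3) (hc v hvJ b hb)

theorem lc1 [Finite Γ] (J L M C : Subgroup Γ) (g : Γ) (hC : ∀ x, x ∈ C ↔ x ∈ J ∧ ⁅g, x⁆ ∈ M)
    (nLJ : Nm L J) (hM : M ≤ J) (hJL : J ⊓ L ≤ M) (nJM : Nm J M) (nLM : Nm L M)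
    (hc : ∀ x ∈ J, ∀ y ∈ J, ⁅x, y⁆ ∈ M) (hg : g ∈ J ⊔ L) :
    Nat.card {e : Γ // e ∈ J ∧ e⁻¹ * g * e ∈ L} * C.relIndex J ≤ Nat.card J := by
  have hCJ : C ≤ J := fun x hx => ((hC x).1 hx).1
  have h1 : Nat.card {e : Γ // e ∈ J ∧ e⁻¹ * g * e ∈ L} ≤ Nat.card C := by
    by_cases hne : Nonempty {e : Γ // e ∈ J ∧ e⁻¹ * g * e ∈ L}
    · obtain ⟨⟨a, ha, ha'⟩⟩ := hne
      refine Nat.card_le_card_of_injective (β := C)
        (fun z => ⟨a⁻¹ * z.1, (hC _).2 ⟨J.mul_mem (J.inv_mem ha) z.2.1, ?_⟩⟩) ?_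
      · refine lckey nLJ hM hJL nJM nLM hc hg ha ha' (J.mul_mem (J.inv_mem ha) z.2.1) ?_
        rw [mul_inv_cancel_left]
        exact z.2.2
      · intro z1 z2 h12
        have h2 : a⁻¹ * z1.1 = a⁻¹ * z2.1 := congrArg Subtype.val h12
        exact Subtype.ext (mul_left_cancel h2)
    · rw [not_nonempty_iff] at hne
      rw [Nat.card_of_isEmpty]
      exact Nat.zero_le _
  calc _ ≤ Nat.card C * C.relIndex J := Nat.mul_le_mul_right _ h1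
    _ = Nat.card J := by
      have h6 := Subgroup.relIndex_mul_relIndex (⊥ : Subgroup Γ) C J bot_le hCJ
      rw [Subgroup.relIndex_bot_left, Subgroup.relIndex_bot_left] at h6
      exact h6
    _ ≤ _ := le_rfl

theorem lc2 [Finite Γ] (R J L M : Subgroup Γ) (nLJ : Nm L J) (hM : M ≤ J) (hJL : J ⊓ L ≤ M)
    (nJM : Nm J M) (nLM : Nm L M) (hc : ∀ x ∈ J, ∀ y ∈ J, ⁅x, y⁆ ∈ M) (r s : ℕ) (hr : 2 ≤ r) :
    2 ^ s * Nat.card {e : Γ // e ∈ J ∧ ¬ st R L e ≤ Dc R (J ⊔ L) J M (r ^ s)} ≤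
      Nat.card R * Nat.card J := by
  classical
  haveI : Fintype Γ := Fintype.ofFinite Γ
  obtain ⟨D, hD⟩ : ∃ D, D = Dc R (J ⊔ L) J M (r ^ s) := ⟨_, rfl⟩
  rw [← hD]
  -- the bound for a fixed element
  have h1 : ∀ g : R, 2 ^ s * Nat.card {e : Γ // e ∈ J ∧ (g : Γ) ∉ D ∧ e⁻¹ * g * e ∈ L} ≤ Nat.card J := by
    intro g
    by_cases hne : Nonempty {e : Γ // e ∈ J ∧ (g : Γ) ∉ D ∧ e⁻¹ * g * e ∈ L}
    · obtain ⟨⟨a, ha, hgD, ha'⟩⟩ := hne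
      have hgY : (g : Γ) ∈ J ⊔ L := by
        have h2 : a ∈ J ⊔ L := (le_sup_left : J ≤ J ⊔ L) ha
        have h3 : a⁻¹ * g * a ∈ J ⊔ L := (le_sup_right : L ≤ J ⊔ L) ha'
        have e : (g : Γ) = a * (a⁻¹ * g * a) * a⁻¹ := by group
        rw [e]
        exact (J ⊔ L).mul_mem ((J ⊔ L).mul_mem h2 h3) ((J ⊔ L).inv_mem h2)
      obtain ⟨C, hC⟩ := exCg nJM (g : Γ)
      have h2 := lc1 J L M C g hC nLJ hM hJL nJM nLM hc hgY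
      have h3 : r ^ s < C.relIndex J := by
        by_contra h4
        apply hgD
        rw [hD]
        exact Subgroup.subset_closure ⟨g.2, hgY, C, hC, by omega⟩
      have h4 : 2 ^ s ≤ C.relIndex J := (Nat.pow_le_pow_left hr s).trans h3.le
      have h5 : Nat.card {e : Γ // e ∈ J ∧ (g : Γ) ∉ D ∧ e⁻¹ * g * e ∈ L} ≤
          Nat.card {e : Γ // e ∈ J ∧ e⁻¹ * g * e ∈ L} := by
        refine Nat.card_le_card_of_injective (fun z => ⟨z.1, z.2.1, z.2.2.2⟩) ?_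
        intro z1 z2 h12
        have h13 : z1.1 = z2.1 := Subtype.mk.inj h12
        exact Subtype.ext h13
      calc _ ≤ C.relIndex J * Nat.card {e : Γ // e ∈ J ∧ e⁻¹ * g * e ∈ L} := Nat.mul_le_mul h4 h5
        _ ≤ _ := by rw [mul_comm]; exact h2
    · rw [not_nonempty_iff] at hne
      rw [Nat.card_of_isEmpty, mul_zero]
      exact Nat.zero_le _
  have h2 : Nat.card {e : Γ // e ∈ J ∧ ¬ st R L e ≤ D} ≤
      ∑ g : R, Nat.card {e : Γ // e ∈ J ∧ (g : Γ) ∉ D ∧ e⁻¹ * g * e ∈ L} := by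
    rw [← Nat.card_sigma]
    have h3 : ∀ z : {e : Γ // e ∈ J ∧ ¬ st R L e ≤ D}, ∃ g : R, (g : Γ) ∉ D ∧ z.1⁻¹ * g * z.1 ∈ L := by
      intro z
      by_contra hcon
      push Not at hcon
      apply z.2.2
      intro g hg
      by_contra hgD
      exact hcon ⟨g, hg.1⟩ hgD hg.2
    choose w hw using h3
    refine Nat.card_le_card_of_injective (fun z => ⟨w z, z.1, z.2.1, (hw z).1, (hw z).2⟩) ?_
    intro z1 z2 h12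
    have h4 : (⟨w z1, z1.1, z1.2.1, (hw z1).1, (hw z1).2⟩ : Σ g : R,
        {e : Γ // e ∈ J ∧ (g : Γ) ∉ D ∧ e⁻¹ * g * e ∈ L}).2.1 =
        (⟨w z2, z2.1, z2.2.1, (hw z2).1, (hw z2).2⟩ : Σ g : R,
        {e : Γ // e ∈ J ∧ (g : Γ) ∉ D ∧ e⁻¹ * g * e ∈ L}).2.1 := by
      have h5 : (⟨w z1, z1.1, z1.2.1, (hw z1).1, (hw z1).2⟩ : Σ g : R,
        {e : Γ // e ∈ J ∧ (g : Γ) ∉ D ∧ e⁻¹ * g * e ∈ L}) =
        ⟨w z2, z2.1, z2.2.1, (hw z2).1, (hw z2).2⟩ := h12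
      rw [h5]
    exact Subtype.ext h4
  calc _ ≤ 2 ^ s * ∑ g : R, Nat.card {e : Γ // e ∈ J ∧ (g : Γ) ∉ D ∧ e⁻¹ * g * e ∈ L} :=
        Nat.mul_le_mul_left _ h2
    _ = ∑ g : R, 2 ^ s * Nat.card {e : Γ // e ∈ J ∧ (g : Γ) ∉ D ∧ e⁻¹ * g * e ∈ L} := by
        rw [Finset.mul_sum]
    _ ≤ ∑ _g : R, Nat.card J := Finset.sum_le_sum fun g _ => h1 g
    _ = Nat.card R * Nat.card J := by
        rw [Finset.sum_const, Finset.card_univ, smul_eq_mul, Nat.card_eq_fintype_card (α := R)]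

theorem lc3 [Finite Γ] (J L M D : Subgroup Γ) (nLJ : Nm L J) (hM : M ≤ J) (hJL : J ⊓ L ≤ M)
    (nJM : Nm J M) (nLM : Nm L M) (hc : ∀ x ∈ J, ∀ y ∈ J, ⁅x, y⁆ ∈ M) (hD : D ≤ J ⊔ L)
    (hne : ∃ g ∈ D, ∃ x ∈ J, ⁅g, x⁆ ∉ M) :
    2 * Nat.card {e : Γ // e ∈ J ∧ ∀ g ∈ D, e⁻¹ * g * e ∈ L} ≤ Nat.card J := by
  obtain ⟨g, hgD, x, hx, hgx⟩ := hne
  obtain ⟨C, hC⟩ := exCg nJM g
  have h2 := lc1 J L M C g hC nLJ hM hJL nJM nLM hc (hD hgD)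
  have h3 : 2 ≤ C.relIndex J := by
    have h4 : C.relIndex J ≠ 0 := Subgroup.index_ne_zero_of_finite
    have h5 : C.relIndex J ≠ 1 := by
      intro h6
      rw [Subgroup.relIndex_eq_one] at h6
      exact hgx ((hC x).1 (h6 hx)).2
    omega
  have h5 : Nat.card {e : Γ // e ∈ J ∧ ∀ g ∈ D, e⁻¹ * g * e ∈ L} ≤
      Nat.card {e : Γ // e ∈ J ∧ e⁻¹ * g * e ∈ L} := by
    refine Nat.card_le_card_of_injective (fun z => ⟨z.1, z.2.1, z.2.2 g hgD⟩) ?_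
    intro z1 z2 h12
    have h13 : z1.1 = z2.1 := Subtype.mk.inj h12
    exact Subtype.ext h13
  calc _ ≤ C.relIndex J * Nat.card {e : Γ // e ∈ J ∧ e⁻¹ * g * e ∈ L} := Nat.mul_le_mul h3 h5
    _ ≤ _ := by rw [mul_comm]; exact h2

end H78CY
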