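import Pool.Agent.H78.CY.Cc

/-!
[H78 CY STA] Facts on the stabilisers `st R L x` (20 min).

PROOFS. From the definition (`mem_rgCj : y ∈ rgCj x J ↔ x⁻¹ y x ∈ J`). `st_conj`: `g ↦ h g h⁻¹` is a
bijection from `st R L x` to `st R L (h x)` (`h` and `h⁻¹` normalise `R`; `Γ` finite, so `h R h⁻¹ ≤ R`
gives equality). `gd_mono`: a larger stabiliser for `L'`. `gd_of_lt`: a proper subgroup has at most
half the order.
-/

namespace H78CY

open Subgroup H78TP
open scoped commutatorElement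

variable {Γ : Type*} [Group Γ]

theorem st_le (R L : Subgroup Γ) (x : Γ) : st R L x ≤ R := fun _ h => h.1

theorem st_mono {R L L' : Subgroup Γ} (h : L ≤ L') (x : Γ) : st R L x ≤ st R L' x :=
  fun _ hg => ⟨hg.1, h hg.2⟩

private theorem stA_card [Finite Γ] {A B : Subgroup Γ} (h : A ≤ B) : Nat.card A ≤ Nat.card B :=
  Nat.card_le_card_of_injective _ (Subgroup.inclusion_injective h)

private theorem stA_conj [Finite Γ] {R L : Subgroup Γ} {h : Γ} (hR : ∀ g ∈ R, h * g * h⁻¹ ∈ R) (x : Γ) :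
    Nat.card (st R L x) ≤ Nat.card (st R L (h * x)) := by
  have h1 : ∀ g : Γ, g ∈ st R L x → h * g * h⁻¹ ∈ st R L (h * x) := by
    rintro g ⟨hg1, hg2⟩
    refine ⟨hR g hg1, ?_⟩
    have e : (h * x)⁻¹ * (h * g * h⁻¹) * (h * x) = x⁻¹ * g * x := by group
    rw [e]
    exact hg2
  refine Nat.card_le_card_of_injective
    (fun g : st R L x => (⟨h * g.1 * h⁻¹, h1 g.1 g.2⟩ : st R L (h * x))) ?_
  rintro ⟨a, ha⟩ ⟨b, hb⟩ hab
  have h2 : h * a * h⁻¹ = h * b * h⁻¹ := congrArg Subtype.val hab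
  apply Subtype.ext
  have h3 : h⁻¹ * (h * a * h⁻¹) * h = h⁻¹ * (h * b * h⁻¹) * h := by rw [h2]
  have e1 : h⁻¹ * (h * a * h⁻¹) * h = a := by group
  have e2 : h⁻¹ * (h * b * h⁻¹) * h = b := by group
  rw [e1, e2] at h3
  exact h3

theorem st_mul (R L : Subgroup Γ) (e x : Γ) : st R L (e * x) = st R (rgCj x L) e := by
  ext g
  rw [mem_st, mem_st, mem_rgCj]
  have e1 : (e * x)⁻¹ * g * (e * x) = x⁻¹ * (e⁻¹ * g * e) * x := by group
  rw [e1]

theorem st_eq (R L : Subgroup Γ) (x : Γ) : st R L x = R ⊓ rgCj x L := by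
  ext g
  rw [mem_st, Subgroup.mem_inf, mem_rgCj]

theorem st_left {R L : Subgroup Γ} {g x : Γ} (h : g ∈ rgCj x L) : st R L (g * x) = st R L x := by
  rw [mem_rgCj] at h
  ext y
  rw [mem_st, mem_st]
  have e1 : (g * x)⁻¹ * y * (g * x) = (x⁻¹ * g * x)⁻¹ * (x⁻¹ * y * x) * (x⁻¹ * g * x) := by group
  rw [e1]
  constructor
  · rintro ⟨h1, h2⟩
    refine ⟨h1, ?_⟩
    have h3 := L.mul_mem (L.mul_mem h h2) (L.inv_mem h)
    have e2 : (x⁻¹ * g * x) * ((x⁻¹ * g * x)⁻¹ * (x⁻¹ * y * x) * (x⁻¹ * g * x)) * (x⁻¹ * g * x)⁻¹ =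
        x⁻¹ * y * x := by group
    rw [e2] at h3
    exact h3
  · rintro ⟨h1, h2⟩
    exact ⟨h1, L.mul_mem (L.mul_mem (L.inv_mem h) h2) h⟩

theorem st_conj [Finite Γ] {R L : Subgroup Γ} {h : Γ} (hR : ∀ g ∈ R, h * g * h⁻¹ ∈ R) (x : Γ) :
    Nat.card (st R L (h * x)) = Nat.card (st R L x) := by
  apply le_antisymm
  · have hinj : Function.Injective (fun g : R => (⟨h * g.1 * h⁻¹, hR g.1 g.2⟩ : R)) := by
      rintro ⟨a, ha⟩ ⟨b, hb⟩ hab
      have h2 : h * a * h⁻¹ = h * b * h⁻¹ := congrArg Subtype.val hab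
      apply Subtype.ext
      have h3 : h⁻¹ * (h * a * h⁻¹) * h = h⁻¹ * (h * b * h⁻¹) * h := by rw [h2]
      have e1 : h⁻¹ * (h * a * h⁻¹) * h = a := by group
      have e2 : h⁻¹ * (h * b * h⁻¹) * h = b := by group
      rw [e1, e2] at h3
      exact h3
    have hsurj := Finite.surjective_of_injective hinj
    have hR' : ∀ g ∈ R, h⁻¹ * g * h⁻¹⁻¹ ∈ R := by
      intro g hg
      obtain ⟨⟨a, ha⟩, hab⟩ := hsurj ⟨g, hg⟩
      have h2 : h * a * h⁻¹ = g := congrArg Subtype.val hab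
      have h3 : h⁻¹ * g * h⁻¹⁻¹ = a := by
        rw [← h2]
        group
      rw [h3]
      exact ha
    have h4 := stA_conj (L := L) hR' (h * x)
    have e3 : h⁻¹ * (h * x) = x := by group
    rw [e3] at h4
    exact h4
  · exact stA_conj hR x

theorem gd_mono [Finite Γ] {R L L' : Subgroup Γ} {j : ℕ} {x : Γ} (h : st R L x ≤ st R L' x)
    (hg : gd R L' j x) : gd R L j x := by
  unfold gd at hg ⊢
  exact (Nat.mul_le_mul_left _ (stA_card h)).trans hg

theorem gd_of_lt [Finite Γ] {R L D : Subgroup Γ} {j : ℕ} {x : Γ} (h : st R L x ≤ D)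
    (hne : ¬ D ≤ st R L x) (hD : 2 ^ j * Nat.card D ≤ Nat.card R) : gd R L (j + 1) x := by
  unfold gd
  obtain ⟨k, hk⟩ := Subgroup.card_dvd_of_le h
  have hD0 : 0 < Nat.card D := Nat.card_pos
  have hk2 : 2 ≤ k := by
    rcases Nat.lt_or_ge k 2 with h1 | h1
    · interval_cases k
      · omega
      · exfalso
        apply hne
        rw [mul_one] at hk
        exact (Subgroup.eq_of_le_of_card_ge h hk.le).ge
    · exact h1
  calc 2 ^ (j + 1) * Nat.card (st R L x) = 2 ^ j * (Nat.card (st R L x) * 2) := by ring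
    _ ≤ 2 ^ j * (Nat.card (st R L x) * k) :=
      Nat.mul_le_mul_left _ (Nat.mul_le_mul_left _ hk2)
    _ = 2 ^ j * Nat.card D := by rw [← hk]
    _ ≤ Nat.card R := hD

theorem gd_of_le [Finite Γ] {R L D : Subgroup Γ} {j : ℕ} {x : Γ} (h : st R L x ≤ D)
    (hD : 2 ^ j * Nat.card D ≤ Nat.card R) : gd R L j x := by
  unfold gd
  exact (Nat.mul_le_mul_left _ (stA_card h)).trans hD

end H78CY
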