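import Pool.Agent.H78.CY.Dxc
import Pool.Agent.H78.CY.Chn
import Pool.Agent.H78.CY.ExM
import Pool.Agent.H78.CY.Lc1
import Pool.Agent.H78.CY.Avg
import Pool.Agent.H78.CY.StA

/-!
[H78 CY BST1] THE BOOST, CASE I (60 min).

PROOF. Let `s = e * n` (so `e * n ≤ 2 ^ s`, `Nat.lt_two_pow_self`), `b' = b + cz s + 1`, `Λ` from `dxc`
(for `b'`, `s`), `b2 = max (Λ + 1) b' + b + 1`. Let `Y = G ⊔ H`, `G' = PS p G (l - b2)`; `Y` normalises
`G` (`nm_left`), all `PS p G a`, and `L`-free facts below; `n > 0` because `1 ≤ |R| ≤ n`.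
(1) `G'` is not contained in `L` (`PS p G (l - b) ≤ G'`). Let `a` be the largest number `< l` with
`G' ≤ PS p G a ⊔ L`: `l - b ≤ a` by hypothesis, and `¬ G' ≤ PS p G (a + 1) ⊔ L` (for `a + 1 = l` because
`PS p G l = ⊥`, `h.bot`). Note `1 ≤ l - b ≤ a`.
(2) `chn` gives `X`, `Xm`. Let `L' = Xm ⊔ L ≤ Y`. `X ⊔ L' = X ⊔ L ≥ G'`, `¬ X ≤ L'`. `exM X Xm L'` gives
`r`, `M`. `exCc` gives `C` with `IsCc (X ⊔ L') X M C` (`X` and `L'` normalise `M`).
(3) Let `x ∈ Y`. `rgCj x X = X` (`rgCj_of_nm`), put `L_x = rgCj x L'`, `M_x = rgCj x M`, `Y_x = X ⊔ L_x =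
rgCj x (X ⊔ L')`. `PS p G (l - b2) = rgCj x (PS p G (l - b2)) ≤ Y_x`. `dxc` with `a0 = l - b2`, `J = X`,
`M = Z0 = M_x`, `Y = Y_x`, `C = rgCj x C` (`cc_conj`): either `2 ^ j |D| ≤ |R|` for
`D = Dc R Y_x X M_x (r ^ s)`, or `PS p G (l - b' + cz s) ≤ rgCj x C`. In the second case
`l - b' + cz s = l - b - 1`, and `PS p G (l - b - 1) = rgCj x (PS ..)`, so `PS p G (l - b - 1) ≤ C`
(`rgCj_le`), and `PS p G (a - 1) ≤ PS p G (l - b - 1) ≤ C`: this contradicts the statement on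
nontrivial action of `chn` (`1 ≤ a`) and `¬ X ≤ M`.
(4) `lc2` (`J = X`, `L = L_x`, `M = M_x`): `2 ^ s |{e ∈ X | ¬ st R L_x e ≤ D}| ≤ |R| |X| ≤ n |X|`. If
`st R L_x e ≤ D` then `gd R L' j (e x)` (`st_mul`, `gd_of_le`), so `gd R L j (e x)` (`gd_mono`, `L ≤ L'`).
`avg1` with `J = X`, `a = 2 ^ s`, `c = n`: `2 ^ s |{x ∈ Y | ¬ gd R L j x}| ≤ n |Y|`, and `e * n ≤ 2 ^ s`,
`0 < n` give the claim.
-/

namespace H78CY

open Subgroup H78TP
open scoped commutatorElement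

universe u

theorem bst1 (p n : ℕ) [Fact p.Prime] (m f : ℕ → ℕ) (j : ℕ) (hQ : QP.{u} p n m f j) (e b : ℕ) :
    ∃ b2 : ℕ, b < b2 ∧ ∀ (Γ : Type u) [Group Γ] [Finite Γ] (G R H : Subgroup Γ) (l : ℕ),
      LHyp p n m f l G R H → b2 ≤ l → ∀ L : Subgroup Γ, L ≤ G ⊔ H → ¬ PS p G (l - b) ≤ L →
      PS p G (l - b2) ≤ PS p G (l - b) ⊔ L →
      e * Nat.card {x : Γ // x ∈ G ⊔ H ∧ ¬ gd R L j x} ≤ Nat.card (G ⊔ H : Subgroup Γ) := by
  obtain ⟨Λ, hΛ⟩ := dxc.{u} p n m f j hQ (b + cz (e * n) + 1) (e * n)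
  refine ⟨max (Λ + 1) (b + cz (e * n) + 1) + b + 1, by omega, ?_⟩
  intro Γ _ _ G R H l h hl L hLY hnL hG'
  have e1 : Λ + 1 ≤ max (Λ + 1) (b + cz (e * n) + 1) := le_max_left _ _
  have e2 : b + cz (e * n) + 1 ≤ max (Λ + 1) (b + cz (e * n) + 1) := le_max_right _ _
  obtain ⟨b2, hb2⟩ : ∃ b2, b2 = max (Λ + 1) (b + cz (e * n) + 1) + b + 1 := ⟨_, rfl⟩
  rw [← hb2] at hl hG'
  have nYG : Nm (G ⊔ H) G := nm_left (nm_self G) h.GH
  have hnL' : ¬ PS p G (l - b2) ≤ L := fun hh => hnL ((PS_anti G (by omega)).trans hh)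
  -- (1)
  obtain ⟨a, ha1, ha2, hP1, hP2⟩ : ∃ a, l - b ≤ a ∧ a < l ∧ PS p G (l - b2) ≤ PS p G a ⊔ L ∧
      ¬ PS p G (l - b2) ≤ PS p G (a + 1) ⊔ L := by
    by_contra hcon
    push Not at hcon
    have hall : ∀ k : ℕ, l - b + k ≤ l → PS p G (l - b2) ≤ PS p G (l - b + k) ⊔ L := by
      intro k
      induction k with
      | zero => intro _; simpa using hG'
      | succ k ih =>
        intro hk
        exact hcon (l - b + k) (by omega) (by omega) (ih (by omega))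
    have h1 := hall b (by omega)
    have h2 : l - b + b = l := by omega
    rw [h2, h.bot, bot_sup_eq] at h1
    exact hnL' h1
  have hG'le : PS p G (l - b2) ≤ G ⊔ H := (PS_le G _).trans le_sup_left
  -- (2)
  obtain ⟨X, Xm, hXm, _, hXa, nX, nXm, hnil, hX1, hX2, hnt, _⟩ := chn h (PS p G (l - b2)) L a ha2 hP1 hP2
  have hXY : X ≤ G ⊔ H := hXa.trans ((PS_le G _).trans le_sup_left)
  obtain ⟨L', hL'⟩ : ∃ L', L' = Xm ⊔ L := ⟨_, rfl⟩
  have hL'Y : L' ≤ G ⊔ H := by rw [hL']; exact sup_le (hXm.trans hXY) hLY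
  have hLL' : L ≤ L' := by rw [hL']; exact le_sup_right
  have hXmL' : Xm ≤ L' := by rw [hL']; exact le_sup_left
  have hXL' : ¬ X ≤ L' := by
    intro hh
    apply hX2
    rw [← hL']
    exact hX1.trans (sup_le hh hLL')
  have nL'X : Nm L' X := nm_mono nX hL'Y
  obtain ⟨r, M, hr, hMX, hXmM, hXL'M, nXM, nL'M, hpow, hcomm, hXM, _⟩ :=
    exM X Xm L' hXm hnil nL'X hXmL' hXL'
  have hYL : X ⊔ L' ≤ G ⊔ H := sup_le hXY hL'Y
  have nYM : Nm (X ⊔ L') M := nm_left nXM nL'M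
  have nYX : Nm (X ⊔ L') X := nm_mono nX hYL
  obtain ⟨C, hC⟩ := exCc (J := X) nYM
  have hGX : PS p G (l - b2) ≤ X ⊔ L' := hX1.trans (sup_le le_sup_left (hLL'.trans le_sup_right))
  have hC1 : ¬ PS p G (l - b - 1) ≤ C := by
    intro hh
    apply hXM
    refine hnt (by omega) M r hr hXmM hMX hpow ?_
    intro y hy x hx
    exact ((hC y).1 (hh (PS_anti G (by omega) hy))).2 x hx
  -- (3)
  have key : ∀ x ∈ G ⊔ H, 2 ^ (e * n) * Nat.card {z : Γ // z ∈ rgCj x X ∧ ¬ gd R L j (z * x)} ≤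
      n * Nat.card X := by
    intro x hx
    have hxX : rgCj x X = X := rgCj_of_nm nX hx
    have hYx : X ⊔ rgCj x L' = rgCj x (X ⊔ L') := by rw [rgCj_sup, hxX]
    have nLX : Nm (rgCj x L') X := by
      have := nm_conj x nL'X
      rwa [hxX] at this
    have hMxX : rgCj x M ≤ X := by
      have := (rgCj_le x).2 hMX
      rwa [hxX] at this
    have hinf : X ⊓ rgCj x L' ≤ rgCj x M := by
      intro y hy
      have hy1 : y ∈ rgCj x X := by rw [hxX]; exact hy.1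
      have hy2 : y ∈ rgCj x L' := hy.2
      rw [mem_rgCj] at hy1 hy2 ⊢
      exact hXL'M ⟨hy1, hy2⟩
    have nXMx : Nm X (rgCj x M) := by
      have := nm_conj x nXM
      rwa [hxX] at this
    have nLMx : Nm (rgCj x L') (rgCj x M) := nm_conj x nL'M
    have hcx : ∀ u ∈ X, ∀ v ∈ X, ⁅u, v⁆ ∈ rgCj x M := by
      intro u hu v hv
      have hu1 : u ∈ rgCj x X := by rw [hxX]; exact hu
      have hv1 : v ∈ rgCj x X := by rw [hxX]; exact hv
      rw [mem_rgCj] at hu1 hv1 ⊢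
      have h1 := hcomm _ hu1 _ hv1
      have h2 : x⁻¹ * ⁅u, v⁆ * x = ⁅x⁻¹ * u * x, x⁻¹ * v * x⁆ := by
        rw [commutatorElement_def, commutatorElement_def]
        group
      rw [h2]
      exact h1
    have hpx : ∀ u ∈ X, u ^ r ∈ rgCj x M := by
      intro u hu
      have hu1 : u ∈ rgCj x X := by rw [hxX]; exact hu
      rw [mem_rgCj] at hu1 ⊢
      have h1 := hpow _ hu1
      have h2 : (x⁻¹ * u * x) ^ r = x⁻¹ * u ^ r * x := by
        have := conj_pow (a := x⁻¹) (b := u) (i := r)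
        simpa using this
      rw [← h2]
      exact h1
    have hD : 2 ^ j * Nat.card (Dc R (X ⊔ rgCj x L') X (rgCj x M) (r ^ (e * n))) ≤ Nat.card R := by
      have hPx : ∀ c, rgCj x (PS p G c) = PS p G c := fun c => rgCj_of_nm (PS_nm nYG c) hx
      have h1 := hΛ Γ G R H l h (l - b2) (by omega) r X (rgCj x M) (rgCj x M) (X ⊔ rgCj x L') hr
        (by
          rw [hYx, ← hPx (l - b2)]
          exact (rgCj_le x).2 hGX)
        (nm_left (nm_self X) nLX) (nm_left nXMx nLMx) (nm_left nXMx nLMx) le_rfl hMxX nXMx hcx hpx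
        (by
          intro g hg z hz
          rw [commutatorElement_def]
          have h1 := (nm_left nXMx nLMx) g hg z hz
          exact (rgCj x M).mul_mem h1 ((rgCj x M).inv_mem hz))
        (rgCj x C)
        (by
          have := cc_conj x hC
          rw [← hYx, hxX] at this
          exact this)
      rcases h1 with h1 | h1
      · exact h1
      · exfalso
        apply hC1
        have h2 : l - (b + cz (e * n) + 1) + cz (e * n) = l - b - 1 := by omega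
        rw [h2, ← hPx] at h1
        exact (rgCj_le x).1 h1
    have h2 := lc2 R X (rgCj x L') (rgCj x M) nLX hMxX hinf nXMx nLMx hcx r (e * n) hr.two_le
    refine le_trans ?_ (h2.trans (Nat.mul_le_mul_right _ h.cR))
    apply Nat.mul_le_mul_left
    refine Nat.card_le_card_of_injective
      (fun z => ⟨z.1, hxX.le z.2.1, fun hh => z.2.2 ?_⟩) ?_
    · have h3 : gd R (rgCj x L') j z.1 := gd_of_le hh hD
      have h4 : gd R L' j (z.1 * x) := by
        unfold gd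
        rw [st_mul]
        exact h3
      exact gd_mono (st_mono hLL' _) h4
    · intro z1 z2 h12
      have := congrArg Subtype.val h12
      exact Subtype.ext this
  -- (4)
  have h5 := avg1 (G ⊔ H) X hXY (fun x => ¬ gd R L j x) (2 ^ (e * n)) n key
  have hn : 0 < n := lt_of_lt_of_le Nat.card_pos h.cR
  have h6 : e * n ≤ 2 ^ (e * n) := Nat.lt_two_pow_self.le
  have h7 : n * (e * Nat.card {x : Γ // x ∈ G ⊔ H ∧ ¬ gd R L j x}) ≤
      n * Nat.card (G ⊔ H : Subgroup Γ) := by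
    refine le_trans ?_ h5
    rw [← mul_assoc, mul_comm n e]
    exact Nat.mul_le_mul_right _ h6
  exact Nat.le_of_mul_le_mul_left h7 hn

end H78CY
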