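import Pool.Agent.H78.CY.Bst1
import Pool.Agent.H78.CY.AvgL

/-!
[H78 CY BST2] THE BOOST, CASE II (50 min).

PROOF. `d`, and for every `b` a number `TQ b`, from `hQ`. Induction on `w` (for all `b`); `w = 0`: the
second alternative is `|bad| ≤ |Y|`, true with `T = 0`. Step `w → w + 1`, given `b`: `b2` from `bst1`
for `(e, b)`, `b3 = max b2 (TQ b2 + 1)`, `b4` from `bst1` for `(e, b3)`, `T = max (T_w b4) b4`.
Let `Y = G ⊔ H` and `L` be given.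
(1) If `PS p G (l - b2) ≤ PS p G (l - b) ⊔ L`: `bst1` gives the first alternative. Let
`L1 = PS p G (l - b) ⊔ L`, so `¬ PS p G (l - b2) ≤ L1`.
(2) `¬ PS p G (l - b3) ≤ L` as `PS p G (l - b) ≤ PS p G (l - b3)`. If `PS p G (l - b4) ≤ PS p G (l - b3) ⊔ L`:
`bst1` for `(e, b3)` gives the first alternative.
(3) Otherwise let `L3 = PS p G (l - b3) ⊔ L ≤ Y`, `¬ PS p G (l - b4) ≤ L3`; the induction hypothesis
for `b4` and `L3`: `e |bad(L3)| ≤ |Y|` (then `bad(L) ⊆ bad(L3)`, by `gd_mono`, `st_mono`, gives the first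
alternative) or `d ^ w |bad(L3)| ≤ (d - 1) ^ w |Y|`.
(4) Let `G1 = PS p G (l - b3)`, `Y1 = G1 ⊔ H`. `LH_loc` with `a = l - b3`: `LHyp p n m f (l - (l - b3)) G1 R
H`, and `l - (l - b3) = b3 > TQ b2`. For `x ∈ Y`: `PS p G1 (b3 - b2) = PS p G (l - b2)` (`PS_PS`) is not
contained in `rgCj x L1` (conjugate by `x⁻¹ ∈ Y`, which normalises `PS p G (l - b2)`), so `hQ` gives
`|Y1| ≤ d |{y ∈ Y1 | gd R (rgCj x L1) j y}|`, and `gd R (rgCj x L1) j y ↔ gd R L1 j (y x)` (`st_mul`).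
`good_inv` for `L3`, and `avgL` with `B1 = ¬ gd R L1 j`, `B3 = ¬ gd R L3 j`:
`d |bad1 ∩ bad3| ≤ (d - 1) |bad3|`. Finally `bad(L) ⊆ bad1 ∩ bad3`, so
`d ^ (w+1) |bad(L)| ≤ d ^ w (d - 1) |bad3| ≤ (d - 1) ^ (w + 1) |Y|`.
-/

namespace H78CY

open Subgroup H78TP
open scoped commutatorElement

universe u

private theorem bst2le {Γ : Type*} [Finite Γ] {P Q : Γ → Prop} (h : ∀ x, P x → Q x) :
    Nat.card {x : Γ // P x} ≤ Nat.card {x : Γ // Q x} := by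
  have h1 : ∀ P : Γ → Prop, Nat.card {x : Γ // P x} = {x : Γ | P x}.ncard := fun P =>
    Nat.card_coe_set_eq _
  rw [h1, h1]
  exact Set.ncard_le_ncard (fun x hx => h x hx) (Set.toFinite _)

theorem bst2 (p n : ℕ) [Fact p.Prime] (m f : ℕ → ℕ) (j : ℕ) (hQ : QP.{u} p n m f j) :
    ∃ d : ℕ, 0 < d ∧ ∀ w e b : ℕ, ∃ T : ℕ, ∀ (Γ : Type u) [Group Γ] [Finite Γ]
      (G R H : Subgroup Γ) (l : ℕ), LHyp p n m f l G R H → T < l →
      ∀ L : Subgroup Γ, L ≤ G ⊔ H → ¬ PS p G (l - b) ≤ L →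
      e * Nat.card {x : Γ // x ∈ G ⊔ H ∧ ¬ gd R L j x} ≤ Nat.card (G ⊔ H : Subgroup Γ) ∨
      d ^ w * Nat.card {x : Γ // x ∈ G ⊔ H ∧ ¬ gd R L j x} ≤
        (d - 1) ^ w * Nat.card (G ⊔ H : Subgroup Γ) := by
  have hb1 := bst1 p n m f j hQ
  obtain ⟨d, hd, hQd⟩ := hQ
  refine ⟨d, hd, fun w => ?_⟩
  induction w with
  | zero =>
    intro e b
    refine ⟨0, fun Γ _ _ G R H l _ _ L _ _ => Or.inr ?_⟩
    rw [pow_zero, pow_zero, one_mul, one_mul]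
    have h1 : Nat.card (G ⊔ H : Subgroup Γ) = Nat.card {x : Γ // x ∈ G ⊔ H} := rfl
    rw [h1]
    exact bst2le fun x hx => hx.1
  | succ w ih =>
    intro e b
    obtain ⟨b2, hb2, h2⟩ := hb1 e b
    obtain ⟨TQ, hTQ⟩ := hQd b2
    obtain ⟨b3, hb3⟩ : ∃ b3 : ℕ, b3 = max b2 (TQ + 1) := ⟨_, rfl⟩
    have hb32 : b2 ≤ b3 := by rw [hb3]; exact le_max_left _ _
    have hb3T : TQ + 1 ≤ b3 := by rw [hb3]; exact le_max_right _ _
    obtain ⟨b4, hb4, h4⟩ := hb1 e b3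
    obtain ⟨Tw, hTw⟩ := ih e b4
    refine ⟨max Tw b4, fun Γ _ _ G R H l h hl L hL hb => ?_⟩
    have hlT : Tw < l := lt_of_le_of_lt (le_max_left _ _) hl
    have hl4 : b4 < l := lt_of_le_of_lt (le_max_right _ _) hl
    have nYG : Nm (G ⊔ H) G := nm_left (nm_self G) h.GH
    by_cases hA : PS p G (l - b2) ≤ PS p G (l - b) ⊔ L
    · exact Or.inl (h2 Γ G R H l h (by omega) L hL hb hA)
    have hbb3 : PS p G (l - b) ≤ PS p G (l - b3) := PS_anti G (by omega)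
    have hb3L : ¬ PS p G (l - b3) ≤ L := fun hc => hb (hbb3.trans hc)
    by_cases hB : PS p G (l - b4) ≤ PS p G (l - b3) ⊔ L
    · exact Or.inl (h4 Γ G R H l h (by omega) L hL hb3L hB)
    obtain ⟨L1, hL1⟩ : ∃ L1 : Subgroup Γ, L1 = PS p G (l - b) ⊔ L := ⟨_, rfl⟩
    obtain ⟨L3, hL3⟩ : ∃ L3 : Subgroup Γ, L3 = PS p G (l - b3) ⊔ L := ⟨_, rfl⟩
    rw [← hL1] at hA
    rw [← hL3] at hB
    have hPY : ∀ a, PS p G a ≤ G ⊔ H := fun a => (PS_le G a).trans le_sup_left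
    have hL3Y : L3 ≤ G ⊔ H := by rw [hL3]; exact sup_le (hPY _) hL
    have hLL1 : L ≤ L1 := by rw [hL1]; exact le_sup_right
    have hLL3 : L ≤ L3 := by rw [hL3]; exact le_sup_right
    have hbad3 : Nat.card {x : Γ // x ∈ G ⊔ H ∧ ¬ gd R L j x} ≤
        Nat.card {x : Γ // x ∈ G ⊔ H ∧ ¬ gd R L3 j x} :=
      bst2le fun x hx => ⟨hx.1, fun hg => hx.2 (gd_mono (st_mono hLL3 x) hg)⟩
    rcases hTw Γ G R H l h hlT L3 hL3Y hB with hC | hC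
    · exact Or.inl ((Nat.mul_le_mul_left _ hbad3).trans hC)
    right
    have hloc := LH_loc h (l - b3) (by omega)
    have hll : l - (l - b3) = b3 := by omega
    rw [hll] at hloc
    have hgood : ∀ x ∈ G ⊔ H, Nat.card (PS p G (l - b3) ⊔ H : Subgroup Γ) ≤
        d * Nat.card {y : Γ // y ∈ PS p G (l - b3) ⊔ H ∧ ¬ ¬ gd R L1 j (y * x)} := by
      intro x hx
      have h5 : ¬ PS p (PS p G (l - b3)) (b3 - b2) ≤ rgCj x L1 := by
        intro hc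
        rw [PS_PS] at hc
        have h6 : l - b3 + (b3 - b2) = l - b2 := by omega
        rw [h6] at hc
        have h7 : rgCj x (PS p G (l - b2)) = PS p G (l - b2) := rgCj_of_nm (PS_nm nYG _) hx
        rw [← h7] at hc
        exact hA ((rgCj_le x).1 hc)
      have h6 := hTQ Γ (PS p G (l - b3)) R H b3 hloc (by omega) (rgCj x L1) h5
      refine h6.trans (Nat.mul_le_mul_left _ (bst2le ?_))
      rintro y ⟨hy1, hy2⟩
      refine ⟨hy1, fun hy3 => hy3 ?_⟩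
      unfold gd at hy2 ⊢
      rw [st_mul]
      exact hy2
    have hG1L3 : PS p G (l - b3) ≤ L3 := by rw [hL3]; exact le_sup_left
    have hinv := good_inv (R := R) (L3 := L3) j hG1L3 (PS_nm nYG (l - b3)) (hPY (l - b3)) h.nR
    have hY1 : (PS p G (l - b3) ⊔ H : Subgroup Γ) ≤ G ⊔ H := sup_le (hPY _) le_sup_right
    have hav := avgL (G ⊔ H) (PS p G (l - b3) ⊔ H) hY1 (fun x => ¬ gd R L1 j x)
      (fun x => ¬ gd R L3 j x) d hd (fun y hy x hx => not_congr (hinv y hy x hx)) hgood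
    have hbad13 : Nat.card {x : Γ // x ∈ G ⊔ H ∧ ¬ gd R L j x} ≤
        Nat.card {x : Γ // x ∈ G ⊔ H ∧ ¬ gd R L1 j x ∧ ¬ gd R L3 j x} :=
      bst2le fun x hx => ⟨hx.1, fun hg => hx.2 (gd_mono (st_mono hLL1 x) hg),
        fun hg => hx.2 (gd_mono (st_mono hLL3 x) hg)⟩
    calc d ^ (w + 1) * Nat.card {x : Γ // x ∈ G ⊔ H ∧ ¬ gd R L j x}
        ≤ d ^ (w + 1) * Nat.card {x : Γ // x ∈ G ⊔ H ∧ ¬ gd R L1 j x ∧ ¬ gd R L3 j x} :=
          Nat.mul_le_mul_left _ hbad13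
      _ = d ^ w * (d * Nat.card {x : Γ // x ∈ G ⊔ H ∧ ¬ gd R L1 j x ∧ ¬ gd R L3 j x}) := by ring
      _ ≤ d ^ w * ((d - 1) * Nat.card {x : Γ // x ∈ G ⊔ H ∧ ¬ gd R L3 j x}) :=
          Nat.mul_le_mul_left _ hav
      _ = (d - 1) * (d ^ w * Nat.card {x : Γ // x ∈ G ⊔ H ∧ ¬ gd R L3 j x}) := by ring
      _ ≤ (d - 1) * ((d - 1) ^ w * Nat.card (G ⊔ H : Subgroup Γ)) := Nat.mul_le_mul_left _ hC
      _ = (d - 1) ^ (w + 1) * Nat.card (G ⊔ H : Subgroup Γ) := by ring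

end H78CY
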