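import Pool.Agent.H78.CY.PsA

/-!
[H78 CY CC] The subgroups `{g ∈ Y | [g, J] ≤ M}` and `{x ∈ J | [g, x] ∈ M}` and conjugation (30 min).

PROOFS. `exCc`: `⁅g h, x⁆ = g ⁅h, x⁆ g⁻¹ ⁅g, x⁆` and `⁅g⁻¹, x⁆ = g⁻¹ ⁅g, x⁆⁻¹ g`. `exCg`:
`⁅g, x y⁆ = ⁅g, x⁆ x ⁅g, y⁆ x⁻¹`, `⁅g, x⁻¹⁆ = x⁻¹ ⁅g, x⁆⁻¹ x`. `cc_nm`: `⁅y g y⁻¹, x⁆ = y ⁅g, y⁻¹ x y⁆ y⁻¹`.
`cc_conj` : conjugation by `x` is an automorphism; `mem_rgCj` (H78TP): `y ∈ rgCj x J ↔ x⁻¹ y x ∈ J`.
`smal_conj`: the subgroup for `t g t⁻¹` is the conjugate by `t` of the one for `g`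
(`J` and `M` are invariant under conjugation by `t` and `t⁻¹`), with the same index.
-/

namespace H78CY

open Subgroup H78TP
open scoped commutatorElement

variable {Γ : Type*} [Group Γ]

theorem exCc {Y J M : Subgroup Γ} (nM : Nm Y M) : ∃ C, IsCc Y J M C := by
  refine ⟨{ carrier := {g | g ∈ Y ∧ ∀ x ∈ J, ⁅g, x⁆ ∈ M}
            one_mem' := ⟨Y.one_mem, fun x _ => by
              rw [commutatorElement_one_left]
              exact M.one_mem⟩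
            mul_mem' := ?_
            inv_mem' := ?_ }, fun g => Iff.rfl⟩
  · rintro a b ⟨ha, ha'⟩ ⟨hb, hb'⟩
    refine ⟨Y.mul_mem ha hb, fun x hx => ?_⟩
    have e : ⁅a * b, x⁆ = (a * ⁅b, x⁆ * a⁻¹) * ⁅a, x⁆ := by
      rw [commutatorElement_def, commutatorElement_def, commutatorElement_def]
      group
    rw [e]
    exact M.mul_mem (nM a ha _ (hb' x hx)) (ha' x hx)
  · rintro a ⟨ha, ha'⟩
    refine ⟨Y.inv_mem ha, fun x hx => ?_⟩
    have e : ⁅a⁻¹, x⁆ = a⁻¹ * ⁅a, x⁆⁻¹ * a⁻¹⁻¹ := by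
      rw [commutatorElement_def, commutatorElement_def]
      group
    rw [e]
    exact nM a⁻¹ (Y.inv_mem ha) _ (M.inv_mem (ha' x hx))

theorem exCg {J M : Subgroup Γ} (nM : Nm J M) (g : Γ) :
    ∃ C : Subgroup Γ, ∀ x, x ∈ C ↔ x ∈ J ∧ ⁅g, x⁆ ∈ M := by
  refine ⟨{ carrier := {x | x ∈ J ∧ ⁅g, x⁆ ∈ M}
            one_mem' := ⟨J.one_mem, by
              rw [commutatorElement_one_right]
              exact M.one_mem⟩
            mul_mem' := ?_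
            inv_mem' := ?_ }, fun g => Iff.rfl⟩
  · rintro a b ⟨ha, ha'⟩ ⟨hb, hb'⟩
    refine ⟨J.mul_mem ha hb, ?_⟩
    have e : ⁅g, a * b⁆ = ⁅g, a⁆ * (a * ⁅g, b⁆ * a⁻¹) := by
      rw [commutatorElement_def, commutatorElement_def, commutatorElement_def]
      group
    rw [e]
    exact M.mul_mem ha' (nM a ha _ hb')
  · rintro a ⟨ha, ha'⟩
    refine ⟨J.inv_mem ha, ?_⟩
    have e : ⁅g, a⁻¹⁆ = a⁻¹ * ⁅g, a⁆⁻¹ * a⁻¹⁻¹ := by
      rw [commutatorElement_def, commutatorElement_def]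
      group
    rw [e]
    exact nM a⁻¹ (J.inv_mem ha) _ (M.inv_mem ha')

theorem cc_nm {Y J M C : Subgroup Γ} (nJ : Nm Y J) (nM : Nm Y M) (h : IsCc Y J M C) : Nm Y C := by
  intro y hy g hg
  rw [h g] at hg
  rw [h]
  refine ⟨Y.mul_mem (Y.mul_mem hy hg.1) (Y.inv_mem hy), fun x hx => ?_⟩
  have e : ⁅y * g * y⁻¹, x⁆ = y * ⁅g, y⁻¹ * x * y⁻¹⁻¹⁆ * y⁻¹ := by
    rw [commutatorElement_def, commutatorElement_def]
    group
  rw [e]
  exact nM y hy _ (hg.2 _ (nJ y⁻¹ (Y.inv_mem hy) x hx))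

theorem cc_unique {Y J M C C' : Subgroup Γ} (h : IsCc Y J M C) (h' : IsCc Y J M C') : C = C' := by
  ext g
  rw [h g, h' g]

theorem cc_conj {Y J M C : Subgroup Γ} (x : Γ) (h : IsCc Y J M C) :
    IsCc (rgCj x Y) (rgCj x J) (rgCj x M) (rgCj x C) := by
  have e : ∀ g w : Γ, x⁻¹ * ⁅g, w⁆ * x = ⁅x⁻¹ * g * x, x⁻¹ * w * x⁆ := by
    intro g w
    rw [commutatorElement_def, commutatorElement_def]
    group
  intro g
  rw [mem_rgCj, h, mem_rgCj]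
  constructor
  · rintro ⟨h1, h2⟩
    refine ⟨h1, fun w hw => ?_⟩
    rw [mem_rgCj] at hw ⊢
    rw [e]
    exact h2 _ hw
  · rintro ⟨h1, h2⟩
    refine ⟨h1, fun z hz => ?_⟩
    have hz' : x * z * x⁻¹ ∈ rgCj x J := by
      rw [mem_rgCj]
      have e1 : x⁻¹ * (x * z * x⁻¹) * x = z := by group
      rw [e1]
      exact hz
    have h3 := h2 _ hz'
    rw [mem_rgCj, e] at h3
    have e1 : x⁻¹ * (x * z * x⁻¹) * x = z := by group
    rw [e1] at h3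
    exact h3

theorem nm_conj {Y X : Subgroup Γ} (x : Γ) (h : Nm Y X) : Nm (rgCj x Y) (rgCj x X) := by
  intro y hy z hz
  rw [mem_rgCj] at hy hz ⊢
  have e : x⁻¹ * (y * z * y⁻¹) * x = (x⁻¹ * y * x) * (x⁻¹ * z * x) * (x⁻¹ * y * x)⁻¹ := by group
  rw [e]
  exact h _ hy _ hz

theorem rgCj_of_nm [Finite Γ] {Y X : Subgroup Γ} (h : Nm Y X) {x : Γ} (hx : x ∈ Y) :
    rgCj x X = X := by
  ext z
  rw [mem_rgCj]
  constructor
  · intro hz
    have h1 := h x hx _ hz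
    have e : x * (x⁻¹ * z * x) * x⁻¹ = z := by group
    rw [e] at h1
    exact h1
  · intro hz
    have h1 := h x⁻¹ (Y.inv_mem hx) z hz
    rw [inv_inv] at h1
    exact h1

theorem rgCj_sup (x : Γ) (A B : Subgroup Γ) : rgCj x (A ⊔ B) = rgCj x A ⊔ rgCj x B := by
  unfold rgCj
  exact Subgroup.map_sup _ _ _

theorem rgCj_le {A B : Subgroup Γ} (x : Γ) : rgCj x A ≤ rgCj x B ↔ A ≤ B := by
  unfold rgCj
  exact Subgroup.map_le_map_iff_of_injective (MulAut.conj x).injective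

theorem smal_conj [Finite Γ] {Y J M : Subgroup Γ} (nJ : Nm Y J) (nM : Nm Y M) {t g : Γ}
    (ht : t ∈ Y) {N : ℕ} (h : smal M J g N) : smal M J (t * g * t⁻¹) N := by
  obtain ⟨C, hC, hN⟩ := h
  refine ⟨rgCj t C, fun x => ?_, ?_⟩
  · rw [mem_rgCj, hC]
    have e1 : ⁅t * g * t⁻¹, x⁆ = t * ⁅g, t⁻¹ * x * t⁆ * t⁻¹ := by
      rw [commutatorElement_def, commutatorElement_def]
      group
    constructor
    · rintro ⟨h1, h2⟩
      refine ⟨?_, ?_⟩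
      · have h3 := nJ t ht _ h1
        have e : t * (t⁻¹ * x * t) * t⁻¹ = x := by group
        rw [e] at h3
        exact h3
      · rw [e1]
        exact nM t ht _ h2
    · rintro ⟨h1, h2⟩
      refine ⟨?_, ?_⟩
      · have h3 := nJ t⁻¹ (Y.inv_mem ht) _ h1
        rw [inv_inv] at h3
        exact h3
      · rw [e1] at h2
        have h3 := nM t⁻¹ (Y.inv_mem ht) _ h2
        have e : t⁻¹ * (t * ⁅g, t⁻¹ * x * t⁆ * t⁻¹) * t⁻¹⁻¹ = ⁅g, t⁻¹ * x * t⁆ := by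
          rw [commutatorElement_def]
          group
        rw [e] at h3
        exact h3
  · have h1 : rgCj t J = J := rgCj_of_nm nJ ht
    have h2 : (rgCj t C).relIndex (rgCj t J) = C.relIndex J := by
      unfold rgCj
      exact Subgroup.relIndex_map_map_of_injective C J (MulAut.conj t).injective
    rw [h1] at h2
    rw [h2]
    exact hN

end H78CY
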