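import Pool.Agent.H78.CY.PsA

/-!
[H78 CY CENL] Central sections: if `Y` is generated by elements of order prime to `l` and `X / M` is an `l`-group
which is central in `Y / M` and of index prime to `l`, then `X = M` (30 min).

PROOF. `M` is normalised by `Y` (`y x y⁻¹ = ⁅y, x⁆ x`), `X` too. Let `Q = Y ⧸ M.subgroupOf Y`, `C` the
image of `X` in `Q`: central, every element has `l`-power order, `l ∤ [Q : C]`. Let `Z` be the centre
of `Q`; its index `i` divides `[Q : C]`, so `l ∤ i`. The map `θ : Q → Z`, `x ↦ x ^ i` is a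
homomorphism (`MonoidHom.transferCenterPow`). `Q` is generated by the images of elements of order
prime to `l`; so `Z₀ = {z ∈ Z : orderOf z prime to l}` (a subgroup of the commutative group `Z`)
contains `θ` of the generators, so `θ(Q) ≤ Z₀`. For `c ∈ C`: `c ^ i = θ(c)` has order prime to `l` and
`l`-power order, so `c ^ i = 1`, and `l ∤ i` gives `c = 1`. Hence `X ≤ M`.

`ntP`: `cenL` with `l = p`, `Y = N_a`, `X = P_{a+1}` (`NS_dn`, `NS_ndvd`). `ntN`: `cenL` with `l = r`,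
`Y = P_a`, `X = N_a`: `P_a` is generated by elements of `p`-power order, which have order prime to
`r` (so `dn r P_a = P_a`), and `[P_a : N_a]` is a power of `p` (`NS_relIndex`). `ntX`: with
`A = lns (NS p G a) c` one has `lns (NS p G a) (c + 1) = nres A = ⁅nres A, A⁆` (`exists_gam_eq`: `nres A =
gam A k = gam A (k + 1) = ⁅gam A k, A⁆`) and `A ≤ XS p G a c`, `nres A ≤ XS p G a (c + 1)`, so
`nres A ≤ M` (`Subgroup.commutator_le`; `⁅x, y⁆ = ⁅y, x⁆⁻¹`).
-/

namespace H78CY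

open Subgroup H78TP
open scoped commutatorElement

variable {Γ : Type*} [Group Γ]

theorem cenL (l : ℕ) [Fact l.Prime] [Finite Γ] (Y X M : Subgroup Γ) (hMX : M ≤ X) (hXY : X ≤ Y)
    (hgen : dn l Y = Y) (hl : ¬ l ∣ X.relIndex Y) (hXM : ∀ x ∈ X, ∃ k : ℕ, x ^ (l ^ k) ∈ M)
    (hc : ∀ y ∈ Y, ∀ x ∈ X, ⁅y, x⁆ ∈ M) : X ≤ M := by
  have hlp : l.Prime := Fact.out
  have hN : (M.subgroupOf Y).Normal := ⟨fun n hn g => by
    rw [mem_subgroupOf] at hn ⊢
    have h1 := M.mul_mem (hc g g.2 n (hMX hn)) hn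
    rw [commutatorElement_def] at h1
    simpa using h1⟩
  obtain ⟨f, hf⟩ : ∃ f : ↥Y →* (↥Y ⧸ M.subgroupOf Y), f = QuotientGroup.mk' (M.subgroupOf Y) := ⟨_, rfl⟩
  have hfs : Function.Surjective f := by rw [hf]; exact QuotientGroup.mk'_surjective _
  have hfk : ∀ x : ↥Y, f x = 1 ↔ (x : Γ) ∈ M := by
    intro x
    rw [hf, QuotientGroup.mk'_apply, QuotientGroup.eq_one_iff, mem_subgroupOf]
  -- the image of X is central
  have hcen : (X.subgroupOf Y).map f ≤ Subgroup.center (↥Y ⧸ M.subgroupOf Y) := by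
    rintro _ ⟨x, hx, rfl⟩
    rw [Subgroup.mem_center_iff]
    intro q
    obtain ⟨y, rfl⟩ := hfs q
    have h1 : f ⁅y, x⁆ = 1 := by
      rw [hfk]
      exact hc y y.2 x hx
    rw [map_commutatorElement, commutatorElement_eq_one_iff_mul_comm] at h1
    exact h1
  obtain ⟨i, hi⟩ : ∃ i, i = (Subgroup.center (↥Y ⧸ M.subgroupOf Y)).index := ⟨_, rfl⟩
  have hli : ¬ l ∣ i := by
    intro h
    apply hl
    refine h.trans ?_
    rw [hi]
    refine (Subgroup.index_dvd_of_le hcen).trans ?_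
    exact Subgroup.index_map_dvd (X.subgroupOf Y) hfs
  obtain ⟨θ, hθ⟩ : ∃ θ : (↥Y ⧸ M.subgroupOf Y) →* Subgroup.center (↥Y ⧸ M.subgroupOf Y),
      ∀ q, ((θ q : Subgroup.center (↥Y ⧸ M.subgroupOf Y)) : (↥Y ⧸ M.subgroupOf Y)) = q ^ i :=
    ⟨MonoidHom.transferCenterPow _, fun q => by rw [hi]; exact MonoidHom.transferCenterPow_apply q⟩
  obtain ⟨T, hT⟩ : ∃ T : Subgroup (↥Y ⧸ M.subgroupOf Y), ∀ a, a ∈ T ↔ ∃ m : ℕ, ¬ l ∣ m ∧ (θ a) ^ m = 1 := by
    refine ⟨⟨⟨⟨{a | ∃ m : ℕ, ¬ l ∣ m ∧ (θ a) ^ m = 1}, ?_⟩, ?_⟩, ?_⟩, fun a => Iff.rfl⟩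
    · rintro a b ⟨m, hm, ha⟩ ⟨n, hn, hb⟩
      refine ⟨m * n, fun h => ?_, ?_⟩
      · rcases (Nat.Prime.dvd_mul hlp).1 h with h | h
        · exact hm h
        · exact hn h
      · have hcm : Commute (θ a) (θ b) := Subtype.ext ((Subgroup.mem_center_iff.1 (θ b).2) (θ a))
        rw [map_mul, hcm.mul_pow, pow_mul, ha, one_pow, one_mul, mul_comm m n, pow_mul, hb, one_pow]
    · exact ⟨1, hlp.not_dvd_one, by rw [map_one, one_pow]⟩
    · rintro a ⟨m, hm, ha⟩
      exact ⟨m, hm, by rw [map_inv, inv_pow, ha, inv_one]⟩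
  have h1 : ∀ x : ↥Y, f x ∈ T := by
    have h2 : Y ≤ (T.comap f).map Y.subtype := by
      calc Y = dn l Y := hgen.symm
        _ ≤ _ := by
          unfold dn
          rw [closure_le]
          rintro x ⟨hx, hxo⟩
          refine ⟨⟨x, hx⟩, ?_, rfl⟩
          show f ⟨x, hx⟩ ∈ T
          rw [hT]
          refine ⟨orderOf x, hxo, ?_⟩
          rw [← map_pow, ← map_pow]
          have : (⟨x, hx⟩ : ↥Y) ^ (orderOf x) = 1 := Subtype.ext (by rw [SubmonoidClass.coe_pow]; exact pow_orderOf_eq_one x)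
          rw [this, map_one, map_one]
    intro x
    obtain ⟨y, hy, he⟩ := h2 x.2
    have : y = x := Subtype.ext he
    rw [← this]
    exact hy
  intro x hx
  have hxY := hXY hx
  obtain ⟨m, hm, hm1⟩ := (hT _).1 (h1 ⟨x, hxY⟩)
  obtain ⟨k, hk⟩ := hXM x hx
  have h2 : f ⟨x, hxY⟩ ^ (l ^ k) = 1 := by
    rw [← map_pow, hfk, SubmonoidClass.coe_pow]
    exact hk
  have h3 : f ⟨x, hxY⟩ ^ (i * m) = 1 := by
    have h4 := congrArg Subtype.val hm1
    rw [SubmonoidClass.coe_pow, hθ] at h4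
    rw [pow_mul]
    exact h4
  have h5 : Nat.Coprime (l ^ k) (i * m) := by
    apply Nat.Coprime.pow_left
    rw [Nat.Prime.coprime_iff_not_dvd hlp]
    intro h
    rcases (Nat.Prime.dvd_mul hlp).1 h with h | h
    · exact hli h
    · exact hm h
  have h6 : orderOf (f ⟨x, hxY⟩) ∣ 1 := by
    rw [← h5.gcd_eq_one]
    exact Nat.dvd_gcd (orderOf_dvd_of_pow_eq_one h2) (orderOf_dvd_of_pow_eq_one h3)
  have h7 : f ⟨x, hxY⟩ = 1 := orderOf_eq_one_iff.1 (Nat.dvd_one.1 h6)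
  rw [hfk] at h7
  exact h7

end H78CY
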