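import Pool.Agent.H78.CY.DecG
import Pool.Agent.H78.TP.Cfp

/-!
[H78 CY CFPN] Coprime action of a nilpotent group: fixed points in cosets (35 min).

PROOF. Induction on `n ≥ |S|`. If `S` is trivial take `y = 1`. Otherwise let `s` be a prime divisor of
`|S|` and `S = L ⊔ L'` from `decG s S`; `L ≠ ⊥`, so `|L'| < |S|`. `s ∤ |N|`. By `cfp` (for `L`) there is
`y₁ ∈ N` such that `g₁ = y₁ g` commutes with `L`. Let `N₁ = N ⊓ centralizer L`; `L'` normalises `N₁` (it
commutes with `L`), `|N₁|` divides `|N|`, so it is prime to `|L'|` (which divides `|S|`), and for `x ∈ L'`: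
`x g₁ x⁻¹ g₁⁻¹ ∈ N` (`= (x y₁ x⁻¹) (x g x⁻¹ g⁻¹) y₁⁻¹`) and it commutes with `L`. By induction there is
`y₂ ∈ N₁` such that `y₂ g₁` commutes with `L'`; it also commutes with `L`. So `y = y₂ y₁`.
(The same argument is in `TP/InhC.lean`.)
-/

namespace H78CY

open Subgroup H78TP
open scoped commutatorElement

theorem cfpN (n : ℕ) : ∀ {F : Type*} [Group F] [Finite F] (S N : Subgroup F),
    Nat.card S ≤ n → Group.IsNilpotent S → (Nat.card S).Coprime (Nat.card N) →
    (∀ x ∈ S, ∀ y ∈ N, x * y * x⁻¹ ∈ N) → ∀ g : F, (∀ x ∈ S, x * g * x⁻¹ * g⁻¹ ∈ N) →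
    ∃ y ∈ N, ∀ x ∈ S, x * (y * g) = (y * g) * x := by
  induction n with
  | zero =>
    intro F _ _ S N hcard
    have h := Nat.card_pos (α := S)
    omega
  | succ n ih =>
    intro F _ _ S N hcard hnil hcop hn g hg
    by_cases hS : S = ⊥
    · refine ⟨1, N.one_mem, fun x hx => ?_⟩
      rw [hS, Subgroup.mem_bot] at hx
      rw [hx, one_mul, mul_one]
    have hS1 : Nat.card S ≠ 1 := fun h => hS (Subgroup.card_eq_one.1 h)
    obtain ⟨s, hs, hsd⟩ := Nat.exists_prime_and_dvd hS1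
    have := Fact.mk hs
    obtain ⟨L, L', hL, hL', hLn, hc, hsup, hcd⟩ := decG s S hnil
    have hLS : L ≤ S := hsup ▸ le_sup_left
    have hLS' : L' ≤ S := hsup ▸ le_sup_right
    have hsN : ¬ s ∣ Nat.card N := fun h =>
      hs.one_lt.ne' (Nat.eq_one_of_dvd_coprimes hcop hsd h)
    have hsL : s ∣ Nat.card L := by
      rw [← hcd] at hsd
      exact (hs.dvd_mul.1 hsd).resolve_right hL'
    have hL2 : 2 ≤ Nat.card L := hs.two_le.trans (Nat.le_of_dvd Nat.card_pos hsL)
    have hL'n : Nat.card L' ≤ n := by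
      have h0 : 0 < Nat.card L' := Nat.card_pos
      have h1 : 2 * Nat.card L' ≤ Nat.card S := by
        rw [← hcd]
        exact Nat.mul_le_mul_right _ hL2
      omega
    obtain ⟨y1, hy1, h1⟩ := cfp s L N hL hsN (fun x hx => hn x (hLS hx)) g
      (fun x hx => hg x (hLS hx))
    let T : Subgroup F := centralizer (L : Set F)
    have hT : ∀ z : F, z ∈ T ↔ ∀ x ∈ L, x * z = z * x := fun z =>
      Subgroup.mem_centralizer_iff
    have hL'T : ∀ x ∈ L', x ∈ T := fun x hx => (hT x).2 fun z hz => hc z hz x hx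
    have hg1 : y1 * g ∈ T := (hT _).2 h1
    obtain ⟨y2, hy2, h2⟩ := ih L' (N ⊓ T) hL'n hLn
      (Nat.Coprime.of_dvd (Subgroup.card_dvd_of_le hLS')
        (Subgroup.card_dvd_of_le inf_le_left) hcop)
      (fun x hx z hz => ⟨hn x (hLS' hx) z hz.1,
        T.mul_mem (T.mul_mem (hL'T x hx) hz.2) (T.inv_mem (hL'T x hx))⟩) (y1 * g)
      (fun x hx => by
        refine ⟨?_, T.mul_mem (T.mul_mem (T.mul_mem (hL'T x hx) hg1) (T.inv_mem (hL'T x hx)))
          (T.inv_mem hg1)⟩
        have e : x * (y1 * g) * x⁻¹ * (y1 * g)⁻¹ =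
            (x * y1 * x⁻¹) * (x * g * x⁻¹ * g⁻¹) * y1⁻¹ := by group
        rw [e]
        exact N.mul_mem (N.mul_mem (hn x (hLS' hx) y1 hy1) (hg x (hLS' hx))) (N.inv_mem hy1))
    refine ⟨y2 * y1, N.mul_mem hy2.1 hy1, ?_⟩
    have h3 : y2 * y1 * g ∈ T := by
      rw [mul_assoc]
      exact T.mul_mem hy2.2 hg1
    have h4 : S ≤ centralizer {y2 * y1 * g} := by
      rw [← hsup, sup_le_iff]
      constructor
      · intro x hx
        rw [Subgroup.mem_centralizer_iff]
        rintro _ rfl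
        exact ((hT _).1 h3 x hx).symm
      · intro x hx
        rw [Subgroup.mem_centralizer_iff]
        rintro _ rfl
        have h5 := h2 x hx
        rw [← mul_assoc y2] at h5
        exact h5.symm
    intro x hx
    have h5 := Subgroup.mem_centralizer_iff.1 (h4 hx) _ rfl
    exact h5.symm

end H78CY
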