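import Pool.Agent.H78.CY.Clb1

/-!
[H78 CY CLB] Cauchy-Schwarz for the multiplicities (35 min).

PROOF. Let `A = K ⧸ N.subgroupOf K` (`N` is normalised by `K`), `σ' : Representation k A X` the induced
representation (`N` acts trivially; `QuotientGroup.lift`). `|A| = N.relIndex K` divides `|K|`, so it is
not `0` in `k`. `Fx σ' ⊤ = Fx σ K`, `cmt σ' ⊤ = cmt σ K`. `clb1`: with `w = finrank X`, `a = ms i0`,
`t = ∑ i ≠ i0, d i * ms i`: `w = a + t` (`d i0 = 1`) and by Cauchy-Schwarz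
(`Finset.sum_mul_sq_le_sq_mul_sq`, or `inner_mul_le_norm_mul_norm`; natural numbers cast to `ℝ`/`ℤ`)
`t ^ 2 ≤ (∑ i ≠ i0, d i ^ 2) (∑ i ≠ i0, ms i ^ 2) ≤ (κ - 1) (c - a ^ 2)`, `κ = |A|`, `c = finrank (cmt σ K)`.
-/

namespace H78CY

open Subgroup H78TP
open scoped commutatorElement

variable {k Γ X : Type*} [Field k] [Group Γ] [AddCommGroup X] [Module k X]


theorem clb [IsAlgClosed k] [Finite Γ] [Module.Finite k X] (σ : Representation k Γ X)
    (K N : Subgroup Γ) (hK : (Nat.card K : k) ≠ 0) (hN : N ≤ K) (nN : Nm K N)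
    (h1 : ∀ g ∈ N, σ g = 1) :
    ∃ t : ℕ, Module.finrank k X = Module.finrank k (Fx σ K) + t ∧
      t ^ 2 + (N.relIndex K - 1) * Module.finrank k (Fx σ K) ^ 2 ≤
        (N.relIndex K - 1) * Module.finrank k (cmt σ K) := by
  classical
  have hnor : (N.subgroupOf K).Normal := by
    constructor
    intro n hn g
    rw [Subgroup.mem_subgroupOf] at hn ⊢
    exact nN g.1 g.2 n.1 hn
  let σ1 : K →* (X →ₗ[k] X) := (σ : Γ →* (X →ₗ[k] X)).comp K.subtype
  let σ' : Representation k (K ⧸ N.subgroupOf K) X := QuotientGroup.lift (N.subgroupOf K) σ1 (by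
    intro x hx
    rw [Subgroup.mem_subgroupOf] at hx
    exact h1 _ hx)
  have hσ : ∀ g (hg : g ∈ K), σ' (QuotientGroup.mk ⟨g, hg⟩) = σ g := fun g hg => rfl
  have hcard : Nat.card (K ⧸ N.subgroupOf K) = N.relIndex K := rfl
  have hA : (Nat.card (K ⧸ N.subgroupOf K) : k) ≠ 0 := by
    intro h0
    apply hK
    obtain ⟨c, hc⟩ := Subgroup.card_quotient_dvd_card (N.subgroupOf K)
    rw [hc, Nat.cast_mul, h0, zero_mul]
  have hF : Fx σ' ⊤ = Fx σ K := by
    ext v
    constructor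
    · intro hv g hg
      rw [← hσ g hg]
      exact hv _ (Subgroup.mem_top _)
    · intro hv g _
      induction g using QuotientGroup.induction_on with
      | H x =>
        obtain ⟨x, hx⟩ := x
        rw [hσ x hx]
        exact hv x hx
  have hC : cmt σ' ⊤ = cmt σ K := by
    ext φ
    constructor
    · intro hφ g hg v
      rw [← hσ g hg]
      exact hφ _ (Subgroup.mem_top _) v
    · intro hφ g _ v
      induction g using QuotientGroup.induction_on with
      | H x =>
        obtain ⟨x, hx⟩ := x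
        rw [hσ x hx]
        exact hφ x hx v
  obtain ⟨s, d, ms, i0, e1, e2, e3, e4, e5⟩ := clb1 σ' hA
  rw [hF] at e3
  rw [hC] at e5
  rw [hcard] at e1
  have f1 := Finset.add_sum_erase Finset.univ (fun i => d i * ms i) (Finset.mem_univ i0)
  have f2 := Finset.add_sum_erase Finset.univ (fun i => d i ^ 2) (Finset.mem_univ i0)
  have f3 := Finset.add_sum_erase Finset.univ (fun i => ms i ^ 2) (Finset.mem_univ i0)
  rw [e2, one_mul] at f1
  rw [e2, one_pow, e1] at f2
  have f4 := Finset.sum_mul_sq_le_sq_mul_sq (Finset.univ.erase i0) d ms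
  refine ⟨∑ i ∈ Finset.univ.erase i0, d i * ms i, ?_, ?_⟩
  · rw [e4, ← f1, e3]
  · have f5 : N.relIndex K - 1 = ∑ i ∈ Finset.univ.erase i0, d i ^ 2 := by
      rw [← f2]
      exact Nat.add_sub_cancel_left _ _
    rw [f5, ← e3]
    calc (∑ i ∈ Finset.univ.erase i0, d i * ms i) ^ 2 +
          (∑ i ∈ Finset.univ.erase i0, d i ^ 2) * ms i0 ^ 2
        ≤ (∑ i ∈ Finset.univ.erase i0, d i ^ 2) * (∑ i ∈ Finset.univ.erase i0, ms i ^ 2) +
          (∑ i ∈ Finset.univ.erase i0, d i ^ 2) * ms i0 ^ 2 := Nat.add_le_add_right f4 _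
      _ = (∑ i ∈ Finset.univ.erase i0, d i ^ 2) *
          (ms i0 ^ 2 + ∑ i ∈ Finset.univ.erase i0, ms i ^ 2) := by ring
      _ ≤ _ := by
        apply Nat.mul_le_mul_left
        rw [f3]
        exact e5

end H78CY
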