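import Pool.Agent.H78.CY.Cla
import Pool.Agent.H78.CY.Clb

/-!
The core lemma (helper78): assembly of `cla` and `clb`.
-/

namespace H78CY

open Subgroup H78TP
open scoped commutatorElement

theorem cl_arithZ (n κ' a w c : ℤ) (hn : 1 ≤ n) (hk : 0 ≤ κ') (hkn : κ' + 1 ≤ n) (ha : 0 ≤ a)
    (h1 : (w - a) ^ 2 ≤ κ' * c) (h2 : 4 * n ^ 2 * (κ' + 1) * c ≤ (4 * n ^ 2 + (κ' + 1)) * w ^ 2)
    (h3 : 4 * n * a < w) : False := by
  have e1 : 4 * n ^ 2 * (κ' + 1) * (w - a) ^ 2 ≤ κ' * ((4 * n ^ 2 + (κ' + 1)) * w ^ 2) := by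
    calc 4 * n ^ 2 * (κ' + 1) * (w - a) ^ 2 ≤ 4 * n ^ 2 * (κ' + 1) * (κ' * c) := by
          apply mul_le_mul_of_nonneg_left h1
          apply mul_nonneg (by positivity) (by linarith)
      _ = κ' * (4 * n ^ 2 * (κ' + 1) * c) := by ring
      _ ≤ _ := mul_le_mul_of_nonneg_left h2 hk
  have hw0 : 0 < w := by
    have : 0 ≤ 4 * n * a := mul_nonneg (by linarith) ha
    linarith
  have e2 : (4 * n - 1) * w < 4 * n * (w - a) := by nlinarith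
  have h5 : 0 ≤ (4 * n - 1) * w := mul_nonneg (by linarith) hw0.le
  have e3 : ((4 * n - 1) * w) ^ 2 < (4 * n * (w - a)) ^ 2 := by nlinarith
  have e4 : (κ' + 1) * ((4 * n - 1) * w) ^ 2 < (κ' + 1) * (4 * n * (w - a)) ^ 2 :=
    mul_lt_mul_of_pos_left e3 (by linarith)
  have e5 : (κ' + 1) * (4 * n * (w - a)) ^ 2 ≤ 4 * (κ' * ((4 * n ^ 2 + (κ' + 1)) * w ^ 2)) := by
    have h6 : (κ' + 1) * (4 * n * (w - a)) ^ 2 = 4 * (4 * n ^ 2 * (κ' + 1) * (w - a) ^ 2) := by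
      ring
    rw [h6]
    linarith
  have e7 : ((κ' + 1) * (4 * n - 1) ^ 2) * w ^ 2 < (4 * κ' * (4 * n ^ 2 + (κ' + 1))) * w ^ 2 := by
    calc ((κ' + 1) * (4 * n - 1) ^ 2) * w ^ 2 = (κ' + 1) * ((4 * n - 1) * w) ^ 2 := by ring
      _ < 4 * (κ' * ((4 * n ^ 2 + (κ' + 1)) * w ^ 2)) := lt_of_lt_of_le e4 e5
      _ = _ := by ring
  have e8 : (κ' + 1) * (4 * n - 1) ^ 2 < 4 * κ' * (4 * n ^ 2 + (κ' + 1)) :=
    lt_of_mul_lt_mul_right e7 (by positivity)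
  have e9 : 16 * n ^ 2 + (κ' + 1) < 8 * (κ' + 1) * n + 4 * κ' * (κ' + 1) := by nlinarith
  have e11 : 8 * (κ' + 1) * n ≤ 8 * n * n := by nlinarith
  have e12 : 4 * κ' * (κ' + 1) ≤ 4 * n * n := by nlinarith
  nlinarith

/-- the arithmetic: `w = a + t`, `t² ≤ (κ - 1) c`, `4 n² κ c ≤ (4 n² + κ) w²`, `κ ≤ n` imply
`w ≤ 4 n a` -/
theorem cl_arith (n κ a t c : ℕ) (hn : 0 < n) (hκ : 0 < κ) (hκn : κ ≤ n)
    (h1 : t ^ 2 ≤ (κ - 1) * c) (h2 : 4 * n ^ 2 * κ * c ≤ (4 * n ^ 2 + κ) * (a + t) ^ 2) :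
    a + t ≤ 4 * n * a := by
  by_contra h3
  push Not at h3
  obtain ⟨κ', rfl⟩ : ∃ κ', κ = κ' + 1 := ⟨κ - 1, by omega⟩
  rw [Nat.add_sub_cancel] at h1
  refine cl_arithZ n κ' a (a + t : ℕ) c (by exact_mod_cast hn) (by positivity)
    (by exact_mod_cast hκn) (by positivity) ?_ (by exact_mod_cast h2) (by exact_mod_cast h3)
  have e : (((a + t : ℕ) : ℤ) - a) = t := by push_cast; ring
  rw [e]
  exact_mod_cast h1

theorem cl {k Γ X : Type*} [Field k] [Group Γ] [AddCommGroup X] [Module k X]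
    [IsAlgClosed k] [Finite Γ] [Module.Finite k X] [Nontrivial X]
    (σ : Representation k Γ X) (K DK E E4 : Subgroup Γ) (n : ℕ) (hK : Nat.card K ≤ n)
    (hK0 : (Nat.card K : k) ≠ 0) (hDK : DK ≤ K) (nDK : Nm K DK) (hD1 : ∀ g ∈ DK, σ g = 1)
    (hE4 : E4 ≤ E) (nKE : Nm K E)
    (nKE4 : Nm K E4) (sc : ∀ e ∈ E, ∀ f ∈ E, ∃ c : k, ∀ v, σ ⁅e, f⁆ v = c • v)
    (rad : ∀ e ∈ E, e ∈ E4 ↔ ∀ f ∈ E, σ ⁅e, f⁆ = 1)
    (sc4 : ∀ e ∈ E4, ∃ c : k, ∀ v, σ e v = c • v)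
    (ord : ∀ e ∈ E, ∃ q : ℕ, (q : k) ≠ 0 ∧ σ (e ^ q) = 1)
    (hbig : ∀ g ∈ K, g ∉ DK → ∀ C : Subgroup Γ, (∀ e, e ∈ C ↔ e ∈ E ∧ ⁅g, e⁆ ∈ E4) →
      4 * n ^ 2 ≤ C.relIndex E) :
    Module.finrank k X ≤ 4 * n * Module.finrank k (Fx σ K) ∧
    E4.relIndex E ≤ (Module.finrank k X) ^ 2 := by
  obtain ⟨h1, h2⟩ := cla σ K DK E E4 n hDK hE4 nKE nKE4 sc rad sc4 ord hbig
  obtain ⟨t, h3, h4⟩ := clb σ K DK hK0 hDK nDK hD1
  refine ⟨?_, h2⟩
  have hKpos : 0 < Nat.card K := Nat.card_pos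
  have hDpos : 0 < Nat.card DK := Nat.card_pos
  have h5 : DK.relIndex K * Nat.card DK = Nat.card K := by
    have h7 := Subgroup.relIndex_mul_relIndex ⊥ DK K bot_le hDK
    rw [Subgroup.relIndex_bot_left, Subgroup.relIndex_bot_left] at h7
    rw [mul_comm]
    exact h7
  have hκ : 0 < DK.relIndex K := by
    rcases Nat.eq_zero_or_pos (DK.relIndex K) with h | h
    · rw [h, zero_mul] at h5
      omega
    · exact h
  have hκn : DK.relIndex K ≤ n := by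
    refine le_trans ?_ hK
    calc DK.relIndex K = DK.relIndex K * 1 := (mul_one _).symm
      _ ≤ DK.relIndex K * Nat.card DK := Nat.mul_le_mul_left _ hDpos
      _ = Nat.card K := h5
  rw [h3]
  refine cl_arith n (DK.relIndex K) _ t (Module.finrank k (cmt σ K)) (by omega) hκ hκn
    (by omega) ?_
  rw [← h3]
  have h6 : Nat.card DK * (4 * n ^ 2 * DK.relIndex K * Module.finrank k (cmt σ K)) ≤
      Nat.card DK * ((4 * n ^ 2 + DK.relIndex K) * Module.finrank k X ^ 2) := by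
    calc Nat.card DK * (4 * n ^ 2 * DK.relIndex K * Module.finrank k (cmt σ K))
        = 4 * n ^ 2 * (DK.relIndex K * Nat.card DK) * Module.finrank k (cmt σ K) := by ring
      _ = 4 * n ^ 2 * Nat.card K * Module.finrank k (cmt σ K) := by rw [h5]
      _ ≤ (4 * n ^ 2 * Nat.card DK + Nat.card K) * Module.finrank k X ^ 2 := h1
      _ = (4 * n ^ 2 * Nat.card DK + DK.relIndex K * Nat.card DK) * Module.finrank k X ^ 2 := by
          rw [h5]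
      _ = _ := by ring
  exact Nat.le_of_mul_le_mul_left h6 hDpos

end H78CY
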