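import Pool.Agent.H78.CY.Def2

/-!
[H78 CY ORB] Three facts on groups which permute the summands of a direct sum (60 min).

PROOFS. `orbX`: on `X ⊓ Fx τ (K ⊓ sW τ X)` let `Φ v = ∑ g ∈ K, τ g v ∈ Fx τ K`. For `g ∈ K ⊓ sW τ X`
`τ g v = v`, for the other `g ∈ K` `τ g v ∈ Y`; so `Φ v ∈ |K ⊓ sW τ X| • v + Y`. If `Φ v = 0` then
`|K ⊓ sW τ X| • v ∈ X ⊓ Y = ⊥`, and `|K ⊓ sW τ X|` divides `|K|`, so it is not `0` in `k`: `v = 0`. So `Φ`
is injective (`LinearMap.finrank_le_finrank_of_injective`).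
`orbB`: call a coset `c = x L`, `L = sW τ W`, bad if there is `v ∈ W`, `v ≠ 0`, fixed by all `x⁻¹ g x ∈ L`,
`g ∈ R`; equivalently a nonzero `v_c = τ x v ∈ cpW τ W c` fixed by all `g ∈ R` with `g • c = c`. `R` permutes
the bad cosets. Let `T` be a set of representatives of the `R`-orbits of bad cosets and, for `c ∈ T`,
`v'_c = ∑ g ∈ R, τ g v_c ∈ Fx τ R`. The component of `v'_c` in `cpW τ W c` is `|Stab_R(c)| • v_c ≠ 0`
(independence, `cpW_smul`), and `v'_c` lies in the sum of the `cpW τ W c'`, `c'` in the orbit of `c`; so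
the `v'_c`, `c ∈ T`, are linearly independent (look at the component `c ∈ T`), `|T| ≤ finrank (Fx τ R)`.
The number of bad cosets is at most `|T| |R|`, and every coset has `|L|` elements.
`orbC`: let `Y i` be the sum of the `Bl j`, `j ≠ i`. The map `Fx ρ ⊤ → Π ω, U ⧸ Y i_ω` (`i_ω`
representatives of the orbits) is injective and `finrank (U ⧸ Y i) ≤ D`.
-/

namespace H78CY

open Subgroup H78TP
open scoped commutatorElement

variable {k Γ U : Type*} [Field k] [Group Γ] [AddCommGroup U] [Module k U]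

theorem orbSum (τ : Representation k Γ U) (K : Subgroup Γ) [Fintype K] (v : U) :
    (∑ g : K, τ g.1 v) ∈ Fx τ K := by
  intro x hx
  rw [map_sum]
  refine Fintype.sum_equiv (Equiv.mulLeft (⟨x, hx⟩ : K)) _ _ (fun g => ?_)
  rw [Equiv.coe_mulLeft, Subgroup.coe_mul, map_mul, Module.End.mul_apply]

/-- splitting of the orbit sum -/
theorem orbSplit (τ : Representation k Γ U) (K : Subgroup Γ) [Fintype K] (v : U) (S : Subgroup Γ)
    (Y : Submodule k U) (hK : (Nat.card K : k) ≠ 0)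
    (h1 : ∀ g ∈ K, g ∈ S → τ g v = v) (h2 : ∀ g ∈ K, g ∉ S → τ g v ∈ Y) :
    ∃ (N : k) (y : U), N ≠ 0 ∧ y ∈ Y ∧ (∑ g : K, τ g.1 v) = N • v + y := by
  classical
  refine ⟨((Finset.univ.filter (fun g : K => g.1 ∈ S)).card : k),
    ∑ g ∈ Finset.univ.filter (fun g : K => ¬ g.1 ∈ S), τ g.1 v, ?_, ?_, ?_⟩
  · have e1 : (Finset.univ.filter (fun g : K => g.1 ∈ S)).card = Nat.card (S.subgroupOf K) := by
      rw [← Fintype.card_subtype, ← Nat.card_eq_fintype_card]
      rfl
    rw [e1]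
    obtain ⟨c, hc⟩ := Subgroup.card_subgroup_dvd_card (S.subgroupOf K)
    intro h0
    apply hK
    rw [hc, Nat.cast_mul, h0, zero_mul]
  · refine Submodule.sum_mem _ (fun g hg => ?_)
    rw [Finset.mem_filter] at hg
    exact h2 g.1 g.2 hg.2
  · rw [← Finset.sum_filter_add_sum_filter_not Finset.univ (fun g : K => g.1 ∈ S)]
    congr 1
    rw [Finset.sum_congr rfl (g := fun _ => v), Finset.sum_const, Nat.cast_smul_eq_nsmul]
    intro g hg
    rw [Finset.mem_filter] at hg
    exact h1 g.1 g.2 hg.2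

theorem orbX [Finite Γ] [Module.Finite k U] (τ : Representation k Γ U) (K : Subgroup Γ)
    (X Y : Submodule k U) (hK : (Nat.card K : k) ≠ 0) (h1 : X ⊓ Y = ⊥)
    (h2 : ∀ g ∈ K, g ∉ sW τ X → X.map (τ g) ≤ Y) :
    Module.finrank k (X ⊓ Fx τ (K ⊓ sW τ X) : Submodule k U) ≤ Module.finrank k (Fx τ K) := by
  classical
  have : Fintype K := Fintype.ofFinite K
  let Φ : U →ₗ[k] U := ∑ g : K, τ g.1
  have hΦa : ∀ v, Φ v = ∑ g : K, τ g.1 v := fun v => LinearMap.sum_apply _ _ _
  have hΦ : ∀ v, Φ v ∈ Fx τ K := by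
    intro v
    rw [hΦa]
    exact orbSum τ K v
  let Ψ : (X ⊓ Fx τ (K ⊓ sW τ X) : Submodule k U) →ₗ[k] (Fx τ K : Submodule k U) :=
    (Φ.comp (Submodule.subtype _)).codRestrict (Fx τ K) (fun v => hΦ v.1)
  apply LinearMap.finrank_le_finrank_of_injective (f := Ψ)
  rw [injective_iff_map_eq_zero]
  rintro ⟨v, hv⟩ h0
  rw [Submodule.mem_inf] at hv
  have h0' : Φ v = 0 := congrArg Subtype.val h0
  rw [hΦa] at h0'
  obtain ⟨N, y, hN, hy, e⟩ := orbSplit τ K v (sW τ X) Y hK
    (fun g hg hg' => hv.2 g ⟨hg, hg'⟩) (fun g hg hg' => h2 g hg hg' ⟨v, hv.1, rfl⟩)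
  rw [h0'] at e
  have h3 : N • v ∈ X ⊓ Y := by
    refine ⟨X.smul_mem _ hv.1, ?_⟩
    rw [eq_neg_of_add_eq_zero_left e.symm]
    exact Y.neg_mem hy
  rw [h1, Submodule.mem_bot] at h3
  rcases smul_eq_zero.mp h3 with h4 | h4
  · exact absurd h4 hN
  · exact Subtype.ext h4

theorem orbB [Finite Γ] [Module.Finite k U] (τ : Representation k Γ U) (W : Submodule k U)
    (hind : iSupIndep (cpW τ W)) (R : Subgroup Γ) (hR : (Nat.card R : k) ≠ 0) :
    Nat.card {x : Γ // ∃ v ∈ W, v ≠ 0 ∧ ∀ g ∈ R, x⁻¹ * g * x ∈ sW τ W →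
      τ (x⁻¹ * g * x) v = v} ≤
      Nat.card R * Module.finrank k (Fx τ R) * Nat.card (sW τ W) := by
  classical
  have : Fintype R := Fintype.ofFinite R
  let bad : Γ ⧸ sW τ W → Prop := fun c =>
    ∃ v ∈ cpW τ W c, v ≠ 0 ∧ ∀ g ∈ R, g • c = c → τ g v = v
  have hinj : ∀ (x : Γ) (v : U), τ x v = 0 → v = 0 := by
    intro x v hv
    have := congrArg (τ x⁻¹) hv
    rwa [map_zero, ← Module.End.mul_apply, ← map_mul, inv_mul_cancel, map_one,
      Module.End.one_apply] at this
  have hb : ∀ x : Γ, (∃ v ∈ W, v ≠ 0 ∧ ∀ g ∈ R, x⁻¹ * g * x ∈ sW τ W →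
      τ (x⁻¹ * g * x) v = v) → bad (QuotientGroup.mk x) := by
    rintro x ⟨v, hv, hv0, hf⟩
    refine ⟨τ x v, ?_, fun h0 => hv0 (hinj x v h0), ?_⟩
    · rw [cpW_mk]
      exact ⟨v, hv, rfl⟩
    · intro g hg hgc
      have h1 : g • (QuotientGroup.mk x : Γ ⧸ sW τ W) = QuotientGroup.mk (g * x) := rfl
      rw [h1, eq_comm, QuotientGroup.eq] at hgc
      rw [← mul_assoc] at hgc
      have h2 := congrArg (τ x) (hf g hg hgc)
      rwa [← Module.End.mul_apply, ← map_mul, show x * (x⁻¹ * g * x) = g * x by group, map_mul,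
        Module.End.mul_apply] at h2
  have h1 : Nat.card {x : Γ // ∃ v ∈ W, v ≠ 0 ∧ ∀ g ∈ R, x⁻¹ * g * x ∈ sW τ W →
      τ (x⁻¹ * g * x) v = v} ≤ Nat.card (sW τ W) * Nat.card {c : Γ ⧸ sW τ W // bad c} := by
    have h2 := QuotientGroup.card_preimage_mk (sW τ W) {c : Γ ⧸ sW τ W | bad c}
    refine le_trans ?_ h2.le
    exact Nat.card_le_card_of_injective
      (fun x => (⟨x.1, hb x.1 x.2⟩ : (QuotientGroup.mk ⁻¹' {c : Γ ⧸ sW τ W | bad c} : Set Γ)))
      (fun x y hxy => Subtype.ext (congrArg (fun z => z.1) hxy))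
  -- representatives of the orbits
  let Ω := MulAction.orbitRel.Quotient R (Γ ⧸ sW τ W)
  have hbs : ∀ (r : R) (c : Γ ⧸ sW τ W), bad c → bad (r • c) := by
    rintro r c ⟨v, hv, hv0, hf⟩
    refine ⟨τ r.1 v, cpW_smul τ W r.1 c hv, fun h0 => hv0 (hinj _ v h0), ?_⟩
    intro g hg hgc
    have h3 : (r.1⁻¹ * g * r.1) • c = c := by
      rw [mul_smul, mul_smul]
      have h4 : r • c = r.1 • c := rfl
      rw [h4] at hgc
      rw [hgc, inv_smul_smul]
    have h5 := congrArg (τ r.1) (hf _ (R.mul_mem (R.mul_mem (R.inv_mem r.2) hg) r.2) h3)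
    rwa [← Module.End.mul_apply, ← map_mul, show r.1 * (r.1⁻¹ * g * r.1) = g * r.1 by group, map_mul,
      Module.End.mul_apply] at h5
  let T := {ω : Ω // bad (Quotient.out ω)}
  have hTb : Nat.card {c : Γ ⧸ sW τ W // bad c} ≤ Nat.card T * Nat.card R := by
    rw [← Nat.card_prod]
    have : Finite Ω := Quotient.finite _
    have h3 : ∀ c : {c : Γ ⧸ sW τ W // bad c}, ∃ q : T × R, q.2 • (Quotient.out q.1.1) = c.1 := by
      rintro ⟨c, hc⟩
      have h4 : (MulAction.orbitRel R (Γ ⧸ sW τ W)).r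
          (Quotient.out (Quotient.mk (MulAction.orbitRel R (Γ ⧸ sW τ W)) c)) c :=
        Quotient.exact (Quotient.out_eq _)
      obtain ⟨r, hr⟩ := h4
      have hr' : r • c = Quotient.out (Quotient.mk (MulAction.orbitRel R (Γ ⧸ sW τ W)) c) := hr
      refine ⟨(⟨Quotient.mk (MulAction.orbitRel R (Γ ⧸ sW τ W)) c, ?_⟩, r⁻¹), ?_⟩
      · rw [← hr']
        exact hbs r c hc
      · change r⁻¹ • Quotient.out (Quotient.mk (MulAction.orbitRel R (Γ ⧸ sW τ W)) c) = c
        rw [← hr', inv_smul_smul]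
    choose F hF using h3
    refine Nat.card_le_card_of_injective F (fun a b hab => Subtype.ext ?_)
    rw [← hF a, ← hF b, hab]
  have hTf : Nat.card T ≤ Module.finrank k (Fx τ R) := by
    have : Finite Ω := Quotient.finite _
    have : Fintype T := Fintype.ofFinite T
    rw [Nat.card_eq_fintype_card]
    choose v hvW hv0 hvf using fun t : T => t.2
    let w : T → (Fx τ R : Submodule k U) := fun t => ⟨∑ g : R, τ g.1 (v t), orbSum τ R (v t)⟩
    apply LinearIndependent.fintype_card_le_finrank (b := w)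
    rw [Fintype.linearIndependent_iff]
    intro a ha t0
    let c0 : Γ ⧸ sW τ W := Quotient.out t0.1
    let Y : Submodule k U := ⨆ (j) (_ : j ≠ c0), cpW τ W j
    have hd : Disjoint (cpW τ W c0) Y := hind c0
    -- terms for other classes
    have hother : ∀ t : T, t ≠ t0 → ∀ g : R, τ g.1 (v t) ∈ Y := by
      intro t ht g
      have h4 : τ g.1 (v t) ∈ cpW τ W (g.1 • Quotient.out t.1) := cpW_smul τ W _ _ (hvW t)
      have h5 : g.1 • (Quotient.out t.1 : Γ ⧸ sW τ W) ≠ c0 := by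
        intro h6
        apply ht
        apply Subtype.ext
        have h7 : (MulAction.orbitRel R (Γ ⧸ sW τ W)).r (Quotient.out t0.1) (Quotient.out t.1) :=
          ⟨g, h6⟩
        have h8 := Quotient.sound h7
        rw [Quotient.out_eq, Quotient.out_eq] at h8
        exact h8.symm
      exact Submodule.mem_iSup_of_mem _ (Submodule.mem_iSup_of_mem h5 h4)
    let S : Subgroup Γ := MulAction.stabilizer Γ c0
    obtain ⟨N, y, hN, hy, e⟩ := orbSplit τ R (v t0) S Y hR
      (fun g hg hg' => hvf t0 g hg hg')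
      (fun g hg hg' => Submodule.mem_iSup_of_mem _ (Submodule.mem_iSup_of_mem
        (fun h => hg' h) (cpW_smul τ W g _ (hvW t0))))
    have ha' : ∑ t, a t • ∑ g : R, τ g.1 (v t) = 0 := by
      have := congrArg Subtype.val ha
      rw [Submodule.coe_sum] at this
      exact this
    rw [← Finset.add_sum_erase _ _ (Finset.mem_univ t0), e, smul_add, add_assoc] at ha'
    have h9 : a t0 • N • v t0 ∈ Y := by
      rw [eq_neg_of_add_eq_zero_left ha']
      refine Y.neg_mem (Y.add_mem (Y.smul_mem _ hy) (Submodule.sum_mem _ (fun t ht => ?_)))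
      refine Y.smul_mem _ (Submodule.sum_mem _ (fun g _ => hother t ?_ g))
      exact Finset.ne_of_mem_erase ht
    have h10 : a t0 • N • v t0 ∈ cpW τ W c0 :=
      Submodule.smul_mem _ _ (Submodule.smul_mem _ _ (hvW t0))
    have h11 := Submodule.disjoint_def.mp hd _ h10 h9
    rcases smul_eq_zero.mp h11 with h12 | h12
    · exact h12
    · rcases smul_eq_zero.mp h12 with h13 | h13
      · exact absurd h13 hN
      · exact absurd h13 (hv0 t0)
  calc _ ≤ Nat.card (sW τ W) * Nat.card {c : Γ ⧸ sW τ W // bad c} := h1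
    _ ≤ Nat.card (sW τ W) * (Module.finrank k (Fx τ R) * Nat.card R) :=
        Nat.mul_le_mul_left _ (hTb.trans (Nat.mul_le_mul_right _ hTf))
    _ = Nat.card R * Module.finrank k (Fx τ R) * Nat.card (sW τ W) := by ring

theorem orbC {K : Type*} [Group K] [Finite K] {ι : Type*} [Finite ι] [MulAction K ι]
    [Module.Finite k U] (ρ : Representation k K U) (Bl : ι → Submodule k U)
    (h1 : iSupIndep Bl) (h2 : (⨆ i, Bl i) = ⊤)
    (h3 : ∀ (g : K) (i : ι) (w : U), w ∈ Bl i → ρ g w ∈ Bl (g • i)) (D : ℕ)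
    (h4 : ∀ i, Module.finrank k (Bl i) ≤ D) :
    Module.finrank k (Fx ρ ⊤) ≤ Nat.card (MulAction.orbitRel.Quotient K ι) * D := by
  classical
  let Ω := MulAction.orbitRel.Quotient K ι
  have : Finite Ω := Quotient.finite _
  have : Fintype Ω := Fintype.ofFinite Ω
  have : Fintype ι := Fintype.ofFinite ι
  let Y : ι → Submodule k U := fun i => ⨆ (j) (_ : j ≠ i), Bl j
  have hYD : ∀ i, Module.finrank k (U ⧸ Y i) ≤ D := by
    intro i
    have e1 : Bl i ⊔ Y i = ⊤ := by
      rw [eq_top_iff, ← h2]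
      refine iSup_le (fun j => ?_)
      rcases eq_or_ne j i with rfl | hj
      · exact le_sup_left
      · exact le_trans (le_iSup₂_of_le j hj le_rfl) le_sup_right
    have e2 := Submodule.finrank_quotient_add_finrank (Y i)
    have e3 := Submodule.finrank_add_le_finrank_add_finrank (Bl i) (Y i)
    rw [e1, finrank_top] at e3
    have := h4 i
    omega
  let Ψ : (Fx ρ ⊤ : Submodule k U) →ₗ[k] (Π ω : Ω, U ⧸ Y (Quotient.out ω)) :=
    LinearMap.pi (fun ω => (Y (Quotient.out ω)).mkQ.comp (Submodule.subtype _))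
  have hΨ : Function.Injective Ψ := by
    rw [injective_iff_map_eq_zero]
    rintro ⟨v, hv⟩ h0
    have hvY : ∀ ω : Ω, v ∈ Y (Quotient.out ω) := by
      intro ω
      have := congrFun h0 ω
      exact (Submodule.Quotient.mk_eq_zero _).mp this
    have hvi : ∀ i, v ∈ Y i := by
      intro i
      have h5 : (MulAction.orbitRel K ι).r i
          (Quotient.out (Quotient.mk (MulAction.orbitRel K ι) i)) :=
        Quotient.exact (Quotient.out_eq _).symm
      obtain ⟨g, hg⟩ := h5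
      have hg' : g • (Quotient.out (Quotient.mk (MulAction.orbitRel K ι) i)) = i := hg
      have h6 := hvY (Quotient.mk (MulAction.orbitRel K ι) i)
      have h7 : Y (Quotient.out (Quotient.mk (MulAction.orbitRel K ι) i)) ≤ (Y i).comap (ρ g) := by
        refine iSup₂_le (fun j hj => ?_)
        intro w hw
        rw [Submodule.mem_comap]
        refine Submodule.mem_iSup_of_mem (g • j) (Submodule.mem_iSup_of_mem ?_ (h3 g j w hw))
        intro h8
        apply hj
        rw [← hg'] at h8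
        exact smul_left_cancel g h8
      have h8 := h7 h6
      rw [Submodule.mem_comap, hv g (Subgroup.mem_top _)] at h8
      exact h8
    have hvt : v ∈ (⨆ i ∈ (Finset.univ : Finset ι), Bl i) := by
      have h9 : v ∈ (⨆ i, Bl i) := by
        rw [h2]
        trivial
      simpa using h9
    rw [Submodule.mem_iSup_finset_iff_exists_sum] at hvt
    obtain ⟨μ, hμ⟩ := hvt
    apply Subtype.ext
    change v = 0
    rw [← hμ]
    refine Finset.sum_eq_zero (fun i _ => ?_)
    have h10 : (μ i : U) ∈ Y i := by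
      have h11 : (μ i : U) = v - ∑ j ∈ Finset.univ.erase i, (μ j : U) := by
        rw [← hμ, ← Finset.add_sum_erase _ _ (Finset.mem_univ i), add_sub_cancel_right]
      rw [h11]
      refine (Y i).sub_mem (hvi i) (Submodule.sum_mem _ (fun j hj => ?_))
      exact Submodule.mem_iSup_of_mem j (Submodule.mem_iSup_of_mem (Finset.ne_of_mem_erase hj)
        (μ j).2)
    exact Submodule.disjoint_def.mp (h1 i) _ (μ i).2 h10
  calc Module.finrank k (Fx ρ ⊤) ≤ Module.finrank k (Π ω : Ω, U ⧸ Y (Quotient.out ω)) :=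
        LinearMap.finrank_le_finrank_of_injective hΨ
    _ = ∑ ω : Ω, Module.finrank k (U ⧸ Y (Quotient.out ω)) := Module.finrank_pi_fintype k
    _ ≤ ∑ _ω : Ω, D := Finset.sum_le_sum (fun ω _ => hYD _)
    _ = Nat.card (MulAction.orbitRel.Quotient K ι) * D := by
        rw [Finset.sum_const, Finset.card_univ, smul_eq_mul, Nat.card_eq_fintype_card]

end H78CY
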