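import Pool.Agent.H78.CY.Cla1
import Pool.Agent.H78.CY.Orb
import Pool.Agent.H78.CY.Cc

/-!
[H78 CY CLA] The dimension of `End_K(X)` (45 min).

PROOF. Use `cla1`; let `N = E4.relIndex E > 0`, `w = finrank X`, `finrank (X →ₗ X) = w²`. By independence
and `⨆ = ⊤`: `N * D0 = w²` (sum of the dimensions; only `N * D0 ≤ w²` is needed for the bounds: `D0 ≥ 1`
gives `N ≤ w²`). `cmt σ K` is the space of fixed points of the representation of `K` on `X →ₗ X` by
conjugation (`Representation.linHom`, restricted to `K`), so by `orbC`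
`c := finrank (cmt σ K) ≤ o * D0`, `o` the number of `K`-orbits on `Fin N`. Burnside
(`MulAction.sum_card_fixedBy_eq_card_orbits_mul_card_group`): `o |K| = ∑ g : K, |Fix g|`. For `g ∈ DK` use
`|Fix g| ≤ N`, for `g ∉ DK`: `|Fix g| * 4 n² ≤ |Fix g| * C.relIndex E ≤ N` (`C` exists: `E` normalises `E4`
since commutators of `E` are in `E4`: they are scalars). So
`4 n² * o |K| ≤ 4 n² |DK| N + |K| N`, and multiplying by `D0`:
`4 n² |K| c ≤ (4 n² |DK| + |K|) N D0 = (4 n² |DK| + |K|) w²`.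
-/

namespace H78CY

open Subgroup H78TP
open scoped commutatorElement

variable {k Γ X : Type*} [Field k] [Group Γ] [AddCommGroup X] [Module k X]


theorem cla [IsAlgClosed k] [Finite Γ] [Module.Finite k X] [Nontrivial X]
    (σ : Representation k Γ X) (K DK E E4 : Subgroup Γ) (n : ℕ) (hDK : DK ≤ K)
    (hE4 : E4 ≤ E) (nKE : Nm K E)
    (nKE4 : Nm K E4) (sc : ∀ e ∈ E, ∀ f ∈ E, ∃ c : k, ∀ v, σ ⁅e, f⁆ v = c • v)
    (rad : ∀ e ∈ E, e ∈ E4 ↔ ∀ f ∈ E, σ ⁅e, f⁆ = 1)
    (sc4 : ∀ e ∈ E4, ∃ c : k, ∀ v, σ e v = c • v)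
    (ord : ∀ e ∈ E, ∃ q : ℕ, (q : k) ≠ 0 ∧ σ (e ^ q) = 1)
    (hbig : ∀ g ∈ K, g ∉ DK → ∀ C : Subgroup Γ, (∀ e, e ∈ C ↔ e ∈ E ∧ ⁅g, e⁆ ∈ E4) →
      4 * n ^ 2 ≤ C.relIndex E) :
    4 * n ^ 2 * Nat.card K * Module.finrank k (cmt σ K) ≤
      (4 * n ^ 2 * Nat.card DK + Nat.card K) * (Module.finrank k X) ^ 2 ∧
    E4.relIndex E ≤ (Module.finrank k X) ^ 2 := by
  classical
  haveI : Fintype Γ := Fintype.ofFinite Γ
  obtain ⟨act, Bl, D0, hind, htop, hdim, hD0, hperm, hfix⟩ :=
    cla1 σ K E E4 hE4 nKE nKE4 sc rad sc4 ord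
  obtain ⟨w, hw⟩ : ∃ w, w = Module.finrank k X := ⟨_, rfl⟩
  rw [← hw]
  -- the sum of the dimensions
  have hsum : E4.relIndex E * D0 = w ^ 2 := by
    have hI := DirectSum.isInternal_submodule_of_iSupIndep_of_iSup_eq_top hind htop
    have h1 := (LinearEquiv.ofBijective (DirectSum.coeLinearMap Bl) hI).finrank_eq
    rw [Module.finrank_directSum, Module.finrank_linearMap, ← hw,
      Finset.sum_congr rfl (fun i _ => hdim i), Finset.sum_const, Finset.card_univ,
      Fintype.card_fin, smul_eq_mul] at h1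
    rw [h1, sq]
  have hN : E4.relIndex E ≤ w ^ 2 := by
    rw [← hsum]
    exact Nat.le_mul_of_pos_right _ hD0
  refine ⟨?_, hN⟩
  -- the commutant
  let ρ : Representation k K (X →ₗ[k] X) := (Representation.linHom σ σ).comp K.subtype
  have hρ : ∀ (g : K) (φ : X →ₗ[k] X), ρ g φ = σ (g : Γ) ∘ₗ φ ∘ₗ σ (g : Γ)⁻¹ := fun g φ => rfl
  have hcmt : cmt σ K ≤ Fx ρ ⊤ := by
    intro φ hφ g _
    rw [hρ]
    ext v
    change σ (g : Γ) (φ (σ (g : Γ)⁻¹ v)) = φ v
    have h1 : σ (g : Γ) (σ (g : Γ)⁻¹ v) = v := by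
      rw [← Module.End.mul_apply, ← map_mul, mul_inv_cancel, map_one, Module.End.one_apply]
    rw [← hφ g g.2, h1]
  have hc1 : Module.finrank k (cmt σ K) ≤
      Nat.card (MulAction.orbitRel.Quotient K (Fin (E4.relIndex E))) * D0 := by
    refine (Submodule.finrank_mono hcmt).trans ?_
    exact orbC ρ Bl hind htop (fun g i φ hφ => hperm g i φ hφ) D0 (fun i => (hdim i).le)
  -- Burnside
  haveI hfo : Finite (MulAction.orbitRel.Quotient K (Fin (E4.relIndex E))) := Quotient.finite _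
  haveI : Fintype (MulAction.orbitRel.Quotient K (Fin (E4.relIndex E))) := Fintype.ofFinite _
  have hB := MulAction.sum_card_fixedBy_eq_card_orbits_mul_card_group K (Fin (E4.relIndex E))
  have hnEE4 : Nm E E4 := by
    intro f hf x hx
    have hx' : f * x * f⁻¹ ∈ E := E.mul_mem (E.mul_mem hf (hE4 hx)) (E.inv_mem hf)
    rw [rad _ hx']
    intro e he
    have h1 := (rad x (hE4 hx)).1 hx (f⁻¹ * e * f) (E.mul_mem (E.mul_mem (E.inv_mem hf) he) hf)
    have e1 : ⁅f * x * f⁻¹, e⁆ = f * ⁅x, f⁻¹ * e * f⁆ * f⁻¹ := by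
      simp only [commutatorElement_def]
      group
    rw [e1, map_mul, map_mul, h1, mul_one, ← map_mul, mul_inv_cancel, map_one]
  have hFix : ∀ g : K, Fintype.card (MulAction.fixedBy (Fin (E4.relIndex E)) g) =
      Nat.card {i : Fin (E4.relIndex E) // g • i = i} := by
    intro g
    rw [← Nat.card_eq_fintype_card]
    rfl
  have h1 : ∀ g : K, 4 * n ^ 2 * Fintype.card (MulAction.fixedBy (Fin (E4.relIndex E)) g) ≤
      (if (g : Γ) ∈ DK then 4 * n ^ 2 * E4.relIndex E else 0) + E4.relIndex E := by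
    intro g
    by_cases hg : (g : Γ) ∈ DK
    · rw [if_pos hg]
      refine le_trans (Nat.mul_le_mul_left _ ?_) (Nat.le_add_right _ _)
      have h2 : Fintype.card (MulAction.fixedBy (Fin (E4.relIndex E)) g) ≤
          Fintype.card (Fin (E4.relIndex E)) :=
        Fintype.card_le_of_injective Subtype.val Subtype.val_injective
      rwa [Fintype.card_fin] at h2
    · rw [if_neg hg, zero_add]
      obtain ⟨C, hC⟩ := exCg (J := E) hnEE4 (g : Γ)
      have h2 := hbig g g.2 hg C hC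
      have h3 := hfix g C hC
      rw [← hFix] at h3
      calc _ ≤ C.relIndex E * Fintype.card (MulAction.fixedBy (Fin (E4.relIndex E)) g) :=
            Nat.mul_le_mul_right _ h2
        _ = Fintype.card (MulAction.fixedBy (Fin (E4.relIndex E)) g) * C.relIndex E := mul_comm _ _
        _ ≤ _ := h3
  have h2 : 4 * n ^ 2 * (∑ g : K, Fintype.card (MulAction.fixedBy (Fin (E4.relIndex E)) g)) ≤
      (4 * n ^ 2 * Nat.card DK + Nat.card K) * E4.relIndex E := by
    rw [Finset.mul_sum]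
    refine (Finset.sum_le_sum fun g _ => h1 g).trans ?_
    rw [Finset.sum_add_distrib, Finset.sum_const, Finset.card_univ, smul_eq_mul,
      ← Finset.sum_filter, Finset.sum_const, smul_eq_mul]
    have h3 : (Finset.univ.filter (fun g : K => (g : Γ) ∈ DK)).card ≤ Nat.card DK := by
      rw [← Fintype.card_subtype, ← Nat.card_eq_fintype_card]
      refine Nat.card_le_card_of_injective (fun g => (⟨g.1.1, g.2⟩ : DK)) ?_
      intro a b hab
      have h4 : a.1.1 = b.1.1 := Subtype.mk.inj hab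
      exact Subtype.ext (Subtype.ext h4)
    rw [Nat.card_eq_fintype_card (α := K)]
    calc _ ≤ Nat.card DK * (4 * n ^ 2 * E4.relIndex E) + Fintype.card K * E4.relIndex E :=
          Nat.add_le_add_right (Nat.mul_le_mul_right _ h3) _
      _ = _ := by ring
  rw [hB] at h2
  have h3 : Fintype.card (MulAction.orbitRel.Quotient K (Fin (E4.relIndex E))) =
      Nat.card (MulAction.orbitRel.Quotient K (Fin (E4.relIndex E))) :=
    Nat.card_eq_fintype_card.symm
  have h4 : Fintype.card K = Nat.card K := Nat.card_eq_fintype_card.symm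
  have h5 : 4 * n ^ 2 * (Nat.card (MulAction.orbitRel.Quotient K (Fin (E4.relIndex E))) *
      Nat.card K) ≤ (4 * n ^ 2 * Nat.card DK + Nat.card K) * E4.relIndex E := by
    rw [← h3, ← h4]
    rw [← h4] at h2
    exact h2
  calc 4 * n ^ 2 * Nat.card K * Module.finrank k (cmt σ K)
      ≤ 4 * n ^ 2 * Nat.card K *
        (Nat.card (MulAction.orbitRel.Quotient K (Fin (E4.relIndex E))) * D0) :=
        Nat.mul_le_mul_left _ hc1
    _ = (4 * n ^ 2 * (Nat.card (MulAction.orbitRel.Quotient K (Fin (E4.relIndex E))) *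
      Nat.card K)) * D0 := by ring
    _ ≤ ((4 * n ^ 2 * Nat.card DK + Nat.card K) * E4.relIndex E) * D0 :=
        Nat.mul_le_mul_right _ h5
    _ = (4 * n ^ 2 * Nat.card DK + Nat.card K) * (E4.relIndex E * D0) := by ring
    _ = _ := by rw [hsum]

end H78CY
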