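import Pool.Agent.H78.CY.Def2
import Pool.Agent.H78.TP.WeiA
import Pool.Agent.H78.TP.WeiB

/-!
[H78 CY WEIC] Weight spaces and the sum `WC` of the other weight spaces (45 min).

PROOFS. `wei_top1` is `H78TP.wei_top` (file `TP/WeiB.lean`) with `orderOf t` replaced by some `q`
with `(q : k) ≠ 0` and `τ (t ^ q) = 1` on `V`; copy the proof: on a `T`-invariant subspace `X ≤ V` every
`τ t` satisfies `x ^ q = 1`, and `X ^ q - 1` is separable, so `τ t` is diagonalisable.
(Alternatively, reduce it to `wei_top` applied to the group `Γ ⧸ ker` for the homomorphism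
`T → (V →ₗ V)`.)
`wc_disj`: `wei_ind` (the family over `Wt τ T V` is independent; `WC` is the supremum of the other
members). `wc_inv`: `τ g` maps `WS τ T V ν'` into `WS τ T V (cjf g ν')` (`WS_cjf`), `cjf g ν' ∈ Wt`
(`Wt_cjf`), and `cjf g ν' = ν = cjf g ν` would give `ν' = ν` (apply `cjf g⁻¹`, `cjf_mul`, `cjf_one`); use
`Submodule.iSup_le`-type induction (`Submodule.map_iSup`, `iSup_le`). `wc_scal`: `τ t` acts on
`WS τ T V ν'` as a scalar. `wt_ex`: `v ∈ ⨆ WS` is a finite sum of weight vectors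
(`Submodule.mem_iSup_iff_exists_finsupp` or `..._dfinsupp`) not all zero; take a nonzero one as `a`.
`wt_ne`, `wt_mul`: evaluate on a nonzero weight vector.
-/

namespace H78CY

open Subgroup H78TP
open scoped commutatorElement

variable {k Γ U : Type*} [Field k] [Group Γ] [AddCommGroup U] [Module k U]


theorem wei_top1 [IsAlgClosed k] [Finite Γ] [Module.Finite k U] (τ : Representation k Γ U)
    (T : Subgroup Γ) (V : Submodule k U) (hinv : ∀ t ∈ T, ∀ v ∈ V, τ t v ∈ V)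
    (hcomm : ∀ s ∈ T, ∀ t ∈ T, ∀ v ∈ V, τ s (τ t v) = τ t (τ s v))
    (hord : ∀ t ∈ T, ∃ q : ℕ, (q : k) ≠ 0 ∧ ∀ v ∈ V, τ (t ^ q) v = v) :
    (⨆ ν : Wt τ T V, WS τ T V ν.1) = V := by
  classical
  apply le_antisymm
  · exact iSup_le fun ν v hv => hv.1
  -- the restrictions
  let f : T → Module.End k V := fun t => (τ t.1).restrict (hinv t.1 t.2)
  have hf : ∀ (t : T) (v : V), ((f t v : V) : U) = τ t.1 v := fun t v => rfl
  have hpow : ∀ (t : T) (n : ℕ) (v : V), (((f t ^ n) v : V) : U) = τ (t.1 ^ n) v := by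
    intro t n
    induction n with
    | zero =>
      intro v
      simp
    | succ n ih =>
      intro v
      rw [pow_succ', Module.End.mul_apply, hf, ih, ← Module.End.mul_apply, ← map_mul, pow_succ']
  have hss : ∀ t : T, (f t).IsSemisimple := by
    intro t
    obtain ⟨q, hq, hq'⟩ := hord t.1 t.2
    have hsep : (Polynomial.X ^ q - 1 : Polynomial k).Separable :=
      Polynomial.X_pow_sub_one_separable_iff.2 hq
    refine Module.End.isSemisimple_of_squarefree_aeval_eq_zero hsep.squarefree ?_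
    rw [map_sub, map_pow, Polynomial.aeval_X, map_one, sub_eq_zero]
    apply LinearMap.ext
    intro v
    apply Subtype.ext
    rw [hpow, hq' v.1 v.2]
    rfl
  have hcm : Pairwise fun i j => Commute (f i) (f j) := by
    intro s t _
    apply LinearMap.ext
    intro v
    apply Subtype.ext
    rw [Module.End.mul_apply, Module.End.mul_apply, hf, hf, hf, hf]
    exact hcomm s.1 s.2 t.1 t.2 v.1 v.2
  have htop := Module.End.iSup_iInf_maxGenEigenspace_eq_top_of_iSup_maxGenEigenspace_eq_top_of_commute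
    f hcm (fun t => Module.End.iSup_maxGenEigenspace_eq_top (f t))
  have hV : V = Submodule.map V.subtype
      (⨆ χ : T → k, ⨅ t, (f t).maxGenEigenspace (χ t)) := by
    rw [htop, Submodule.map_top, Submodule.range_subtype]
  calc V = Submodule.map V.subtype (⨆ χ : T → k, ⨅ t, (f t).maxGenEigenspace (χ t)) := hV
    _ ≤ _ := by
      rw [Submodule.map_iSup]
      apply iSup_le
      intro χ
      let ν : Γ → k := fun t => if h : t ∈ T then χ ⟨t, h⟩ else 0
      have hle : Submodule.map V.subtype (⨅ t, (f t).maxGenEigenspace (χ t)) ≤ WS τ T V ν := by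
        rintro - ⟨w, hw, rfl⟩
        refine ⟨w.2, fun t ht => ?_⟩
        have h1 := (Submodule.mem_iInf _).1 hw ⟨t, ht⟩
        rw [(Module.End.isFinitelySemisimple_iff_isSemisimple.mpr
          (hss ⟨t, ht⟩)).maxGenEigenspace_eq_eigenspace, Module.End.mem_eigenspace_iff] at h1
        have h2 := congrArg Subtype.val h1
        rw [hf] at h2
        have h3 : ν t = χ ⟨t, ht⟩ := dif_pos ht
        rw [h3]
        exact h2
      by_cases hbot : WS τ T V ν = ⊥
      · rw [hbot] at hle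
        exact hle.trans bot_le
      · exact hle.trans (le_iSup (fun ν : Wt τ T V => WS τ T V ν.1)
          ⟨ν, fun t ht => dif_neg ht, hbot⟩)

theorem wc_disj (τ : Representation k Γ U) (T : Subgroup Γ) (V : Submodule k U) {ν : Γ → k}
    (hν : ν ∈ Wt τ T V) {v : U} (h1 : v ∈ WS τ T V ν) (h2 : v ∈ WC τ T V ν) : v = 0 := by
  have h3 := (wei_ind τ T V) ⟨ν, hν⟩
  rw [Submodule.disjoint_def] at h3
  refine h3 v h1 ?_
  refine (iSup₂_le ?_ : WC τ T V ν ≤ _) h2
  intro ν' hne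
  exact le_iSup₂_of_le ν' (fun h => hne (congrArg Subtype.val h)) le_rfl

theorem wc_le (τ : Representation k Γ U) (T : Subgroup Γ) (V : Submodule k U) (ν : Γ → k) :
    WC τ T V ν ≤ V :=
  iSup₂_le fun _ _ _ hv => hv.1

private theorem weic_le (τ : Representation k Γ U) (T : Subgroup Γ) (V : Submodule k U)
    {ν ν' : Γ → k} (h : ν' ∈ Wt τ T V) (hne : ν' ≠ ν) : WS τ T V ν' ≤ WC τ T V ν :=
  le_iSup₂_of_le (f := fun (ν' : Wt τ T V) (_ : ν'.1 ≠ ν) => WS τ T V ν'.1) ⟨ν', h⟩ hne le_rfl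

theorem wc_inv {τ : Representation k Γ U} {T : Subgroup Γ} {V : Submodule k U} {ν : Γ → k}
    {g : Γ} (h1 : ∀ t, t ∈ T ↔ g⁻¹ * t * g ∈ T) (h2 : ∀ v ∈ V, τ g v ∈ V)
    (h3 : cjf g ν = ν) {v : U} (hv : v ∈ WC τ T V ν) : τ g v ∈ WC τ T V ν := by
  have h4 : WC τ T V ν ≤ (WC τ T V ν).comap (τ g) := by
    refine iSup₂_le ?_
    intro ν' hne w hw
    refine weic_le τ T V (Wt_cjf h1 h2 ν'.2) ?_ (WS_cjf h1 h2 hw)
    intro h5
    apply hne
    have h6 : cjf g⁻¹ (cjf g ν'.1) = cjf g⁻¹ (cjf g ν) := by rw [h5, h3]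
    rw [← cjf_mul, ← cjf_mul, inv_mul_cancel, cjf_one, cjf_one] at h6
    exact h6
  exact h4 hv

theorem wc_scal {τ : Representation k Γ U} {T : Subgroup Γ} {V : Submodule k U} {ν : Γ → k}
    {t : Γ} (ht : t ∈ T) {v : U} (hv : v ∈ WC τ T V ν) : τ t v ∈ WC τ T V ν := by
  have h4 : WC τ T V ν ≤ (WC τ T V ν).comap (τ t) := by
    refine iSup₂_le ?_
    intro ν' hne w hw
    show τ t w ∈ WC τ T V ν
    rw [hw.2 t ht]
    exact Submodule.smul_mem _ _ (weic_le τ T V ν'.2 hne hw)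
  exact h4 hv

theorem wt_ex [IsAlgClosed k] [Finite Γ] [Module.Finite k U] (τ : Representation k Γ U)
    (T : Subgroup Γ) (V : Submodule k U) (hinv : ∀ t ∈ T, ∀ v ∈ V, τ t v ∈ V)
    (hcomm : ∀ s ∈ T, ∀ t ∈ T, ∀ v ∈ V, τ s (τ t v) = τ t (τ s v))
    (hord : ∀ t ∈ T, ∃ q : ℕ, (q : k) ≠ 0 ∧ ∀ v ∈ V, τ (t ^ q) v = v) {v : U} (hv : v ∈ V)
    (hv0 : v ≠ 0) :
    ∃ ν ∈ Wt τ T V, ∃ a ∈ WS τ T V ν, ∃ a' ∈ WC τ T V ν, v = a + a' ∧ a ≠ 0 := by
  classical
  have h1 : v ∈ ⨆ ν : Wt τ T V, WS τ T V ν.1 := by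
    rw [wei_top1 τ T V hinv hcomm hord]
    exact hv
  rw [Submodule.mem_iSup_iff_exists_finsupp] at h1
  obtain ⟨f, hf, hsum⟩ := h1
  have h2 : ∃ ν ∈ f.support, f ν ≠ 0 := by
    by_contra hcon
    push Not at hcon
    apply hv0
    rw [← hsum]
    exact Finset.sum_eq_zero hcon
  obtain ⟨ν, hν, hν0⟩ := h2
  refine ⟨ν.1, ν.2, f ν, hf ν, ∑ μ ∈ f.support.erase ν, f μ, ?_, ?_, hν0⟩
  · refine Submodule.sum_mem _ ?_
    intro μ hμ
    refine weic_le τ T V μ.2 ?_ (hf μ)
    intro h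
    exact (Finset.ne_of_mem_erase hμ) (Subtype.ext h)
  · rw [Finset.add_sum_erase _ _ hν]
    exact hsum.symm

theorem wt_ne {τ : Representation k Γ U} {T : Subgroup Γ} {V : Submodule k U} {ν : Γ → k}
    (hν : ν ∈ Wt τ T V) {t : Γ} (ht : t ∈ T) : ν t ≠ 0 := by
  obtain ⟨v, hv, hv0⟩ := Submodule.exists_mem_ne_zero_of_ne_bot hν.2
  intro h
  apply hv0
  have h1 := hv.2 t ht
  rw [h, zero_smul] at h1
  have h2 : τ t⁻¹ (τ t v) = v := by
    rw [← Module.End.mul_apply, ← map_mul, inv_mul_cancel, map_one]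
    rfl
  rw [h1, map_zero] at h2
  exact h2.symm

theorem wt_mul {τ : Representation k Γ U} {T : Subgroup Γ} {V : Submodule k U} {ν : Γ → k}
    (hν : ν ∈ Wt τ T V) {s t : Γ} (hs : s ∈ T) (ht : t ∈ T) : ν (s * t) = ν s * ν t := by
  obtain ⟨v, hv, hv0⟩ := Submodule.exists_mem_ne_zero_of_ne_bot hν.2
  have h1 := hv.2 (s * t) (T.mul_mem hs ht)
  rw [map_mul, Module.End.mul_apply, hv.2 t ht, map_smul, hv.2 s hs, smul_smul] at h1
  have h2 : (ν t * ν s - ν (s * t)) • v = 0 := by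
    rw [sub_smul, h1, sub_self]
  rcases smul_eq_zero.1 h2 with h3 | h3
  · rw [mul_comm]
    exact (sub_eq_zero.1 h3).symm
  · exact absurd h3 hv0

theorem sW_of [Finite Γ] {τ : Representation k Γ U} {W : Submodule k U} {g : Γ}
    (h : ∀ v ∈ W, τ g v ∈ W) : g ∈ sW τ W := by
  have h1 : ∀ (n : ℕ) (v : U), v ∈ W → τ (g ^ n) v ∈ W := by
    intro n
    induction n with
    | zero =>
      intro v hv
      rw [pow_zero, map_one]
      exact hv
    | succ n ih =>
      intro v hv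
      rw [pow_succ', map_mul, Module.End.mul_apply]
      exact h _ (ih v hv)
  intro v
  refine ⟨fun hv => ?_, fun hv => h v hv⟩
  have h2 := h1 (orderOf g - 1) _ hv
  have h3 : g ^ (orderOf g - 1) * g = 1 := by
    rw [← pow_succ, Nat.sub_add_cancel (orderOf_pos g)]
    exact pow_orderOf_eq_one g
  rw [← Module.End.mul_apply, ← map_mul, h3, map_one] at h2
  exact h2

end H78CY
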