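import Pool.Agent.H78.CY.Def2
import Pool.Agent.H78.TP.WeiB
import Pool.Agent.H78.CY.WeiC

/-!
[H78 CY CLA1] `End(X)` as a direct sum of pieces which are permuted by `K` (60 min).

SETTING. `E` acts on `X`, commutators of `E` act as scalars, `E4 = {e ∈ E | σ ⁅e, f⁆ = 1 for all f ∈ E}` acts
by scalars, every `σ e` has finite order prime to the characteristic.
PROOF. Let `β e f` be the scalar of `⁅e, f⁆`, `e, f ∈ E`: multiplicative in both variables
(`⁅e e', f⁆ = e ⁅e', f⁆ e⁻¹ ⁅e, f⁆`), `β f e = (β e f)⁻¹`, and `e ∈ E4 ↔ β e f = 1` for all `f`. For `f ∈ E` let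
`Y f = {φ : X → X | ∀ e ∈ E, σ e ∘ φ = β e f • φ ∘ σ e}` (a submodule of `X →ₗ X`). `σ f ∈ Y f`, and
`φ ↦ σ f ∘ φ` is an isomorphism `Y 1 → Y f` (inverse `φ ↦ σ f⁻¹ ∘ φ`). So all `Y f` have the dimension
`D0` of `Y 1`, and `D0 > 0` as `1 ∈ Y 1`. `Y f = Y f'` iff `β e f = β e f'` for all `e`, iff
`f⁻¹ f' ∈ E4`; so there are exactly `|E : E4|` different `Y f`.
Consider the representation of `Γ` on `X →ₗ X` by conjugation, `Θ g φ = σ g ∘ φ ∘ σ g⁻¹`
(`Representation.linHom σ σ`). `E` acts on it commutatively (`σ ⁅e, f⁆` is a scalar), every `Θ e` has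
finite order prime to the characteristic, so `wei_top1` and `wei_ind` apply with `T = E`, `V = ⊤`: the
weight spaces are independent and their sum is everything. The `Y f` are the weight spaces for the
weights `β · f`; these are `|E : E4|` different homomorphisms `E / E4 → kˣ`. Every weight is a
homomorphism `E → kˣ` which is trivial on `E4` (`E4` acts on `X` by scalars, so trivially on
`X →ₗ X`), and there are at most `|E / E4|` such homomorphisms (`linearIndependent_monoidHom`: they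
are linearly independent in the space of functions on `E / E4`, which is commutative as
`⁅E, E⁆ ≤ E4`: commutators are scalars). So the `Y f` are all the weight spaces: independent with sum
`⊤`.
Let `ι` be the set of the submodules `Y f`; `K` acts on it by conjugation:
`Θ g (Y f) = Y (g f g⁻¹)` (`g` normalises `E`, and `β (g e g⁻¹) (g f g⁻¹) = β e f`). `Y f` is fixed by `g` iff
`f⁻¹ g f g⁻¹ ∈ E4` iff `⁅g, f⁆ ∈ E4` (`⁅g, f⁆ = f (f⁻¹ g f g⁻¹) f⁻¹`), iff `f ∈ C`; so the number of fixed `Y f`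
is `|C : E4|` and `|C : E4| |E : C| = |E : E4|`. Finally transport the action and the family to `Fin N`,
`N = |E : E4|`, by an equivalence `ι ≃ Fin N` (see `rgA_transfer` in `TP/RgA.lean`).
-/

namespace H78CY

open Subgroup H78TP
open scoped commutatorElement

variable {k Γ X : Type*} [Field k] [Group Γ] [AddCommGroup X] [Module k X]


theorem cla1 [IsAlgClosed k] [Finite Γ] [Module.Finite k X] [Nontrivial X]
    (σ : Representation k Γ X) (K E E4 : Subgroup Γ) (hE4 : E4 ≤ E) (nKE : Nm K E)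
    (nKE4 : Nm K E4) (sc : ∀ e ∈ E, ∀ f ∈ E, ∃ c : k, ∀ v, σ ⁅e, f⁆ v = c • v)
    (rad : ∀ e ∈ E, e ∈ E4 ↔ ∀ f ∈ E, σ ⁅e, f⁆ = 1)
    (sc4 : ∀ e ∈ E4, ∃ c : k, ∀ v, σ e v = c • v)
    (ord : ∀ e ∈ E, ∃ q : ℕ, (q : k) ≠ 0 ∧ σ (e ^ q) = 1) :
    ∃ (_ : MulAction K (Fin (E4.relIndex E))) (Bl : Fin (E4.relIndex E) →
      Submodule k (X →ₗ[k] X)) (D0 : ℕ), iSupIndep Bl ∧ (⨆ i, Bl i) = ⊤ ∧
      (∀ i, Module.finrank k (Bl i) = D0) ∧ 0 < D0 ∧
      (∀ (g : K) i φ, φ ∈ Bl i → (σ (g : Γ) ∘ₗ φ ∘ₗ σ (g : Γ)⁻¹) ∈ Bl (g • i)) ∧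
      ∀ (g : K) (C : Subgroup Γ), (∀ e, e ∈ C ↔ e ∈ E ∧ ⁅(g : Γ), e⁆ ∈ E4) →
        Nat.card {i : Fin (E4.relIndex E) // g • i = i} * C.relIndex E ≤ E4.relIndex E := by
  classical
  haveI : Fintype Γ := Fintype.ofFinite Γ
  obtain ⟨v0, hv0⟩ := exists_ne (0 : X)
  obtain ⟨Θ, hΘdef⟩ : ∃ Θ : Representation k Γ (X →ₗ[k] X), Θ = Representation.linHom σ σ :=
    ⟨_, rfl⟩
  have hΘ : ∀ g φ v, Θ g φ v = σ g (φ (σ g⁻¹ v)) := by
    intro g φ v
    rw [hΘdef]
    rfl
  have hΘc : ∀ g φ, Θ g φ = σ g ∘ₗ φ ∘ₗ σ g⁻¹ := by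
    intro g φ
    ext v
    rw [hΘ]
    rfl
  have hinv : ∀ g v, σ g⁻¹ (σ g v) = v := by
    intro g v
    rw [← Module.End.mul_apply, ← map_mul, inv_mul_cancel, map_one, Module.End.one_apply]
  have hinv' : ∀ g v, σ g (σ g⁻¹ v) = v := by
    intro g v
    rw [← Module.End.mul_apply, ← map_mul, mul_inv_cancel, map_one, Module.End.one_apply]
  have hm : ∀ g h v, σ (g * h) v = σ g (σ h v) := by
    intro g h v
    rw [map_mul, Module.End.mul_apply]
  have sc' : ∀ e f, ∃ c : k, e ∈ E → f ∈ E → ∀ v, σ ⁅e, f⁆ v = c • v := by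
    intro e f
    by_cases he : e ∈ E
    · by_cases hf : f ∈ E
      · obtain ⟨c, hc⟩ := sc e he f hf
        exact ⟨c, fun _ _ => hc⟩
      · exact ⟨0, fun _ h => absurd h hf⟩
    · exact ⟨0, fun h => absurd h he⟩
  choose β hβ using sc'
  have hβu : ∀ e f c, e ∈ E → f ∈ E → (∀ v, σ ⁅e, f⁆ v = c • v) → β e f = c := by
    intro e f c he hf h
    have h1 : (β e f - c) • v0 = 0 := by
      rw [sub_smul, ← hβ e f he hf, ← h v0, sub_self]
    rcases smul_eq_zero.1 h1 with h2 | h2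
    · exact sub_eq_zero.1 h2
    · exact absurd h2 hv0
  have hβmul : ∀ e f f', e ∈ E → f ∈ E → f' ∈ E → β e (f * f') = β e f * β e f' := by
    intro e f f' he hf hf'
    refine hβu _ _ _ he (E.mul_mem hf hf') fun v => ?_
    have e1 : ⁅e, f * f'⁆ = ⁅e, f⁆ * (f * ⁅e, f'⁆ * f⁻¹) := by
      simp only [commutatorElement_def]
      group
    rw [e1, hm, hm, hm, hβ e f' he hf', map_smul, hinv', map_smul, hβ e f he hf, smul_smul,
      mul_comm]
  have hβone : ∀ e, e ∈ E → β e 1 = 1 := by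
    intro e he
    refine hβu _ _ _ he E.one_mem fun v => ?_
    rw [commutatorElement_one_right, map_one, one_smul, Module.End.one_apply]
  have hβinv : ∀ e f, e ∈ E → f ∈ E → β e f⁻¹ * β e f = 1 := by
    intro e f he hf
    rw [← hβmul e _ _ he (E.inv_mem hf) hf, inv_mul_cancel, hβone e he]
  have hβiff : ∀ f, f ∈ E → (f ∈ E4 ↔ ∀ e ∈ E, β e f = 1) := by
    intro f hf
    rw [rad f hf]
    constructor
    · intro h e he
      refine hβu _ _ _ he hf fun v => ?_
      have h1 := h e he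
      have h2 : σ ⁅e, f⁆ * σ ⁅f, e⁆ = 1 := by
        rw [← map_mul, ← commutatorElement_inv, inv_mul_cancel, map_one]
      rw [h1, mul_one] at h2
      rw [h2, one_smul, Module.End.one_apply]
    · intro h e he
      have h1 : σ ⁅e, f⁆ = 1 := by
        ext v
        rw [hβ e f he hf, h e he, one_smul, Module.End.one_apply]
      have h2 : σ ⁅e, f⁆ * σ ⁅f, e⁆ = 1 := by
        rw [← map_mul, ← commutatorElement_inv, inv_mul_cancel, map_one]
      rwa [h1, one_mul] at h2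
  -- the weights
  obtain ⟨ν, hνdef⟩ : ∃ ν : Γ → Γ → k, ν = fun f e => if e ∈ E then β e f else 0 := ⟨_, rfl⟩
  have hν : ∀ f e, e ∈ E → ν f e = β e f := by
    intro f e he
    rw [hνdef]
    exact if_pos he
  have hν0 : ∀ f e, e ∉ E → ν f e = 0 := by
    intro f e he
    rw [hνdef]
    exact if_neg he
  have hFmem : ∀ f ∈ E, σ f ∈ WS Θ E ⊤ (ν f) := by
    intro f hf
    refine ⟨trivial, fun t ht => ?_⟩
    ext v
    rw [hΘ, LinearMap.smul_apply, hν f t ht]
    have e1 : t * f * t⁻¹ = ⁅t, f⁆ * f := by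
      simp only [commutatorElement_def]
      group
    rw [← hm, ← hm, e1, hm, hβ t f ht hf]
  have hσ0 : ∀ f, σ f ≠ 0 := by
    intro f h
    have h1 := hinv f v0
    rw [h, LinearMap.zero_apply, map_zero] at h1
    exact hv0 h1.symm
  have hFWt : ∀ f ∈ E, ν f ∈ Wt Θ E ⊤ := by
    intro f hf
    refine ⟨fun t ht => hν0 f t ht, fun h => ?_⟩
    have h1 := hFmem f hf
    rw [h, Submodule.mem_bot] at h1
    exact hσ0 f h1
  have hFeq : ∀ f ∈ E, ∀ f' ∈ E, (ν f = ν f' ↔ f⁻¹ * f' ∈ E4) := by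
    intro f hf f' hf'
    constructor
    · intro h
      rw [hβiff _ (E.mul_mem (E.inv_mem hf) hf')]
      intro e he
      have h1 : β e f = β e f' := by
        rw [← hν f e he, ← hν f' e he, h]
      rw [hβmul e _ _ he (E.inv_mem hf) hf', ← h1, hβinv e f he hf]
    · intro h
      have h1 := (hβiff _ (E.mul_mem (E.inv_mem hf) hf')).1 h
      funext e
      by_cases he : e ∈ E
      · rw [hν f e he, hν f' e he]
        have h2 : f' = f * (f⁻¹ * f') := by group
        rw [h2, hβmul e _ _ he hf (E.mul_mem (E.inv_mem hf) hf'), h1 e he, mul_one]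
      · rw [hν0 f e he, hν0 f' e he]
  -- the index set
  haveI hfin : Finite (Wt Θ E ⊤) := (wei_fin Θ E ⊤).to_subtype
  have hνE4 : ∀ μ ∈ Wt Θ E ⊤, ∀ x ∈ E4, μ x = 1 := by
    intro μ hμ x hx
    obtain ⟨φ, hφ, hφ0⟩ := Submodule.exists_mem_ne_zero_of_ne_bot hμ.2
    obtain ⟨c, hc⟩ := sc4 x hx
    have h1 : Θ x φ = φ := by
      ext v
      rw [hΘ, hc, ← map_smul, ← hc, hinv']
    have h2 := hφ.2 x (hE4 hx)
    rw [h1] at h2
    have h3 : (1 - μ x) • φ = 0 := by
      rw [sub_smul, one_smul, ← h2, sub_self]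
    rcases smul_eq_zero.1 h3 with h4 | h4
    · exact (sub_eq_zero.1 h4).symm
    · exact absurd h4 hφ0
  have hν1 : ∀ μ ∈ Wt Θ E ⊤, μ 1 = 1 := fun μ hμ => hνE4 μ hμ 1 E4.one_mem
  have hcard1 : Nat.card (Wt Θ E ⊤) ≤ Nat.card (E ⧸ E4.subgroupOf E) := by
    let χ : Wt Θ E ⊤ → (E →* k) := fun μ =>
      { toFun := fun e => μ.1 e
        map_one' := hν1 μ.1 μ.2
        map_mul' := fun a b => wt_mul μ.2 a.2 b.2 }
    have hχinj : Function.Injective χ := by
      intro μ μ' h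
      apply Subtype.ext
      funext t
      by_cases ht : t ∈ E
      · have h1 := DFunLike.congr_fun h (⟨t, ht⟩ : E)
        exact h1
      · rw [μ.2.1 t ht, μ'.2.1 t ht]
    have h1 : LinearIndependent k (fun μ : Wt Θ E ⊤ => (χ μ : E → k)) :=
      (linearIndependent_monoidHom E k).comp χ hχinj
    let L : ((E ⧸ E4.subgroupOf E) → k) →ₗ[k] (E → k) :=
      LinearMap.funLeft k k (QuotientGroup.mk (s := E4.subgroupOf E))
    let gg : Wt Θ E ⊤ → ((E ⧸ E4.subgroupOf E) → k) := fun μ q => μ.1 (Quotient.out q : E)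
    have h2 : LinearIndependent k gg := by
      apply LinearIndependent.of_comp L
      have h3 : (⇑L ∘ gg) = (fun μ : Wt Θ E ⊤ => (χ μ : E → k)) := by
        funext μ e
        change μ.1 (Quotient.out (QuotientGroup.mk (s := E4.subgroupOf E) e) : E) = μ.1 e
        obtain ⟨x, hx⟩ : ∃ x : E, x = e⁻¹ * Quotient.out (QuotientGroup.mk (s := E4.subgroupOf E) e) :=
          ⟨_, rfl⟩
        have hx4 : (x : Γ) ∈ E4 := by
          have h4 : (QuotientGroup.mk (s := E4.subgroupOf E) e) =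
            QuotientGroup.mk (Quotient.out (QuotientGroup.mk (s := E4.subgroupOf E) e)) :=
            (Quotient.out_eq _).symm
          rw [QuotientGroup.eq, ← hx, Subgroup.mem_subgroupOf] at h4
          exact h4
        have h5 : Quotient.out (QuotientGroup.mk (s := E4.subgroupOf E) e) = e * x := by
          rw [hx]
          group
        rw [h5, Subgroup.coe_mul, wt_mul μ.2 e.2 x.2, hνE4 μ.1 μ.2 _ hx4, mul_one]
      rw [h3]
      exact h1
    haveI : Fintype (Wt Θ E ⊤) := Fintype.ofFinite _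
    haveI : Fintype (E ⧸ E4.subgroupOf E) := Fintype.ofFinite _
    have h4 := h2.fintype_card_le_finrank
    rw [Module.finrank_pi] at h4
    rw [Nat.card_eq_fintype_card, Nat.card_eq_fintype_card]
    exact h4
  let Fq : (E ⧸ E4.subgroupOf E) → Wt Θ E ⊤ := fun q => ⟨ν (Quotient.out q : E), hFWt _ (Quotient.out q).2⟩
  have hFq : Function.Injective Fq := by
    intro q q' h
    have h1 : ν (Quotient.out q : E) = ν (Quotient.out q' : E) := congrArg Subtype.val h
    rw [hFeq _ (Quotient.out q).2 _ (Quotient.out q').2] at h1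
    have h2 : QuotientGroup.mk (s := E4.subgroupOf E) (Quotient.out q) =
        QuotientGroup.mk (Quotient.out q') := by
      rw [QuotientGroup.eq, Subgroup.mem_subgroupOf]
      exact h1
    have h3 : QuotientGroup.mk (s := E4.subgroupOf E) (Quotient.out q) = q := Quotient.out_eq _
    have h4 : QuotientGroup.mk (s := E4.subgroupOf E) (Quotient.out q') = q' := Quotient.out_eq _
    rw [h3, h4] at h2
    exact h2
  have hcard2 : Nat.card (E ⧸ E4.subgroupOf E) ≤ Nat.card (Wt Θ E ⊤) :=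
    Nat.card_le_card_of_injective Fq hFq
  have hcard : Nat.card (Wt Θ E ⊤) = E4.relIndex E := le_antisymm hcard1 hcard2
  have hFsurj : Function.Surjective Fq :=
    ((Nat.bijective_iff_injective_and_card Fq).2 ⟨hFq, le_antisymm hcard2 hcard1⟩).2
  have hsurj : ∀ μ : Wt Θ E ⊤, ∃ f ∈ E, ν f = μ.1 := by
    intro μ
    obtain ⟨q, hq⟩ := hFsurj μ
    exact ⟨(Quotient.out q : E), (Quotient.out q).2, congrArg Subtype.val hq⟩
  -- dimensions
  have hmap : ∀ f f', f ∈ E → f' ∈ E → Module.finrank k (WS Θ E ⊤ (ν f')) ≤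
      Module.finrank k (WS Θ E ⊤ (ν (f * f'))) := by
    intro f f' hf hf'
    have h1 : ∀ φ ∈ WS Θ E ⊤ (ν f'), LinearMap.mulLeft k (σ f) φ ∈ WS Θ E ⊤ (ν (f * f')) := by
      intro φ hφ
      refine ⟨trivial, fun t ht => ?_⟩
      ext v
      have h2 := congrArg (fun ψ : X →ₗ[k] X => ψ v) (hφ.2 t ht)
      beta_reduce at h2
      rw [hΘ, LinearMap.smul_apply, hν f' t ht] at h2
      rw [hΘ, LinearMap.smul_apply, hν _ t ht, LinearMap.mulLeft_apply, Module.End.mul_apply,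
        Module.End.mul_apply, hβmul t f f' ht hf hf']
      have h3 : σ t (σ f (φ (σ t⁻¹ v))) = σ ⁅t, f⁆ (σ f (σ t (φ (σ t⁻¹ v)))) := by
        rw [← hm, ← hm, ← hm]
        congr 2
        simp only [commutatorElement_def]
        group
      rw [h3, h2, hβ t f ht hf, map_smul, smul_smul]
    refine LinearMap.finrank_le_finrank_of_injective
      (f := (LinearMap.mulLeft k (σ f)).restrict h1) ?_
    intro φ ψ h
    apply Subtype.ext
    have h2 : σ f * φ.1 = σ f * ψ.1 := congrArg Subtype.val h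
    ext v
    have h3 := congrArg (fun χ : X →ₗ[k] X => σ f⁻¹ (χ v)) h2
    beta_reduce at h3
    rw [Module.End.mul_apply, Module.End.mul_apply, hinv, hinv] at h3
    exact h3
  have hdim : ∀ f ∈ E, Module.finrank k (WS Θ E ⊤ (ν f)) = Module.finrank k (WS Θ E ⊤ (ν 1)) := by
    intro f hf
    apply le_antisymm
    · have h1 := hmap f⁻¹ f (E.inv_mem hf) hf
      rwa [inv_mul_cancel] at h1
    · have h1 := hmap f 1 hf E.one_mem
      rwa [mul_one] at h1
  have hpos : 0 < Module.finrank k (WS Θ E ⊤ (ν 1)) := by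
    rw [Nat.pos_iff_ne_zero]
    intro h
    rw [Submodule.finrank_eq_zero] at h
    exact (hFWt 1 E.one_mem).2 h
  -- the action
  have hnorm : ∀ g ∈ K, ∀ t, t ∈ E ↔ g⁻¹ * t * g ∈ E := by
    intro g hg t
    constructor
    · intro ht
      have h1 := nKE g⁻¹ (K.inv_mem hg) t ht
      rwa [inv_inv] at h1
    · intro ht
      have h1 := nKE g hg _ ht
      have e1 : g * (g⁻¹ * t * g) * g⁻¹ = t := by group
      rwa [e1] at h1
  letI act : MulAction K (Wt Θ E ⊤) :=
    { smul := fun g μ => ⟨cjf (g : Γ) μ.1, Wt_cjf (τ := Θ) (V := ⊤) (hnorm g g.2) (fun _ _ => trivial) μ.2⟩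
      one_smul := fun μ => Subtype.ext (cjf_one μ.1)
      mul_smul := fun g h μ => Subtype.ext (cjf_mul (g : Γ) (h : Γ) μ.1) }
  have hact : ∀ (g : K) (μ : Wt Θ E ⊤), (g • μ).1 = cjf (g : Γ) μ.1 := fun g μ => rfl
  have hcj : ∀ (g : K), ∀ f ∈ E, cjf (g : Γ) (ν f) = ν ((g : Γ) * f * (g : Γ)⁻¹) := by
    intro g f hf
    funext t
    have hgf := nKE g g.2 f hf
    by_cases ht : t ∈ E
    · have ht' := (hnorm g g.2 t).1 ht
      unfold cjf
      rw [hν _ _ ht', hν _ _ ht]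
      symm
      refine hβu _ _ _ ht hgf fun v => ?_
      have e1 : ⁅t, (g : Γ) * f * (g : Γ)⁻¹⁆ = (g : Γ) * ⁅(g : Γ)⁻¹ * t * g, f⁆ * (g : Γ)⁻¹ := by
        simp only [commutatorElement_def]
        group
      rw [e1, hm, hm, hβ _ _ ht' hf, map_smul, hinv']
    · have ht' : (g : Γ)⁻¹ * t * g ∉ E := fun h => ht ((hnorm g g.2 t).2 h)
      unfold cjf
      rw [hν0 _ _ ht', hν0 _ _ ht]
  -- transport
  let e : Fin (E4.relIndex E) ≃ Wt Θ E ⊤ := (Finite.equivFinOfCardEq hcard).symm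
  letI act' : MulAction K (Fin (E4.relIndex E)) := e.mulAction K
  have hs : ∀ (g : K) (i : Fin (E4.relIndex E)), e (g • i) = g • e i := fun g i =>
    e.apply_symm_apply _
  refine ⟨act', fun i => WS Θ E ⊤ (e i).1, Module.finrank k (WS Θ E ⊤ (ν 1)),
    (wei_ind Θ E ⊤).comp e.injective, ?_, ?_, hpos, ?_, ?_⟩
  · have h1 : (⨆ i, WS Θ E ⊤ (e i).1) = ⨆ μ : Wt Θ E ⊤, WS Θ E ⊤ μ.1 :=
      e.iSup_comp (g := fun μ : Wt Θ E ⊤ => WS Θ E ⊤ μ.1)
    rw [h1]
    refine wei_top1 Θ E ⊤ (fun _ _ _ _ => trivial) ?_ ?_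
    · intro s hs' t ht φ _
      ext v
      rw [hΘ, hΘ, hΘ, hΘ]
      have h2 : ∀ w, σ s (σ t w) = β s t • σ t (σ s w) := by
        intro w
        rw [← hβ s t hs' ht, ← hm, ← hm, ← hm]
        congr 2
        simp only [commutatorElement_def]
        group
      have h3 : β s t ≠ 0 := by
        intro h4
        have h5 := hβ s t hs' ht v0
        rw [h4, zero_smul] at h5
        have h6 := hinv ⁅s, t⁆ v0
        rw [h5, map_zero] at h6
        exact hv0 h6.symm
      have h4 : ∀ w, σ t⁻¹ (σ s⁻¹ w) = (β s t)⁻¹ • σ s⁻¹ (σ t⁻¹ w) := by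
        intro w
        have h5 := h2 (σ t⁻¹ (σ s⁻¹ w))
        rw [hinv', hinv'] at h5
        have h6 := congrArg (fun x => σ s⁻¹ (σ t⁻¹ x)) h5
        beta_reduce at h6
        rw [map_smul, map_smul, hinv, hinv] at h6
        rw [h6, smul_smul, inv_mul_cancel₀ h3, one_smul]
      rw [h2, h4, map_smul, map_smul, map_smul, smul_smul, mul_inv_cancel₀ h3, one_smul]
    · intro t ht
      obtain ⟨q, hq, hq'⟩ := ord t ht
      refine ⟨q, hq, fun φ _ => ?_⟩
      ext v
      have h1 : σ (t ^ q)⁻¹ v = v := by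
        have h2 := hinv (t ^ q) v
        rwa [hq', Module.End.one_apply] at h2
      rw [hΘ, h1, hq', Module.End.one_apply]
  · intro i
    obtain ⟨f, hf, hfi⟩ := hsurj (e i)
    change Module.finrank k (WS Θ E ⊤ (e i).1) = _
    rw [← hfi]
    exact hdim f hf
  · intro g i φ hφ
    rw [← hΘc]
    change Θ g φ ∈ WS Θ E ⊤ (e (g • i)).1
    rw [hs, hact]
    exact WS_cjf (τ := Θ) (V := ⊤) (hnorm g g.2) (fun _ _ => trivial) hφ
  · intro g C hC
    have hCE : C ≤ E := fun x hx => ((hC x).1 hx).1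
    have hE4C : E4 ≤ C := by
      intro x hx
      refine (hC x).2 ⟨hE4 hx, ?_⟩
      rw [commutatorElement_def]
      exact E4.mul_mem (nKE4 g g.2 x hx) (E4.inv_mem hx)
    have hE4n : ∀ f ∈ E, ∀ x ∈ E4, f * x * f⁻¹ ∈ E4 := by
      intro f hf x hx
      rw [hβiff _ (E.mul_mem (E.mul_mem hf (hE4 hx)) (E.inv_mem hf))]
      intro e' he'
      rw [hβmul e' _ _ he' (E.mul_mem hf (hE4 hx)) (E.inv_mem hf), hβmul e' _ _ he' hf (hE4 hx),
        (hβiff x (hE4 hx)).1 hx e' he', mul_one, mul_comm]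
      exact hβinv e' f he' hf
    refine le_trans (Nat.mul_le_mul_right _ ?_) (Subgroup.relIndex_mul_relIndex E4 C E hE4C hCE).le
    -- a representative in `C`
    have hrep : ∀ i : {i : Fin (E4.relIndex E) // g • i = i}, ∃ c : C, ν c = (e i.1).1 := by
      rintro ⟨i, hi⟩
      obtain ⟨f, hf, hfi⟩ := hsurj (e i)
      have h1 : cjf (g : Γ) (ν f) = ν f := by
        rw [hfi, ← hact, ← hs, hi]
      rw [hcj g f hf] at h1
      have h2 := (hFeq _ (nKE g g.2 f hf) _ hf).1 h1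
      have h3 : f ∈ C := by
        refine (hC f).2 ⟨hf, ?_⟩
        have h4 := hE4n _ (nKE g g.2 f hf) _ (E4.inv_mem h2)
        have e1 : (g : Γ) * f * (g : Γ)⁻¹ * (((g : Γ) * f * (g : Γ)⁻¹)⁻¹ * f)⁻¹ *
            ((g : Γ) * f * (g : Γ)⁻¹)⁻¹ = ⁅(g : Γ), f⁆ := by
          simp only [commutatorElement_def]
          group
        rwa [e1] at h4
      exact ⟨⟨f, h3⟩, hfi⟩
    choose c hc using hrep
    change Nat.card {i : Fin (E4.relIndex E) // g • i = i} ≤ Nat.card (C ⧸ E4.subgroupOf C)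
    refine Nat.card_le_card_of_injective
      (fun i => (QuotientGroup.mk (c i) : C ⧸ E4.subgroupOf C)) ?_
    intro i i' h
    have h1 : (QuotientGroup.mk (c i) : C ⧸ E4.subgroupOf C) = QuotientGroup.mk (c i') := h
    rw [QuotientGroup.eq, Subgroup.mem_subgroupOf] at h1
    have h2 := (hFeq _ (hCE (c i).2) _ (hCE (c i').2)).2 h1
    rw [hc i, hc i'] at h2
    exact Subtype.ext (e.injective (Subtype.ext h2))

end H78CY
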