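import Pool.Agent.H78.CY.Def2

/-!
[H78 CY CLB1] Multiplicities of a representation of a finite group of order prime to the characteristic
(60 min).

PROOF. `R = MonoidAlgebra k A` is semisimple (Maschke: `Mathlib.RepresentationTheory.Maschke`, needs
`NeZero (Nat.card A : k)`), so `IsSemisimpleRing.exists_algEquiv_pi_matrix_of_isAlgClosed` gives
`Φ : R ≃ₐ[k] Π i : Fin s, Matrix (Fin (d i)) (Fin (d i)) k`, all `d i ≠ 0`. Comparing dimensions:
`∑ d i ^ 2 = |A|`. Let `ρ : R →ₐ (X →ₗ X)` be the extension of `σ` (`Representation.asAlgebraHom`), and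
`E_i(a, b) = Φ⁻¹ (Pi.single i (Matrix.single a b 1))`. Put `X_i = range (ρ E_i(0, 0))`,
`ms i = finrank X_i`.
(1) `X` is the direct sum of the ranges of the orthogonal idempotents `ρ E_i(a, a)` (their sum is `1`),
and `ρ E_i(a, 0)` is an isomorphism `X_i → range (ρ E_i(a, a))` with inverse `ρ E_i(0, a)`. So
`finrank X = ∑ i, d i * ms i`.
(2) For `φ_i ∈ End(X_i)`, `i : Fin s`, put `Ψ(φ) = ∑ i, ∑ a, ρ E_i(a, 0) ∘ φ_i ∘ ρ E_i(0, a)`. It commutes with
all `ρ E_i(a, b)`, hence with `σ`, and `φ_i` is recovered as `ρ E_i(0, 0) ∘ Ψ(φ)` on `X_i`. So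
`∑ ms i ^ 2 ≤ finrank (cmt σ ⊤)`.
(3) Let `e = |A|⁻¹ ∑ g, g ∈ R`, a central idempotent with `e x = ε(x) e` (`ε` the augmentation), so
`e R = k e` is one-dimensional and `e ≠ 0`. `Φ e` is a central idempotent of the product, so each
component is a central idempotent of a matrix ring, `0` or `1`; `e R` has dimension `1`, so exactly one
component, `i0`, is `1` and `d i0 = 1`. So `ρ e = ρ E_{i0}(0, 0)`, its range is `Fx σ ⊤`
(`Representation.averageMap` or directly), `ms i0 = finrank (Fx σ ⊤)`.
(If you prefer modules: `X` is a semisimple module over `R`; any other proof of the five conclusions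
is welcome.)
-/

namespace H78CY

open Subgroup H78TP
open scoped commutatorElement

variable {k A X : Type*} [Field k] [Group A] [AddCommGroup X] [Module k X]

/-- matrix units in the endomorphisms of a space -/
private structure MU {s : ℕ} {d : Fin s → ℕ} (hd : ∀ i, 0 < d i)
    (e : ∀ i, Fin (d i) → Fin (d i) → (X →ₗ[k] X)) : Prop where
  mul : ∀ i a b c, e i a b * e i b c = e i a c
  ort : ∀ i a b b' c, b ≠ b' → e i a b * e i b' c = 0
  ort2 : ∀ i j a b b' c, i ≠ j → e i a b * e j b' c = 0
  one : ∑ i, ∑ a, e i a a = 1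

private theorem mu_fr1 {s : ℕ} {d : Fin s → ℕ} (hd : ∀ i, 0 < d i)
    {e : ∀ i, Fin (d i) → Fin (d i) → (X →ₗ[k] X)} (h : MU hd e) [Module.Finite k X] :
    Module.finrank k X = ∑ i, d i * Module.finrank k (LinearMap.range (e i ⟨0, hd i⟩ ⟨0, hd i⟩)) := by
  classical
  have hm : ∀ i a b c (x : X), e i a b (e i b c x) = e i a c x := by
    intro i a b c x
    rw [← Module.End.mul_apply, h.mul]
  let f : X →ₗ[k] (∀ i, Fin (d i) → LinearMap.range (e i ⟨0, hd i⟩ ⟨0, hd i⟩)) :=
    LinearMap.pi fun i => LinearMap.pi fun a =>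
      (e i ⟨0, hd i⟩ a).codRestrict _ (fun x => ⟨e i ⟨0, hd i⟩ a x, hm i _ _ _ x⟩)
  have hf : ∀ x i a, ((f x i a : LinearMap.range (e i ⟨0, hd i⟩ ⟨0, hd i⟩)) : X) = e i ⟨0, hd i⟩ a x := by
    intro x i a
    rfl
  have hone : ∀ x : X, ∑ i, ∑ a, e i a a x = x := by
    intro x
    have h1 := congrArg (fun g : X →ₗ[k] X => g x) h.one
    simp only [LinearMap.sum_apply, Module.End.one_apply] at h1
    exact h1
  have inj : Function.Injective f := by
    intro x y hxy
    have h2 : ∀ i a, e i ⟨0, hd i⟩ a x = e i ⟨0, hd i⟩ a y := by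
      intro i a
      rw [← hf, ← hf, hxy]
    rw [← hone x, ← hone y]
    refine Finset.sum_congr rfl fun i _ => Finset.sum_congr rfl fun a _ => ?_
    rw [← hm i a ⟨0, hd i⟩ a x, ← hm i a ⟨0, hd i⟩ a y, h2]
  have surj : Function.Surjective f := by
    intro y
    refine ⟨∑ i, ∑ a, e i a ⟨0, hd i⟩ (y i a).1, ?_⟩
    ext j b
    rw [hf, map_sum, Finset.sum_eq_single j]
    · rw [map_sum, Finset.sum_eq_single b]
      · rw [hm]
        obtain ⟨z, hz⟩ := (y j b).2
        rw [← hz, hm]
      · intro a _ hab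
        rw [← Module.End.mul_apply, h.ort j _ b a _ (Ne.symm hab), LinearMap.zero_apply]
      · intro hb
        exact absurd (Finset.mem_univ _) hb
    · intro i _ hij
      rw [map_sum]
      refine Finset.sum_eq_zero fun a _ => ?_
      rw [← Module.End.mul_apply, h.ort2 j i _ b a _ (Ne.symm hij), LinearMap.zero_apply]
    · intro hj
      exact absurd (Finset.mem_univ _) hj
  rw [(LinearEquiv.ofBijective f ⟨inj, surj⟩).finrank_eq, Module.finrank_pi_fintype]
  refine Finset.sum_congr rfl fun i _ => ?_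
  rw [Module.finrank_pi_fintype, Finset.sum_const, Finset.card_univ, Fintype.card_fin, smul_eq_mul]

private theorem mu_fr2 {s : ℕ} {d : Fin s → ℕ} (hd : ∀ i, 0 < d i)
    {e : ∀ i, Fin (d i) → Fin (d i) → (X →ₗ[k] X)} (h : MU hd e) [Module.Finite k X]
    (C : Submodule k (X →ₗ[k] X)) (hC : ∀ φ : X →ₗ[k] X, (∀ i a b, e i a b * φ = φ * e i a b) → φ ∈ C) :
    ∑ i, Module.finrank k (LinearMap.range (e i ⟨0, hd i⟩ ⟨0, hd i⟩)) ^ 2 ≤ Module.finrank k C := by
  classical
  have hm : ∀ i a b c (x : X), e i a b (e i b c x) = e i a c x := by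
    intro i a b c x
    rw [← Module.End.mul_apply, h.mul]
  let Xi : Fin s → Submodule k X := fun i => LinearMap.range (e i ⟨0, hd i⟩ ⟨0, hd i⟩)
  let q : ∀ i, Fin (d i) → (X →ₗ[k] Xi i) := fun i a =>
    (e i ⟨0, hd i⟩ a).codRestrict _ (fun x => ⟨e i ⟨0, hd i⟩ a x, hm i _ _ _ x⟩)
  have hq : ∀ i a x, ((q i a x : Xi i) : X) = e i ⟨0, hd i⟩ a x := by
    intro i a x
    rfl
  let P : (∀ i, (Xi i →ₗ[k] Xi i)) →ₗ[k] (X →ₗ[k] X) :=
    { toFun := fun φ => ∑ i, ∑ a, (e i a ⟨0, hd i⟩) ∘ₗ (Xi i).subtype ∘ₗ (φ i) ∘ₗ (q i a)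
      map_add' := by
        intro φ ψ
        rw [← Finset.sum_add_distrib]
        refine Finset.sum_congr rfl fun i _ => ?_
        rw [← Finset.sum_add_distrib]
        refine Finset.sum_congr rfl fun a _ => ?_
        ext x
        simp
      map_smul' := by
        intro c φ
        rw [RingHom.id_apply, Finset.smul_sum]
        refine Finset.sum_congr rfl fun i _ => ?_
        rw [Finset.smul_sum]
        refine Finset.sum_congr rfl fun a _ => ?_
        ext x
        simp }
  have hP : ∀ φ x, P φ x = ∑ i, ∑ a, e i a ⟨0, hd i⟩ ((φ i (q i a x) : Xi i) : X) := by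
    intro φ x
    change (∑ i, ∑ a, (e i a ⟨0, hd i⟩) ∘ₗ (Xi i).subtype ∘ₗ (φ i) ∘ₗ (q i a)) x = _
    rw [LinearMap.sum_apply]
    refine Finset.sum_congr rfl fun i _ => ?_
    rw [LinearMap.sum_apply]
    rfl
  have left : ∀ φ j b c x, e j b c (P φ x) = e j b ⟨0, hd j⟩ ((φ j (q j c x) : Xi j) : X) := by
    intro φ j b c x
    rw [hP, map_sum, Finset.sum_eq_single j]
    · rw [map_sum, Finset.sum_eq_single c]
      · rw [hm]
      · intro a _ hac
        rw [← Module.End.mul_apply, h.ort j _ c a _ (Ne.symm hac), LinearMap.zero_apply]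
      · intro hb
        exact absurd (Finset.mem_univ _) hb
    · intro i _ hij
      rw [map_sum]
      refine Finset.sum_eq_zero fun a _ => ?_
      rw [← Module.End.mul_apply, h.ort2 j i _ c a _ (Ne.symm hij), LinearMap.zero_apply]
    · intro hj
      exact absurd (Finset.mem_univ _) hj
  have right : ∀ φ j b c x, P φ (e j b c x) = e j b ⟨0, hd j⟩ ((φ j (q j c x) : Xi j) : X) := by
    intro φ j b c x
    rw [hP, Finset.sum_eq_single j]
    · rw [Finset.sum_eq_single b]
      · have h1 : q j b (e j b c x) = q j c x := by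
          apply Subtype.ext
          rw [hq, hq, hm]
        rw [h1]
      · intro a _ hab
        have h1 : q j a (e j b c x) = 0 := by
          apply Subtype.ext
          rw [hq, ← Module.End.mul_apply, h.ort j _ a b _ hab, LinearMap.zero_apply]
          rfl
        rw [h1, map_zero, Submodule.coe_zero, map_zero]
      · intro hb
        exact absurd (Finset.mem_univ _) hb
    · intro i _ hij
      refine Finset.sum_eq_zero fun a _ => ?_
      have h1 : q i a (e j b c x) = 0 := by
        apply Subtype.ext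
        rw [hq, ← Module.End.mul_apply, h.ort2 i j _ a b _ hij, LinearMap.zero_apply]
        rfl
      rw [h1, map_zero, Submodule.coe_zero, map_zero]
    · intro hj
      exact absurd (Finset.mem_univ _) hj
  have inj : Function.Injective P := by
    rw [injective_iff_map_eq_zero]
    intro φ hφ
    funext j
    ext x
    obtain ⟨z, hz⟩ := x.2
    have h1 := left φ j ⟨0, hd j⟩ ⟨0, hd j⟩ (x : X)
    rw [hφ, LinearMap.zero_apply, map_zero] at h1
    have h2 : q j ⟨0, hd j⟩ (x : X) = x := by
      apply Subtype.ext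
      rw [hq, ← hz, hm]
    rw [h2] at h1
    obtain ⟨w, hw⟩ := (φ j x).2
    rw [← hw, hm] at h1
    rw [← hw, ← h1]
    rfl
  let P' : (∀ i, (Xi i →ₗ[k] Xi i)) →ₗ[k] C := P.codRestrict C (fun φ => by
    apply hC
    intro j b c
    ext x
    rw [Module.End.mul_apply, Module.End.mul_apply, left, right])
  have inj' : Function.Injective P' := by
    intro φ ψ hφψ
    apply inj
    exact congrArg Subtype.val hφψ
  have h3 := LinearMap.finrank_le_finrank_of_injective inj'
  rw [Module.finrank_pi_fintype] at h3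
  refine le_trans (le_of_eq ?_) h3
  refine Finset.sum_congr rfl fun i _ => ?_
  rw [Module.finrank_linearMap, sq]

private theorem aug_i0 {s : ℕ} {d : Fin s → ℕ}
    (ε : (∀ i, Matrix (Fin (d i)) (Fin (d i)) k) →ₐ[k] k) :
    ∃ i0, d i0 = 1 ∧ ε (Pi.single i0 1) = 1 := by
  classical
  have h1 : (1 : ∀ i, Matrix (Fin (d i)) (Fin (d i)) k) = ∑ i, Pi.single i 1 := by
    exact (Finset.univ_sum_single (1 : ∀ i, Matrix (Fin (d i)) (Fin (d i)) k)).symm
  have h2 : ∀ i, (Pi.single i 1 : ∀ i, Matrix (Fin (d i)) (Fin (d i)) k) =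
      ∑ a, Pi.single i (Matrix.single a a 1) := by
    intro i
    have h3 : (1 : Matrix (Fin (d i)) (Fin (d i)) k) = ∑ a, Matrix.single a a 1 := by
      rw [Matrix.sum_single_one]
    rw [h3]
    exact map_sum (AddMonoidHom.single (fun i => Matrix (Fin (d i)) (Fin (d i)) k) i) _ _
  have h4 : ∃ i0, ∃ a0, ε (Pi.single i0 (Matrix.single a0 a0 1)) ≠ 0 := by
    by_contra hcon
    push Not at hcon
    have h5 : ε 1 = 0 := by
      rw [h1, map_sum]
      refine Finset.sum_eq_zero fun i _ => ?_
      rw [h2, map_sum]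
      exact Finset.sum_eq_zero fun a _ => hcon i a
    rw [map_one] at h5
    exact one_ne_zero h5
  obtain ⟨i0, a0, h5⟩ := h4
  have hmul : ∀ a b c : Fin (d i0), (Pi.single i0 (Matrix.single a b 1) *
      Pi.single i0 (Matrix.single b c 1) : ∀ i, Matrix (Fin (d i)) (Fin (d i)) k) =
      Pi.single i0 (Matrix.single a c 1) := by
    intro a b c
    rw [← Pi.single_mul, Matrix.single_mul_single_same, one_mul]
  have hort : ∀ a b b' c : Fin (d i0), b ≠ b' → (Pi.single i0 (Matrix.single a b 1) *
      Pi.single i0 (Matrix.single b' c 1) : ∀ i, Matrix (Fin (d i)) (Fin (d i)) k) = 0 := by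
    intro a b b' c hb
    rw [← Pi.single_mul, Matrix.single_mul_single_of_ne _ _ _ _ hb, Pi.single_zero]
  have hsub : ∀ b, b = a0 := by
    intro b
    by_contra hb
    have h6 : ε (Pi.single i0 (Matrix.single a0 a0 1)) = ε (Pi.single i0 (Matrix.single b b 1)) := by
      rw [← hmul a0 b a0, map_mul, mul_comm, ← map_mul, hmul]
    have h7 : ε (Pi.single i0 (Matrix.single a0 a0 1)) * ε (Pi.single i0 (Matrix.single b b 1)) = 0 := by
      rw [← map_mul, hort a0 a0 b b (Ne.symm hb), map_zero]
    rw [← h6] at h7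
    exact h5 (mul_self_eq_zero.1 h7)
  have hd1 : d i0 = 1 := by
    have h8 : Fintype.card (Fin (d i0)) = 1 := Fintype.card_eq_one_iff.2 ⟨a0, hsub⟩
    rwa [Fintype.card_fin] at h8
  refine ⟨i0, hd1, ?_⟩
  have h9 : (Pi.single i0 1 : ∀ i, Matrix (Fin (d i)) (Fin (d i)) k) =
      Pi.single i0 (Matrix.single a0 a0 1) := by
    rw [h2]
    rw [Finset.sum_eq_single a0]
    · intro b _ hb
      exact absurd (hsub b) hb
    · intro hb
      exact absurd (Finset.mem_univ _) hb
  have h10 : ε (Pi.single i0 1) * ε (Pi.single i0 1) = ε (Pi.single i0 1) := by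
    rw [← map_mul, ← Pi.single_mul, one_mul]
  have h11 : ε (Pi.single i0 1) ≠ 0 := by
    rw [h9]
    exact h5
  exact mul_left_cancel₀ h11 (by rw [h10, mul_one])

theorem clb1 [IsAlgClosed k] [Finite A] [Module.Finite k X] (σ : Representation k A X)
    (hA : (Nat.card A : k) ≠ 0) :
    ∃ (s : ℕ) (d ms : Fin s → ℕ) (i0 : Fin s), ∑ i, d i ^ 2 = Nat.card A ∧ d i0 = 1 ∧
      ms i0 = Module.finrank k (Fx σ ⊤) ∧ Module.finrank k X = ∑ i, d i * ms i ∧
      ∑ i, ms i ^ 2 ≤ Module.finrank k (cmt σ ⊤) := by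
  classical
  have := Fintype.ofFinite A
  have : NeZero (Nat.card A : k) := ⟨hA⟩
  have fR : Module.Finite k (MonoidAlgebra k A) :=
    Module.Finite.equiv (MonoidAlgebra.coeffLinearEquiv k (S := k) (M := A)).symm
  obtain ⟨s, d, hd0, ⟨Φ⟩⟩ :=
    IsSemisimpleRing.exists_algEquiv_pi_matrix_of_isAlgClosed k (MonoidAlgebra k A)
  have hd : ∀ i, 0 < d i := fun i => Nat.pos_of_ne_zero (hd0 i).out
  have h1 : ∑ i, d i ^ 2 = Nat.card A := by
    have h2 := Φ.toLinearEquiv.finrank_eq
    rw [(MonoidAlgebra.coeffLinearEquiv k (S := k) (M := A)).finrank_eq, Module.finrank_finsupp_self,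
      Module.finrank_pi_fintype] at h2
    rw [Nat.card_eq_fintype_card, h2]
    refine Finset.sum_congr rfl fun i _ => ?_
    rw [Module.finrank_matrix, Fintype.card_fin, Module.finrank_self, mul_one, sq]
  let ε : (∀ i, Matrix (Fin (d i)) (Fin (d i)) k) →ₐ[k] k :=
    (MonoidAlgebra.lift k k A 1).comp Φ.symm.toAlgHom
  obtain ⟨i0, hi0, hε⟩ := aug_i0 ε
  let ρ : (∀ i, Matrix (Fin (d i)) (Fin (d i)) k) →ₐ[k] (X →ₗ[k] X) :=
    σ.asAlgebraHom.comp Φ.symm.toAlgHom
  let e : ∀ i, Fin (d i) → Fin (d i) → (X →ₗ[k] X) := fun i a b => ρ (Pi.single i (Matrix.single a b 1))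
  have hmu : MU hd e := by
    constructor
    · intro i a b c
      change ρ _ * ρ _ = ρ _
      rw [← map_mul, ← Pi.single_mul, Matrix.single_mul_single_same, one_mul]
    · intro i a b b' c hb
      change ρ _ * ρ _ = 0
      rw [← map_mul, ← Pi.single_mul, Matrix.single_mul_single_of_ne _ _ _ _ hb, Pi.single_zero, map_zero]
    · intro i j a b b' c hij
      change ρ _ * ρ _ = 0
      rw [← map_mul]
      have h3 : (Pi.single i (Matrix.single a b 1) * Pi.single j (Matrix.single b' c 1) :
          ∀ i, Matrix (Fin (d i)) (Fin (d i)) k) = 0 := by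
        funext l
        rw [Pi.mul_apply, Pi.zero_apply]
        by_cases hl : l = i
        · subst hl
          rw [Pi.single_eq_of_ne hij, mul_zero]
        · rw [Pi.single_eq_of_ne hl, zero_mul]
      rw [h3, map_zero]
    · change ∑ i, ∑ a, ρ _ = 1
      rw [← map_one ρ, ← Finset.univ_sum_single (1 : ∀ i, Matrix (Fin (d i)) (Fin (d i)) k), map_sum]
      refine Finset.sum_congr rfl fun i _ => ?_
      rw [← map_sum]
      congr 1
      rw [Pi.one_apply, ← Matrix.sum_single_one]
      exact (map_sum (AddMonoidHom.single (fun i => Matrix (Fin (d i)) (Fin (d i)) k) i) _ _).symm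
  refine ⟨s, d, fun i => Module.finrank k (LinearMap.range (e i ⟨0, hd i⟩ ⟨0, hd i⟩)), i0, h1, hi0, ?_,
    mu_fr1 hd hmu, ?_⟩
  · have h4 : LinearMap.range (e i0 ⟨0, hd i0⟩ ⟨0, hd i0⟩) = Fx σ ⊤ := by
      have hsub : Subsingleton (Fin (d i0)) := by
        rw [hi0]
        infer_instance
      have h5 : (Matrix.single ⟨0, hd i0⟩ ⟨0, hd i0⟩ 1 : Matrix (Fin (d i0)) (Fin (d i0)) k) = 1 := by
        ext a b
        rw [Subsingleton.elim a ⟨0, hd i0⟩, Subsingleton.elim b ⟨0, hd i0⟩, Matrix.single_apply_same,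
          Matrix.one_apply_eq]
      have h6 : ∀ M : (∀ i, Matrix (Fin (d i)) (Fin (d i)) k),
          M * Pi.single i0 1 = ε M • Pi.single i0 1 := by
        intro M
        have h7 : M * Pi.single i0 1 = (M i0 ⟨0, hd i0⟩ ⟨0, hd i0⟩) •
            (Pi.single i0 1 : ∀ i, Matrix (Fin (d i)) (Fin (d i)) k) := by
          funext l
          rw [Pi.mul_apply, Pi.smul_apply]
          by_cases hl : l = i0
          · subst hl
            rw [Pi.single_eq_same, mul_one]
            ext a b
            rw [Subsingleton.elim a ⟨0, hd l⟩, Subsingleton.elim b ⟨0, hd l⟩, Matrix.smul_apply,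
              Matrix.one_apply_eq, smul_eq_mul, mul_one]
          · rw [Pi.single_eq_of_ne hl, mul_zero, smul_zero]
        have h8 : ε M = M i0 ⟨0, hd i0⟩ ⟨0, hd i0⟩ := by
          have h9 := congrArg ε h7
          rw [map_mul, map_smul, hε, mul_one, smul_eq_mul, mul_one] at h9
          exact h9
        rw [h7, h8]
      have hεg : ∀ g : A, ε (Φ (MonoidAlgebra.single g 1)) = 1 := by
        intro g
        change (MonoidAlgebra.lift k k A 1) (Φ.symm (Φ (MonoidAlgebra.single g 1))) = 1
        rw [AlgEquiv.symm_apply_apply, MonoidAlgebra.lift_single, MonoidHom.one_apply, smul_eq_mul, mul_one]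
      have hρg : ∀ g : A, ρ (Φ (MonoidAlgebra.single g 1)) = σ g := by
        intro g
        change σ.asAlgebraHom (Φ.symm (Φ (MonoidAlgebra.single g 1))) = _
        rw [AlgEquiv.symm_apply_apply, Representation.asAlgebraHom_single_one]
      have he0 : e i0 ⟨0, hd i0⟩ ⟨0, hd i0⟩ = ρ (Pi.single i0 1) := by
        change ρ (Pi.single i0 (Matrix.single ⟨0, hd i0⟩ ⟨0, hd i0⟩ 1)) = _
        rw [h5]
      rw [he0]
      apply le_antisymm
      · rintro _ ⟨x, rfl⟩
        intro g _
        rw [← hρg g, ← Module.End.mul_apply, ← map_mul, h6, hεg, one_smul]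
      · intro v hv
        refine ⟨v, ?_⟩
        have h10 : ∀ r : MonoidAlgebra k A, σ.asAlgebraHom r v = (MonoidAlgebra.lift k k A 1) r • v := by
          intro r
          induction r using MonoidAlgebra.induction_on with
          | of g =>
            rw [MonoidAlgebra.of_apply, Representation.asAlgebraHom_single_one, MonoidAlgebra.lift_single,
              MonoidHom.one_apply, smul_eq_mul, mul_one, one_smul]
            exact hv g (Subgroup.mem_top g)
          | add a b ha hb => rw [map_add, LinearMap.add_apply, ha, hb, map_add, add_smul]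
          | smul c a ha => rw [map_smul, LinearMap.smul_apply, ha, map_smul, smul_assoc]
        have h11 : ρ (Pi.single i0 1) v = ε (Pi.single i0 1) • v := h10 _
        rw [h11, hε, one_smul]
    change Module.finrank k (LinearMap.range (e i0 ⟨0, hd i0⟩ ⟨0, hd i0⟩)) = _
    rw [h4]
  · apply mu_fr2 hd hmu
    intro φ hφ
    have h12 : ∀ M : (∀ i, Matrix (Fin (d i)) (Fin (d i)) k), ρ M * φ = φ * ρ M := by
      intro M
      have h13 : M = ∑ i, ∑ a, ∑ b, M i a b • Pi.single i (Matrix.single a b 1) := by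
        conv_lhs => rw [← Finset.univ_sum_single M]
        refine Finset.sum_congr rfl fun i _ => ?_
        have h14 : M i = ∑ a, ∑ b, M i a b • Matrix.single a b 1 := by
          conv_lhs => rw [Matrix.matrix_eq_sum_single (M i)]
          refine Finset.sum_congr rfl fun a _ => Finset.sum_congr rfl fun b _ => ?_
          rw [Matrix.smul_single, smul_eq_mul, mul_one]
        have h15 : ∀ N : Matrix (Fin (d i)) (Fin (d i)) k,
            (Pi.single i N : ∀ i, Matrix (Fin (d i)) (Fin (d i)) k) =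
              LinearMap.single k (fun i => Matrix (Fin (d i)) (Fin (d i)) k) i N := fun N => rfl
        rw [h15]
        conv_lhs => rw [h14]
        rw [map_sum]
        refine Finset.sum_congr rfl fun a _ => ?_
        rw [map_sum]
        refine Finset.sum_congr rfl fun b _ => ?_
        rw [map_smul]
        rfl
      rw [h13]
      simp only [map_sum, map_smul, Finset.sum_mul, Finset.mul_sum, smul_mul_assoc, mul_smul_comm]
      refine Finset.sum_congr rfl fun i _ => Finset.sum_congr rfl fun a _ =>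
        Finset.sum_congr rfl fun b _ => ?_
      exact congrArg _ (hφ i a b)
    intro g _ v
    have h16 : ρ (Φ (MonoidAlgebra.single g 1)) = σ g := by
      change σ.asAlgebraHom (Φ.symm (Φ (MonoidAlgebra.single g 1))) = _
      rw [AlgEquiv.symm_apply_apply, Representation.asAlgebraHom_single_one]
    rw [← h16, ← Module.End.mul_apply, ← Module.End.mul_apply, h12]

end H78CY
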