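import Pool.Agent.H78.CY.Def3
import Pool.Agent.H78.TP.Dec

/-!
[H78 CY DECG] A finite nilpotent group is the product of its Sylow `l`-subgroup and a nilpotent `l'`-subgroup
(35 min).

PROOF. See the proof of `H78TP.dec` (file `TP/Dec.lean`). All Sylow subgroups of the nilpotent group
`H` are normal (instance used there). Let `L₀` be the Sylow `l`-subgroup and `L₀'` the supremum of
the Sylow `s`-subgroups of `H` for the primes `s ≠ l` (only the prime divisors of `|H|` matter).
Sylow subgroups for different primes commute (`IsPGroup.disjoint_of_ne`,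
`Subgroup.commute_of_normal_of_disjoint`), so `L₀` and `L₀'` commute. `L₀ ⊔ L₀' = ⊤` because its index
is not divisible by any prime. `l ∤ |L₀'|`: the order of a supremum of normal subgroups divides the
product of the orders (or: by Cauchy an element `x ∈ L₀'` of order `l` is in `L₀` (normal Sylow
subgroup contains all `l`-elements), so it commutes with `L₀` and ... ; alternative: define `L₀'` as a
complement of `L₀`: `Subgroup.exists_right_complement'_of_coprime` (Schur-Zassenhaus for normal Hall
subgroups), `|L₀'| = |H : L₀|` prime to `l`; every element of `L₀'` has order prime to `l`, hence it is a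
product of elements of prime power order in Sylow subgroups for primes `≠ l` and commutes with
`L₀`). Subgroups of nilpotent groups are nilpotent. `|L| |L'| = |H|`: `L ⊓ L' = ⊥` (coprime orders) and
they commute. Finally take images under `H.subtype`. (Another way: use the isomorphism of `H` with the
direct product of its Sylow subgroups, `Group.isNilpotent_of_finite_tfae`.)
-/

namespace H78CY

open Subgroup H78TP
open scoped commutatorElement

theorem decG (l : ℕ) [Fact l.Prime] {F : Type*} [Group F] (H : Subgroup F) [Finite H]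
    (hnil : Group.IsNilpotent H) :
    ∃ L L' : Subgroup F, IsPGroup l L ∧ ¬ l ∣ Nat.card L' ∧ Group.IsNilpotent L' ∧
      (∀ x ∈ L, ∀ y ∈ L', x * y = y * x) ∧ L ⊔ L' = H ∧
      Nat.card L * Nat.card L' = Nat.card H := by
  let L₀ : Sylow l H := default
  have hL : (L₀ : Subgroup H).Normal := inferInstance
  have hcop : Nat.Coprime (Nat.card (L₀ : Subgroup H)) (L₀ : Subgroup H).index := by
    obtain ⟨n, hn⟩ := IsPGroup.iff_card.1 L₀.isPGroup'
    rw [hn]
    exact Nat.Coprime.pow_left n ((Nat.Prime.coprime_iff_not_dvd Fact.out).2 L₀.not_dvd_index)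
  obtain ⟨K, hK⟩ := Subgroup.exists_right_complement'_of_coprime hcop
  have hKc : Nat.card K = (L₀ : Subgroup H).index := hK.symm.index_eq_card.symm
  have hlK : ¬ l ∣ Nat.card K := by
    rw [hKc]
    exact L₀.not_dvd_index
  have hcomm : K ≤ centralizer ((L₀ : Subgroup H) : Set H) := by
    by_contra hne
    have h1 : (centralizer ((L₀ : Subgroup H) : Set H)).relIndex K ≠ 1 := fun h =>
      hne (Subgroup.relIndex_eq_one.1 h)
    obtain ⟨r, hr, hrn⟩ := Nat.exists_prime_and_dvd h1
    have := Fact.mk hr
    have hrl : r ≠ l := by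
      rintro rfl
      exact hlK (hrn.trans (Subgroup.relIndex_dvd_card _ _))
    let P : Sylow r K := default
    have hP1 : IsPGroup r ((P : Subgroup K).map K.subtype) := P.isPGroup'.map _
    obtain ⟨Q, hQ⟩ := hP1.exists_le_sylow
    have hQn : (Q : Subgroup H).Normal := inferInstance
    have hdisj : Disjoint (Q : Subgroup H) (L₀ : Subgroup H) :=
      IsPGroup.disjoint_of_ne r l hrl _ _ Q.isPGroup' L₀.isPGroup'
    have hc := Subgroup.commute_of_normal_of_disjoint _ _ hQn hL hdisj
    have h2 : (P : Subgroup K) ≤ (centralizer ((L₀ : Subgroup H) : Set H)).subgroupOf K := by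
      intro x hx
      rw [Subgroup.mem_subgroupOf, Subgroup.mem_centralizer_iff]
      intro y hy
      exact (hc x y (hQ ⟨x, hx, rfl⟩) hy).symm
    exact P.not_dvd_index (hrn.trans (Subgroup.index_dvd_of_le h2))
  have hsup : (L₀ : Subgroup H) ⊔ K = ⊤ := hK.sup_eq_top
  refine ⟨(L₀ : Subgroup H).map H.subtype, K.map H.subtype, ?_, ?_, ?_, ?_, ?_, ?_⟩
  · exact L₀.isPGroup'.map _
  · rw [← Nat.card_congr (Subgroup.equivMapOfInjective K H.subtype H.subtype_injective).toEquiv]
    exact hlK
  · exact Group.nilpotent_of_mulEquiv
      (Subgroup.equivMapOfInjective K H.subtype H.subtype_injective)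
  · rintro _ ⟨x, hx, rfl⟩ _ ⟨y, hy, rfl⟩
    rw [← map_mul, ← map_mul]
    exact congrArg _ (Subgroup.mem_centralizer_iff.1 (hcomm hy) x hx)
  · rw [← Subgroup.map_sup, hsup, ← MonoidHom.range_eq_map, Subgroup.range_subtype]
  · rw [← Nat.card_congr (Subgroup.equivMapOfInjective K H.subtype H.subtype_injective).toEquiv,
      ← Nat.card_congr (Subgroup.equivMapOfInjective (L₀ : Subgroup H) H.subtype
        H.subtype_injective).toEquiv]
    exact hK.card_mul_card

/-- the product of commuting nilpotent subgroups is nilpotent -/
theorem nil_sup {F : Type*} [Group F] (A B : Subgroup F) (hA : Group.IsNilpotent A)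
    (hB : Group.IsNilpotent B) (hcomm : ∀ x ∈ A, ∀ y ∈ B, x * y = y * x) :
    Group.IsNilpotent (A ⊔ B : Subgroup F) := by
  let f : A × B →* F := MonoidHom.noncommCoprod A.subtype B.subtype
    (fun x y => hcomm x x.2 y y.2)
  have h1 : f.range = A ⊔ B := by
    rw [MonoidHom.noncommCoprod_range, Subgroup.range_subtype, Subgroup.range_subtype]
  have h2 : Group.IsNilpotent f.range :=
    Group.nilpotent_of_surjective f.rangeRestrict f.rangeRestrict_surjective
  rwa [h1] at h2

theorem cc_sup {F : Type*} [Group F] (A B : Subgroup F) :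
    CC A B = centralizer ((A ⊔ B : Subgroup F) : Set F) := by
  have key : ∀ (C : Subgroup F) (z : F), z ∈ centralizer (C : Set F) ↔ C ≤ centralizer {z} := by
    intro C z
    rw [Subgroup.mem_centralizer_iff]
    constructor
    · intro h x hx
      rw [Subgroup.mem_centralizer_iff]
      rintro _ rfl
      exact (h x hx).symm
    · intro h x hx
      exact (Subgroup.mem_centralizer_iff.1 (h hx) z rfl).symm
  ext z
  unfold CC
  rw [Subgroup.mem_inf, key, key, key, sup_le_iff]

end H78CY
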