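import Pool.Agent.H78.TP.Base
import Pool.Agent.H78.TP.RgA

/-!
Definitions for the full answer to `MP_63e0db_al` (helper78, P203).
-/

namespace H78CY

open Subgroup H78TP
open scoped commutatorElement

universe u

section basic

variable {Γ : Type*} [Group Γ]

/-- `Y` normalises `X` -/
def Nm (Y X : Subgroup Γ) : Prop := ∀ y ∈ Y, ∀ x ∈ X, y * x * y⁻¹ ∈ X

/-- `O^{p'}(X)`: the subgroup generated by the elements of `p`-power order -/
def up (p : ℕ) (X : Subgroup Γ) : Subgroup Γ :=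
  Subgroup.closure {x | x ∈ X ∧ ∃ k : ℕ, x ^ (p ^ k) = 1}

/-- `O^p(X)`: the subgroup generated by the elements of order prime to `p` -/
def dn (p : ℕ) (X : Subgroup Γ) : Subgroup Γ :=
  Subgroup.closure {x | x ∈ X ∧ ¬ p ∣ orderOf x}

/-- the lower `p`-series: `P_0 = O^{p'}(G)`, `P_{a+1} = O^{p'}(O^p(P_a))` -/
def PS (p : ℕ) (G : Subgroup Γ) : ℕ → Subgroup Γ
  | 0 => up p G
  | a + 1 => up p (dn p (PS p G a))

/-- `N_a = O^p(P_a)` -/
def NS (p : ℕ) (G : Subgroup Γ) (a : ℕ) : Subgroup Γ := dn p (PS p G a)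

/-- the members of the chain between `N_a` and `P_{a+1}` -/
def XS (p : ℕ) (G : Subgroup Γ) (a c : ℕ) : Subgroup Γ := lns (NS p G a) c ⊔ PS p G (a + 1)

/-- the stabiliser in `R` of the point `x L` of `Γ ⧸ L` -/
def st (R L : Subgroup Γ) (x : Γ) : Subgroup Γ where
  carrier := {g | g ∈ R ∧ x⁻¹ * g * x ∈ L}
  one_mem' := ⟨R.one_mem, by simp⟩
  mul_mem' := by
    rintro a b ⟨ha, ha'⟩ ⟨hb, hb'⟩
    refine ⟨R.mul_mem ha hb, ?_⟩
    have h := L.mul_mem ha' hb'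
    have e : x⁻¹ * (a * b) * x = (x⁻¹ * a * x) * (x⁻¹ * b * x) := by group
    rw [e]
    exact h
  inv_mem' := by
    rintro a ⟨ha, ha'⟩
    refine ⟨R.inv_mem ha, ?_⟩
    have h := L.inv_mem ha'
    have e : x⁻¹ * a⁻¹ * x = (x⁻¹ * a * x)⁻¹ := by group
    rw [e]
    exact h

theorem mem_st {R L : Subgroup Γ} {x g : Γ} : g ∈ st R L x ↔ g ∈ R ∧ x⁻¹ * g * x ∈ L := Iff.rfl

/-- `x` is `j`-good for `L`: the stabiliser has index at least `2 ^ j` in `R` -/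
def gd (R L : Subgroup Γ) (j : ℕ) (x : Γ) : Prop := 2 ^ j * Nat.card (st R L x) ≤ Nat.card R

/-- the hypotheses of Theorem D -/
structure LHyp (p n : ℕ) (m f : ℕ → ℕ) (l : ℕ) (G R H : Subgroup Γ) : Prop where
  sol : Group.IsSolvable Γ
  GH : Nm H G
  RH : R ≤ H
  nR : Nm H R
  cop : ¬ p ∣ Nat.card R
  cR : Nat.card R ≤ n
  bot : PS p G l = ⊥
  ht : ∀ a b, a + b = l → lns (PS p G a) (f b) = ⊥
  fx : ∀ a b, a + b = l → ∀ K : Subgroup Γ, K ≤ PS p G a → Nm (PS p G a) K → Nm H K →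
    (∀ x ∈ PS p G a, x ^ p ∈ K) → (∀ x ∈ PS p G a, ∀ y ∈ PS p G a, ⁅x, y⁆ ∈ K) →
    ∀ C : Subgroup Γ, (∀ x, x ∈ C ↔ x ∈ PS p G a ∧ ∀ y ∈ R, ⁅y, x⁆ ∈ K) → K.relIndex C ≤ m b

/-- `LHyp` with `Γ = G H` and `G` normal -/
structure FHyp (p n : ℕ) (m f : ℕ → ℕ) (l : ℕ) (G R H : Subgroup Γ) : Prop where
  lh : LHyp p n m f l G R H
  nG : G.Normal
  top : G ⊔ H = ⊤

/-- the set `{g ∈ Y | [g, J] ≤ M}` is a subgroup if `Y` normalises `J` and `M` and `J / M` is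
abelian; it is used through the predicate `IsCc` -/
def IsCc (Y J M C : Subgroup Γ) : Prop := ∀ g, g ∈ C ↔ g ∈ Y ∧ ∀ x ∈ J, ⁅g, x⁆ ∈ M

/-- the commutator of `g` with `J` modulo `M` has order at most `N` -/
def smal (M J : Subgroup Γ) (g : Γ) (N : ℕ) : Prop :=
  ∃ C : Subgroup Γ, (∀ x, x ∈ C ↔ x ∈ J ∧ ⁅g, x⁆ ∈ M) ∧ C.relIndex J ≤ N

/-- the subgroup generated by the elements of `R ∩ Y` with small commutators -/
def Dc (R Y J M : Subgroup Γ) (N : ℕ) : Subgroup Γ :=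
  Subgroup.closure {g | g ∈ R ∧ g ∈ Y ∧ smal M J g N}

/-- the normal closure of `D` in `G D` (if `D` normalises `G`) -/
def ncl (G D : Subgroup Γ) : Subgroup Γ :=
  Subgroup.closure {x | ∃ t ∈ G, ∃ g ∈ D, x = t * g * t⁻¹}

/-- the constant of the commutator lemma -/
def cz (s : ℕ) : ℕ := zas (4 * s) + 1

end basic

/-- Statement `Q(j)`: a proportion of at least `1 / d` of the elements is `j`-good, where `d` does
not depend on `b`. -/
def QP (p n : ℕ) (m f : ℕ → ℕ) (j : ℕ) : Prop :=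
  ∃ d : ℕ, 0 < d ∧ ∀ b : ℕ, ∃ T : ℕ, ∀ (Γ : Type u) [Group Γ] [Finite Γ]
    (G R H : Subgroup Γ) (l : ℕ), LHyp p n m f l G R H → T < l →
    ∀ L : Subgroup Γ, ¬ PS p G (l - b) ≤ L →
      Nat.card (G ⊔ H : Subgroup Γ) ≤ d * Nat.card {x : Γ // x ∈ G ⊔ H ∧ gd R L j x}

/-- Statement `S(j)`: a proportion of at most `1 / e` of the elements is not `j`-good. -/
def QS (p n : ℕ) (m f : ℕ → ℕ) (j : ℕ) : Prop :=
  ∀ e b : ℕ, ∃ T : ℕ, ∀ (Γ : Type u) [Group Γ] [Finite Γ]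
    (G R H : Subgroup Γ) (l : ℕ), LHyp p n m f l G R H → T < l →
    ∀ L : Subgroup Γ, ¬ PS p G (l - b) ≤ L →
      e * Nat.card {x : Γ // x ∈ G ⊔ H ∧ ¬ gd R L j x} ≤ Nat.card (G ⊔ H : Subgroup Γ)

/-- at least `1 / d` of the elements of the group have the property `B` -/
def Many {Γ : Type*} (d : ℕ) (B : Γ → Prop) : Prop := Nat.card Γ ≤ d * Nat.card {x : Γ // B x}

/-- at most `1 / e` of the elements of the group have the property `B` -/
def Few {Γ : Type*} (e : ℕ) (B : Γ → Prop) : Prop := e * Nat.card {x : Γ // B x} ≤ Nat.card Γ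

end H78CY
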