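import Pool.Agent.H78.CY.Def

/-!
Definitions for the strict step `S(j) → Q(j+1)` of `MP_63e0db_al` (helper78, P203).
-/

namespace H78CY

open Subgroup H78TP
open scoped commutatorElement

/-- the increasing thresholds of step F -/
def dd (n : ℕ) : ℕ → ℕ
  | 0 => 0
  | k + 1 => 2 * n * dd n k + 2 * n + 64 * n ^ 2

/-- lower bound for the dimension of `E / D` in step F -/
def dQ (n m : ℕ) : ℕ := 2 * n * dd n n + 2 * n + 16 * n ^ 2 * m ^ 2

section rep

variable {k Γ U : Type*} [Field k] [Group Γ] [AddCommGroup U] [Module k U]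

/-- the stabiliser of the subspace `W` -/
def sW (τ : Representation k Γ U) (W : Submodule k U) : Subgroup Γ where
  carrier := {g | ∀ v, τ g v ∈ W ↔ v ∈ W}
  one_mem' := fun v => by rw [map_one, Module.End.one_apply]
  mul_mem' := by
    intro a b ha hb v
    rw [map_mul, Module.End.mul_apply]
    exact (ha _).trans (hb _)
  inv_mem' := by
    intro a ha v
    rw [← ha (τ a⁻¹ v), ← Module.End.mul_apply, ← map_mul, mul_inv_cancel, map_one,
      Module.End.one_apply]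

theorem mem_sW {τ : Representation k Γ U} {W : Submodule k U} {g : Γ} :
    g ∈ sW τ W ↔ ∀ v, τ g v ∈ W ↔ v ∈ W := Iff.rfl

/-- the representation of the stabiliser of `W` on `W` -/
def rsW (τ : Representation k Γ U) (W : Submodule k U) : Representation k (sW τ W) W where
  toFun g := (τ g.1).restrict (fun v hv => (g.2 v).2 hv)
  map_one' := by
    ext v
    rw [LinearMap.coe_restrict_apply, OneMemClass.coe_one, map_one, Module.End.one_apply,
      Module.End.one_apply]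
  map_mul' := by
    intro g h
    ext v
    rw [LinearMap.coe_restrict_apply, MulMemClass.coe_mul, map_mul, Module.End.mul_apply,
      Module.End.mul_apply, LinearMap.coe_restrict_apply, LinearMap.coe_restrict_apply]

theorem rsW_coe (τ : Representation k Γ U) (W : Submodule k U) (g : sW τ W) (v : W) :
    ((rsW τ W g v : W) : U) = τ g.1 v.1 := rfl

/-- the sum of the other weight spaces -/
def WC (τ : Representation k Γ U) (T : Subgroup Γ) (V : Submodule k U) (ν : Γ → k) :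
    Submodule k U := ⨆ (ν' : Wt τ T V) (_ : ν'.1 ≠ ν), WS τ T V ν'.1

/-- the conjugate of the subspace `W` which belongs to a coset of its stabiliser -/
noncomputable def cpW (τ : Representation k Γ U) (W : Submodule k U) (c : Γ ⧸ sW τ W) : Submodule k U :=
  W.map (τ (Quotient.out c))

theorem map_eq_of_coset (τ : Representation k Γ U) (W : Submodule k U) (g h : Γ)
    (hgh : g⁻¹ * h ∈ sW τ W) : W.map (τ g) = W.map (τ h) := by
  apply le_antisymm
  · rintro _ ⟨v, hv, rfl⟩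
    refine ⟨τ (g⁻¹ * h)⁻¹ v, ((sW τ W).inv_mem hgh v).2 hv, ?_⟩
    rw [← Module.End.mul_apply, ← map_mul]
    congr 2
    group
  · rintro _ ⟨v, hv, rfl⟩
    refine ⟨τ (g⁻¹ * h) v, (hgh v).2 hv, ?_⟩
    rw [← Module.End.mul_apply, ← map_mul]
    congr 2
    group

theorem cpW_mk (τ : Representation k Γ U) (W : Submodule k U) (g : Γ) :
    cpW τ W (QuotientGroup.mk g) = W.map (τ g) := by
  apply map_eq_of_coset
  rw [← QuotientGroup.eq]
  exact Quotient.out_eq _

theorem cpW_smul (τ : Representation k Γ U) (W : Submodule k U) (g : Γ) (c : Γ ⧸ sW τ W) {v : U}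
    (hv : v ∈ cpW τ W c) : τ g v ∈ cpW τ W (g • c) := by
  induction c using QuotientGroup.induction_on with
  | H x =>
    rw [cpW_mk] at hv
    obtain ⟨w, hw, rfl⟩ := hv
    have h1 : g • (QuotientGroup.mk x : Γ ⧸ sW τ W) = QuotientGroup.mk (g * x) := rfl
    rw [h1, cpW_mk]
    refine ⟨w, hw, ?_⟩
    rw [map_mul, Module.End.mul_apply]

/-- the endomorphisms which commute with `K` -/
def cmt (σ : Representation k Γ U) (K : Subgroup Γ) : Submodule k (U →ₗ[k] U) where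
  carrier := {φ | ∀ g ∈ K, ∀ v, φ (σ g v) = σ g (φ v)}
  add_mem' := by
    intro a b ha hb g hg v
    rw [LinearMap.add_apply, LinearMap.add_apply, ha g hg, hb g hg, map_add]
  zero_mem' := by
    intro g _ v
    rw [LinearMap.zero_apply, LinearMap.zero_apply, map_zero]
  smul_mem' := by
    intro c a ha g hg v
    rw [LinearMap.smul_apply, LinearMap.smul_apply, ha g hg, map_smul]

theorem mem_cmt {σ : Representation k Γ U} {K : Subgroup Γ} {φ : U →ₗ[k] U} :
    φ ∈ cmt σ K ↔ ∀ g ∈ K, ∀ v, φ (σ g v) = σ g (φ v) := Iff.rfl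

/-- the module of step C -/
structure UHyp (p : ℕ) (τ : Representation k Γ U) (G : Subgroup Γ) (i : ℕ) : Prop where
  sol : Group.IsSolvable Γ
  nG : G.Normal
  i1 : 1 ≤ i
  triv : ∀ g ∈ PS p G i, τ g = 1
  nofix : ∀ v, (∀ g ∈ NS p G (i - 1), τ g v = v) → v = 0
  ind : ∀ A B : Submodule k U, (∀ g, ∀ v ∈ A, τ g v ∈ A) → (∀ g, ∀ v ∈ B, τ g v ∈ B) →
    A ⊓ B = ⊥ → A ⊔ B = ⊤ → A = ⊥ ∨ B = ⊥

/-- the subgroups `Z` and `E` -/
structure ZHyp (p r : ℕ) (τ : Representation k Γ U) (G : Subgroup Γ) (i : ℕ)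
    (T0 Z E : Subgroup Γ) : Prop where
  un : UHyp p τ G i
  nT : T0.Normal
  PT : PS p G (i - 1) ≤ T0
  hZ : ∀ g, g ∈ Z ↔ g ∈ NS p G (i - 1) ∧ ∀ t ∈ T0, τ ⁅g, t⁆ = 1
  nE : E.Normal
  ZE : Z ≤ E
  EZ : ¬ E ≤ Z
  ES : E ≤ NS p G (i - 1)
  hr : r.Prime
  hrp : r ≠ p
  pow : ∀ x ∈ E, x ^ r ∈ Z
  com : ∀ x ∈ E, ∀ y ∈ E, ⁅x, y⁆ ∈ Z

/-- the component `W` -/
structure WHyp (p r : ℕ) (τ : Representation k Γ U) (G : Subgroup Γ) (i : ℕ)
    (T0 Z E : Subgroup Γ) (lam mu : Γ → k) (D : Subgroup Γ) (V W : Submodule k U) : Prop where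
  z : ZHyp p r τ G i T0 Z E
  hl : lam ∈ Wt τ Z ⊤
  hV : V = WS τ Z ⊤ lam
  hD : ∀ g, g ∈ D ↔ g ∈ E ∧ ∀ f ∈ E, lam ⁅g, f⁆ = 1
  hm : mu ∈ Wt τ D V
  hW : W = WS τ D V mu

/-- a group `E` which acts on `U`, such that `D` acts by scalars and `E / D` is elementary
abelian with a nondegenerate commutator form -/
structure KHyp (r : ℕ) (σ : Representation k Γ U) (E D : Subgroup Γ) : Prop where
  hr : r.Prime
  rk : (r : k) ≠ 0
  nE : E.Normal
  nD : D.Normal
  DE : D ≤ E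
  sc : ∀ d ∈ D, ∃ c : k, ∀ v, σ d v = c • v
  pow : ∀ e ∈ E, e ^ r ∈ D
  com : ∀ e ∈ E, ∀ f ∈ E, ⁅e, f⁆ ∈ D
  nd : ∀ e ∈ E, (∀ f ∈ E, σ ⁅e, f⁆ = 1) → e ∈ D
  ord : ∀ e ∈ E, ∃ q : ℕ, (q : k) ≠ 0 ∧ σ (e ^ q) = 1

end rep

end H78CY
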