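import Pool.Agent.H78.CY.Def

/-!
Definitions for the outer layers of the full answer to `MP_63e0db_al` (helper78, P203).
-/

namespace H78CY

open Subgroup H78TP
open scoped commutatorElement

/-- `KN m j H`: the elementary abelian sections of the centraliser of `H` are small -/
def KN {F : Type*} [Group F] (m j : ℕ) (H : Subgroup F) : Prop :=
  ∀ s : ℕ, s.Prime → RB s (j * s ^ m) (centralizer (H : Set F))

/-- new value of `j` after factoring out a nilpotent normal subgroup (the primes `< l` are treated
one after the other) -/
def inL (n m : ℕ) : ℕ → ℕ → ℕ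
  | 0, j => j
  | l + 1, j => inL n m l (if l.Prime then inhJ l n m j else j)

/-- new value of `j` after factoring out a normal subgroup of height `t` -/
def inHn (n m : ℕ) : ℕ → ℕ → ℕ
  | 0, j => j
  | t + 1, j => inHn n m t (inL n m (n + 1) j)

/-- the hypotheses of the theorem on finite groups -/
structure NHyp (n m j : ℕ) (F : Type*) [Group F] (H : Subgroup F) : Prop where
  sol : Group.IsSolvable F
  nil : Group.IsNilpotent H
  card : Nat.card H ≤ n
  kn : KN m j H

/-- the hypotheses for a fixed prime `p`, `H = P × R` -/
structure PHyp (p n n' m j : ℕ) (F : Type*) [Group F] (P R : Subgroup F) : Prop where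
  sol : Group.IsSolvable F
  hP : IsPGroup p P
  hR : ¬ p ∣ Nat.card R
  nR : Group.IsNilpotent R
  comm : ∀ x ∈ P, ∀ y ∈ R, x * y = y * x
  cH : Nat.card (P ⊔ R : Subgroup F) ≤ n
  cR : Nat.card R ≤ n'
  kj : KJ m j P R

end H78CY
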