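import Pool.Agent.H78.CY.PsA
import Pool.Agent.H78.TP.Fit

/-!
[H78 CY LNSR] Relative form of `lns_sup` (20 min).

PROOF. Work in the group `Y = A ⊔ B` (a subgroup of `Γ`; by `Nm A B`, `Nm B A`, `nm_left` both
`A.subgroupOf Y` and `B.subgroupOf Y` are normal in `Y`). Apply `H78TP.lns_sup` in `Y` and map with
`Y.subtype` (`lns_subtype`, `Subgroup.map_subgroupOf_eq_of_le`, `Subgroup.map_sup`).
-/

namespace H78CY

open Subgroup H78TP
open scoped commutatorElement

variable {Γ : Type*} [Group Γ]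

theorem lns_supR [Finite Γ] (A B : Subgroup Γ) (h1 : Nm A B) (h2 : Nm B A) (c : ℕ) :
    lns (A ⊔ B) c ≤ lns A c ⊔ lns B c := by
  have nYA : Nm (A ⊔ B) A := nm_left (nm_self A) h2
  have nYB : Nm (A ⊔ B) B := nm_left h1 (nm_self B)
  have hA : (A.subgroupOf (A ⊔ B)).Normal := ⟨fun a ha y => by
    rw [Subgroup.mem_subgroupOf] at ha ⊢
    exact nYA y y.2 _ ha⟩
  have hB : (B.subgroupOf (A ⊔ B)).Normal := ⟨fun a ha y => by
    rw [Subgroup.mem_subgroupOf] at ha ⊢
    exact nYB y y.2 _ ha⟩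
  have h3 := lns_sup (A.subgroupOf (A ⊔ B)) (B.subgroupOf (A ⊔ B)) hA hB c
  have h4 := Subgroup.map_mono (f := (A ⊔ B).subtype) h3
  rw [Subgroup.map_sup, lns_subtype, lns_subtype, lns_subtype, Subgroup.map_sup,
    Subgroup.map_subgroupOf_eq_of_le le_sup_left, Subgroup.map_subgroupOf_eq_of_le le_sup_right] at h4
  exact h4

end H78CY
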