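import Pool.Agent.H78.CY.LhL
import Pool.Agent.H78.CY.PsB
import Pool.Agent.H78.CY.LnsR

/-!
[H78 CY DTR] THE `D`-TRICK (50 min). If `D ≤ R` is large (`|R| < 2 ^ j |D|`) and `lns (D ^ G) c ≤ C` then a term
`P_{l-b'+c}` is contained in `C`.

PROOF. Let `d, T` be the numbers given by `hQ` for `b'`, `Λ = max T b'`. Let `N = ncl G D`
(`= closure {t g t⁻¹ | t ∈ G, g ∈ D}`). `D ≤ R ≤ H` normalises `G`, so `N` is normalised by `G`
(obvious from the definition) and by `D`, `D ≤ N`. Let `L₀ = (G ⊓ C) ⊔ N`. `G ⊓ C` is normalised by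
`G` and by `D`, hence by `N` (`N ≤ G ⊔ D`), and `N` is normalised by `G`.
(1) If `¬ PS p G (l - b') ≤ L₀`, then by `hQ` and `Nat.card (G ⊔ H) > 0` there is `x ∈ G ⊔ H` with
`gd R L₀ j x`. As `H` normalises `G`, `x = h t` with `h ∈ H`, `t ∈ G` (`Subgroup.mul_mem_sup`/
`Subgroup.mem_sup_of_normal...`; or: the set `{h t}` is closed under multiplication and contains
`G`, `H`). For `g ∈ D`: `h g h⁻¹ ∈ R` (`h.nR`) and `x⁻¹ (h g h⁻¹) x = t⁻¹ g t ∈ N ≤ L₀`. So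
`st R L₀ x` contains `h D h⁻¹` and `|D| ≤ |st R L₀ x|`, `2 ^ j |D| ≤ |R|`: contradiction.
(2) So `PS p G (l - b') ≤ L₀`; as it is contained in `G`, it lies in `L₀ ⊓ G`. By `lns_mono`,
`lns_supR`, `lns (PS p G (l - b')) c ≤ lns ((G ⊓ C) ⊔ N) c ≤ lns (G ⊓ C) c ⊔ lns N c ≤ C`, and
`PS p G (l - b' + c) ≤ lns (PS p G (l - b')) c` (`PS_le_lns`). (The intersection with `G` is not even
needed.)
-/

namespace H78CY

open Subgroup H78TP
open scoped commutatorElement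

universe u

theorem dtr (p n : ℕ) [Fact p.Prime] (m f : ℕ → ℕ) (j : ℕ) (hQ : QP.{u} p n m f j) (b' : ℕ) :
    ∃ Λ : ℕ, ∀ (Γ : Type u) [Group Γ] [Finite Γ] (G R H : Subgroup Γ) (l : ℕ),
      LHyp p n m f l G R H → Λ < l → ∀ D : Subgroup Γ, D ≤ R → Nat.card R < 2 ^ j * Nat.card D →
      ∀ (C : Subgroup Γ) (c : ℕ), Nm G C → Nm D C → lns (ncl G D) c ≤ C →
        PS p G (l - b' + c) ≤ C := by
  obtain ⟨d, hd, hT⟩ := hQ
  obtain ⟨T, hT⟩ := hT b'
  refine ⟨max T b', ?_⟩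
  intro Γ _ _ G R H l h hl D hDR hcard C c nGC nDC hlns
  have hTl : T < l := lt_of_le_of_lt (le_max_left _ _) hl
  have hDH : D ≤ H := hDR.trans h.RH
  have nDG : Nm D G := nm_mono h.GH hDH
  have hDN : D ≤ ncl G D := fun g hg => Subgroup.subset_closure ⟨1, G.one_mem, g, hg, by group⟩
  have nGN : Nm G (ncl G D) := by
    intro y hy
    have h1 : ncl G D ≤ (ncl G D).comap (MulAut.conj y).toMonoidHom := by
      refine (Subgroup.closure_le _).2 ?_
      rintro x ⟨t, ht, g, hg, rfl⟩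
      refine Subgroup.subset_closure ⟨y * t, G.mul_mem hy ht, g, hg, ?_⟩
      change y * (t * g * t⁻¹) * y⁻¹ = y * t * g * (y * t)⁻¹
      group
    exact fun x hx => h1 hx
  have hNGD : ncl G D ≤ G ⊔ D := by
    refine (Subgroup.closure_le _).2 ?_
    rintro x ⟨t, ht, g, hg, rfl⟩
    have ht' : t ∈ G ⊔ D := (le_sup_left : G ≤ G ⊔ D) ht
    have hg' : g ∈ G ⊔ D := (le_sup_right : D ≤ G ⊔ D) hg
    exact (G ⊔ D).mul_mem ((G ⊔ D).mul_mem ht' hg') ((G ⊔ D).inv_mem ht')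
  have nGA : Nm G (G ⊓ C) := nm_inf (nm_self G) nGC
  have nDA : Nm D (G ⊓ C) := nm_inf nDG nDC
  have nNA : Nm (ncl G D) (G ⊓ C) := nm_mono (nm_left nGA nDA) hNGD
  have nAN : Nm (G ⊓ C) (ncl G D) := nm_mono nGN inf_le_left
  by_cases hL : PS p G (l - b') ≤ (G ⊓ C) ⊔ ncl G D
  · refine (PS_le_lns G (l - b') c).trans ((lns_mono hL c).trans ?_)
    refine (lns_supR _ _ nAN nNA c).trans (sup_le ?_ hlns)
    exact (lns_le _ _).trans inf_le_right
  · exfalso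
    have h1 := hT Γ G R H l h hTl _ hL
    have h2 : 0 < Nat.card (G ⊔ H : Subgroup Γ) := Nat.card_pos
    have h3 : 0 < Nat.card {x : Γ // x ∈ G ⊔ H ∧ gd R ((G ⊓ C) ⊔ ncl G D) j x} := by
      by_contra h4
      have h5 : Nat.card {x : Γ // x ∈ G ⊔ H ∧ gd R ((G ⊓ C) ⊔ ncl G D) j x} = 0 := by omega
      rw [h5, mul_zero] at h1
      omega
    obtain ⟨⟨x, hx, hgd⟩⟩ := (Nat.card_pos_iff.1 h3).1
    -- `x = y t`
    obtain ⟨y, hy, t, ht, rfl⟩ : ∃ y ∈ H, ∃ t ∈ G, x = y * t := by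
      let K : Subgroup Γ :=
        { carrier := {x | ∃ y ∈ H, ∃ t ∈ G, x = y * t}
          one_mem' := ⟨1, H.one_mem, 1, G.one_mem, by group⟩
          mul_mem' := by
            rintro a b ⟨y1, hy1, t1, ht1, rfl⟩ ⟨y2, hy2, t2, ht2, rfl⟩
            refine ⟨y1 * y2, H.mul_mem hy1 hy2, (y2⁻¹ * t1 * y2⁻¹⁻¹) * t2,
              G.mul_mem (h.GH _ (H.inv_mem hy2) _ ht1) ht2, ?_⟩
            group
          inv_mem' := by
            rintro a ⟨y1, hy1, t1, ht1, rfl⟩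
            refine ⟨y1⁻¹, H.inv_mem hy1, y1 * t1⁻¹ * y1⁻¹, h.GH _ hy1 _ (G.inv_mem ht1), ?_⟩
            group }
      have hK : G ⊔ H ≤ K := by
        apply sup_le
        · intro t ht
          exact ⟨1, H.one_mem, t, ht, by group⟩
        · intro y hy
          exact ⟨y, hy, 1, G.one_mem, by group⟩
      exact hK hx
    have h4 : rgCj y D ≤ st R ((G ⊓ C) ⊔ ncl G D) (y * t) := by
      intro z hz
      rw [mem_rgCj] at hz
      have hzR : z ∈ R := by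
        have h5 := h.nR y hy _ (hDR hz)
        have e : y * (y⁻¹ * z * y) * y⁻¹ = z := by group
        rwa [e] at h5
      refine ⟨hzR, ?_⟩
      have h5 := nGN t⁻¹ (G.inv_mem ht) _ (hDN hz)
      have e : t⁻¹ * (y⁻¹ * z * y) * t⁻¹⁻¹ = (y * t)⁻¹ * z * (y * t) := by group
      rw [e] at h5
      exact (le_sup_right : ncl G D ≤ (G ⊓ C) ⊔ ncl G D) h5
    have h5 : Nat.card D ≤ Nat.card (st R ((G ⊓ C) ⊔ ncl G D) (y * t)) := by
      rw [← card_rgCj y D]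
      exact Subgroup.card_le_of_le h4
    have h6 : 2 ^ j * Nat.card D ≤ Nat.card R := (Nat.mul_le_mul_left _ h5).trans hgd
    omega

end H78CY
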