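import Pool.Agent.H78.CY.PsA
import Pool.Agent.H78.TP.Gt
import Pool.Agent.H78.TP.NilSyl
import Pool.Agent.H78.CY.Cc

/-!
[H78 CY GTC] A group generated by elements with small commutators acts on `J / M` with bounded height (60 min).

SETTING: `M ≤ Z0 ≤ J` normalised by `D`, `J / M` commutative, `x ^ l ∈ Z0` for `x ∈ J`, `D` acts
trivially on `Z0 / M`, `D` is generated by elements `g` with `|J : {x ∈ J | ⁅g, x⁆ ∈ M}| ≤ l ^ s`.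
PROOF. (1) Apply `H78TP.gt` with `X = D`, `T = J`, `D = Z0`: the subgroup `{x ∈ J | ⁅g, x⁆ ∈ Z0}`
contains `{x ∈ J | ⁅g, x⁆ ∈ M}`, so its index in `J` is `≤ l ^ s` (it is a subgroup because `J`
normalises `Z0`: `J / M` is commutative and `M ≤ Z0`). So for `g ∈ dS D (zas (4 s))` of order prime
to `l`: `⁅g, x⁆ ∈ Z0` for all `x ∈ J`.
(2) For such `g`, `x`: let `c = ⁅g, x⁆ ∈ Z0`. Modulo `M` (normalised by `J` and `g`), `g` acts
trivially on `Z0`, so `g ^ i x g ^ (-i) ≡ c ^ i x` for all `i`; with `i = orderOf g`: `c ^ (orderOf g) ∈ M`.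
As `J / M` is commutative, `x ↦ ⁅g, x⁆` is a homomorphism modulo `M`, so `c ^ l ≡ ⁅g, x ^ l⁆ ∈ M`
(`x ^ l ∈ Z0`). Since `orderOf g` and `l` are coprime, `c ∈ M`.
(3) Let `A = lns D (zas (4 s)) ≤ dS D (zas (4 s))` (`lns_le_dS`) and `K = {g ∈ D | ∀ x ∈ J, ⁅g, x⁆ ∈ M}`
(a subgroup normalised by `D`). By (2) all elements of `A` of order prime to `l` are in `K`; so for
`g ∈ A` a power `g ^ (l ^ k)` is in `K`. So `A / (A ⊓ K)` is an `l`-group, hence nilpotent, so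
`nres A ≤ K`: `lns D (zas (4 s) + 1) ≤ K ≤ C`.
-/

namespace H78CY

open Subgroup H78TP
open scoped commutatorElement

private theorem gtcPow {Γ : Type*} [Group Γ] {J M : Subgroup Γ} (nJM : Nm J M) {c : Γ}
    (hcJ : c ∈ J) {m : Γ} (hm : m ∈ M) : ∀ i : ℕ, (m * c) ^ i * (c ^ i)⁻¹ ∈ M
  | 0 => by simp
  | i + 1 => by
    have ih := gtcPow nJM hcJ hm i
    have h1 := nJM (c ^ (i + 1)) (J.pow_mem hcJ _)
    have h2 : (m * c) ^ (i + 1) * (c ^ (i + 1))⁻¹ =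
        ((m * c) ^ i * (c ^ i)⁻¹) * (c ^ i * m * (c ^ i)⁻¹) := by
      rw [pow_succ (m * c), pow_succ c]
      group
    rw [h2]
    exact M.mul_mem ih (nJM (c ^ i) (J.pow_mem hcJ _) m hm)

private theorem gtcStep {Γ : Type*} [Group Γ] {J M : Subgroup Γ} (nJM : Nm J M) {g c x : Γ}
    (hgM : ∀ m ∈ M, g * m * g⁻¹ ∈ M) (hcJ : c ∈ J) (hc : c = ⁅g, x⁆) (hgc : ⁅g, c⁆ ∈ M) :
    ∀ i : ℕ, g ^ i * x * (g ^ i)⁻¹ * (c ^ i * x)⁻¹ ∈ M
  | 0 => by simp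
  | i + 1 => by
    have ih := gtcStep nJM hgM hcJ hc hgc i
    have h1 := hgM _ ih
    have h2 := gtcPow nJM hcJ hgc i
    have e1 : ⁅g, c⁆ * c = g * c * g⁻¹ := by
      rw [commutatorElement_def]
      group
    rw [e1] at h2
    have e2 : g ^ (i + 1) * x * (g ^ (i + 1))⁻¹ * (c ^ (i + 1) * x)⁻¹ =
        (g * (g ^ i * x * (g ^ i)⁻¹ * (c ^ i * x)⁻¹) * g⁻¹) * ((g * c * g⁻¹) ^ i * (c ^ i)⁻¹) := by
      have e3 : (g * c * g⁻¹) ^ i = g * c ^ i * g⁻¹ := conj_pow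
      have e4 : g * x = c * x * g := by
        rw [hc, commutatorElement_def]
        group
      have e5 : c ^ i * (g * x) = c ^ (i + 1) * x * g := by
        rw [e4, pow_succ]
        group
      rw [e3, pow_succ' g, mul_inv_rev, mul_inv_rev, mul_inv_rev]
      have e6 : (c ^ (i + 1))⁻¹ = x * g * (c ^ i * (g * x))⁻¹ := by
        rw [e5]
        group
      rw [e6]
      group
    rw [e2]
    exact M.mul_mem h1 h2

private theorem gtcHom {Γ : Type*} [Group Γ] {J M : Subgroup Γ} (nJM : Nm J M)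
    (hcm : ∀ x ∈ J, ∀ y ∈ J, ⁅x, y⁆ ∈ M) {g x : Γ} (hx : x ∈ J) (hc : ⁅g, x⁆ ∈ J) :
    ∀ i : ℕ, ⁅g, x ^ i⁆ * (⁅g, x⁆ ^ i)⁻¹ ∈ M
  | 0 => by simp
  | i + 1 => by
    have ih := gtcHom nJM hcm hx hc i
    have h1 := hcm (x ^ i) (J.pow_mem hx _) _ hc
    have h2 : ⁅g, x ^ (i + 1)⁆ * (⁅g, x⁆ ^ (i + 1))⁻¹ =
        (⁅g, x ^ i⁆ * (⁅g, x⁆ ^ i)⁻¹) * (⁅g, x⁆ ^ i * ⁅x ^ i, ⁅g, x⁆⁆ * (⁅g, x⁆ ^ i)⁻¹) := by
      have e1 : ⁅g, x ^ (i + 1)⁆ = ⁅g, x ^ i⁆ * (⁅x ^ i, ⁅g, x⁆⁆ * ⁅g, x⁆) := by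
        simp only [commutatorElement_def, pow_succ]
        group
      rw [e1, pow_succ ⁅g, x⁆]
      group
    rw [h2]
    exact M.mul_mem ih (nJM _ (J.pow_mem hc _) _ h1)

private theorem gtcNil {Γ : Type*} [Group Γ] [Finite Γ] (l : ℕ) [Fact l.Prime] (A K : Subgroup Γ)
    (nK : Nm A K) (h : ∀ g ∈ A, ∃ k : ℕ, g ^ (l ^ k) ∈ K) : nres A ≤ K := by
  have hn : (K.subgroupOf A).Normal := ⟨fun d hd x => by
    rw [Subgroup.mem_subgroupOf] at hd ⊢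
    exact nK x x.2 _ hd⟩
  have hp : IsPGroup l (A ⧸ K.subgroupOf A) := by
    intro q
    obtain ⟨g, rfl⟩ := QuotientGroup.mk_surjective q
    obtain ⟨k, hk⟩ := h g g.2
    refine ⟨k, ?_⟩
    rw [← QuotientGroup.mk_pow, QuotientGroup.eq_one_iff, Subgroup.mem_subgroupOf]
    exact hk
  obtain ⟨c, hc⟩ := gam_of_isNilpotent (⊤ : Subgroup (A ⧸ K.subgroupOf A))
    (IsPGroup.to_subgroup hp ⊤).isNilpotent
  have h1 : nres (⊤ : Subgroup (A ⧸ K.subgroupOf A)) = ⊥ := le_bot_iff.1 (hc ▸ nres_le_gam _ c)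
  have h2 := nres_map (QuotientGroup.mk' (K.subgroupOf A)) ⊤
  rw [Subgroup.map_top_of_surjective _ (QuotientGroup.mk'_surjective _), h1,
    Subgroup.map_eq_bot_iff, QuotientGroup.ker_mk'] at h2
  have h3 := nres_map A.subtype ⊤
  rw [← MonoidHom.range_eq_map, Subgroup.range_subtype] at h3
  rw [← h3, Subgroup.map_le_iff_le_comap]
  exact h2

theorem gtc (l : ℕ) [Fact l.Prime] {Γ : Type*} [Group Γ] [Finite Γ] (hs : Group.IsSolvable Γ)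
    (J M Z0 D : Subgroup Γ) (hM : M ≤ Z0) (hZ : Z0 ≤ J) (nJ : Nm D J) (nM : Nm D M)
    (nZ : Nm D Z0) (nJM : Nm J M) (hc : ∀ x ∈ J, ∀ y ∈ J, ⁅x, y⁆ ∈ M) (hp : ∀ x ∈ J, x ^ l ∈ Z0)
    (hz : ∀ g ∈ D, ∀ z ∈ Z0, ⁅g, z⁆ ∈ M) (S : Set Γ) (hS : Subgroup.closure S = D) (s : ℕ)
    (hg : ∀ g ∈ S, smal M J g (l ^ s)) (C : Subgroup Γ)
    (hC : ∀ g ∈ D, (∀ x ∈ J, ⁅g, x⁆ ∈ M) → g ∈ C) : lns D (cz s) ≤ C := by
  have nJZ : Nm J Z0 := by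
    intro y hy x hx
    have e : y * x * y⁻¹ = ⁅y, x⁆ * x := by rw [commutatorElement_def]; group
    rw [e]
    exact Z0.mul_mem (hM (hc y hy x (hZ hx))) hx
  have h1 := gt l hs D J Z0 hZ nJ nZ hp (fun x hx y hy => hM (hc x hx y hy)) S hS s (by
    intro g hgS
    obtain ⟨C1, hC1, hC1i⟩ := hg g hgS
    obtain ⟨C2, hC2⟩ := exCg (J := J) nJZ g
    refine ⟨C2, hC2, le_trans ?_ hC1i⟩
    have h2 : C1 ≤ C2 := fun x hx => (hC2 x).2 ⟨((hC1 x).1 hx).1, hM ((hC1 x).1 hx).2⟩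
    exact Nat.le_of_dvd (Nat.pos_of_ne_zero Subgroup.index_ne_zero_of_finite)
      (Subgroup.relIndex_dvd_of_le_left J h2))
  obtain ⟨K, hK⟩ := exCc (Y := D) (J := J) nM
  have nK : Nm D K := cc_nm nJ nM hK
  -- elements of order prime to l
  have h2 : ∀ g ∈ dS D (zas (4 * s)), ¬ l ∣ orderOf g → g ∈ K := by
    intro g hg1 hg2
    have hgD : g ∈ D := dS_le _ _ hg1
    refine (hK g).2 ⟨hgD, fun x hx => ?_⟩
    have hcZ : ⁅g, x⁆ ∈ Z0 := h1 g hg1 hg2 x hx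
    have hcJ : ⁅g, x⁆ ∈ J := hZ hcZ
    have h3 := gtcStep nJM (fun m hm => nM g hgD m hm) hcJ rfl (hz g hgD _ hcZ) (orderOf g)
    have h4 : ⁅g, x⁆ ^ (orderOf g) ∈ M := by
      rw [pow_orderOf_eq_one] at h3
      have e : (1 * x * (1 : Γ)⁻¹ * (⁅g, x⁆ ^ orderOf g * x)⁻¹) = (⁅g, x⁆ ^ orderOf g)⁻¹ := by
        group
      rw [e] at h3
      exact (M.inv_mem_iff).1 h3
    have h5 := gtcHom nJM hc hx hcJ l
    have h6 : ⁅g, x⁆ ^ l ∈ M := by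
      have h7 : ⁅g, x ^ l⁆ ∈ M := hz g hgD _ (hp x hx)
      have h8 := M.mul_mem (M.inv_mem h5) h7
      have e : (⁅g, x ^ l⁆ * (⁅g, x⁆ ^ l)⁻¹)⁻¹ * ⁅g, x ^ l⁆ = ⁅g, x⁆ ^ l := by group
      rwa [e] at h8
    have hcop : Nat.Coprime l (orderOf g) :=
      (Nat.Prime.coprime_iff_not_dvd (Fact.out : l.Prime)).2 hg2
    have h9 : ⁅g, x⁆ ^ ((Nat.gcd l (orderOf g) : ℕ) : ℤ) ∈ M := by
      rw [Nat.gcd_eq_gcd_ab, zpow_add, zpow_mul, zpow_mul, zpow_natCast, zpow_natCast]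
      exact M.mul_mem (M.zpow_mem h6 _) (M.zpow_mem h4 _)
    rw [hcop] at h9
    simpa using h9
  have h3 : nres (lns D (zas (4 * s))) ≤ K := by
    refine gtcNil l _ K (nm_mono nK (lns_le _ _)) ?_
    intro g hg
    have ho : orderOf g ≠ 0 := (orderOf_pos g).ne'
    obtain ⟨k, t, ht, hkt⟩ := Nat.exists_eq_pow_mul_and_not_dvd ho l (Fact.out : l.Prime).ne_one
    refine ⟨k, h2 _ ((dS D _).pow_mem (lns_le_dS _ _ hg) _) ?_⟩
    rw [orderOf_pow' _ (pow_ne_zero _ (Fact.out : l.Prime).ne_zero), hkt,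
      Nat.gcd_eq_right (Dvd.intro _ rfl), Nat.mul_div_cancel_left _
      (pow_pos (Fact.out : l.Prime).pos _)]
    exact ht
  intro g hg
  have h4 : g ∈ nres (lns D (zas (4 * s))) := hg
  have h5 := (hK g).1 (h3 h4)
  exact hC g h5.1 h5.2

end H78CY
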