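import Pool.Agent.H78.CY.Dtr
import Pool.Agent.H78.CY.Gtc
import Pool.Agent.H78.CY.Cc

/-!
[H78 CY DXC] The `D`-trick for elements with small commutators (40 min).

PROOF. `Λ = max (Λ of dtr for b') b'`. `G' = PS p G a0`, `l' = l - a0`; note `a0 < l`, so `LH_loc` applies:
`LHyp p n m f l' G' R H`. Let `D = Dc R Y J M (r ^ s)`, `D ≤ R`, `D ≤ Y`. Suppose
`|R| < 2 ^ j |D|`. Let `N = ncl G' D` and `S = {t g t⁻¹ | t ∈ G', g ∈ R, g ∈ Y, smal M J g (r ^ s)}`.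
`closure S = N`: `⊆` clear; `⊇`: for fixed `t ∈ G'` the elements `g` with `t g t⁻¹ ∈ closure S` form a
subgroup containing the generators of `D`. `S ⊆ Y` since `G' ≤ Y`, so `N ≤ Y` and `N` normalises `J`,
`M`, `Z0`, and the elements of `S` are small by `smal_conj` (`Y` normalises `J`, `M`). `gtc` (with
`l := r`, `D := N`) gives `lns N (cz s) ≤ C` (an element `g ∈ N ≤ Y` with `[g, J] ≤ M` is in `C`). `C`
is normalised by `Y` (`cc_nm`), so by `G'` and `D`. `dtr` for `G'`: `PS p G' (l' - b' + cz s) ≤ C`, and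
`PS_PS`: this is `PS p G (a0 + (l - a0 - b' + cz s)) = PS p G (l - b' + cz s)` because
`b' ≤ Λ < l - a0`.
-/

namespace H78CY

open Subgroup H78TP
open scoped commutatorElement

universe u

theorem dxc (p n : ℕ) [Fact p.Prime] (m f : ℕ → ℕ) (j : ℕ) (hQ : QP.{u} p n m f j) (b' s : ℕ) :
    ∃ Λ : ℕ, ∀ (Γ : Type u) [Group Γ] [Finite Γ] (G R H : Subgroup Γ) (l : ℕ),
      LHyp p n m f l G R H → ∀ a0 : ℕ, Λ < l - a0 → ∀ (r : ℕ) (J M Z0 Y : Subgroup Γ), r.Prime →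
      PS p G a0 ≤ Y → Nm Y J → Nm Y M → Nm Y Z0 → M ≤ Z0 → Z0 ≤ J → Nm J M →
      (∀ x ∈ J, ∀ y ∈ J, ⁅x, y⁆ ∈ M) → (∀ x ∈ J, x ^ r ∈ Z0) →
      (∀ g ∈ Y, ∀ z ∈ Z0, ⁅g, z⁆ ∈ M) → ∀ C : Subgroup Γ, IsCc Y J M C →
      2 ^ j * Nat.card (Dc R Y J M (r ^ s)) ≤ Nat.card R ∨ PS p G (l - b' + cz s) ≤ C := by
  obtain ⟨Λ, hΛ⟩ := dtr.{u} p n m f j hQ b'
  refine ⟨max Λ b', ?_⟩
  intro Γ _ _ G R H l h a0 ha0 r J M Z0 Y hr hGY nJ nM nZ hMZ hZJ nJM hc hp hz C hC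
  have hΛ1 : Λ < l - a0 := lt_of_le_of_lt (le_max_left _ _) ha0
  have hb1 : b' < l - a0 := lt_of_le_of_lt (le_max_right _ _) ha0
  have hloc := LH_loc h a0 (by omega)
  by_cases hcard : 2 ^ j * Nat.card (Dc R Y J M (r ^ s)) ≤ Nat.card R
  · exact Or.inl hcard
  right
  obtain ⟨D, hD⟩ : ∃ D, D = Dc R Y J M (r ^ s) := ⟨_, rfl⟩
  rw [← hD] at hcard
  have hDR : D ≤ R := by
    rw [hD]
    exact (Subgroup.closure_le _).2 fun g hg => hg.1
  have hDY : D ≤ Y := by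
    rw [hD]
    exact (Subgroup.closure_le _).2 fun g hg => hg.2.1
  obtain ⟨S, hS⟩ : ∃ S : Set Γ, S = {x | ∃ t ∈ PS p G a0, ∃ g, g ∈ R ∧ g ∈ Y ∧ smal M J g (r ^ s) ∧
    x = t * g * t⁻¹} := ⟨_, rfl⟩
  have hSN : Subgroup.closure S = ncl (PS p G a0) D := by
    apply le_antisymm
    · refine (Subgroup.closure_le _).2 ?_
      rw [hS]
      rintro x ⟨t, ht, g, hgR, hgY, hgs, rfl⟩
      refine Subgroup.subset_closure ⟨t, ht, g, ?_, rfl⟩
      rw [hD]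
      exact Subgroup.subset_closure ⟨hgR, hgY, hgs⟩
    · refine (Subgroup.closure_le _).2 ?_
      rintro x ⟨t, ht, g, hg, rfl⟩
      have h1 : D ≤ (Subgroup.closure S).comap (MulAut.conj t).toMonoidHom := by
        rw [hD]
        refine (Subgroup.closure_le _).2 ?_
        rintro g ⟨hgR, hgY, hgs⟩
        refine Subgroup.subset_closure ?_
        rw [hS]
        exact ⟨t, ht, g, hgR, hgY, hgs, rfl⟩
      exact h1 hg
  have hSY : ∀ x ∈ S, x ∈ Y := by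
    rw [hS]
    rintro x ⟨t, ht, g, hgR, hgY, hgs, rfl⟩
    exact Y.mul_mem (Y.mul_mem (hGY ht) hgY) (Y.inv_mem (hGY ht))
  have hNY : ncl (PS p G a0) D ≤ Y := by
    rw [← hSN]
    exact (Subgroup.closure_le _).2 hSY
  haveI : Fact r.Prime := ⟨hr⟩
  have h1 := gtc r h.sol J M Z0 (ncl (PS p G a0) D) hMZ hZJ (nm_mono nJ hNY) (nm_mono nM hNY)
    (nm_mono nZ hNY) nJM hc hp (fun g hg z hz' => hz g (hNY hg) z hz') S hSN s (by
      rw [hS]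
      rintro x ⟨t, ht, g, hgR, hgY, hgs, rfl⟩
      exact smal_conj nJ nM (hGY ht) hgs) C (fun g hg hx => (hC g).2 ⟨hNY hg, hx⟩)
  have nC : Nm Y C := cc_nm nJ nM hC
  have h2 := hΛ Γ (PS p G a0) R H (l - a0) hloc hΛ1 D hDR (by omega) C (cz s)
    (nm_mono nC hGY) (nm_mono nC hDY) h1
  rw [PS_PS] at h2
  have e : a0 + (l - a0 - b' + cz s) = l - b' + cz s := by omega
  rwa [e] at h2

end H78CY
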