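import Pool.Agent.H78.CY.CenL
import Pool.Agent.H78.CY.PsB

/-!
[H78 CY NTA] Nontrivial action on the factors of the chain (25 min).

PROOF. `ntP`: `cenL` with `l = p`, `Y = N_a`, `X = P_{a+1}` (`NS_dn`, `NS_ndvd`). `ntN`: `cenL` with
`l = r`, `Y = P_a`, `X = N_a`: `P_a` is generated by elements of `p`-power order, which have order
prime to `r` (so `dn r P_a = P_a`), and `[P_a : N_a]` is a power of `p` (`NS_relIndex`). `ntX`: with
`A = lns (NS p G a) c` one has `lns (NS p G a) (c + 1) = nres A = ⁅nres A, A⁆` (`exists_gam_eq`: `nres A =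
gam A k = gam A (k + 1) = ⁅gam A k, A⁆`) and `A ≤ XS p G a c`, `nres A ≤ XS p G a (c + 1)`, so
`nres A ≤ M` (`Subgroup.commutator_le`; `⁅x, y⁆ = ⁅y, x⁆⁻¹`).
`ntY`: `NS p G a` is generated by elements of order prime to `p` and its image in `NS p G a / M` has
exponent dividing a power of `p`: every generator `x` has `x ^ (p ^ k) ∈ M` for some `k` and
`orderOf x` prime to `p`, so `x ∈ M`.
-/

namespace H78CY

open Subgroup H78TP
open scoped commutatorElement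

variable {Γ : Type*} [Group Γ]

theorem ntP (p : ℕ) [Fact p.Prime] [Finite Γ] (G M : Subgroup Γ) (a : ℕ)
    (hM : M ≤ PS p G (a + 1)) (hx : ∀ x ∈ PS p G (a + 1), ∃ k : ℕ, x ^ (p ^ k) ∈ M)
    (hc : ∀ y ∈ NS p G a, ∀ x ∈ PS p G (a + 1), ⁅y, x⁆ ∈ M) : PS p G (a + 1) ≤ M :=
  cenL p (NS p G a) (PS p G (a + 1)) M hM (PS_succ_le_NS G a) (NS_dn G a) (NS_ndvd G a) hx hc

private theorem nta_prime {p r : ℕ} (hp : p.Prime) (hrp : r.Prime) (hr : r ≠ p) (k : ℕ) : ¬ r ∣ p ^ k := by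
  intro h
  exact hr ((Nat.prime_dvd_prime_iff_eq hrp hp).1 (hrp.dvd_of_dvd_pow h))

theorem ntN (p r : ℕ) [Fact p.Prime] [Fact r.Prime] (hr : r ≠ p) [Finite Γ] (G M : Subgroup Γ)
    (a : ℕ) (hM : M ≤ NS p G a) (hx : ∀ x ∈ NS p G a, ∃ k : ℕ, x ^ (r ^ k) ∈ M)
    (hc : ∀ y ∈ PS p G a, ∀ x ∈ NS p G a, ⁅y, x⁆ ∈ M) : NS p G a ≤ M := by
  have hpp : p.Prime := Fact.out
  have hrp : r.Prime := Fact.out
  refine cenL r (PS p G a) (NS p G a) M hM (NS_le_PS G a) ?_ ?_ hx hc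
  · apply le_antisymm (dn_le _)
    calc PS p G a = up p (PS p G a) := (PS_up G a).symm
      _ ≤ dn r (PS p G a) := by
        apply Subgroup.closure_mono
        rintro x ⟨hx1, k, hk⟩
        refine ⟨hx1, fun h => ?_⟩
        exact nta_prime hpp hrp hr k (h.trans (orderOf_dvd_of_pow_eq_one hk))
  · obtain ⟨k, hk⟩ := NS_relIndex (p := p) G a
    rw [hk]
    exact nta_prime hpp hrp hr k

theorem ntX (p : ℕ) [Finite Γ] (G M : Subgroup Γ) (a c : ℕ) (hM : PS p G (a + 1) ≤ M)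
    (hc : ∀ y ∈ XS p G a c, ∀ x ∈ XS p G a (c + 1), ⁅y, x⁆ ∈ M) : XS p G a (c + 1) ≤ M := by
  have h0 : lns (NS p G a) (c + 1) = nres (lns (NS p G a) c) := lns_succ _ _
  have h1 : nres (lns (NS p G a) c) = ⁅nres (lns (NS p G a) c), lns (NS p G a) c⁆ := by
    obtain ⟨k, hk⟩ := exists_gam_eq (lns (NS p G a) c)
    have h2 := hk (k + 1) (Nat.le_succ k)
    rw [gam_succ, hk k le_rfl] at h2
    exact h2.symm
  have h2 : nres (lns (NS p G a) c) ≤ M := by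
    rw [h1, Subgroup.commutator_le]
    intro x hx y hy
    have h3 := hc y (mem_sup_left hy) x (mem_sup_left (by rw [h0]; exact hx))
    rw [← commutatorElement_inv]
    exact M.inv_mem h3
  unfold XS
  rw [h0]
  exact sup_le h2 hM

theorem ntY (p : ℕ) [Fact p.Prime] [Finite Γ] (G M : Subgroup Γ) (a : ℕ)
    (hx : ∀ x ∈ NS p G a, ∃ k : ℕ, x ^ (p ^ k) ∈ M) : NS p G a ≤ M := by
  have hpp : p.Prime := Fact.out
  rw [← NS_dn]
  unfold dn
  rw [closure_le]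
  rintro x ⟨hx1, hxo⟩
  obtain ⟨k, hk⟩ := hx x hx1
  have h1 : Nat.Coprime (orderOf x) (p ^ k) :=
    Nat.Coprime.pow_right k ((Nat.Prime.coprime_iff_not_dvd hpp).2 hxo).symm
  obtain ⟨m, hm⟩ := exists_pow_eq_self_of_coprime h1.symm
  rw [← hm]
  exact M.pow_mem hk m

end H78CY
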