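import Pool.Agent.H78.CY.Def2
import Pool.Agent.H78.CY.NtA
import Pool.Agent.H78.TP.Der

/-!
[H78 CY EXE] Existence of `Z` and `E` (45 min).

PROOFS. `exE`: let `a` be maximal with `¬ dS S a ≤ Z` (exists: `dS S 0 = S`, and `dS S a = ⊥` for large
`a` as `Γ` is soluble; `dS_top_eq`, `dS_mono`). `A = dS S a ⊔ Z` is normal, `⁅A, A⁆ ≤ dS S (a + 1) ⊔ Z = Z`
(elements are products `s z`; or `Subgroup.commutator_le` and `Subgroup.closure_induction`; simplest:
pass to `Γ ⧸ Z`). `A / Z` is a nontrivial finite commutative group; let `r` be a prime divisor of its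
order and `E = {x ∈ A | x ^ r ∈ Z}`: a subgroup since `A / Z` is commutative, normal in `Γ`, not
contained in `Z` by Cauchy's theorem.
`s_ord`: let `S = NS p G (i - 1)`, `q = (PS p G i).relIndex S`, prime to `p` (`NS_ndvd` with `a = i - 1`,
`i = (i - 1) + 1`); `x ^ q ∈ PS p G i` (`PS p G i` is normal in `S`; e.g. `Subgroup.pow_mem_of_relIndex_ne...`
or pass to the quotient), so `τ (x ^ q) = 1`. `(q : k) ≠ 0` by `CharP.cast_eq_zero_iff`.
`exZ`: let `S = NS p G (i - 1)` and `Z = {g ∈ S | ∀ t ∈ T0, τ ⁅g, t⁆ = 1}`; it is a normal subgroup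
(`⁅g h, t⁆ = g ⁅h, t⁆ g⁻¹ ⁅g, t⁆`, and `S`, `T0` are normal; `PS`, `NS` are normal by `PS_nm`, `NS_nm` with
`Y = ⊤`). CLAIM `¬ S ≤ Z`. Suppose `S ≤ Z`. Let `M = {x ∈ S | τ x = 1}`; `PS p G i ≤ M`. For a prime
`r ≠ p` let `M_r = {x ∈ S | ∃ c, ¬ r ∣ c ∧ x ^ c ∈ M}`; since `S ≤ Z` and `S ≤ PS p G (i - 1) ≤ T0`, `S / M`
is commutative, so `M_r` is a subgroup; every `x ∈ S` has `x ^ (r ^ c) ∈ M_r` for some `c` (write
`orderOf x = r ^ c * t`), and for `y ∈ PS p G (i - 1) ≤ T0`: `⁅y, x⁆ = ⁅x, y⁆⁻¹ ∈ M`. `ntN` with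
`a = i - 1` gives `S ≤ M_r`. So for `x ∈ S` the order of `x` modulo `M` is prime to every `r ≠ p`, and
prime to `p` by `s_ord`; so `x ∈ M`. Hence `S` acts trivially and `u` is fixed by `S`:
`h.nofix` gives `u = 0`, contradiction. Now `exE` gives `r`, `E`. `r ≠ p`: otherwise for `x ∈ E`:
`x ^ p ∈ Z` and `x ^ q ∈ PS p G i ≤ Z` with `q` prime to `p`, so `x ∈ Z`, `E ≤ Z`.
-/

namespace H78CY

open Subgroup H78TP
open scoped commutatorElement

variable {k Γ U : Type*} [Field k] [Group Γ] [AddCommGroup U] [Module k U]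


private theorem exe_first {P : ℕ → Prop} (h0 : P 0) (k : ℕ) (hk : ¬ P k) : ∃ c, P c ∧ ¬ P (c + 1) := by
  induction k with
  | zero => exact absurd h0 hk
  | succ k ih =>
    by_cases h : P k
    · exact ⟨k, h, hk⟩
    · exact ih h

theorem exE {Γ : Type*} [Group Γ] [Finite Γ] (hs : Group.IsSolvable Γ) (S Z : Subgroup Γ)
    (nS : S.Normal) (nZ : Z.Normal) (hZS : Z ≤ S) (hne : ¬ S ≤ Z) :
    ∃ (r : ℕ) (E : Subgroup Γ), r.Prime ∧ E.Normal ∧ Z ≤ E ∧ ¬ E ≤ Z ∧ E ≤ S ∧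
      (∀ x ∈ E, x ^ r ∈ Z) ∧ ∀ x ∈ E, ∀ y ∈ E, ⁅x, y⁆ ∈ Z := by
  have hbot : dS S (Nat.card S) = ⊥ := der S inferInstance _ le_rfl
  obtain ⟨a, ha1, ha2⟩ := exe_first (P := fun a => ¬ dS S a ≤ Z) hne (Nat.card S) (by
    rw [hbot]
    intro h
    exact h bot_le)
  have ha2' : dS S (a + 1) ≤ Z := not_not.1 ha2
  obtain ⟨A, hA⟩ : ∃ A : Subgroup Γ, A = dS S a ⊔ Z := ⟨_, rfl⟩
  have nD : (dS S a).Normal := dS_normal nS a
  have nA : A.Normal := by rw [hA]; exact Subgroup.sup_normal _ _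
  have hAS : A ≤ S := by rw [hA]; exact sup_le (dS_le S a) hZS
  have hZA : Z ≤ A := by rw [hA]; exact le_sup_right
  have hAZ : ¬ A ≤ Z := fun h => ha1 (by rw [hA] at h; exact le_sup_left.trans h)
  have hmk : ∀ x : Γ, QuotientGroup.mk' Z x = 1 ↔ x ∈ Z := fun x => by
    rw [QuotientGroup.mk'_apply, QuotientGroup.eq_one_iff]
  have hcomm : ∀ x ∈ A, ∀ y ∈ A, ⁅x, y⁆ ∈ Z := by
    intro x hx y hy
    rw [hA, Subgroup.mem_sup_of_normal_right] at hx hy
    obtain ⟨s, hs, z, hz, rfl⟩ := hx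
    obtain ⟨s', hs', z', hz', rfl⟩ := hy
    rw [← hmk, map_commutatorElement, map_mul, map_mul, (hmk z).2 hz, (hmk z').2 hz', mul_one, mul_one,
      ← map_commutatorElement, hmk]
    exact ha2' (Subgroup.commutator_mem_commutator hs hs')
  have hcm : ∀ x ∈ A, ∀ y ∈ A, Commute (QuotientGroup.mk' Z x) (QuotientGroup.mk' Z y) := by
    intro x hx y hy
    rw [← commutatorElement_eq_one_iff_commute, ← map_commutatorElement, hmk]
    exact hcomm x hx y hy
  -- a prime divisor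
  have hcard : Nat.card (A.map (QuotientGroup.mk' Z)) ≠ 1 := by
    intro h
    apply hAZ
    intro x hx
    have h1 : A.map (QuotientGroup.mk' Z) = ⊥ := Subgroup.card_eq_one.1 h
    have h2 : QuotientGroup.mk' Z x ∈ A.map (QuotientGroup.mk' Z) := ⟨x, hx, rfl⟩
    rw [h1, mem_bot, hmk] at h2
    exact h2
  obtain ⟨r, hr, hrd⟩ := Nat.exists_prime_and_dvd hcard
  have : Fact r.Prime := ⟨hr⟩
  obtain ⟨q, hq⟩ := exists_prime_orderOf_dvd_card' r hrd
  obtain ⟨x0, hx0, hx0q⟩ := q.2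
  have hpow : ∀ x y : Γ, x ∈ A → y ∈ A → x ^ r ∈ Z → y ^ r ∈ Z → (x * y) ^ r ∈ Z := by
    intro x y hx hy hxr hyr
    rw [← hmk, map_pow, map_mul, (hcm x hx y hy).mul_pow, ← map_pow, ← map_pow, (hmk _).2 hxr, (hmk _).2 hyr, mul_one]
  let E : Subgroup Γ :=
    { carrier := {x | x ∈ A ∧ x ^ r ∈ Z}
      one_mem' := ⟨A.one_mem, by rw [one_pow]; exact Z.one_mem⟩
      mul_mem' := by
        rintro x y ⟨hx, hx'⟩ ⟨hy, hy'⟩
        exact ⟨A.mul_mem hx hy, hpow x y hx hy hx' hy'⟩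
      inv_mem' := by
        rintro x ⟨hx, hx'⟩
        exact ⟨A.inv_mem hx, by rw [inv_pow]; exact Z.inv_mem hx'⟩ }
  have hE : ∀ x, x ∈ E ↔ x ∈ A ∧ x ^ r ∈ Z := fun x => Iff.rfl
  refine ⟨r, E, hr, ⟨?_⟩, ?_, ?_, ?_, ?_, ?_⟩
  · intro x hx g
    obtain ⟨h1, h2⟩ := (hE x).1 hx
    refine (hE _).2 ⟨nA.conj_mem x h1 g, ?_⟩
    rw [conj_pow]
    exact nZ.conj_mem _ h2 g
  · intro x hx
    exact (hE x).2 ⟨hZA hx, Z.pow_mem hx r⟩
  · intro h
    have h1 : x0 ∈ E := by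
      refine (hE x0).2 ⟨hx0, ?_⟩
      rw [← hmk, map_pow, hx0q, ← Subgroup.coe_pow, ← hq, pow_orderOf_eq_one, Subgroup.coe_one]
    have h2 := (hmk x0).2 (h h1)
    have h3 : q = 1 := by
      apply Subtype.ext
      rw [← hx0q, h2, Subgroup.coe_one]
    rw [h3, orderOf_one] at hq
    exact hr.one_lt.ne hq
  · intro x hx
    exact hAS ((hE x).1 hx).1
  · intro x hx
    exact ((hE x).1 hx).2
  · intro x hx y hy
    exact hcomm x ((hE x).1 hx).1 y ((hE y).1 hy).1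

private theorem exe_PSn {Γ : Type*} [Group Γ] {G : Subgroup Γ} (nG : G.Normal) (p i : ℕ) : (PS p G i).Normal := by
  have h1 : Nm (⊤ : Subgroup Γ) (PS p G i) := PS_nm (nm_of_normal nG ⊤) i
  exact ⟨fun x hx g => h1 g (mem_top g) x hx⟩

private theorem exe_NSn {Γ : Type*} [Group Γ] {G : Subgroup Γ} (nG : G.Normal) (p i : ℕ) : (NS p G i).Normal := by
  have h1 : Nm (⊤ : Subgroup Γ) (NS p G i) := NS_nm (nm_of_normal nG ⊤) i
  exact ⟨fun x hx g => h1 g (mem_top g) x hx⟩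

theorem s_ord (p : ℕ) [Fact p.Prime] [CharP k p] [Finite Γ] {τ : Representation k Γ U}
    {G : Subgroup Γ} {i : ℕ} (h : UHyp p τ G i) {x : Γ} (hx : x ∈ NS p G (i - 1)) :
    ∃ q : ℕ, (q : k) ≠ 0 ∧ ¬ p ∣ q ∧ x ^ q ∈ PS p G i ∧ τ (x ^ q) = 1 := by
  have hi : i - 1 + 1 = i := by
    have := h.i1
    omega
  have hn := NS_ndvd (p := p) G (i - 1)
  rw [hi] at hn
  have nP : (PS p G i).Normal := exe_PSn h.nG p i
  have h1 : x ^ ((PS p G i).relIndex (NS p G (i - 1))) ∈ PS p G i := Subgroup.pow_relIndex_mem _ hx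
  refine ⟨(PS p G i).relIndex (NS p G (i - 1)), ?_, hn, h1, h.triv _ h1⟩
  intro h0
  exact hn ((CharP.cast_eq_zero_iff k p _).1 h0)

private theorem exe_cop {Γ : Type*} [Group Γ] (Z : Subgroup Γ) (x : Γ) (a b : ℕ) (hab : Nat.Coprime a b)
    (h1 : x ^ a ∈ Z) (h2 : x ^ b ∈ Z) : x ∈ Z := by
  have h4 : (x ^ ((a : ℕ) : ℤ)) ∈ Z := by rw [zpow_natCast]; exact h1
  have h5 : (x ^ ((b : ℕ) : ℤ)) ∈ Z := by rw [zpow_natCast]; exact h2
  have h6 : x = (x ^ ((a : ℕ) : ℤ)) ^ (a.gcdA b) * (x ^ ((b : ℕ) : ℤ)) ^ (a.gcdB b) := by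
    rw [← zpow_mul, ← zpow_mul, ← zpow_add, ← Nat.gcd_eq_gcd_ab, hab.gcd_eq_one]
    simp
  rw [h6]
  exact Z.mul_mem (Z.zpow_mem h4 _) (Z.zpow_mem h5 _)

theorem exZ (p : ℕ) [Fact p.Prime] [CharP k p] [Finite Γ] {τ : Representation k Γ U}
    {G : Subgroup Γ} {i : ℕ} (h : UHyp p τ G i) (u : U) (hu : u ≠ 0) (T0 : Subgroup Γ)
    (nT : T0.Normal) (hT : PS p G (i - 1) ≤ T0) :
    ∃ (r : ℕ) (Z E : Subgroup Γ), ZHyp p r τ G i T0 Z E := by
  have hpp : p.Prime := Fact.out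
  have hi : i - 1 + 1 = i := by
    have := h.i1
    omega
  obtain ⟨S, hS⟩ : ∃ S, S = NS p G (i - 1) := ⟨_, rfl⟩
  have nS : S.Normal := by rw [hS]; exact exe_NSn h.nG p (i - 1)
  have hST : S ≤ T0 := by rw [hS]; exact (NS_le_PS G (i - 1)).trans hT
  have hinv : ∀ g, τ g = 1 → τ g⁻¹ = 1 := by
    intro g hg
    have h1 : τ (g * g⁻¹) = 1 := by rw [mul_inv_cancel, map_one]
    rw [map_mul, hg, one_mul] at h1
    exact h1
  have hconj : ∀ g x, τ x = 1 → τ (g * x * g⁻¹) = 1 := by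
    intro g x hx
    rw [map_mul, map_mul, hx, mul_one, ← map_mul, mul_inv_cancel, map_one]
  let Z : Subgroup Γ :=
    { carrier := {g | g ∈ S ∧ ∀ t ∈ T0, τ ⁅g, t⁆ = 1}
      one_mem' := ⟨S.one_mem, fun t _ => by rw [commutatorElement_one_left, map_one]⟩
      mul_mem' := by
        rintro a b ⟨ha, ha'⟩ ⟨hb, hb'⟩
        refine ⟨S.mul_mem ha hb, fun x hx => ?_⟩
        have e : ⁅a * b, x⁆ = (a * ⁅b, x⁆ * a⁻¹) * ⁅a, x⁆ := by
          rw [commutatorElement_def, commutatorElement_def, commutatorElement_def]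
          group
        rw [e, map_mul, ha' x hx, hconj _ _ (hb' x hx), mul_one]
      inv_mem' := by
        rintro a ⟨ha, ha'⟩
        refine ⟨S.inv_mem ha, fun x hx => ?_⟩
        have e : ⁅a⁻¹, x⁆ = a⁻¹ * ⁅a, x⁆⁻¹ * a⁻¹⁻¹ := by
          rw [commutatorElement_def, commutatorElement_def]
          group
        rw [e]
        exact hconj _ _ (hinv _ (ha' x hx)) }
  have hZ : ∀ g, g ∈ Z ↔ g ∈ S ∧ ∀ t ∈ T0, τ ⁅g, t⁆ = 1 := fun g => Iff.rfl
  have hZS : Z ≤ S := fun g hg => ((hZ g).1 hg).1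
  have nZ : Z.Normal := by
    refine ⟨fun x hx g => ?_⟩
    obtain ⟨h1, h2⟩ := (hZ x).1 hx
    refine (hZ _).2 ⟨nS.conj_mem x h1 g, fun t ht => ?_⟩
    have e : ⁅g * x * g⁻¹, t⁆ = g * ⁅x, g⁻¹ * t * g⁆ * g⁻¹ := by
      rw [commutatorElement_def, commutatorElement_def]
      group
    rw [e]
    apply hconj
    apply h2
    have h3 := nT.conj_mem t ht g⁻¹
    rw [inv_inv] at h3
    exact h3
  have hclaim : ¬ S ≤ Z := by
    intro hSZ
    have hcm : ∀ x ∈ S, ∀ y ∈ T0, Commute (τ x) (τ y) := by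
      intro x hx y hy
      have h1 := ((hZ x).1 (hSZ hx)).2 y hy
      have h2 : x * y = ⁅x, y⁆ * (y * x) := by
        rw [commutatorElement_def]
        group
      show τ x * τ y = τ y * τ x
      rw [← map_mul, h2, map_mul, h1, one_mul, map_mul]
    have htriv : ∀ x ∈ S, τ x = 1 := by
      intro x hx
      rw [← orderOf_eq_one_iff]
      by_contra hd
      obtain ⟨r, hr, hrd⟩ := Nat.exists_prime_and_dvd hd
      by_cases hrp : r = p
      · obtain ⟨q, -, hq2, -, hq4⟩ := s_ord p h (by rw [← hS]; exact hx)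
        rw [map_pow] at hq4
        apply hq2
        rw [← hrp]
        exact hrd.trans (orderOf_dvd_of_pow_eq_one hq4)
      · have : Fact r.Prime := ⟨hr⟩
        let Mr : Subgroup Γ :=
          { carrier := {x | x ∈ S ∧ ∃ c, ¬ r ∣ c ∧ τ x ^ c = 1}
            one_mem' := ⟨S.one_mem, 1, by
              intro h1
              exact hr.one_lt.ne' (Nat.dvd_one.1 h1), by rw [map_one, one_pow]⟩
            mul_mem' := by
              rintro a b ⟨ha, c, hc, hca⟩ ⟨hb, d, hd', hdb⟩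
              refine ⟨S.mul_mem ha hb, c * d, ?_, ?_⟩
              · intro h1
                rcases (Nat.Prime.dvd_mul hr).1 h1 with h1 | h1
                · exact hc h1
                · exact hd' h1
              · rw [map_mul, (hcm a ha b (hST hb)).mul_pow, pow_mul, hca, one_pow, one_mul, mul_comm c d, pow_mul,
                  hdb, one_pow]
            inv_mem' := by
              rintro a ⟨ha, c, hc, hca⟩
              refine ⟨S.inv_mem ha, c, hc, ?_⟩
              rw [← map_pow, inv_pow]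
              apply hinv
              rw [map_pow]
              exact hca }
        have hMr : ∀ x, x ∈ Mr ↔ x ∈ S ∧ ∃ c, ¬ r ∣ c ∧ τ x ^ c = 1 := fun x => Iff.rfl
        have h1 := ntN p r hrp G Mr (i - 1) (by
          rw [← hS]
          intro y hy
          exact ((hMr y).1 hy).1) (by
          rw [← hS]
          intro y hy
          obtain ⟨c, t, ht, ho⟩ := Nat.exists_eq_pow_mul_and_not_dvd (orderOf_pos y).ne' r hr.ne_one
          refine ⟨c, (hMr _).2 ⟨S.pow_mem hy _, t, ht, ?_⟩⟩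
          rw [← map_pow, ← pow_mul, ← ho, pow_orderOf_eq_one, map_one]) (by
          rw [← hS]
          intro y hy z hz
          have hyT : y ∈ T0 := hT hy
          refine (hMr _).2 ⟨?_, 1, ?_, ?_⟩
          · rw [commutatorElement_def]
            exact S.mul_mem (nS.conj_mem z hz y) (S.inv_mem hz)
          · intro h1
            exact hr.one_lt.ne' (Nat.dvd_one.1 h1)
          · rw [pow_one, ← commutatorElement_inv]
            apply hinv
            exact ((hZ z).1 (hSZ hz)).2 y hyT)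
        rw [← hS] at h1
        obtain ⟨-, c, hc, hcx⟩ := (hMr x).1 (h1 hx)
        exact hc (hrd.trans (orderOf_dvd_of_pow_eq_one hcx))
    apply hu
    apply h.nofix
    intro g hg
    rw [← hS] at hg
    rw [htriv g hg, Module.End.one_apply]
  obtain ⟨r, E, hr, nE, hZE, hEZ, hES, hpow, hcom⟩ := exE h.sol S Z nS nZ hZS hclaim
  have hPZ : PS p G i ≤ Z := by
    intro g hg
    refine (hZ g).2 ⟨?_, fun t _ => ?_⟩
    · rw [hS]
      have := PS_succ_le_NS (p := p) G (i - 1)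
      rw [hi] at this
      exact this hg
    · have h1 : τ g = 1 := h.triv g hg
      have e : ⁅g, t⁆ = g * (t * g⁻¹ * t⁻¹) := by
        rw [commutatorElement_def]
        group
      rw [e, map_mul, h1, one_mul]
      exact hconj _ _ (hinv g h1)
  refine ⟨r, Z, E, ?_⟩
  refine { un := h
           nT := nT
           PT := hT
           hZ := fun g => by rw [hZ, hS]
           nE := nE
           ZE := hZE
           EZ := hEZ
           ES := by rw [← hS]; exact hES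
           hr := hr
           hrp := ?_
           pow := hpow
           com := hcom }
  intro hrp
  apply hEZ
  intro x hx
  obtain ⟨q, -, hq2, hq3, -⟩ := s_ord p h (by rw [← hS]; exact hES hx)
  refine exe_cop Z x p q ((Nat.Prime.coprime_iff_not_dvd hpp).2 hq2) ?_ (hPZ hq3)
  rw [← hrp]
  exact hpow x hx

end H78CY
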