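import Pool.Agent.H78.CY.WfB

/-!
[H78 CY EXW] Existence of a component with a nonzero projection of `u` (30 min).

PROOF. `wt_ex` for `T = Z`, `V = ⊤` (`z_comm`, `z_ord` with `Z ≤ E`) and `u` gives `lam`, `a`, `a'`. Let
`V = WS τ Z ⊤ lam` and `D` from `exD`. `wt_ex` for `T = D`, this `V` and the vector `a` gives `mu`, `w`,
`w'`; the hypotheses (`D` preserves `V`, commutes on `V`) are proved as in `dV`, `d_comm` of `WfB.lean`
(there a weight `mu` is given, so either repeat the two lines or first note `WHyp`-free versions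
privately).
-/

namespace H78CY

open Subgroup H78TP
open scoped commutatorElement

variable {k Γ U : Type*} [Field k] [Group Γ] [AddCommGroup U] [Module k U]


theorem exW (p r : ℕ) [Fact p.Prime] [CharP k p] [IsAlgClosed k] [Finite Γ] [Module.Finite k U]
    {τ : Representation k Γ U} {G : Subgroup Γ} {i : ℕ} {T0 Z E : Subgroup Γ}
    (h : ZHyp p r τ G i T0 Z E) (u : U) (hu : u ≠ 0) :
    ∃ (lam mu : Γ → k) (D : Subgroup Γ) (V W : Submodule k U) (a a' w w' : U),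
      WHyp p r τ G i T0 Z E lam mu D V W ∧ u = a + a' ∧ a ∈ V ∧ a' ∈ WC τ Z ⊤ lam ∧
      a = w + w' ∧ w ∈ W ∧ w' ∈ WC τ D V mu ∧ a ≠ 0 ∧ w ≠ 0 := by
  have hordE : ∀ x ∈ E, ∃ q : ℕ, (q : k) ≠ 0 ∧ ∀ v : U, τ (x ^ q) v = v := by
    intro x hx
    obtain ⟨q, h1, h2⟩ := z_ord h x hx
    exact ⟨q, h1, fun v => by rw [h2, Module.End.one_apply]⟩
  obtain ⟨lam, hl, a, ha, a', ha', hua, ha0⟩ := wt_ex τ Z ⊤ (fun _ _ _ _ => Submodule.mem_top)
    (fun s hs t ht v _ => z_comm h s hs t ht v)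
    (fun t ht => by
      obtain ⟨q, h1, h2⟩ := hordE t (h.ZE ht)
      exact ⟨q, h1, fun v _ => h2 v⟩) (Submodule.mem_top : u ∈ (⊤ : Submodule k U)) hu
  obtain ⟨D, hD⟩ := exD h hl
  have hDE : ∀ d ∈ D, d ∈ E := fun d hd => ((hD d).1 hd).1
  have hinv : ∀ d ∈ D, ∀ v ∈ WS τ Z ⊤ lam, τ d v ∈ WS τ Z ⊤ lam := by
    intro d hd v hv
    exact (EV h hl (hDE d hd) v).2 hv
  have hcomm : ∀ d ∈ D, ∀ d' ∈ D, ∀ v ∈ WS τ Z ⊤ lam, τ d (τ d' v) = τ d' (τ d v) := by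
    intro d hd d' hd' v hv
    have h1 : ⁅d, d'⁆ ∈ Z := h.com d (hDE d hd) d' (hDE d' hd')
    have h2 : lam ⁅d, d'⁆ = 1 := ((hD d).1 hd).2 d' (hDE d' hd')
    have e : d * d' = ⁅d, d'⁆ * (d' * d) := by
      rw [commutatorElement_def]
      group
    have h3 : τ (d' * d) v ∈ WS τ Z ⊤ lam := by
      rw [map_mul, Module.End.mul_apply]
      exact hinv d' hd' _ (hinv d hd v hv)
    rw [← Module.End.mul_apply, ← map_mul, e, map_mul, Module.End.mul_apply, h3.2 _ h1, h2,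
      one_smul, map_mul, Module.End.mul_apply]
  obtain ⟨mu, hm, w, hw, w', hw', haw, hw0⟩ := wt_ex τ D (WS τ Z ⊤ lam) hinv hcomm
    (fun t ht => by
      obtain ⟨q, h1, h2⟩ := hordE t (hDE t ht)
      exact ⟨q, h1, fun v _ => h2 v⟩) ha ha0
  exact ⟨lam, mu, D, WS τ Z ⊤ lam, WS τ D (WS τ Z ⊤ lam) mu, a, a', w, w',
    { z := h, hl := hl, hV := rfl, hD := hD, hm := hm, hW := rfl }, hua, ha, ha', haw, hw, hw', ha0, hw0⟩

end H78CY
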