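import Pool.Agent.H78.CY.Ka

/-!
[H78 CY F2C] Elements outside `DK` act with small centraliser on `E2 / E4` (30 min).

PROOF. `Ce = {e ∈ E | ⁅g, e⁆ ∈ D}` is a subgroup (`E` normalises `D`; `⁅g, e e'⁆ = ⁅g, e⁆ e ⁅g, e'⁆ e⁻¹`) and
`¬ smal` says `r ^ (2 s + 64 n²) < Ce.relIndex E`. On `C` the map `e ↦ ⁅g, e⁆ D` is a homomorphism to
`E4 / D` (`E / D` is commutative) with kernel `C ⊓ Ce = E2 ⊓ Ce` (as `D ≤ E4`), so
`(E2 ⊓ Ce).relIndex C ≤ D.relIndex E4 ≤ r ^ s`. Then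
`Ce.relIndex E ≤ (E2 ⊓ Ce).relIndex E = E2.relIndex E * C.relIndex E2 * (E2 ⊓ Ce).relIndex C ≤
r ^ (2 s) * C.relIndex E2`. Hence `r ^ (64 n²) < C.relIndex E2`, and `4 n² ≤ 2 ^ (64 n²) ≤ r ^ (64 n²)`.
-/

namespace H78CY

open Subgroup H78TP
open scoped commutatorElement

variable {k Γ U : Type*} [Field k] [Group Γ] [AddCommGroup U] [Module k U]


theorem f2c [Finite Γ] {r : ℕ} {σ : Representation k Γ U} {E D : Subgroup Γ}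
    (h : KHyp r σ E D) (E2 E4 : Subgroup Γ) (h24 : E4 ≤ E2) (h2 : E2 ≤ E) (hD : D ≤ E4)
    (s n : ℕ) (b1 : E2.relIndex E ≤ r ^ s) (b2 : D.relIndex E4 ≤ r ^ s) (g : Γ)
    (hg : ¬ smal D E g (r ^ (2 * s + 64 * n ^ 2))) (C : Subgroup Γ)
    (hC : ∀ e, e ∈ C ↔ e ∈ E2 ∧ ⁅g, e⁆ ∈ E4) : 4 * n ^ 2 ≤ C.relIndex E2 := by
  have hmul : ∀ a b : Γ, ⁅g, a * b⁆ = ⁅g, a⁆ * (a * ⁅g, b⁆ * a⁻¹) := by
    intro a b
    simp only [commutatorElement_def]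
    group
  have hinv : ∀ a : Γ, ⁅g, a⁻¹⁆ = a⁻¹ * ⁅g, a⁆⁻¹ * a⁻¹⁻¹ := by
    intro a
    simp only [commutatorElement_def]
    group
  obtain ⟨Ce, hCe⟩ : ∃ Ce : Subgroup Γ, ∀ e, e ∈ Ce ↔ e ∈ E ∧ ⁅g, e⁆ ∈ D := by
    refine ⟨{ carrier := {e | e ∈ E ∧ ⁅g, e⁆ ∈ D}
              one_mem' := ⟨E.one_mem, by rw [commutatorElement_one_right]; exact D.one_mem⟩
              mul_mem' := ?_
              inv_mem' := ?_ }, fun e => Iff.rfl⟩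
    · rintro a b ⟨ha, ha'⟩ ⟨hb, hb'⟩
      refine ⟨E.mul_mem ha hb, ?_⟩
      rw [hmul]
      exact D.mul_mem ha' (h.nD.conj_mem _ hb' a)
    · rintro a ⟨ha, ha'⟩
      refine ⟨E.inv_mem ha, ?_⟩
      rw [hinv]
      exact h.nD.conj_mem _ (D.inv_mem ha') a⁻¹
  have h1 : r ^ (2 * s + 64 * n ^ 2) < Ce.relIndex E := by
    by_contra hlt
    exact hg ⟨Ce, hCe, not_lt.mp hlt⟩
  have hsub : E2 ⊓ Ce ≤ C := by
    intro e he
    obtain ⟨he1, he2⟩ := Subgroup.mem_inf.mp he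
    exact (hC e).2 ⟨he1, hD ((hCe e).1 he2).2⟩
  have hCE2 : C ≤ E2 := fun e he => ((hC e).1 he).1
  have h3 : (E2 ⊓ Ce).relIndex C ≤ D.relIndex E4 := by
    change Nat.card (C ⧸ (E2 ⊓ Ce).subgroupOf C) ≤ Nat.card (E4 ⧸ D.subgroupOf E4)
    refine Nat.card_le_card_of_injective
      (fun q => QuotientGroup.mk (⟨⁅g, ((Quotient.out q : C) : Γ)⁆,
        ((hC _).1 (Quotient.out q : C).2).2⟩ : E4)) ?_
    intro q₁ q₂ hq
    have hq' := QuotientGroup.eq.1 hq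
    rw [Subgroup.mem_subgroupOf] at hq'
    rw [← Quotient.out_eq q₁, ← Quotient.out_eq q₂]
    refine QuotientGroup.eq.2 ?_
    rw [Subgroup.mem_subgroupOf]
    set b₁ : C := Quotient.out q₁
    set b₂ : C := Quotient.out q₂
    have k1 := hCE2 b₁.2
    have k2 := hCE2 b₂.2
    have k3 : b₁.1⁻¹ * b₂.1 ∈ E2 := E2.mul_mem (E2.inv_mem k1) k2
    refine Subgroup.mem_inf.mpr ⟨k3, (hCe _).2 ⟨h2 k3, ?_⟩⟩
    have e1 : ⁅g, ((b₁⁻¹ * b₂ : C) : Γ)⁆ =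
        b₁.1⁻¹ * (⁅g, b₁.1⁆⁻¹ * ⁅g, b₂.1⁆) * b₁.1⁻¹⁻¹ := by
      rw [Subgroup.coe_mul, Subgroup.coe_inv, hmul, hinv]
      group
    rw [e1]
    exact h.nD.conj_mem _ hq' _
  have h4 : Ce.relIndex E ≤ (E2 ⊓ Ce).relIndex E :=
    Subgroup.relIndex_le_of_le_left inf_le_right (Subgroup.index_ne_zero_of_finite)
  have h5 : (E2 ⊓ Ce).relIndex E = (E2 ⊓ Ce).relIndex C * C.relIndex E2 * E2.relIndex E := by
    rw [Subgroup.relIndex_mul_relIndex _ _ _ hsub hCE2,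
      Subgroup.relIndex_mul_relIndex _ _ _ (hsub.trans hCE2) h2]
  have h6 : (E2 ⊓ Ce).relIndex E ≤ r ^ s * C.relIndex E2 * r ^ s := by
    rw [h5]
    exact Nat.mul_le_mul (Nat.mul_le_mul_right _ (h3.trans b2)) b1
  have h7 : r ^ (2 * s) * r ^ (64 * n ^ 2) < r ^ (2 * s) * C.relIndex E2 := by
    rw [← pow_add]
    calc _ < Ce.relIndex E := h1
      _ ≤ (E2 ⊓ Ce).relIndex E := h4
      _ ≤ r ^ s * C.relIndex E2 * r ^ s := h6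
      _ = r ^ (2 * s) * C.relIndex E2 := by
          rw [two_mul, pow_add]
          ring
  have h8 : r ^ (64 * n ^ 2) < C.relIndex E2 := lt_of_mul_lt_mul_left h7 (Nat.zero_le _)
  calc 4 * n ^ 2 ≤ 64 * n ^ 2 := by omega
    _ ≤ 2 ^ (64 * n ^ 2) := Nat.lt_two_pow_self.le
    _ ≤ r ^ (64 * n ^ 2) := Nat.pow_le_pow_left h.hr.two_le _
    _ ≤ C.relIndex E2 := h8.le

end H78CY
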