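import Pool.Agent.H78.CY.F2d
import Pool.Agent.H78.CY.F2c

/-!
(F2) of step F (helper78): assembly. A vector fixed by `DK` is zero.
-/

namespace H78CY

open Subgroup H78TP
open scoped commutatorElement

theorem f2 {k Γ U : Type*} [Field k] [Group Γ] [AddCommGroup U] [Module k U] [IsAlgClosed k]
    [Finite Γ] [Module.Finite k U] {r : ℕ} {σ : Representation k Γ U} {E D : Subgroup Γ}
    (h : KHyp r σ E D) (K DK : Subgroup Γ) (n m d : ℕ) (hK : Nat.card K ≤ n)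
    (hK0 : (Nat.card K : k) ≠ 0) (hm : Module.finrank k (Fx σ K) ≤ m) (hDK : DK ≤ K)
    (nDK : Nm K DK) (hsm : Subgroup.closure {g | g ∈ DK ∧ smal D E g (r ^ d)} = DK)
    (hbig : ∀ g ∈ K, g ∉ DK → ¬ smal D E g (r ^ (2 * n * d + 2 * n + 64 * n ^ 2)))
    (hQ : r ^ (2 * n * d + 2 * n + 16 * n ^ 2 * m ^ 2) < D.relIndex E) (v : U)
    (hv : ∀ g ∈ DK, σ g v = v) : v = 0 := by
  by_contra hv0
  haveI : Nontrivial U := ⟨v, 0, hv0⟩
  obtain ⟨E2, hE2, nE2⟩ := exE2 h K DK nDK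
  obtain ⟨E4, hE4, nE4⟩ := exE4 h K E2 nE2
  have h2E : E2 ≤ E := fun e he => ((hE2 e).1 he).1
  have h42 : E4 ≤ E2 := fun e he => ((hE4 e).1 he).1
  have hDKn : Nat.card DK ≤ n := le_trans (Subgroup.card_le_of_le hDK) hK
  obtain ⟨a1, a2⟩ := f2a h DK E2 n d hDKn hsm hE2
  obtain ⟨a3, a4⟩ := f2b h E2 E4 a1 h2E hE4
  have a5 : D.relIndex E4 ≤ r ^ (n * d + n) := a4.trans a2
  have a6 := f2d h K DK E2 E4 n m hK hK0 hm hDK nDK hE2 nE2 hE4 nE4 (fun g hg hgD C hC =>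
    f2c h E2 E4 h42 h2E a3 (n * d + n) n a2 a5 g
      (by
        have e := hbig g hg hgD
        have e1 : 2 * (n * d + n) + 64 * n ^ 2 = 2 * n * d + 2 * n + 64 * n ^ 2 := by ring
        rwa [e1]) C hC) v hv0 hv
  have b1 : D.relIndex E = D.relIndex E4 * (E4.relIndex E2 * E2.relIndex E) := by
    rw [Subgroup.relIndex_mul_relIndex E4 E2 E h42 h2E,
      Subgroup.relIndex_mul_relIndex D E4 E a3 (h42.trans h2E)]
  have hr : 2 ≤ r := h.hr.two_le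
  have b2 : 16 * n ^ 2 * m ^ 2 ≤ r ^ (16 * n ^ 2 * m ^ 2) := by
    calc 16 * n ^ 2 * m ^ 2 ≤ 2 ^ (16 * n ^ 2 * m ^ 2) := Nat.lt_two_pow_self.le
      _ ≤ _ := Nat.pow_le_pow_left hr _
  have b3 : D.relIndex E ≤ r ^ (2 * n * d + 2 * n + 16 * n ^ 2 * m ^ 2) := by
    rw [b1]
    calc D.relIndex E4 * (E4.relIndex E2 * E2.relIndex E)
        ≤ r ^ (n * d + n) * (r ^ (16 * n ^ 2 * m ^ 2) * r ^ (n * d + n)) :=
          Nat.mul_le_mul a5 (Nat.mul_le_mul (a6.trans b2) a2)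
      _ = _ := by
          rw [← pow_add, ← pow_add]
          congr 1
          ring
  omega

end H78CY
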