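import Pool.Agent.H78.CY.Ka

/-!
[H78 CY F2A] The subgroups `E2` and `E4` (50 min).

PROOFS. `exE2`: `σ ⁅g, e⁆ = 1` iff `σ g` and `σ e` commute; these `e ∈ E` form a subgroup; it is
normalised by `K` because `K` normalises `DK` and `E` is normal. `exE4` in the same way.
`f2a`: `D ≤ E2` because `σ d` is a scalar. INDEX: let `S = {g ∈ DK | smal D E g (r ^ d)}`; `closure S = DK`,
so `e ∈ E2` iff `e ∈ E` and `σ ⁅g, e⁆ = 1` for all `g ∈ S` (the elements `g` which commute with `σ e` form a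
subgroup). For `g ∈ S` let `C = {e ∈ E | ⁅g, e⁆ ∈ D}` (index at most `r ^ d` in `E`) and
`C' = {e ∈ E | σ ⁅g, e⁆ = 1}`; `C' ≤ C` by `h.nd` (`⁅g, e⁆ ∈ E`, and `σ ⁅g, e⁆ = 1` implies that it commutes with
`E`). On `C` the map `θ` with `σ ⁅g, e⁆ = θ(e) • 1` is a homomorphism to `kˣ`: `⁅g, e e'⁆ =
⁅g, e⁆ e ⁅g, e'⁆ e⁻¹`, scalars commute with `σ e`. `θ(e) ^ r = θ(e ^ r) = 1` since `e ^ r ∈ D` acts as a scalar.
So `θ` has at most `r` values (the roots of `X ^ r - 1` in `k`: `card_nthRoots` or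
`Polynomial.card_nthRoots`) and kernel `C'`: `C'.relIndex C ≤ r`, `C'.relIndex E ≤ r ^ (d + 1)`.
`E2` is the intersection of the `C'` for `g ∈ S`, at most `|DK| ≤ n` subgroups, so
`E2.relIndex E ≤ (r ^ (d + 1)) ^ n` (induction on finite intersections;
`Subgroup.relIndex_inf_le`).
`f2b`: `perp` with `A = E2`, `B = E4`.
-/

namespace H78CY

open Subgroup H78TP
open scoped commutatorElement

variable {k Γ U : Type*} [Field k] [Group Γ] [AddCommGroup U] [Module k U]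

theorem f2comR (g a b : Γ) : ⁅g, a * b⁆ = ⁅g, a⁆ * (a * ⁅g, b⁆ * a⁻¹) := by
  simp only [commutatorElement_def]
  group

theorem f2comL (a b f : Γ) : ⁅a * b, f⁆ = (a * ⁅b, f⁆ * a⁻¹) * ⁅a, f⁆ := by
  simp only [commutatorElement_def]
  group

/-- `σ ⁅g, e⁆ = 1` for `g`, `e` in the kernel language -/
theorem f2ker {σ : Representation k Γ U} {x : Γ} (y : Γ) (h : σ x = 1) : σ (y * x * y⁻¹) = 1 := by
  rw [map_mul, map_mul, h, mul_one, ← map_mul, mul_inv_cancel, map_one]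

theorem f2inv {σ : Representation k Γ U} {x : Γ} (h : σ x = 1) : σ x⁻¹ = 1 := by
  have : σ (x * x⁻¹) = 1 := by rw [mul_inv_cancel, map_one]
  rwa [map_mul, h, one_mul] at this

theorem f2mulR {σ : Representation k Γ U} {g a b : Γ} (ha : σ ⁅g, a⁆ = 1) (hb : σ ⁅g, b⁆ = 1) :
    σ ⁅g, a * b⁆ = 1 := by
  rw [f2comR, map_mul, ha, f2ker a hb, one_mul]

theorem f2mulL {σ : Representation k Γ U} {a b f : Γ} (ha : σ ⁅a, f⁆ = 1) (hb : σ ⁅b, f⁆ = 1) :
    σ ⁅a * b, f⁆ = 1 := by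
  rw [f2comL, map_mul, ha, f2ker a hb, one_mul]

theorem f2invR {σ : Representation k Γ U} {g a : Γ} (ha : σ ⁅g, a⁆ = 1) : σ ⁅g, a⁻¹⁆ = 1 := by
  have e : ⁅g, a⁻¹⁆ = a⁻¹ * ⁅g, a⁆⁻¹ * a⁻¹⁻¹ := by
    simp only [commutatorElement_def]
    group
  rw [e]
  exact f2ker _ (f2inv ha)

theorem f2invL {σ : Representation k Γ U} {a f : Γ} (ha : σ ⁅a, f⁆ = 1) : σ ⁅a⁻¹, f⁆ = 1 := by
  have e : ⁅a⁻¹, f⁆ = a⁻¹ * ⁅a, f⁆⁻¹ * a⁻¹⁻¹ := by
    simp only [commutatorElement_def]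
    group
  rw [e]
  exact f2ker _ (f2inv ha)

theorem exE2 {r : ℕ} {σ : Representation k Γ U} {E D : Subgroup Γ} (h : KHyp r σ E D)
    (K DK : Subgroup Γ) (nDK : Nm K DK) : ∃ E2 : Subgroup Γ,
      (∀ e, e ∈ E2 ↔ e ∈ E ∧ ∀ g ∈ DK, σ ⁅g, e⁆ = 1) ∧ Nm K E2 := by
  refine ⟨{ carrier := {e | e ∈ E ∧ ∀ g ∈ DK, σ ⁅g, e⁆ = 1}
            one_mem' := ⟨E.one_mem, fun g _ => by rw [commutatorElement_one_right, map_one]⟩
            mul_mem' := ?_
            inv_mem' := ?_ }, fun e => Iff.rfl, ?_⟩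
  · rintro a b ⟨ha, ha'⟩ ⟨hb, hb'⟩
    exact ⟨E.mul_mem ha hb, fun g hg => f2mulR (ha' g hg) (hb' g hg)⟩
  · rintro a ⟨ha, ha'⟩
    exact ⟨E.inv_mem ha, fun g hg => f2invR (ha' g hg)⟩
  · intro y hy x hx
    refine ⟨h.nE.conj_mem x hx.1 y, fun g hg => ?_⟩
    have e1 : ⁅g, y * x * y⁻¹⁆ = y * ⁅y⁻¹ * g * y⁻¹⁻¹, x⁆ * y⁻¹ := by
      simp only [commutatorElement_def]
      group
    rw [e1]
    exact f2ker _ (hx.2 _ (nDK _ (K.inv_mem hy) g hg))

theorem exE4 {r : ℕ} {σ : Representation k Γ U} {E D : Subgroup Γ} (_h : KHyp r σ E D)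
    (K E2 : Subgroup Γ) (nK : Nm K E2) : ∃ E4 : Subgroup Γ,
      (∀ e, e ∈ E4 ↔ e ∈ E2 ∧ ∀ f ∈ E2, σ ⁅e, f⁆ = 1) ∧ Nm K E4 := by
  refine ⟨{ carrier := {e | e ∈ E2 ∧ ∀ f ∈ E2, σ ⁅e, f⁆ = 1}
            one_mem' := ⟨E2.one_mem, fun g _ => by rw [commutatorElement_one_left, map_one]⟩
            mul_mem' := ?_
            inv_mem' := ?_ }, fun e => Iff.rfl, ?_⟩
  · rintro a b ⟨ha, ha'⟩ ⟨hb, hb'⟩
    exact ⟨E2.mul_mem ha hb, fun g hg => f2mulL (ha' g hg) (hb' g hg)⟩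
  · rintro a ⟨ha, ha'⟩
    exact ⟨E2.inv_mem ha, fun g hg => f2invL (ha' g hg)⟩
  · intro y hy x hx
    refine ⟨nK y hy x hx.1, fun g hg => ?_⟩
    have e1 : ⁅y * x * y⁻¹, g⁆ = y * ⁅x, y⁻¹ * g * y⁻¹⁻¹⁆ * y⁻¹ := by
      simp only [commutatorElement_def]
      group
    rw [e1]
    exact f2ker _ (hx.2 _ (nK _ (K.inv_mem hy) g hg))

theorem f2D {r : ℕ} {σ : Representation k Γ U} {E D : Subgroup Γ} (h : KHyp r σ E D)
    {d : Γ} (hd : d ∈ D) (g : Γ) : σ ⁅g, d⁆ = 1 := by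
  obtain ⟨c, hc⟩ := h.sc d hd
  have hc' : ∀ u, c • σ d⁻¹ u = u := by
    intro u
    rw [← hc, ← Module.End.mul_apply, ← map_mul, mul_inv_cancel, map_one,
      Module.End.one_apply]
  have e1 : ⁅g, d⁆ = g * d * g⁻¹ * d⁻¹ := rfl
  ext v
  rw [e1, map_mul, map_mul, map_mul, Module.End.mul_apply, Module.End.mul_apply,
    Module.End.mul_apply, hc, map_smul, ← Module.End.mul_apply, ← map_mul, mul_inv_cancel,
    map_one, Module.End.one_apply, hc', Module.End.one_apply]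

/-- one generator -/
theorem f2one [Finite Γ] [Nontrivial U] {r : ℕ} {σ : Representation k Γ U} {E D : Subgroup Γ}
    (h : KHyp r σ E D) (g : Γ) (d : ℕ) (hg : smal D E g (r ^ d)) (C' : Subgroup Γ)
    (hC' : ∀ e, e ∈ C' ↔ e ∈ E ∧ σ ⁅g, e⁆ = 1) : C'.relIndex E ≤ r ^ (d + 1) := by
  obtain ⟨C, hC, hCi⟩ := hg
  obtain ⟨v0, hv0⟩ := exists_ne (0 : U)
  have huniq : ∀ a b : k, a • v0 = b • v0 → a = b := by
    intro a b hab
    have h1 : (a - b) • v0 = 0 := by rw [sub_smul, hab, sub_self]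
    rcases smul_eq_zero.1 h1 with h2 | h2
    · exact sub_eq_zero.1 h2
    · exact absurd h2 hv0
  have hCE : C ≤ E := fun x hx => ((hC x).1 hx).1
  have hC'C : C' ≤ C := by
    intro e he
    obtain ⟨he1, he2⟩ := (hC' e).1 he
    refine (hC e).2 ⟨he1, h.nd _ ?_ (fun f _ => ?_)⟩
    · have e1 : ⁅g, e⁆ = (g * e * g⁻¹) * e⁻¹ := rfl
      rw [e1]
      exact E.mul_mem (h.nE.conj_mem e he1 g) (E.inv_mem he1)
    · have e1 : ⁅⁅g, e⁆, f⁆ = ⁅g, e⁆ * (f * ⁅g, e⁆⁻¹ * f⁻¹) := by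
        simp only [commutatorElement_def]
        group
      rw [e1, map_mul, he2, f2ker f (f2inv he2), one_mul]
  have hex : ∀ e : C, ∃ c : k, ∀ v, σ ⁅g, (e : Γ)⁆ v = c • v := fun e => h.sc _ ((hC e.1).1 e.2).2
  choose θ hθ using hex
  have hθ1 : θ 1 = 1 := by
    apply huniq
    rw [← hθ, OneMemClass.coe_one, commutatorElement_one_right, map_one, Module.End.one_apply,
      one_smul]
  have hθm : ∀ a b, θ (a * b) = θ a * θ b := by
    intro a b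
    apply huniq
    rw [← hθ, Subgroup.coe_mul, f2comR, map_mul, map_mul, map_mul, Module.End.mul_apply,
      Module.End.mul_apply, Module.End.mul_apply, hθ b, map_smul, ← Module.End.mul_apply (σ a.1),
      ← map_mul, mul_inv_cancel, map_one, Module.End.one_apply, map_smul, hθ a, smul_smul,
      mul_comm]
  let Θ : C →* k := { toFun := θ, map_one' := hθ1, map_mul' := hθm }
  let Θ' : C →* kˣ := Θ.toHomUnits
  have hval : ∀ e : C, ((Θ' e : kˣ) : k) = θ e := fun e => rfl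
  have hker : Θ'.ker = C'.subgroupOf C := by
    ext e
    rw [MonoidHom.mem_ker, Subgroup.mem_subgroupOf, hC' e.1]
    constructor
    · intro h1
      have h2 : θ e = 1 := by rw [← hval, h1, Units.val_one]
      refine ⟨hCE e.2, ?_⟩
      ext v
      rw [hθ e, h2, one_smul, Module.End.one_apply]
    · rintro ⟨_, h1⟩
      apply Units.ext
      rw [hval, Units.val_one]
      apply huniq
      rw [← hθ, h1, one_smul, Module.End.one_apply]
  have hrange : Θ'.range ≤ rootsOfUnity r k := by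
    rintro _ ⟨e, rfl⟩
    rw [mem_rootsOfUnity, ← map_pow, ← MonoidHom.mem_ker, hker, Subgroup.mem_subgroupOf, hC']
    have h1 : ((e ^ r : C) : Γ) ∈ D := by
      rw [Subgroup.coe_pow]
      exact h.pow e.1 (hCE e.2)
    exact ⟨h.DE h1, f2D h h1 g⟩
  have hne : NeZero r := ⟨h.hr.pos.ne'⟩
  have hidx : C'.relIndex C ≤ r := by
    have h1 : C'.relIndex C = Θ'.ker.index := by rw [hker]; rfl
    rw [h1, Subgroup.index_ker]
    refine le_trans ?_ (card_rootsOfUnity k r)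
    exact Nat.card_le_card_of_injective (Subgroup.inclusion hrange)
      (Subgroup.inclusion_injective hrange)
  rw [← Subgroup.relIndex_mul_relIndex C' C E hC'C hCE, pow_succ, mul_comm (r ^ d)]
  exact Nat.mul_le_mul hidx hCi

theorem f2a [Finite Γ] [Nontrivial U] {r : ℕ} {σ : Representation k Γ U} {E D : Subgroup Γ}
    (h : KHyp r σ E D) (DK E2 : Subgroup Γ) (n d : ℕ) (hn : Nat.card DK ≤ n)
    (hsm : Subgroup.closure {g | g ∈ DK ∧ smal D E g (r ^ d)} = DK)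
    (hE2 : ∀ e, e ∈ E2 ↔ e ∈ E ∧ ∀ g ∈ DK, σ ⁅g, e⁆ = 1) :
    D ≤ E2 ∧ E2.relIndex E ≤ r ^ (n * d + n) := by
  classical
  refine ⟨fun e he => (hE2 e).2 ⟨h.DE he, fun g _ => f2D h he g⟩, ?_⟩
  let S := {g : Γ // g ∈ DK ∧ smal D E g (r ^ d)}
  have : Fintype S := Fintype.ofFinite S
  have hCex : ∀ g : Γ, ∃ C' : Subgroup Γ, ∀ e, e ∈ C' ↔ e ∈ E ∧ σ ⁅g, e⁆ = 1 := by
    intro g
    refine ⟨{ carrier := {e | e ∈ E ∧ σ ⁅g, e⁆ = 1}
              one_mem' := ⟨E.one_mem, by rw [commutatorElement_one_right, map_one]⟩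
              mul_mem' := ?_
              inv_mem' := ?_ }, fun e => Iff.rfl⟩
    · rintro a b ⟨ha, ha'⟩ ⟨hb, hb'⟩
      exact ⟨E.mul_mem ha hb, f2mulR ha' hb'⟩
    · rintro a ⟨ha, ha'⟩
      exact ⟨E.inv_mem ha, f2invR ha'⟩
  choose C' hC' using hCex
  have h1 : (⨅ g : S, C' g.1) ⊓ E ≤ E2 := by
    intro e hee
    obtain ⟨he, he'⟩ := Subgroup.mem_inf.mp hee
    rw [Subgroup.mem_iInf] at he
    refine (hE2 e).2 ⟨he', fun g hg => ?_⟩
    rw [← hsm] at hg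
    refine Subgroup.closure_induction (p := fun x _ => σ ⁅x, e⁆ = 1) ?_ ?_ ?_ ?_ hg
    · intro x hx
      exact ((hC' x e).1 (he ⟨x, hx⟩)).2
    · rw [commutatorElement_one_left, map_one]
    · intro x y _ _ hx hy
      exact f2mulL hx hy
    · intro x _ hx
      exact f2invL hx
  have h2 : E2.relIndex E ≤ (⨅ g : S, C' g.1).relIndex E := by
    rw [← Subgroup.inf_relIndex_right (⨅ g : S, C' g.1) E]
    exact Subgroup.relIndex_le_of_le_left h1 (Subgroup.index_ne_zero_of_finite)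
  have h3 : Fintype.card S ≤ n := by
    refine le_trans ?_ hn
    rw [← Nat.card_eq_fintype_card]
    exact Nat.card_le_card_of_injective (fun x : S => (⟨x.1, x.2.1⟩ : DK))
      (fun x y hxy => Subtype.ext (congrArg (fun z => z.1) hxy))
  calc E2.relIndex E ≤ (⨅ g : S, C' g.1).relIndex E := h2
    _ ≤ ∏ g : S, (C' g.1).relIndex E := Subgroup.relIndex_iInf_le _
    _ ≤ ∏ _g : S, r ^ (d + 1) :=
        Finset.prod_le_prod' (fun g _ => f2one h g.1 d g.2.2 (C' g.1) (hC' g.1))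
    _ = (r ^ (d + 1)) ^ Fintype.card S := by rw [Finset.prod_const, Finset.card_univ]
    _ ≤ (r ^ (d + 1)) ^ n := Nat.pow_le_pow_right (Nat.pow_pos h.hr.pos) h3
    _ = r ^ (n * d + n) := by
        rw [← pow_mul]
        congr 1
        ring

theorem f2b [Finite Γ] [Nontrivial U] {r : ℕ} {σ : Representation k Γ U} {E D : Subgroup Γ}
    (h : KHyp r σ E D) (E2 E4 : Subgroup Γ) (hD : D ≤ E2) (h2 : E2 ≤ E)
    (hE4 : ∀ e, e ∈ E4 ↔ e ∈ E2 ∧ ∀ f ∈ E2, σ ⁅e, f⁆ = 1) :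
    D ≤ E4 ∧ D.relIndex E4 ≤ E2.relIndex E := by
  have hDE : D ≤ E4 := by
    intro d hd
    refine (hE4 d).2 ⟨hD hd, fun f _ => ?_⟩
    have e1 : ⁅d, f⁆ = ⁅f, d⁆⁻¹ := by
      simp only [commutatorElement_def]
      group
    rw [e1]
    exact f2inv (f2D h hd f)
  exact ⟨hDE, perp h E2 E4 hD h2 hDE
    (fun e he => ⟨h2 ((hE4 e).1 he).1, ((hE4 e).1 he).2⟩)⟩

end H78CY
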