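import Pool.Agent.H78.CY.Cl
import Pool.Agent.H78.CY.Orb
import Pool.Agent.H78.CY.WeiC
import Pool.Agent.H78.CY.F2a

/-!
[H78 CY F2D] If `DK` has a nonzero fixed vector then `E2 / E4` is small (60 min).

PROOF. Let `W1 = Fx σ DK ≠ ⊥`. (1) `K` preserves `W1` (`K` normalises `DK`); `E2` preserves `W1` and
commutes with `DK` in the action. (2) `E4` acts commutatively on `U` (`σ ⁅e, f⁆ = 1` for `e ∈ E4`,
`f ∈ E2 ≥ E4`), `h.ord` gives the orders, so by `wt_ex` (`T = E4`, `V = W1`) there is a weight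
`ν ∈ Wt σ E4 W1`; let `X = WS σ E4 W1 ν ≠ ⊥`, `Y = WC σ E4 W1 ν`, `Γ' = sW σ X`.
(3) `E2 ≤ Γ'`: for `e ∈ E2`, `f ∈ E4`, `v ∈ X`: `σ f (σ e v) = σ e (σ (e⁻¹ f e) v)`, `e⁻¹ f e = ⁅e⁻¹, f⁆ f` and
`σ ⁅e⁻¹, f⁆ = 1`. `DK ≤ Γ'`: `DK` acts trivially on `W1 ≥ X`. For `g ∈ K`: `g ∈ Γ'` iff `cjf g ν = ν` (`K`
normalises `E4` and preserves `W1`: `WS_cjf`, and `X ≠ ⊥`); if `g ∈ K`, `g ∉ Γ'` then
`X.map (σ g) ≤ WS σ E4 W1 (cjf g ν) ≤ Y` (`Wt_cjf`).
(4) `orbX` with `K`, `X`, `Y` (`wc_disj`): `finrank (X ⊓ Fx σ (K ⊓ Γ')) ≤ finrank (Fx σ K) ≤ m`.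
(5) Apply `cl` to the group `Γ'`, the representation `rsW σ X`, and the subgroups
`(K ⊓ Γ').subgroupOf Γ'`, `DK.subgroupOf Γ'`, `E2.subgroupOf Γ'`, `E4.subgroupOf Γ'`. The hypotheses:
orders: `K ⊓ Γ'` is a subgroup of `K`; `hD1`: `DK` fixes `X`; `sc`: `⁅e, f⁆ ∈ D` acts as a scalar
(`h.com`, `h.sc`); `rad`: if `⁅e, f⁆` acts trivially on `X ≠ ⊥` then, being a scalar on `U`, it acts
trivially on `U`; `sc4`: `ν`; `ord`: `h.ord`; `hbig`: `hbig` for `g ∈ K`, `g ∉ DK`, translated to subgroups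
of `Γ'` (for `C'` a subgroup of `Γ'` take `C'.map Γ'.subtype`; relative indices are unchanged).
`Fx (rsW σ X) ((K ⊓ Γ').subgroupOf Γ')` is isomorphic to `X ⊓ Fx σ (K ⊓ Γ')`. So
`finrank X ≤ 4 n m` and `E4.relIndex E2 ≤ (finrank X)² ≤ 16 n² m²`.
-/

namespace H78CY

open Subgroup H78TP
open scoped commutatorElement

theorem f2dcomm {k Γ U : Type*} [Field k] [Group Γ] [AddCommGroup U] [Module k U]
    {σ : Representation k Γ U} {a b : Γ} (h : σ ⁅a, b⁆ = 1) (w : U) :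
    σ a (σ b w) = σ b (σ a w) := by
  have e : a * b = ⁅a, b⁆ * (b * a) := by
    simp only [commutatorElement_def]
    group
  rw [← Module.End.mul_apply, ← map_mul, e, map_mul, h, one_mul, map_mul, Module.End.mul_apply]

theorem f2d {k Γ U : Type*} [Field k] [Group Γ] [AddCommGroup U] [Module k U] [IsAlgClosed k]
    [Finite Γ] [Module.Finite k U] {r : ℕ} {σ : Representation k Γ U} {E D : Subgroup Γ}
    (h : KHyp r σ E D) (K DK E2 E4 : Subgroup Γ) (n m : ℕ) (hK : Nat.card K ≤ n)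
    (hK0 : (Nat.card K : k) ≠ 0) (hm : Module.finrank k (Fx σ K) ≤ m) (hDK : DK ≤ K)
    (nDK : Nm K DK) (hE2 : ∀ e, e ∈ E2 ↔ e ∈ E ∧ ∀ g ∈ DK, σ ⁅g, e⁆ = 1) (nE2 : Nm K E2)
    (hE4 : ∀ e, e ∈ E4 ↔ e ∈ E2 ∧ ∀ f ∈ E2, σ ⁅e, f⁆ = 1) (nE4 : Nm K E4)
    (hbig : ∀ g ∈ K, g ∉ DK → ∀ C : Subgroup Γ, (∀ e, e ∈ C ↔ e ∈ E2 ∧ ⁅g, e⁆ ∈ E4) →
      4 * n ^ 2 ≤ C.relIndex E2) (v : U) (hv : v ≠ 0) (hv1 : ∀ g ∈ DK, σ g v = v) :
    E4.relIndex E2 ≤ 16 * n ^ 2 * m ^ 2 := by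
  have h24 : E4 ≤ E2 := fun e he => ((hE4 e).1 he).1
  have h2E : E2 ≤ E := fun e he => ((hE2 e).1 he).1
  set W1 : Submodule k U := Fx σ DK with hW1
  have hKW : ∀ g ∈ K, ∀ w ∈ W1, σ g w ∈ W1 := by
    intro g hg w hw x hx
    have h1 := hw (g⁻¹ * x * g⁻¹⁻¹) (nDK _ (K.inv_mem hg) x hx)
    rw [← Module.End.mul_apply, ← map_mul, show x * g = g * (g⁻¹ * x * g⁻¹⁻¹) by group, map_mul,
      Module.End.mul_apply, h1]
  have hEW : ∀ e ∈ E2, ∀ w ∈ W1, σ e w ∈ W1 := by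
    intro e he w hw x hx
    rw [f2dcomm (((hE2 e).1 he).2 x hx), hw x hx]
  have hc4 : ∀ a ∈ E4, ∀ b ∈ E2, ∀ w, σ a (σ b w) = σ b (σ a w) :=
    fun a ha b hb w => f2dcomm (((hE4 a).1 ha).2 b hb) w
  obtain ⟨ν, hν, -, -, -, -, -, -⟩ := wt_ex σ E4 W1 (fun t ht w hw => hEW t (h24 ht) w hw)
    (fun s hs t ht w _ => hc4 s hs t (h24 ht) w)
    (fun t ht => by
      obtain ⟨q, hq, hq'⟩ := h.ord t (h2E (h24 ht))
      exact ⟨q, hq, fun w _ => by rw [hq', Module.End.one_apply]⟩) (v := v) hv1 hv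
  set X : Submodule k U := WS σ E4 W1 ν with hX
  have hX0 : X ≠ ⊥ := hν.2
  set Γ' : Subgroup Γ := sW σ X with hΓ'
  have hE2Γ : E2 ≤ Γ' := by
    intro e he
    apply sW_of
    intro w hw
    refine ⟨hEW e he w hw.1, fun t ht => ?_⟩
    rw [hc4 t ht e he, hw.2 t ht, map_smul]
  have hDKΓ : DK ≤ Γ' := by
    intro g hg
    apply sW_of
    intro w hw
    rw [hw.1 g hg]
    exact hw
  have hnorm : ∀ g ∈ K, ∀ t, t ∈ E4 ↔ g⁻¹ * t * g ∈ E4 := by
    intro g hg t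
    constructor
    · intro ht
      have := nE4 _ (K.inv_mem hg) t ht
      rwa [inv_inv] at this
    · intro ht
      have := nE4 _ hg _ ht
      rwa [show g * (g⁻¹ * t * g) * g⁻¹ = t by group] at this
  have h4 : Module.finrank k (X ⊓ Fx σ (K ⊓ Γ') : Submodule k U) ≤ m := by
    refine le_trans (orbX σ K X (WC σ E4 W1 ν) hK0 ?_ ?_) hm
    · rw [Submodule.eq_bot_iff]
      intro w hw
      rw [Submodule.mem_inf] at hw
      exact wc_disj σ E4 W1 hν hw.1 hw.2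
    · rintro g hg hgΓ _ ⟨w, hw, rfl⟩
      have h5 : cjf g ν ≠ ν := by
        intro h6
        apply hgΓ
        apply sW_of
        intro u hu
        have h7 := WS_cjf (hnorm g hg) (hKW g hg) hu
        rwa [h6] at h7
      exact Submodule.mem_iSup_of_mem (⟨cjf g ν, Wt_cjf (hnorm g hg) (hKW g hg) hν⟩ : Wt σ E4 W1)
        (Submodule.mem_iSup_of_mem h5 (WS_cjf (hnorm g hg) (hKW g hg) hw))
  obtain ⟨x0, hx0, hx0'⟩ := Submodule.exists_mem_ne_zero_of_ne_bot hX0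
  have : Nontrivial X := ⟨⟨x0, hx0⟩, 0, fun h6 => hx0' (congrArg Subtype.val h6)⟩
  have hcard : Nat.card (K.subgroupOf Γ') = Nat.card (K ⊓ Γ' : Subgroup Γ) := by
    rw [← Subgroup.inf_subgroupOf_right]
    exact Nat.card_congr (Subgroup.subgroupOfEquivOfLe (inf_le_right : K ⊓ Γ' ≤ Γ')).toEquiv
  have hNm : ∀ A : Subgroup Γ, Nm K A → Nm (K.subgroupOf Γ') (A.subgroupOf Γ') := by
    intro A hA y hy x hx
    rw [Subgroup.mem_subgroupOf] at hy hx ⊢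
    exact hA _ hy _ hx
  have hcl := cl (rsW σ X) (K.subgroupOf Γ') (DK.subgroupOf Γ') (E2.subgroupOf Γ')
    (E4.subgroupOf Γ') n ?_ ?_ ?_ ?_ ?_ ?_ ?_ ?_ ?_ ?_ ?_ ?_ ?_
  · obtain ⟨c1, c2⟩ := hcl
    have c3 : (E4.subgroupOf Γ').relIndex (E2.subgroupOf Γ') = E4.relIndex E2 := by
      rw [← Subgroup.relIndex_map_map_of_injective _ _ (Subgroup.subtype_injective Γ'),
        Subgroup.map_subgroupOf_eq_of_le hE2Γ, Subgroup.map_subgroupOf_eq_of_le (h24.trans hE2Γ)]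
    rw [c3] at c2
    have c4 : Module.finrank k (Fx (rsW σ X) (K.subgroupOf Γ')) ≤
        Module.finrank k (X ⊓ Fx σ (K ⊓ Γ') : Submodule k U) := by
      let F : (Fx (rsW σ X) (K.subgroupOf Γ') : Submodule k X) →ₗ[k]
          (X ⊓ Fx σ (K ⊓ Γ') : Submodule k U) :=
        (X.subtype.comp (Submodule.subtype _)).codRestrict (X ⊓ Fx σ (K ⊓ Γ')) (fun w => by
          refine ⟨w.1.2, fun g hg => ?_⟩
          have h6 := w.2 ⟨g, hg.2⟩ (Subgroup.mem_subgroupOf.2 hg.1)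
          exact congrArg Subtype.val h6)
      apply LinearMap.finrank_le_finrank_of_injective (f := F)
      intro a b hab
      have hab' : (F a).1 = (F b).1 := by rw [hab]
      exact Subtype.ext (Subtype.ext hab')
    have c5 : Module.finrank k X ≤ 4 * n * m :=
      c1.trans (Nat.mul_le_mul_left _ (c4.trans h4))
    calc E4.relIndex E2 ≤ (Module.finrank k X) ^ 2 := c2
      _ ≤ (4 * n * m) ^ 2 := Nat.pow_le_pow_left c5 2
      _ = 16 * n ^ 2 * m ^ 2 := by ring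
  · rw [hcard]
    exact (Subgroup.card_le_of_le inf_le_left).trans hK
  · rw [hcard]
    obtain ⟨c, hc⟩ := Subgroup.card_dvd_of_le (inf_le_left : K ⊓ Γ' ≤ K)
    intro h0
    apply hK0
    rw [hc, Nat.cast_mul, h0, zero_mul]
  · exact Subgroup.comap_mono hDK
  · exact hNm DK nDK
  · intro g hg
    ext w
    rw [Module.End.one_apply, rsW_coe]
    exact w.2.1 _ (Subgroup.mem_subgroupOf.1 hg)
  · exact Subgroup.comap_mono h24
  · exact hNm E2 nE2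
  · exact hNm E4 nE4
  · intro e he f hf
    rw [Subgroup.mem_subgroupOf] at he hf
    obtain ⟨c, hc⟩ := h.sc _ (h.com e.1 (h2E he) f.1 (h2E hf))
    refine ⟨c, fun w => Subtype.ext ?_⟩
    rw [rsW_coe]
    exact hc w.1
  · intro e he
    rw [Subgroup.mem_subgroupOf] at he
    rw [Subgroup.mem_subgroupOf]
    constructor
    · intro he4 f hf
      rw [Subgroup.mem_subgroupOf] at hf
      ext w
      rw [Module.End.one_apply, rsW_coe]
      have h6 : σ ⁅e.1, f.1⁆ = 1 := ((hE4 _).1 he4).2 f.1 hf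
      change σ ⁅e.1, f.1⁆ w.1 = w.1
      rw [h6, Module.End.one_apply]
    · intro hall
      refine (hE4 _).2 ⟨he, fun f hf => ?_⟩
      obtain ⟨c, hc⟩ := h.sc _ (h.com e.1 (h2E he) f (h2E hf))
      have h6 := hall ⟨f, hE2Γ hf⟩ (Subgroup.mem_subgroupOf.2 hf)
      have h7 : σ ⁅e.1, f⁆ x0 = x0 := by
        have h8 := congrArg (fun φ : X →ₗ[k] X => (φ ⟨x0, hx0⟩ : U)) h6
        exact h8
      rw [hc] at h7
      have h9 : (c - 1) • x0 = 0 := by rw [sub_smul, one_smul, h7, sub_self]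
      rcases smul_eq_zero.1 h9 with h10 | h10
      · ext w
        rw [hc, sub_eq_zero.1 h10, one_smul, Module.End.one_apply]
      · exact absurd h10 hx0'
  · intro e he
    rw [Subgroup.mem_subgroupOf] at he
    refine ⟨ν e.1, fun w => Subtype.ext ?_⟩
    rw [rsW_coe]
    exact w.2.2 _ he
  · intro e he
    rw [Subgroup.mem_subgroupOf] at he
    obtain ⟨q, hq, hq'⟩ := h.ord e.1 (h2E he)
    refine ⟨q, hq, ?_⟩
    ext w
    rw [Module.End.one_apply, rsW_coe]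
    change σ (e.1 ^ q) w.1 = w.1
    rw [hq', Module.End.one_apply]
  · intro g hg hgD C hC
    rw [Subgroup.mem_subgroupOf] at hg hgD
    have h6 := hbig g.1 hg hgD (C.map Γ'.subtype) (fun e => by
      rw [Subgroup.mem_map]
      constructor
      · rintro ⟨c, hc, rfl⟩
        obtain ⟨h7, h8⟩ := (hC c).1 hc
        exact ⟨Subgroup.mem_subgroupOf.1 h7, Subgroup.mem_subgroupOf.1 h8⟩
      · rintro ⟨h7, h8⟩
        exact ⟨⟨e, hE2Γ h7⟩, (hC _).2 ⟨Subgroup.mem_subgroupOf.2 h7,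
          Subgroup.mem_subgroupOf.2 h8⟩, rfl⟩)
    rwa [← Subgroup.map_subgroupOf_eq_of_le hE2Γ,
      Subgroup.relIndex_map_map_of_injective _ _ (Subgroup.subtype_injective Γ')] at h6

end H78CY
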