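import Pool.Agent.H78.CY.PsA

/-!
[H78 CY PSK] `P_a` has no nontrivial homomorphism into the multiplicative group of a field of characteristic `p`
(15 min).

PROOF. `PS p G a` is generated by elements of `p`-power order (`PS_up`). For such an element `t`
with `t ^ (p ^ k) = 1`, `τ t v = c • v` gives `v = τ (t ^ (p ^ k)) v = c ^ (p ^ k) • v`, so
`c ^ (p ^ k) = 1`, `(c - 1) ^ (p ^ k) = 0` (`sub_pow_char_pow` or `frobenius`), `c = 1`. The elements
fixing `v` form a subgroup.
-/

namespace H78CY

open Subgroup H78TP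
open scoped commutatorElement

theorem PS_eig {k Γ U : Type*} [Field k] [Group Γ] [AddCommGroup U] [Module k U] (p : ℕ)
    [Fact p.Prime] [CharP k p] (τ : Representation k Γ U) (G : Subgroup Γ) (a : ℕ) (v : U)
    (hv : v ≠ 0) (h : ∀ t ∈ PS p G a, ∃ c : k, τ t v = c • v) :
    ∀ t ∈ PS p G a, τ t v = v := by
  obtain ⟨S, hS⟩ : ∃ S : Subgroup Γ, ∀ t, t ∈ S ↔ τ t v = v := by
    refine ⟨⟨⟨⟨{t | τ t v = v}, ?_⟩, ?_⟩, ?_⟩, fun t => Iff.rfl⟩
    · intro s t hs ht
      show τ (s * t) v = v
      rw [map_mul, Module.End.mul_apply]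
      rw [show τ t v = v from ht, show τ s v = v from hs]
    · show τ 1 v = v
      rw [map_one, Module.End.one_apply]
    · intro t ht
      show τ t⁻¹ v = v
      have h1 : τ t v = v := ht
      calc τ t⁻¹ v = τ t⁻¹ (τ t v) := by rw [h1]
        _ = v := by rw [← Module.End.mul_apply, ← map_mul, inv_mul_cancel, map_one, Module.End.one_apply]
  have h1 : PS p G a ≤ S := by
    rw [← PS_up G a]
    unfold up
    rw [closure_le]
    rintro t ⟨ht, e, he⟩
    obtain ⟨c, hc⟩ := h t ht
    have hpow : ∀ n : ℕ, τ (t ^ n) v = c ^ n • v := by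
      intro n
      induction n with
      | zero => rw [pow_zero, map_one, Module.End.one_apply, pow_zero, one_smul]
      | succ n ih => rw [pow_succ, map_mul, Module.End.mul_apply, hc, map_smul, ih, smul_smul, ← pow_succ']
    have h2 := hpow (p ^ e)
    rw [he, map_one, Module.End.one_apply] at h2
    have h3 : c ^ (p ^ e) = 1 := by
      by_contra hne
      have h4 : (c ^ (p ^ e) - 1) • v = 0 := by rw [sub_smul, one_smul, ← h2, sub_self]
      rcases smul_eq_zero.1 h4 with h5 | h5
      · exact hne (sub_eq_zero.1 h5)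
      · exact hv h5
    have h4 : (c - 1) ^ (p ^ e) = 0 := by
      rw [sub_pow_char_pow, h3, one_pow, sub_self]
    have h5 : c = 1 := sub_eq_zero.1 (pow_eq_zero_iff (pow_ne_zero _ (Fact.out : p.Prime).ne_zero) |>.1 h4)
    show t ∈ S
    rw [hS, hc, h5, one_smul]
  exact fun t ht => (hS t).1 (h1 ht)

end H78CY
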