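import Pool.Agent.H78.CY.WfD
import Pool.Agent.H78.CY.PsK
import Pool.Agent.H78.CY.Gtc
import Pool.Agent.H78.CY.PsB

/-!
[H78 CY FA] STEP F, CASE II (F1): `P_{i-1}` does not centralise `E / D`, and `E / D` is large (50 min).

PROOFS. `nQ`: suppose `⁅t, e⁆ ∈ D` for all `t ∈ P = PS p G (i - 1)`, `e ∈ E`. `P ≤ T0 ≤ sW τ W`. For
`e ∈ E` and `t, t' ∈ P`: `⁅t t', e⁆ = t ⁅t', e⁆ t⁻¹ ⁅t, e⁆` and `t ∈ sW τ W` fixes `mu` (`sWW`), so
`mu ⁅t t', e⁆ = mu ⁅t, e⁆ * mu ⁅t', e⁆`. Let `t ∈ P` with `t ^ (p ^ c) = 1`: `mu ⁅t, e⁆ ^ (p ^ c) = mu ⁅1, e⁆ = 1`, so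
`mu ⁅t, e⁆ = 1` (characteristic `p`: `(x - 1) ^ (p ^ c) = x ^ (p ^ c) - 1`, `sub_pow_char_pow`). `P` is
generated by such elements (`PS_up`), so `mu ⁅t, e⁆ = 1` for all `t ∈ P`, `e ∈ E`. Now
`E ≤ NS p G (i - 1) ≤ P` (`h.z.ES`), so for `e, f ∈ E`: `lam ⁅f, e⁆ = mu ⁅f, e⁆ = 1` (`mu_Z`,
`⁅f, e⁆ ∈ Z`), hence `D = E` (`h.hD`). For `t ∈ T0 ≤ sW τ W`, `e ∈ E = D`: `mu (t e t⁻¹) = mu e`, so
`⁅t, e⁆ ∈ D` acts trivially on `W`. For every `g`: `g⁻¹ ⁅t, e⁆ g = ⁅g⁻¹ t g, g⁻¹ e g⁆` is of the same form, so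
`⁅t, e⁆` acts trivially on `W.map (τ g)`, hence on `U` (`cmp_top`). So `E ≤ Z` (`h.z.hZ`; `⁅e, t⁆ =
⁅t, e⁆⁻¹`; `E ≤ NS p G (i - 1)`): contradiction to `h.z.EZ`.
`lQ`: suppose `D.relIndex E ≤ r ^ dq`. Every `g ∈ T0 = PS p G (i - C0)` satisfies `smal D E g (r ^ dq)`: the
subgroup `{x ∈ E | ⁅g, x⁆ ∈ D}` (exists: `E` normalises `D`, `E / D` commutative) contains `D`
(`g ∈ sW τ W ≤ sW τ V` normalises `D`), so its index in `E` divides `D.relIndex E`. `gtc` with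
`l := r`, `J = E`, `M = Z0 = D`, `D := T0`, `S = T0` (as a set) and `C` with `IsCc (sW τ W) E D C` (`exCc`)
gives `lns T0 (cz dq) ≤ C`; `PS p G (i - 1) ≤ PS p G (i - C0 + cz dq) ≤ lns T0 (cz dq)` (`PS_le_lns`,
`PS_anti`), contradicting `nQ`.
-/

namespace H78CY

open Subgroup H78TP
open scoped commutatorElement

variable {k Γ U : Type*} [Field k] [Group Γ] [AddCommGroup U] [Module k U]


variable {p r i : ℕ} {τ : Representation k Γ U} {G T0 Z E D : Subgroup Γ} {lam mu : Γ → k}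
  {V W : Submodule k U}

theorem nQ [Fact p.Prime] [CharP k p] [IsAlgClosed k] [Finite Γ] [Module.Finite k U]
    (h : WHyp p r τ G i T0 Z E lam mu D V W) (hT : T0 ≤ sW τ W) :
    ¬ ∀ t ∈ PS p G (i - 1), ∀ e ∈ E, ⁅t, e⁆ ∈ D := by
  intro hcon
  have hP : PS p G (i - 1) ≤ sW τ W := h.z.PT.trans hT
  have hmu1 : mu 1 = 1 := by
    have h1 := wt_mul h.hm D.one_mem D.one_mem
    rw [mul_one] at h1
    have h2 := wt_ne h.hm D.one_mem
    have h3 : mu 1 * mu 1 = 1 * mu 1 := by rw [one_mul]; exact h1.symm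
    exact mul_right_cancel₀ h2 h3
  have hmu : ∀ t ∈ sW τ W, ∀ x ∈ D, t * x * t⁻¹ ∈ D ∧ mu (t * x * t⁻¹) = mu x := by
    intro t ht x hx
    refine ⟨nDV h t (WleV h ht) x hx, ?_⟩
    have h1 := ((sWW h t⁻¹).1 ((sW τ W).inv_mem ht)).2 x hx
    rwa [inv_inv] at h1
  have hmul : ∀ t ∈ PS p G (i - 1), ∀ t' ∈ PS p G (i - 1), ∀ e ∈ E,
      mu ⁅t * t', e⁆ = mu ⁅t, e⁆ * mu ⁅t', e⁆ := by
    intro t ht t' ht' e he
    have h1 := hmu t (hP ht) _ (hcon t' ht' e he)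
    have e1 : ⁅t * t', e⁆ = (t * ⁅t', e⁆ * t⁻¹) * ⁅t, e⁆ := by
      rw [commutatorElement_def, commutatorElement_def, commutatorElement_def]
      group
    rw [e1, wt_mul h.hm h1.1 (hcon t ht e he), h1.2, mul_comm]
  have hpow : ∀ t ∈ PS p G (i - 1), ∀ e ∈ E, ∀ c : ℕ, mu ⁅t ^ c, e⁆ = mu ⁅t, e⁆ ^ c := by
    intro t ht e he c
    induction c with
    | zero => rw [pow_zero, pow_zero, commutatorElement_one_left, hmu1]
    | succ c ih =>
      rw [pow_succ, hmul _ ((PS p G (i - 1)).pow_mem ht c) t ht e he, ih, pow_succ]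
  have hall : ∀ t ∈ PS p G (i - 1), ∀ e ∈ E, mu ⁅t, e⁆ = 1 := by
    obtain ⟨S, hS⟩ : ∃ S : Subgroup Γ, ∀ t, t ∈ S ↔ t ∈ PS p G (i - 1) ∧ ∀ e ∈ E, mu ⁅t, e⁆ = 1 := by
      refine ⟨⟨⟨⟨{t | t ∈ PS p G (i - 1) ∧ ∀ e ∈ E, mu ⁅t, e⁆ = 1}, ?_⟩, ?_⟩, ?_⟩,
        fun t => Iff.rfl⟩
      · rintro a b ⟨ha, ha'⟩ ⟨hb, hb'⟩
        refine ⟨(PS p G (i - 1)).mul_mem ha hb, fun e he => ?_⟩
        rw [hmul a ha b hb e he, ha' e he, hb' e he, one_mul]
      · refine ⟨(PS p G (i - 1)).one_mem, fun e _ => ?_⟩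
        rw [commutatorElement_one_left, hmu1]
      · rintro a ⟨ha, ha'⟩
        refine ⟨(PS p G (i - 1)).inv_mem ha, fun e he => ?_⟩
        have h1 := hmul a⁻¹ ((PS p G (i - 1)).inv_mem ha) a ha e he
        rw [inv_mul_cancel, commutatorElement_one_left, hmu1, ha' e he, mul_one] at h1
        exact h1.symm
    have h1 : PS p G (i - 1) ≤ S := by
      conv_lhs => rw [← PS_up]
      refine (Subgroup.closure_le _).2 ?_
      rintro t ⟨ht, c, hc⟩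
      show t ∈ S
      rw [hS]
      refine ⟨ht, fun e he => ?_⟩
      have h2 := hpow t ht e he (p ^ c)
      rw [hc, commutatorElement_one_left, hmu1] at h2
      have h3 : (mu ⁅t, e⁆ - 1) ^ (p ^ c) = 0 := by
        rw [sub_pow_char_pow, ← h2, one_pow, sub_self]
      exact sub_eq_zero.1 (eq_zero_of_pow_eq_zero h3)
    intro t ht
    exact ((hS t).1 (h1 ht)).2
  have hEP : E ≤ PS p G (i - 1) := h.z.ES.trans (NS_le_PS G (i - 1))
  have hED : E ≤ D := by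
    intro e he
    rw [h.hD]
    refine ⟨he, fun f hf => ?_⟩
    rw [← mu_Z h _ (h.z.com e he f hf)]
    exact hall e (hEP he) f hf
  -- `⁅t, e⁆` acts trivially on `W`
  have hW : ∀ t ∈ T0, ∀ e ∈ E, ∀ w ∈ W, τ ⁅t, e⁆ w = w := by
    intro t ht e he w hw
    have h1 := hmu t (hT ht) e (hED he)
    have h2 : ⁅t, e⁆ ∈ D := by
      rw [commutatorElement_def]
      exact D.mul_mem h1.1 (D.inv_mem (hED he))
    have h3 := wt_mul h.hm h2 (hED he)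
    have e1 : ⁅t, e⁆ * e = t * e * t⁻¹ := by
      rw [commutatorElement_def]
      group
    rw [e1, h1.2] at h3
    have h4 : mu ⁅t, e⁆ = 1 := by
      have h5 : mu ⁅t, e⁆ * mu e = 1 * mu e := by rw [one_mul]; exact h3.symm
      exact mul_right_cancel₀ (wt_ne h.hm (hED he)) h5
    rw [W_scal h _ h2 w hw, h4, one_smul]
  have hU : ∀ t ∈ T0, ∀ e ∈ E, τ ⁅t, e⁆ = 1 := by
    intro t ht e he
    obtain ⟨X, hX⟩ : ∃ X : Submodule k U, ∀ v, v ∈ X ↔ τ ⁅t, e⁆ v = v := by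
      refine ⟨LinearMap.eqLocus (τ ⁅t, e⁆) LinearMap.id, fun v => ?_⟩
      exact Iff.rfl
    have h1 : (⨆ g : Γ, W.map (τ g)) ≤ X := by
      refine iSup_le fun g => ?_
      rintro _ ⟨w, hw, rfl⟩
      rw [hX]
      have h2 : g⁻¹ * t * g ∈ T0 := by
        have h3 := h.z.nT.conj_mem t ht g⁻¹
        rwa [inv_inv] at h3
      have h3 : g⁻¹ * e * g ∈ E := by
        have h3 := h.z.nE.conj_mem e he g⁻¹
        rwa [inv_inv] at h3
      have h4 : τ ⁅t, e⁆ (τ g w) = τ g (τ ⁅g⁻¹ * t * g, g⁻¹ * e * g⁆ w) := by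
        rw [← Module.End.mul_apply, ← map_mul, ← Module.End.mul_apply, ← map_mul]
        congr 2
        rw [commutatorElement_def, commutatorElement_def]
        group
      rw [h4, hW _ h2 _ h3 w hw]
    rw [cmp_top h] at h1
    apply LinearMap.ext
    intro v
    exact (hX v).1 (h1 Submodule.mem_top)
  apply h.z.EZ
  intro e he
  rw [h.z.hZ]
  refine ⟨h.z.ES he, fun t ht => ?_⟩
  have h1 := hU t ht e he
  have e1 : ⁅e, t⁆ * ⁅t, e⁆ = 1 := by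
    rw [commutatorElement_def, commutatorElement_def]
    group
  have h2 : τ (⁅e, t⁆ * ⁅t, e⁆) = 1 := by rw [e1, map_one]
  rw [map_mul, h1, mul_one] at h2
  exact h2

theorem lQ [Fact p.Prime] [CharP k p] [IsAlgClosed k] [Finite Γ] [Module.Finite k U]
    (C0 dq : ℕ) (hC : cz dq + 1 ≤ C0) (hi : C0 ≤ i)
    (h : WHyp p r τ G i (PS p G (i - C0)) Z E lam mu D V W)
    (hT : PS p G (i - C0) ≤ sW τ W) : r ^ dq < D.relIndex E := by
  by_contra hcon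
  push Not at hcon
  have : Fact r.Prime := ⟨h.z.hr⟩
  have hZD := ZD h
  have nT0D : Nm (PS p G (i - C0)) D := nm_mono (nDV h) (hT.trans (WleV h))
  have nED : Nm E D := nm_mono (nDV h) ((EW h).trans (WleV h))
  have nWD : Nm (sW τ W) D := nm_mono (nDV h) (WleV h)
  obtain ⟨C, hCC⟩ := exCc (Y := sW τ W) (J := E) (M := D) nWD
  have hcom : ∀ (S : Subgroup Γ), Nm S D → ∀ g ∈ S, ∀ z ∈ D, ⁅g, z⁆ ∈ D := by
    intro S hS g hg z hz
    rw [commutatorElement_def]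
    exact D.mul_mem (hS g hg z hz) (D.inv_mem hz)
  have key := gtc r h.z.un.sol E D D (PS p G (i - C0)) le_rfl (DE h) (nm_of_normal h.z.nE _) nT0D
    nT0D nED (fun x hx y hy => hZD (h.z.com x hx y hy)) (fun x hx => hZD (h.z.pow x hx))
    (hcom _ nT0D) ((PS p G (i - C0) : Subgroup Γ) : Set Γ) (Subgroup.closure_eq _) dq (by
      intro g hg
      obtain ⟨C1, hC1⟩ := exCg (J := E) nED g
      refine ⟨C1, hC1, ?_⟩
      have h1 : D ≤ C1 := fun x hx => (hC1 x).2 ⟨DE h hx, hcom _ nT0D g hg x hx⟩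
      have h2 : C1.relIndex E ∣ D.relIndex E := Subgroup.relIndex_dvd_of_le_left E h1
      have h3 : 0 < D.relIndex E := Nat.pos_of_ne_zero Subgroup.index_ne_zero_of_finite
      exact (Nat.le_of_dvd h3 h2).trans hcon) C
    (fun g hg hg' => (hCC g).2 ⟨hT hg, hg'⟩)
  apply nQ h hT
  intro t ht e he
  have h1 : PS p G (i - 1) ≤ lns (PS p G (i - C0)) (cz dq) :=
    (PS_anti G (by omega : i - C0 + cz dq ≤ i - 1)).trans (PS_le_lns G (i - C0) (cz dq))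
  exact ((hCC t).1 (key (h1 ht))).2 e he

end H78CY
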