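import Pool.Agent.H78.CY.Def2

/-!
[H78 CY FAV] STEP F, CASE II: averaging over `E` (30 min).

PROOF. For every property `B`: `∑ x, |{e ∈ E | B (x e)}| = |E| |{x | B x}|` (for fixed `e` right
multiplication by `e` is a bijection of `Γ`). Let `X = {x | 128 n |{e ∈ E | Bd (x e)}| ≤ |E|}`. For
`x ∉ X`: `|E| < 128 n |{e | Bd (x e)}|`, so `|E| |Xᶜ| ≤ 128 n |E| |{Bd}|` and `256 n |{Bd}| ≤ |Γ|`, so
`2 |Xᶜ| ≤ |Γ|`, `|Γ| ≤ 2 |X|`. For `x ∈ X`: `|E| ≤ 64 n |{e ∈ E | B (x e)}|`; sum:
`|E| |X| ≤ 64 n |E| |{B}|`. So `|Γ| ≤ 2 |X| ≤ 128 n |{B}|`.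
-/

namespace H78CY

open Subgroup H78TP
open scoped commutatorElement

theorem favSum {Γ : Type*} [Group Γ] [Fintype Γ] (E : Subgroup Γ) (B : Γ → Prop) :
    ∑ x : Γ, Nat.card {e : Γ // e ∈ E ∧ B (x * e)} = Nat.card E * Nat.card {x : Γ // B x} := by
  classical
  have h1 : ∀ x : Γ, Nat.card {e : Γ // e ∈ E ∧ B (x * e)} =
      ∑ e : Γ, if e ∈ E ∧ B (x * e) then 1 else 0 := by
    intro x
    rw [Nat.card_eq_fintype_card, Fintype.card_subtype, Finset.card_filter]
  rw [Finset.sum_congr rfl (fun x _ => h1 x), Finset.sum_comm]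
  have h2 : ∀ e : Γ, (∑ x : Γ, if e ∈ E ∧ B (x * e) then 1 else 0) =
      (if e ∈ E then 1 else 0) * Nat.card {x : Γ // B x} := by
    intro e
    by_cases he : e ∈ E
    · rw [if_pos he, one_mul, Nat.card_eq_fintype_card, Fintype.card_subtype, Finset.card_filter]
      refine Fintype.sum_equiv (Equiv.mulRight e) _ _ (fun x => ?_)
      rw [Equiv.coe_mulRight]
      simp only [he, true_and]
    · rw [if_neg he, zero_mul]
      refine Finset.sum_eq_zero (fun x _ => ?_)
      rw [if_neg (fun h => he h.1)]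
  rw [Finset.sum_congr rfl (fun e _ => h2 e), ← Finset.sum_mul]
  congr 1
  rw [Nat.card_eq_fintype_card, ← Finset.card_filter]
  exact (Fintype.card_subtype _).symm

theorem fav {Γ : Type*} [Group Γ] [Finite Γ] (E : Subgroup Γ) (B Bd : Γ → Prop) (n : ℕ)
    (hbad : Few (256 * n) Bd)
    (h : ∀ x, 128 * n * Nat.card {e : Γ // e ∈ E ∧ Bd (x * e)} ≤ Nat.card E →
      Nat.card E ≤ 64 * n * Nat.card {e : Γ // e ∈ E ∧ B (x * e)}) : Many (128 * n) B := by
  classical
  have : Fintype Γ := Fintype.ofFinite Γ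
  unfold Few at hbad
  unfold Many
  have hE : 0 < Nat.card E := Nat.card_pos
  let X : Finset Γ := Finset.univ.filter
    (fun x => 128 * n * Nat.card {e : Γ // e ∈ E ∧ Bd (x * e)} ≤ Nat.card E)
  have hX : X.card + Xᶜ.card = Nat.card Γ := by
    rw [Finset.card_add_card_compl, Nat.card_eq_fintype_card]
  have h1 : Xᶜ.card ≤ 128 * n * Nat.card {x : Γ // Bd x} := by
    have h2 : Xᶜ.card * Nat.card E ≤ 128 * n * (Nat.card E * Nat.card {x : Γ // Bd x}) := by
      rw [← favSum E Bd, ← smul_eq_mul, ← Finset.sum_const, Finset.mul_sum]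
      calc ∑ _x ∈ Xᶜ, Nat.card E ≤
            ∑ x ∈ Xᶜ, 128 * n * Nat.card {e : Γ // e ∈ E ∧ Bd (x * e)} := by
            refine Finset.sum_le_sum (fun x hx => ?_)
            rw [Finset.mem_compl, Finset.mem_filter] at hx
            have : ¬ (128 * n * Nat.card {e : Γ // e ∈ E ∧ Bd (x * e)} ≤ Nat.card E) :=
              fun h' => hx ⟨Finset.mem_univ _, h'⟩
            exact (not_le.mp this).le
        _ ≤ ∑ x : Γ, 128 * n * Nat.card {e : Γ // e ∈ E ∧ Bd (x * e)} :=
            Finset.sum_le_sum_of_subset (Finset.subset_univ _)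
    have h3 : Xᶜ.card * Nat.card E ≤ (128 * n * Nat.card {x : Γ // Bd x}) * Nat.card E := by
      calc _ ≤ _ := h2
        _ = _ := by ring
    exact Nat.le_of_mul_le_mul_right h3 hE
  have h4 : X.card ≤ 64 * n * Nat.card {x : Γ // B x} := by
    have h2 : X.card * Nat.card E ≤ 64 * n * (Nat.card E * Nat.card {x : Γ // B x}) := by
      rw [← favSum E B, ← smul_eq_mul, ← Finset.sum_const, Finset.mul_sum]
      calc ∑ _x ∈ X, Nat.card E ≤
            ∑ x ∈ X, 64 * n * Nat.card {e : Γ // e ∈ E ∧ B (x * e)} := by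
            refine Finset.sum_le_sum (fun x hx => ?_)
            rw [Finset.mem_filter] at hx
            exact h x hx.2
        _ ≤ ∑ x : Γ, 64 * n * Nat.card {e : Γ // e ∈ E ∧ B (x * e)} :=
            Finset.sum_le_sum_of_subset (Finset.subset_univ _)
    have h3 : X.card * Nat.card E ≤ (64 * n * Nat.card {x : Γ // B x}) * Nat.card E := by
      calc _ ≤ _ := h2
        _ = _ := by ring
    exact Nat.le_of_mul_le_mul_right h3 hE
  have e1 : 256 * n * Nat.card {x : Γ // Bd x} = 2 * (128 * n * Nat.card {x : Γ // Bd x}) := by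
    ring
  have e2 : 128 * n * Nat.card {x : Γ // B x} = 2 * (64 * n * Nat.card {x : Γ // B x}) := by ring
  rw [e1] at hbad
  rw [e2]
  omega

end H78CY
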