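import Pool.Agent.H78.CY.Fa
import Pool.Agent.H78.CY.Dxc

/-!
[H78 CY FDK] STEP F, CASE II (F1): the subgroups `D_k` are small (40 min).

PROOFS. `Dc_conj`: conjugation by `x` maps the generating set of the one group onto the other
(`smal (rgCj x M) (rgCj x J) (x g x⁻¹) N ↔ smal M J g N`, with the conjugate subgroup).
`dK`: `b' = b + cz s + 1`, `Λ` from `dxc` for `(b', s)`. Let `a0 = i - C0`; `l - a0 > C0 ≥ Λ` (`i < l`,
`C0 ≤ i`). Let `L' = sW τ W`; it normalises `E` (normal) and `D` (`nDV`, `WleV`); `exCc` gives `C` with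
`IsCc L' E D C`. Fix `x`, write `D_x = rgCj x D` and so on; `E_x = E`, `Z_x = Z` (normal, `rgCj_of_nm` with
`Y = ⊤`), `Z ≤ D_x ≤ E`. `dxc` with `r`, `J = E`, `M = Z0 = D_x`, `Y = rgCj x L'`, `C := rgCj x C`
(`cc_conj`): `PS p G a0` is normal and contained in `L'`, hence in `rgCj x L'`. `Nm Y M`: `nm_conj`;
`Nm J M`: `E ≤ rgCj x L'` (`EW`); commutators of `E` are in `Z ≤ D_x`, `x ^ r ∈ Z`. First alternative:
`Dc R (rgCj x L') E (rgCj x D) N = rgCj x (Dc (rgCj x⁻¹ R) L' E D N)` by `Dc_conj`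
(`rgCj x (rgCj x⁻¹ R) = R`), `card_rgCj`. Second alternative: `PS p G (l - b' + cz s) ≤ rgCj x C` with
`l - b' + cz s = l - b - 1` (uses `b + cz s + 1 ≤ l`), so `PS p G (i - 1) ≤ PS p G (l - b - 1) ≤ C` (normal),
contradicting `nQ`.
-/

namespace H78CY

open Subgroup H78TP
open scoped commutatorElement

universe u v w

private theorem fdk_cc {Γ : Type*} [Group Γ] (x : Γ) (R : Subgroup Γ) :
    rgCj x (rgCj x⁻¹ R) = R := by
  ext y
  rw [mem_rgCj, mem_rgCj]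
  have e : x⁻¹⁻¹ * (x⁻¹ * y * x) * x⁻¹ = y := by group
  rw [e]

private theorem fdk_cc' {Γ : Type*} [Group Γ] (x : Γ) (R : Subgroup Γ) :
    rgCj x⁻¹ (rgCj x R) = R := by
  ext y
  rw [mem_rgCj, mem_rgCj]
  have e : x⁻¹ * (x⁻¹⁻¹ * y * x⁻¹) * x = y := by group
  rw [e]

private theorem fdk_smal {Γ : Type*} [Group Γ] (x : Γ) {J M : Subgroup Γ} {g : Γ} {N : ℕ}
    (h : smal M J g N) : smal (rgCj x M) (rgCj x J) (x * g * x⁻¹) N := by
  obtain ⟨C, hC, hN⟩ := h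
  refine ⟨rgCj x C, fun y => ?_, ?_⟩
  · rw [mem_rgCj, hC, mem_rgCj, mem_rgCj]
    have e : x⁻¹ * ⁅x * g * x⁻¹, y⁆ * x = ⁅g, x⁻¹ * y * x⁆ := by
      rw [commutatorElement_def, commutatorElement_def]
      group
    rw [e]
  · unfold rgCj
    rw [Subgroup.relIndex_map_map_of_injective _ _ (MulAut.conj x).injective]
    exact hN

theorem Dc_conj {Γ : Type*} [Group Γ] (x : Γ) (R Y J M : Subgroup Γ) (N : ℕ) :
    Dc (rgCj x R) (rgCj x Y) (rgCj x J) (rgCj x M) N = rgCj x (Dc R Y J M N) := by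
  have h1 : ∀ (x : Γ) (R Y J M : Subgroup Γ),
      Dc (rgCj x R) (rgCj x Y) (rgCj x J) (rgCj x M) N ≤ rgCj x (Dc R Y J M N) := by
    intro x R Y J M
    refine (Subgroup.closure_le _).2 ?_
    rintro g ⟨hg1, hg2, hg3⟩
    rw [mem_rgCj] at hg1 hg2
    show g ∈ rgCj x (Dc R Y J M N)
    rw [mem_rgCj]
    refine Subgroup.subset_closure ⟨hg1, hg2, ?_⟩
    have h2 := fdk_smal x⁻¹ hg3
    rw [fdk_cc', fdk_cc', inv_inv] at h2
    exact h2
  apply le_antisymm (h1 x R Y J M)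
  have h2 := h1 x⁻¹ (rgCj x R) (rgCj x Y) (rgCj x J) (rgCj x M)
  rw [fdk_cc', fdk_cc', fdk_cc', fdk_cc'] at h2
  have h3 := (rgCj_le x).2 h2
  rw [fdk_cc] at h3
  exact h3

theorem dK (p n : ℕ) [Fact p.Prime] (m f : ℕ → ℕ) (j : ℕ) (hQ : QP.{u} p n m f j)
    (b s : ℕ) : ∃ Λ : ℕ, ∀ (Γ : Type u) [Group Γ] [Finite Γ]
      (G R H : Subgroup Γ) (l : ℕ), FHyp p n m f l G R H → b + cz s + 1 ≤ l →
      ∀ i, l - b ≤ i → i < l → ∀ C0, Λ ≤ C0 → C0 ≤ i →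
      ∀ (k : Type v) [Field k] [CharP k p] [IsAlgClosed k] (U : Type w) [AddCommGroup U]
      [Module k U] [Module.Finite k U]
      (τ : Representation k Γ U) (r : ℕ) (Z E D : Subgroup Γ) (lam mu : Γ → k)
      (V W : Submodule k U), WHyp p r τ G i (PS p G (i - C0)) Z E lam mu D V W →
      PS p G (i - C0) ≤ sW τ W → ∀ x : Γ,
      2 ^ j * Nat.card (Dc (rgCj x⁻¹ R) (sW τ W) E D (r ^ s)) ≤ Nat.card R := by
  obtain ⟨b', hb'⟩ : ∃ b', b' = b + cz s + 1 := ⟨_, rfl⟩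
  obtain ⟨Λ, hΛ⟩ := dxc p n m f j hQ b' s
  refine ⟨Λ, fun Γ _ _ G R H l hF hl i hi1 hi2 C0 hC1 hC2 k _ _ _ U _ _ _ τ r Z E D lam mu V W h hT
    x => ?_⟩
  have nPS : ∀ (a : ℕ) (S : Subgroup Γ), Nm S (PS p G a) := fun a S =>
    PS_nm (nm_of_normal hF.nG S) a
  have hPx : ∀ a : ℕ, rgCj x (PS p G a) = PS p G a := fun a =>
    rgCj_of_nm (nPS a ⊤) (Subgroup.mem_top x)
  have hEx : rgCj x E = E := rgCj_of_nm (nm_of_normal h.z.nE ⊤) (Subgroup.mem_top x)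
  have hZx : rgCj x Z = Z := rgCj_of_nm (nm_of_normal (zNormal h.z) ⊤) (Subgroup.mem_top x)
  have nWD : Nm (sW τ W) D := nm_mono (nDV h) (WleV h)
  have nWDx : Nm (rgCj x (sW τ W)) (rgCj x D) := nm_conj x nWD
  have hZD : Z ≤ rgCj x D := by
    have h1 := (rgCj_le x).2 (ZD h)
    rwa [hZx] at h1
  have hDE : rgCj x D ≤ E := by
    have h1 := (rgCj_le x).2 (DE h)
    rwa [hEx] at h1
  have hEW : E ≤ rgCj x (sW τ W) := by
    have h1 := (rgCj_le x).2 (EW h)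
    rwa [hEx] at h1
  obtain ⟨C, hC⟩ := exCc (Y := sW τ W) (J := E) (M := D) nWD
  have hCx := cc_conj x hC
  rw [hEx] at hCx
  have key := hΛ Γ G R H l hF.lh (i - C0) (by omega) r E (rgCj x D) (rgCj x D)
    (rgCj x (sW τ W)) h.z.hr (by
      rw [← hPx]
      exact (rgCj_le x).2 hT) (nm_of_normal h.z.nE _) nWDx nWDx le_rfl hDE (nm_mono nWDx hEW)
    (fun y hy z hz => hZD (h.z.com y hy z hz)) (fun y hy => hZD (h.z.pow y hy))
    (by
      intro g hg z hz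
      rw [commutatorElement_def]
      exact (rgCj x D).mul_mem (nWDx g hg z hz) ((rgCj x D).inv_mem hz)) (rgCj x C) hCx
  rcases key with h5 | h5
  · have h6 := Dc_conj x (rgCj x⁻¹ R) (sW τ W) E D (r ^ s)
    rw [fdk_cc, hEx] at h6
    rw [h6, card_rgCj] at h5
    exact h5
  · exfalso
    apply nQ h hT
    intro t ht e he
    have e1 : l - b' + cz s = l - b - 1 := by omega
    rw [e1, ← hPx, rgCj_le] at h5
    exact ((hC t).1 (h5 (PS_anti G (by omega : l - b - 1 ≤ i - 1) ht))).2 e he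

end H78CY
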