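import Pool.Agent.H78.CY.FinP
import Pool.Agent.H78.TP.FinG

/-!
From finite groups to periodic locally soluble groups (helper78): assembly.
-/

namespace H78CY

open Subgroup H78TP
open scoped commutatorElement

universe u

theorem finI {G : Type u} [Group G] (ht : ∀ g : G, IsOfFinOrder g) (hs : LocallySoluble G)
    (H : Subgroup G) [Finite H] (hnil : Group.IsNilpotent H)
    (hch : IsChernikov (centralizer (H : Set G))) : HasSeries G := by
  have hlf : ∀ S : Subgroup G, S.FG → Finite S := lf ht hs
  obtain ⟨j, m, hch'⟩ := chrB (centralizer (H : Set G)) hch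
  obtain ⟨h, hh⟩ := finN.{u} (Nat.card H) m j
  refine cpt hlf H h fun F hF hHF => ?_
  let eH : H.subgroupOf F ≃* H := Subgroup.subgroupOfEquivOfLe hHF
  have hyp : NHyp (Nat.card H) m j F (H.subgroupOf F) := by
    refine ⟨hs F ?_, ?_, ?_, ?_⟩
    · rw [← Group.fg_iff_subgroup_fg]
      infer_instance
    · haveI := hnil
      exact Group.nilpotent_of_mulEquiv eH.symm
    · rw [Nat.card_congr eH.toEquiv]
    · have h1 := fing_kj H H H F (sup_idem H) hHF hHF j m hch'
      intro s hs'
      have h2 := h1 s hs'
      rwa [CC, inf_idem] at h2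
  have h1 := hh F (H.subgroupOf F) hyp
  have h2 := lns_subtype F ⊤ h
  rw [h1, Subgroup.map_bot, ← MonoidHom.range_eq_map, Subgroup.range_subtype] at h2
  exact h2.symm

end H78CY
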