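import Pool.Agent.H78.CY.Def

/-!
[H78 CY PSA] Basic facts on `up`, `dn`, `PS`, `NS`, `XS`, `Nm` (30 min).

PROOFS. All are formal. `up_up`: the generators of `up p X` lie in `up p X` and have `p`-power
order, so they are generators of `up p (up p X)`; the same for `dn_dn` and `PS_up` (`PS p G a` is
`up p` of something for every `a`). `up_nm`, `dn_nm`: conjugation by `y ∈ Y` maps `X` to `X` (so it
maps the generating set into itself: `orderOf` and `x ^ (p ^ k) = 1` are invariant under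
conjugation); use `Subgroup.closure_induction`. `nm_lns`: induction; `gam X n` and `nres X` are
mapped into themselves by conjugation by `y ∈ Y`: with `φ = MulAut.conj y`,
`(gam X n).map φ = gam (X.map φ) n ≤ gam X n` by `gam_map`, `gam_mono` (`X.map φ ≤ X` is `Nm Y X`);
`nres` is the infimum of the `gam`. `nm_sup`: `closure_induction` in the second argument or
`Subgroup.map_sup`. `nm_left`: the elements `y` with `y X y⁻¹ ≤ X` are closed under products, and
under inverses because `Γ` is finite (`y⁻¹` is a power of `y`). `PS_PS`: induction on `b`, start with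
`PS_up`.
-/

namespace H78CY

open Subgroup H78TP
open scoped commutatorElement

variable {Γ : Type*} [Group Γ] {p : ℕ}

theorem up_le (X : Subgroup Γ) : up p X ≤ X := (closure_le _).2 fun _ hx => hx.1

theorem dn_le (X : Subgroup Γ) : dn p X ≤ X := (closure_le _).2 fun _ hx => hx.1

theorem up_mono {X Y : Subgroup Γ} (h : X ≤ Y) : up p X ≤ up p Y :=
  closure_mono fun _ hx => ⟨h hx.1, hx.2⟩

theorem dn_mono {X Y : Subgroup Γ} (h : X ≤ Y) : dn p X ≤ dn p Y :=
  closure_mono fun _ hx => ⟨h hx.1, hx.2⟩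

theorem up_up (X : Subgroup Γ) : up p (up p X) = up p X :=
  le_antisymm (up_le _) (closure_mono fun _ hx => ⟨subset_closure hx, hx.2⟩)

theorem dn_dn (X : Subgroup Γ) : dn p (dn p X) = dn p X :=
  le_antisymm (dn_le _) (closure_mono fun _ hx => ⟨subset_closure hx, hx.2⟩)

theorem nm_self (X : Subgroup Γ) : Nm X X := fun y hy x hx => X.mul_mem (X.mul_mem hy hx) (X.inv_mem hy)

theorem nm_mono {Y Y' X : Subgroup Γ} (h : Nm Y X) (h' : Y' ≤ Y) : Nm Y' X :=
  fun y hy x hx => h y (h' hy) x hx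

theorem nm_of_normal {X : Subgroup Γ} (h : X.Normal) (Y : Subgroup Γ) : Nm Y X :=
  fun y _ x hx => h.conj_mem x hx y

theorem nm_inf {Y X X' : Subgroup Γ} (h : Nm Y X) (h' : Nm Y X') : Nm Y (X ⊓ X') :=
  fun y hy x hx => ⟨h y hy x hx.1, h' y hy x hx.2⟩

private theorem psa_conj (y x : Γ) : (MulAut.conj y).toMonoidHom x = y * x * y⁻¹ := rfl

private theorem psa_iff {Y X : Subgroup Γ} : Nm Y X ↔ ∀ y ∈ Y, X.map (MulAut.conj y).toMonoidHom ≤ X := by
  constructor
  · intro h y hy
    rintro _ ⟨x, hx, rfl⟩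
    exact h y hy x hx
  · intro h y hy x hx
    exact h y hy ⟨x, hx, rfl⟩

private theorem psa_closure {Y : Subgroup Γ} (S : Set Γ) (h : ∀ y ∈ Y, ∀ x ∈ S, y * x * y⁻¹ ∈ S) :
    Nm Y (Subgroup.closure S) := by
  rw [psa_iff]
  intro y hy
  rw [MonoidHom.map_closure, closure_le]
  rintro _ ⟨x, hx, rfl⟩
  exact subset_closure (h y hy x hx)

theorem up_nm {Y X : Subgroup Γ} (h : Nm Y X) : Nm Y (up p X) := by
  apply psa_closure
  rintro y hy x ⟨hx, k, hk⟩
  exact ⟨h y hy x hx, k, by rw [conj_pow, hk, mul_one, mul_inv_cancel]⟩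

theorem dn_nm {Y X : Subgroup Γ} (h : Nm Y X) : Nm Y (dn p X) := by
  apply psa_closure
  rintro y hy x ⟨hx, hk⟩
  refine ⟨h y hy x hx, ?_⟩
  have h1 : orderOf (y * x * y⁻¹) = orderOf x := by
    have h2 := orderOf_injective (MulAut.conj y).toMonoidHom (MulAut.conj y).injective x
    rw [psa_conj] at h2
    exact h2
  rw [h1]
  exact hk

private theorem psa_gam {Y X : Subgroup Γ} (h : Nm Y X) (n : ℕ) : Nm Y (gam X n) := by
  rw [psa_iff] at h ⊢
  intro y hy
  rw [gam_map]
  exact gam_mono (h y hy) n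

private theorem psa_nres {Y X : Subgroup Γ} (h : Nm Y X) : Nm Y (nres X) := by
  intro y hy x hx
  unfold nres at hx ⊢
  rw [mem_iInf] at hx ⊢
  exact fun n => psa_gam h n y hy x (hx n)

theorem nm_lns {Y X : Subgroup Γ} (h : Nm Y X) (c : ℕ) : Nm Y (lns X c) := by
  induction c with
  | zero => exact h
  | succ c ih =>
    rw [lns_succ]
    exact psa_nres ih

theorem nm_sup {Y X X' : Subgroup Γ} (h : Nm Y X) (h' : Nm Y X') : Nm Y (X ⊔ X') := by
  rw [psa_iff] at h h' ⊢
  intro y hy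
  rw [Subgroup.map_sup]
  exact sup_le_sup (h y hy) (h' y hy)

theorem nm_left [Finite Γ] {Y Y' X : Subgroup Γ} (h : Nm Y X) (h' : Nm Y' X) : Nm (Y ⊔ Y') X := by
  have key : ∀ {Z : Subgroup Γ}, Nm Z X → Z ≤ normalizer (X : Set Γ) := by
    intro Z hZ z hz
    rw [mem_normalizer_iff]
    intro x
    constructor
    · exact fun hx => hZ z hz x hx
    · intro hx
      have h1 := hZ z⁻¹ (Z.inv_mem hz) _ hx
      have e : z⁻¹ * (z * x * z⁻¹) * z⁻¹⁻¹ = x := by group
      rw [e] at h1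
      exact h1
  have h1 : Y ⊔ Y' ≤ normalizer (X : Set Γ) := sup_le (key h) (key h')
  intro y hy x hx
  exact ((mem_normalizer_iff.1 (h1 hy)) x).1 hx

theorem PS_le (G : Subgroup Γ) (a : ℕ) : PS p G a ≤ G := by
  induction a with
  | zero => exact up_le G
  | succ a ih => exact (up_le _).trans ((dn_le _).trans ih)

theorem PS_nm {Y G : Subgroup Γ} (h : Nm Y G) (a : ℕ) : Nm Y (PS p G a) := by
  induction a with
  | zero => exact up_nm h
  | succ a ih => exact up_nm (dn_nm ih)

theorem NS_nm {Y G : Subgroup Γ} (h : Nm Y G) (a : ℕ) : Nm Y (NS p G a) := dn_nm (PS_nm h a)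

theorem XS_nm {Y G : Subgroup Γ} (h : Nm Y G) (a c : ℕ) : Nm Y (XS p G a c) :=
  nm_sup (nm_lns (NS_nm h a) c) (PS_nm h (a + 1))

theorem NS_le_PS (G : Subgroup Γ) (a : ℕ) : NS p G a ≤ PS p G a := dn_le _

theorem PS_succ_le_NS (G : Subgroup Γ) (a : ℕ) : PS p G (a + 1) ≤ NS p G a := up_le _

theorem PS_anti (G : Subgroup Γ) : Antitone (PS p G) :=
  antitone_nat_of_succ_le fun a => (PS_succ_le_NS G a).trans (NS_le_PS G a)

theorem PS_up (G : Subgroup Γ) (a : ℕ) : up p (PS p G a) = PS p G a := by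
  cases a with
  | zero => exact up_up G
  | succ a => exact up_up _

theorem NS_dn (G : Subgroup Γ) (a : ℕ) : dn p (NS p G a) = NS p G a := dn_dn _

theorem PS_PS (G : Subgroup Γ) (a b : ℕ) : PS p (PS p G a) b = PS p G (a + b) := by
  induction b with
  | zero => exact PS_up G a
  | succ b ih =>
    show up p (dn p (PS p (PS p G a) b)) = up p (dn p (PS p G (a + b)))
    rw [ih]

theorem XS_le_NS (G : Subgroup Γ) (a c : ℕ) : XS p G a c ≤ NS p G a :=
  sup_le (lns_le _ _) (PS_succ_le_NS G a)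

theorem PS_le_XS (G : Subgroup Γ) (a c : ℕ) : PS p G (a + 1) ≤ XS p G a c := le_sup_right

theorem XS_zero (G : Subgroup Γ) (a : ℕ) : XS p G a 0 = NS p G a := by
  unfold XS
  rw [lns_zero]
  exact sup_eq_left.2 (PS_succ_le_NS G a)

theorem XS_succ_le (G : Subgroup Γ) (a c : ℕ) : XS p G a (c + 1) ≤ XS p G a c :=
  sup_le_sup_right (lns_anti_succ _ _) _

theorem XS_bot (G : Subgroup Γ) (a c : ℕ) (h : lns (PS p G a) c = ⊥) :
    XS p G a c = PS p G (a + 1) := by
  have h1 : lns (NS p G a) c = ⊥ := by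
    rw [eq_bot_iff, ← h]
    exact lns_mono (NS_le_PS G a) c
  unfold XS
  rw [h1, bot_sup_eq]

end H78CY
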