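import Pool.Agent.H78.CY.Ph
import Pool.Agent.H78.CY.PsA
import Pool.Agent.H78.TP.Rk2

/-!
[H78 CY FXB] Few fixed points of `R` on elementary abelian `p`-sections (50 min).

PROOF. Let `Y = X ⊔ (P ⊔ R)`, as a group, `K' = K.subgroupOf Y`: normal in `Y` (`X` and `P ⊔ R` normalise
`K`: `nm_left`), `lns K' g = ⊥` (`lns_subtype`, `Subgroup.map_eq_bot_iff_of_injective`), `π : Y →* Y ⧸ K'`.
`ph_sub` and `ph_map` (kernel `K'`): `PHyp p n n' m j' (Y ⧸ K') P̄ R̄`, `j' = inHn n m g j`, `P̄`, `R̄` the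
images of `P`, `R`. Let `B` be the image of `C`. `B` centralises `R̄`. `P` normalises `C`: for `t ∈ P`,
`x ∈ C`, `y ∈ R`: `⁅y, t x t⁻¹⁆ = t ⁅y, x⁆ t⁻¹ ∈ K` as `t` commutes with `y` and normalises `K`; so `P̄` normalises
`B`. `B` is a `p`-group (`x ^ p = 1`), so by `rk2` (`S = B`, `T = P̄`, `|P̄| ≤ |P ⊔ R| ≤ n`,
`B ⊓ centralizer P̄ ≤ CC P̄ R̄`, `c = j' * p ^ m`) `RB p (rkM p c n) B`. Apply it to `U = B`, `V = ⊥`
(commutators of `C` are in `K`): `|B| = (⊥ : Subgroup _).relIndex B ≤ rkM p c n`, and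
`|B| = K.relIndex C` (`C ≤ X ≤ Y`, the kernel of `π` on `C` is `K`; `K ≤ C`; `Subgroup.relIndex_ker`).
-/

namespace H78CY

open Subgroup H78TP
open scoped commutatorElement

theorem fxb (p n n' m j g : ℕ) [Fact p.Prime] {F : Type*} [Group F] [Finite F]
    (P R : Subgroup F) (h : PHyp p n n' m j F P R) (X K : Subgroup F) (nX : Nm (P ⊔ R) X)
    (hKX : K ≤ X) (nK : Nm X K) (nK' : Nm (P ⊔ R) K) (hK : lns K g = ⊥)
    (hp : ∀ x ∈ X, x ^ p ∈ K) (hc : ∀ x ∈ X, ∀ y ∈ X, ⁅x, y⁆ ∈ K) (C : Subgroup F)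
    (hC : ∀ x, x ∈ C ↔ x ∈ X ∧ ∀ y ∈ R, ⁅y, x⁆ ∈ K) :
    K.relIndex C ≤ rkM p (inHn n m g j * p ^ m) n := by
  have hpp : p.Prime := Fact.out
  set Y : Subgroup F := X ⊔ (P ⊔ R) with hY
  have hXY : X ≤ Y := le_sup_left
  have hPY : P ≤ Y := le_sup_left.trans le_sup_right
  have hRY : R ≤ Y := le_sup_right.trans le_sup_right
  have nYK : Nm Y K := nm_left nK nK'
  have hn : (K.subgroupOf Y).Normal := by
    constructor
    intro a ha y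
    rw [Subgroup.mem_subgroupOf] at ha ⊢
    exact nYK y.1 y.2 _ ha
  set π : Y →* Y ⧸ K.subgroupOf Y := QuotientGroup.mk' (K.subgroupOf Y) with hπ
  have hker : π.ker = K.subgroupOf Y := QuotientGroup.ker_mk' _
  have hπ1 : ∀ z : Y, z.1 ∈ K → π z = 1 := by
    intro z hz
    rw [← MonoidHom.mem_ker, hker, Subgroup.mem_subgroupOf]
    exact hz
  have hlns : lns π.ker g = ⊥ := by
    rw [hker]
    have h5 := lns_subtype Y (K.subgroupOf Y) g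
    rw [Subgroup.map_subgroupOf_eq_of_le (hKX.trans hXY), hK] at h5
    exact (Subgroup.map_eq_bot_iff_of_injective _ Y.subtype_injective).1 h5
  have h2 := ph_map π (QuotientGroup.mk'_surjective _) (ph_sub h Y hPY hRY) hlns
  have hCX : C ≤ X := fun x hx => ((hC x).1 hx).1
  have hCY : C ≤ Y := hCX.trans hXY
  set B : Subgroup (Y ⧸ K.subgroupOf Y) := (C.subgroupOf Y).map π with hB
  have hBp : ∀ z ∈ B, z ^ p = 1 := by
    rintro _ ⟨c, hc', rfl⟩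
    rw [← map_pow]
    exact hπ1 _ (hp c.1 (hCX hc'))
  have hBc : ∀ z ∈ B, ∀ w ∈ B, ⁅z, w⁆ = 1 := by
    rintro _ ⟨c, hc', rfl⟩ _ ⟨d, hd', rfl⟩
    rw [← map_commutatorElement]
    exact hπ1 _ (hc c.1 (hCX hc') d.1 (hCX hd'))
  have hBR : B ≤ centralizer (((R.subgroupOf Y).map π : Subgroup (Y ⧸ K.subgroupOf Y)) :
      Set (Y ⧸ K.subgroupOf Y)) := by
    rintro _ ⟨c, hc', rfl⟩
    rw [mem_centralizer_iff]
    rintro _ ⟨y, hy, rfl⟩
    have h3 : π ⁅y, c⁆ = 1 := hπ1 _ (((hC c.1).1 hc').2 y.1 hy)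
    rw [map_commutatorElement] at h3
    exact commutatorElement_eq_one_iff_mul_comm.1 h3
  have hPB : ∀ t ∈ (P.subgroupOf Y).map π, ∀ x ∈ B, t * x * t⁻¹ ∈ B := by
    rintro _ ⟨t, ht, rfl⟩ _ ⟨c, hc', rfl⟩
    refine ⟨t * c * t⁻¹, ?_, by rw [map_mul, map_mul, map_inv]⟩
    have ht' : t.1 ∈ P := ht
    have hc'' : c.1 ∈ C := hc'
    change t.1 * c.1 * t.1⁻¹ ∈ C
    refine (hC _).2 ⟨nX t.1 (Subgroup.mem_sup_left ht') _ (hCX hc''), fun y hy => ?_⟩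
    have h4 : t.1 * y = y * t.1 := h.comm t.1 ht' y hy
    have h5 : t.1 * y⁻¹ = y⁻¹ * t.1 := h.comm t.1 ht' y⁻¹ (R.inv_mem hy)
    have e1 : ⁅y, t.1 * c.1 * t.1⁻¹⁆ = t.1 * ⁅y, c.1⁆ * t.1⁻¹ := by
      simp only [commutatorElement_def]
      calc y * (t.1 * c.1 * t.1⁻¹) * y⁻¹ * (t.1 * c.1 * t.1⁻¹)⁻¹
          = (y * t.1) * c.1 * t.1⁻¹ * (y⁻¹ * t.1) * c.1⁻¹ * t.1⁻¹ := by group
        _ = (t.1 * y) * c.1 * t.1⁻¹ * (t.1 * y⁻¹) * c.1⁻¹ * t.1⁻¹ := by rw [h4, h5]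
        _ = t.1 * (y * c.1 * y⁻¹ * c.1⁻¹) * t.1⁻¹ := by group
    rw [e1]
    exact nK' t.1 (Subgroup.mem_sup_left ht') _ (((hC c.1).1 hc'').2 y hy)
  have h3 : RB p (rkM p (inHn n m g j * p ^ m) n) B := by
    refine rk2 p _ n B ((P.subgroupOf Y).map π) ?_ h2.hP
      ((Subgroup.card_le_of_le le_sup_left).trans h2.cH) hPB ?_
    · intro z
      exact ⟨1, by rw [pow_one]; exact Subtype.ext (hBp z.1 z.2)⟩
    · exact rb_mono (le_inf inf_le_right (inf_le_left.trans hBR)) (h2.kj p hpp)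
  have h4 := h3 B ⊥ bot_le le_rfl (fun x hx => by rw [Subgroup.mem_bot]; exact hBp x hx)
    (fun x hx y hy => by rw [Subgroup.mem_bot]; exact hBc x hx y hy)
  rw [Subgroup.relIndex_bot_left, hB, ← Subgroup.relIndex_ker, hker,
    Subgroup.relIndex_subgroupOf hCY] at h4
  exact h4

end H78CY
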