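import Pool.Agent.H78.CY.Def3
import Pool.Agent.H78.TP.ThP
import Pool.Agent.H78.TP.RbA

/-!
[H78 CY OPG] Normal `p'`-subgroups have bounded height (40 min).

PROOF. Let `N` be a normal `p'`-subgroup of `F` and `D = N ⊓ centralizer P`. `R` normalises `D` (`N` is
normal, `R` commutes with `P`). Let `Y = D ⊔ R`, as a group, `R' = R.subgroupOf Y`. Claim:
`NHyp n' m (n' * j) Y R'`. Subgroups of soluble groups are soluble, `R' ≃* R`. `kn`: let `s` be a prime,
`C = Y ⊓ centralizer R` (the image of `centralizer R'` under `Y.subtype`) and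
`C' = D ⊓ centralizer R ≤ CC P R`, so `RB s (j * s ^ m) C'` (`h.kj`, `rb_mono`). `C'.relIndex C ≤
D.relIndex Y ≤ |R| ≤ n'` (every element of `Y` is `d y` with `d ∈ D`, `y ∈ R`; `C' = C ⊓ D`). `rb_index`:
`RB s (n' * (j * s ^ m)) C`, and `RB` for `centralizer R'` in `Y` follows (images under the injective
`Y.subtype`). `ih` gives `lns (⊤ : Subgroup Y) t = ⊥`, so `lns Y t = ⊥` (`lns_subtype`), `lns D t = ⊥`
(`lns_mono`), and `thP` (`K := N`; `N ⊓ centralizer P = D`, `|P| ≤ |P ⊔ R| ≤ n`) gives the claim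
(`H78TP.opF` in `TP/OpF.lean` is the model).
-/

namespace H78CY

open Subgroup H78TP
open scoped commutatorElement

universe u

/-- `RB` and injective homomorphisms -/
private theorem opg_rb {G F : Type*} [Group G] [Group F] (f : G →* F)
    (hf : Function.Injective f) {s c : ℕ} {C : Subgroup G} (h : RB s c (C.map f)) :
    RB s c C := by
  intro U V hVU hU h1 h2
  have h3 := h (U.map f) (V.map f) (map_mono hVU) (map_mono hU)
    (by
      rintro _ ⟨x, hx, rfl⟩
      exact ⟨x ^ s, h1 x hx, map_pow _ _ _⟩)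
    (by
      rintro _ ⟨x, hx, rfl⟩ _ ⟨y, hy, rfl⟩
      exact ⟨⁅x, y⁆, h2 x hx y hy, map_commutatorElement _ _ _⟩)
  rwa [Subgroup.relIndex_map_map_of_injective _ _ hf] at h3

theorem opG (p n n' m j t : ℕ) [Fact p.Prime]
    (ih : ∀ (F : Type u) [Group F] [Finite F] (H : Subgroup F), NHyp n' m (n' * j) F H →
      lns (⊤ : Subgroup F) t = ⊥)
    {F : Type u} [Group F] [Finite F] (P R : Subgroup F) (h : PHyp p n n' m j F P R) :
    OpT p (hTM p n t) F := by
  intro N hN hpN
  have hs := h.sol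
  have hsub : ∀ X : Subgroup F, Group.IsSolvable X := fun X =>
    Group.isSolvable_of_isSolvable_injective X.subtype_injective
  have hcP : Nat.card P ≤ n := (Subgroup.card_le_of_le le_sup_left).trans h.cH
  refine thP p n N P (hsub N) hpN h.hP hcP (fun x _ y hy => hN.conj_mem y hy x) _ ?_
  set D : Subgroup F := N ⊓ centralizer (P : Set F) with hD
  have hRD : ∀ x ∈ R, ∀ y ∈ D, x * y * x⁻¹ ∈ D := by
    intro x hx y hy
    refine ⟨hN.conj_mem y hy.1 x, ?_⟩
    refine mem_centralizer_iff.2 fun z hz => ?_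
    have h1 := mem_centralizer_iff.1 hy.2 z hz
    have h2 := h.comm z hz x hx
    calc z * (x * y * x⁻¹) = (z * x) * y * x⁻¹ := by group
      _ = x * (z * y) * x⁻¹ := by rw [h2]; group
      _ = x * y * (x⁻¹ * (x * z)) * x⁻¹ := by rw [h1]; group
      _ = x * y * (x⁻¹ * (z * x)) * x⁻¹ := by rw [h2]
      _ = x * y * x⁻¹ * z := by group
  have hnorm : D ⊔ R ≤ normalizer (D : Set F) := by
    apply sup_le le_normalizer
    intro x hx
    rw [Subgroup.mem_normalizer_iff]
    intro y
    constructor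
    · intro hy
      exact hRD x hx y hy
    · intro hy
      have h1 := hRD x⁻¹ (inv_mem hx) _ hy
      have h2 : x⁻¹ * (x * y * x⁻¹) * x⁻¹⁻¹ = y := by group
      rwa [h2] at h1
  have hDn : (D.subgroupOf (D ⊔ R)).Normal := normal_subgroupOf_of_le_normalizer hnorm
  have hcR : Nat.card (R.subgroupOf (D ⊔ R)) = Nat.card R :=
    Nat.card_congr (Subgroup.subgroupOfEquivOfLe (le_sup_right : R ≤ D ⊔ R)).toEquiv
  have hidx : (D.subgroupOf (D ⊔ R)).index ≤ n' := by
    have h1 : R.subgroupOf (D ⊔ R) ⊔ D.subgroupOf (D ⊔ R) = ⊤ := by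
      rw [sup_comm, ← Subgroup.subgroupOf_sup le_sup_left le_sup_right, Subgroup.subgroupOf_self]
    have h2 := Subgroup.relIndex_sup_right (R.subgroupOf (D ⊔ R)) (D.subgroupOf (D ⊔ R))
    rw [h1, Subgroup.relIndex_top_right] at h2
    rw [h2]
    refine (Nat.le_of_dvd Nat.card_pos (Subgroup.relIndex_dvd_card _ _)).trans ?_
    rw [hcR]
    exact h.cR
  have hyp : NHyp n' m (n' * j) (D ⊔ R : Subgroup F) (R.subgroupOf (D ⊔ R)) := by
    refine ⟨hsub _, ?_, by rw [hcR]; exact h.cR, ?_⟩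
    · have := h.nR
      exact Group.nilpotent_of_surjective
        (Subgroup.subgroupOfEquivOfLe (le_sup_right : R ≤ D ⊔ R)).symm.toMonoidHom
        (Subgroup.subgroupOfEquivOfLe (le_sup_right : R ≤ D ⊔ R)).symm.surjective
    · intro s hsp
      rw [mul_assoc]
      refine rb_index s (j * s ^ m) n' _
        (D.subgroupOf (D ⊔ R) ⊓ centralizer ((R.subgroupOf (D ⊔ R) : Subgroup _) : Set _))
        inf_le_right ?_ ?_
      · rw [Subgroup.inf_relIndex_right]
        refine le_trans ?_ hidx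
        rw [← Subgroup.relIndex_top_right]
        exact Subgroup.relIndex_le_of_le_right le_top Subgroup.index_ne_zero_of_finite
      · apply opg_rb (D ⊔ R).subtype (Subgroup.subtype_injective _)
        refine rb_mono ?_ (h.kj s hsp)
        rintro _ ⟨x, ⟨hx1, hx2⟩, rfl⟩
        refine ⟨(Subgroup.mem_subgroupOf.1 hx1).2, mem_centralizer_iff.2 fun y hy => ?_⟩
        have h3 := mem_centralizer_iff.1 hx2 ⟨y, (le_sup_right : R ≤ D ⊔ R) hy⟩ hy
        exact congrArg Subtype.val h3
  have h1 := ih (D ⊔ R : Subgroup F) (R.subgroupOf (D ⊔ R)) hyp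
  have h2 := lns_subtype (D ⊔ R) ⊤ t
  rw [h1, Subgroup.map_bot, ← MonoidHom.range_eq_map, Subgroup.range_subtype] at h2
  rw [eq_bot_iff, h2]
  exact lns_mono le_sup_left t

end H78CY
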