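import Pool.Agent.H78.CY.PsA

/-!
[H78 CY PSM] The lower `p`-series and homomorphisms (30 min).

PROOFS. `up_map`: `≤`: images of elements of `p`-power order. `≥`: let `y = f x`, `x ∈ X`,
`y ^ (p ^ k) = 1`. Write `orderOf x = p ^ e * t`, `p ∤ t`, and choose an integer (natural) `u` with
`u ≡ 1 mod p ^ k` and `t ∣ u` (Chinese remainder). Then `x ^ u` has order dividing `p ^ e`, and
`f (x ^ u) = y ^ u = y`. `dn_map` in the same way: `y = f x`, `orderOf y = t'` prime to `p`, `u ≡ 1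
mod t'`, `p ^ e ∣ u`, where `orderOf x = p ^ e * t`. `PS_map`: induction. `PS_sub` : if `G ≤ Y` and
`G' = G.subgroupOf Y` then `(PS p G' a).map Y.subtype = PS p G a` (by `PS_map`,
`Subgroup.map_subgroupOf_eq_of_le`); so `PS p G' a = (PS p G a).subgroupOf Y` (`Subgroup.comap_map` for
the injective map `Y.subtype`, `Subgroup.subgroupOf` is `comap`).
-/

namespace H78CY

open Subgroup H78TP
open scoped commutatorElement

variable {Γ Γ' : Type*} [Group Γ] [Group Γ'] {p : ℕ}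

private theorem psm_ord [Finite Γ] [hp : Fact p.Prime] (x : Γ) : ∃ k t : ℕ, ¬ p ∣ t ∧ orderOf x = p ^ k * t := by
  have h1 : orderOf x ≠ 0 := (orderOf_pos x).ne'
  obtain ⟨k, t, ht, h2⟩ := Nat.exists_eq_pow_mul_and_not_dvd h1 p hp.out.ne_one
  exact ⟨k, t, ht, h2⟩

theorem up_map [Finite Γ] [Fact p.Prime] (f : Γ →* Γ') (X : Subgroup Γ) :
    (up p X).map f = up p (X.map f) := by
  have hp : p.Prime := Fact.out
  apply le_antisymm
  · unfold up
    rw [MonoidHom.map_closure, closure_le]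
    rintro _ ⟨x, ⟨hx, k, hk⟩, rfl⟩
    exact subset_closure ⟨⟨x, hx, rfl⟩, k, by rw [← map_pow, hk, map_one]⟩
  · conv_lhs => unfold up
    rw [closure_le]
    rintro _ ⟨⟨x, hx, rfl⟩, k, hk⟩
    obtain ⟨e, t, ht, h⟩ := psm_ord (p := p) x
    have hcop : Nat.Coprime (p ^ k) t := Nat.Coprime.pow_left k ((Nat.Prime.coprime_iff_not_dvd hp).2 ht)
    obtain ⟨u, hu1, hu2⟩ := Nat.chineseRemainder hcop 1 0
    refine ⟨x ^ u, subset_closure ⟨pow_mem hx u, e, ?_⟩, ?_⟩
    · rw [← pow_mul, ← orderOf_dvd_iff_pow_eq_one, h, mul_comm u]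
      exact Nat.mul_dvd_mul_left _ ((Nat.modEq_zero_iff_dvd).1 hu2)
    · rw [map_pow]
      have h1 : u ≡ 1 [MOD orderOf (f x)] := hu1.of_dvd (orderOf_dvd_of_pow_eq_one hk)
      have h2 := pow_eq_pow_iff_modEq.2 h1
      rw [h2, pow_one]

theorem dn_map [Finite Γ] [Fact p.Prime] (f : Γ →* Γ') (X : Subgroup Γ) :
    (dn p X).map f = dn p (X.map f) := by
  have hp : p.Prime := Fact.out
  apply le_antisymm
  · unfold dn
    rw [MonoidHom.map_closure, closure_le]
    rintro _ ⟨x, ⟨hx, hk⟩, rfl⟩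
    exact subset_closure ⟨⟨x, hx, rfl⟩, fun hh => hk (hh.trans (orderOf_map_dvd f x))⟩
  · conv_lhs => unfold dn
    rw [closure_le]
    rintro _ ⟨⟨x, hx, rfl⟩, hk⟩
    obtain ⟨e, t, ht, h⟩ := psm_ord (p := p) x
    have hcop : Nat.Coprime (orderOf (f x)) (p ^ e) :=
      (Nat.Coprime.pow_left e ((Nat.Prime.coprime_iff_not_dvd hp).2 hk)).symm
    obtain ⟨u, hu1, hu2⟩ := Nat.chineseRemainder hcop 1 0
    refine ⟨x ^ u, subset_closure ⟨pow_mem hx u, ?_⟩, ?_⟩
    · intro hh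
      apply ht
      refine hh.trans ?_
      rw [orderOf_dvd_iff_pow_eq_one, ← pow_mul, ← orderOf_dvd_iff_pow_eq_one, h]
      exact Nat.mul_dvd_mul_right ((Nat.modEq_zero_iff_dvd).1 hu2) _
    · rw [map_pow]
      have h2 := pow_eq_pow_iff_modEq.2 hu1
      rw [h2, pow_one]

theorem PS_map [Finite Γ] [Fact p.Prime] (f : Γ →* Γ') (G : Subgroup Γ) (a : ℕ) :
    (PS p G a).map f = PS p (G.map f) a := by
  induction a with
  | zero => exact up_map f G
  | succ a ih =>
    show (up p (dn p (PS p G a))).map f = up p (dn p (PS p (G.map f) a))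
    rw [up_map, dn_map, ih]

theorem PS_sub [Finite Γ] [Fact p.Prime] {G Y : Subgroup Γ} (h : G ≤ Y) (a : ℕ) :
    PS p (G.subgroupOf Y) a = (PS p G a).subgroupOf Y := by
  have h1 : (PS p (G.subgroupOf Y) a).map Y.subtype = PS p G a := by
    rw [PS_map, Subgroup.map_subgroupOf_eq_of_le h]
  rw [← h1]
  exact (Subgroup.comap_map_eq_self_of_injective Y.subtype_injective _).symm

end H78CY
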