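import Pool.Agent.H78.CY.Ph
import Pool.Agent.H78.CY.PsB
import Pool.Agent.H78.CY.PsM
import Pool.Agent.H78.TP.Opp

/-!
[H78 CY SB] If `P_b(F) = 1` then the height of `F` is bounded (50 min).

PROOF. Induction on `b`, for all `j`. `t` from `hT j`. `b = 0`: `PS p ⊤ 0 = up p ⊤ = ⊥`, so `F` has no element
of order `p`, `p ∤ |F|` (Cauchy), and `OpT` for `N = ⊤` gives `lns ⊤ t = ⊥`.
`b + 1`: let `K` be the largest normal `p'`-subgroup (`oppC`), `W ≤ F ⧸ K` the largest normal `p`-subgroup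
(`oppP`) and `M` its preimage in `F`: `M` is normal, `K ≤ M`. `lns K t = ⊥` (`OpT`), `gam M c ≤ K` for some `c`
(`M / K` is a finite `p`-group, nilpotent), so `lns M 1 ≤ K` (`lns_one_of_gam`) and `lns M (1 + t) = ⊥`
(`lns_trans`). CLAIM `PS p ⊤ b ≤ M`: `up p (NS p ⊤ b) = PS p ⊤ (b + 1) = ⊥`, so `p ∤ |NS p ⊤ b|`, and
`NS p ⊤ b` is normal, so `NS p ⊤ b ≤ K`; by `PS_pow` the image of `PS p ⊤ b` in `F ⧸ K` is a normal
`p`-subgroup, so it is contained in `W`. Let `π : F →* F ⧸ M`: `PS p (⊤ : Subgroup (F ⧸ M)) b =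
(PS p ⊤ b).map π = ⊥` (`PS_map`, `π` surjective). `ph_map`:
`PHyp p n n' m (inHn n m (1 + t) j) (F ⧸ M) ..`, so by induction `lns (⊤ : Subgroup (F ⧸ M)) g' = ⊥`,
and `lns_of_map`: `lns ⊤ (g' + (1 + t)) = ⊥`.
-/

namespace H78CY

open Subgroup H78TP
open scoped commutatorElement

universe u

private theorem sb_up {F : Type*} [Group F] [Finite F] (p : ℕ) [hp : Fact p.Prime]
    (X : Subgroup F) (h : up p X = ⊥) : ¬ p ∣ Nat.card X := by
  intro hd
  obtain ⟨x, hx⟩ := exists_prime_orderOf_dvd_card' p hd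
  have h1 : (x : F) ∈ up p X := by
    refine subset_closure ⟨x.2, 1, ?_⟩
    rw [pow_one, ← Subgroup.coe_pow, ← hx, pow_orderOf_eq_one, Subgroup.coe_one]
  rw [h, Subgroup.mem_bot] at h1
  have h2 : x = 1 := Subtype.ext h1
  rw [h2, orderOf_one] at hx
  exact hp.out.one_lt.ne hx

theorem sb (p n n' m : ℕ) [Fact p.Prime]
    (hT : ∀ j, ∃ t, ∀ (F : Type u) [Group F] [Finite F] (P R : Subgroup F),
      PHyp p n n' m j F P R → OpT p t F) :
    ∀ b j : ℕ, ∃ g, ∀ (F : Type u) [Group F] [Finite F] (P R : Subgroup F),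
      PHyp p n n' m j F P R → PS p (⊤ : Subgroup F) b = ⊥ → lns (⊤ : Subgroup F) g = ⊥ := by
  intro b
  induction b with
  | zero =>
    intro j
    obtain ⟨t, ht⟩ := hT j
    exact ⟨t, fun F _ _ P R h hb => ht F P R h ⊤ inferInstance (sb_up p ⊤ hb)⟩
  | succ b ih =>
    intro j
    obtain ⟨t, ht⟩ := hT j
    obtain ⟨g', hg'⟩ := ih (inHn n m (1 + t) j)
    refine ⟨g' + (1 + t), fun F _ _ P R h hb => ?_⟩
    obtain ⟨K, hKn, hKc, hKm⟩ := oppC p F
    obtain ⟨W, hWn, hWp, hWm⟩ := oppP p (F ⧸ K)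
    have hsK := QuotientGroup.mk'_surjective K
    have hMn : (W.comap (QuotientGroup.mk' K)).Normal := inferInstance
    have hlK : lns K t = ⊥ := ht F P R h K hKn hKc
    obtain ⟨c, hc⟩ : ∃ c, gam (W.comap (QuotientGroup.mk' K)) c ≤ K := by
      obtain ⟨c, hc⟩ := gam_of_isNilpotent W hWp.isNilpotent
      refine ⟨c, ?_⟩
      have h1 : (gam (W.comap (QuotientGroup.mk' K)) c).map (QuotientGroup.mk' K) = ⊥ := by
        rw [gam_map, Subgroup.map_comap_eq_self_of_surjective hsK, hc]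
      rwa [Subgroup.map_eq_bot_iff, QuotientGroup.ker_mk'] at h1
    have hlM : lns (W.comap (QuotientGroup.mk' K)) (1 + t) = ⊥ :=
      lns_trans (lns_one_of_gam hc) hlK
    have hPM : PS p (⊤ : Subgroup F) b ≤ W.comap (QuotientGroup.mk' K) := by
      have hnm : Nm (⊤ : Subgroup F) ⊤ := nm_self _
      have hNn : (NS p (⊤ : Subgroup F) b).Normal :=
        ⟨fun x hx g => NS_nm hnm b g trivial x hx⟩
      have hPn : (PS p (⊤ : Subgroup F) b).Normal :=
        ⟨fun x hx g => PS_nm hnm b g trivial x hx⟩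
      have hNK : NS p (⊤ : Subgroup F) b ≤ K := hKm _ hNn (sb_up p _ hb)
      rw [← Subgroup.map_le_iff_le_comap]
      refine hWm _ (hPn.map _ hsK) ?_
      rintro ⟨_, x, hx, rfl⟩
      obtain ⟨k, hk⟩ := PS_pow (⊤ : Subgroup F) b x hx
      refine ⟨k, Subtype.ext ?_⟩
      show (QuotientGroup.mk' K x) ^ p ^ k = 1
      rw [← map_pow]
      have h1 : x ^ p ^ k ∈ (QuotientGroup.mk' K).ker := by
        rw [QuotientGroup.ker_mk']
        exact hNK hk
      exact h1
    have hsM := QuotientGroup.mk'_surjective (W.comap (QuotientGroup.mk' K))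
    have h2 : PS p (⊤ : Subgroup (F ⧸ W.comap (QuotientGroup.mk' K))) b = ⊥ := by
      have h1 := PS_map (p := p) (QuotientGroup.mk' (W.comap (QuotientGroup.mk' K))) ⊤ b
      rw [Subgroup.map_top_of_surjective _ hsM] at h1
      rw [← h1, Subgroup.map_eq_bot_iff, QuotientGroup.ker_mk']
      exact hPM
    have h3 := ph_map (QuotientGroup.mk' (W.comap (QuotientGroup.mk' K))) hsM h
      (t := 1 + t) (by rw [QuotientGroup.ker_mk']; exact hlM)
    have h4 := hg' _ _ _ h3 h2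
    exact lns_of_map (QuotientGroup.mk' (W.comap (QuotientGroup.mk' K)))
      (by rw [Subgroup.map_top_of_surjective _ hsM]; exact h4)
      (by rw [QuotientGroup.ker_mk']; exact hlM)

end H78CY
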