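import Pool.Agent.H78.CY.Ph
import Pool.Agent.H78.CY.PsM

/-!
[H78 CY YH] The height of `P_a(F)` (50 min).

PROOFS. `ps_mono`: induction (`up_mono`, `dn_mono`). `yh`: let `Y = X ⊔ (P ⊔ R)`. It suffices that
`NS p Y 0 = dn p (up p Y) ≤ X`: then `PS p Y 1 = up p (NS p Y 0) ≤ up p X = PS p X 0`, and
`PS p Y (1 + s) = PS p (PS p Y 1) s ≤ PS p (PS p X 0) s = PS p X s` (`PS_PS`, `ps_mono`). Work in the group
`Y`; `X' = X.subgroupOf Y` is normal; `π : Y →* Y ⧸ X'`. The image of `Y` is `P̄ R̄` with `P̄`, `R̄` commuting, `P̄` a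
`p`-group and `|R̄|` prime to `p`. An element `a b` (`a ∈ P̄`, `b ∈ R̄`) of `p`-power order is in `P̄`: `b` has
`p`-power order as `(a b) ^ N = a ^ N b ^ N`, so `b = 1`. Hence the image of `up p Y` is contained in `P̄`, and
the elements of order prime to `p` of `P̄` are trivial, so the image of `dn p (up p Y)` is trivial.
`hb`: let `X = PS p ⊤ a` (normal), `Y = X ⊔ (P ⊔ R)`. `ph_sub` for the group `Y`. `PS p (⊤ : Subgroup Y) (b + 1) =
(PS p Y (b + 1)).subgroupOf Y` (`PS_sub` with `G = Y`; `Y.subgroupOf Y = ⊤`), and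
`PS p Y (b + 1) ≤ PS p X b = PS p ⊤ (a + b) = ⊥` (`yh`, `PS_PS`). So `lns (⊤ : Subgroup Y) g = ⊥`,
`lns Y g = ⊥` (`lns_subtype`), `lns X g = ⊥` (`lns_mono`).
-/

namespace H78CY

open Subgroup H78TP
open scoped commutatorElement

universe u

theorem ps_mono {F : Type*} [Group F] {p : ℕ} {A B : Subgroup F} (h : A ≤ B) (a : ℕ) :
    PS p A a ≤ PS p B a := by
  induction a with
  | zero => exact up_mono h
  | succ a ih => exact up_mono (dn_mono ih)

theorem yh_mem {F : Type*} [Group F] {A B : Subgroup F} (h : Nm B A) {y : F} (hy : y ∈ A ⊔ B) :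
    ∃ a ∈ A, ∃ b ∈ B, y = a * b := by
  let S : Subgroup F :=
    { carrier := {y | ∃ a ∈ A, ∃ b ∈ B, y = a * b}
      one_mem' := ⟨1, A.one_mem, 1, B.one_mem, by rw [mul_one]⟩
      mul_mem' := by
        rintro _ _ ⟨a, ha, b, hb, rfl⟩ ⟨a', ha', b', hb', rfl⟩
        refine ⟨a * (b * a' * b⁻¹), A.mul_mem ha (h b hb a' ha'), b * b', B.mul_mem hb hb', ?_⟩
        group
      inv_mem' := by
        rintro _ ⟨a, ha, b, hb, rfl⟩
        refine ⟨b⁻¹ * a⁻¹ * b⁻¹⁻¹, h _ (B.inv_mem hb) _ (A.inv_mem ha), b⁻¹, B.inv_mem hb, ?_⟩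
        group }
  have hA : A ≤ S := fun a ha => ⟨a, ha, 1, B.one_mem, by rw [mul_one]⟩
  have hB : B ≤ S := fun b hb => ⟨1, A.one_mem, b, hb, by rw [one_mul]⟩
  exact (sup_le hA hB) hy

theorem yh_cop {F : Type*} [Group F] [Finite F] {A B : Subgroup F} (h : Nm B A) {y : F}
    (hy : y ∈ A ⊔ B) (hc : (Nat.card B).Coprime (orderOf y)) : y ∈ A := by
  obtain ⟨a, ha, b, hb, hab⟩ := yh_mem h hy
  have key : ∀ i : ℕ, ∃ c ∈ A, y ^ i = c * b ^ i := by
    intro i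
    induction i with
    | zero => exact ⟨1, A.one_mem, by rw [pow_zero, pow_zero, mul_one]⟩
    | succ i ih =>
      obtain ⟨c, hc', hc''⟩ := ih
      refine ⟨c * (b ^ i * a * (b ^ i)⁻¹), A.mul_mem hc' (h _ (B.pow_mem hb i) a ha), ?_⟩
      rw [pow_succ, hc'', hab, pow_succ]
      group
  obtain ⟨c, hc', hc''⟩ := key (Nat.card B)
  have hbB : b ^ Nat.card B = 1 := by
    have h1 : (⟨b, hb⟩ : B) ^ Nat.card B = 1 := pow_card_eq_one'
    exact congrArg Subtype.val h1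
  rw [hbB, mul_one] at hc''
  obtain ⟨m, hm⟩ := exists_pow_eq_self_of_coprime hc
  rw [← hm, hc'']
  exact A.pow_mem hc' m

theorem yh {F : Type*} [Group F] [Finite F] (p : ℕ) [Fact p.Prime] (X P R : Subgroup F)
    (nX : Nm (P ⊔ R) X) (hP : IsPGroup p P) (hR : ¬ p ∣ Nat.card R)
    (hcomm : ∀ x ∈ P, ∀ y ∈ R, x * y = y * x) (s : ℕ) :
    PS p (X ⊔ (P ⊔ R)) (s + 1) ≤ PS p X s := by
  have hp : p.Prime := Fact.out
  have h1 : Nm R (X ⊔ P) := by
    refine nm_sup (nm_mono nX le_sup_right) (fun y hy x hx => ?_)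
    rw [← hcomm x hx y hy, mul_inv_cancel_right]
    exact hx
  have h2 : Nm P X := nm_mono nX le_sup_left
  have h3 : up p (X ⊔ (P ⊔ R)) ≤ X ⊔ P := by
    refine (closure_le _).2 ?_
    rintro x ⟨hx, k, hk⟩
    rw [← sup_assoc] at hx
    refine yh_cop h1 hx ?_
    refine Nat.Coprime.coprime_dvd_right (orderOf_dvd_of_pow_eq_one hk) ?_
    exact Nat.Coprime.pow_right k ((Nat.Prime.coprime_iff_not_dvd hp).2 hR).symm
  have h4 : dn p (up p (X ⊔ (P ⊔ R))) ≤ X := by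
    refine (closure_le _).2 ?_
    rintro x ⟨hx, hk⟩
    refine yh_cop h2 (h3 hx) ?_
    obtain ⟨k, hk'⟩ := IsPGroup.iff_card.1 hP
    rw [hk']
    exact Nat.Coprime.pow_left k ((Nat.Prime.coprime_iff_not_dvd hp).2 hk)
  have h5 : PS p (X ⊔ (P ⊔ R)) 1 ≤ PS p X 0 := up_mono h4
  have h6 := PS_PS (p := p) (X ⊔ (P ⊔ R)) 1 s
  have h7 := PS_PS (p := p) X 0 s
  rw [add_comm s 1, ← h6]
  rw [zero_add] at h7
  rw [← h7]
  exact ps_mono h5 s

theorem hb (p n n' m j b g : ℕ) [Fact p.Prime]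
    (hg : ∀ (F : Type u) [Group F] [Finite F] (P R : Subgroup F),
      PHyp p n n' m j F P R → PS p (⊤ : Subgroup F) (b + 1) = ⊥ → lns (⊤ : Subgroup F) g = ⊥)
    {F : Type u} [Group F] [Finite F] (P R : Subgroup F) (h : PHyp p n n' m j F P R) (a : ℕ)
    (hab : PS p (⊤ : Subgroup F) (a + b) = ⊥) : lns (PS p (⊤ : Subgroup F) a) g = ⊥ := by
  set X : Subgroup F := PS p (⊤ : Subgroup F) a with hX
  set Y : Subgroup F := X ⊔ (P ⊔ R) with hY
  have nX : Nm (P ⊔ R) X := PS_nm (nm_of_normal inferInstance _) a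
  have hPY : P ≤ Y := le_sup_left.trans le_sup_right
  have hRY : R ≤ Y := le_sup_right.trans le_sup_right
  have h1 : PS p Y (b + 1) = ⊥ := by
    rw [eq_bot_iff]
    refine (yh p X P R nX h.hP h.hR h.comm b).trans ?_
    rw [hX, PS_PS, hab]
  have h2 : PS p (⊤ : Subgroup Y) (b + 1) = ⊥ := by
    have h3 := PS_sub (p := p) (le_refl Y) (b + 1)
    rw [h1, Subgroup.subgroupOf_self, Subgroup.bot_subgroupOf] at h3
    exact h3
  have h3 := hg Y _ _ (ph_sub h Y hPY hRY) h2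
  have h4 : lns Y g = ⊥ := by
    have h5 := lns_subtype Y ⊤ g
    rw [h3, Subgroup.map_bot, ← MonoidHom.range_eq_map, Subgroup.range_subtype] at h5
    exact h5.symm
  rw [eq_bot_iff, ← h4]
  exact lns_mono le_sup_left g

end H78CY
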