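import Pool.Agent.H78.CY.ThmD
import Pool.Agent.H78.CY.Sb
import Pool.Agent.H78.CY.Yh
import Pool.Agent.H78.CY.Fxb
import Pool.Agent.H78.CY.OpG
import Pool.Agent.H78.TP.RkH

/-!
The theorem on finite groups (helper78): assembly.
-/

namespace H78CY

open Subgroup H78TP
open scoped commutatorElement

universe u

theorem ps_bot {F : Type*} [Group F] [Finite F] (p : ℕ) [Fact p.Prime]
    (hs : Group.IsSolvable F) : ∃ l, PS p (⊤ : Subgroup F) l = ⊥ ∧
      (PS p (⊤ : Subgroup F) (l - 1) ≠ ⊥ ∨ l = 0) := by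
  have h1 : ∃ l, PS p (⊤ : Subgroup F) l = ⊥ :=
    ⟨_, le_bot_iff.1 (PS_index' hs ⊤ ⊥ (⊥ : Subgroup F).index le_rfl)⟩
  classical
  refine ⟨Nat.find h1, Nat.find_spec h1, ?_⟩
  rcases Nat.eq_zero_or_pos (Nat.find h1) with h | h
  · exact Or.inr h
  · exact Or.inl (Nat.find_min h1 (by omega))

theorem finP (p n n' m : ℕ) [Fact p.Prime]
    (hT : ∀ j, ∃ t, ∀ (F : Type u) [Group F] [Finite F] (P R : Subgroup F),
      PHyp p n n' m j F P R → OpT p t F) (j : ℕ) :
    ∃ h, ∀ (F : Type u) [Group F] [Finite F] (P R : Subgroup F),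
      PHyp p n n' m j F P R → lns (⊤ : Subgroup F) h = ⊥ := by
  choose g hg using fun b => sb p n n' m hT b j
  obtain ⟨t, ht⟩ := thmD.{u} p n' (fun b => rkM p (inHn n m (g (b + 1)) j * p ^ m) n)
    (fun b => g (b + 1))
  refine ⟨g t, fun F _ _ P R h => ?_⟩
  obtain ⟨l, hl, hl'⟩ := ps_bot (F := F) p h.sol
  have hnH : Nm (P ⊔ R) (⊤ : Subgroup F) := fun _ _ _ _ => trivial
  have hcR : Nm (P ⊔ R) R := by
    refine nm_left (fun a ha x hx => ?_) (nm_self R)
    rw [h.comm a ha x hx, mul_inv_cancel_right]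
    exact hx
  have hLH : LHyp p n' (fun b => rkM p (inHn n m (g (b + 1)) j * p ^ m) n)
      (fun b => g (b + 1)) l (⊤ : Subgroup F) R (P ⊔ R) := by
    refine ⟨h.sol, hnH, le_sup_right, hcR, h.hR, h.cR, hl, fun a b hab => ?_, ?_⟩
    · exact hb p n n' m j b (g (b + 1)) (fun F' _ _ P' R' h' hh' => hg (b + 1) F' P' R' h' hh')
        P R h a (by rw [hab]; exact hl)
    · intro a b hab K hK nK nK' hp hc C hC
      have hht : lns K (g (b + 1)) = ⊥ := by
        have e := hb p n n' m j b (g (b + 1))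
          (fun F' _ _ P' R' h' hh' => hg (b + 1) F' P' R' h' hh') P R h a (by rw [hab]; exact hl)
        exact le_bot_iff.1 ((lns_mono hK _).trans e.le)
      exact fxb p n n' m j (g (b + 1)) P R h (PS p ⊤ a) K (PS_nm hnH a) hK nK nK' hht hp hc C hC
  have hlt : l ≤ t := by
    rcases hl' with h1 | h1
    · exact ht F ⊤ R (P ⊔ R) l hLH h1
    · omega
  have h2 : PS p (⊤ : Subgroup F) t = ⊥ := le_bot_iff.1 ((PS_anti ⊤ hlt).trans hl.le)
  exact hg t F P R h h2

theorem finN : ∀ n m j : ℕ, ∃ h, ∀ (F : Type u) [Group F] [Finite F] (H : Subgroup F),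
    NHyp n m j F H → lns (⊤ : Subgroup F) h = ⊥ := by
  intro n
  induction n with
  | zero =>
    intro m j
    refine ⟨0, fun F _ _ H h => ?_⟩
    have h1 := h.card
    have h2 : 0 < Nat.card H := Nat.card_pos
    omega
  | succ n ih =>
    intro m j
    have key : ∀ p : ℕ, ∃ h, p.Prime → ∀ (F : Type u) [Group F] [Finite F] (P R : Subgroup F),
        PHyp p (n + 1) n m j F P R → lns (⊤ : Subgroup F) h = ⊥ := by
      intro p
      by_cases hp : p.Prime
      · haveI : Fact p.Prime := ⟨hp⟩
        obtain ⟨h, hh⟩ := finP.{u} p (n + 1) n m (fun j => by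
          obtain ⟨t, ht⟩ := ih m (n * j)
          exact ⟨hTM p (n + 1) t, fun F _ _ P R h => opG p (n + 1) n m j t ht P R h⟩) j
        exact ⟨h, fun _ => hh⟩
      · exact ⟨0, fun h => absurd h hp⟩
    choose b hb using key
    refine ⟨hRk m j + ∑ p ∈ Finset.range (n + 2), b p, fun F _ _ H h => ?_⟩
    by_cases h1 : Nat.card H = 1
    · have h2 : H = ⊥ := Subgroup.card_eq_one.1 h1
      have h3 : centralizer (H : Set F) = ⊤ := by
        rw [h2]
        refine eq_top_iff.2 fun x _ => ?_
        rw [Subgroup.mem_centralizer_iff]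
        intro y hy
        rw [SetLike.mem_coe, Subgroup.mem_bot] at hy
        rw [hy, one_mul, mul_one]
      have h4 : Group.IsSolvable (⊤ : Subgroup F) := by
        haveI := h.sol
        infer_instance
      refine lns_of_le (Nat.le_add_right _ _) (rkH (⊤ : Subgroup F) h4 m j ?_)
      rw [← h3]
      exact h.kn
    · obtain ⟨p, hp, hpd⟩ := Nat.exists_prime_and_dvd h1
      haveI : Fact p.Prime := ⟨hp⟩
      obtain ⟨P, R, hP, hR, hRn, hcomm, hPR, hcard⟩ := decG p H h.nil
      have h2 : Nat.card R ≤ n := by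
        have h3 : 1 < Nat.card P := by
          by_contra h4
          have h5 : 0 < Nat.card P := Nat.card_pos
          have h6 : Nat.card P = 1 := by omega
          rw [h6, one_mul] at hcard
          rw [hcard] at hR
          exact hR hpd
        have h4 : 0 < Nat.card R := Nat.card_pos
        have h5 : 2 * Nat.card R ≤ Nat.card P * Nat.card R := Nat.mul_le_mul_right _ h3
        have h6 := h.card
        omega
      have hph : PHyp p (n + 1) n m j F P R :=
        ⟨h.sol, hP, hR, hRn, hcomm, by rw [hPR]; exact h.card, h2, fun s hs => by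
          rw [cc_sup, hPR]
          exact h.kn s hs⟩
      have hpn : p ≤ n + 1 := (Nat.le_of_dvd Nat.card_pos hpd).trans h.card
      refine lns_of_le ?_ (hb p hp F P R hph)
      have h7 : b p ≤ ∑ p ∈ Finset.range (n + 2), b p :=
        Finset.single_le_sum (f := b) (fun _ _ => Nat.zero_le _)
          (Finset.mem_range.2 (by omega))
      omega

end H78CY
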