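import Pool.Agent.H78.CY.Bst
import Pool.Agent.H78.CY.PsM
import Pool.Agent.H78.CY.Def2

/-!
[H78 CY TRF] Transfer between `LHyp` and `FHyp`, and the bookkeeping lemma of the strict step (45 min).

PROOFS. `trF`: given `G, R, H, l, L` with `LHyp`, let `Y = G ⊔ H` (as a group), `G' = G.subgroupOf Y`,
`R' = R.subgroupOf Y`, `H' = H.subgroupOf Y`, `L' = L.subgroupOf Y`. `FHyp` for `Y`: `G'` is normal
(`G ⊔ H` normalises `G`: `nm_left (nm_self G) h.GH`), `G' ⊔ H' = ⊤` (`Subgroup.subgroupOf_sup`, or map with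
`Y.subtype`), subgroups of soluble groups are soluble, the orders are unchanged
(`Subgroup.card_subgroupOf...`, all of `G, R, H` are in `Y`). `PS p G' a = (PS p G a).subgroupOf Y`
(`PS_sub`), so `bot`; `ht` by `lns_subtype` (the map by the injective `Y.subtype` is
`lns (PS p G a) _ = ⊥`); `fx`: for `K ≤ PS p G' a` take `K.map Y.subtype`, `C.map Y.subtype`; the
conditions translate literally, `relIndex` is invariant under injective maps
(`Subgroup.relIndex_map_map_of_injective` or similar). `¬ PS p G' (l - b) ≤ L'` because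
`PS p G (l - b) ≤ G ≤ Y`. For `x : Y`: `st R' L' x` has the order of `st R L x` (map by `Y.subtype`), so
`gd R' L' j x ↔ gd R L j x`, and `{x : Y // gd R' L' j x}` has as many elements as
`{x : Γ // x ∈ Y ∧ gd R L j x}`.
`qs_f`: `FHyp` contains `LHyp`; `G ⊔ H = ⊤`. `qs_qp`: `QS` for `e = 2`: at most half of the elements
are not good, so at least half are: `d = 2`.
`stp`: in the first case `Many (16 d)` is the claim. Otherwise `d |good'| ≥ |Γ|`, and
`2 d |exceptions| ≤ |Γ|`; every good element for `L'` which is not an exception is good for `L`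
(`gd_mono`): `16 d |good| ≥ 16 (|Γ| - |Γ| / 2) ≥ |Γ|`.
`fewM`: monotonicity.
-/

namespace H78CY

open Subgroup H78TP
open scoped commutatorElement

universe u

private theorem trf_st {Γ : Type*} [Group Γ] (R L Y : Subgroup Γ) (x : Y) :
    st (R.subgroupOf Y) (L.subgroupOf Y) x = (st R L (x : Γ)).subgroupOf Y := by
  ext g
  rw [mem_st, mem_subgroupOf, mem_subgroupOf, mem_subgroupOf, mem_st]
  rfl

private theorem trf_card {Γ : Type*} [Group Γ] {R Y : Subgroup Γ} (h : R ≤ Y) :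
    Nat.card (R.subgroupOf Y) = Nat.card R :=
  Nat.card_congr (Subgroup.subgroupOfEquivOfLe h).toEquiv

private theorem trf_gd {Γ : Type*} [Group Γ] (R L Y : Subgroup Γ) (h : R ≤ Y) (j : ℕ) (x : Y) :
    gd (R.subgroupOf Y) (L.subgroupOf Y) j x ↔ gd R L j (x : Γ) := by
  unfold gd
  rw [trf_st, trf_card h, trf_card ((st_le R L (x : Γ)).trans h)]

private theorem trf_FH {p n : ℕ} [Fact p.Prime] {m f : ℕ → ℕ} {Γ : Type*} [Group Γ] [Finite Γ]
    {G R H : Subgroup Γ} {l : ℕ} (h : LHyp p n m f l G R H) :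
    FHyp p n m f l (G.subgroupOf (G ⊔ H)) (R.subgroupOf (G ⊔ H)) (H.subgroupOf (G ⊔ H)) := by
  have hG : G ≤ G ⊔ H := le_sup_left
  have hH : H ≤ G ⊔ H := le_sup_right
  have hR : R ≤ G ⊔ H := h.RH.trans hH
  have nG : (G.subgroupOf (G ⊔ H)).Normal := ⟨fun a ha y => by
    rw [Subgroup.mem_subgroupOf] at ha ⊢
    exact nm_left (nm_self G) h.GH y y.2 _ ha⟩
  refine ⟨?_, nG, ?_⟩
  · refine
      { sol := ?_
        GH := ?_
        RH := ?_
        nR := ?_
        cop := ?_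
        cR := ?_
        bot := ?_
        ht := ?_
        fx := ?_ }
    · have := h.sol
      infer_instance
    · exact nm_of_normal nG _
    · intro x hx
      exact h.RH hx
    · intro y hy x hx
      exact h.nR y hy x hx
    · rw [trf_card hR]
      exact h.cop
    · rw [trf_card hR]
      exact h.cR
    · rw [PS_sub hG, h.bot]
      exact Subgroup.bot_subgroupOf _
    · intro a b hab
      have h1 := h.ht a b hab
      have h2 := lns_subtype (G ⊔ H) (PS p (G.subgroupOf (G ⊔ H)) a) (f b)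
      rw [PS_sub hG, Subgroup.map_subgroupOf_eq_of_le ((PS_le G a).trans hG), h1] at h2
      rw [PS_sub hG]
      exact (Subgroup.map_eq_bot_iff_of_injective _ (Subgroup.subtype_injective _)).1 h2
    · intro a b hab K hK nK HK hpK hcK C hC
      have hPY : PS p G a ≤ G ⊔ H := (PS_le G a).trans hG
      have mem1 : ∀ x : (G ⊔ H : Subgroup Γ), x ∈ PS p (G.subgroupOf (G ⊔ H)) a ↔
          (x : Γ) ∈ PS p G a := by
        intro x
        rw [PS_sub hG, mem_subgroupOf]
      have memK : ∀ x : Γ, ∀ hx : x ∈ G ⊔ H, (x ∈ K.map (G ⊔ H).subtype ↔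
          (⟨x, hx⟩ : (G ⊔ H : Subgroup Γ)) ∈ K) := by
        intro x hx
        constructor
        · rintro ⟨y, hy, rfl⟩
          exact hy
        · intro hy
          exact ⟨_, hy, rfl⟩
      have key := h.fx a b hab (K.map (G ⊔ H).subtype) ?_ ?_ ?_ ?_ ?_ (C.map (G ⊔ H).subtype) ?_
      · rw [Subgroup.relIndex_map_map_of_injective _ _ (Subgroup.subtype_injective _)] at key
        exact key
      · rintro _ ⟨y, hy, rfl⟩
        exact (mem1 y).1 (hK hy)
      · rintro y hy _ ⟨x, hx, rfl⟩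
        have h3 := nK ⟨y, hPY hy⟩ ((mem1 _).2 hy) x hx
        exact ⟨_, h3, rfl⟩
      · rintro y hy _ ⟨x, hx, rfl⟩
        have h3 := HK ⟨y, hH hy⟩ hy x hx
        exact ⟨_, h3, rfl⟩
      · intro x hx
        exact ⟨_, hpK ⟨x, hPY hx⟩ ((mem1 _).2 hx), rfl⟩
      · intro x hx y hy
        exact ⟨_, hcK ⟨x, hPY hx⟩ ((mem1 _).2 hx) ⟨y, hPY hy⟩ ((mem1 _).2 hy), rfl⟩
      · intro x
        constructor
        · rintro ⟨y, hy, rfl⟩
          obtain ⟨h4, h5⟩ := (hC y).1 hy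
          refine ⟨(mem1 y).1 h4, fun z hz => ?_⟩
          exact ⟨_, h5 ⟨z, hR hz⟩ hz, rfl⟩
        · rintro ⟨h4, h5⟩
          refine ⟨⟨x, hPY h4⟩, (hC _).2 ⟨(mem1 _).2 h4, fun z hz => ?_⟩, rfl⟩
          have h6 := h5 (z : Γ) hz
          have h7 : ⁅(z : Γ), x⁆ ∈ G ⊔ H := by
            have h8 : ⁅(z : Γ), x⁆ = ((⁅z, (⟨x, hPY h4⟩ : (G ⊔ H : Subgroup Γ))⁆ :
              (G ⊔ H : Subgroup Γ)) : Γ) := rfl
            rw [h8]
            exact SetLike.coe_mem _
          exact (memK _ h7).1 h6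
  · rw [← Subgroup.subgroupOf_sup hG hH]
    exact Subgroup.subgroupOf_self _

theorem trF (p n : ℕ) [Fact p.Prime] (m f : ℕ → ℕ) (j : ℕ)
    (h : ∃ d : ℕ, 0 < d ∧ ∀ b : ℕ, ∃ T : ℕ, ∀ (Γ : Type u) [Group Γ] [Finite Γ]
      (G R H : Subgroup Γ) (l : ℕ), FHyp p n m f l G R H → T < l →
      ∀ L : Subgroup Γ, ¬ PS p G (l - b) ≤ L → Many d (gd R L j)) : QP.{u} p n m f j := by
  obtain ⟨d, hd, h⟩ := h
  refine ⟨d, hd, fun b => ?_⟩
  obtain ⟨T, hT⟩ := h b
  refine ⟨T, fun Γ _ _ G R H l hL hl L hb => ?_⟩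
  have hG : G ≤ G ⊔ H := le_sup_left
  have hH : H ≤ G ⊔ H := le_sup_right
  have hR : R ≤ G ⊔ H := hL.RH.trans hH
  have key := hT (G ⊔ H : Subgroup Γ) (G.subgroupOf (G ⊔ H)) (R.subgroupOf (G ⊔ H))
    (H.subgroupOf (G ⊔ H)) l (trf_FH hL) hl (L.subgroupOf (G ⊔ H)) (by
      intro hc
      apply hb
      rw [PS_sub hG] at hc
      intro x hx
      exact hc (x := ⟨x, hG (PS_le G _ hx)⟩) hx)
  unfold Many at key
  refine key.trans (Nat.mul_le_mul_left d (le_of_eq ?_))
  apply Nat.card_congr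
  exact
    { toFun := fun e => ⟨e.1.1, e.1.2, (trf_gd R L _ hR j e.1).1 e.2⟩
      invFun := fun e => ⟨⟨e.1, e.2.1⟩, (trf_gd R L _ hR j ⟨e.1, e.2.1⟩).2 e.2.2⟩
      left_inv := fun e => rfl
      right_inv := fun e => rfl }

theorem qs_f (p n : ℕ) [Fact p.Prime] (m f : ℕ → ℕ) (j : ℕ) (hS : QS.{u} p n m f j)
    (e b : ℕ) : ∃ T : ℕ, ∀ (Γ : Type u) [Group Γ] [Finite Γ] (G R H : Subgroup Γ) (l : ℕ),
      FHyp p n m f l G R H → T < l → ∀ L : Subgroup Γ, ¬ PS p G (l - b) ≤ L →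
      Few e (fun x => ¬ gd R L j x) := by
  obtain ⟨T, hT⟩ := hS e b
  refine ⟨T, fun Γ _ _ G R H l hF hl L hb => ?_⟩
  have h1 := hT Γ G R H l hF.lh hl L hb
  unfold Few
  have h2 : Nat.card (G ⊔ H : Subgroup Γ) = Nat.card Γ := by
    rw [hF.top]
    exact Subgroup.card_top
  have h3 : Nat.card {x : Γ // x ∈ G ⊔ H ∧ ¬ gd R L j x} = Nat.card {x : Γ // ¬ gd R L j x} := by
    apply Nat.card_congr
    apply Equiv.subtypeEquivRight
    intro x
    rw [hF.top]
    exact ⟨fun hx => hx.2, fun hx => ⟨Subgroup.mem_top _, hx⟩⟩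
  rw [h2, h3] at h1
  exact h1

theorem qs_qp (p n : ℕ) (m f : ℕ → ℕ) (j : ℕ) (hS : QS.{u} p n m f j) : QP.{u} p n m f j := by
  refine ⟨2, two_pos, fun b => ?_⟩
  obtain ⟨T, hT⟩ := hS 2 b
  refine ⟨T, fun Γ _ _ G R H l hL hl L hb => ?_⟩
  have h1 := hT Γ G R H l hL hl L hb
  have h2 : Nat.card (G ⊔ H : Subgroup Γ) ≤ Nat.card {x : Γ // x ∈ G ⊔ H ∧ gd R L j x} +
      Nat.card {x : Γ // x ∈ G ⊔ H ∧ ¬ gd R L j x} := by
    rw [← Nat.card_sum]
    classical
    apply Nat.card_le_card_of_injective (fun x : (G ⊔ H : Subgroup Γ) =>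
      if hx : gd R L j (x : Γ) then (Sum.inl ⟨x.1, x.2, hx⟩ :
        {x : Γ // x ∈ G ⊔ H ∧ gd R L j x} ⊕ {x : Γ // x ∈ G ⊔ H ∧ ¬ gd R L j x})
      else Sum.inr ⟨x.1, x.2, hx⟩)
    intro x y hxy
    by_cases hx : gd R L j (x : Γ)
    · by_cases hy : gd R L j (y : Γ)
      · simp only [hx, hy, dite_true] at hxy
        exact Subtype.ext (congrArg (fun t : {x : Γ // x ∈ G ⊔ H ∧ gd R L j x} => t.1)
          (Sum.inl.inj hxy))
      · simp only [hx, hy, dite_true, dite_false] at hxy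
        cases hxy
    · by_cases hy : gd R L j (y : Γ)
      · simp only [hx, hy, dite_true, dite_false] at hxy
        cases hxy
      · simp only [hx, hy, dite_false] at hxy
        exact Subtype.ext (congrArg (fun t : {x : Γ // x ∈ G ⊔ H ∧ ¬ gd R L j x} => t.1)
          (Sum.inr.inj hxy))
  omega

private theorem trf_le {Γ : Type*} [Finite Γ] {A B : Γ → Prop} (h : ∀ x, A x → B x) :
    Nat.card {x : Γ // A x} ≤ Nat.card {x : Γ // B x} :=
  Nat.card_le_card_of_injective (fun x => ⟨x.1, h x.1 x.2⟩) (fun _ _ hxy =>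
    Subtype.ext (congrArg (fun t : {x : Γ // B x} => t.1) hxy))

private theorem trf_or {Γ : Type*} [Finite Γ] {A B C : Γ → Prop} (h : ∀ x, A x → B x ∨ C x) :
    Nat.card {x : Γ // A x} ≤ Nat.card {x : Γ // B x} + Nat.card {x : Γ // C x} := by
  rw [← Nat.card_sum]
  classical
  apply Nat.card_le_card_of_injective (fun x : {x : Γ // A x} =>
    if hx : B (x : Γ) then (Sum.inl ⟨x.1, hx⟩ : {x : Γ // B x} ⊕ {x : Γ // C x})
    else Sum.inr ⟨x.1, (h x.1 x.2).resolve_left hx⟩)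
  intro x y hxy
  by_cases hx : B (x : Γ)
  · by_cases hy : B (y : Γ)
    · simp only [hx, hy, dite_true] at hxy
      exact Subtype.ext (congrArg (fun t : {x : Γ // B x} => t.1) (Sum.inl.inj hxy))
    · simp only [hx, hy, dite_true, dite_false] at hxy
      cases hxy
  · by_cases hy : B (y : Γ)
    · simp only [hx, hy, dite_true, dite_false] at hxy
      cases hxy
    · simp only [hx, hy, dite_false] at hxy
      exact Subtype.ext (congrArg (fun t : {x : Γ // C x} => t.1) (Sum.inr.inj hxy))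

theorem stp {Γ : Type*} [Group Γ] [Finite Γ] (R L L' : Subgroup Γ) (j d : ℕ)
    (h : Many (8 * (2 * d)) (gd R L (j + 1)) ∨ Few (2 * d) (fun x => ¬ st R L x ≤ st R L' x))
    (h' : Many d (gd R L' (j + 1))) : Many (16 * d) (gd R L (j + 1)) := by
  rcases h with h | h
  · have e : 8 * (2 * d) = 16 * d := by ring
    rw [e] at h
    exact h
  · unfold Many at h' ⊢
    unfold Few at h
    have h1 : Nat.card {x : Γ // gd R L' (j + 1) x} ≤ Nat.card {x : Γ // gd R L (j + 1) x} +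
        Nat.card {x : Γ // ¬ st R L x ≤ st R L' x} := by
      apply trf_or
      intro x hx
      by_cases hs : st R L x ≤ st R L' x
      · exact Or.inl (gd_mono hs hx)
      · exact Or.inr hs
    have h2 := Nat.mul_le_mul_left d h1
    rw [mul_add] at h2
    have h3 : 2 * d * Nat.card {x : Γ // ¬ st R L x ≤ st R L' x} =
      2 * (d * Nat.card {x : Γ // ¬ st R L x ≤ st R L' x}) := by ring
    rw [h3] at h
    have h4 : 16 * d * Nat.card {x : Γ // gd R L (j + 1) x} =
      16 * (d * Nat.card {x : Γ // gd R L (j + 1) x}) := by ring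
    rw [h4]
    omega

theorem fewM {Γ : Type*} [Finite Γ] {e : ℕ} {B B' : Γ → Prop} (h : Few e B')
    (hB : ∀ x, B x → B' x) : Few e B :=
  (Nat.mul_le_mul_left e (trf_le hB)).trans h

theorem manyM {Γ : Type*} [Finite Γ] {d : ℕ} {B B' : Γ → Prop} (h : Many d B)
    (hB : ∀ x, B x → B' x) : Many d B' :=
  h.trans (Nat.mul_le_mul_left d (trf_le hB))

end H78CY
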