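import Pool.Agent.H78.CY.WfB
import Pool.Agent.H78.CY.PsK
import Pool.Agent.H78.CY.TrF

/-!
[H78 CY FLS] STEP F, CASE II (F3): `S(j)` for the stabiliser of the line `k w` (20 min).

PROOF. `T` from `qs_f` for `(e, b + 1)`. Let `L = sW τ W ⊓ sW τ (Submodule.span k {w})`. `¬ PS p G (i - 1) ≤
L`: otherwise every `t ∈ PS p G (i - 1)` maps `w` to a multiple of `w` (`Submodule.mem_span_singleton`),
so by `PS_eig` it fixes `w`, `NS p G (i - 1) ≤ PS p G (i - 1)` fixes `w` and `w = 0` by `nofix`. As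
`l - (b + 1) ≤ i - 1`, `PS_anti` gives `¬ PS p G (l - (b + 1)) ≤ L`.
-/

namespace H78CY

open Subgroup H78TP
open scoped commutatorElement

universe u v w

theorem stepL (p n : ℕ) [Fact p.Prime] (m f : ℕ → ℕ) (j : ℕ) (hS : QS.{u} p n m f j)
    (e b : ℕ) : ∃ T : ℕ, ∀ (Γ : Type u) [Group Γ] [Finite Γ]
      (G R H : Subgroup Γ) (l : ℕ), FHyp p n m f l G R H → T < l → ∀ i, l - b ≤ i → i < l →
      ∀ (k : Type v) [Field k] [CharP k p] (U : Type w) [AddCommGroup U] [Module k U]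
      (τ : Representation k Γ U), UHyp p τ G i → ∀ (W : Submodule k U) (w : U), w ≠ 0 →
      Few e (fun x => ¬ gd R (sW τ W ⊓ sW τ (Submodule.span k {w})) j x) := by
  obtain ⟨T, hT⟩ := qs_f p n m f j hS e (b + 1)
  refine ⟨T, fun Γ _ _ G R H l hF hl i hi1 hi2 k _ _ U _ _ τ hU W w hw0 => ?_⟩
  refine hT Γ G R H l hF hl (sW τ W ⊓ sW τ (Submodule.span k {w})) ?_
  intro hc
  have h1 : PS p G (i - 1) ≤ sW τ W ⊓ sW τ (Submodule.span k {w}) :=
    (PS_anti G (by have := hU.i1; omega : l - (b + 1) ≤ i - 1)).trans hc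
  have h2 : ∀ t ∈ PS p G (i - 1), ∃ c : k, τ t w = c • w := by
    intro t ht
    have h3 := ((h1 ht).2 w).2 (Submodule.mem_span_singleton_self w)
    rw [Submodule.mem_span_singleton] at h3
    obtain ⟨c, hc'⟩ := h3
    exact ⟨c, hc'.symm⟩
  have h3 := PS_eig p τ G (i - 1) w hw0 h2
  exact hw0 (hU.nofix w (fun g hg => h3 g (NS_le_PS G (i - 1) hg)))

end H78CY
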