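import Pool.Agent.H78.CY.WfB

/-!
[H78 CY WFD] The components: independence, and their sum is `U` (60 min).

PROOFS. (1) `sup_of_wt`: `V = WS τ Z ⊤ lam`. The conjugates `V.map (τ g) = WS τ Z ⊤ (cjf g lam)` are weight
spaces of `Z` (`WS_cjf`), and `g ↦ cjf g lam` is injective on `Γ ⧸ sW τ V` (`sWV'`), so the family
`cpW τ V c` is an injectively reindexed subfamily of the independent family of `wei_ind`
(`iSupIndep.comp`). Let `A = ⨆ g, V.map (τ g)` and `B` the sum of the weight spaces `WS τ Z ⊤ ν'`, where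
`ν'` is not of the form `cjf g lam`. Both are `Γ`-invariant, `A ⊔ B = ⊤` (`wei_top1`, `z_comm`, `z_ord`),
`A ⊓ B = ⊥` (`wei_ind`; `iSupIndep.disjoint_biSup`), so `h.z.un.ind` gives `B = ⊥` (`A ≠ ⊥`), `A = ⊤`.
(2) `cmp_split`: let `V = V1 ⊔ V2`, `V1 ⊓ V2 = ⊥`, both invariant under `sW τ V`, `V1 ≠ ⊥`. Then `V2 = ⊥`:
put `A = ⨆ g, V1.map (τ g)`, `B = ⨆ g, V2.map (τ g)`; both invariant, `A ⊔ B ≥ ⨆ g, V.map (τ g) = ⊤`.
`A ⊓ B = ⊥`: `V1.map (τ g)` depends only on the coset of `g` modulo `sW τ V`; an element of `A ⊓ B` is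
`∑ c, τ (c.out) a_c = ∑ c, τ (c.out) b_c` with `a_c ∈ V1`, `b_c ∈ V2`; by the independence of `cpW τ V`
`a_c = b_c ∈ V1 ⊓ V2 = ⊥`. `ind` gives `A = ⊥` or `B = ⊥`.
(3) `cmp_top`: `V` is the direct sum of the spaces `WS τ D V μ'` (`wei_top1` with `dV`, `d_comm`, `z_ord`;
`wei_ind`). `V1 = ` sum over the `μ' = cjf g mu` with `g ∈ sW τ V`, `V2 = ` sum of the others. Both are
invariant under `sW τ V` (it normalises `D`: `nDV`). By (2) `V2 = ⊥`, `V = V1 ≤ ⨆ g, W.map (τ g)`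
(`W.map (τ g) = WS τ D V (cjf g mu)` for `g ∈ sW τ V`). So `⨆ g, W.map (τ g) = ⊤`.
(4) `cmp_ind`: suppose `∑ c, v_c = 0` with `v_c ∈ cpW τ W c` (finite sum over `c : Γ ⧸ sW τ W`). As
`W ≤ V`, `sW τ W ≤ sW τ V`, group the sum by the image of `c` in `Γ ⧸ sW τ V`: by the independence of
`cpW τ V` each partial sum is `0`. Translate a partial sum to the trivial coset: `∑ v_c = 0` with
`v_c ∈ WS τ D V (cjf g_c mu)`, `g_c ∈ sW τ V`, and these weights are pairwise different (`sWW'`); so all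
`v_c = 0` by `wei_ind`. (`iSupIndep_iff_forall_dfinsupp` or `iSupIndep_of_dfinsupp_lsum_injective`.)
(5) `cmp_Y`: from (4): `Y = ` the sum of the `cpW τ W c` over the nontrivial cosets `c`.
-/

namespace H78CY

open Subgroup H78TP
open scoped commutatorElement

variable {k Γ U : Type*} [Field k] [Group Γ] [AddCommGroup U] [Module k U]


variable {p r i : ℕ} {τ : Representation k Γ U} {G T0 Z E D : Subgroup Γ} {lam mu : Γ → k}
  {V W : Submodule k U}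

private theorem wfd_inv (τ : Representation k Γ U) (g : Γ) (v : U) : τ g⁻¹ (τ g v) = v := by
  rw [← Module.End.mul_apply, ← map_mul, inv_mul_cancel, map_one]
  rfl

private theorem wfd_inv' (τ : Representation k Γ U) (g : Γ) (v : U) : τ g (τ g⁻¹ v) = v := by
  rw [← Module.End.mul_apply, ← map_mul, mul_inv_cancel, map_one]
  rfl

private theorem wfd_inj (τ : Representation k Γ U) (g : Γ) : Function.Injective (τ g) := by
  intro v w hvw
  rw [← wfd_inv τ g v, hvw, wfd_inv]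

/-- two families below an independent family -/
private theorem wfd_disj {ι : Type*} {N A B : ι → Submodule k U} (hN : iSupIndep N)
    (hA : ∀ i, A i ≤ N i) (hB : ∀ i, B i ≤ N i) (hAB : ∀ i, A i ⊓ B i = ⊥) :
    (⨆ i, A i) ⊓ (⨆ i, B i) = ⊥ := by
  classical
  rw [eq_bot_iff]
  rintro v ⟨h1, h2⟩
  rw [SetLike.mem_coe, Submodule.mem_iSup_iff_exists_finsupp] at h1 h2
  obtain ⟨f, hf, hfs⟩ := h1
  obtain ⟨g, hg, hgs⟩ := h2
  rw [iSupIndep_iff_finsetSum_eq_imp_eq] at hN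
  have hfs' : ∑ i ∈ f.support ∪ g.support, f i = v := by
    rw [← hfs]
    exact (Finsupp.sum_of_support_subset f Finset.subset_union_left (fun _ x => x)
      (fun _ _ => rfl)).symm
  have hgs' : ∑ i ∈ f.support ∪ g.support, g i = v := by
    rw [← hgs]
    exact (Finsupp.sum_of_support_subset g Finset.subset_union_right (fun _ x => x)
      (fun _ _ => rfl)).symm
  have h3 := hN (f.support ∪ g.support) f g (fun i _ => ⟨hA i (hf i), hB i (hg i)⟩)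
    (hfs'.trans hgs'.symm)
  rw [Submodule.mem_bot, ← hfs']
  apply Finset.sum_eq_zero
  intro i hi
  have h5 : f i ∈ A i ⊓ B i := ⟨hf i, by rw [h3 i hi]; exact hg i⟩
  rw [hAB i] at h5
  exact (Submodule.mem_bot k).1 h5

/-- independence in two levels -/
private theorem wfd_two {ι κ : Type*} {N : ι → Submodule k U} {M : κ → Submodule k U} (π : κ → ι)
    (hN : iSupIndep N) (hM : ∀ j, M j ≤ N (π j))
    (hF : ∀ (i : ι) (s : Finset κ) (v : κ → U), (∀ j ∈ s, π j = i) → (∀ j ∈ s, v j ∈ M j) →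
      ∑ j ∈ s, v j = 0 → ∀ j ∈ s, v j = 0) :
    iSupIndep M := by
  classical
  rw [iSupIndep_iff_finsetSum_eq_zero_imp_eq_zero] at hN ⊢
  intro s v hv hs j hj
  have h1 : ∑ i ∈ s.image π, ∑ j ∈ s with π j = i, v j = 0 := by
    rw [Finset.sum_fiberwise_of_maps_to (fun j hj => Finset.mem_image_of_mem π hj)]
    exact hs
  have h2 := hN (s.image π) (fun i => ∑ j ∈ s with π j = i, v j) (fun i _ =>
    Submodule.sum_mem _ (fun j hj => by
      have h3 := hM j (hv j (Finset.mem_filter.1 hj).1)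
      rwa [(Finset.mem_filter.1 hj).2] at h3)) h1
  have h3 := h2 (π j) (Finset.mem_image_of_mem π hj)
  exact hF (π j) {j' ∈ s | π j' = π j} v (fun j' hj' => (Finset.mem_filter.1 hj').2)
    (fun j' hj' => hv j' (Finset.mem_filter.1 hj').1) h3 j (Finset.mem_filter.2 ⟨hj, rfl⟩)

private theorem wfd_map (τ : Representation k Γ U) (T : Subgroup Γ) (V : Submodule k U) (g : Γ)
    (h1 : ∀ t, t ∈ T ↔ g⁻¹ * t * g ∈ T) (h1' : ∀ t, t ∈ T ↔ g * t * g⁻¹ ∈ T)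
    (h2 : ∀ v ∈ V, τ g v ∈ V) (h2' : ∀ v ∈ V, τ g⁻¹ v ∈ V) (ν : Γ → k) :
    (WS τ T V ν).map (τ g) = WS τ T V (cjf g ν) := by
  apply le_antisymm
  · rintro _ ⟨v, hv, rfl⟩
    exact WS_cjf h1 h2 hv
  · intro v hv
    refine ⟨τ g⁻¹ v, ?_, wfd_inv' τ g v⟩
    have h3 := WS_cjf (g := g⁻¹) (fun t => by rw [inv_inv]; exact h1' t) h2' hv
    rw [← cjf_mul, inv_mul_cancel, cjf_one] at h3
    exact h3

/-- the sum of the weight spaces with property `P` -/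
private def wfdS (τ : Representation k Γ U) (T : Subgroup Γ) (V : Submodule k U)
    (P : (Γ → k) → Prop) : Submodule k U :=
  ⨆ (ν : Wt τ T V) (_ : P ν.1), WS τ T V ν.1

private theorem wfdS_le (τ : Representation k Γ U) (T : Subgroup Γ) (V : Submodule k U)
    (P : (Γ → k) → Prop) {ν : Γ → k} (hν : ν ∈ Wt τ T V) (hP : P ν) :
    WS τ T V ν ≤ wfdS τ T V P :=
  le_iSup₂_of_le (f := fun (ν' : Wt τ T V) (_ : P ν'.1) => WS τ T V ν'.1) ⟨ν, hν⟩ hP le_rfl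

private theorem wfdS_inf (τ : Representation k Γ U) (T : Subgroup Γ) (V : Submodule k U)
    (P : (Γ → k) → Prop) : wfdS τ T V P ⊓ wfdS τ T V (fun ν => ¬ P ν) = ⊥ := by
  apply wfd_disj (wei_ind τ T V)
  · intro ν
    exact iSup_le fun _ => le_rfl
  · intro ν
    exact iSup_le fun _ => le_rfl
  · intro ν
    by_cases hP : P ν.1
    · simp [hP]
    · simp [hP]

private theorem wfdS_sup (τ : Representation k Γ U) (T : Subgroup Γ) (V : Submodule k U)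
    (P : (Γ → k) → Prop) :
    wfdS τ T V P ⊔ wfdS τ T V (fun ν => ¬ P ν) = ⨆ ν : Wt τ T V, WS τ T V ν.1 := by
  apply le_antisymm
  · apply sup_le
    · exact iSup₂_le fun ν _ => le_iSup (fun ν : Wt τ T V => WS τ T V ν.1) ν
    · exact iSup₂_le fun ν _ => le_iSup (fun ν : Wt τ T V => WS τ T V ν.1) ν
  · apply iSup_le
    intro ν
    by_cases hP : P ν.1
    · exact (wfdS_le τ T V P ν.2 hP).trans le_sup_left
    · exact (wfdS_le τ T V (fun ν => ¬ P ν) ν.2 hP).trans le_sup_right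

private theorem wfdS_inv {τ : Representation k Γ U} {T : Subgroup Γ} {V : Submodule k U}
    {P : (Γ → k) → Prop} {g : Γ} (h1 : ∀ t, t ∈ T ↔ g⁻¹ * t * g ∈ T) (h2 : ∀ v ∈ V, τ g v ∈ V)
    (h3 : ∀ ν, P ν → P (cjf g ν)) {v : U} (hv : v ∈ wfdS τ T V P) : τ g v ∈ wfdS τ T V P := by
  have h4 : wfdS τ T V P ≤ (wfdS τ T V P).comap (τ g) := by
    refine iSup₂_le ?_
    intro ν hP w hw
    exact wfdS_le τ T V P (Wt_cjf h1 h2 ν.2) (h3 _ hP) (WS_cjf h1 h2 hw)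
  exact h4 hv

private theorem wfd_n {T : Subgroup Γ} {g : Γ} (h : ∀ t ∈ T, g * t * g⁻¹ ∈ T)
    (h' : ∀ t ∈ T, g⁻¹ * t * g ∈ T) : ∀ t, t ∈ T ↔ g⁻¹ * t * g ∈ T := by
  intro t
  refine ⟨h' t, fun ht => ?_⟩
  have h1 := h _ ht
  have e : g * (g⁻¹ * t * g) * g⁻¹ = t := by group
  rwa [e] at h1

private theorem wfd_n' {T : Subgroup Γ} {g : Γ} (h : ∀ t ∈ T, g * t * g⁻¹ ∈ T)
    (h' : ∀ t ∈ T, g⁻¹ * t * g ∈ T) : ∀ t, t ∈ T ↔ g * t * g⁻¹ ∈ T := by
  intro t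
  refine ⟨h t, fun ht => ?_⟩
  have h1 := h' _ ht
  have e : g⁻¹ * (g * t * g⁻¹) * g = t := by group
  rwa [e] at h1

theorem sup_of_wt [Fact p.Prime] [CharP k p] [IsAlgClosed k] [Finite Γ] [Module.Finite k U]
    (h : WHyp p r τ G i T0 Z E lam mu D V W) :
    iSupIndep (cpW τ V) ∧ (⨆ g : Γ, V.map (τ g)) = ⊤ := by
  classical
  have hnZ := zNormal h.z
  have hc1 : ∀ g : Γ, ∀ t ∈ Z, g * t * g⁻¹ ∈ Z := fun g t ht => hnZ.conj_mem t ht g
  have hc2 : ∀ g : Γ, ∀ t ∈ Z, g⁻¹ * t * g ∈ Z := by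
    intro g t ht
    have h3 := hnZ.conj_mem t ht g⁻¹
    rwa [inv_inv] at h3
  have hmap : ∀ g, V.map (τ g) = WS τ Z ⊤ (cjf g lam) := by
    intro g
    rw [h.hV]
    exact wfd_map τ Z ⊤ g (wfd_n (hc1 g) (hc2 g)) (wfd_n' (hc1 g) (hc2 g))
      (fun _ _ => Submodule.mem_top) (fun _ _ => Submodule.mem_top) lam
  have hwt : ∀ g, cjf g lam ∈ Wt τ Z ⊤ := fun g =>
    Wt_cjf (wfd_n (hc1 g) (hc2 g)) (fun _ _ => Submodule.mem_top) h.hl
  constructor
  · let φ : Γ ⧸ sW τ V → Wt τ Z ⊤ := fun c => ⟨cjf (Quotient.out c) lam, hwt _⟩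
    have hφ : Function.Injective φ := by
      intro c c' hcc
      have h1 : cjf (Quotient.out c) lam = cjf (Quotient.out c') lam := congrArg Subtype.val hcc
      have h2 : (Quotient.out c)⁻¹ * Quotient.out c' ∈ sW τ V := by
        have h3 := (sWV' h.z h.hl ((Quotient.out c)⁻¹ * Quotient.out c')).2
          (by rw [cjf_mul, ← h1, ← cjf_mul, inv_mul_cancel, cjf_one])
        rwa [← h.hV] at h3
      rw [← QuotientGroup.eq] at h2
      rwa [QuotientGroup.out_eq', QuotientGroup.out_eq'] at h2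
    have h3 := (wei_ind τ Z ⊤).comp hφ
    have h4 : cpW τ V = (fun ν : Wt τ Z ⊤ => WS τ Z ⊤ ν.1) ∘ φ := by
      funext c
      exact hmap _
    rw [h4]
    exact h3
  · have hA : ∀ g, ∀ v ∈ wfdS τ Z ⊤ (fun ν => ∃ x : Γ, ν = cjf x lam),
        τ g v ∈ wfdS τ Z ⊤ (fun ν => ∃ x : Γ, ν = cjf x lam) := by
      intro g v hv
      refine wfdS_inv (wfd_n (hc1 g) (hc2 g)) (fun _ _ => Submodule.mem_top) ?_ hv
      rintro ν ⟨x, rfl⟩
      exact ⟨g * x, (cjf_mul g x lam).symm⟩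
    have hB : ∀ g, ∀ v ∈ wfdS τ Z ⊤ (fun ν => ¬ ∃ x : Γ, ν = cjf x lam),
        τ g v ∈ wfdS τ Z ⊤ (fun ν => ¬ ∃ x : Γ, ν = cjf x lam) := by
      intro g v hv
      refine wfdS_inv (wfd_n (hc1 g) (hc2 g)) (fun _ _ => Submodule.mem_top) ?_ hv
      rintro ν hν ⟨x, hx⟩
      apply hν
      refine ⟨g⁻¹ * x, ?_⟩
      rw [cjf_mul, ← hx, ← cjf_mul, inv_mul_cancel, cjf_one]
    have htop := wei_top1 τ Z ⊤ (fun _ _ _ _ => Submodule.mem_top)
      (fun s hs t ht v _ => z_comm h.z s hs t ht v) (fun t ht => by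
        obtain ⟨q, hq, hq'⟩ := z_ord (k := k) h.z t (h.z.ZE ht)
        exact ⟨q, hq, fun v _ => by rw [hq']; rfl⟩)
    have hdec := h.z.un.ind _ _ hA hB (wfdS_inf τ Z ⊤ _) (by rw [wfdS_sup]; exact htop)
    have hle : wfdS τ Z ⊤ (fun ν => ∃ x : Γ, ν = cjf x lam) ≤ ⨆ g : Γ, V.map (τ g) := by
      refine iSup₂_le ?_
      rintro ν ⟨x, hx⟩
      rw [hx, ← hmap x]
      exact le_iSup (fun g : Γ => V.map (τ g)) x
    rcases hdec with h5 | h5
    · exfalso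
      apply h.hl.2
      rw [eq_bot_iff, ← h5]
      exact wfdS_le τ Z ⊤ (fun ν => ∃ x : Γ, ν = cjf x lam) h.hl ⟨1, (cjf_one lam).symm⟩
    · have h6 := wfdS_sup τ Z ⊤ (fun ν => ∃ x : Γ, ν = cjf x lam)
      rw [h5, htop, sup_bot_eq] at h6
      rw [eq_top_iff, ← h6]
      exact hle

private theorem wfd_le (τ : Representation k Γ U) (V V1 : Submodule k U)
    (h1 : ∀ g ∈ sW τ V, ∀ v ∈ V1, τ g v ∈ V1) (y : Γ) :
    V1.map (τ y) ≤ ⨆ c : Γ ⧸ sW τ V, V1.map (τ (Quotient.out c)) := by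
  rintro _ ⟨v, hv, rfl⟩
  refine Submodule.mem_iSup_of_mem (QuotientGroup.mk y) ?_
  have h2 : (Quotient.out (QuotientGroup.mk y : Γ ⧸ sW τ V))⁻¹ * y ∈ sW τ V := by
    rw [← QuotientGroup.eq]
    exact Quotient.out_eq _
  refine ⟨τ ((Quotient.out (QuotientGroup.mk y : Γ ⧸ sW τ V))⁻¹ * y) v, h1 _ h2 v hv, ?_⟩
  rw [← Module.End.mul_apply, ← map_mul]
  congr 2
  group

private theorem wfd_iv (τ : Representation k Γ U) (V V1 : Submodule k U)
    (h1 : ∀ g ∈ sW τ V, ∀ v ∈ V1, τ g v ∈ V1) (g : Γ) :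
    ∀ v ∈ ⨆ c : Γ ⧸ sW τ V, V1.map (τ (Quotient.out c)),
      τ g v ∈ ⨆ c : Γ ⧸ sW τ V, V1.map (τ (Quotient.out c)) := by
  have h4 : (⨆ c : Γ ⧸ sW τ V, V1.map (τ (Quotient.out c))) ≤
      (⨆ c : Γ ⧸ sW τ V, V1.map (τ (Quotient.out c))).comap (τ g) := by
    refine iSup_le ?_
    rintro c _ ⟨w, hw, rfl⟩
    apply wfd_le τ V V1 h1 (g * Quotient.out c)
    refine ⟨w, hw, ?_⟩
    rw [map_mul, Module.End.mul_apply]
  intro v hv
  exact h4 hv

theorem cmp_split [Fact p.Prime] [CharP k p] [IsAlgClosed k] [Finite Γ] [Module.Finite k U]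
    (h : WHyp p r τ G i T0 Z E lam mu D V W) (V1 V2 : Submodule k U)
    (h1 : ∀ g ∈ sW τ V, ∀ v ∈ V1, τ g v ∈ V1) (h2 : ∀ g ∈ sW τ V, ∀ v ∈ V2, τ g v ∈ V2)
    (h3 : V1 ⊓ V2 = ⊥) (h4 : V1 ⊔ V2 = V) (h5 : V1 ≠ ⊥) : V2 = ⊥ := by
  have hV1 : V1 ≤ V := by
    rw [← h4]
    exact le_sup_left
  have hV2 : V2 ≤ V := by
    rw [← h4]
    exact le_sup_right
  obtain ⟨hind, htop⟩ := sup_of_wt h
  have h6 : (⨆ c : Γ ⧸ sW τ V, V1.map (τ (Quotient.out c))) ⊓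
      (⨆ c : Γ ⧸ sW τ V, V2.map (τ (Quotient.out c))) = ⊥ := by
    apply wfd_disj hind
    · intro c
      exact Submodule.map_mono hV1
    · intro c
      exact Submodule.map_mono hV2
    · intro c
      rw [← Submodule.map_inf _ (wfd_inj τ _), h3, Submodule.map_bot]
  have h7 : (⨆ c : Γ ⧸ sW τ V, V1.map (τ (Quotient.out c))) ⊔
      (⨆ c : Γ ⧸ sW τ V, V2.map (τ (Quotient.out c))) = ⊤ := by
    rw [eq_top_iff, ← htop]
    apply iSup_le
    intro g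
    rw [← h4, Submodule.map_sup]
    have e1 := wfd_le τ V V1 h1 g
    have e2 := wfd_le τ V V2 h2 g
    rw [h4]
    exact sup_le (e1.trans le_sup_left) (e2.trans le_sup_right)
  have hone : ∀ V' : Submodule k U, (∀ g ∈ sW τ V, ∀ v ∈ V', τ g v ∈ V') →
      (⨆ c : Γ ⧸ sW τ V, V'.map (τ (Quotient.out c))) = ⊥ → V' = ⊥ := by
    intro V' hV' hbot
    have e1 := wfd_le τ V V' hV' 1
    rw [hbot, map_one] at e1
    rw [eq_bot_iff]
    intro v hv
    exact e1 ⟨v, hv, rfl⟩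
  rcases h.z.un.ind _ _ (wfd_iv τ V V1 h1) (wfd_iv τ V V2 h2) h6 h7 with h8 | h8
  · exact absurd (hone V1 h1 h8) h5
  · exact hone V2 h2 h8

private theorem wfd_D [Finite Γ] (h : WHyp p r τ G i T0 Z E lam mu D V W) {g : Γ}
    (hg : g ∈ sW τ V) : (∀ t ∈ D, g * t * g⁻¹ ∈ D) ∧ (∀ t ∈ D, g⁻¹ * t * g ∈ D) := by
  refine ⟨nDV h g hg, fun t ht => ?_⟩
  have h3 := nDV h g⁻¹ ((sW τ V).inv_mem hg) t ht
  rwa [inv_inv] at h3

private theorem wfd_W [Finite Γ] (h : WHyp p r τ G i T0 Z E lam mu D V W) {g : Γ}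
    (hg : g ∈ sW τ V) : W.map (τ g) = WS τ D V (cjf g mu) := by
  obtain ⟨h1, h2⟩ := wfd_D h hg
  have h3 : ∀ v ∈ V, τ g v ∈ V := fun v hv => (hg v).2 hv
  have h4 : ∀ v ∈ V, τ g⁻¹ v ∈ V := fun v hv => ((sW τ V).inv_mem hg v).2 hv
  have h5 := wfd_map τ D V g (wfd_n h1 h2) (wfd_n' h1 h2) h3 h4 mu
  rw [← h5, ← h.hW]

theorem cmp_top [Fact p.Prime] [CharP k p] [IsAlgClosed k] [Finite Γ] [Module.Finite k U]
    (h : WHyp p r τ G i T0 Z E lam mu D V W) : (⨆ g : Γ, W.map (τ g)) = ⊤ := by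
  classical
  have htop := wei_top1 τ D V (dV h) (d_comm h) (fun t ht => by
    obtain ⟨q, hq, hq'⟩ := z_ord (k := k) h.z t (DE h ht)
    exact ⟨q, hq, fun v _ => by rw [hq']; rfl⟩)
  have hA : ∀ g ∈ sW τ V, ∀ v ∈ wfdS τ D V (fun ν => ∃ x ∈ sW τ V, ν = cjf x mu),
      τ g v ∈ wfdS τ D V (fun ν => ∃ x ∈ sW τ V, ν = cjf x mu) := by
    intro g hg v hv
    obtain ⟨h1, h2⟩ := wfd_D h hg
    refine wfdS_inv (wfd_n h1 h2) (fun v hv => (hg v).2 hv) ?_ hv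
    rintro ν ⟨x, hx, rfl⟩
    exact ⟨g * x, (sW τ V).mul_mem hg hx, (cjf_mul g x mu).symm⟩
  have hB : ∀ g ∈ sW τ V, ∀ v ∈ wfdS τ D V (fun ν => ¬ ∃ x ∈ sW τ V, ν = cjf x mu),
      τ g v ∈ wfdS τ D V (fun ν => ¬ ∃ x ∈ sW τ V, ν = cjf x mu) := by
    intro g hg v hv
    obtain ⟨h1, h2⟩ := wfd_D h hg
    refine wfdS_inv (wfd_n h1 h2) (fun v hv => (hg v).2 hv) ?_ hv
    rintro ν hν ⟨x, hx, hx'⟩
    apply hν
    refine ⟨g⁻¹ * x, (sW τ V).mul_mem ((sW τ V).inv_mem hg) hx, ?_⟩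
    rw [cjf_mul, ← hx', ← cjf_mul, inv_mul_cancel, cjf_one]
  have hWle : W ≤ wfdS τ D V (fun ν => ∃ x ∈ sW τ V, ν = cjf x mu) := by
    have e := wfdS_le τ D V (fun ν => ∃ x ∈ sW τ V, ν = cjf x mu) h.hm
      ⟨1, (sW τ V).one_mem, (cjf_one mu).symm⟩
    rwa [← h.hW] at e
  have h5 : wfdS τ D V (fun ν => ∃ x ∈ sW τ V, ν = cjf x mu) ≠ ⊥ := by
    intro hbot
    apply W_ne h
    rw [eq_bot_iff, ← hbot]
    exact hWle
  have h6 := cmp_split h _ _ hA hB (wfdS_inf τ D V _) (by rw [wfdS_sup]; exact htop) h5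
  have h7 := wfdS_sup τ D V (fun ν => ∃ x ∈ sW τ V, ν = cjf x mu)
  rw [h6, htop, sup_bot_eq] at h7
  have h8 : V ≤ ⨆ g : Γ, W.map (τ g) := by
    rw [← h7]
    refine iSup₂_le ?_
    rintro ν ⟨x, hx, hx'⟩
    rw [hx', ← wfd_W h hx]
    exact le_iSup (fun g : Γ => W.map (τ g)) x
  rw [eq_top_iff, ← (sup_of_wt h).2]
  apply iSup_le
  intro g
  refine (Submodule.map_mono h8).trans ?_
  rw [Submodule.map_iSup]
  apply iSup_le
  rintro x _ ⟨_, ⟨w, hw, rfl⟩, rfl⟩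
  refine Submodule.mem_iSup_of_mem (g * x) ⟨w, hw, ?_⟩
  rw [map_mul, Module.End.mul_apply]

theorem cmp_ind [Fact p.Prime] [CharP k p] [IsAlgClosed k] [Finite Γ] [Module.Finite k U]
    (h : WHyp p r τ G i T0 Z E lam mu D V W) : iSupIndep (cpW τ W) := by
  classical
  refine wfd_two (fun c : Γ ⧸ sW τ W => (QuotientGroup.mk (Quotient.out c) : Γ ⧸ sW τ V))
    (sup_of_wt h).1 ?_ ?_
  · intro c
    rw [cpW_mk]
    exact Submodule.map_mono (WV h)
  · intro i s v hs hv hsum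
    have hg : ∀ c : Γ ⧸ sW τ W, (QuotientGroup.mk (Quotient.out c) : Γ ⧸ sW τ V) = i →
        (Quotient.out i)⁻¹ * Quotient.out c ∈ sW τ V := by
      intro c hc
      rw [← QuotientGroup.eq, hc]
      exact Quotient.out_eq _
    let φ : {c : Γ ⧸ sW τ W // (QuotientGroup.mk (Quotient.out c) : Γ ⧸ sW τ V) = i} →
        Wt τ D V := fun c => ⟨cjf ((Quotient.out i)⁻¹ * Quotient.out c.1) mu,
      Wt_cjf (wfd_n (wfd_D h (hg c.1 c.2)).1 (wfd_D h (hg c.1 c.2)).2)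
        (fun v hv => (hg c.1 c.2 v).2 hv) h.hm⟩
    have hφ : Function.Injective φ := by
      intro c c' hcc
      have h1 : cjf ((Quotient.out i)⁻¹ * Quotient.out c.1) mu =
        cjf ((Quotient.out i)⁻¹ * Quotient.out c'.1) mu := congrArg Subtype.val hcc
      have e : (Quotient.out c.1)⁻¹ * Quotient.out c'.1 =
        ((Quotient.out i)⁻¹ * Quotient.out c.1)⁻¹ * ((Quotient.out i)⁻¹ * Quotient.out c'.1) := by
        group
      have h2 : (Quotient.out c.1)⁻¹ * Quotient.out c'.1 ∈ sW τ W := by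
        rw [sWW' h, e]
        constructor
        · exact (sW τ V).mul_mem ((sW τ V).inv_mem (hg c.1 c.2)) (hg c'.1 c'.2)
        · rw [cjf_mul, ← h1, ← cjf_mul, inv_mul_cancel, cjf_one]
      rw [← QuotientGroup.eq] at h2
      apply Subtype.ext
      rwa [QuotientGroup.out_eq', QuotientGroup.out_eq'] at h2
    have h3 := (wei_ind τ D V).comp hφ
    rw [iSupIndep_iff_finsetSum_eq_zero_imp_eq_zero] at h3
    have h4 := h3 (s.subtype _) (fun c => τ (Quotient.out i)⁻¹ (v c.1)) ?_ ?_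
    · intro c hc
      have h5 := h4 ⟨c, hs c hc⟩ (Finset.mem_subtype.2 hc)
      rw [← wfd_inv' τ (Quotient.out i) (v c), h5, map_zero]
    · intro c hc
      have h5 := hv c.1 (Finset.mem_subtype.1 hc)
      obtain ⟨w, hw, hw'⟩ := h5
      show τ (Quotient.out i)⁻¹ (v c.1) ∈ WS τ D V (cjf ((Quotient.out i)⁻¹ * Quotient.out c.1) mu)
      rw [← wfd_W h (hg c.1 c.2)]
      refine ⟨w, hw, ?_⟩
      rw [← hw', map_mul, Module.End.mul_apply]
    · have h5 := Finset.sum_subtype_of_mem (s := s) (fun c => τ (Quotient.out i)⁻¹ (v c)) hs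
      rw [h5, ← map_sum, hsum, map_zero]

theorem cmp_Y [Fact p.Prime] [CharP k p] [IsAlgClosed k] [Finite Γ] [Module.Finite k U]
    (h : WHyp p r τ G i T0 Z E lam mu D V W) :
    ∃ Y : Submodule k U, W ⊓ Y = ⊥ ∧ ∀ g, g ∉ sW τ W → W.map (τ g) ≤ Y := by
  have h1 := cmp_ind h (QuotientGroup.mk 1)
  have h2 : cpW τ W (QuotientGroup.mk 1) = W := by
    rw [cpW_mk, map_one]
    exact Submodule.map_id W
  rw [h2] at h1
  refine ⟨_, h1.eq_bot, ?_⟩
  intro g hg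
  rw [← cpW_mk]
  refine le_iSup₂_of_le (f := fun (j : Γ ⧸ sW τ W) (_ : j ≠ QuotientGroup.mk 1) => cpW τ W j)
    (QuotientGroup.mk g) ?_ le_rfl
  intro h3
  apply hg
  rw [QuotientGroup.eq, mul_one] at h3
  rw [← inv_inv g]
  exact (sW τ W).inv_mem h3

end H78CY
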