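import Pool.Agent.H78.CY.Orb
import Pool.Agent.H78.CY.WfD
import Pool.Agent.H78.CY.StA
import Pool.Agent.H78.CY.Fdk

/-!
[H78 CY FTR] STEP F, CASE II: translation to the group `sW τ W` acting on `W` (50 min).

NOTATION. `L' = sW τ W`, `ρ = rgCj x⁻¹ R = x⁻¹ R x`, `K = (ρ ⊓ L').subgroupOf L'`, a subgroup of the group
`L'`; `e ∈ L'`, `e' = ⟨e, _⟩ : L'`; `w : W`.
PROOFS. `tr1`: `g ∈ st R (L' ⊓ sW τ (span w)) (x e)` iff `g ∈ R` and `e⁻¹ (x⁻¹ g x) e ∈ L' ⊓ sW τ (span w)`; with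
`h = x⁻¹ g x ∈ ρ`: iff `h ∈ ρ ⊓ L'` (`e ∈ L'`) and `e⁻¹ h e` maps the line `k w` to itself, i.e. `h` maps the
line `k τ e w` to itself. So `g ↦ x⁻¹ g x` is a bijection onto the elements of
`K ⊓ sW (rsW τ W) (span {rsW τ W e' w})`. (For invertible maps `h` preserving the line `k v` in one
direction is enough; `Submodule.mem_span_singleton`.) `tr2` is the same with the stabiliser of the
vector. `tr3`: `orbX` for the subgroup `ρ` with `X = W` and `Y` from `cmp_Y`: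
`finrank (W ⊓ Fx τ (ρ ⊓ L')) ≤ finrank (Fx τ ρ)`; `Fx (rsW τ W) K` is isomorphic to `W ⊓ Fx τ (ρ ⊓ L')`
(`Submodule.subtype`), and `τ x` maps `Fx τ ρ` isomorphically onto `Fx τ R`. (`|ρ| = |R|`.)
`tr4`: `L'.subtype` maps the generators of the left group onto those of `Dc ρ L' E D N` (`E ≤ L'`,
relative indices are invariant under the injective map).
`tr5`: `|K| = |ρ ⊓ L'|` divides `|ρ| = |R|`.
-/

namespace H78CY

open Subgroup H78TP
open scoped commutatorElement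

variable {k Γ U : Type*} [Field k] [Group Γ] [AddCommGroup U] [Module k U]


variable {p r i : ℕ} {τ : Representation k Γ U} {G T0 Z E D : Subgroup Γ} {lam mu : Γ → k}
  {V W : Submodule k U}

private theorem ftr_card {Γ : Type*} [Group Γ] (R L' : Subgroup Γ) (x e : Γ) (he : e ∈ L')
    (A : Subgroup L') (B : Subgroup Γ) (hAB : ∀ h : L', h ∈ A ↔ e⁻¹ * h * e ∈ B) :
    Nat.card ((rgCj x⁻¹ R ⊓ L').subgroupOf L' ⊓ A : Subgroup L') =
      Nat.card (st R (L' ⊓ B) (x * e)) := by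
  apply Nat.card_congr
  have h1 : ∀ h : L', h ∈ (rgCj x⁻¹ R ⊓ L').subgroupOf L' ⊓ A →
      x * h * x⁻¹ ∈ st R (L' ⊓ B) (x * e) := by
    intro h hh
    have h2 : x⁻¹⁻¹ * (h : Γ) * x⁻¹ ∈ R := mem_rgCj.1 hh.1.1
    rw [inv_inv] at h2
    refine ⟨h2, ?_⟩
    have e1 : (x * e)⁻¹ * (x * h * x⁻¹) * (x * e) = e⁻¹ * h * e := by group
    rw [e1]
    exact ⟨L'.mul_mem (L'.mul_mem (L'.inv_mem he) h.2) he, (hAB h).1 hh.2⟩
  have h2 : ∀ g ∈ st R (L' ⊓ B) (x * e), ∃ hg : x⁻¹ * g * x ∈ L',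
      (⟨x⁻¹ * g * x, hg⟩ : L') ∈ (rgCj x⁻¹ R ⊓ L').subgroupOf L' ⊓ A := by
    intro g hg
    obtain ⟨hg1, hg2, hg3⟩ := hg
    have e1 : x⁻¹ * g * x = e * ((x * e)⁻¹ * g * (x * e)) * e⁻¹ := by group
    have h3 : x⁻¹ * g * x ∈ L' := by
      rw [e1]
      exact L'.mul_mem (L'.mul_mem he hg2) (L'.inv_mem he)
    refine ⟨h3, ⟨?_, h3⟩, ?_⟩
    · refine mem_rgCj.2 ?_
      show x⁻¹⁻¹ * (x⁻¹ * g * x) * x⁻¹ ∈ R
      have e2 : x⁻¹⁻¹ * (x⁻¹ * g * x) * x⁻¹ = g := by group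
      rw [e2]
      exact hg1
    · show (⟨x⁻¹ * g * x, h3⟩ : L') ∈ A
      rw [hAB]
      show e⁻¹ * (x⁻¹ * g * x) * e ∈ B
      have e2 : e⁻¹ * (x⁻¹ * g * x) * e = (x * e)⁻¹ * g * (x * e) := by group
      rw [e2]
      exact hg3
  exact
    { toFun := fun h => ⟨x * h.1 * x⁻¹, h1 h.1 h.2⟩
      invFun := fun g => ⟨⟨x⁻¹ * g.1 * x, (h2 g.1 g.2).1⟩, (h2 g.1 g.2).2⟩
      left_inv := by
        intro h
        apply Subtype.ext
        apply Subtype.ext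
        show x⁻¹ * (x * h.1 * x⁻¹) * x = h.1
        group
      right_inv := by
        intro g
        apply Subtype.ext
        show x * (x⁻¹ * g.1 * x) * x⁻¹ = g.1
        group }

private theorem ftr_line {Γ U : Type*} [Group Γ] [AddCommGroup U] [Module k U] [Finite Γ]
    (τ : Representation k Γ U) (g : Γ) (v : U) :
    g ∈ sW τ (Submodule.span k {v}) ↔ ∃ c : k, τ g v = c • v := by
  constructor
  · intro h
    have h1 := (h v).2 (Submodule.mem_span_singleton_self v)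
    rw [Submodule.mem_span_singleton] at h1
    obtain ⟨c, hc⟩ := h1
    exact ⟨c, hc.symm⟩
  · rintro ⟨c, hc⟩
    apply sW_of
    intro u hu
    rw [Submodule.mem_span_singleton] at hu ⊢
    obtain ⟨a, rfl⟩ := hu
    refine ⟨a * c, ?_⟩
    rw [map_smul, hc, smul_smul]

private theorem ftr_cj (τ : Representation k Γ U) (e h : Γ) (v : U) :
    τ h (τ e v) = τ e (τ (e⁻¹ * h * e) v) := by
  rw [← Module.End.mul_apply, ← map_mul, ← Module.End.mul_apply, ← map_mul]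
  congr 2
  group

private theorem ftr_inj (τ : Representation k Γ U) (g : Γ) {v v' : U} (h : τ g v = τ g v') :
    v = v' := by
  have h1 : ∀ w : U, τ g⁻¹ (τ g w) = w := by
    intro w
    rw [← Module.End.mul_apply, ← map_mul, inv_mul_cancel, map_one]
    rfl
  rw [← h1 v, h, h1]

theorem tr1 [Finite Γ] (τ : Representation k Γ U) (W : Submodule k U) (R : Subgroup Γ) (x e : Γ)
    (he : e ∈ sW τ W) (w : W) :
    Nat.card ((rgCj x⁻¹ R ⊓ sW τ W).subgroupOf (sW τ W) ⊓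
      sW (rsW τ W) (Submodule.span k {rsW τ W ⟨e, he⟩ w}) : Subgroup (sW τ W)) =
    Nat.card (st R (sW τ W ⊓ sW τ (Submodule.span k {(w : U)})) (x * e)) := by
  refine ftr_card R (sW τ W) x e he _ _ (fun h => ?_)
  rw [ftr_line, ftr_line]
  constructor
  · rintro ⟨c, hc⟩
    refine ⟨c, ftr_inj τ e ?_⟩
    rw [← ftr_cj, map_smul]
    exact congrArg Subtype.val hc
  · rintro ⟨c, hc⟩
    refine ⟨c, Subtype.ext ?_⟩
    show τ h.1 (τ e (w : U)) = c • τ e (w : U)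
    rw [ftr_cj, hc, map_smul]

theorem tr2 [Finite Γ] (τ : Representation k Γ U) (W : Submodule k U) (R : Subgroup Γ) (x e : Γ)
    (he : e ∈ sW τ W) (w : W) :
    Nat.card ((rgCj x⁻¹ R ⊓ sW τ W).subgroupOf (sW τ W) ⊓
      rgSt (rsW τ W) (rsW τ W ⟨e, he⟩ w) : Subgroup (sW τ W)) =
    Nat.card (st R (sW τ W ⊓ rgSt τ (w : U)) (x * e)) := by
  refine ftr_card R (sW τ W) x e he _ _ (fun h => ?_)
  constructor
  · intro hc
    show τ (e⁻¹ * h * e) (w : U) = w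
    apply ftr_inj τ e
    rw [← ftr_cj]
    exact congrArg Subtype.val hc
  · intro hc
    have hc' : τ (e⁻¹ * h * e) (w : U) = w := hc
    apply Subtype.ext
    show τ h.1 (τ e (w : U)) = τ e (w : U)
    rw [ftr_cj, hc']

theorem tr3 [Fact p.Prime] [CharP k p] [IsAlgClosed k] [Finite Γ] [Module.Finite k U]
    (h : WHyp p r τ G i T0 Z E lam mu D V W) (R : Subgroup Γ) (hR : (Nat.card R : k) ≠ 0)
    (x : Γ) : Module.finrank k (Fx (rsW τ W) ((rgCj x⁻¹ R ⊓ sW τ W).subgroupOf (sW τ W))) ≤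
      Module.finrank k (Fx τ R) := by
  obtain ⟨Y, hY1, hY2⟩ := cmp_Y h
  have hR' : (Nat.card (rgCj x⁻¹ R) : k) ≠ 0 := by
    rw [card_rgCj]
    exact hR
  have h1 := orbX τ (rgCj x⁻¹ R) W Y hR' hY1 (fun g _ hg => hY2 g hg)
  have h2 : Module.finrank k (Fx (rsW τ W) ((rgCj x⁻¹ R ⊓ sW τ W).subgroupOf (sW τ W))) ≤
      Module.finrank k (W ⊓ Fx τ (rgCj x⁻¹ R ⊓ sW τ W) : Submodule k U) := by
    have hmem : ∀ v : (Fx (rsW τ W) ((rgCj x⁻¹ R ⊓ sW τ W).subgroupOf (sW τ W)) :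
        Submodule k W), ((v : W) : U) ∈ (W ⊓ Fx τ (rgCj x⁻¹ R ⊓ sW τ W) : Submodule k U) := by
      intro v
      refine ⟨v.1.2, fun g hg => ?_⟩
      have h3 := v.2 ⟨g, hg.2⟩ hg
      exact congrArg Subtype.val h3
    let Ψ : (Fx (rsW τ W) ((rgCj x⁻¹ R ⊓ sW τ W).subgroupOf (sW τ W)) : Submodule k W) →ₗ[k]
        (W ⊓ Fx τ (rgCj x⁻¹ R ⊓ sW τ W) : Submodule k U) :=
      (W.subtype.comp (Submodule.subtype _)).codRestrict _ hmem
    apply LinearMap.finrank_le_finrank_of_injective (f := Ψ)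
    intro a b hab
    have h3 : ((a : W) : U) = ((b : W) : U) :=
      congrArg (fun t : (W ⊓ Fx τ (rgCj x⁻¹ R ⊓ sW τ W) : Submodule k U) => (t : U)) hab
    exact Subtype.ext (Subtype.ext h3)
  have h3 : Module.finrank k (Fx τ (rgCj x⁻¹ R)) ≤ Module.finrank k (Fx τ R) := by
    have hmem : ∀ v : (Fx τ (rgCj x⁻¹ R) : Submodule k U), τ x (v : U) ∈ Fx τ R := by
      intro v g hg
      rw [ftr_cj]
      have h4 : x⁻¹ * g * x ∈ rgCj x⁻¹ R := by
        rw [mem_rgCj]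
        have e2 : x⁻¹⁻¹ * (x⁻¹ * g * x) * x⁻¹ = g := by group
        rw [e2]
        exact hg
      rw [v.2 _ h4]
    let Ψ : (Fx τ (rgCj x⁻¹ R) : Submodule k U) →ₗ[k] (Fx τ R : Submodule k U) :=
      ((τ x).comp (Submodule.subtype _)).codRestrict _ hmem
    apply LinearMap.finrank_le_finrank_of_injective (f := Ψ)
    intro a b hab
    have h5 : τ x (a : U) = τ x (b : U) := congrArg Subtype.val hab
    exact Subtype.ext (ftr_inj τ x h5)
  exact h2.trans (h1.trans h3)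

private theorem ftr_smal {Γ : Type*} [Group Γ] [Finite Γ] (L' E D : Subgroup Γ) (hE : E ≤ L')
    (g : L') (N : ℕ) : smal (D.subgroupOf L') (E.subgroupOf L') g N ↔ smal D E (g : Γ) N := by
  constructor
  · rintro ⟨C', hC', hN⟩
    refine ⟨C'.map L'.subtype, fun x => ?_, ?_⟩
    · constructor
      · rintro ⟨y, hy, rfl⟩
        exact (hC' y).1 hy
      · rintro ⟨hx1, hx2⟩
        exact ⟨⟨x, hE hx1⟩, (hC' _).2 ⟨hx1, hx2⟩, rfl⟩
    · have h1 : E = (E.subgroupOf L').map L'.subtype := (Subgroup.map_subgroupOf_eq_of_le hE).symm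
      rw [h1, Subgroup.relIndex_map_map_of_injective _ _ (Subgroup.subtype_injective _)]
      exact hN
  · rintro ⟨C, hC, hN⟩
    refine ⟨C.subgroupOf L', fun x => ?_, ?_⟩
    · rw [Subgroup.mem_subgroupOf, hC]
      rfl
    · rw [Subgroup.relIndex_subgroupOf hE]
      exact hN

theorem tr4 {Γ : Type*} [Group Γ] [Finite Γ] (L' ρ E D : Subgroup Γ) (hE : E ≤ L')
    (hD : D ≤ L') (N : ℕ) :
    Nat.card (Dc ((ρ ⊓ L').subgroupOf L') ⊤ (E.subgroupOf L') (D.subgroupOf L') N) =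
      Nat.card (Dc ρ L' E D N) := by
  have h1 : (Dc ((ρ ⊓ L').subgroupOf L') ⊤ (E.subgroupOf L') (D.subgroupOf L') N).map L'.subtype =
      Dc ρ L' E D N := by
    unfold Dc
    rw [MonoidHom.map_closure]
    congr 1
    ext g
    constructor
    · rintro ⟨y, ⟨hy1, -, hy2⟩, rfl⟩
      exact ⟨hy1.1, y.2, (ftr_smal L' E D hE y N).1 hy2⟩
    · rintro ⟨hg1, hg2, hg3⟩
      exact ⟨⟨g, hg2⟩, ⟨⟨hg1, hg2⟩, Subgroup.mem_top _, (ftr_smal L' E D hE ⟨g, hg2⟩ N).2 hg3⟩, rfl⟩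
  rw [← h1, Subgroup.card_map_of_injective (Subgroup.subtype_injective _)]

theorem tr5 {Γ : Type*} [Group Γ] [Finite Γ] (L' R : Subgroup Γ) (x : Γ) :
    Nat.card ((rgCj x⁻¹ R ⊓ L').subgroupOf L') ∣ Nat.card R := by
  rw [Nat.card_congr (Subgroup.subgroupOfEquivOfLe (inf_le_right : rgCj x⁻¹ R ⊓ L' ≤ L')).toEquiv,
    ← card_rgCj x⁻¹ R]
  exact Subgroup.card_dvd_of_le inf_le_left

end H78CY
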