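import Pool.Agent.H78.TP.RbB
import Pool.Agent.H78.TP.Rk2
import Pool.Agent.H78.TP.InhD

/-!
Inheritance, the prime of the kernel (helper78; the proof of `H78TP.inhA` with a general `L'`).
-/

namespace H78CY

open Subgroup H78TP
open scoped commutatorElement

theorem inhAn {F F' : Type*} [Group F] [Finite F] [Group F'] (f : F →* F')
    (l n c : ℕ) [Fact l.Prime] (L L' : Subgroup F) (hL : IsPGroup l L)
    (hcomm : ∀ x ∈ L, ∀ y ∈ L', x * y = y * x) (hn : Nat.card L ≤ n)
    (hN : IsPGroup l f.ker) (hDD : (DD f L L').map f = CC (L.map f) (L'.map f))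
    (h : RB l c (CC L L')) : RB l (rkM l c n) (CC (L.map f) (L'.map f)) := by
  rw [← hDD]
  set D := DD f L L' with hDdef
  have hDmem : ∀ g, g ∈ D ↔ (g ∈ centralizer (L' : Set F) ∧
      f g ∈ centralizer ((L.map f : Subgroup F') : Set F')) := by
    intro g
    rw [hDdef]
    simp only [DD, Subgroup.mem_inf, Subgroup.mem_comap]
  apply rb_map
  -- Sylow subgroup
  obtain ⟨P⟩ : Nonempty (Sylow l D) := inferInstance
  set S : Subgroup F := (P : Subgroup D).map D.subtype with hSdef
  have hSD : S ≤ D := by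
    rw [hSdef]
    exact Subgroup.map_subtype_le _
  have hSP : IsPGroup l S := by
    rw [hSdef]
    exact P.isPGroup'.map _
  have hrel : S.relIndex D = (P : Subgroup D).index := by
    rw [hSdef, Subgroup.relIndex, Subgroup.subgroupOf,
      Subgroup.comap_map_eq_self_of_injective (Subgroup.subtype_injective D)]
  have hi : ¬ l ∣ S.relIndex D := by
    rw [hrel]
    exact P.not_dvd_index
  apply rb_sylow l _ D S hSD hSP hi
  -- normal l-subgroup
  have hN0 : f.ker ⊓ D ≤ S := by
    have hnorm : ((f.ker ⊓ D).subgroupOf D).Normal := by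
      rw [Subgroup.inf_subgroupOf_right]
      infer_instance
    have hpg : IsPGroup l ((f.ker ⊓ D).subgroupOf D) := by
      have h1 : IsPGroup l (f.ker ⊓ D : Subgroup F) := hN.to_le inf_le_left
      exact h1.comap_of_injective D.subtype (Subgroup.subtype_injective D)
    have hle : (f.ker ⊓ D).subgroupOf D ≤ (P : Subgroup D) := by
      exact IsPGroup.le_sylow_of_normal hpg P
    intro x hx
    rw [hSdef, Subgroup.mem_map]
    exact ⟨⟨x, hx.2⟩, hle (by rw [Subgroup.mem_subgroupOf]; exact hx), rfl⟩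
  have hnorm : ∀ t ∈ L, ∀ x ∈ S, t * x * t⁻¹ ∈ S := by
    intro t ht x hx
    have hxD := (hDmem x).1 (hSD hx)
    have hxL' := hxD.1
    have hxL := hxD.2
    rw [Subgroup.mem_centralizer_iff] at hxL' hxL
    have hk : t * x * t⁻¹ * x⁻¹ ∈ f.ker := by
      rw [MonoidHom.mem_ker]
      have h2 := hxL (f t) (Subgroup.mem_map_of_mem f ht)
      simp only [map_mul, map_inv]
      rw [h2]
      group
    have hcen : t * x * t⁻¹ * x⁻¹ ∈ centralizer (L' : Set F) := by
      have h3 : t ∈ centralizer (L' : Set F) := by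
        rw [Subgroup.mem_centralizer_iff]
        intro y hy
        exact (hcomm t ht y hy).symm
      exact mul_mem (mul_mem (mul_mem h3 hxD.1) (inv_mem h3)) (inv_mem hxD.1)
    have hD : t * x * t⁻¹ * x⁻¹ ∈ D := by
      rw [hDmem]
      refine ⟨hcen, ?_⟩
      rw [MonoidHom.mem_ker.1 hk]
      exact one_mem _
    have h4 := mul_mem (hN0 ⟨hk, hD⟩) hx
    have h5 : t * x * t⁻¹ * x⁻¹ * x = t * x * t⁻¹ := by group
    rwa [h5] at h4
  have hle : S ⊓ centralizer (L : Set F) ≤ CC L L' := by
    intro x hx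
    have h1 := (hDmem x).1 (hSD hx.1)
    simp only [CC, Subgroup.mem_inf]
    exact ⟨hx.2, h1.1⟩
  exact rk2 l c n S L hSP hL hn hnorm (rb_mono hle h)

end H78CY
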