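import Pool.Agent.H78.CY.CfpN
import Pool.Agent.H78.CY.InhA
import Pool.Agent.H78.CY.InhB
import Pool.Agent.H78.TP.InhQ

/-!
[H78 CY INHN] Inheritance for a kernel which is an `l`-group, or of order prime to `|H|` (40 min).

PROOFS. `inhDn`: as `H78TP.inhD` (file `TP/InhD.lean`) with `cfpN` instead of `cfp`. `inhCn`: `≥` clear;
`≤`: `g'` centralises `H.map f`, `g' = f g₀`; for `x ∈ H` `x g₀ x⁻¹ g₀⁻¹ ∈ f.ker`; `cfpN` (`S = H`,
`N = f.ker`, normal) gives `y ∈ f.ker` such that `y g₀` centralises `H`, and `f (y g₀) = g'`.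
`inhQn`: `decG l H` gives `L`, `L'`; `KN m j H` is `KJ m j L L'` by `cc_sup`. `|L'|` is prime to `l`, so to
`|f.ker|` (a power of `l`), `inhDn` gives the equation `DD`, and as in `H78TP.inhQ` (file
`TP/InhQ.lean`) `inhAn` and `inhBn` give `KJ m (inhJ l n m j) (L.map f) (L'.map f)`, i.e. `KN` for
`(L ⊔ L').map f = H.map f` (`Subgroup.map_sup`, `cc_sup`). `|L| ≤ |H| ≤ n`.
-/

namespace H78CY

open Subgroup H78TP
open scoped commutatorElement

theorem inhDn {F F' : Type*} [Group F] [Finite F] [Group F'] (f : F →* F')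
    (hf : Function.Surjective f) (L L' : Subgroup F) (hnil : Group.IsNilpotent L')
    (hc : (Nat.card L').Coprime (Nat.card f.ker)) :
    (DD f L L').map f = CC (L.map f) (L'.map f) := by
  apply le_antisymm
  · rintro _ ⟨g, ⟨hg1, hg2⟩, rfl⟩
    refine ⟨hg2, ?_⟩
    show f g ∈ centralizer ((L'.map f : Subgroup F') : Set F')
    rw [Subgroup.mem_centralizer_iff]
    rintro _ ⟨x, hx, rfl⟩
    have h := Subgroup.mem_centralizer_iff.1 hg1 x hx
    rw [← map_mul, h, map_mul]
  · rintro g' ⟨h1, h2⟩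
    obtain ⟨g₀, rfl⟩ := hf g'
    have hcom : ∀ x ∈ L', x * g₀ * x⁻¹ * g₀⁻¹ ∈ f.ker := by
      intro x hx
      have h3 := Subgroup.mem_centralizer_iff.1 h2 (f x) ⟨x, hx, rfl⟩
      rw [MonoidHom.mem_ker, map_mul, map_mul, map_mul, map_inv, map_inv, h3]
      group
    obtain ⟨y, hy, hyc⟩ := cfpN _ L' f.ker le_rfl hnil hc
      (fun x _ y hy => (MonoidHom.normal_ker f).conj_mem y hy x) g₀ hcom
    refine ⟨y * g₀, ⟨?_, ?_⟩, ?_⟩
    · exact Subgroup.mem_centralizer_iff.2 (fun x hx => hyc x hx)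
    · show f (y * g₀) ∈ centralizer ((L.map f : Subgroup F') : Set F')
      rw [map_mul, MonoidHom.mem_ker.1 hy, one_mul]
      exact h1
    · rw [map_mul, MonoidHom.mem_ker.1 hy, one_mul]

theorem inhCn {F F' : Type*} [Group F] [Finite F] [Group F'] (f : F →* F')
    (hf : Function.Surjective f) (H : Subgroup F) (hnil : Group.IsNilpotent H)
    (hc : (Nat.card H).Coprime (Nat.card f.ker)) :
    centralizer ((H.map f : Subgroup F') : Set F') = (centralizer (H : Set F)).map f := by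
  apply le_antisymm
  · intro g' h2
    obtain ⟨g₀, rfl⟩ := hf g'
    have hcom : ∀ x ∈ H, x * g₀ * x⁻¹ * g₀⁻¹ ∈ f.ker := by
      intro x hx
      have h3 := Subgroup.mem_centralizer_iff.1 h2 (f x) ⟨x, hx, rfl⟩
      rw [MonoidHom.mem_ker, map_mul, map_mul, map_mul, map_inv, map_inv, h3]
      group
    obtain ⟨y, hy, hyc⟩ := cfpN _ H f.ker le_rfl hnil hc
      (fun x _ y hy => (MonoidHom.normal_ker f).conj_mem y hy x) g₀ hcom
    refine ⟨y * g₀, Subgroup.mem_centralizer_iff.2 (fun x hx => hyc x hx), ?_⟩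
    rw [map_mul, MonoidHom.mem_ker.1 hy, one_mul]
  · rintro _ ⟨g, hg, rfl⟩
    rw [Subgroup.mem_centralizer_iff]
    rintro _ ⟨x, hx, rfl⟩
    have h := Subgroup.mem_centralizer_iff.1 hg x hx
    rw [← map_mul, h, map_mul]

theorem inhQn {F F' : Type*} [Group F] [Finite F] [Group F'] (f : F →* F')
    (hf : Function.Surjective f) (l n m j : ℕ) [Fact l.Prime] (H : Subgroup F)
    (hnil : Group.IsNilpotent H) (hn : Nat.card H ≤ n) (hN : IsPGroup l f.ker)
    (h : KN m j H) : KN m (inhJ l n m j) (H.map f) := by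
  have hl : l.Prime := Fact.out
  obtain ⟨L, L', hL, hL', hLn, hcomm, hsup, hcd⟩ := decG l H hnil
  have hKJ : KJ m j L L' := by
    intro s hs
    rw [cc_sup, hsup]
    exact h s hs
  have hLc : Nat.card L ≤ n := by
    refine le_trans ?_ hn
    exact Nat.card_le_card_of_injective _
      (Subgroup.inclusion_injective (hsup ▸ le_sup_left : L ≤ H))
  have hcop : (Nat.card L').Coprime (Nat.card f.ker) := by
    obtain ⟨k, hk⟩ := IsPGroup.iff_card.1 hN
    rw [hk]
    exact Nat.Coprime.pow_right k ((Nat.Prime.coprime_iff_not_dvd hl).2 hL').symm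
  have hDD := inhDn f hf L L' hLn hcop
  have hRB : RB l (j * l ^ m) (CC L L') := hKJ l hl
  intro s hs
  have : Fact s.Prime := ⟨hs⟩
  rw [← hsup, Subgroup.map_sup, ← cc_sup]
  by_cases hsl : s = l
  · subst hsl
    refine rb_le ?_ (inhAn f s n (j * s ^ m) L L' hL hcomm hLc hN hDD hRB)
    have h1 : 1 ≤ s ^ m := Nat.one_le_pow _ _ hs.pos
    unfold inhJ
    exact (Nat.le_add_left _ _).trans (Nat.le_mul_of_pos_right _ h1)
  · refine rb_le ?_ (inhBn f l s n (j * l ^ m) (j * s ^ m) hsl L L' hL hcomm hLc hN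
      hDD hRB (hKJ s hs))
    unfold inhJ
    rw [← mul_assoc]
    exact Nat.mul_le_mul_right _ (Nat.le_add_right _ _)

end H78CY
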