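import Pool.Agent.H78.CY.InhN
import Pool.Agent.H78.TP.InqN
import Pool.Agent.H78.TP.Inq

/-!
[H78 CY INQG] Inheritance for a nilpotent kernel, and for a kernel of height `t` (60 min).

PROOFS. `inqG`: induction on `l` (for all `j`, `F`, `F'`, `f`, `H`). `l = 0`: no prime divisor of
`|f.ker|` is `≤ n`, so `|H| ≤ n` and `|f.ker|` are coprime; `inhCn` and `rb_map`. `l + 1`: if `l` is not
prime or `l` does not divide `|f.ker|` and `l` is prime: in the first case the primes in question are
`< l` (a prime `< l + 1` is `≠ l`), use the induction hypothesis. If `l` is prime: let `S ≤ f.ker` be the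
normal Sylow `l`-subgroup of `f.ker`, normal in `F` (`nilSyl f.ker _ c hc l`, see `TP/InqN.lean`),
`π : F →* F ⧸ S`, `f₁ : F ⧸ S →* F'` with `f = f₁ ∘ π` (`QuotientGroup.lift`), `f₁.ker = f.ker.map π`,
`|f₁.ker| = S.relIndex f.ker` is prime to `l` and divides `|f.ker|` (private lemmas `inqn_ker`,
`inqn_card` of `TP/InqN.lean`; copy them), `gam f₁.ker c = ⊥` (`gam_map`). `inhQn` (kernel `S`, an
`l`-group) gives `KN m (inhJ l n m j) (H.map π)`; the induction hypothesis for `f₁`, `H.map π` (nilpotent,
`|H.map π| ≤ |H| ≤ n`; the primes `≤ n` which divide `|f₁.ker|` are `< l`) gives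
`KN m (inL n m l (inhJ l n m j)) ((H.map π).map f₁)`, which is the claim (`inL n m (l + 1) j` by
definition with `l.Prime`; `Subgroup.map_map`).
`inqH`: induction on `t` as in `TP/Inq.lean`: `t = 0`: `f.ker = ⊥`, `inhCn` (`|f.ker| = 1`), `rb_map`.
`t + 1`: `N₁ = lns f.ker t` is normal with `gam N₁ c = ⊥` for some `c`; `inqG` for `F →* F ⧸ N₁` with
`l = n + 1`; then the induction hypothesis for `F ⧸ N₁ →* F'`.
`nh_map`: `NHyp` for the image: images of soluble and nilpotent groups, `Nat.card` of an image.
-/

namespace H78CY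

open Subgroup H78TP
open scoped commutatorElement

private theorem inqg_ker {F F' : Type*} [Group F] [Group F'] (f : F →* F') (S : Subgroup F)
    [hS : S.Normal] (hle : S ≤ f.ker) :
    (QuotientGroup.lift S f hle).ker = f.ker.map (QuotientGroup.mk' S) := by
  ext x
  obtain ⟨g, rfl⟩ := QuotientGroup.mk'_surjective S x
  constructor
  · intro hx
    refine ⟨g, ?_, rfl⟩
    rw [SetLike.mem_coe, MonoidHom.mem_ker]
    rw [MonoidHom.mem_ker] at hx
    simpa using hx
  · rintro ⟨g', hg', hgg⟩
    rw [← hgg, MonoidHom.mem_ker]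
    rw [SetLike.mem_coe, MonoidHom.mem_ker] at hg'
    simpa using hg'

private theorem inqg_card {F F' : Type*} [Group F] [Finite F] [Group F'] (f : F →* F')
    (S : Subgroup F) [hS : S.Normal] (hle : S ≤ f.ker) :
    Nat.card (QuotientGroup.lift S f hle).ker = S.relIndex f.ker := by
  rw [inqg_ker]
  have h := Subgroup.relIndex_ker (QuotientGroup.mk' S) (K := f.ker)
  rw [QuotientGroup.ker_mk'] at h
  exact h.symm

private theorem inqg_nil {F F' : Type*} [Group F] [Group F'] (f : F →* F') (H : Subgroup F)
    (h : Group.IsNilpotent H) : Group.IsNilpotent (H.map f) :=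
  Group.nilpotent_of_surjective (f.subgroupMap H) (f.subgroupMap_surjective H)

private theorem inqg_le {F F' : Type*} [Group F] [Finite F] [Group F'] (f : F →* F')
    (H : Subgroup F) {n : ℕ} (h : Nat.card H ≤ n) : Nat.card (H.map f) ≤ n :=
  (Nat.card_le_card_of_surjective (f.subgroupMap H) (f.subgroupMap_surjective H)).trans h

theorem inqG (n m : ℕ) (l : ℕ) : ∀ (j : ℕ) {F F' : Type*} [Group F] [Finite F] [Group F']
    (f : F →* F'), Function.Surjective f → ∀ H : Subgroup F, Group.IsNilpotent H →
    Nat.card H ≤ n → ∀ c, gam f.ker c = ⊥ →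
    (∀ s : ℕ, s.Prime → s ≤ n → s ∣ Nat.card f.ker → s < l) → KN m j H →
    KN m (inL n m l j) (H.map f) := by
  induction l with
  | zero =>
    intro j F F' _ _ _ f hf H hnil hn c hc hpr hK
    have hcop : (Nat.card H).Coprime (Nat.card f.ker) := by
      by_contra h
      obtain ⟨s, hs, h1, h2⟩ := Nat.Prime.not_coprime_iff_dvd.1 h
      exact absurd (hpr s hs ((Nat.le_of_dvd Nat.card_pos h1).trans hn) h2) (Nat.not_lt_zero s)
    intro s hs
    rw [inhCn f hf H hnil hcop]
    exact rb_map f s _ _ (hK s hs)
  | succ l ih =>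
    intro j F F' _ _ _ f hf H hnil hn c hc hpr hK
    by_cases hl : l.Prime
    · have := Fact.mk hl
      have he : inL n m (l + 1) j = inL n m l (inhJ l n m j) := by
        show inL n m l (if l.Prime then inhJ l n m j else j) = _
        rw [if_pos hl]
      rw [he]
      obtain ⟨S, hSn, hSN, hSp, hSi⟩ := nilSyl f.ker (MonoidHom.normal_ker f) c hc l
      have hker1 : (QuotientGroup.lift S f hSN).ker = f.ker.map (QuotientGroup.mk' S) :=
        inqg_ker f S hSN
      have hcard1 : Nat.card (QuotientGroup.lift S f hSN).ker = S.relIndex f.ker :=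
        inqg_card f S hSN
      have hf₁s : Function.Surjective (QuotientGroup.lift S f hSN) := by
        intro y
        obtain ⟨x, rfl⟩ := hf y
        exact ⟨QuotientGroup.mk' S x, rfl⟩
      have hgam1 : gam (QuotientGroup.lift S f hSN).ker c = ⊥ := by
        rw [hker1, ← gam_map, hc, Subgroup.map_bot]
      have hkπ : IsPGroup l (QuotientGroup.mk' S).ker := by
        rw [QuotientGroup.ker_mk']
        exact hSp
      have h1 := inhQn (QuotientGroup.mk' S) (QuotientGroup.mk'_surjective S) l n m j H hnil hn
        hkπ hK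
      have h2 := ih (inhJ l n m j) (QuotientGroup.lift S f hSN) hf₁s
        (H.map (QuotientGroup.mk' S)) (inqg_nil _ H hnil) (inqg_le _ H hn) c hgam1
        (fun s hs hsn hsd => by
          rw [hcard1] at hsd
          have h3 := hpr s hs hsn (hsd.trans (Subgroup.relIndex_dvd_card S f.ker))
          have h4 : s ≠ l := by
            rintro rfl
            exact hSi hsd
          omega) h1
      have hcomp : (QuotientGroup.lift S f hSN).comp (QuotientGroup.mk' S) = f :=
        QuotientGroup.lift_comp_mk' _ _ _
      rw [Subgroup.map_map, hcomp] at h2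
      exact h2
    · have he : inL n m (l + 1) j = inL n m l j := by
        show inL n m l (if l.Prime then inhJ l n m j else j) = _
        rw [if_neg hl]
      rw [he]
      refine ih j f hf H hnil hn c hc (fun s hs hsn hsd => ?_) hK
      have h3 := hpr s hs hsn hsd
      have h4 : s ≠ l := by
        rintro rfl
        exact hl hs
      omega

theorem inqH (n m : ℕ) (t : ℕ) : ∀ (j : ℕ) {F F' : Type*} [Group F] [Finite F] [Group F']
    (f : F →* F'), Function.Surjective f → ∀ H : Subgroup F, Group.IsNilpotent H →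
    Nat.card H ≤ n → lns f.ker t = ⊥ → KN m j H → KN m (inHn n m t j) (H.map f) := by
  induction t with
  | zero =>
    intro j F F' _ _ _ f hf H hnil hn hh hK
    have hk : f.ker = ⊥ := hh
    have hcop : (Nat.card H).Coprime (Nat.card f.ker) := by
      rw [hk, Subgroup.card_bot]
      exact Nat.coprime_one_right _
    intro s hs
    rw [inhCn f hf H hnil hcop]
    exact rb_map f s _ _ (hK s hs)
  | succ t ih =>
    intro j F F' _ _ _ f hf H hnil hn hh hK
    have hN : (lns f.ker t).Normal := lns_normal inferInstance t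
    have hle : lns f.ker t ≤ f.ker := lns_le _ _
    have hker : (QuotientGroup.mk' (lns f.ker t)).ker = lns f.ker t := QuotientGroup.ker_mk' _
    obtain ⟨c, hc⟩ := (nres_eq_bot_iff (lns f.ker t)).1 hh
    have h1 := inqG n m (n + 1) j (QuotientGroup.mk' (lns f.ker t))
      (QuotientGroup.mk'_surjective _) H hnil hn c (by rw [hker]; exact hc)
      (fun s _ hsn _ => Nat.lt_succ_of_le hsn) hK
    have hcomp : (QuotientGroup.lift (lns f.ker t) f hle).comp (QuotientGroup.mk' (lns f.ker t)) =
        f := QuotientGroup.lift_comp_mk' _ _ _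
    have hsurj : Function.Surjective (QuotientGroup.lift (lns f.ker t) f hle) := by
      intro y
      obtain ⟨x, rfl⟩ := hf y
      exact ⟨QuotientGroup.mk' (lns f.ker t) x, rfl⟩
    have h2 := ih (inL n m (n + 1) j) (QuotientGroup.lift (lns f.ker t) f hle) hsurj
      (H.map (QuotientGroup.mk' (lns f.ker t))) (inqg_nil _ H hnil) (inqg_le _ H hn) (by
        rw [QuotientGroup.ker_lift, ← lns_map, Subgroup.map_eq_bot_iff, hker]) h1
    rw [Subgroup.map_map, hcomp] at h2
    exact h2

theorem nh_map {n m j t : ℕ} {F F' : Type*} [Group F] [Finite F] [Group F'] (f : F →* F')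
    (hf : Function.Surjective f) {H : Subgroup F} (h : NHyp n m j F H)
    (hk : lns f.ker t = ⊥) : NHyp n m (inHn n m t j) F' (H.map f) := by
  have := h.sol
  exact ⟨Group.isSolvable_of_surjective hf, inqg_nil f H h.nil, inqg_le f H h.card,
    inqH n m t j f hf H h.nil h.card hk h.kn⟩

end H78CY
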