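import Pool.Agent.H78.CY.Def2

/-!
[H78 CY KA] The commutator form of `KHyp` and orthogonal complements (50 min).

PROOFS. `kform`: `⁅e, f⁆ ∈ D` acts as a scalar; define `β e f` by choice (`Classical.choice`; `0`
otherwise); it is unique since `U` is nontrivial. `⁅e e', f⁆ = e ⁅e', f⁆ e⁻¹ ⁅e, f⁆` and `σ ⁅e', f⁆` is a
scalar, so it commutes with `σ e`. The other rules in the same way. `β e f ^ r = β (e ^ r) f = 1` as
`e ^ r ∈ D` acts as a scalar, so `σ ⁅e ^ r, f⁆ = 1`.
`perp`: `A` is normal in `E` (it contains `D ≥ ⁅E, E⁆`). For `b ∈ B` the map `f ↦ β b f` on `E` is a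
homomorphism to `kˣ` which is trivial on `A`, so it is a homomorphism `θ_b : E / A → kˣ`; `b ↦ θ_b` is a
homomorphism with kernel `D` (`h.nd`: if `β b f = 1` for all `f ∈ E` then `b ∈ D`). So
`D.relIndex B = |{θ_b}| ≤ |Hom(E / A, kˣ)| ≤ |E / A|`: different homomorphisms of a finite group to `k` are
linearly independent functions (`linearIndependent_monoidHom`), and the space of functions has
dimension `|E / A|`.
-/

namespace H78CY

open Subgroup H78TP
open scoped commutatorElement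

variable {k Γ U : Type*} [Field k] [Group Γ] [AddCommGroup U] [Module k U]


theorem kform [Nontrivial U] {r : ℕ} {σ : Representation k Γ U} {E D : Subgroup Γ}
    (h : KHyp r σ E D) : ∃ β : Γ → Γ → k,
      (∀ e ∈ E, ∀ f ∈ E, ∀ v, σ ⁅e, f⁆ v = β e f • v) ∧
      (∀ e ∈ E, ∀ e' ∈ E, ∀ f ∈ E, β (e * e') f = β e f * β e' f) ∧
      (∀ e ∈ E, ∀ f ∈ E, ∀ f' ∈ E, β e (f * f') = β e f * β e f') ∧
      (∀ e ∈ E, ∀ f ∈ E, β f e = (β e f)⁻¹ ∧ β e f ≠ 0 ∧ β e f ^ r = 1) ∧
      (∀ d ∈ D, ∀ e ∈ E, β d e = 1 ∧ β e d = 1) ∧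
      (∀ e ∈ E, (∀ f ∈ E, β e f = 1) → e ∈ D) ∧
      ∀ g, ∀ e ∈ E, ∀ f ∈ E, β (g * e * g⁻¹) (g * f * g⁻¹) = β e f := by
  have hex : ∀ e f, ∃ c : k, e ∈ E → f ∈ E → ∀ v, σ ⁅e, f⁆ v = c • v := by
    intro e f
    by_cases hef : e ∈ E ∧ f ∈ E
    · obtain ⟨c, hc⟩ := h.sc _ (h.com e hef.1 f hef.2)
      exact ⟨c, fun _ _ => hc⟩
    · exact ⟨0, fun h1 h2 => absurd ⟨h1, h2⟩ hef⟩
  choose β hβ using hex
  obtain ⟨v0, hv0⟩ := exists_ne (0 : U)
  have huniq : ∀ a b : k, a • v0 = b • v0 → a = b := by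
    intro a b hab
    have h1 : (a - b) • v0 = 0 := by rw [sub_smul, hab, sub_self]
    rcases smul_eq_zero.1 h1 with h2 | h2
    · exact sub_eq_zero.1 h2
    · exact absurd h2 hv0
  have b2 : ∀ e ∈ E, ∀ e' ∈ E, ∀ f ∈ E, β (e * e') f = β e f * β e' f := by
    intro e he e' he' f hf
    apply huniq
    rw [← hβ (e * e') f (E.mul_mem he he') hf]
    have e1 : ⁅e * e', f⁆ = e * ⁅e', f⁆ * e⁻¹ * ⁅e, f⁆ := by
      rw [commutatorElement_def, commutatorElement_def, commutatorElement_def]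
      group
    rw [e1, map_mul, map_mul, map_mul, Module.End.mul_apply, Module.End.mul_apply,
      Module.End.mul_apply, hβ e f he hf, map_smul, map_smul, map_smul, hβ e' f he' hf, map_smul,
      smul_smul, ← Module.End.mul_apply, ← map_mul, mul_inv_cancel, map_one,
      Module.End.one_apply]
  have hD0 : ∀ d ∈ D, ∀ x : Γ, σ ⁅d, x⁆ = 1 := by
    intro d hd x
    obtain ⟨c, hc⟩ := h.sc d hd
    ext v
    have e1 : ⁅d, x⁆ = d * (x * d⁻¹ * x⁻¹) := by
      rw [commutatorElement_def]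
      group
    have hc' : ∀ u, c • σ d⁻¹ u = u := by
      intro u
      rw [← hc, ← Module.End.mul_apply, ← map_mul, mul_inv_cancel, map_one,
        Module.End.one_apply]
    rw [e1, map_mul, Module.End.mul_apply, hc, map_mul, map_mul, Module.End.mul_apply,
      Module.End.mul_apply, ← map_smul, hc', ← Module.End.mul_apply, ← map_mul, mul_inv_cancel,
      map_one, Module.End.one_apply]
  have b5 : ∀ d ∈ D, ∀ e ∈ E, β d e = 1 := by
    intro d hd e he
    apply huniq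
    rw [← hβ d e (h.DE hd) he, hD0 d hd, one_smul, Module.End.one_apply]
  have binv : ∀ e ∈ E, ∀ f ∈ E, β e f * β f e = 1 := by
    intro e he f hf
    apply huniq
    rw [mul_smul, ← hβ f e hf he, ← hβ e f he hf, ← Module.End.mul_apply, ← map_mul, one_smul]
    have e1 : ⁅e, f⁆ * ⁅f, e⁆ = 1 := by
      rw [commutatorElement_def, commutatorElement_def]
      group
    rw [e1, map_one, Module.End.one_apply]
  have b4 : ∀ e ∈ E, ∀ f ∈ E, β f e = (β e f)⁻¹ ∧ β e f ≠ 0 := by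
    intro e he f hf
    have h1 := binv e he f hf
    exact ⟨(inv_eq_of_mul_eq_one_right h1).symm, left_ne_zero_of_mul_eq_one h1⟩
  have bpow : ∀ e ∈ E, ∀ f ∈ E, ∀ i : ℕ, β (e ^ i) f = β e f ^ i := by
    intro e he f hf i
    induction i with
    | zero => rw [pow_zero, pow_zero, b5 1 D.one_mem f hf]
    | succ i ih => rw [pow_succ, b2 _ (E.pow_mem he i) e he f hf, ih, pow_succ]
  refine ⟨β, fun e he f hf v => hβ e f he hf v, b2, ?_, fun e he f hf => ⟨(b4 e he f hf).1,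
    (b4 e he f hf).2, ?_⟩, fun d hd e he => ⟨b5 d hd e he, ?_⟩, fun e he hall => ?_, ?_⟩
  · intro e he f hf f' hf'
    rw [(b4 (f * f') (E.mul_mem hf hf') e he).1, b2 f hf f' hf' e he, mul_inv,
      ← (b4 f hf e he).1, ← (b4 f' hf' e he).1]
  · rw [← bpow e he f hf, b5 _ (h.pow e he) f hf]
  · rw [(b4 d (h.DE hd) e he).1, b5 d hd e he, inv_one]
  · refine h.nd e he fun f hf => ?_
    ext v
    rw [hβ e f he hf, hall f hf, one_smul, Module.End.one_apply]
  · intro g e he f hf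
    have he' := h.nE.conj_mem e he g
    have hf' := h.nE.conj_mem f hf g
    apply huniq
    rw [← hβ _ _ he' hf']
    have e1 : ⁅g * e * g⁻¹, g * f * g⁻¹⁆ = g * ⁅e, f⁆ * g⁻¹ := by
      rw [commutatorElement_def, commutatorElement_def]
      group
    rw [e1, map_mul, map_mul, Module.End.mul_apply, Module.End.mul_apply, hβ e f he hf,
      map_smul, ← Module.End.mul_apply, ← map_mul, mul_inv_cancel, map_one,
      Module.End.one_apply]

/-- a finite group has at most `|G|` homomorphisms to a field -/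
private theorem ka_card (G : Type*) [Group G] [Finite G] : Nat.card (G →* k) ≤ Nat.card G ∧
    Finite (G →* k) := by
  classical
  haveI : Fintype G := Fintype.ofFinite _
  have li := linearIndependent_monoidHom G k
  haveI hf : Finite (G →* k) := li.finite
  haveI : Fintype (G →* k) := Fintype.ofFinite _
  refine ⟨?_, hf⟩
  have h1 := li.fintype_card_le_finrank
  rw [Module.finrank_fintype_fun_eq_card] at h1
  rwa [Nat.card_eq_fintype_card, Nat.card_eq_fintype_card]

theorem perp [Nontrivial U] [Finite Γ] {r : ℕ} {σ : Representation k Γ U} {E D : Subgroup Γ}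
    (h : KHyp r σ E D) (A B : Subgroup Γ) (hDA : D ≤ A) (hA : A ≤ E) (hDB : D ≤ B)
    (hB : ∀ e ∈ B, e ∈ E ∧ ∀ f ∈ A, σ ⁅e, f⁆ = 1) : D.relIndex B ≤ A.relIndex E := by
  obtain ⟨β, β1, β2, β3, β4, β5, β6, -⟩ := kform h
  obtain ⟨v0, hv0⟩ := exists_ne (0 : U)
  have hN : (A.subgroupOf E).Normal := by
    constructor
    intro a ha g
    rw [Subgroup.mem_subgroupOf] at ha ⊢
    have e1 : ((g * a * g⁻¹ : E) : Γ) = ⁅(g : Γ), (a : Γ)⁆ * a := by
      rw [commutatorElement_def]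
      push_cast
      group
    rw [e1]
    exact A.mul_mem (hDA (h.com _ g.2 _ a.2)) ha
  have hBA : ∀ b ∈ B, ∀ f ∈ A, β b f = 1 := by
    intro b hb f hf
    have h1 := β1 b (hB b hb).1 f (hA hf) v0
    rw [(hB b hb).2 f hf, Module.End.one_apply] at h1
    by_contra h2
    have h3 : (β b f - 1) • v0 = 0 := by rw [sub_smul, one_smul, ← h1, sub_self]
    rcases smul_eq_zero.1 h3 with h4 | h4
    · exact h2 (sub_eq_zero.1 h4)
    · exact hv0 h4
  let θ : B → (E →* k) := fun b =>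
    { toFun := fun f => β b f
      map_one' := (β5 1 D.one_mem b (hB b b.2).1).2
      map_mul' := fun f f' => β3 b (hB b b.2).1 f f.2 f' f'.2 }
  have hker : ∀ b : B, A.subgroupOf E ≤ (θ b).ker := by
    intro b f hf
    rw [MonoidHom.mem_ker]
    exact hBA b b.2 f hf
  let Θ : B → ((E ⧸ A.subgroupOf E) →* k) := fun b => QuotientGroup.lift (A.subgroupOf E) (θ b) (hker b)
  obtain ⟨h1, h2⟩ := ka_card (k := k) (E ⧸ A.subgroupOf E)
  show Nat.card (B ⧸ D.subgroupOf B) ≤ Nat.card (E ⧸ A.subgroupOf E)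
  refine le_trans ?_ h1
  refine Nat.card_le_card_of_injective (fun q => Θ (Quotient.out q)) ?_
  intro q₁ q₂ hq
  have hq' : ∀ f : E, β (Quotient.out q₁ : B) f = β (Quotient.out q₂ : B) f := by
    intro f
    exact congrArg (fun φ : (E ⧸ A.subgroupOf E) →* k => φ (QuotientGroup.mk f)) hq
  rw [← Quotient.out_eq q₁, ← Quotient.out_eq q₂]
  refine QuotientGroup.eq.2 ?_
  rw [Subgroup.mem_subgroupOf]
  set b₁ : B := Quotient.out q₁
  set b₂ : B := Quotient.out q₂
  have k1 := (hB b₁ b₁.2).1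
  have k2 := (hB b₂ b₂.2).1
  refine β6 _ (E.mul_mem (E.inv_mem k1) k2) fun f hf => ?_
  have e1 := β2 (b₁ : Γ)⁻¹ (E.inv_mem k1) b₁ k1 f hf
  rw [inv_mul_cancel, (β5 1 D.one_mem f hf).1] at e1
  have e2 := β2 (b₁ : Γ)⁻¹ (E.inv_mem k1) b₂ k2 f hf
  rw [← hq' ⟨f, hf⟩] at e2
  exact e2.trans e1.symm

end H78CY
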