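import Pool.Agent.H78.CY.Lc1
import Pool.Agent.H78.CY.Avg
import Pool.Agent.H78.CY.StA

/-!
[H78 CY LK] THE LINK LEMMA (50 min).

PROOF. Let `Q x` be the property `2 ^ j |Dx x| ≤ |R|` and `¬ Dx x ≤ rgCj x C`; write `J_x = rgCj x J` and
so on (`J_x`, `L_x`, `M_x` satisfy the hypotheses of `lc3`, `nm_conj` ...; `|J_x| = |J|` `card_rgCj`).
(1) Let `Q x`. Since `Dx x ≤ (J ⊔ L)_x` and `Dx x` is not in `C_x`, there are `g ∈ Dx x`, `y ∈ J_x` with
`⁅g, y⁆ ∉ M_x` (`cc_conj`). By `lc3` at most half of the `e ∈ J_x` satisfy `Dx x ≤ st R L_x e` and by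
`hD3` at most `|J| / 8E` do not satisfy `st R L_x e ≤ Dx x`. For the others `gd R L (j + 1) (e x)` by
`st_mul` and `gd_of_lt`. So `3 |J| ≤ 8 |{e ∈ J_x | gd R L (j + 1) (e x)}|`. `avg2` (with `Y = ⊤`):
`3 |{x | Q x}| ≤ 8 |{x | gd R L (j + 1) x}|`.
(2) If `|Γ| ≤ 2 E |{x | Q x}|` then `3 |Γ| ≤ 16 E |{gd}|`, so `|Γ| ≤ 8 E |{gd}|`: first alternative.
(3) Otherwise `2 E |{x | Q x}| < |Γ|`. Let `Q' x` be: `Q x` or `¬ 2 ^ j |Dx x| ≤ |R|`. If `¬ Q' x` then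
`Dx x ≤ rgCj x C`, and for `e ∈ J_x` with `st R L_x e ≤ Dx x` we get `st R L (e x) = st R L_x e ≤ R ⊓ C_x =
st R C x = st R C (e x)`; the last equality: `e ∈ J_x` normalises `C_x`, as `J ≤ J ⊔ L` normalises `C`
(`cc_nm`; `J ⊔ L` normalises `J` and `M`). So for `¬ Q' x`:
`8 E |{e ∈ J_x | ¬ st R L (e x) ≤ st R C (e x)}| ≤ |J|`, and `avg3` gives
`8 E |{x | ¬ st R L x ≤ st R C x}| ≤ |Γ| + 8 E |{Q'}| ≤ |Γ| + 8 E |{Q}| + 8 E |{¬ 2^j |Dx| ≤ |R|}| ≤ |Γ| + 4 |Γ| +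
|Γ| ≤ 8 |Γ|`: second alternative.
-/

namespace H78CY

open Subgroup H78TP
open scoped commutatorElement

variable {Γ : Type*} [Group Γ]

private theorem lkcard (P : Γ → Prop) : Nat.card {x : Γ // P x} = {x : Γ | P x}.ncard :=
  Nat.card_coe_set_eq _

private theorem lkle [Finite Γ] {P Q : Γ → Prop} (h : ∀ x, P x → Q x) :
    Nat.card {x : Γ // P x} ≤ Nat.card {x : Γ // Q x} := by
  rw [lkcard, lkcard]
  exact Set.ncard_le_ncard (fun x hx => h x hx) (Set.toFinite _)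

private theorem lkor [Finite Γ] {P Q R : Γ → Prop} (h : ∀ x, P x → Q x ∨ R x) :
    Nat.card {x : Γ // P x} ≤ Nat.card {x : Γ // Q x} + Nat.card {x : Γ // R x} := by
  rw [lkcard, lkcard, lkcard]
  refine (Set.ncard_le_ncard (t := {x | Q x} ∪ {x | R x}) (fun x hx => h x hx) (Set.toFinite _)).trans ?_
  exact Set.ncard_union_le _ _

private theorem lktop [Finite Γ] (P : Γ → Prop) :
    Nat.card {x : Γ // x ∈ (⊤ : Subgroup Γ) ∧ P x} = Nat.card {x : Γ // P x} :=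
  le_antisymm (lkle fun _ h => h.2) (lkle fun _ h => ⟨Subgroup.mem_top _, h⟩)

theorem lk [Finite Γ] (R J L M C : Subgroup Γ) (j E : ℕ) (hE : 0 < E) (nLJ : Nm L J)
    (hM : M ≤ J) (hJL : J ⊓ L ≤ M) (nJM : Nm J M) (nLM : Nm L M)
    (hc : ∀ x ∈ J, ∀ y ∈ J, ⁅x, y⁆ ∈ M) (hC : IsCc (J ⊔ L) J M C) (Dx : Γ → Subgroup Γ)
    (hD1 : ∀ x, Dx x ≤ R) (hD2 : ∀ x, Dx x ≤ rgCj x (J ⊔ L))
    (hD3 : ∀ x, 8 * E * Nat.card {e : Γ // e ∈ rgCj x J ∧ ¬ st R (rgCj x L) e ≤ Dx x} ≤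
      Nat.card J)
    (hD4 : Few (8 * E) (fun x => ¬ 2 ^ j * Nat.card (Dx x) ≤ Nat.card R)) :
    Many (8 * E) (gd R L (j + 1)) ∨ Few E (fun x => ¬ st R L x ≤ st R C x) := by
  classical
  have nYJ : Nm (J ⊔ L) J := nm_left (nm_self J) nLJ
  have nYM : Nm (J ⊔ L) M := nm_left nJM nLM
  have nYC : Nm (J ⊔ L) C := cc_nm nYJ nYM hC
  set Q : Γ → Prop := fun x => 2 ^ j * Nat.card (Dx x) ≤ Nat.card R ∧ ¬ Dx x ≤ rgCj x C with hQ
  have hstep1 : ∀ x ∈ (⊤ : Subgroup Γ), Q x →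
      3 * Nat.card J ≤ 8 * Nat.card {e : Γ // e ∈ rgCj x J ∧ gd R L (j + 1) (e * x)} := by
    rintro x - ⟨hx1, hx2⟩
    have hsup : rgCj x (J ⊔ L) = rgCj x J ⊔ rgCj x L := rgCj_sup x J L
    have hne : ∃ g ∈ Dx x, ∃ y ∈ rgCj x J, ⁅g, y⁆ ∉ rgCj x M := by
      by_contra hcon
      push Not at hcon
      apply hx2
      intro g hg
      rw [cc_conj x hC g]
      exact ⟨hD2 x hg, fun y hy => hcon g hg y hy⟩
    have hJL' : rgCj x J ⊓ rgCj x L ≤ rgCj x M := by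
      rintro y ⟨hy1, hy2⟩
      rw [mem_rgCj]
      exact hJL ⟨mem_rgCj.1 hy1, mem_rgCj.1 hy2⟩
    have hc' : ∀ y ∈ rgCj x J, ∀ z ∈ rgCj x J, ⁅y, z⁆ ∈ rgCj x M := by
      intro y hy z hz
      rw [mem_rgCj] at hy hz ⊢
      have h1 := hc _ hy _ hz
      have h2 : x⁻¹ * ⁅y, z⁆ * x = ⁅x⁻¹ * y * x, x⁻¹ * z * x⁆ := by
        rw [commutatorElement_def, commutatorElement_def]
        group
      rw [h2]
      exact h1
    have h3 := lc3 (rgCj x J) (rgCj x L) (rgCj x M) (Dx x) (nm_conj x nLJ) ((rgCj_le x).2 hM) hJL'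
      (nm_conj x nJM) (nm_conj x nLM) hc' (hsup ▸ hD2 x) hne
    rw [card_rgCj] at h3
    have h4 := hD3 x
    have h5 : Nat.card J ≤ Nat.card {e : Γ // e ∈ rgCj x J ∧ gd R L (j + 1) (e * x)} +
        (Nat.card {e : Γ // e ∈ rgCj x J ∧ ∀ g ∈ Dx x, e⁻¹ * g * e ∈ rgCj x L} +
        Nat.card {e : Γ // e ∈ rgCj x J ∧ ¬ st R (rgCj x L) e ≤ Dx x}) := by
      rw [← card_rgCj x J]
      have h6 : Nat.card (rgCj x J) = Nat.card {e : Γ // e ∈ rgCj x J} := rfl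
      rw [h6]
      refine (lkor (Q := fun e => e ∈ rgCj x J ∧ gd R L (j + 1) (e * x))
        (R := fun e => (e ∈ rgCj x J ∧ ∀ g ∈ Dx x, e⁻¹ * g * e ∈ rgCj x L) ∨
          (e ∈ rgCj x J ∧ ¬ st R (rgCj x L) e ≤ Dx x)) ?_).trans ?_
      · intro e he
        by_cases h7 : st R (rgCj x L) e ≤ Dx x
        · by_cases h8 : ∀ g ∈ Dx x, e⁻¹ * g * e ∈ rgCj x L
          · exact Or.inr (Or.inl ⟨he, h8⟩)
          · left
            refine ⟨he, ?_⟩
            have h9 : ¬ Dx x ≤ st R (rgCj x L) e := by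
              intro h10
              exact h8 fun g hg => (h10 hg).2
            have h10 := gd_of_lt h7 h9 hx1
            unfold gd at h10 ⊢
            rw [st_mul]
            exact h10
        · exact Or.inr (Or.inr ⟨he, h7⟩)
      · exact Nat.add_le_add_left (lkor fun e he => he) _
    have h6 : 8 * Nat.card {e : Γ // e ∈ rgCj x J ∧ ¬ st R (rgCj x L) e ≤ Dx x} ≤
        8 * E * Nat.card {e : Γ // e ∈ rgCj x J ∧ ¬ st R (rgCj x L) e ≤ Dx x} :=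
      Nat.mul_le_mul_right _ (by omega)
    omega
  have h1 := avg2 (⊤ : Subgroup Γ) J le_top (gd R L (j + 1)) Q 8 3 hstep1
  rw [lktop, lktop] at h1
  by_cases hcase : Nat.card Γ ≤ 2 * E * Nat.card {x : Γ // Q x}
  · left
    unfold Many
    have h2 : 3 * Nat.card Γ ≤ 16 * E * Nat.card {x : Γ // gd R L (j + 1) x} := by
      calc 3 * Nat.card Γ ≤ 3 * (2 * E * Nat.card {x : Γ // Q x}) := Nat.mul_le_mul_left _ hcase
        _ = 2 * E * (3 * Nat.card {x : Γ // Q x}) := by ring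
        _ ≤ 2 * E * (8 * Nat.card {x : Γ // gd R L (j + 1) x}) := Nat.mul_le_mul_left _ h1
        _ = 16 * E * Nat.card {x : Γ // gd R L (j + 1) x} := by ring
    have h3 : 16 * E * Nat.card {x : Γ // gd R L (j + 1) x} =
        2 * (8 * E * Nat.card {x : Γ // gd R L (j + 1) x}) := by ring
    omega
  · right
    push Not at hcase
    set Q' : Γ → Prop := fun x => Q x ∨ ¬ 2 ^ j * Nat.card (Dx x) ≤ Nat.card R with hQ'
    have hstep3 : ∀ x ∈ (⊤ : Subgroup Γ), ¬ Q' x →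
        8 * E * Nat.card {e : Γ // e ∈ rgCj x J ∧ ¬ st R L (e * x) ≤ st R C (e * x)} ≤
          1 * Nat.card J := by
      intro x _ hx
      rw [one_mul]
      refine le_trans (Nat.mul_le_mul_left _ (lkle ?_)) (hD3 x)
      rintro e ⟨he, he2⟩
      refine ⟨he, fun h7 => he2 ?_⟩
      have hx1 : 2 ^ j * Nat.card (Dx x) ≤ Nat.card R := by
        by_contra h
        exact hx (Or.inr h)
      have hx2 : Dx x ≤ rgCj x C := by
        by_contra h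
        exact hx (Or.inl ⟨hx1, h⟩)
      have h8 : st R C (e * x) = R ⊓ rgCj x C := by
        rw [st_mul, st_eq]
        congr 1
        exact rgCj_of_nm (nm_conj x nYC) ((rgCj_le x).2 le_sup_left he)
      rw [h8, st_mul]
      exact le_inf (st_le _ _ _) (h7.trans hx2)
    have h2 := avg3 (⊤ : Subgroup Γ) J le_top (fun y => ¬ st R L y ≤ st R C y) Q' (8 * E) 1 hstep3
    rw [lktop, lktop] at h2
    have h3 : Nat.card {x : Γ // Q' x} ≤ Nat.card {x : Γ // Q x} +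
        Nat.card {x : Γ // ¬ 2 ^ j * Nat.card (Dx x) ≤ Nat.card R} := lkor fun x hx => hx
    have h4 : 8 * E * Nat.card {x : Γ // Q' x} ≤ 4 * (2 * E * Nat.card {x : Γ // Q x}) +
        8 * E * Nat.card {x : Γ // ¬ 2 ^ j * Nat.card (Dx x) ≤ Nat.card R} := by
      calc 8 * E * Nat.card {x : Γ // Q' x} ≤ 8 * E * (Nat.card {x : Γ // Q x} +
            Nat.card {x : Γ // ¬ 2 ^ j * Nat.card (Dx x) ≤ Nat.card R}) := Nat.mul_le_mul_left _ h3
        _ = _ := by ring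
    unfold Few at hD4 ⊢
    beta_reduce at hD4 ⊢
    have h5 : Nat.card (⊤ : Subgroup Γ) = Nat.card Γ := Subgroup.card_top
    rw [h5] at h2
    have h6 : 8 * E * Nat.card {x : Γ // ¬ st R L x ≤ st R C x} =
        8 * (E * Nat.card {x : Γ // ¬ st R L x ≤ st R C x}) := by ring
    rw [h6] at h2
    omega

end H78CY
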