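import Pool.Agent.H78.CY.TrF
import Pool.Agent.H78.CY.Lk
import Pool.Agent.H78.CY.Dxc

/-!
[H78 CY LAB] The link lemma with the two sources of `D_x` (60 min).

PROOFS. All `PS p G a` are normal in `Γ` (`h.nG`, `PS_nm`, `nm_of_normal`).
`lal`: `T` from `qs_f` for `(8 E, b)`. Apply `lk` with `Dx x = st R (J ⊔ L) x`. `hD2`: `st_eq`. `hD3`: the
set is empty: let `e ∈ rgCj x J` and `g ∈ st R (rgCj x L) e`; by `st_mono` (`rgCj_le`) `g ∈ st R (rgCj x (J ⊔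
L)) e = st R (J ⊔ L) (e x) = st R (J ⊔ L) x` (`st_mul`, `st_left` with `e ∈ rgCj x J ≤ rgCj x (J ⊔ L)`). So
`Nat.card = 0`. `hD4` is the statement of `qs_f` for `J ⊔ L`.
`lab`: let `s = 8 * E * n` (`s ≤ 2 ^ s`), `b' = b + cz s + 1`, `Λ` from `dxc` for `(b', s)` (with `qs_qp`),
`b2 = Λ + 1`, `T = max (T of lal for (E, b2)) (max b2 b')`. If `¬ PS p G (l - b2) ≤ J ⊔ L` use `lal`.
Otherwise apply `lk` with `Dx x = Dc R (rgCj x (J ⊔ L)) (rgCj x J) (rgCj x M) (r ^ s)`. `hD1`, `hD2`: the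
generators are in `R` and in `rgCj x (J ⊔ L)`. `hD3`: `lc2` for `J_x = rgCj x J` and so on
(`nm_conj`, `rgCj_sup`, `card_rgCj`; `x⁻¹ ⁅a, b⁆ x = ⁅x⁻¹ a x, x⁻¹ b x⁆`) gives
`2 ^ s |{..}| ≤ |R| |J| ≤ n |J|`; with `8 E n ≤ 2 ^ s` and `n > 0` (`1 ≤ |R| ≤ n`) it follows
`8 E |{..}| ≤ |J|`. `hD4`: for all `x` one has `2 ^ j |Dx x| ≤ |R|`, so the set is empty: `dxc` with
`a0 = l - b2` (`Λ < l - a0 = b2`), `Z0 = rgCj x Z0`, `Y = rgCj x (J ⊔ L)`,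
`PS p G a0 = rgCj x (PS p G a0) ≤ Y`, and `C = rgCj x C` (`cc_conj`): the second alternative is
`PS p G (l - b' + cz s) ≤ rgCj x C`, where `l - b' + cz s = l - b - 1`, and as `PS p G (l - b - 1)` is
normal it is contained in `C` (`rgCj_le`, `rgCj_of_nm`): excluded by hypothesis. (`J` normalises `M`
and `L` normalises `M`, `J`; so `J ⊔ L` normalises `J` and `M`: `nm_left`.)
-/

namespace H78CY

open Subgroup H78TP
open scoped commutatorElement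

universe u

theorem lal (p n : ℕ) [Fact p.Prime] (m f : ℕ → ℕ) (j : ℕ) (hS : QS.{u} p n m f j)
    (E b : ℕ) (hE : 0 < E) : ∃ T : ℕ, ∀ (Γ : Type u) [Group Γ] [Finite Γ]
      (G R H : Subgroup Γ) (l : ℕ), FHyp p n m f l G R H → T < l →
      ∀ J L M C : Subgroup Γ, Nm L J → M ≤ J → J ⊓ L ≤ M → Nm J M → Nm L M →
      (∀ x ∈ J, ∀ y ∈ J, ⁅x, y⁆ ∈ M) → IsCc (J ⊔ L) J M C → ¬ PS p G (l - b) ≤ J ⊔ L →
      Many (8 * E) (gd R L (j + 1)) ∨ Few E (fun x => ¬ st R L x ≤ st R C x) := by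
  obtain ⟨T, hT⟩ := qs_f p n m f j hS (8 * E) b
  refine ⟨T, fun Γ _ _ G R H l h hl J L M C nLJ hM hJL nJM nLM hc hC hnb => ?_⟩
  refine lk R J L M C j E hE nLJ hM hJL nJM nLM hc hC (fun x => st R (J ⊔ L) x) ?_ ?_ ?_ ?_
  · intro x
    exact st_le _ _ _
  · intro x
    show st R (J ⊔ L) x ≤ rgCj x (J ⊔ L)
    rw [st_eq]
    exact inf_le_right
  · intro x
    have h0 : Nat.card {e : Γ // e ∈ rgCj x J ∧ ¬ st R (rgCj x L) e ≤ st R (J ⊔ L) x} = 0 := by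
      rw [Nat.card_eq_zero]
      left
      refine ⟨fun e => e.2.2 ?_⟩
      rw [← st_mul]
      have h1 := st_left (R := R) (L := J ⊔ L) (g := e.1) (x := x)
        ((rgCj_le x).2 le_sup_left e.2.1)
      exact (st_mono le_sup_right _).trans (le_of_eq h1)
    show 8 * E * Nat.card {e : Γ // e ∈ rgCj x J ∧ ¬ st R (rgCj x L) e ≤ st R (J ⊔ L) x} ≤
      Nat.card J
    rw [h0, mul_zero]
    exact Nat.zero_le _
  · exact hT Γ G R H l h hl (J ⊔ L) hnb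

theorem lab (p n : ℕ) [Fact p.Prime] (m f : ℕ → ℕ) (j : ℕ) (hS : QS.{u} p n m f j)
    (E b : ℕ) (hE : 0 < E) : ∃ T : ℕ, ∀ (Γ : Type u) [Group Γ] [Finite Γ]
      (G R H : Subgroup Γ) (l : ℕ), FHyp p n m f l G R H → T < l →
      ∀ (r : ℕ) (J L M Z0 C : Subgroup Γ), r.Prime → Nm L J → M ≤ J → J ⊓ L ≤ M → Nm J M →
      Nm L M → (∀ x ∈ J, ∀ y ∈ J, ⁅x, y⁆ ∈ M) → IsCc (J ⊔ L) J M C → M ≤ Z0 → Z0 ≤ J →
      Nm (J ⊔ L) Z0 → (∀ x ∈ J, x ^ r ∈ Z0) → (∀ g ∈ J ⊔ L, ∀ z ∈ Z0, ⁅g, z⁆ ∈ M) →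
      ¬ PS p G (l - b - 1) ≤ C →
      Many (8 * E) (gd R L (j + 1)) ∨ Few E (fun x => ¬ st R L x ≤ st R C x) := by
  obtain ⟨s, hs⟩ : ∃ s, s = 8 * E * n := ⟨_, rfl⟩
  obtain ⟨b', hb'⟩ : ∃ b', b' = b + cz s + 1 := ⟨_, rfl⟩
  obtain ⟨Λ, hΛ⟩ := dxc p n m f j (qs_qp p n m f j hS) b' s
  obtain ⟨T, hT⟩ := lal p n m f j hS E (Λ + 1) hE
  refine ⟨max T (max (Λ + 1) b'), fun Γ _ _ G R H l h hl r J L M Z0 C hr nLJ hM hJL nJM nLM hc hC
    hMZ hZJ nZ hpw hz hnb => ?_⟩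
  have hl1 : T < l := lt_of_le_of_lt (le_max_left _ _) hl
  have hl2 : Λ + 1 < l :=
    lt_of_le_of_lt ((le_max_left _ _).trans (le_max_right _ _)) hl
  have hl3 : b' < l :=
    lt_of_le_of_lt ((le_max_right _ _).trans (le_max_right _ _)) hl
  by_cases hcase : PS p G (l - (Λ + 1)) ≤ J ⊔ L
  swap
  · exact hT Γ G R H l h hl1 J L M C nLJ hM hJL nJM nLM hc hC hcase
  have nPS : ∀ (a : ℕ) (S : Subgroup Γ), Nm S (PS p G a) := fun a S =>
    PS_nm (nm_of_normal h.nG S) a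
  have nJLJ : Nm (J ⊔ L) J := nm_left (nm_self J) nLJ
  have nJLM : Nm (J ⊔ L) M := nm_left nJM nLM
  have hcj : ∀ x a c : Γ, x⁻¹ * ⁅a, c⁆ * x = ⁅x⁻¹ * a * x, x⁻¹ * c * x⁆ := by
    intro x a c
    rw [commutatorElement_def, commutatorElement_def]
    group
  have hcx : ∀ x : Γ, ∀ a ∈ rgCj x J, ∀ c ∈ rgCj x J, ⁅a, c⁆ ∈ rgCj x M := by
    intro x a ha c hc'
    rw [mem_rgCj] at ha hc' ⊢
    rw [hcj]
    exact hc _ ha _ hc'
  refine lk R J L M C j E hE nLJ hM hJL nJM nLM hc hC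
    (fun x => Dc R (rgCj x (J ⊔ L)) (rgCj x J) (rgCj x M) (r ^ s)) ?_ ?_ ?_ ?_
  · intro x
    refine (Subgroup.closure_le _).2 ?_
    rintro g ⟨hg, _, _⟩
    exact hg
  · intro x
    refine (Subgroup.closure_le _).2 ?_
    rintro g ⟨_, hg, _⟩
    exact hg
  · intro x
    have hinf : rgCj x J ⊓ rgCj x L ≤ rgCj x M := by
      rintro z ⟨hz1, hz2⟩
      have h1 := mem_rgCj.1 hz1
      have h2 := mem_rgCj.1 hz2
      exact mem_rgCj.2 (hJL ⟨h1, h2⟩)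
    have h2 := lc2 R (rgCj x J) (rgCj x L) (rgCj x M) (nm_conj x nLJ) ((rgCj_le x).2 hM) hinf
      (nm_conj x nJM) (nm_conj x nLM) (hcx x) r s hr.two_le
    rw [← rgCj_sup, card_rgCj] at h2
    have h3 : Nat.card R * Nat.card J ≤ n * Nat.card J := Nat.mul_le_mul_right _ h.lh.cR
    have h4 : s < 2 ^ s := Nat.lt_two_pow_self
    have h5 : 8 * E * n ≤ 2 ^ s := by
      rw [← hs]
      exact h4.le
    have hn : 0 < n := lt_of_lt_of_le Nat.card_pos h.lh.cR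
    obtain ⟨N, hN⟩ : ∃ N, N = Nat.card {e : Γ // e ∈ rgCj x J ∧
      ¬ st R (rgCj x L) e ≤ Dc R (rgCj x (J ⊔ L)) (rgCj x J) (rgCj x M) (r ^ s)} := ⟨_, rfl⟩
    rw [← hN] at h2
    show 8 * E * Nat.card {e : Γ // e ∈ rgCj x J ∧
      ¬ st R (rgCj x L) e ≤ Dc R (rgCj x (J ⊔ L)) (rgCj x J) (rgCj x M) (r ^ s)} ≤ Nat.card J
    rw [← hN]
    refine Nat.le_of_mul_le_mul_left ?_ hn
    calc n * (8 * E * N) = (8 * E * n) * N := by ring
      _ ≤ 2 ^ s * N := Nat.mul_le_mul_right _ h5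
      _ ≤ n * Nat.card J := h2.trans h3
  · have h0 : Nat.card {x : Γ // ¬ 2 ^ j *
        Nat.card (Dc R (rgCj x (J ⊔ L)) (rgCj x J) (rgCj x M) (r ^ s)) ≤ Nat.card R} = 0 := by
      rw [Nat.card_eq_zero]
      left
      refine ⟨fun x => x.2 ?_⟩
      obtain ⟨x, hx⟩ := x
      have hPx : ∀ a : ℕ, rgCj x (PS p G a) = PS p G a := fun a =>
        rgCj_of_nm (nPS a ⊤) (Subgroup.mem_top x)
      have key := hΛ Γ G R H l h.lh (l - (Λ + 1)) (by omega) r (rgCj x J) (rgCj x M) (rgCj x Z0)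
        (rgCj x (J ⊔ L)) hr (by
          rw [← hPx]
          exact (rgCj_le x).2 hcase) (nm_conj x nJLJ) (nm_conj x nJLM) (nm_conj x nZ)
        ((rgCj_le x).2 hMZ) ((rgCj_le x).2 hZJ) (nm_conj x nJM) (hcx x) (by
          intro y hy
          rw [mem_rgCj] at hy ⊢
          have e : x⁻¹ * y ^ r * x = (x⁻¹ * y * x) ^ r := by
            have e1 := conj_pow (i := r) (a := x⁻¹) (b := y)
            rw [inv_inv] at e1
            exact e1.symm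
          rw [e]
          exact hpw _ hy) (by
          intro g hg z hz'
          rw [mem_rgCj] at hg hz' ⊢
          rw [hcj]
          exact hz _ hg _ hz') (rgCj x C) (cc_conj x hC)
      rcases key with h5 | h5
      · exact h5
      · exfalso
        apply hnb
        have e : l - b' + cz s = l - b - 1 := by omega
        rw [e, ← hPx, rgCj_le] at h5
        exact h5
    unfold Few
    show 8 * E * Nat.card {x : Γ // ¬ 2 ^ j *
        Nat.card (Dc R (rgCj x (J ⊔ L)) (rgCj x J) (rgCj x M) (r ^ s)) ≤ Nat.card R} ≤ Nat.card Γ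
    rw [h0, mul_zero]
    exact Nat.zero_le _

end H78CY
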