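import Pool.Agent.H78.CY.Ka
import Pool.Agent.H78.CY.Def2

/-!
[H78 CY SM] THE SECOND MOMENT LEMMA (60 min).

PROOF. Let `X# = {e ∈ E | g ∈ sW σ (k (σ e w))}` (i.e. `σ g (σ e w)` is a multiple of `σ e w`) and
`X = {e ∈ E | σ g (σ e w) = σ e w}`; `X ⊆ X#`. If `X#` is empty the first alternative holds. Otherwise let
`e₀ ∈ X#`, `w₁ = σ e₀ w`; `e ∈ X# ↔ e e₀⁻¹ ∈ X#(w₁)` and the same for `X`, so we may assume `e₀ = 1`:
`σ g w = c • w`. Let `I = {e ∈ E | σ e w ∈ k w}` and `y_e = e⁻¹ g e g⁻¹ ∈ E`. `g e = e y_e g`... precisely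
`σ g (σ e w) = σ e (σ y_e (σ g w)) = c • σ e (σ y_e w)`. So `e ∈ X# ↔ y_e ∈ I`; if `σ y_e w = ψ(e) • w` then
`e ∈ X ↔ c * ψ(e) = 1`.
`y_{ef} = ⁅f⁻¹, y_e⁆ y_e y_f` (`= (ef)⁻¹ g (ef) g⁻¹`), and `⁅f⁻¹, y_e⁆ ∈ D` is a scalar `β(f⁻¹, y_e)` (`kform`). So
for `e, f ∈ X#`: `ef ∈ X#` and `ψ(ef) = β(f⁻¹, y_e) ψ(e) ψ(f)`; as the group is finite `X#` is a subgroup
`E_g` of `E`, and it contains `D` (`y_d ∈ D ≤ I` as `g` normalises `D`).
Suppose `4 |X| > 3 |E_g|`. Let `f ∈ E_g`. For more than half of the `e ∈ E_g` both `e` and `ef` are in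
`X`; for these `c⁻¹ = ψ(ef) = β(f⁻¹, y_e) c⁻¹ ψ(f)`, so `β(f⁻¹, y_e) = ψ(f)⁻¹`. `e ↦ β(f⁻¹, y_e)` is a
homomorphism `E_g → kˣ` (`y_{ef} ≡ y_e y_f mod D`), and it is constant on more than half of `E_g`; so it is
trivial (otherwise all fibres have at most `|E_g| / 2` elements). Hence `β(f, y_e) = 1` for all
`e, f ∈ E_g`. Let `B = {y ∈ E | ∀ f ∈ E_g, σ ⁅y, f⁆ = 1}`, a subgroup containing `D` and all `y_e`, `e ∈ E_g`.
`perp` with `A = E_g`: `D.relIndex B ≤ E_g.relIndex E`. The map `e ↦ y_e` from `E_g` to `B / D` is a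
homomorphism with kernel `C = {e ∈ E | ⁅g, e⁆ ∈ D}` (`C ≤ E_g`; `y_e ∈ D ↔ ⁅g, e⁆ ∈ D` because
`⁅g, e⁆ = e y_e e⁻¹`), so `C.relIndex E_g ≤ D.relIndex B ≤ E_g.relIndex E`, i.e. `|E_g|² ≤ |E| |C|`.
`¬ smal` says `r ^ (64 n²) < C.relIndex E = |E| / |C|`, and `64 n² ≤ 2 ^ (64 n²) ≤ r ^ (64 n²)`; so
`64 n² |E_g|² ≤ 64 n² |C| |E| ≤ |E|²`, `8 n |E_g| ≤ |E|`.
-/

namespace H78CY

open Subgroup H78TP
open scoped commutatorElement

variable {k Γ U : Type*} [Field k] [Group Γ] [AddCommGroup U] [Module k U]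


theorem sm_mem_sW {σ : Representation k Γ U} {g : Γ} {v : U} (hv : v ≠ 0) :
    g ∈ sW σ (Submodule.span k {v}) ↔ ∃ c : k, σ g v = c • v := by
  constructor
  · intro h
    have h1 := (h v).2 (Submodule.mem_span_singleton_self v)
    obtain ⟨c, hc⟩ := Submodule.mem_span_singleton.1 h1
    exact ⟨c, hc.symm⟩
  · rintro ⟨c, hc⟩
    have hinj : ∀ u, σ g u = 0 → u = 0 := by
      intro u hu
      have h1 : σ g⁻¹ (σ g u) = u := by
        rw [← Module.End.mul_apply, ← map_mul, inv_mul_cancel, map_one, Module.End.one_apply]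
      rw [← h1, hu, map_zero]
    have hc0 : c ≠ 0 := by
      rintro rfl
      rw [zero_smul] at hc
      exact hv (hinj v hc)
    intro u
    constructor
    · intro hu
      obtain ⟨b, hb⟩ := Submodule.mem_span_singleton.1 hu
      have h1 : σ g (u - (b * c⁻¹) • v) = 0 := by
        rw [map_sub, map_smul, hc, ← hb, smul_smul, mul_assoc, inv_mul_cancel₀ hc0, mul_one,
          sub_self]
      have h2 := hinj _ h1
      rw [sub_eq_zero] at h2
      rw [h2]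
      exact Submodule.smul_mem _ _ (Submodule.mem_span_singleton_self v)
    · intro hu
      obtain ⟨b, hb⟩ := Submodule.mem_span_singleton.1 hu
      rw [← hb, map_smul, hc, smul_smul]
      exact Submodule.smul_mem _ _ (Submodule.mem_span_singleton_self v)

theorem sm_ne {σ : Representation k Γ U} {w : U} (hw : w ≠ 0) (e : Γ) : σ e w ≠ 0 := by
  intro h
  apply hw
  have h1 : σ e⁻¹ (σ e w) = w := by
    rw [← Module.End.mul_apply, ← map_mul, inv_mul_cancel, map_one, Module.End.one_apply]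
  rw [← h1, h, map_zero]

theorem sm_union [Finite Γ] (S : Subgroup Γ) (X : Γ → Prop) (hX : ∀ e, X e → e ∈ S)
    (h : ¬ 4 * Nat.card {e : Γ // X e} ≤ 3 * Nat.card S) (a f : Γ) (ha : a ∈ S) (hf : f ∈ S) :
    ∃ e ∈ S, X e ∧ X (e * f) ∧ X (e * a) ∧ X (e * a * f) := by
  classical
  haveI := Fintype.ofFinite Γ
  by_contra hno
  push Not at hno
  apply h
  have h1 : Nat.card {e : Γ // X e} = (Finset.univ.filter X).card := by
    rw [Nat.card_eq_fintype_card, Fintype.card_subtype]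
  have h2 : Nat.card S = (Finset.univ.filter (fun e : Γ => e ∈ S)).card := by
    rw [Nat.card_eq_fintype_card, ← Fintype.card_subtype]
  rw [h1, h2]
  set Xf := Finset.univ.filter X with hXf
  set Sf := Finset.univ.filter (fun e : Γ => e ∈ S) with hSf
  have hsub : Xf ⊆ Sf := by
    intro e he
    rw [hXf, Finset.mem_filter] at he
    rw [hSf, Finset.mem_filter]
    exact ⟨Finset.mem_univ _, hX e he.2⟩
  have hbad : ∀ u ∈ S, (Sf.filter (fun e => ¬ X (e * u))).card ≤ (Sf \ Xf).card := by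
    intro u hu
    apply Finset.card_le_card_of_injOn (fun e => e * u)
    · intro e he
      rw [Finset.mem_coe, Finset.mem_filter, hSf, Finset.mem_filter] at he
      rw [Finset.mem_coe, Finset.mem_sdiff, hSf, Finset.mem_filter, hXf, Finset.mem_filter]
      exact ⟨⟨Finset.mem_univ _, S.mul_mem he.1.2 hu⟩, fun h => he.2 h.2⟩
    · intro e _ e' _ hee
      exact mul_right_cancel hee
  have hcov : Sf ⊆ (Sf.filter (fun e => ¬ X (e * 1)) ∪ Sf.filter (fun e => ¬ X (e * f))) ∪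
      (Sf.filter (fun e => ¬ X (e * a)) ∪ Sf.filter (fun e => ¬ X (e * (a * f)))) := by
    intro e he
    have heS : e ∈ S := by
      rw [hSf, Finset.mem_filter] at he
      exact he.2
    simp only [Finset.mem_union, Finset.mem_filter, he, true_and, mul_one]
    by_contra hcon
    push Not at hcon
    obtain ⟨⟨c1, c2⟩, c3, c4⟩ := hcon
    rw [← mul_assoc] at c4
    exact hno e heS c1 c2 c3 c4
  have hc1 := Finset.card_le_card hcov
  have hc2 := Finset.card_union_le (Sf.filter (fun e => ¬ X (e * 1)) ∪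
    Sf.filter (fun e => ¬ X (e * f))) (Sf.filter (fun e => ¬ X (e * a)) ∪
      Sf.filter (fun e => ¬ X (e * (a * f))))
  have hc3 := Finset.card_union_le (Sf.filter (fun e => ¬ X (e * 1)))
    (Sf.filter (fun e => ¬ X (e * f)))
  have hc4 := Finset.card_union_le (Sf.filter (fun e => ¬ X (e * a)))
    (Sf.filter (fun e => ¬ X (e * (a * f))))
  have b1 := hbad 1 S.one_mem
  have b2 := hbad f hf
  have b3 := hbad a ha
  have b4 := hbad (a * f) (S.mul_mem ha hf)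
  have hd := Finset.card_sdiff_add_card_eq_card hsub
  omega

theorem sm1 [Finite Γ] {r : ℕ} {σ : Representation k Γ U} {E D : Subgroup Γ}
    (h : KHyp r σ E D) (g : Γ) (n : ℕ) (hg : ¬ smal D E g (r ^ (64 * n ^ 2))) (w : U)
    (hw : w ≠ 0) (c : k) (hc : σ g w = c • w) :
    8 * n * Nat.card {e : Γ // e ∈ E ∧ g ∈ sW σ (Submodule.span k {σ e w})} ≤ Nat.card E ∨
    4 * Nat.card {e : Γ // e ∈ E ∧ g ∈ rgSt σ (σ e w)} ≤
      3 * Nat.card {e : Γ // e ∈ E ∧ g ∈ sW σ (Submodule.span k {σ e w})} := by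
  classical
  haveI : Nontrivial U := ⟨⟨w, 0, hw⟩⟩
  obtain ⟨β, b1, b2, b3, b4, b5, b6, b7⟩ := kform h
  have hc0 : c ≠ 0 := by
    rintro rfl
    rw [zero_smul] at hc
    exact sm_ne hw g hc
  have hy : ∀ e ∈ E, e⁻¹ * g * e * g⁻¹ ∈ E := by
    intro e he
    have h1 := E.mul_mem (E.inv_mem he) (h.nE.conj_mem e he g)
    have h2 : e⁻¹ * g * e * g⁻¹ = e⁻¹ * (g * e * g⁻¹) := by group
    rw [h2]
    exact h1
  have hkey : ∀ e, σ g (σ e w) = c • σ e (σ (e⁻¹ * g * e * g⁻¹) w) := by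
    intro e
    rw [← Module.End.mul_apply, ← map_mul]
    have h1 : g * e = e * ((e⁻¹ * g * e * g⁻¹) * g) := by group
    rw [h1, map_mul, Module.End.mul_apply, map_mul, Module.End.mul_apply, hc, map_smul, map_smul]
  have hun : ∀ s t : k, s • w = t • w → s = t := fun s t hst => smul_left_injective k hw hst
  have hcancel : ∀ (e : Γ) (u v : U), σ e u = σ e v → u = v := by
    intro e u v huv
    have h1 : ∀ z, σ e⁻¹ (σ e z) = z := fun z => by
      rw [← Module.End.mul_apply, ← map_mul, inv_mul_cancel, map_one, Module.End.one_apply]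
    rw [← h1 u, huv, h1]
  -- the product rule
  have hprod : ∀ e f, e ∈ E → f ∈ E → ∀ s t : k, σ (e⁻¹ * g * e * g⁻¹) w = s • w →
      σ (f⁻¹ * g * f * g⁻¹) w = t • w →
      σ ((e * f)⁻¹ * g * (e * f) * g⁻¹) w = (β f⁻¹ (e⁻¹ * g * e * g⁻¹) * (s * t)) • w := by
    intro e f he hf s t hs ht
    have h1 : (e * f)⁻¹ * g * (e * f) * g⁻¹ =
        ⁅f⁻¹, e⁻¹ * g * e * g⁻¹⁆ * ((e⁻¹ * g * e * g⁻¹) * (f⁻¹ * g * f * g⁻¹)) := by
      rw [commutatorElement_def]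
      group
    rw [h1, map_mul, Module.End.mul_apply, b1 _ (E.inv_mem hf) _ (hy e he), map_mul,
      Module.End.mul_apply, ht, map_smul, hs, smul_smul, smul_smul]
    congr 1
    ring
  have hprodD : ∀ e f, e ∈ E → f ∈ E → ∃ d ∈ D, (e * f)⁻¹ * g * (e * f) * g⁻¹ =
      d * ((e⁻¹ * g * e * g⁻¹) * (f⁻¹ * g * f * g⁻¹)) := by
    intro e f he hf
    refine ⟨⁅f⁻¹, e⁻¹ * g * e * g⁻¹⁆, h.com _ (E.inv_mem hf) _ (hy e he), ?_⟩
    rw [commutatorElement_def]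
    group
  -- the subgroup `E_g`
  let Eg : Subgroup Γ :=
    { carrier := {e | e ∈ E ∧ ∃ s : k, σ (e⁻¹ * g * e * g⁻¹) w = s • w}
      one_mem' := ⟨E.one_mem, 1, by
        have h1 : (1 : Γ)⁻¹ * g * 1 * g⁻¹ = 1 := by group
        rw [h1, map_one, Module.End.one_apply, one_smul]⟩
      mul_mem' := by
        rintro e f ⟨he, s, hs⟩ ⟨hf, t, ht⟩
        exact ⟨E.mul_mem he hf, _, hprod e f he hf s t hs ht⟩
      inv_mem' := by
        rintro e ⟨he, s, hs⟩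
        refine ⟨E.inv_mem he, β e (e⁻¹ * g * e * g⁻¹)⁻¹ * s⁻¹, ?_⟩
        have hs0 : s ≠ 0 := by
          rintro rfl
          rw [zero_smul] at hs
          exact sm_ne hw _ hs
        have h1 : e⁻¹⁻¹ * g * e⁻¹ * g⁻¹ = ⁅e, (e⁻¹ * g * e * g⁻¹)⁻¹⁆ * (e⁻¹ * g * e * g⁻¹)⁻¹ := by
          rw [commutatorElement_def]
          group
        have h2 : σ (e⁻¹ * g * e * g⁻¹)⁻¹ w = s⁻¹ • w := by
          apply hcancel (e⁻¹ * g * e * g⁻¹)
          rw [← Module.End.mul_apply, ← map_mul, mul_inv_cancel, map_one, Module.End.one_apply,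
            map_smul, hs, smul_smul, inv_mul_cancel₀ hs0, one_smul]
        rw [h1, map_mul, Module.End.mul_apply, b1 _ he _ (E.inv_mem (hy e he)), h2, smul_smul] }
  have hEg : ∀ e, e ∈ Eg ↔ e ∈ E ∧ ∃ s : k, σ (e⁻¹ * g * e * g⁻¹) w = s • w := fun e => Iff.rfl
  have hsharp : ∀ e, (e ∈ E ∧ g ∈ sW σ (Submodule.span k {σ e w})) ↔ e ∈ Eg := by
    intro e
    rw [hEg, sm_mem_sW (sm_ne hw e)]
    refine and_congr_right fun he => ⟨?_, ?_⟩
    · rintro ⟨b, hb⟩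
      refine ⟨c⁻¹ * b, ?_⟩
      rw [hkey] at hb
      apply hcancel e
      rw [map_smul, mul_smul, ← hb, smul_smul, inv_mul_cancel₀ hc0, one_smul]
    · rintro ⟨s, hs⟩
      refine ⟨c * s, ?_⟩
      rw [hkey, hs, map_smul, smul_smul]
  have hX : ∀ e, (e ∈ E ∧ g ∈ rgSt σ (σ e w)) ↔
      (e ∈ E ∧ σ (e⁻¹ * g * e * g⁻¹) w = c⁻¹ • w) := by
    intro e
    refine and_congr_right fun he => ?_
    have h1 : g ∈ rgSt σ (σ e w) ↔ σ g (σ e w) = σ e w := Iff.rfl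
    rw [h1, hkey]
    constructor
    · intro h2
      apply hcancel e
      rw [map_smul, ← h2, smul_smul, inv_mul_cancel₀ hc0, one_smul]
    · intro h2
      rw [h2, map_smul, smul_smul, mul_inv_cancel₀ hc0, one_smul]
  have hcS : Nat.card {e : Γ // e ∈ E ∧ g ∈ sW σ (Submodule.span k {σ e w})} = Nat.card Eg :=
    Nat.card_congr (Equiv.subtypeEquivRight hsharp)
  have hcX : Nat.card {e : Γ // e ∈ E ∧ g ∈ rgSt σ (σ e w)} =
      Nat.card {e : Γ // e ∈ E ∧ σ (e⁻¹ * g * e * g⁻¹) w = c⁻¹ • w} :=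
    Nat.card_congr (Equiv.subtypeEquivRight hX)
  rw [hcS, hcX]
  by_contra hcon
  push Not at hcon
  obtain ⟨hcon1, hcon2⟩ := hcon
  apply absurd hcon1
  rw [not_lt]
  -- `β (f⁻¹, y_a) = 1`
  have hone : ∀ a ∈ Eg, ∀ f ∈ Eg, β f (a⁻¹ * g * a * g⁻¹) = 1 := by
    intro a ha f' hf'
    obtain ⟨f, rfl⟩ : ∃ f, f' = f⁻¹ := ⟨f'⁻¹, (inv_inv _).symm⟩
    have hf : f ∈ Eg := by
      have := Eg.inv_mem hf'
      rwa [inv_inv] at this
    obtain ⟨e, heS, e1, e2, e3, e4⟩ := sm_union Eg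
      (fun e => e ∈ E ∧ σ (e⁻¹ * g * e * g⁻¹) w = c⁻¹ • w) (fun e he => ⟨he.1, _, he.2⟩)
      (not_le.2 hcon2) a f ha hf
    obtain ⟨hfE, t, ht⟩ := hf
    have haE : a ∈ E := ha.1
    have p1 := hprod e f e1.1 hfE _ t e1.2 ht
    rw [e2.2] at p1
    have p2 := hprod (e * a) f e3.1 hfE _ t e3.2 ht
    rw [e4.2] at p2
    have q1 := hun _ _ p1
    have q2 := hun _ _ p2
    have q3 : β f⁻¹ (e⁻¹ * g * e * g⁻¹) = β f⁻¹ ((e * a)⁻¹ * g * (e * a) * g⁻¹) := by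
      have hct : c⁻¹ * t ≠ 0 := by
        intro h0
        rw [h0, mul_zero] at q1
        exact inv_ne_zero hc0 q1
      apply mul_right_cancel₀ hct
      rw [← q1, ← q2]
    obtain ⟨d, hd, hdd⟩ := hprodD e a e1.1 haE
    have hfi := E.inv_mem hfE
    rw [hdd, b3 _ hfi _ (h.DE hd) _ (E.mul_mem (hy e e1.1) (hy a haE)), (b5 d hd _ hfi).2, one_mul,
      b3 _ hfi _ (hy e e1.1) _ (hy a haE)] at q3
    have hne := (b4 f⁻¹ hfi _ (hy e e1.1)).2.1
    exact (mul_left_cancel₀ hne (by rw [mul_one]; exact q3)).symm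
  -- the subgroup `B`
  let B : Subgroup Γ :=
    { carrier := {y | y ∈ E ∧ ∀ f ∈ Eg, β y f = 1}
      one_mem' := ⟨E.one_mem, fun f hf => (b5 1 D.one_mem f hf.1).1⟩
      mul_mem' := by
        rintro a b ⟨ha, ha'⟩ ⟨hb, hb'⟩
        exact ⟨E.mul_mem ha hb, fun f hf => by rw [b2 a ha b hb f hf.1, ha' f hf, hb' f hf,
          mul_one]⟩
      inv_mem' := by
        rintro a ⟨ha, ha'⟩
        refine ⟨E.inv_mem ha, fun f hf => ?_⟩
        have h1 := b2 a ha a⁻¹ (E.inv_mem ha) f hf.1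
        rw [mul_inv_cancel, (b5 1 D.one_mem f hf.1).1, ha' f hf, one_mul] at h1
        exact h1.symm }
  have hDEg : D ≤ Eg := by
    intro d hd
    refine ⟨h.DE hd, ?_⟩
    have h1 : d⁻¹ * g * d * g⁻¹ ∈ D := by
      have h2 := D.mul_mem (D.inv_mem hd) (h.nD.conj_mem d hd g)
      have h3 : d⁻¹ * g * d * g⁻¹ = d⁻¹ * (g * d * g⁻¹) := by group
      rw [h3]
      exact h2
    obtain ⟨s, hs⟩ := h.sc _ h1
    exact ⟨s, hs w⟩
  have hEgE : Eg ≤ E := fun e he => he.1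
  have hDB : D ≤ B := fun d hd => ⟨h.DE hd, fun f hf => (b5 d hd f hf.1).1⟩
  have hyB : ∀ e ∈ Eg, e⁻¹ * g * e * g⁻¹ ∈ B := by
    intro e he
    refine ⟨hy e he.1, fun f hf => ?_⟩
    rw [(b4 f hf.1 _ (hy e he.1)).1, hone e he f hf, inv_one]
  have hperp := perp h Eg B hDEg hEgE hDB (fun y hyB' => ⟨hyB'.1, fun f hf => by
    refine LinearMap.ext fun v => ?_
    rw [b1 y hyB'.1 f hf.1, hyB'.2 f hf, one_smul, Module.End.one_apply]⟩)
  -- the subgroup `C`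
  let C : Subgroup Γ :=
    { carrier := {x | x ∈ E ∧ ⁅g, x⁆ ∈ D}
      one_mem' := ⟨E.one_mem, by
        rw [commutatorElement_one_right]
        exact D.one_mem⟩
      mul_mem' := by
        rintro a b ⟨ha, ha'⟩ ⟨hb, hb'⟩
        refine ⟨E.mul_mem ha hb, ?_⟩
        have h1 : ⁅g, a * b⁆ = ⁅g, a⁆ * (a * ⁅g, b⁆ * a⁻¹) := by
          simp only [commutatorElement_def]
          group
        rw [h1]
        exact D.mul_mem ha' (h.nD.conj_mem _ hb' a)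
      inv_mem' := by
        rintro a ⟨ha, ha'⟩
        refine ⟨E.inv_mem ha, ?_⟩
        have h1 : ⁅g, a⁻¹⁆ = a⁻¹ * ⁅g, a⁆⁻¹ * a⁻¹⁻¹ := by
          simp only [commutatorElement_def]
          group
        rw [h1]
        exact h.nD.conj_mem _ (D.inv_mem ha') a⁻¹ }
  have hyD : ∀ x, x⁻¹ * g * x * g⁻¹ ∈ D ↔ ⁅g, x⁆ ∈ D := by
    intro x
    have h1 : ⁅g, x⁆ = x * (x⁻¹ * g * x * g⁻¹) * x⁻¹ := by
      rw [commutatorElement_def]
      group
    rw [h1]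
    constructor
    · intro h2
      exact h.nD.conj_mem _ h2 x
    · intro h2
      have h3 := h.nD.conj_mem _ h2 x⁻¹
      have h4 : x⁻¹ * (x * (x⁻¹ * g * x * g⁻¹) * x⁻¹) * x⁻¹⁻¹ = x⁻¹ * g * x * g⁻¹ := by group
      rwa [h4] at h3
  have hCEg : C ≤ Eg := by
    rintro x ⟨hx, hx'⟩
    obtain ⟨s, hs⟩ := h.sc _ ((hyD x).2 hx')
    exact ⟨hx, s, hs w⟩
  have hrel : C.relIndex Eg ≤ D.relIndex B := by
    have hmap : ∀ a b : Eg, (a : Γ)⁻¹ * b ∈ C ↔
        ((a : Γ)⁻¹ * g * a * g⁻¹)⁻¹ * ((b : Γ)⁻¹ * g * b * g⁻¹) ∈ D := by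
      rintro ⟨a, ha⟩ ⟨b, hb⟩
      obtain ⟨x, rfl⟩ : ∃ x, b = a * x := ⟨a⁻¹ * b, by group⟩
      have hx : x ∈ Eg := by
        have := Eg.mul_mem (Eg.inv_mem ha) hb
        rwa [inv_mul_cancel_left] at this
      obtain ⟨d, hd, hdd⟩ := hprodD a x ha.1 hx.1
      change a⁻¹ * (a * x) ∈ C ↔ (a⁻¹ * g * a * g⁻¹)⁻¹ * ((a * x)⁻¹ * g * (a * x) * g⁻¹) ∈ D
      rw [inv_mul_cancel_left, hdd]
      have h1 : x ∈ C ↔ x⁻¹ * g * x * g⁻¹ ∈ D := by
        rw [hyD]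
        exact ⟨fun h2 => h2.2, fun h2 => ⟨hx.1, h2⟩⟩
      rw [h1]
      have h2 : (a⁻¹ * g * a * g⁻¹)⁻¹ * (d * ((a⁻¹ * g * a * g⁻¹) * (x⁻¹ * g * x * g⁻¹))) =
          ((a⁻¹ * g * a * g⁻¹)⁻¹ * d * (a⁻¹ * g * a * g⁻¹)⁻¹⁻¹) * (x⁻¹ * g * x * g⁻¹) := by
        group
      rw [h2, D.mul_mem_cancel_left (h.nD.conj_mem _ hd _)]
    let F : (Eg ⧸ C.subgroupOf Eg) → (B ⧸ D.subgroupOf B) :=
      Quotient.map' (fun e : Eg => (⟨(e : Γ)⁻¹ * g * e * g⁻¹, hyB e e.2⟩ : B)) (by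
        intro a b hab
        rw [QuotientGroup.leftRel_apply] at hab ⊢
        rw [Subgroup.mem_subgroupOf] at hab ⊢
        exact (hmap a b).1 hab)
    have hF : Function.Injective F := by
      intro x y
      induction x using Quotient.inductionOn' with
      | h a =>
        induction y using Quotient.inductionOn' with
        | h b =>
          intro hab
          have h1 := Quotient.exact' hab
          rw [QuotientGroup.leftRel_apply, Subgroup.mem_subgroupOf] at h1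
          apply Quotient.sound'
          rw [QuotientGroup.leftRel_apply, Subgroup.mem_subgroupOf]
          exact (hmap a b).2 h1
    exact Nat.card_le_card_of_injective F hF
  have hmul : C.relIndex Eg * Eg.relIndex E = C.relIndex E := Subgroup.relIndex_mul_relIndex _ _ _ hCEg hEgE
  have hbig : r ^ (64 * n ^ 2) < C.relIndex E := by
    by_contra h1
    exact hg ⟨C, fun x => Iff.rfl, not_lt.1 h1⟩
  have hm : C.relIndex E ≤ Eg.relIndex E ^ 2 := by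
    rw [← hmul, pow_two]
    exact Nat.mul_le_mul_right _ (hrel.trans hperp)
  have hr2 : 64 * n ^ 2 < r ^ (64 * n ^ 2) := by
    calc 64 * n ^ 2 < 2 ^ (64 * n ^ 2) := Nat.lt_two_pow_self
      _ ≤ r ^ (64 * n ^ 2) := Nat.pow_le_pow_left h.hr.two_le _
  have h8 : 8 * n ≤ Eg.relIndex E := by
    have h1 : (8 * n) ^ 2 < Eg.relIndex E ^ 2 := by
      have : (8 * n) ^ 2 = 64 * n ^ 2 := by ring
      omega
    exact (lt_of_pow_lt_pow_left₀ 2 (Nat.zero_le _) h1).le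
  have hcard : Eg.relIndex E * Nat.card Eg = Nat.card E := by
    have h1 := Subgroup.card_mul_index (Eg.subgroupOf E)
    rw [Nat.card_congr (Subgroup.subgroupOfEquivOfLe hEgE).toEquiv] at h1
    rw [mul_comm]
    exact h1
  rw [← hcard]
  exact Nat.mul_le_mul_right _ h8

theorem sm [Finite Γ] {r : ℕ} {σ : Representation k Γ U} {E D : Subgroup Γ}
    (h : KHyp r σ E D) (g : Γ) (n : ℕ) (hg : ¬ smal D E g (r ^ (64 * n ^ 2))) (w : U)
    (hw : w ≠ 0) :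
    8 * n * Nat.card {e : Γ // e ∈ E ∧ g ∈ sW σ (Submodule.span k {σ e w})} ≤ Nat.card E ∨
    4 * Nat.card {e : Γ // e ∈ E ∧ g ∈ rgSt σ (σ e w)} ≤
      3 * Nat.card {e : Γ // e ∈ E ∧ g ∈ sW σ (Submodule.span k {σ e w})} := by
  by_cases hex : ∃ e₀ ∈ E, g ∈ sW σ (Submodule.span k {σ e₀ w})
  · obtain ⟨e₀, he₀, hg₀⟩ := hex
    obtain ⟨c, hc⟩ := (sm_mem_sW (sm_ne hw e₀)).1 hg₀
    have h1 := sm1 h g n hg (σ e₀ w) (sm_ne hw e₀) c hc
    have hmem : ∀ e : Γ, e ∈ E ↔ e * e₀ ∈ E := fun e => (E.mul_mem_cancel_right he₀).symm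
    have hact : ∀ e : Γ, σ e (σ e₀ w) = σ (e * e₀) w := fun e => by
      rw [map_mul, Module.End.mul_apply]
    have c1 : Nat.card {e : Γ // e ∈ E ∧ g ∈ sW σ (Submodule.span k {σ e (σ e₀ w)})} =
        Nat.card {e : Γ // e ∈ E ∧ g ∈ sW σ (Submodule.span k {σ e w})} :=
      Nat.card_congr ((Equiv.mulRight e₀).subtypeEquiv fun e => by
        rw [Equiv.coe_mulRight, hact, hmem e])
    have c2 : Nat.card {e : Γ // e ∈ E ∧ g ∈ rgSt σ (σ e (σ e₀ w))} =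
        Nat.card {e : Γ // e ∈ E ∧ g ∈ rgSt σ (σ e w)} :=
      Nat.card_congr ((Equiv.mulRight e₀).subtypeEquiv fun e => by
        rw [Equiv.coe_mulRight, hact, hmem e])
    rw [c1, c2] at h1
    exact h1
  · left
    haveI : IsEmpty {e : Γ // e ∈ E ∧ g ∈ sW σ (Submodule.span k {σ e w})} :=
      ⟨fun e => hex ⟨e.1, e.2.1, e.2.2⟩⟩
    rw [Nat.card_of_isEmpty, mul_zero]
    exact Nat.zero_le _

end H78CY
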