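import Pool.Agent.H78.CY.Cc
import Pool.Agent.H78.CY.F2
import Pool.Agent.H78.CY.Sm

/-!
[H78 CY LOC] THE LOCAL LEMMA of step F, case II (60 min).

PROOF. Write `D_a = Dc K ⊤ E D (r ^ dd n a)` (`= closure {g ∈ K | smal D E g (r ^ dd n a)}`), `D_a ≤ K`; by
monotonicity of `dd n` and of `smal` in the bound, `D_a ≤ D_{a+1}`. Since `|K| ≤ n` there is `a < n` with
`D_a = D_{a+1}`: otherwise the orders of `D_0 < D_1 < ... < D_n` would be strictly increasing,
`|D_n| ≥ n + 1`. (`n ≥ 1`.) Let `DK = D_a`, `d = dd n a`. `DK ≤ K`; `K` normalises `DK` (`smal_conj` with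
`Y = ⊤`: `E`, `D` are normal). The generators of `D_a` are in `DK`, so `closure {g ∈ DK | smal D E g (r ^ d)} =
DK`. If `g ∈ K`, `g ∉ DK` then `g ∉ D_{a+1}`, so `¬ smal D E g (r ^ (2 n d + 2 n + 64 n²))` (this exponent is
`dd n (a+1)`), and a fortiori `¬ smal D E g (r ^ (64 n²))`. `r ^ (2 n d + 2 n + 16 n² m²) ≤ r ^ dQ n m <
D.relIndex E` (`dd n a ≤ dd n n`). So `f2` gives: (F2) a vector fixed by `DK` is `0`.
For `e ∈ E` let `K#_e = K ⊓ sW σ (span {σ e w})`, `Kb_e = K ⊓ rgSt σ (σ e w) ≤ K#_e`, `σ e w ≠ 0`;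
`B0 = {e ∈ E | 2 ^ (j+1) |Kb_e| ≤ N}`, `Bad = {e ∈ E | ¬ 2 ^ j |K#_e| ≤ N}`. Suppose the claim fails:
`64 n |B0| < |E|`; also `128 n |Bad| ≤ |E|`.
(1) If `e ∈ E` is not in `B0` and not in `Bad` then `Kb_e = K#_e`: otherwise `2 |Kb_e| ≤ |K#_e|` and
`2 ^ (j+1) |Kb_e| ≤ N`.
(2) Let `g ∈ K`, `g ∉ DK`, `p_g = |{e ∈ E | g ∈ K#_e}|`, `q_g = |{e ∈ E | g ∈ Kb_e}|`. Then
`8 n p_g ≤ |E|`: by `sm` otherwise `4 q_g ≤ 3 p_g` and `p_g - q_g ≥ p_g / 4`, `32 n (p_g - q_g) > |E|`; but the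
`e` with `g ∈ K#_e`, `g ∉ Kb_e` are in `B0 ∪ Bad` by (1), and `128 n (|B0| + |Bad|) < 3 |E|`: contradiction.
(3) The number of `e ∈ E` with `¬ K#_e ≤ DK` is at most `∑ g ∈ K \ DK, p_g ≤ n |E| / (8 n)`, i.e.
`8 * this number ≤ |E|`. For the other `e`: `Kb_e ≤ DK`, and `Kb_e ≠ DK` by (F2) (`σ e w ≠ 0` is fixed by
`Kb_e`), so `2 |Kb_e| ≤ |DK|` and `2 ^ (j+1) |Kb_e| ≤ 2 ^ j |DK| ≤ N` (`hD` for `a`): `e ∈ B0`. So
`|E| ≤ 8/7 |B0|`, contradicting `64 n |B0| < |E|`.
-/

namespace H78CY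

open Subgroup H78TP
open scoped commutatorElement

private theorem loc_two {Γ : Type*} [Group Γ] [Finite Γ] {A B : Subgroup Γ} (h : A ≤ B)
    (hne : A ≠ B) : 2 * Nat.card A ≤ Nat.card B := by
  have h7 := Subgroup.relIndex_mul_relIndex ⊥ A B bot_le h
  rw [Subgroup.relIndex_bot_left, Subgroup.relIndex_bot_left] at h7
  have h1 : A.relIndex B ≠ 1 := by
    intro h2
    exact hne (le_antisymm h (Subgroup.relIndex_eq_one.1 h2))
  have h2 : A.relIndex B ≠ 0 := Subgroup.index_ne_zero_of_finite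
  rw [← h7, mul_comm]
  exact Nat.mul_le_mul_left _ (by omega)

private theorem loc_smal {Γ : Type*} [Group Γ] {M J : Subgroup Γ} {g : Γ} {N N' : ℕ}
    (h : smal M J g N) (hN : N ≤ N') : smal M J g N' := by
  obtain ⟨C, h1, h2⟩ := h
  exact ⟨C, h1, h2.trans hN⟩

private theorem loc_rg {k Γ U : Type*} [Field k] [Group Γ] [AddCommGroup U] [Module k U]
    {σ : Representation k Γ U} {g : Γ} {v : U} (h : σ g v = v) :
    g ∈ sW σ (Submodule.span k {v}) := by
  rw [mem_sW]
  intro u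
  have hinv : σ g⁻¹ (σ g u) = u := by
    rw [← Module.End.mul_apply, ← map_mul, inv_mul_cancel, map_one, Module.End.one_apply]
  have hinv' : σ g⁻¹ v = v := by
    conv_lhs => rw [← h]
    rw [← Module.End.mul_apply, ← map_mul, inv_mul_cancel, map_one, Module.End.one_apply]
  constructor
  · intro hu
    obtain ⟨b, hb⟩ := Submodule.mem_span_singleton.1 hu
    rw [← hinv, ← hb, map_smul, hinv']
    exact Submodule.smul_mem _ _ (Submodule.mem_span_singleton_self v)
  · intro hu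
    obtain ⟨b, rfl⟩ := Submodule.mem_span_singleton.1 hu
    rw [map_smul, h]
    exact Submodule.smul_mem _ _ (Submodule.mem_span_singleton_self v)

private theorem dd_mono (n : ℕ) (hn : 0 < n) : Monotone (dd n) := by
  apply monotone_nat_of_le_succ
  intro a
  show dd n a ≤ 2 * n * dd n a + 2 * n + 64 * n ^ 2
  have h1 : dd n a ≤ 2 * n * dd n a := Nat.le_mul_of_pos_left _ (by omega)
  omega

theorem loc {k Γ U : Type*} [Field k] [Group Γ] [AddCommGroup U] [Module k U] [IsAlgClosed k]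
    [Finite Γ] [Module.Finite k U] {r : ℕ} {σ : Representation k Γ U} {E D : Subgroup Γ}
    (h : KHyp r σ E D) (K : Subgroup Γ) (n m N j : ℕ) (hK : Nat.card K ≤ n)
    (hK0 : (Nat.card K : k) ≠ 0) (hm : Module.finrank k (Fx σ K) ≤ m)
    (hQ : r ^ dQ n m < D.relIndex E)
    (hD : ∀ a ≤ n, 2 ^ j * Nat.card (Dc K ⊤ E D (r ^ dd n a)) ≤ N) (w : U) (hw : w ≠ 0)
    (hgood : 128 * n * Nat.card {e : Γ // e ∈ E ∧
      ¬ 2 ^ j * Nat.card (K ⊓ sW σ (Submodule.span k {σ e w}) : Subgroup Γ) ≤ N} ≤ Nat.card E) :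
    Nat.card E ≤ 64 * n * Nat.card {e : Γ // e ∈ E ∧
      2 ^ (j + 1) * Nat.card (K ⊓ rgSt σ (σ e w) : Subgroup Γ) ≤ N} := by
  classical
  haveI : Fintype Γ := Fintype.ofFinite _
  have hr : 2 ≤ r := h.hr.two_le
  have hKpos : 0 < Nat.card K := Nat.card_pos
  have hn : 0 < n := by omega
  have hEpos : 0 < Nat.card E := Nat.card_pos
  have hne : ∀ (x : Γ) u, u ≠ 0 → σ x u ≠ 0 := by
    intro x u hu h0
    apply hu
    have h1 : σ x⁻¹ (σ x u) = u := by
      rw [← Module.End.mul_apply, ← map_mul, inv_mul_cancel, map_one, Module.End.one_apply]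
    rw [← h1, h0, map_zero]
  obtain ⟨Da, hDa⟩ : ∃ Da : ℕ → Subgroup Γ, ∀ a, Da a = Dc K ⊤ E D (r ^ dd n a) :=
    ⟨_, fun _ => rfl⟩
  have hDaK : ∀ a, Da a ≤ K := by
    intro a
    rw [hDa]
    exact (Subgroup.closure_le _).2 fun g hg => hg.1
  have hDmono : ∀ a, Da a ≤ Da (a + 1) := by
    intro a
    rw [hDa, hDa]
    refine Subgroup.closure_mono fun g hg => ⟨hg.1, hg.2.1, loc_smal hg.2.2 ?_⟩
    exact Nat.pow_le_pow_right (by omega) (dd_mono n hn (Nat.le_succ a))
  have hex : ∃ a, a < n ∧ Da a = Da (a + 1) := by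
    by_contra hcon
    push Not at hcon
    have h1 : ∀ a ≤ n, a + 1 ≤ Nat.card (Da a) := by
      intro a
      induction a with
      | zero =>
        intro _
        exact Nat.card_pos
      | succ a ih =>
        intro ha
        have h2 := ih (by omega)
        have h3 := loc_two (hDmono a) (hcon a (by omega))
        omega
    have h2 := h1 n le_rfl
    have h3 : Nat.card (Da n) ≤ Nat.card K := Subgroup.card_le_of_le (hDaK n)
    omega
  obtain ⟨a, han, haa⟩ := hex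
  obtain ⟨DK, hDK⟩ : ∃ DK : Subgroup Γ, DK = Da a := ⟨_, rfl⟩
  have hDKK : DK ≤ K := hDK ▸ hDaK a
  have hDKN : 2 ^ j * Nat.card DK ≤ N := by
    rw [hDK, hDa]
    exact hD a han.le
  have nE : Nm (⊤ : Subgroup Γ) E := fun y _ x hx => h.nE.conj_mem x hx y
  have nD : Nm (⊤ : Subgroup Γ) D := fun y _ x hx => h.nD.conj_mem x hx y
  have nDK : Nm K DK := by
    intro t ht x hx
    rw [hDK, hDa] at hx ⊢
    refine Subgroup.closure_induction (p := fun x _ => t * x * t⁻¹ ∈ Dc K ⊤ E D (r ^ dd n a))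
      (fun g hg => ?_) ?_ (fun a b _ _ ha hb => ?_) (fun a _ ha => ?_) hx
    · exact Subgroup.subset_closure ⟨K.mul_mem (K.mul_mem ht hg.1) (K.inv_mem ht), trivial,
        smal_conj nE nD trivial hg.2.2⟩
    · rw [mul_one, mul_inv_cancel]
      exact one_mem _
    · have e1 : t * (a * b) * t⁻¹ = (t * a * t⁻¹) * (t * b * t⁻¹) := by group
      rw [e1]
      exact mul_mem ha hb
    · have e1 : t * a⁻¹ * t⁻¹ = (t * a * t⁻¹)⁻¹ := by group
      rw [e1]
      exact inv_mem ha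
  have hsm : Subgroup.closure {g | g ∈ DK ∧ smal D E g (r ^ dd n a)} = DK := by
    apply le_antisymm
    · exact (Subgroup.closure_le _).2 fun g hg => hg.1
    · conv_lhs => rw [hDK, hDa]
      refine Subgroup.closure_mono fun g hg => ⟨?_, hg.2.2⟩
      rw [hDK, hDa]
      exact Subgroup.subset_closure hg
  have hbig : ∀ g ∈ K, g ∉ DK → ¬ smal D E g (r ^ (2 * n * dd n a + 2 * n + 64 * n ^ 2)) := by
    intro g hgK hg hs
    apply hg
    rw [hDK, haa, hDa]
    exact Subgroup.subset_closure ⟨hgK, trivial, hs⟩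
  have hF2 : ∀ v, (∀ g ∈ DK, σ g v = v) → v = 0 := by
    intro v hv
    refine f2 h K DK n m (dd n a) hK hK0 hm hDKK nDK hsm hbig ?_ v hv
    refine lt_of_le_of_lt ?_ hQ
    apply Nat.pow_le_pow_right (by omega)
    unfold dQ
    have h1 : dd n a ≤ dd n n := dd_mono n hn han.le
    have h2 : 2 * n * dd n a ≤ 2 * n * dd n n := Nat.mul_le_mul_left _ h1
    omega
  -- finsets
  set B0 : Finset Γ := Finset.univ.filter (fun e => e ∈ E ∧
    2 ^ (j + 1) * Nat.card (K ⊓ rgSt σ (σ e w) : Subgroup Γ) ≤ N) with hB0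
  set Bad : Finset Γ := Finset.univ.filter (fun e => e ∈ E ∧
    ¬ 2 ^ j * Nat.card (K ⊓ sW σ (Submodule.span k {σ e w}) : Subgroup Γ) ≤ N) with hBad
  have cB0 : Nat.card {e : Γ // e ∈ E ∧
      2 ^ (j + 1) * Nat.card (K ⊓ rgSt σ (σ e w) : Subgroup Γ) ≤ N} = B0.card := by
    rw [Nat.card_eq_fintype_card, Fintype.card_subtype]
  have cBad : Nat.card {e : Γ // e ∈ E ∧
      ¬ 2 ^ j * Nat.card (K ⊓ sW σ (Submodule.span k {σ e w}) : Subgroup Γ) ≤ N} = Bad.card := by
    rw [Nat.card_eq_fintype_card, Fintype.card_subtype]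
  rw [cB0]
  rw [cBad] at hgood
  by_contra hcon
  push Not at hcon
  have hle : ∀ e, (K ⊓ rgSt σ (σ e w) : Subgroup Γ) ≤ K ⊓ sW σ (Submodule.span k {σ e w}) :=
    fun e g hg => ⟨hg.1, loc_rg hg.2⟩
  have s1 : ∀ e ∈ E, e ∉ B0 → e ∉ Bad →
      (K ⊓ rgSt σ (σ e w) : Subgroup Γ) = K ⊓ sW σ (Submodule.span k {σ e w}) := by
    intro e he h0 h1
    by_contra h2
    have h3 := loc_two (hle e) h2
    have h4 : 2 ^ j * Nat.card (K ⊓ sW σ (Submodule.span k {σ e w}) : Subgroup Γ) ≤ N := by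
      by_contra h5
      exact h1 (Finset.mem_filter.2 ⟨Finset.mem_univ _, he, h5⟩)
    apply h0
    refine Finset.mem_filter.2 ⟨Finset.mem_univ _, he, ?_⟩
    calc 2 ^ (j + 1) * Nat.card (K ⊓ rgSt σ (σ e w) : Subgroup Γ)
        = 2 ^ j * (2 * Nat.card (K ⊓ rgSt σ (σ e w) : Subgroup Γ)) := by ring
      _ ≤ _ := (Nat.mul_le_mul_left _ h3).trans h4
  have s2 : ∀ g ∈ K, g ∉ DK → 8 * n * (Finset.univ.filter (fun e => e ∈ E ∧
      g ∈ sW σ (Submodule.span k {σ e w}))).card ≤ Nat.card E := by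
    intro g hgK hg
    have hg' : ¬ smal D E g (r ^ (64 * n ^ 2)) := fun hs => hbig g hgK hg
      (loc_smal hs (Nat.pow_le_pow_right (by omega) (by omega)))
    have cP : Nat.card {e : Γ // e ∈ E ∧ g ∈ sW σ (Submodule.span k {σ e w})} =
        (Finset.univ.filter (fun e => e ∈ E ∧ g ∈ sW σ (Submodule.span k {σ e w}))).card := by
      rw [Nat.card_eq_fintype_card, Fintype.card_subtype]
    have cQ : Nat.card {e : Γ // e ∈ E ∧ g ∈ rgSt σ (σ e w)} =
        (Finset.univ.filter (fun e => e ∈ E ∧ g ∈ rgSt σ (σ e w))).card := by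
      rw [Nat.card_eq_fintype_card, Fintype.card_subtype]
    rcases sm h g n hg' w hw with h1 | h1
    · rwa [cP] at h1
    · rw [cP, cQ] at h1
      have h2 : (Finset.univ.filter (fun e => e ∈ E ∧ g ∈ sW σ (Submodule.span k {σ e w}))) ⊆
          ((Finset.univ.filter (fun e => e ∈ E ∧ g ∈ rgSt σ (σ e w))) ∪ B0) ∪ Bad := by
        intro e he
        obtain ⟨-, heE, hge⟩ := Finset.mem_filter.1 he
        by_cases h3 : e ∈ B0
        · exact Finset.mem_union_left _ (Finset.mem_union_right _ h3)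
        by_cases h4 : e ∈ Bad
        · exact Finset.mem_union_right _ h4
        refine Finset.mem_union_left _ (Finset.mem_union_left _ ?_)
        have h5 := s1 e heE h3 h4
        have h6 : g ∈ K ⊓ rgSt σ (σ e w) := by
          rw [h5]
          exact ⟨hgK, hge⟩
        exact Finset.mem_filter.2 ⟨Finset.mem_univ _, heE, h6.2⟩
      have h3 := (Finset.card_le_card h2).trans ((Finset.card_union_le _ _).trans
        (Nat.add_le_add_right (Finset.card_union_le _ _) _))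
      set P := (Finset.univ.filter (fun e => e ∈ E ∧
        g ∈ sW σ (Submodule.span k {σ e w}))).card
      set Q := (Finset.univ.filter (fun e => e ∈ E ∧ g ∈ rgSt σ (σ e w))).card
      have h4 : P ≤ 4 * (B0.card + Bad.card) := by omega
      have h5 : 8 * n * P ≤ 8 * n * (4 * (B0.card + Bad.card)) := Nat.mul_le_mul_left _ h4
      have h6 : 8 * n * (4 * (B0.card + Bad.card)) = 32 * (n * B0.card) + 32 * (n * Bad.card) := by
        ring
      have h7 : 64 * n * B0.card = 64 * (n * B0.card) := by ring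
      have h8 : 128 * n * Bad.card = 128 * (n * Bad.card) := by ring
      omega
  -- the union over g
  have cE : Nat.card E = (Finset.univ.filter (fun e => e ∈ E)).card := by
    rw [Nat.card_eq_fintype_card]
    exact Fintype.card_subtype _
  set Bad2 : Finset Γ := (Finset.univ.filter (fun g => g ∈ K ∧ g ∉ DK)).biUnion
    (fun g => Finset.univ.filter (fun e => e ∈ E ∧ g ∈ sW σ (Submodule.span k {σ e w}))) with hB2
  have s3 : 8 * Bad2.card ≤ Nat.card E := by
    have h1 : Bad2.card ≤ ∑ g ∈ Finset.univ.filter (fun g => g ∈ K ∧ g ∉ DK),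
        (Finset.univ.filter (fun e => e ∈ E ∧ g ∈ sW σ (Submodule.span k {σ e w}))).card :=
      Finset.card_biUnion_le
    have h2 : 8 * n * Bad2.card ≤ n * Nat.card E := by
      calc 8 * n * Bad2.card ≤ 8 * n * ∑ g ∈ Finset.univ.filter (fun g => g ∈ K ∧ g ∉ DK),
            (Finset.univ.filter (fun e => e ∈ E ∧
              g ∈ sW σ (Submodule.span k {σ e w}))).card := Nat.mul_le_mul_left _ h1
        _ = ∑ g ∈ Finset.univ.filter (fun g => g ∈ K ∧ g ∉ DK), 8 * n *
            (Finset.univ.filter (fun e => e ∈ E ∧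
              g ∈ sW σ (Submodule.span k {σ e w}))).card := Finset.mul_sum _ _ _
        _ ≤ ∑ g ∈ Finset.univ.filter (fun g => g ∈ K ∧ g ∉ DK), Nat.card E :=
            Finset.sum_le_sum fun g hg => s2 g (Finset.mem_filter.1 hg).2.1
              (Finset.mem_filter.1 hg).2.2
        _ = (Finset.univ.filter (fun g => g ∈ K ∧ g ∉ DK)).card * Nat.card E := by
            rw [Finset.sum_const, smul_eq_mul]
        _ ≤ n * Nat.card E := by
            apply Nat.mul_le_mul_right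
            refine le_trans ?_ hK
            rw [Nat.card_eq_fintype_card]
            refine le_trans ?_ (Fintype.card_subtype (fun g => g ∈ K)).ge
            exact Finset.card_le_card fun g hg => Finset.mem_filter.2
              ⟨Finset.mem_univ _, (Finset.mem_filter.1 hg).2.1⟩
    have h3 : 8 * n * Bad2.card = n * (8 * Bad2.card) := by ring
    rw [h3] at h2
    exact Nat.le_of_mul_le_mul_left h2 hn
  have s4 : (Finset.univ.filter (fun e => e ∈ E)) ⊆ B0 ∪ Bad2 := by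
    intro e he
    have heE := (Finset.mem_filter.1 he).2
    by_cases h1 : (K ⊓ sW σ (Submodule.span k {σ e w}) : Subgroup Γ) ≤ DK
    · refine Finset.mem_union_left _ (Finset.mem_filter.2 ⟨Finset.mem_univ _, heE, ?_⟩)
      have h2 : (K ⊓ rgSt σ (σ e w) : Subgroup Γ) ≠ DK := by
        intro h3
        apply hne e w hw
        apply hF2
        intro g hg
        rw [← h3] at hg
        exact hg.2
      have h3 := loc_two ((hle e).trans h1) h2
      calc 2 ^ (j + 1) * Nat.card (K ⊓ rgSt σ (σ e w) : Subgroup Γ)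
          = 2 ^ j * (2 * Nat.card (K ⊓ rgSt σ (σ e w) : Subgroup Γ)) := by ring
        _ ≤ _ := (Nat.mul_le_mul_left _ h3).trans hDKN
    · rw [SetLike.not_le_iff_exists] at h1
      obtain ⟨g, hg, hgD⟩ := h1
      refine Finset.mem_union_right _ (Finset.mem_biUnion.2 ⟨g, ?_, ?_⟩)
      · exact Finset.mem_filter.2 ⟨Finset.mem_univ _, hg.1, hgD⟩
      · exact Finset.mem_filter.2 ⟨Finset.mem_univ _, heE, hg.2⟩
  have s5 := (Finset.card_le_card s4).trans (Finset.card_union_le _ _)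
  rw [← cE] at s5
  have s6 : 64 * B0.card ≤ 64 * n * B0.card := Nat.mul_le_mul_right _ (by omega)
  omega

end H78CY
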