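import Pool.Agent.H78.CY.Def2

/-!
[H78 CY MODH] STEP C, the module over the algebraically closed field (45 min).

PROOF. `U = V →ₗ[ZMod p] k` with `τ g f = f ∘ ρ g⁻¹` (a representation over `k`; `k`-linear in `f`), and
`u = (algebra map) ∘ φ`. `Module.Finite k U`: choose a basis `e` of `V` (`Module.finBasis (ZMod p) V`);
`Module.Basis.constr k : (ι → V') ≃ₗ[k] (V →ₗ[ZMod p] V')` with `V' = k`. `u ≠ 0` since `algebraMap` is
injective. If `φ (ρ g v) = φ v` for all `v` then `τ g u = u` (replace `v` by `ρ g⁻¹ v`). `ρ g = 1` implies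
`ρ g⁻¹ = 1`, `τ g = 1`.
If `τ g u' = u'` for all `g ∈ N`: the kernel `A` of `u'` contains `ρ g⁻¹ v - v`, for all `g ∈ N`, so
`A = ⊤`, `u' = 0`.
Fixed points of `R`: let `V₀ = Fx ρ R`. The restriction map `Fx τ R → (V₀ →ₗ[ZMod p] k)` is
injective: if `f ∈ Fx τ R` vanishes on `V₀` then `|R| f v = ∑ g ∈ R, f (ρ g v) = f (∑ g ∈ R, ρ g v) = 0`,
because `∑ g ∈ R, ρ g v ∈ V₀`, and `|R| ≠ 0` in `k`. So
`finrank k (Fx τ R) ≤ finrank k (V₀ →ₗ[ZMod p] k) = finrank (ZMod p) V₀ ≤ |V₀|` (basis as above;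
`finrank < p ^ finrank = |V₀|`, `Module.card_eq_pow_finrank`, `Nat.lt_pow_self`).
-/

namespace H78CY

open Subgroup H78TP
open scoped commutatorElement

universe u

private theorem modh_fin (p : ℕ) [Fact p.Prime] (k : Type) [Field k] [Algebra (ZMod p) k]
    {V : Type u} [AddCommGroup V] [Module (ZMod p) V] [Finite V] :
    Module.Finite k (V →ₗ[ZMod p] k) ∧ Module.finrank k (V →ₗ[ZMod p] k) ≤ Nat.card V := by
  have h0 : Module.Finite (ZMod p) V := inferInstance
  let e := (Module.finBasis (ZMod p) V).constr k (M' := k)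
  have h1 : Module.Finite k (V →ₗ[ZMod p] k) := Module.Finite.equiv e
  refine ⟨h1, ?_⟩
  have h2 : Module.finrank k (V →ₗ[ZMod p] k) = Module.finrank (ZMod p) V := by
    rw [← LinearEquiv.finrank_eq e, Module.finrank_fintype_fun_eq_card, Fintype.card_fin]
  rw [h2, Module.natCard_eq_pow_finrank (K := ZMod p) (V := V), Nat.card_zmod]
  exact (Nat.lt_pow_self (Fact.out : p.Prime).one_lt).le

/-- the dual representation with coefficients in `k` -/
private def modhR (p : ℕ) [Fact p.Prime] (k : Type) [Field k] [Algebra (ZMod p) k]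
    {Γ : Type u} [Group Γ] {V : Type u} [AddCommGroup V] [Module (ZMod p) V]
    (ρ : Representation (ZMod p) Γ V) : Representation k Γ (V →ₗ[ZMod p] k) where
  toFun g :=
    { toFun := fun f => f ∘ₗ ρ g⁻¹
      map_add' := fun f f' => LinearMap.add_comp _ _ _
      map_smul' := fun c f => LinearMap.smul_comp _ _ _ }
  map_one' := by
    ext f v
    show f (ρ 1⁻¹ v) = f v
    rw [inv_one, map_one]
    rfl
  map_mul' := by
    intro g h
    ext f v
    show f (ρ (g * h)⁻¹ v) = f (ρ h⁻¹ (ρ g⁻¹ v))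
    rw [mul_inv_rev, map_mul]
    rfl

theorem modH (p : ℕ) [Fact p.Prime] (k : Type) [Field k] [Algebra (ZMod p) k]
    {Γ : Type u} [Group Γ] [Finite Γ] {V : Type u} [AddCommGroup V] [Module (ZMod p) V]
    [Finite V] (ρ : Representation (ZMod p) Γ V) (φ : V →ₗ[ZMod p] ZMod p) (hφ : φ ≠ 0)
    (R : Subgroup Γ) (hR : (Nat.card R : k) ≠ 0) :
    ∃ (U : Type u) (_ : AddCommGroup U) (_ : Module k U) (_ : Module.Finite k U)
      (τ : Representation k Γ U) (u : U), u ≠ 0 ∧
      (∀ g, (∀ v, φ (ρ g v) = φ v) → τ g u = u) ∧ (∀ g, ρ g = 1 → τ g = 1) ∧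
      (∀ N : Subgroup Γ, (∀ A : Submodule (ZMod p) V, (∀ g ∈ N, ∀ v, ρ g v - v ∈ A) → A = ⊤) →
        ∀ u', (∀ g ∈ N, τ g u' = u') → u' = 0) ∧
      Module.finrank k (Fx τ R) ≤ Nat.card (Fx ρ R) := by
  classical
  obtain ⟨τ, hτ'⟩ : ∃ τ : Representation k Γ (V →ₗ[ZMod p] k), τ = modhR p k ρ := ⟨_, rfl⟩
  have hτ : ∀ g f v, τ g f v = f (ρ g⁻¹ v) := by
    intro g f v
    rw [hτ']
    rfl
  have hinv : ∀ g v, ρ g (ρ g⁻¹ v) = v := by
    intro g v
    rw [← Module.End.mul_apply, ← map_mul, mul_inv_cancel, map_one, Module.End.one_apply]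
  have hal : Function.Injective (algebraMap (ZMod p) k) := (algebraMap (ZMod p) k).injective
  obtain ⟨u, hu⟩ : ∃ u : V →ₗ[ZMod p] k, u = (Algebra.linearMap (ZMod p) k) ∘ₗ φ := ⟨_, rfl⟩
  have huv : ∀ v, u v = algebraMap (ZMod p) k (φ v) := by
    intro v
    rw [hu]
    rfl
  refine ⟨V →ₗ[ZMod p] k, inferInstance, inferInstance, (modh_fin p k).1, τ, u, ?_, ?_, ?_, ?_, ?_⟩
  · intro h0
    apply hφ
    apply LinearMap.ext
    intro v
    have h1 := huv v
    rw [h0, LinearMap.zero_apply] at h1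
    rw [LinearMap.zero_apply]
    apply hal
    rw [← h1, map_zero]
  · intro g hg
    apply LinearMap.ext
    intro v
    rw [hτ, huv, huv]
    congr 1
    have := hg (ρ g⁻¹ v)
    rw [hinv] at this
    exact this.symm
  · intro g hg
    apply LinearMap.ext
    intro f
    apply LinearMap.ext
    intro v
    rw [hτ, Module.End.one_apply]
    have h1 : ρ g⁻¹ v = v := by
      have h2 := hinv g v
      rw [hg, Module.End.one_apply] at h2
      exact h2
    rw [h1]
  · intro N hN u' hu'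
    have h1 := hN (LinearMap.ker u') (by
      intro g hg v
      rw [LinearMap.mem_ker, map_sub, sub_eq_zero]
      have h2 := hu' g⁻¹ (N.inv_mem hg)
      have h3 := LinearMap.congr_fun h2 v
      rw [hτ, inv_inv] at h3
      exact h3)
    exact LinearMap.ker_eq_top.1 h1
  · have hfin0 := modh_fin p k (V := Fx ρ R)
    have hfV := (modh_fin p k (V := V)).1
    have hf0 := hfin0.1
    refine le_trans ?_ hfin0.2
    let res : Fx τ R →ₗ[k] (Fx ρ R →ₗ[ZMod p] k) :=
      { toFun := fun f => (f : V →ₗ[ZMod p] k) ∘ₗ (Fx ρ R).subtype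
        map_add' := fun f f' => rfl
        map_smul' := fun c f => rfl }
    have hres : ∀ (f : Fx τ R) (v : Fx ρ R), res f v = (f : V →ₗ[ZMod p] k) v := fun f v => rfl
    refine LinearMap.finrank_le_finrank_of_injective (f := res) ?_
    rw [← LinearMap.ker_eq_bot, LinearMap.ker_eq_bot']
    intro f hf
    apply Subtype.ext
    apply LinearMap.ext
    intro v
    have hfR : ∀ g ∈ R, τ g (f : V →ₗ[ZMod p] k) = f := f.2
    have hinvf : ∀ g ∈ R, (f : V →ₗ[ZMod p] k) (ρ g v) = (f : V →ₗ[ZMod p] k) v := by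
      intro g hg
      have h3 := LinearMap.congr_fun (hfR g⁻¹ (R.inv_mem hg)) v
      rw [hτ, inv_inv] at h3
      exact h3
    haveI : Fintype R := Fintype.ofFinite R
    have hmem : ∑ g : R, ρ (g : Γ) v ∈ Fx ρ R := by
      show ∀ x ∈ R, ρ x (∑ g : R, ρ (g : Γ) v) = ∑ g : R, ρ (g : Γ) v
      intro x hx
      rw [map_sum]
      have h4 := Equiv.sum_comp (Equiv.mulLeft (⟨x, hx⟩ : R)) (fun g : R => ρ (g : Γ) v)
      rw [← h4]
      apply Finset.sum_congr rfl
      intro g _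
      rw [Equiv.coe_mulLeft]
      show ρ x (ρ (g : Γ) v) = ρ (x * g) v
      rw [map_mul, Module.End.mul_apply]
    have h5 : (f : V →ₗ[ZMod p] k) (∑ g : R, ρ (g : Γ) v) = 0 := by
      have := LinearMap.congr_fun hf ⟨_, hmem⟩
      rw [hres] at this
      exact this
    rw [map_sum, Finset.sum_congr rfl (fun (g : R) _ => hinvf (g : Γ) g.2), Finset.sum_const, Finset.card_univ,
      nsmul_eq_mul, ← Nat.card_eq_fintype_card] at h5
    rcases mul_eq_zero.1 h5 with h6 | h6
    · exact absurd h6 hR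
    · rw [h6]
      rfl

end H78CY
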