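import Pool.Agent.H78.CY.Def2

/-!
[H78 CY MODI] STEP C, an indecomposable summand on which `u` has a nonzero component (35 min).

PROOF. Among all pairs `(A, B)` of invariant submodules with `A ⊓ B = ⊥`, `A ⊔ B = ⊤`, `u ∉ B` (the pair
`(⊤, ⊥)` is one) choose one with `finrank A` minimal. Suppose `A = A1 ⊔ A2`, `A1 ⊓ A2 = ⊥`, both
invariant and nonzero. Then `(A1, A2 ⊔ B)` and `(A2, A1 ⊔ B)` are pairs of invariant complements with
smaller first member (`A1 ≠ A` because `A2 ≠ ⊥`), so `u ∈ A2 ⊔ B` and `u ∈ A1 ⊔ B`, hence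
`u ∈ (A1 ⊔ B) ⊓ (A2 ⊔ B) = B`: indeed `u = a1 + b1 = a2 + b2` gives `a1 - a2 = b2 - b1 ∈ A ⊓ B = ⊥`, so
`a1 = a2 ∈ A1 ⊓ A2 = ⊥`. Contradiction.
`modR`: the representation on `A` is `(τ g).restrict`; `u = a + b` with `a ∈ A`, `b ∈ B`, `a ≠ 0`; if
`τ g u = u` then `τ g a - a = b - τ g b ∈ A ⊓ B = ⊥`. Submodules of `A` correspond to submodules of `U`
below `A` (`Submodule.map A.subtype`).
-/

namespace H78CY

open Subgroup H78TP
open scoped commutatorElement

universe u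

/-- a pair of invariant complements such that `u` is not in the second one -/
private def modiG {k Γ U : Type*} [Field k] [Group Γ] [AddCommGroup U] [Module k U]
    (τ : Representation k Γ U) (u : U) (A B : Submodule k U) : Prop :=
  (∀ g, ∀ v ∈ A, τ g v ∈ A) ∧ (∀ g, ∀ v ∈ B, τ g v ∈ B) ∧ A ⊓ B = ⊥ ∧ A ⊔ B = ⊤ ∧ u ∉ B

private theorem modi_sup {k Γ U : Type*} [Field k] [Group Γ] [AddCommGroup U] [Module k U]
    (τ : Representation k Γ U) {A B : Submodule k U} (hA : ∀ g, ∀ v ∈ A, τ g v ∈ A)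
    (hB : ∀ g, ∀ v ∈ B, τ g v ∈ B) : ∀ g, ∀ v ∈ A ⊔ B, τ g v ∈ A ⊔ B := by
  intro g v hv
  obtain ⟨a, ha, b, hb, rfl⟩ := Submodule.mem_sup.1 hv
  rw [map_add]
  exact Submodule.add_mem_sup (hA g a ha) (hB g b hb)

private theorem modi_inf {k U : Type*} [Field k] [AddCommGroup U] [Module k U] {A B : Submodule k U}
    (h : A ⊓ B = ⊥) {x : U} (ha : x ∈ A) (hb : x ∈ B) : x = 0 := by
  have h1 : x ∈ A ⊓ B := ⟨ha, hb⟩
  rw [h] at h1
  exact (Submodule.mem_bot k).1 h1

private theorem modi_step {k Γ U : Type*} [Field k] [Group Γ] [AddCommGroup U] [Module k U]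
    [Module.Finite k U] (τ : Representation k Γ U) (u : U) {A B : Submodule k U} (h : modiG τ u A B)
    (hmin : ∀ A' B', modiG τ u A' B' → Module.finrank k A ≤ Module.finrank k A')
    {A1 A2 : Submodule k U} (h1 : A1 ≤ A) (h2 : A2 ≤ A) (i1 : ∀ g, ∀ v ∈ A1, τ g v ∈ A1)
    (i2 : ∀ g, ∀ v ∈ A2, τ g v ∈ A2) (hinf : A1 ⊓ A2 = ⊥) (hsup : A1 ⊔ A2 = A) (hne : A2 ≠ ⊥) : u ∈ A2 ⊔ B := by
  by_contra hu
  have hg : modiG τ u A1 (A2 ⊔ B) := by
    refine ⟨i1, modi_sup τ i2 h.2.1, ?_, ?_, hu⟩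
    · rw [eq_bot_iff]
      rintro x ⟨hx1, hx2⟩
      obtain ⟨a, ha, b, hb, hab⟩ := Submodule.mem_sup.1 hx2
      have hb' : b = x - a := by rw [← hab]; abel
      have hb0 : b = 0 := modi_inf h.2.2.1 (by rw [hb']; exact A.sub_mem (h1 hx1) (h2 ha)) hb
      rw [hb0, add_zero] at hab
      rw [Submodule.mem_bot]
      exact modi_inf hinf hx1 (by rw [← hab]; exact ha)
    · rw [← sup_assoc, hsup]
      exact h.2.2.2.1
  have hlt : A1 < A := by
    refine lt_of_le_of_ne h1 ?_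
    intro he
    apply hne
    rw [← hinf, he]
    exact (inf_eq_right.2 h2).symm
  have h3 := Submodule.finrank_lt_finrank_of_lt hlt
  have h4 := hmin A1 (A2 ⊔ B) hg
  omega

theorem modI {k Γ U : Type*} [Field k] [Group Γ] [AddCommGroup U] [Module k U]
    [Module.Finite k U] (τ : Representation k Γ U) (u : U) (hu : u ≠ 0) :
    ∃ A B : Submodule k U, (∀ g, ∀ v ∈ A, τ g v ∈ A) ∧ (∀ g, ∀ v ∈ B, τ g v ∈ B) ∧
      A ⊓ B = ⊥ ∧ A ⊔ B = ⊤ ∧ u ∉ B ∧
      ∀ A1 A2 : Submodule k U, A1 ≤ A → A2 ≤ A → (∀ g, ∀ v ∈ A1, τ g v ∈ A1) →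
        (∀ g, ∀ v ∈ A2, τ g v ∈ A2) → A1 ⊓ A2 = ⊥ → A1 ⊔ A2 = A → A1 = ⊥ ∨ A2 = ⊥ := by
  classical
  have hex : ∃ d : ℕ, ∃ A B : Submodule k U, modiG τ u A B ∧ Module.finrank k A = d := by
    refine ⟨_, ⊤, ⊥, ⟨fun _ _ _ => Submodule.mem_top, ?_, ?_, ?_, ?_⟩, rfl⟩
    · intro g v hv
      rw [(Submodule.mem_bot k).1 hv, map_zero]
      exact Submodule.zero_mem _
    · exact inf_bot_eq _
    · exact sup_bot_eq _
    · intro h
      exact hu ((Submodule.mem_bot k).1 h)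
  obtain ⟨A, B, hg, hd⟩ := Nat.find_spec hex
  have hmin : ∀ A' B', modiG τ u A' B' → Module.finrank k A ≤ Module.finrank k A' := by
    intro A' B' h'
    rw [hd]
    exact Nat.find_min' hex ⟨A', B', h', rfl⟩
  refine ⟨A, B, hg.1, hg.2.1, hg.2.2.1, hg.2.2.2.1, hg.2.2.2.2, ?_⟩
  intro A1 A2 h1 h2 i1 i2 hinf hsup
  by_contra hne
  push Not at hne
  obtain ⟨n1, n2⟩ := hne
  have u2 := modi_step τ u hg hmin h1 h2 i1 i2 hinf hsup n2
  have u1 := modi_step τ u hg hmin h2 h1 i2 i1 (by rw [inf_comm]; exact hinf) (by rw [sup_comm]; exact hsup) n1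
  apply hg.2.2.2.2
  obtain ⟨a2, ha2, b2, hb2, e2⟩ := Submodule.mem_sup.1 u2
  obtain ⟨a1, ha1, b1, hb1, e1⟩ := Submodule.mem_sup.1 u1
  have e3 : a1 - a2 = b2 - b1 := by
    have h3 : a1 + b1 = a2 + b2 := e1.trans e2.symm
    calc a1 - a2 = (a1 + b1) - b1 - a2 := by abel
      _ = (a2 + b2) - b1 - a2 := by rw [h3]
      _ = b2 - b1 := by abel
  have e4 : a1 - a2 = 0 := modi_inf hg.2.2.1 (A.sub_mem (h1 ha1) (h2 ha2)) (by rw [e3]; exact B.sub_mem hb2 hb1)
  have e5 : a1 = a2 := sub_eq_zero.1 e4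
  have e6 : a1 = 0 := modi_inf hinf ha1 (by rw [e5]; exact ha2)
  rw [← e1, e6, zero_add]
  exact hb1

/-- the restriction of the representation to an invariant submodule -/
private def modiR {k Γ U : Type*} [Field k] [Group Γ] [AddCommGroup U] [Module k U]
    (τ : Representation k Γ U) (A : Submodule k U) (hA : ∀ g, ∀ v ∈ A, τ g v ∈ A) : Representation k Γ A where
  toFun g := (τ g).restrict (hA g)
  map_one' := by
    ext v
    rw [LinearMap.coe_restrict_apply, map_one, Module.End.one_apply, Module.End.one_apply]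
  map_mul' := by
    intro g h
    ext v
    rw [LinearMap.coe_restrict_apply, map_mul, Module.End.mul_apply, Module.End.mul_apply,
      LinearMap.coe_restrict_apply, LinearMap.coe_restrict_apply]

/-- the restricted representation, with all the properties that are needed -/
theorem modR {k : Type*} {Γ U : Type u} [Field k] [Group Γ] [AddCommGroup U] [Module k U]
    [Module.Finite k U] (τ : Representation k Γ U) (u : U) (hu : u ≠ 0) :
    ∃ (U' : Type u) (_ : AddCommGroup U') (_ : Module k U') (_ : Module.Finite k U')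
      (τ' : Representation k Γ U') (u' : U'), u' ≠ 0 ∧
      (∀ g, τ g u = u → τ' g u' = u') ∧ (∀ g, τ g = 1 → τ' g = 1) ∧
      (∀ N : Subgroup Γ, (∀ v, (∀ g ∈ N, τ g v = v) → v = 0) →
        ∀ v, (∀ g ∈ N, τ' g v = v) → v = 0) ∧
      (∀ R : Subgroup Γ, Module.finrank k (Fx τ' R) ≤ Module.finrank k (Fx τ R)) ∧
      ∀ A B : Submodule k U', (∀ g, ∀ v ∈ A, τ' g v ∈ A) → (∀ g, ∀ v ∈ B, τ' g v ∈ B) →
        A ⊓ B = ⊥ → A ⊔ B = ⊤ → A = ⊥ ∨ B = ⊥ := by
  obtain ⟨A, B, hA, hB, hinf, hsup, hnu, hind⟩ := modI τ u hu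
  obtain ⟨τ', hτ'⟩ : ∃ τ' : Representation k Γ A, τ' = modiR τ A hA := ⟨_, rfl⟩
  have hco : ∀ g (v : A), ((τ' g v : A) : U) = τ g v := by
    intro g v
    rw [hτ']
    rfl
  have hut : u ∈ A ⊔ B := by rw [hsup]; exact Submodule.mem_top
  obtain ⟨a, ha, b, hb, hab⟩ := Submodule.mem_sup.1 hut
  refine ⟨A, inferInstance, inferInstance, inferInstance, τ', ⟨a, ha⟩, ?_, ?_, ?_, ?_, ?_, ?_⟩
  · intro h0
    have h1 : a = 0 := congrArg Subtype.val h0
    apply hnu
    rw [← hab, h1, zero_add]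
    exact hb
  · intro g hg
    apply Subtype.ext
    rw [hco]
    show τ g a = a
    rw [← hab, map_add] at hg
    have e : τ g a - a = b - τ g b := by
      calc τ g a - a = (τ g a + τ g b) - τ g b - a := by abel
        _ = (a + b) - τ g b - a := by rw [hg]
        _ = b - τ g b := by abel
    have h1 := modi_inf hinf (A.sub_mem (hA g a ha) ha) (by rw [e]; exact B.sub_mem hb (hB g b hb))
    exact sub_eq_zero.1 h1
  · intro g hg
    apply LinearMap.ext
    intro v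
    apply Subtype.ext
    rw [hco, hg, Module.End.one_apply, Module.End.one_apply]
  · intro N hN v hv
    apply Subtype.ext
    apply hN
    intro g hg
    rw [← hco, hv g hg]
  · intro R
    let f : Fx τ' R →ₗ[k] Fx τ R :=
      { toFun := fun v => ⟨((v : A) : U), fun x hx => by
          rw [← hco, v.2 x hx]⟩
        map_add' := fun v w => rfl
        map_smul' := fun c v => rfl }
    refine LinearMap.finrank_le_finrank_of_injective (f := f) ?_
    intro v w hvw
    have h1 : ((v : A) : U) = ((w : A) : U) := congrArg (fun z : Fx τ R => (z : U)) hvw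
    exact Subtype.ext (Subtype.ext h1)
  · intro A' B' iA iB hinf' hsup'
    have hinv : ∀ S : Submodule k A, (∀ g, ∀ v ∈ S, τ' g v ∈ S) →
        ∀ g, ∀ v ∈ S.map A.subtype, τ g v ∈ S.map A.subtype := by
      rintro S hS g _ ⟨v, hv, rfl⟩
      exact ⟨τ' g v, hS g v hv, hco g v⟩
    have hbot : ∀ S : Submodule k A, S.map A.subtype = ⊥ → S = ⊥ := by
      intro S hS
      rw [eq_bot_iff]
      intro x hx
      have h1 : (x : U) ∈ S.map A.subtype := ⟨x, hx, rfl⟩
      rw [hS, Submodule.mem_bot] at h1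
      rw [Submodule.mem_bot]
      exact Subtype.ext h1
    have h1 := hind (A'.map A.subtype) (B'.map A.subtype) (Submodule.map_subtype_le _ _) (Submodule.map_subtype_le _ _)
      (hinv A' iA) (hinv B' iB) (by
        rw [eq_bot_iff]
        rintro _ ⟨⟨x, hx, rfl⟩, ⟨y, hy, hyx⟩⟩
        have : y = x := Subtype.ext hyx
        rw [this] at hy
        have h2 := modi_inf hinf' hx hy
        rw [h2, map_zero]
        exact Submodule.zero_mem _) (by
        rw [← Submodule.map_sup, hsup', Submodule.map_subtype_top])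
    rcases h1 with h1 | h1
    · exact Or.inl (hbot _ h1)
    · exact Or.inr (hbot _ h1)

end H78CY
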