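import Pool.Agent.H78.CY.ModV
import Pool.Agent.H78.CY.ModH
import Pool.Agent.H78.CY.ModI

/-!
Step C of the strict step (helper78): assembly of `modV`, `modH`, `modR`.
-/

namespace H78CY

open Subgroup H78TP
open scoped commutatorElement

universe u

theorem modC (p n : ℕ) [Fact p.Prime] (m f : ℕ → ℕ) {Γ : Type u} [Group Γ] [Finite Γ]
    {G R H : Subgroup Γ} {l : ℕ} (h : FHyp p n m f l G R H) (i : ℕ) (hi : 1 ≤ i) (hil : i < l)
    (M C : Subgroup Γ) (hMP : M ≤ PS p G i) (hMp : ∀ x ∈ PS p G i, x ^ p ∈ M)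
    (hMc : ∀ x ∈ PS p G i, ∀ y ∈ PS p G i, ⁅x, y⁆ ∈ M) (hne : ¬ PS p G i ≤ M)
    (hC : ∀ g ∈ C, ∀ x ∈ PS p G i, ⁅g, x⁆ ∈ M) :
    ∃ (U : Type u) (_ : AddCommGroup U) (_ : Module (AlgebraicClosure (ZMod p)) U)
      (_ : Module.Finite (AlgebraicClosure (ZMod p)) U)
      (τ : Representation (AlgebraicClosure (ZMod p)) Γ U) (u : U), UHyp p τ G i ∧ u ≠ 0 ∧
      (∀ g ∈ C, τ g u = u) ∧
      Module.finrank (AlgebraicClosure (ZMod p)) (Fx τ R) ≤ m (l - i) := by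
  obtain ⟨V, _, _, _, ρ, φ, hφ, h1, h2, h3, h4⟩ := modV p n m f h i hi hil M C hMP hMp hMc hne hC
  have hR : (Nat.card R : AlgebraicClosure (ZMod p)) ≠ 0 := by
    intro h0
    rw [CharP.cast_eq_zero_iff (AlgebraicClosure (ZMod p)) p] at h0
    exact h.lh.cop h0
  obtain ⟨U, _, _, _, τ, u, hu, g1, g2, g3, g4⟩ :=
    modH p (AlgebraicClosure (ZMod p)) ρ φ hφ R hR
  obtain ⟨U', iA, iM, iF, τ', u', hu', e1, e2, e3, e4, e5⟩ := modR τ u hu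
  refine ⟨U', iA, iM, iF, τ', u', ⟨h.lh.sol, h.nG, hi, fun g hg => e2 g (g2 g (h2 g hg)),
    e3 _ (g3 _ h3), e5⟩, hu', fun g hg => e1 g (g1 g (h1 g hg)), ?_⟩
  exact (e4 R).trans (g4.trans h4)

end H78CY
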