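import Pool.Agent.H78.CY.NtA
import Pool.Agent.H78.CY.Cc
import Pool.Agent.H78.TP.Sec
import Pool.Agent.H78.CY.Def2

/-!
[H78 CY MODV] STEP C, the module over `ZMod p` (50 min).

PROOF. Let `P = PS p G i` (normal in `Γ`), `K0 = M.normalCore` (`Subgroup.normalCore`: the elements all
whose conjugates are in `M`). `K0 ≤ M ≤ P`, `K0` is normal. For `x ∈ P`: `x ^ p ∈ K0` (for every `g`:
`g x ^ p g⁻¹ = (g x g⁻¹) ^ p ∈ M` since `g x g⁻¹ ∈ P`), and `⁅x, y⁆ ∈ K0` for `x, y ∈ P`. Apply `H78TP.sec p`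
with `A = P`, `B = K0`: `V`, `ρ`, `π : P → V`.
- `ρ g = 1` for `g ∈ P`: `ρ g (π x) = π (g x g⁻¹) = π x` because `x⁻¹ g x g⁻¹ ∈ K0`.
- `φ`: `V_M = {π x | x ∈ M}` is a proper submodule of `V` (`π` is additive up to the description
  `π x = π y ↔ x⁻¹ y ∈ K0`; NOTE `sec` does not state additivity of `π`; if it is needed, redo the
  construction of `Sec.lean` or extend `sec` by a private version with the extra conclusion
  `π (x * y) = π x + π y`; the proof there gives it). Choose a nonzero linear form `φ` which vanishes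
  on `V_M` (`Submodule.exists_le_ker_of_lt_top`). For `g ∈ C`, `v = π x`:
  `ρ g v - v = π (g x g⁻¹ x⁻¹) ∈ V_M`, so `φ (ρ g v) = φ v`.
- if `ρ g v - v ∈ A` for all `g ∈ NS p G (i - 1)` and all `v`, let `M' = {x ∈ P | π x ∈ A}`: a subgroup
  with `x ^ p ∈ M'` and `⁅g, x⁆ ∈ M'` for `g ∈ NS p G (i - 1)`, `x ∈ P`; `ntP` with `a = i - 1` gives
  `P ≤ M'`, i.e. `A = ⊤`.
- fixed points: `C' = {x ∈ P | ∀ y ∈ R, ⁅y, x⁆ ∈ K0}` is a subgroup (intersection of subgroups as in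
  `exCg`), `Fx ρ R` is its image under `π`, so `|Fx ρ R| = K0.relIndex C' ≤ m (l - i)` by `h.lh.fx`
  with `a = i`, `b = l - i`.
-/

namespace H78CY

open Subgroup H78TP
open scoped commutatorElement

universe u

private theorem modv_rep' {G Q : Type u} [Group G] [CommGroup Q] (p : ℕ)
    [Module (ZMod p) (Additive Q)] (α : G →* Monoid.End Q) :
    ∃ (ρ : Representation (ZMod p) G (Additive Q)),
      ∀ g (x : Q), ρ g (Additive.ofMul x) = Additive.ofMul (α g x) := by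
  let act : G → (Additive Q →ₗ[ZMod p] Additive Q) := fun g =>
    AddMonoidHom.toZModLinearMap p (MonoidHom.toAdditive (α g : Q →* Q))
  have hact : ∀ g (x : Q), act g (Additive.ofMul x) = Additive.ofMul (α g x) := fun g x => rfl
  refine ⟨{ toFun := act, map_one' := ?_, map_mul' := ?_ }, hact⟩
  · apply LinearMap.ext
    intro v
    obtain ⟨x, rfl⟩ := Additive.ofMul.surjective v
    rw [hact, map_one]
    rfl
  · intro g h
    apply LinearMap.ext
    intro v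
    obtain ⟨x, rfl⟩ := Additive.ofMul.surjective v
    rw [hact, map_mul]
    rfl

private theorem modv_rep {G Q : Type u} [Group G] [CommGroup Q] (p : ℕ) (hpow : ∀ x : Q, x ^ p = 1)
    (α : G →* Monoid.End Q) : ∃ (_ : Module (ZMod p) (Additive Q))
      (ρ : Representation (ZMod p) G (Additive Q)),
      ∀ g (x : Q), ρ g (Additive.ofMul x) = Additive.ofMul (α g x) := by
  letI iM : Module (ZMod p) (Additive Q) := AddCommGroup.zmodModule fun x => hpow (Additive.toMul x)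
  obtain ⟨ρ, hρ⟩ := modv_rep' p α
  exact ⟨iM, ρ, hρ⟩

private theorem modv_sec (s : ℕ) [Fact s.Prime] {Γ : Type u} [Group Γ] [Finite Γ] (A B : Subgroup Γ)
    (hA : A.Normal) (hB : B.Normal) (hBA : B ≤ A) (hs : ∀ x ∈ A, x ^ s ∈ B)
    (hc : ∀ x ∈ A, ∀ y ∈ A, ⁅x, y⁆ ∈ B) :
    ∃ (V : Type u) (_ : AddCommGroup V) (_ : Module (ZMod s) V) (_ : Finite V)
      (ρ : Representation (ZMod s) Γ V) (π : A → V), Function.Surjective π ∧
      (∀ x y : A, π x = π y ↔ (x : Γ)⁻¹ * y ∈ B) ∧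
      (∀ (g : Γ) (x : A), ρ g (π x) = π ⟨g * x * g⁻¹, hA.conj_mem x x.2 g⟩) ∧
      (∀ x y : A, π (x * y) = π x + π y) := by
  let N : Subgroup A := B.subgroupOf A
  have hN : N.Normal := Subgroup.normal_subgroupOf
  have hNmem : ∀ w : A, w ∈ N ↔ (w : Γ) ∈ B := fun w => Subgroup.mem_subgroupOf
  have hcomm : ∀ a b : A ⧸ N, a * b = b * a := by
    intro a b
    obtain ⟨w, rfl⟩ := QuotientGroup.mk_surjective a
    obtain ⟨w', rfl⟩ := QuotientGroup.mk_surjective b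
    rw [← QuotientGroup.mk_mul, ← QuotientGroup.mk_mul, QuotientGroup.eq, hNmem]
    have h1 := hc _ (inv_mem w'.2) _ (inv_mem w.2)
    have h2 : ⁅(w' : Γ)⁻¹, (w : Γ)⁻¹⁆ = (((w * w')⁻¹ * (w' * w) : A) : Γ) := by
      rw [commutatorElement_def]
      push_cast
      group
    rwa [h2] at h1
  letI iC : CommGroup (A ⧸ N) := { (inferInstance : Group (A ⧸ N)) with mul_comm := hcomm }
  have hpow : ∀ x : A ⧸ N, x ^ s = 1 := by
    intro x
    obtain ⟨w, rfl⟩ := QuotientGroup.mk_surjective x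
    have h1 : ((w ^ s : A) : A ⧸ N) = 1 := by
      rw [QuotientGroup.eq_one_iff, hNmem]
      exact hs w w.2
    exact h1
  have hmap : ∀ g : Γ, N ≤ N.comap (MulAut.conjNormal g : A ≃* A).toMonoidHom := by
    intro g w hw
    rw [Subgroup.mem_comap, hNmem]
    exact hB.conj_mem _ ((hNmem w).1 hw) g
  let cl : A → A ⧸ N := fun w => QuotientGroup.mk w
  have hcl : ∀ v, ∃ w, cl w = v := fun v => QuotientGroup.mk_surjective v
  have hcleq : ∀ w w' : A, cl w = cl w' ↔ (w : Γ)⁻¹ * w' ∈ B := by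
    intro w w'
    exact QuotientGroup.eq.trans (hNmem _)
  let α₀ : Γ →* Monoid.End (A ⧸ N) :=
    { toFun := fun g => (QuotientGroup.map N N (MulAut.conjNormal g : A ≃* A).toMonoidHom (hmap g) :
        (A ⧸ N) →* (A ⧸ N))
      map_one' := by
        apply MonoidHom.ext
        intro v
        obtain ⟨w, rfl⟩ := hcl v
        show cl (MulAut.conjNormal (1 : Γ) w) = cl w
        rw [map_one]
        rfl
      map_mul' := by
        intro g h
        apply MonoidHom.ext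
        intro v
        obtain ⟨w, rfl⟩ := hcl v
        show cl (MulAut.conjNormal (g * h) w) = cl (MulAut.conjNormal g (MulAut.conjNormal h w))
        rw [map_mul]
        rfl }
  have hα₀ : ∀ g w, α₀ g (cl w) = cl (MulAut.conjNormal g w) := fun g w => rfl
  obtain ⟨iM, ρ, hρ⟩ := modv_rep s hpow α₀
  have hfinV : Finite (Additive (A ⧸ N)) := (inferInstance : Finite (A ⧸ N))
  refine ⟨Additive (A ⧸ N), inferInstance, iM, hfinV, ρ, fun x => Additive.ofMul (cl x),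
    ?_, ?_, ?_, fun x y => rfl⟩
  · intro v
    obtain ⟨v, rfl⟩ := Additive.ofMul.surjective v
    obtain ⟨w, rfl⟩ := hcl v
    exact ⟨w, rfl⟩
  · intro x y
    exact (Additive.ofMul.injective.eq_iff).trans (hcleq x y)
  · intro g x
    show ρ g (Additive.ofMul (cl x)) = Additive.ofMul (cl _)
    rw [hρ, hα₀]
    rfl

theorem modV (p n : ℕ) [Fact p.Prime] (m f : ℕ → ℕ) {Γ : Type u} [Group Γ] [Finite Γ]
    {G R H : Subgroup Γ} {l : ℕ} (h : FHyp p n m f l G R H) (i : ℕ) (hi : 1 ≤ i) (hil : i < l)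
    (M C : Subgroup Γ) (hMP : M ≤ PS p G i) (hMp : ∀ x ∈ PS p G i, x ^ p ∈ M)
    (hMc : ∀ x ∈ PS p G i, ∀ y ∈ PS p G i, ⁅x, y⁆ ∈ M) (hne : ¬ PS p G i ≤ M)
    (hC : ∀ g ∈ C, ∀ x ∈ PS p G i, ⁅g, x⁆ ∈ M) :
    ∃ (V : Type u) (_ : AddCommGroup V) (_ : Module (ZMod p) V) (_ : Finite V)
      (ρ : Representation (ZMod p) Γ V) (φ : V →ₗ[ZMod p] ZMod p), φ ≠ 0 ∧
      (∀ g ∈ C, ∀ v, φ (ρ g v) = φ v) ∧ (∀ g ∈ PS p G i, ρ g = 1) ∧
      (∀ A : Submodule (ZMod p) V, (∀ g ∈ NS p G (i - 1), ∀ v, ρ g v - v ∈ A) → A = ⊤) ∧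
      Nat.card (Fx ρ R) ≤ m (l - i) := by
  obtain ⟨P, hP⟩ : ∃ P, P = PS p G i := ⟨_, rfl⟩
  have hnG : G.Normal := h.nG
  have hPn : P.Normal := by
    have h1 : Nm (⊤ : Subgroup Γ) (PS p G i) := PS_nm (nm_of_normal hnG ⊤) i
    rw [hP]
    exact ⟨fun x hx g => h1 g (mem_top g) x hx⟩
  rw [← hP] at hMP hMp hMc hne hC
  have hK0n : M.normalCore.Normal := inferInstance
  have hK0M : M.normalCore ≤ M := Subgroup.normalCore_le M
  have hK0P : M.normalCore ≤ P := hK0M.trans hMP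
  have hmemK : ∀ x, x ∈ M.normalCore ↔ ∀ b, b * x * b⁻¹ ∈ M := fun x => Iff.rfl
  have hKp : ∀ x ∈ P, x ^ p ∈ M.normalCore := by
    intro x hx
    rw [hmemK]
    intro b
    rw [← conj_pow]
    exact hMp _ (hPn.conj_mem x hx b)
  have hKc : ∀ x ∈ P, ∀ y ∈ P, ⁅x, y⁆ ∈ M.normalCore := by
    intro x hx y hy
    rw [hmemK]
    intro b
    have e : b * ⁅x, y⁆ * b⁻¹ = ⁅b * x * b⁻¹, b * y * b⁻¹⁆ := by
      rw [commutatorElement_def, commutatorElement_def]
      group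
    rw [e]
    exact hMc _ (hPn.conj_mem x hx b) _ (hPn.conj_mem y hy b)
  obtain ⟨V, i1, i2, i3, ρ, π, hsur, heq, hρ, hadd⟩ := modv_sec p P M.normalCore hPn hK0n hK0P hKp hKc
  have hpi1 : π 1 = 0 := by
    have h1 := hadd 1 1
    rw [mul_one] at h1
    exact left_eq_add.1 h1
  have hzero : ∀ x : P, π x = 0 ↔ (x : Γ) ∈ M.normalCore := by
    intro x
    rw [← hpi1, heq]
    rw [OneMemClass.coe_one, mul_one]
    exact inv_mem_iff
  have hinv : ∀ x : P, π x⁻¹ = - π x := by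
    intro x
    have h1 := hadd x⁻¹ x
    rw [inv_mul_cancel, hpi1] at h1
    exact eq_neg_of_add_eq_zero_left h1.symm
  -- the action in terms of the commutator
  have hcomP : ∀ (g : Γ) (x : P), ⁅g, (x : Γ)⁆ ∈ P := by
    intro g x
    rw [commutatorElement_def]
    exact P.mul_mem (hPn.conj_mem x x.2 g) (P.inv_mem x.2)
  have hact : ∀ (g : Γ) (x : P), ρ g (π x) = π ⟨⁅g, (x : Γ)⁆, hcomP g x⟩ + π x := by
    intro g x
    rw [hρ, ← hadd]
    congr 1
    apply Subtype.ext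
    show g * (x : Γ) * g⁻¹ = ⁅g, (x : Γ)⁆ * x
    rw [commutatorElement_def, inv_mul_cancel_right]
  have hfix : ∀ (g : Γ) (x : P), ρ g (π x) = π x ↔ ⁅g, (x : Γ)⁆ ∈ M.normalCore := by
    intro g x
    rw [hact, add_eq_right, hzero]
  -- the subgroup of M
  let VMa : AddSubgroup V :=
    { carrier := {v | ∃ x : P, (x : Γ) ∈ M ∧ π x = v}
      zero_mem' := ⟨1, M.one_mem, hpi1⟩
      add_mem' := by
        rintro _ _ ⟨x, hx, rfl⟩ ⟨y, hy, rfl⟩
        exact ⟨x * y, M.mul_mem hx hy, hadd x y⟩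
      neg_mem' := by
        rintro _ ⟨x, hx, rfl⟩
        exact ⟨x⁻¹, M.inv_mem hx, hinv x⟩ }
  let VM : Submodule (ZMod p) V := AddSubgroup.toZModSubmodule p VMa
  have hVM : ∀ v, v ∈ VM ↔ ∃ x : P, (x : Γ) ∈ M ∧ π x = v := fun v => Iff.rfl
  have hVMlt : VM < ⊤ := by
    rw [lt_top_iff_ne_top]
    intro ht
    apply hne
    intro x hx
    have h1 : π ⟨x, hx⟩ ∈ VM := by rw [ht]; exact Submodule.mem_top
    obtain ⟨y, hy, hyx⟩ := (hVM _).1 h1
    have h2 := (heq y ⟨x, hx⟩).1 hyx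
    have h3 : x = (y : Γ) * ((y : Γ)⁻¹ * x) := by group
    rw [h3]
    exact M.mul_mem hy (hK0M h2)
  obtain ⟨φ, hφ0, hφ⟩ := Submodule.exists_le_ker_of_lt_top VM hVMlt
  refine ⟨V, i1, i2, i3, ρ, φ, hφ0, ?_, ?_, ?_, ?_⟩
  · intro g hg v
    obtain ⟨x, rfl⟩ := hsur v
    rw [hact, map_add]
    have h1 : φ (π ⟨⁅g, (x : Γ)⁆, hcomP g x⟩) = 0 :=
      hφ ((hVM _).2 ⟨_, hC g hg x x.2, rfl⟩)
    rw [h1, zero_add]
  · intro g hg
    rw [← hP] at hg
    apply LinearMap.ext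
    intro v
    obtain ⟨x, rfl⟩ := hsur v
    rw [Module.End.one_apply]
    exact (hfix g x).2 (hKc g hg x x.2)
  · intro A hA
    let M' : Subgroup Γ :=
      { carrier := {x | ∃ hx : x ∈ P, π ⟨x, hx⟩ ∈ A}
        one_mem' := ⟨P.one_mem, by
          have : (⟨1, P.one_mem⟩ : P) = 1 := rfl
          rw [this, hpi1]
          exact A.zero_mem⟩
        mul_mem' := by
          rintro x y ⟨hx, hx'⟩ ⟨hy, hy'⟩
          refine ⟨P.mul_mem hx hy, ?_⟩
          have h1 := hadd ⟨x, hx⟩ ⟨y, hy⟩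
          have h2 : (⟨x * y, P.mul_mem hx hy⟩ : P) = ⟨x, hx⟩ * ⟨y, hy⟩ := rfl
          rw [h2, h1]
          exact A.add_mem hx' hy'
        inv_mem' := by
          rintro x ⟨hx, hx'⟩
          refine ⟨P.inv_mem hx, ?_⟩
          have h2 : (⟨x⁻¹, P.inv_mem hx⟩ : P) = (⟨x, hx⟩ : P)⁻¹ := rfl
          rw [h2, hinv]
          exact A.neg_mem hx' }
    have hM'm : ∀ x, x ∈ M' ↔ ∃ hx : x ∈ P, π ⟨x, hx⟩ ∈ A := fun x => Iff.rfl
    have hi1 : i - 1 + 1 = i := by omega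
    have h1 := ntP p G M' (i - 1) (by
      rw [hi1, ← hP]
      intro x hx
      exact ((hM'm x).1 hx).1) (by
      rw [hi1, ← hP]
      intro x hx
      refine ⟨1, (hM'm _).2 ?_⟩
      rw [pow_one]
      refine ⟨P.pow_mem hx p, ?_⟩
      rw [(hzero ⟨x ^ p, P.pow_mem hx p⟩).2 (hKp x hx)]
      exact A.zero_mem) (by
      rw [hi1, ← hP]
      intro y hy x hx
      refine (hM'm _).2 ⟨hcomP y ⟨x, hx⟩, ?_⟩
      have h2 := hA y hy (π ⟨x, hx⟩)
      rw [hact, add_sub_cancel_right] at h2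
      exact h2)
    rw [hi1, ← hP] at h1
    rw [eq_top_iff]
    intro v _
    obtain ⟨x, rfl⟩ := hsur v
    obtain ⟨_, h2⟩ := (hM'm _).1 (h1 x.2)
    exact h2
  · let C' : Subgroup Γ :=
      { carrier := {x | ∃ hx : x ∈ P, ∀ y ∈ R, ρ y (π ⟨x, hx⟩) = π ⟨x, hx⟩}
        one_mem' := ⟨P.one_mem, fun y _ => by
          have : (⟨1, P.one_mem⟩ : P) = 1 := rfl
          rw [this, hpi1, map_zero]⟩
        mul_mem' := by
          rintro x z ⟨hx, hx'⟩ ⟨hz, hz'⟩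
          refine ⟨P.mul_mem hx hz, fun y hy => ?_⟩
          have h2 : (⟨x * z, P.mul_mem hx hz⟩ : P) = ⟨x, hx⟩ * ⟨z, hz⟩ := rfl
          rw [h2, hadd, map_add, hx' y hy, hz' y hy]
        inv_mem' := by
          rintro x ⟨hx, hx'⟩
          refine ⟨P.inv_mem hx, fun y hy => ?_⟩
          have h2 : (⟨x⁻¹, P.inv_mem hx⟩ : P) = (⟨x, hx⟩ : P)⁻¹ := rfl
          rw [h2, hinv, map_neg, hx' y hy] }
    have hC'm : ∀ x, x ∈ C' ↔ x ∈ P ∧ ∀ y ∈ R, ⁅y, x⁆ ∈ M.normalCore := by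
      intro x
      constructor
      · rintro ⟨hx, hx'⟩
        exact ⟨hx, fun y hy => (hfix y ⟨x, hx⟩).1 (hx' y hy)⟩
      · rintro ⟨hx, hx'⟩
        exact ⟨hx, fun y hy => (hfix y ⟨x, hx⟩).2 (hx' y hy)⟩
    have hcard := h.lh.fx i (l - i) (by omega) M.normalCore (by rw [← hP]; exact hK0P)
      (nm_of_normal hK0n _) (nm_of_normal hK0n _) (by rw [← hP]; exact hKp) (by rw [← hP]; exact hKc) C'
      (by rw [← hP]; exact hC'm)
    refine le_trans ?_ hcard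
    have hch : ∀ v : Fx ρ R, ∃ x : C', ∃ hx : (x : Γ) ∈ P, π ⟨(x : Γ), hx⟩ = v := by
      intro v
      obtain ⟨x, hx⟩ := hsur (v : V)
      have hv : ∀ y ∈ R, ρ y (v : V) = v := v.2
      refine ⟨⟨x, x.2, fun y hy => ?_⟩, x.2, hx⟩
      rw [hx]
      exact hv y hy
    choose g hgP hg using hch
    have hcr : M.normalCore.relIndex C' = Nat.card (C' ⧸ (M.normalCore.subgroupOf C')) := rfl
    rw [hcr]
    refine Nat.card_le_card_of_injective (fun v : Fx ρ R => (QuotientGroup.mk (g v) : C' ⧸ (M.normalCore.subgroupOf C'))) ?_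
    intro v w hvw
    have h1 : ((g v)⁻¹ * g w) ∈ M.normalCore.subgroupOf C' := QuotientGroup.eq.1 hvw
    rw [mem_subgroupOf] at h1
    have h2 : π ⟨(g v : Γ), hgP v⟩ = π ⟨(g w : Γ), hgP w⟩ := (heq _ _).2 h1
    apply Subtype.ext
    rw [← hg v, ← hg w, h2]

end H78CY
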