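import Pool.Agent.H78.CY.PsA
import Pool.Agent.H78.TP.Der

/-!
[H78 CY NPF] No common factor of `P` and `N` (25 min).

PROOF. Suppose `Y = up p Y`, `K ◁ Y` and `Y ≤ dn p Y ⊔ K`. Work in the group `Y`: let `Q = Y ⧸ K'`,
`K' = K.subgroupOf Y` (normal). `Q` is generated by elements of `p`-power order (images of the
generators of `up p Y`), and also by elements of order prime to `p` (images of the generators of
`dn p Y`). The abelianisation `Q / ⁅Q, Q⁆` has both properties; in a commutative group the elements of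
`p`-power order form a subgroup and so do the elements of order prime to `p`, so every element of
`Q / ⁅Q, Q⁆` has `p`-power order and order prime to `p`: `Q = ⁅Q, Q⁆`. `Q` is soluble, so it is trivial
(`IsSolvable.commutator_lt_top_of_nontrivial`).
-/

namespace H78CY

open Subgroup H78TP
open scoped commutatorElement

/-- the elements of `p`-power order in a commutative group -/
private def npf_P (p : ℕ) (A : Type*) [CommGroup A] : Subgroup A where
  carrier := {a | ∃ k : ℕ, a ^ (p ^ k) = 1}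
  one_mem' := ⟨0, one_pow _⟩
  mul_mem' := by
    rintro a b ⟨k, hk⟩ ⟨l, hl⟩
    refine ⟨k + l, ?_⟩
    rw [mul_pow]
    have h1 : a ^ (p ^ (k + l)) = 1 := by rw [pow_add, pow_mul, hk, one_pow]
    have h2 : b ^ (p ^ (k + l)) = 1 := by rw [pow_add, mul_comm, pow_mul, hl, one_pow]
    rw [h1, h2, one_mul]
  inv_mem' := by
    rintro a ⟨k, hk⟩
    exact ⟨k, by rw [inv_pow, hk, inv_one]⟩

/-- the elements of order prime to `p` in a commutative group -/
private def npf_D (p : ℕ) [hp : Fact p.Prime] (A : Type*) [CommGroup A] [Finite A] : Subgroup A where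
  carrier := {a | ∃ t : ℕ, ¬ p ∣ t ∧ a ^ t = 1}
  one_mem' := ⟨1, fun h => hp.out.one_lt.ne' (Nat.dvd_one.1 h), one_pow _⟩
  mul_mem' := by
    rintro a b ⟨k, hk, hk'⟩ ⟨l, hl, hl'⟩
    refine ⟨k * l, fun h => ?_, ?_⟩
    · rcases (Nat.Prime.dvd_mul hp.out).1 h with h | h
      · exact hk h
      · exact hl h
    · rw [mul_pow, pow_mul, hk', one_pow, mul_comm k l, pow_mul, hl', one_pow, one_mul]
  inv_mem' := by
    rintro a ⟨k, hk, hk'⟩
    exact ⟨k, hk, by rw [inv_pow, hk', inv_one]⟩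

theorem npf {Γ : Type*} [Group Γ] (p : ℕ) [Fact p.Prime] [Finite Γ]
    (hs : Group.IsSolvable Γ) (Y K : Subgroup Γ) (hY : up p Y = Y) (hKY : K ≤ Y) (nK : Nm Y K)
    (h : Y ≤ dn p Y ⊔ K) : Y ≤ K := by
  have hp : p.Prime := Fact.out
  have hKn : (K.subgroupOf Y).Normal := ⟨fun a ha y => by
    rw [Subgroup.mem_subgroupOf] at ha ⊢
    exact nK y y.2 _ ha⟩
  have hsY : Group.IsSolvable Y := inferInstance
  have hsQ : Group.IsSolvable (Y ⧸ K.subgroupOf Y) := inferInstance
  have hA : ∀ y : Y, (Abelianization.of (QuotientGroup.mk' (K.subgroupOf Y) y) :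
      Abelianization (Y ⧸ K.subgroupOf Y)) = 1 := by
    obtain ⟨f, hf⟩ : ∃ f : Y →* Abelianization (Y ⧸ K.subgroupOf Y),
      f = Abelianization.of.comp (QuotientGroup.mk' (K.subgroupOf Y)) := ⟨_, rfl⟩
    have h1 : Y ≤ ((npf_P p (Abelianization (Y ⧸ K.subgroupOf Y))).comap f).map Y.subtype := by
      conv_lhs => rw [← hY]
      refine (Subgroup.closure_le _).2 ?_
      rintro x ⟨hx, k, hk⟩
      refine ⟨⟨x, hx⟩, ⟨k, ?_⟩, rfl⟩
      rw [← map_pow]
      have e : (⟨x, hx⟩ : Y) ^ (p ^ k) = 1 := Subtype.ext hk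
      rw [e, map_one]
    have h2 : dn p Y ≤ ((npf_D p (Abelianization (Y ⧸ K.subgroupOf Y))).comap f).map Y.subtype := by
      refine (Subgroup.closure_le _).2 ?_
      rintro x ⟨hx, hk⟩
      refine ⟨⟨x, hx⟩, ⟨orderOf x, hk, ?_⟩, rfl⟩
      rw [← map_pow]
      have e : (⟨x, hx⟩ : Y) ^ (orderOf x) = 1 := Subtype.ext (pow_orderOf_eq_one x)
      rw [e, map_one]
    have h3 : K ≤ ((npf_D p (Abelianization (Y ⧸ K.subgroupOf Y))).comap f).map Y.subtype := by
      intro x hx
      refine ⟨⟨x, hKY hx⟩, ?_, rfl⟩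
      have e : f ⟨x, hKY hx⟩ = 1 := by
        rw [hf, MonoidHom.comp_apply]
        have e2 : QuotientGroup.mk' (K.subgroupOf Y) ⟨x, hKY hx⟩ = 1 := by
          rw [QuotientGroup.mk'_apply, QuotientGroup.eq_one_iff]
          exact hx
        rw [e2, map_one]
      show f ⟨x, hKY hx⟩ ∈ npf_D p (Abelianization (Y ⧸ K.subgroupOf Y))
      rw [e]
      exact Subgroup.one_mem _
    have h4 := h.trans (sup_le h2 h3)
    intro y
    obtain ⟨z, hz, hzy⟩ := h1 y.2
    obtain ⟨z', hz', hzy'⟩ := h4 y.2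
    have ez : z = y := Subtype.ext hzy
    have ez' : z' = y := Subtype.ext hzy'
    rw [ez] at hz
    rw [ez'] at hz'
    obtain ⟨k, hk⟩ := hz
    obtain ⟨t, ht, ht'⟩ := hz'
    have hcop : Nat.Coprime (p ^ k) t :=
      Nat.Coprime.pow_left k ((Nat.Prime.coprime_iff_not_dvd hp).2 ht)
    have h5 : orderOf (f y) ∣ p ^ k := orderOf_dvd_of_pow_eq_one hk
    have h6 : orderOf (f y) ∣ t := orderOf_dvd_of_pow_eq_one ht'
    have h7 : orderOf (f y) = 1 := Nat.dvd_one.1 (hcop ▸ Nat.dvd_gcd h5 h6)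
    rw [← MonoidHom.comp_apply, ← hf]
    exact orderOf_eq_one_iff.1 h7
  have hsub : Subsingleton (Y ⧸ K.subgroupOf Y) := by
    by_contra hns
    rw [not_subsingleton_iff_nontrivial] at hns
    have hlt := Group.IsSolvable.commutator_lt_top_of_nontrivial (Y ⧸ K.subgroupOf Y)
    apply hlt.ne
    rw [eq_top_iff]
    intro q _
    obtain ⟨y, rfl⟩ := QuotientGroup.mk'_surjective (K.subgroupOf Y) q
    have h8 := hA y
    rw [← MonoidHom.mem_ker, Abelianization.ker_of] at h8
    exact h8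
  intro x hx
  have h9 : QuotientGroup.mk' (K.subgroupOf Y) ⟨x, hx⟩ = 1 := Subsingleton.elim _ _
  rw [QuotientGroup.mk'_apply, QuotientGroup.eq_one_iff] at h9
  exact h9

end H78CY
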