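import Pool.Agent.H78.CY.InqG

/-!
[H78 CY PH] Inheritance of `PHyp` to factor groups and to subgroups (40 min).

PROOFS. `ph_nh`: `P` is nilpotent (finite `p`-group), `nil_sup`, `cc_sup`. `ph_map`: `inqH` for
`H = P ⊔ R` (`ph_nh`), `Subgroup.map_sup`, `cc_sup`; `|R.map f|` divides `|R|`; images of `p`-groups,
nilpotent, soluble groups; orders of images. `ph_sub`: `Y.subtype` is injective and maps
`CC (P.subgroupOf Y) (R.subgroupOf Y)` into `CC P R`; `RB` goes down (the images of `U`, `V` have the same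
relative index: `Subgroup.relIndex_map_map_of_injective`, see `fing_kj` in `TP/FinG.lean`);
`P.subgroupOf Y ≃* P` etc. (`Subgroup.subgroupOfEquivOfLe`),
`P.subgroupOf Y ⊔ R.subgroupOf Y = (P ⊔ R).subgroupOf Y` (`Subgroup.subgroupOf_sup`).
-/

namespace H78CY

open Subgroup H78TP
open scoped commutatorElement

theorem ph_nh {p n n' m j : ℕ} [Fact p.Prime] {F : Type*} [Group F] [Finite F]
    {P R : Subgroup F} (h : PHyp p n n' m j F P R) : NHyp n m j F (P ⊔ R) :=
  ⟨h.sol, nil_sup P R h.hP.isNilpotent h.nR h.comm, h.cH, fun s hs => by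
    rw [← cc_sup]
    exact h.kj s hs⟩

theorem ph_map {p n n' m j t : ℕ} [Fact p.Prime] {F F' : Type*} [Group F] [Finite F]
    [Group F'] (f : F →* F') (hf : Function.Surjective f) {P R : Subgroup F}
    (h : PHyp p n n' m j F P R) (hk : lns f.ker t = ⊥) :
    PHyp p n n' m (inHn n m t j) F' (P.map f) (R.map f) := by
  have hsol := h.sol
  have hnR := h.nR
  have h2 := inqH n m t j f hf (P ⊔ R) (ph_nh h).nil h.cH hk (ph_nh h).kn
  refine ⟨Group.isSolvable_of_surjective hf, h.hP.map f, fun hd => h.hR (hd.trans ?_), ?_, ?_,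
    ?_, ?_, ?_⟩
  · exact Subgroup.card_dvd_of_surjective (f.subgroupMap R) (f.subgroupMap_surjective R)
  · exact Group.nilpotent_of_surjective (f.subgroupMap R) (f.subgroupMap_surjective R)
  · rintro _ ⟨x, hx, rfl⟩ _ ⟨y, hy, rfl⟩
    rw [← map_mul, ← map_mul, h.comm x hx y hy]
  · rw [← Subgroup.map_sup]
    exact (Nat.card_le_card_of_surjective (f.subgroupMap (P ⊔ R))
      (f.subgroupMap_surjective (P ⊔ R))).trans h.cH
  · exact (Nat.card_le_card_of_surjective (f.subgroupMap R) (f.subgroupMap_surjective R)).trans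
      h.cR
  · intro s hs
    rw [cc_sup, ← Subgroup.map_sup]
    exact h2 s hs

theorem ph_sub {p n n' m j : ℕ} {F : Type*} [Group F] [Finite F]
    {P R : Subgroup F} (h : PHyp p n n' m j F P R) (Y : Subgroup F) (hP : P ≤ Y) (hR : R ≤ Y) :
    PHyp p n n' m j Y (P.subgroupOf Y) (R.subgroupOf Y) := by
  have hsol := h.sol
  have hnR := h.nR
  have eP : P.subgroupOf Y ≃* P := Subgroup.subgroupOfEquivOfLe hP
  have eR : R.subgroupOf Y ≃* R := Subgroup.subgroupOfEquivOfLe hR
  have eH : (P ⊔ R).subgroupOf Y ≃* (P ⊔ R : Subgroup F) :=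
    Subgroup.subgroupOfEquivOfLe (sup_le hP hR)
  refine ⟨inferInstance, h.hP.of_equiv eP.symm, ?_, Group.nilpotent_of_mulEquiv eR.symm, ?_, ?_,
    ?_, ?_⟩
  · rw [Nat.card_congr eR.toEquiv]
    exact h.hR
  · intro x hx y hy
    exact Subtype.ext (h.comm x hx y hy)
  · rw [← Subgroup.subgroupOf_sup hP hR, Nat.card_congr eH.toEquiv]
    exact h.cH
  · rw [Nat.card_congr eR.toEquiv]
    exact h.cR
  · intro s hs U V hVU hU h1 h2
    have hC : (CC (P.subgroupOf Y) (R.subgroupOf Y)).map Y.subtype ≤ CC P R := by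
      rintro _ ⟨c, hc, rfl⟩
      constructor
      · show (c : F) ∈ centralizer (P : Set F)
        rw [mem_centralizer_iff]
        intro x hx
        exact congrArg Subtype.val (mem_centralizer_iff.1 hc.1 ⟨x, hP hx⟩ hx)
      · show (c : F) ∈ centralizer (R : Set F)
        rw [mem_centralizer_iff]
        intro x hx
        exact congrArg Subtype.val (mem_centralizer_iff.1 hc.2 ⟨x, hR hx⟩ hx)
    have h3 := h.kj s hs (U.map Y.subtype) (V.map Y.subtype) (map_mono hVU)
      ((map_mono hU).trans hC)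
      (by
        rintro _ ⟨x, hx, rfl⟩
        exact ⟨x ^ s, h1 x hx, map_pow _ _ _⟩)
      (by
        rintro _ ⟨x, hx, rfl⟩ _ ⟨y, hy, rfl⟩
        exact ⟨⁅x, y⁆, h2 x hx y hy, map_commutatorElement _ _ _⟩)
    rwa [Subgroup.relIndex_map_map_of_injective _ _ Y.subtype_injective] at h3

end H78CY
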