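import Pool.Agent.H78.CY.PsB
import Pool.Agent.H78.CY.PsM
import Pool.Agent.H78.TP.Der

/-!
[H78 CY PSI] A subgroup of small index contains a bounded term of the lower `p`-series (40 min).

PROOF. `PS_index`: `π : Γ → Γ ⧸ M`. Claim: if `PS p G (a + 1)` is not contained in `M` then the image
of `PS p G (a + 1)` is a proper subgroup of the image of `PS p G a`. Otherwise the image `I ≠ ⊥` of
`PS p G a` equals the image of `NS p G a`, so `I` is generated by elements of `p`-power order (images
of such elements) and also by elements of order prime to `p`. `I` is soluble and nontrivial, so it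
has a normal subgroup of prime index `q` (or: `I / ⁅I, I⁆` is a nontrivial abelian group; generated by
elements of `p`-power order it is a `p`-group, generated by elements of order prime to `p` it has
order prime to `p`: contradiction. This is simpler: in a finite commutative group the elements of
`p`-power order form a subgroup and so do the elements of order prime to `p`). So if
`PS p G s` is not in `M` then the images of `PS p G 0, ..., PS p G s` form a strictly decreasing chain
of `s + 1` nontrivial subgroups of `Γ ⧸ M`, whose order is `≤ s`: contradiction (the orders are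
strictly decreasing numbers `≥ 2`, the first is `≤ s`; so `Nat.card (image of PS p G t) + t ≤ s`).
`PS_index'`: apply `PS_index` to `M = L.normalCore`, whose index divides/is at most `L.index !`
(`Γ ⧸ L.normalCore` embeds in `Equiv.Perm (Γ ⧸ L)`; see `Subgroup.normalCore_eq_ker`,
`Subgroup.index_normalCore_dvd` or similar), and `PS_anti`.
-/

namespace H78CY

open Subgroup H78TP
open scoped commutatorElement

variable {Γ : Type*} [Group Γ] {p : ℕ}

private theorem psi_comm [hp : Fact p.Prime] (I : Subgroup Γ) (hu : up p I = I) (hd : dn p I = I) :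
    I ≤ ⁅I, I⁆ := by
  obtain ⟨T, hT⟩ : ∃ T : Subgroup (Abelianization ↥I), ∀ a, a ∈ T ↔ ∃ m : ℕ, ¬ p ∣ m ∧ a ^ m = 1 := by
    refine ⟨⟨⟨⟨{a | ∃ m : ℕ, ¬ p ∣ m ∧ a ^ m = 1}, ?_⟩, ?_⟩, ?_⟩, fun a => Iff.rfl⟩
    · rintro a b ⟨m, hm, ha⟩ ⟨n, hn, hb⟩
      refine ⟨m * n, fun h => ?_, ?_⟩
      · rcases (Nat.Prime.dvd_mul hp.out).1 h with h | h
        · exact hm h
        · exact hn h
      · rw [mul_pow, pow_mul, ha, one_pow, one_mul, mul_comm m n, pow_mul, hb, one_pow]
    · exact ⟨1, hp.out.not_dvd_one, one_pow _⟩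
    · rintro a ⟨m, hm, ha⟩
      exact ⟨m, hm, by rw [inv_pow, ha, inv_one]⟩
  obtain ⟨f, hf⟩ : ∃ f : ↥I →* Abelianization ↥I, f = Abelianization.of := ⟨_, rfl⟩
  have h1 : ∀ x : ↥I, f x ∈ T := by
    have h2 : I ≤ (T.comap f).map I.subtype := by
      calc I = dn p I := hd.symm
        _ ≤ _ := by
          unfold dn
          rw [closure_le]
          rintro x ⟨hx, hxo⟩
          refine ⟨⟨x, hx⟩, ?_, rfl⟩
          show f ⟨x, hx⟩ ∈ T
          rw [hT]
          refine ⟨orderOf x, hxo, ?_⟩
          rw [← map_pow]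
          have : (⟨x, hx⟩ : ↥I) ^ (orderOf x) = 1 := Subtype.ext (by rw [SubmonoidClass.coe_pow]; exact pow_orderOf_eq_one x)
          rw [this, map_one]
    intro x
    obtain ⟨y, hy, he⟩ := h2 x.2
    have : y = x := Subtype.ext he
    rw [← this]
    exact hy
  have h3 : f.ker.map I.subtype = ⁅I, I⁆ := by
    rw [hf, Abelianization.ker_of, commutator_def, Subgroup.map_commutator, ← MonoidHom.range_eq_map, Subgroup.range_subtype]
  calc I = up p I := hu.symm
    _ ≤ f.ker.map I.subtype := by
      unfold up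
      rw [closure_le]
      rintro x ⟨hx, k, hk⟩
      refine ⟨⟨x, hx⟩, ?_, rfl⟩
      show f ⟨x, hx⟩ = 1
      obtain ⟨m, hm, hm1⟩ := (hT _).1 (h1 ⟨x, hx⟩)
      have h4 : f ⟨x, hx⟩ ^ (p ^ k) = 1 := by
        rw [← map_pow]
        have : (⟨x, hx⟩ : ↥I) ^ (p ^ k) = 1 := Subtype.ext (by rw [SubmonoidClass.coe_pow]; exact hk)
        rw [this, map_one]
      have h5 : Nat.Coprime (p ^ k) m := Nat.Coprime.pow_left k ((Nat.Prime.coprime_iff_not_dvd hp.out).2 hm)
      have h6 : orderOf (f ⟨x, hx⟩) ∣ 1 := by
        rw [← h5.gcd_eq_one]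
        exact Nat.dvd_gcd (orderOf_dvd_of_pow_eq_one h4) (orderOf_dvd_of_pow_eq_one hm1)
      exact orderOf_eq_one_iff.1 (Nat.dvd_one.1 h6)
    _ = ⁅I, I⁆ := h3

private theorem psi_bot [Finite Γ] [hp : Fact p.Prime] (hs : Group.IsSolvable Γ) (I : Subgroup Γ) (hu : up p I = I)
    (hd : dn p I = I) : I = ⊥ := by
  have h1 : ⁅I, I⁆ = I := le_antisymm (Subgroup.commutator_le_self I) (psi_comm I hu hd)
  have h2 : ∀ n, dS I n = I := by
    intro n
    induction n with
    | zero => rfl
    | succ n ih => rw [dS_succ, ih, h1]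
  have h3 := der I (solv_sub hs I) (Nat.card I) le_rfl
  rw [← h2 (Nat.card I), h3]

private theorem psi_key [Finite Γ] [hp : Fact p.Prime] (hs : Group.IsSolvable Γ) (G : Subgroup Γ) (t : ℕ) :
    PS p G t = ⊥ ∨ Nat.card (PS p G t) + t ≤ Nat.card Γ := by
  induction t with
  | zero => exact Or.inr (Subgroup.card_le_card_group _)
  | succ t ih =>
    rcases ih with h | h
    · left
      rw [eq_bot_iff, ← h]
      exact PS_anti G (Nat.le_succ t)
    · by_cases h0 : PS p G (t + 1) = ⊥
      · exact Or.inl h0
      · right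
        have h1 : Nat.card (PS p G (t + 1)) < Nat.card (PS p G t) := by
          by_contra h2
          have h3 : PS p G (t + 1) = PS p G t :=
            Subgroup.eq_of_le_of_card_ge (PS_anti G (Nat.le_succ t)) (not_lt.1 h2)
          have h4 : NS p G t = PS p G t := by
            apply le_antisymm (NS_le_PS G t)
            calc PS p G t = PS p G (t + 1) := h3.symm
              _ ≤ NS p G t := PS_succ_le_NS G t
          apply h0
          rw [h3]
          exact psi_bot hs _ (PS_up G t) h4
        omega

theorem PS_index [Finite Γ] [Fact p.Prime] (hs : Group.IsSolvable Γ) (G M : Subgroup Γ)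
    (hM : M.Normal) (s : ℕ) (h : M.index ≤ s) : PS p G s ≤ M := by
  have h1 := psi_key (p := p) (Γ := Γ ⧸ M) (solv_map (QuotientGroup.mk' M) (QuotientGroup.mk'_surjective M) hs)
    (G.map (QuotientGroup.mk' M)) s
  rw [← PS_map] at h1
  have h2 : (PS p G s).map (QuotientGroup.mk' M) = ⊥ := by
    rcases h1 with h1 | h1
    · exact h1
    · exfalso
      have h3 : Nat.card (Γ ⧸ M) = M.index := rfl
      have h4 : 0 < Nat.card ((PS p G s).map (QuotientGroup.mk' M)) := Nat.card_pos
      omega
  rw [Subgroup.map_eq_bot_iff, QuotientGroup.ker_mk'] at h2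
  exact h2

theorem PS_index' [Finite Γ] [Fact p.Prime] (hs : Group.IsSolvable Γ) (G L : Subgroup Γ)
    (s : ℕ) (h : L.index ≤ s) : PS p G s.factorial ≤ L := by
  refine (PS_index hs G L.normalCore inferInstance s.factorial ?_).trans (Subgroup.normalCore_le L)
  rw [Subgroup.normalCore_eq_ker, Subgroup.index_ker]
  refine (Subgroup.card_le_card_group _).trans ?_
  rw [Nat.card_perm]
  exact Nat.factorial_le h

end H78CY
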