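import Pool.Agent.H78.CY.WfB
import Pool.Agent.H78.CY.PsK
import Pool.Agent.H78.CY.Cc

/-!
[H78 CY STE] STEP E, the group theoretic facts (60 min).

NOTATION. `La = sW τ V ⊓ rgSt τ a`, `M = D ⊓ La`, `Z0 = Z ⊔ M`.
PROOFS. `sW τ V` normalises `D` (`nDV`), `D ≤ E ≤ sW τ V` (`EV`, `DE`). (e1) `Nm La D`. (e2) `⁅x, y⁆ ∈ M`
for `x, y ∈ D`: it is in `Z ≤ D ≤ sW τ V` (`h.z.com`) and acts on `a ∈ V` as `lam ⁅x, y⁆ = 1`. So (e3)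
`Nm D M`. (e4) `Z0 ≤ D`. (e5) `x ^ r ∈ Z ≤ Z0`. (e6) for `g ∈ D ⊔ La ≤ sW τ V` and `z ∈ Z`: `⁅g, z⁆ ∈ Z` acts
on `a` as `lam (g z g⁻¹) lam (z)⁻¹ = 1` (`sWV`), so `⁅g, z⁆ ∈ M`; for `y ∈ M`: `⁅g, y⁆ ∈ M` since `g`
normalises `M` (`D` does by (e3), `La` normalises `D` and `La`). In general `Z0 = Z M` (`Z` normal) and
`⁅g, z y⁆ = ⁅g, z⁆ z ⁅g, y⁆ z⁻¹`, `Z ≤ D` normalises `M`. (e7) `Nm (D ⊔ La) Z0`: `g x g⁻¹ = ⁅g, x⁆ x`.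
(e8) `C ≤ sW τ W`: let `g ∈ C`, `g = d g₁` with `d ∈ D`, `g₁ ∈ La` (`La` normalises `D`). For `x ∈ D`:
`⁅g, x⁆ = d ⁅g₁, x⁆ d⁻¹ ⁅d, x⁆`, where `y = ⁅g₁, x⁆ ∈ D`; on `V` the elements of `D` commute
(`d_comm`) and `⁅d, x⁆` acts trivially, so `τ ⁅g, x⁆ a = τ y a` and therefore `τ y a = a`. As `a = w + w'`,
`τ y w = mu y • w`, `τ y w' ∈ WC τ D V mu` (`wc_scal`), `w ≠ 0`: `mu y = 1` (`wc_disj`). So
`mu (g₁ x g₁⁻¹) = mu (y x) = mu x` for all `x ∈ D` (`wt_mul`), i.e. `g₁⁻¹ ∈ sW τ W` (`sWW`); `d ∈ D ≤ E ≤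
sW τ W` (`EW`). So `g ∈ sW τ W`.
(e9) `fixW`: if `g ∈ sW τ W` and `τ g a = a` then `τ g w = w`: `g` normalises `D` (both directions), it
preserves `V` (`WleV`), `cjf g mu = mu` (`sWW'`), so `wc_inv` and `wc_disj`.
(e10) Let `T0 ≤ sW τ W` and suppose `PS p G (i - 1) ≤ D ⊔ La`. Every `t ∈ PS p G (i - 1) ≤ T0` is `d g₁`
with `d ∈ D`, `g₁ ∈ La`; `t, d ∈ sW τ W`, so `g₁ ∈ sW τ W`, `g₁` fixes `w` by (e9), and `τ t w = τ d w =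
mu d • w`. By `PS_eig` `PS p G (i - 1)` fixes `w`, so does `NS p G (i - 1)`, and `w = 0` by `nofix`:
contradiction.
-/

namespace H78CY

open Subgroup H78TP
open scoped commutatorElement

variable {k Γ U : Type*} [Field k] [Group Γ] [AddCommGroup U] [Module k U]


variable {p r i : ℕ} {τ : Representation k Γ U} {G T0 Z E D : Subgroup Γ} {lam mu : Γ → k}
  {V W : Submodule k U}

private theorem ste_cj [Finite Γ] (h : WHyp p r τ G i T0 Z E lam mu D V W) {g : Γ}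
    (hg : g ∈ sW τ V) : ∀ t, t ∈ D ↔ g⁻¹ * t * g ∈ D := by
  intro t
  constructor
  · intro ht
    have h4 := nDV h g⁻¹ ((sW τ V).inv_mem hg) t ht
    rwa [inv_inv] at h4
  · intro ht
    have h4 := nDV h g hg _ ht
    have e : g * (g⁻¹ * t * g) * g⁻¹ = t := by group
    rwa [e] at h4

theorem fixW [Finite Γ] (h : WHyp p r τ G i T0 Z E lam mu D V W) (a w w' : U)
    (haw : a = w + w') (hw : w ∈ W) (hw' : w' ∈ WC τ D V mu) {g : Γ} (h1 : τ g a = a)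
    (h2 : g ∈ sW τ W) : τ g w = w := by
  have hgV := WleV h h2
  have h5 : τ g w' ∈ WC τ D V mu :=
    wc_inv (ste_cj h hgV) (fun v hv => (hgV v).2 hv) ((sWW' h g).1 h2).2 hw'
  have h6 : τ g w ∈ W := (h2 w).2 hw
  rw [haw, map_add] at h1
  have h7 : τ g w - w = w' - τ g w' := by
    rw [sub_eq_sub_iff_add_eq_add, h1, add_comm]
  have h8 : τ g w - w ∈ WC τ D V mu := by
    rw [h7]
    exact Submodule.sub_mem _ hw' h5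
  have h9 : τ g w - w ∈ WS τ D V mu := by
    rw [← h.hW]
    exact Submodule.sub_mem _ h6 hw
  exact sub_eq_zero.1 (wc_disj τ D V h.hm h9 h8)

private theorem ste_DV [Finite Γ] (h : WHyp p r τ G i T0 Z E lam mu D V W) : D ≤ sW τ V := by
  rw [h.hV]
  exact (DE h).trans (EV h.z h.hl)

/-- `⁅x, y⁆` acts trivially on `V` for `x, y ∈ D` -/
private theorem ste_e2 [Finite Γ] (h : WHyp p r τ G i T0 Z E lam mu D V W) {x y : Γ} (hx : x ∈ D)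
    (hy : y ∈ D) : ⁅x, y⁆ ∈ Z ∧ ∀ v ∈ V, τ ⁅x, y⁆ v = v := by
  have h1 : ⁅x, y⁆ ∈ Z := h.z.com x (DE h hx) y (DE h hy)
  refine ⟨h1, fun v hv => ?_⟩
  rw [V_scal h _ h1 v hv, ((h.hD x).1 hx).2 y (DE h hy), one_smul]

theorem stE [Finite Γ] (h : WHyp p r τ G i T0 Z E lam mu D V W) (a : U) (ha : a ∈ V) :
    Nm (sW τ V ⊓ rgSt τ a) D ∧ Nm D (D ⊓ (sW τ V ⊓ rgSt τ a)) ∧
    (∀ x ∈ D, ∀ y ∈ D, ⁅x, y⁆ ∈ D ⊓ (sW τ V ⊓ rgSt τ a)) ∧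
    Z ⊔ (D ⊓ (sW τ V ⊓ rgSt τ a)) ≤ D ∧
    Nm (D ⊔ (sW τ V ⊓ rgSt τ a)) (Z ⊔ (D ⊓ (sW τ V ⊓ rgSt τ a))) ∧
    (∀ x ∈ D, x ^ r ∈ Z ⊔ (D ⊓ (sW τ V ⊓ rgSt τ a))) ∧
    (∀ g ∈ D ⊔ (sW τ V ⊓ rgSt τ a), ∀ z ∈ Z ⊔ (D ⊓ (sW τ V ⊓ rgSt τ a)),
      ⁅g, z⁆ ∈ D ⊓ (sW τ V ⊓ rgSt τ a)) := by
  have hDV := ste_DV h
  have hZn := zNormal h.z
  have hZD := ZD h
  have e1 : Nm (sW τ V ⊓ rgSt τ a) D := nm_mono (nDV h) inf_le_left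
  have e2 : ∀ x ∈ D, ∀ y ∈ D, ⁅x, y⁆ ∈ D ⊓ (sW τ V ⊓ rgSt τ a) := by
    intro x hx y hy
    have h1 := ste_e2 h hx hy
    exact ⟨hZD h1.1, hDV (hZD h1.1), h1.2 a ha⟩
  have e3 : Nm D (D ⊓ (sW τ V ⊓ rgSt τ a)) := by
    intro y hy x hx
    have h1 := e2 y hy x hx.1
    have e : y * x * y⁻¹ = ⁅y, x⁆ * x := by
      rw [commutatorElement_def]
      group
    rw [e]
    exact (D ⊓ (sW τ V ⊓ rgSt τ a)).mul_mem h1 hx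
  have e4 : Z ⊔ (D ⊓ (sW τ V ⊓ rgSt τ a)) ≤ D := sup_le hZD inf_le_left
  have hY : D ⊔ (sW τ V ⊓ rgSt τ a) ≤ sW τ V := sup_le hDV inf_le_left
  have nYM : Nm (D ⊔ (sW τ V ⊓ rgSt τ a)) (D ⊓ (sW τ V ⊓ rgSt τ a)) :=
    nm_left e3 (nm_inf e1 (nm_self _))
  have e6 : ∀ g ∈ D ⊔ (sW τ V ⊓ rgSt τ a), ∀ z ∈ Z ⊔ (D ⊓ (sW τ V ⊓ rgSt τ a)),
      ⁅g, z⁆ ∈ D ⊓ (sW τ V ⊓ rgSt τ a) := by
    intro g hg z hz
    rw [Subgroup.mem_sup_of_normal_left] at hz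
    obtain ⟨z, hz, y, hy, rfl⟩ := hz
    have h1 : ⁅g, z⁆ ∈ D ⊓ (sW τ V ⊓ rgSt τ a) := by
      have h2 : ⁅g, z⁆ ∈ Z := by
        rw [commutatorElement_def]
        exact Z.mul_mem (hZn.conj_mem z hz g) (Z.inv_mem hz)
      refine ⟨hZD h2, hDV (hZD h2), ?_⟩
      show τ ⁅g, z⁆ a = a
      have h3 : g⁻¹ ∈ sW τ (WS τ Z ⊤ lam) := by
        rw [← h.hV]
        exact (sW τ V).inv_mem (hY hg)
      rw [sWV h.z h.hl] at h3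
      have h4 := h3 z hz
      rw [inv_inv] at h4
      have h5 : ⁅g, z⁆ * z = g * z * g⁻¹ := by
        rw [commutatorElement_def]
        group
      have h6 := wt_mul h.hl h2 hz
      rw [h5, h4] at h6
      have h7 : lam z ≠ 0 := wt_ne h.hl hz
      have h8 : lam ⁅g, z⁆ = 1 := by
        have h9 : lam ⁅g, z⁆ * lam z = 1 * lam z := by rw [one_mul]; exact h6.symm
        exact mul_right_cancel₀ h7 h9
      rw [V_scal h _ h2 a ha, h8, one_smul]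
    have h2 : ⁅g, y⁆ ∈ D ⊓ (sW τ V ⊓ rgSt τ a) := by
      rw [commutatorElement_def]
      exact (D ⊓ (sW τ V ⊓ rgSt τ a)).mul_mem (nYM g hg y hy)
        ((D ⊓ (sW τ V ⊓ rgSt τ a)).inv_mem hy)
    have e : ⁅g, z * y⁆ = ⁅g, z⁆ * (z * ⁅g, y⁆ * z⁻¹) := by
      rw [commutatorElement_def, commutatorElement_def, commutatorElement_def]
      group
    rw [e]
    exact (D ⊓ (sW τ V ⊓ rgSt τ a)).mul_mem h1 (e3 z (hZD hz) _ h2)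
  refine ⟨e1, e3, e2, e4, ?_, ?_, e6⟩
  · intro g hg x hx
    have h1 := e6 g hg x hx
    have e : g * x * g⁻¹ = ⁅g, x⁆ * x := by
      rw [commutatorElement_def]
      group
    rw [e]
    exact (Z ⊔ (D ⊓ (sW τ V ⊓ rgSt τ a))).mul_mem
      ((le_sup_right : D ⊓ (sW τ V ⊓ rgSt τ a) ≤ Z ⊔ (D ⊓ (sW τ V ⊓ rgSt τ a))) h1) hx
  · intro x hx
    exact (le_sup_left : Z ≤ Z ⊔ (D ⊓ (sW τ V ⊓ rgSt τ a))) (h.z.pow x (DE h hx))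

/-- elements of `D ⊔ La` are products -/
private theorem ste_mem [Finite Γ] (h : WHyp p r τ G i T0 Z E lam mu D V W) (a : U) {g : Γ}
    (hg : g ∈ D ⊔ (sW τ V ⊓ rgSt τ a)) :
    ∃ d ∈ D, ∃ g₁ ∈ sW τ V ⊓ rgSt τ a, g = d * g₁ := by
  have hDV := ste_DV h
  obtain ⟨S, hS⟩ : ∃ S : Subgroup Γ, ∀ x, x ∈ S ↔
      ∃ d ∈ D, ∃ g₁ ∈ sW τ V ⊓ rgSt τ a, x = d * g₁ := by
    refine ⟨⟨⟨⟨{x | ∃ d ∈ D, ∃ g₁ ∈ sW τ V ⊓ rgSt τ a, x = d * g₁}, ?_⟩, ?_⟩, ?_⟩,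
      fun x => Iff.rfl⟩
    · rintro _ _ ⟨d, hd, b, hb, rfl⟩ ⟨d', hd', b', hb', rfl⟩
      refine ⟨d * (b * d' * b⁻¹), D.mul_mem hd (nDV h b hb.1 d' hd'), b * b',
        (sW τ V ⊓ rgSt τ a).mul_mem hb hb', ?_⟩
      group
    · exact ⟨1, D.one_mem, 1, (sW τ V ⊓ rgSt τ a).one_mem, (mul_one 1).symm⟩
    · rintro _ ⟨d, hd, b, hb, rfl⟩
      have hb' := (sW τ V ⊓ rgSt τ a).inv_mem hb
      refine ⟨b⁻¹ * d⁻¹ * b⁻¹⁻¹, nDV h b⁻¹ hb'.1 _ (D.inv_mem hd), b⁻¹, hb', ?_⟩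
      group
  rw [← hS]
  refine (sup_le ?_ ?_ : D ⊔ (sW τ V ⊓ rgSt τ a) ≤ S) hg
  · intro d hd
    rw [hS]
    exact ⟨d, hd, 1, (sW τ V ⊓ rgSt τ a).one_mem, (mul_one d).symm⟩
  · intro b hb
    rw [hS]
    exact ⟨1, D.one_mem, b, hb, (one_mul b).symm⟩

theorem stE8 [Finite Γ] (h : WHyp p r τ G i T0 Z E lam mu D V W) (a w w' : U) (ha : a ∈ V)
    (haw : a = w + w') (hw : w ∈ W) (hw' : w' ∈ WC τ D V mu) (hw0 : w ≠ 0) (C : Subgroup Γ)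
    (hC : IsCc (D ⊔ (sW τ V ⊓ rgSt τ a)) D (D ⊓ (sW τ V ⊓ rgSt τ a)) C) : C ≤ sW τ W := by
  have hDW : D ≤ sW τ W := (DE h).trans (EW h)
  intro g hg
  obtain ⟨hg1, hg2⟩ := (hC g).1 hg
  obtain ⟨d, hd, g₁, hg₁, rfl⟩ := ste_mem h a hg1
  refine (sW τ W).mul_mem (hDW hd) ?_
  have h3 : g₁⁻¹ ∈ sW τ W := by
    rw [sWW h]
    refine ⟨(sW τ V).inv_mem hg₁.1, fun x hx => ?_⟩
    obtain ⟨y, hy⟩ : ∃ y, y = ⁅g₁, x⁆ := ⟨_, rfl⟩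
    have hyD : y ∈ D := by
      rw [hy, commutatorElement_def]
      exact D.mul_mem (nDV h g₁ hg₁.1 x hx) (D.inv_mem hx)
    have e1 : ⁅d * g₁, x⁆ = ⁅d, y⁆ * y * ⁅d, x⁆ := by
      rw [hy, commutatorElement_def, commutatorElement_def, commutatorElement_def,
        commutatorElement_def]
      group
    have h4 : τ y a = a := by
      have h5 : τ ⁅d * g₁, x⁆ a = a := (hg2 x hx).2.2
      rw [e1, map_mul, map_mul, Module.End.mul_apply, Module.End.mul_apply,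
        (ste_e2 h hd hx).2 a ha, (ste_e2 h hd hyD).2 _ (dV h y hyD a ha)] at h5
      exact h5
    have h6 := fixW h a w w' haw hw hw' h4 (hDW hyD)
    rw [W_scal h y hyD w hw] at h6
    have h7 : mu y = 1 := by
      have h8 : (mu y - 1) • w = 0 := by rw [sub_smul, one_smul, h6, sub_self]
      rcases smul_eq_zero.1 h8 with h9 | h9
      · exact sub_eq_zero.1 h9
      · exact absurd h9 hw0
    have e2 : g₁⁻¹⁻¹ * x * g₁⁻¹ = y * x := by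
      rw [hy, commutatorElement_def]
      group
    rw [e2, wt_mul h.hm hyD hx, h7, one_mul]
  have h4 := (sW τ W).inv_mem h3
  rwa [inv_inv] at h4

theorem stE10 [Fact p.Prime] [CharP k p] [Finite Γ] (h : WHyp p r τ G i T0 Z E lam mu D V W)
    (a w w' : U) (ha : a ∈ V) (haw : a = w + w') (hw : w ∈ W) (hw' : w' ∈ WC τ D V mu)
    (hw0 : w ≠ 0) (hT : T0 ≤ sW τ W) : ¬ PS p G (i - 1) ≤ D ⊔ (sW τ V ⊓ rgSt τ a) := by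
  have hDW : D ≤ sW τ W := (DE h).trans (EW h)
  intro hcon
  have h1 : ∀ t ∈ PS p G (i - 1), ∃ c : k, τ t w = c • w := by
    intro t ht
    obtain ⟨d, hd, g₁, hg₁, rfl⟩ := ste_mem h a (hcon ht)
    have h3 : d * g₁ ∈ sW τ W := hT (h.z.PT ht)
    have h4 : g₁ ∈ sW τ W := by
      have h5 := (sW τ W).mul_mem ((sW τ W).inv_mem (hDW hd)) h3
      rwa [inv_mul_cancel_left] at h5
    refine ⟨mu d, ?_⟩
    rw [map_mul, Module.End.mul_apply, fixW h a w w' haw hw hw' hg₁.2 h4]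
    exact W_scal h d hd w hw
  have h2 := PS_eig p τ G (i - 1) w hw0 h1
  exact hw0 (h.z.un.nofix w (fun g hg => h2 g (NS_le_PS G (i - 1) hg)))

end H78CY
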