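import Pool.Agent.H78.CY.WfA
import Pool.Agent.H78.CY.PsK
import Pool.Agent.H78.CY.Cc

/-!
[H78 CY STZ] STEP Z, the group theoretic facts (40 min).

NOTATION. `L = rgSt τ u = {g | τ g u = u}`, `V = WS τ Z ⊤ lam`.
PROOFS. (1) `⁅z, z'⁆ ∈ Z` acts trivially on `U` (`z_comm`; `Z` is a subgroup).
(2) If `g ∈ sW τ V` then `τ g` maps `V` to `V` and `WC τ Z ⊤ lam` to itself (`sWV'`, `wc_inv`, `Z` normal),
so `τ g u = u` implies `τ g a = a` (`τ g a - a = a' - τ g a'`, `wc_disj`).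
Suppose `PS p G (i - 1) ≤ Z ⊔ L`. Every `t ∈ PS p G (i - 1)` is `z g` with `z ∈ Z`, `g ∈ L` (`Z` is
normal); `t, z ∈ T0 ≤ sW τ V` (`T0V`; `Z ≤ E ≤ T0`), so `g ∈ sW τ V ⊓ L` fixes `a`, and
`τ t a = τ z a = lam z • a`. By `PS_eig` `PS p G (i - 1)` fixes `a`, in particular `NS p G (i - 1)` does
(`NS_le_PS`), so `a = 0` by `h.un.nofix`: contradiction.
(3) Let `g ∈ C`, `g = z g₁` with `z ∈ Z`, `g₁ ∈ L`. For `x ∈ Z`: `⁅g, x⁆ = z ⁅g₁, x⁆ z⁻¹ ⁅z, x⁆`, where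
`⁅g₁, x⁆ ∈ Z`, so `τ ⁅g, x⁆ = τ ⁅g₁, x⁆` (all elements of `Z` commute in the action). As `⁅g, x⁆` fixes `u`,
so does `y = ⁅g₁, x⁆ ∈ Z`; `τ y a = lam y • a`, `τ y a' ∈ WC` (`wc_scal`), hence `lam y • a = a`,
`lam y = 1`. So `lam (g₁ x g₁⁻¹) = lam (y x) = lam x` for all `x ∈ Z` (`wt_mul`), i.e. `g₁⁻¹ ∈ sW τ V`
(`sWV`). So `g = z g₁ ∈ sW τ V`.
-/

namespace H78CY

open Subgroup H78TP
open scoped commutatorElement

variable {k Γ U : Type*} [Field k] [Group Γ] [AddCommGroup U] [Module k U]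


private theorem stz_fixA [Finite Γ] {p r i : ℕ} {τ : Representation k Γ U}
    {G T0 Z E : Subgroup Γ} {lam : Γ → k} (h : ZHyp p r τ G i T0 Z E) (hl : lam ∈ Wt τ Z ⊤)
    (u a a' : U) (hu : u = a + a') (ha : a ∈ WS τ Z ⊤ lam) (ha' : a' ∈ WC τ Z ⊤ lam) {g : Γ}
    (h1 : τ g u = u) (h2 : g ∈ sW τ (WS τ Z ⊤ lam)) : τ g a = a := by
  have h3 : ∀ t, t ∈ Z ↔ g⁻¹ * t * g ∈ Z := by
    intro t
    constructor
    · intro ht
      have h4 := (zNormal h).conj_mem t ht g⁻¹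
      rwa [inv_inv] at h4
    · intro ht
      have h4 := (zNormal h).conj_mem _ ht g
      have e : g * (g⁻¹ * t * g) * g⁻¹ = t := by group
      rwa [e] at h4
  have h5 : τ g a' ∈ WC τ Z ⊤ lam :=
    wc_inv h3 (fun v _ => Submodule.mem_top) ((sWV' h hl g).1 h2) ha'
  have h6 : τ g a ∈ WS τ Z ⊤ lam := (h2 a).2 ha
  rw [hu, map_add] at h1
  have h7 : τ g a - a = a' - τ g a' := by
    rw [sub_eq_sub_iff_add_eq_add, h1, add_comm]
  have h8 : τ g a - a ∈ WC τ Z ⊤ lam := by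
    rw [h7]
    exact Submodule.sub_mem _ ha' h5
  exact sub_eq_zero.1 (wc_disj τ Z ⊤ hl (Submodule.sub_mem _ h6 ha) h8)

theorem stZ [Finite Γ] {p r i : ℕ} [Fact p.Prime] [CharP k p] {τ : Representation k Γ U}
    {G T0 Z E : Subgroup Γ} {lam : Γ → k} (h : ZHyp p r τ G i T0 Z E) (hl : lam ∈ Wt τ Z ⊤)
    (u a a' : U) (hu : u = a + a') (ha : a ∈ WS τ Z ⊤ lam) (ha' : a' ∈ WC τ Z ⊤ lam)
    (ha0 : a ≠ 0) :
    (∀ x ∈ Z, ∀ y ∈ Z, ⁅x, y⁆ ∈ Z ⊓ rgSt τ u) ∧ ¬ PS p G (i - 1) ≤ Z ⊔ rgSt τ u ∧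
      ∀ C : Subgroup Γ, IsCc (Z ⊔ rgSt τ u) Z (Z ⊓ rgSt τ u) C →
        C ≤ sW τ (WS τ Z ⊤ lam) := by
  have hZn := zNormal h
  have hZT : ∀ z ∈ Z, z ∈ T0 := fun z hz => zT0 h ((h.hZ z).1 hz).1
  have hc1 : ∀ x ∈ Z, ∀ y ∈ Z, τ ⁅x, y⁆ = 1 := fun x hx y hy => ((h.hZ x).1 hx).2 y (hZT y hy)
  have hZs : Z ≤ sW τ (WS τ Z ⊤ lam) := h.ZE.trans (EV h hl)
  refine ⟨?_, ?_, ?_⟩
  · intro x hx y hy
    refine ⟨?_, ?_⟩
    · rw [commutatorElement_def]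
      exact Z.mul_mem (Z.mul_mem (Z.mul_mem hx hy) (Z.inv_mem hx)) (Z.inv_mem hy)
    · show τ ⁅x, y⁆ u = u
      rw [hc1 x hx y hy]
      rfl
  · intro hcon
    have h1 : ∀ t ∈ PS p G (i - 1), ∃ c : k, τ t a = c • a := by
      intro t ht
      have h2 := hcon ht
      rw [Subgroup.mem_sup_of_normal_left] at h2
      obtain ⟨z, hz, g, hg, rfl⟩ := h2
      have h3 : z * g ∈ sW τ (WS τ Z ⊤ lam) := T0V h hl (h.PT ht)
      have h4 : g ∈ sW τ (WS τ Z ⊤ lam) := by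
        have h5 := (sW τ (WS τ Z ⊤ lam)).mul_mem ((sW τ (WS τ Z ⊤ lam)).inv_mem (hZs hz)) h3
        rwa [inv_mul_cancel_left] at h5
      refine ⟨lam z, ?_⟩
      rw [map_mul, Module.End.mul_apply, stz_fixA h hl u a a' hu ha ha' hg h4]
      exact ha.2 z hz
    have h2 := PS_eig p τ G (i - 1) a ha0 h1
    exact ha0 (h.un.nofix a (fun g hg => h2 g (NS_le_PS G (i - 1) hg)))
  · intro C hC g hg
    obtain ⟨hg1, hg2⟩ := (hC g).1 hg
    rw [Subgroup.mem_sup_of_normal_left] at hg1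
    obtain ⟨z, hz, g₁, hg₁, rfl⟩ := hg1
    refine (sW τ (WS τ Z ⊤ lam)).mul_mem (hZs hz) ?_
    have h3 : g₁⁻¹ ∈ sW τ (WS τ Z ⊤ lam) := by
      rw [sWV h hl]
      intro x hx
      obtain ⟨y, hy⟩ : ∃ y, y = ⁅g₁, x⁆ := ⟨_, rfl⟩
      have hyZ : y ∈ Z := by
        rw [hy, commutatorElement_def]
        exact Z.mul_mem (hZn.conj_mem x hx g₁) (Z.inv_mem hx)
      have e1 : ⁅z * g₁, x⁆ = ⁅z, y⁆ * y * ⁅z, x⁆ := by
        rw [hy, commutatorElement_def, commutatorElement_def, commutatorElement_def,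
          commutatorElement_def]
        group
      have h4 : τ y u = u := by
        have h5 : τ ⁅z * g₁, x⁆ u = u := (hg2 x hx).2
        rw [e1, map_mul, map_mul, hc1 z hz y hyZ, hc1 z hz x hx, one_mul, mul_one] at h5
        exact h5
      have h6 := stz_fixA h hl u a a' hu ha ha' h4 (hZs hyZ)
      rw [ha.2 y hyZ] at h6
      have h7 : lam y = 1 := by
        have h8 : (lam y - 1) • a = 0 := by rw [sub_smul, one_smul, h6, sub_self]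
        rcases smul_eq_zero.1 h8 with h9 | h9
        · exact sub_eq_zero.1 h9
        · exact absurd h9 ha0
      have e2 : g₁⁻¹⁻¹ * x * g₁⁻¹ = y * x := by
        rw [hy, commutatorElement_def]
        group
      rw [e2, wt_mul hl hyZ hx, h7, one_mul]
    have h4 := (sW τ (WS τ Z ⊤ lam)).inv_mem h3
    rwa [inv_inv] at h4

end H78CY
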