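import Pool.Agent.H78.CY.Lab
import Pool.Agent.H78.CY.Chn
import Pool.Agent.H78.CY.ExM
import Pool.Agent.H78.CY.Npf

/-!
[H78 CY STEPA] STEP A (50 min): from `L` to `L'` with `N_i ≤ L'`, `P_i` not contained in `L'`.

PROOF. `T = max (T of lab for (E, b)) b`. Let `i` be the largest number `< l` with
`¬ PS p G i ≤ L`; it exists and `l - b ≤ i` (`l - b < l` since `L` does not contain `PS p G (l - b)`, so
`b ≠ 0` because `PS p G l = ⊥`); `PS p G (i + 1) ≤ L` (also for `i + 1 = l`). As `b < l`: `1 ≤ l - b ≤ i`.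
`chn` with `G' = PS p G i`, `a = i` gives `X`, `Xm` (`h1 : PS p G i ≤ PS p G i ⊔ L`,
`h2 : ¬ PS p G i ≤ PS p G (i + 1) ⊔ L = L`).
CASE 1: `X = PS p G i`, `Xm = NS p G i`. Take `L' = NS p G i ⊔ L`; `¬ PS p G i ≤ L'` is a statement of
`chn`; `st R L x ≤ st R L' x` for all `x` (`st_mono`), so the set in `Few` is empty.
CASE 2: `X ≤ NS p G i` and `PS p G i` acts nontrivially on `X / M`. Let `Lm = Xm ⊔ L`. `¬ X ≤ Lm`
(otherwise `PS p G i ≤ X ⊔ L ≤ Lm`). `exM X Xm Lm` gives `r`, `M` (`Nm Lm X` as `X` is normal in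
`Γ = G ⊔ H`). `exCc` gives `C` with `IsCc (X ⊔ Lm) X M C`. Let `L' = NS p G i ⊔ C`.
CLAIM `¬ PS p G i ≤ L'`. Put `Y = PS p G i ≤ X ⊔ L = X ⊔ Lm` and `K = C ⊓ Y`; `Y` normalises `C` (`cc_nm`)
so it normalises `K`. If `Y ≤ NS p G i ⊔ C` then, as `NS p G i` is normal in `Γ` and contained in `Y`,
`Y ≤ NS p G i ⊔ K` (every element of `NS p G i ⊔ C` is `a c` with `a ∈ NS p G i`, `c ∈ C`;
`Subgroup.mem_sup_of_normal_left` or `Subgroup.normal_mul`; then `c ∈ Y`). `NS p G i = dn p Y`, `npf`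
gives `Y ≤ K ≤ C`, so `PS p G i` acts trivially on `X / M`, hence `X ≤ M` (`chn`; `Xm ≤ M ≤ X`,
`x ^ r ∈ M`): contradiction.
LINK: `lab` with `J = X`, `L = Lm`, `M`, `Z0 = M` (`⁅g, z⁆ ∈ M` for `z ∈ M` because `g ∈ X ⊔ Lm` normalises
`M`), `C`. Hypothesis `¬ PS p G (l - b - 1) ≤ C`: otherwise `PS p G (i - 1) ≤ C` (`PS_anti`), and the
first statement of `chn` on nontrivial action gives `X ≤ M`. In the first alternative use
`gd R Lm _ x → gd R L _ x` (`gd_mono`, `st_mono`, `manyM`); in the second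
`st R L x ≤ st R Lm x ≤ st R C x ≤ st R L' x` (`fewM`).
-/

namespace H78CY

open Subgroup H78TP
open scoped commutatorElement

universe u

theorem stepA (p n : ℕ) [Fact p.Prime] (m f : ℕ → ℕ) (j : ℕ) (hS : QS.{u} p n m f j)
    (E b : ℕ) (hE : 0 < E) : ∃ T : ℕ, ∀ (Γ : Type u) [Group Γ] [Finite Γ]
      (G R H : Subgroup Γ) (l : ℕ), FHyp p n m f l G R H → T < l →
      ∀ L : Subgroup Γ, ¬ PS p G (l - b) ≤ L → ∃ i, l - b ≤ i ∧ i < l ∧ ∃ L' : Subgroup Γ,
        NS p G i ≤ L' ∧ ¬ PS p G i ≤ L' ∧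
        (Many (8 * E) (gd R L (j + 1)) ∨ Few E (fun x => ¬ st R L x ≤ st R L' x)) := by
  have hp : p.Prime := Fact.out
  obtain ⟨T, hT⟩ := lab p n m f j hS E b hE
  refine ⟨max T b, fun Γ _ _ G R H l h hl L hL => ?_⟩
  have hlT : T < l := lt_of_le_of_lt (le_max_left _ _) hl
  have hlb : b < l := lt_of_le_of_lt (le_max_right _ _) hl
  have hbot : PS p G l ≤ L := by rw [h.lh.bot]; exact bot_le
  -- the largest `i`
  obtain ⟨i, hi1, hi2, hi3, hi4⟩ : ∃ i, l - b ≤ i ∧ i < l ∧ ¬ PS p G i ≤ L ∧ PS p G (i + 1) ≤ L := by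
    by_contra hcon
    push Not at hcon
    have h1 : ∀ k, l - b + k ≤ l → ¬ PS p G (l - b + k) ≤ L := by
      intro k
      induction k with
      | zero => intro _; exact hL
      | succ k ih =>
        intro hk
        exact hcon (l - b + k) (by omega) (by omega) (ih (by omega))
    apply h1 b (by omega)
    have e : l - b + b = l := by omega
    rw [e]
    exact hbot
  refine ⟨i, hi1, hi2, ?_⟩
  have hi0 : 1 ≤ i := by omega
  obtain ⟨X, Xm, hXX, hPX, hXP, nX, nXm, hnil, hG1, hG2, hact, hcase⟩ :=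
    chn h.lh (PS p G i) L i hi2 le_sup_left (by
      rw [sup_eq_right.2 hi4]
      exact hi3)
  rcases hcase with ⟨rfl, rfl⟩ | ⟨hXN, hact2⟩
  · refine ⟨NS p G i ⊔ L, le_sup_left, hG2, Or.inr ?_⟩
    have h0 : Nat.card {x : Γ // ¬ st R L x ≤ st R (NS p G i ⊔ L) x} = 0 := by
      rw [Nat.card_eq_zero]
      left
      exact ⟨fun x => x.2 (st_mono le_sup_right _)⟩
    unfold Few
    rw [h0, mul_zero]
    exact Nat.zero_le _
  · have nGX : ∀ S : Subgroup Γ, Nm S X := by
      intro S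
      rw [h.top] at nX
      exact nm_mono nX le_top
    have nGXm : ∀ S : Subgroup Γ, Nm S Xm := by
      intro S
      rw [h.top] at nXm
      exact nm_mono nXm le_top
    have hXLm : ¬ X ≤ Xm ⊔ L := by
      intro hc
      exact hG2 (hG1.trans (sup_le hc le_sup_right))
    obtain ⟨r, M, hr, hMX, hXmM, hXL, nXM, nLM, hpow, hcom, hXM, hdvd⟩ :=
      exM X Xm (Xm ⊔ L) hXX hnil (nGX _) le_sup_left hXLm
    have nJL : Nm (X ⊔ (Xm ⊔ L)) M := nm_left nXM nLM
    obtain ⟨C, hC⟩ := exCc (Y := X ⊔ (Xm ⊔ L)) (J := X) (M := M) nJL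
    have hYX : PS p G i ≤ X ⊔ (Xm ⊔ L) := hG1.trans (sup_le_sup_left le_sup_right X)
    have nYC : Nm (PS p G i) C := nm_mono (cc_nm (nGX _) nJL hC) hYX
    have nN : (NS p G i).Normal := ⟨fun a ha g => by
      have h1 : Nm (⊤ : Subgroup Γ) (NS p G i) := NS_nm (nm_of_normal h.nG _) i
      exact h1 g (Subgroup.mem_top g) a ha⟩
    refine ⟨NS p G i ⊔ C, le_sup_left, ?_, ?_⟩
    · intro hcon
      apply hXM
      refine hact2 M r hr hXmM hMX hpow ?_
      intro y hy x hx
      have hYK : PS p G i ≤ C ⊓ PS p G i := by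
        refine npf p h.lh.sol (PS p G i) (C ⊓ PS p G i) (PS_up G i) inf_le_right
          (nm_inf nYC (nm_self _)) ?_
        intro z hz
        have h1 := hcon hz
        rw [Subgroup.mem_sup_of_normal_left] at h1
        obtain ⟨a, ha, c, hc, rfl⟩ := h1
        refine Subgroup.mul_mem_sup ha ⟨hc, ?_⟩
        have h2 : a ∈ PS p G i := NS_le_PS G i ha
        have h3 := (PS p G i).mul_mem ((PS p G i).inv_mem h2) hz
        rwa [inv_mul_cancel_left] at h3
      exact ((hC y).1 (hYK hy).1).2 x hx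
    · have key := hT Γ G R H l h hlT r X (Xm ⊔ L) M M C hr (nGX _) hMX hXL nXM nLM hcom hC
        le_rfl hMX nJL hpow (by
          intro g hg z hz
          have h1 := nJL g hg z hz
          rw [commutatorElement_def]
          exact M.mul_mem h1 (M.inv_mem hz)) (by
          intro hc
          apply hXM
          refine hact hi0 M r hr hXmM hMX hpow ?_
          intro y hy x hx
          exact ((hC y).1 (hc (PS_anti G (by omega : l - b - 1 ≤ i - 1) hy))).2 x hx)
      rcases key with key | key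
      · left
        exact manyM key (fun x hx => gd_mono (st_mono le_sup_right x) hx)
      · right
        refine fewM key ?_
        intro x hx hc
        exact hx (((st_mono le_sup_right x).trans hc).trans (st_mono le_sup_right x))

end H78CY
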