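import Pool.Agent.H78.CY.Lab
import Pool.Agent.H78.CY.ExM
import Pool.Agent.H78.CY.NtA

/-!
[H78 CY STEPB] STEP B (35 min): from `L` with `N_i ≤ L` to `C = {g | [g, P_i] ≤ M}`.

PROOF. `T = max (T of lab for (E, b)) b`. `exM` with `X = PS p G i`, `Xm = NS p G i` (`PS_nil`), `L`
gives `r` and `M`; `r ∣ (NS p G i).relIndex (PS p G i) = p ^ k` (`NS_relIndex`), so `r = p`. `exCc` gives
`C` with `IsCc (PS p G i ⊔ L) (PS p G i) M C` (`PS p G i` and `L` normalise `M`, `nm_left`). `lab` with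
`J = PS p G i`, `Z0 = M` (`⁅g, z⁆ ∈ M` for `z ∈ M` as `g` normalises `M`). `¬ PS p G (l - b - 1) ≤ C`:
otherwise `PS p G (i - 1) ≤ C` (`PS_anti`, `l - b - 1 ≤ i - 1`), in particular `NS p G (i - 1)` acts
trivially on `PS p G i / M`, and `ntP` with `a = i - 1` (`i ≥ 1` as `b < l`) gives `PS p G i ≤ M`:
contradiction.
-/

namespace H78CY

open Subgroup H78TP
open scoped commutatorElement

universe u

theorem stepB (p n : ℕ) [Fact p.Prime] (m f : ℕ → ℕ) (j : ℕ) (hS : QS.{u} p n m f j)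
    (E b : ℕ) (hE : 0 < E) : ∃ T : ℕ, ∀ (Γ : Type u) [Group Γ] [Finite Γ]
      (G R H : Subgroup Γ) (l : ℕ), FHyp p n m f l G R H → T < l →
      ∀ i, l - b ≤ i → i < l → ∀ L : Subgroup Γ, NS p G i ≤ L → ¬ PS p G i ≤ L →
      ∃ M C : Subgroup Γ, NS p G i ≤ M ∧ M ≤ PS p G i ∧ Nm (PS p G i) M ∧
        (∀ x ∈ PS p G i, x ^ p ∈ M) ∧ (∀ x ∈ PS p G i, ∀ y ∈ PS p G i, ⁅x, y⁆ ∈ M) ∧
        ¬ PS p G i ≤ M ∧ (∀ g ∈ C, ∀ x ∈ PS p G i, ⁅g, x⁆ ∈ M) ∧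
        (Many (8 * E) (gd R L (j + 1)) ∨ Few E (fun x => ¬ st R L x ≤ st R C x)) := by
  have hp : p.Prime := Fact.out
  obtain ⟨T, hT⟩ := lab p n m f j hS E b hE
  refine ⟨max T b, fun Γ _ _ G R H l h hl i hi1 hi2 L hNL hPL => ?_⟩
  have hlT : T < l := lt_of_le_of_lt (le_max_left _ _) hl
  have hlb : b < l := lt_of_le_of_lt (le_max_right _ _) hl
  have nLP : Nm L (PS p G i) := PS_nm (nm_of_normal h.nG L) i
  obtain ⟨r, M, hr, hMX, hXmM, hXL, nXM, nLM, hpow, hcom, hXM, hdvd⟩ :=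
    exM (PS p G i) (NS p G i) L (NS_le_PS G i) (PS_nil G i) nLP hNL hPL
  have hrp : r = p := by
    obtain ⟨k, hk⟩ := NS_relIndex (p := p) G i
    rw [hk] at hdvd
    exact (Nat.prime_dvd_prime_iff_eq hr hp).1 (hr.dvd_of_dvd_pow hdvd)
  rw [hrp] at hpow hr
  have nJL : Nm (PS p G i ⊔ L) M := nm_left nXM nLM
  obtain ⟨C, hC⟩ := exCc (Y := PS p G i ⊔ L) (J := PS p G i) (M := M) nJL
  refine ⟨M, C, hXmM, hMX, nXM, hpow, hcom, hXM, fun g hg => ((hC g).1 hg).2, ?_⟩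
  refine hT Γ G R H l h hlT p (PS p G i) L M M C hr nLP hMX hXL nXM nLM hcom hC le_rfl hMX
    nJL hpow ?_ ?_
  · intro g hg z hz
    have h1 := nJL g hg z hz
    rw [commutatorElement_def]
    exact M.mul_mem h1 (M.inv_mem hz)
  · intro hc
    obtain ⟨a, rfl⟩ : ∃ a, i = a + 1 := ⟨i - 1, by omega⟩
    apply hXM
    refine ntP p G M a hMX (fun x hx => ⟨1, by rw [pow_one]; exact hpow x hx⟩) ?_
    intro y hy x hx
    have h2 : y ∈ C := hc (PS_anti G (by omega : l - b - 1 ≤ a) (NS_le_PS G a hy))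
    exact ((hC y).1 h2).2 x hx

end H78CY
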