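import Pool.Agent.H78.CY.StepA
import Pool.Agent.H78.CY.StepB

/-!
Steps A and B together (helper78): assembly.
-/

namespace H78CY

open Subgroup H78TP
open scoped commutatorElement

universe u

theorem stepAB (p n : ℕ) [Fact p.Prime] (m f : ℕ → ℕ) (j : ℕ) (hS : QS.{u} p n m f j)
    (b d : ℕ) (hd : 0 < d) : ∃ T : ℕ, ∀ (Γ : Type u) [Group Γ] [Finite Γ]
      (G R H : Subgroup Γ) (l : ℕ), FHyp p n m f l G R H → T < l →
      ∀ L : Subgroup Γ, ¬ PS p G (l - b) ≤ L → ∃ i, l - b ≤ i ∧ i < l ∧ ∃ M C : Subgroup Γ,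
        M ≤ PS p G i ∧ (∀ x ∈ PS p G i, x ^ p ∈ M) ∧
        (∀ x ∈ PS p G i, ∀ y ∈ PS p G i, ⁅x, y⁆ ∈ M) ∧ ¬ PS p G i ≤ M ∧
        (∀ g ∈ C, ∀ x ∈ PS p G i, ⁅g, x⁆ ∈ M) ∧
        (Many d (gd R C (j + 1)) → Many (256 * d) (gd R L (j + 1))) := by
  obtain ⟨TA, hA⟩ := stepA p n m f j hS (2 * (16 * d)) b (by omega)
  obtain ⟨TB, hB⟩ := stepB p n m f j hS (2 * d) b (by omega)
  refine ⟨max TA TB, fun Γ _ _ G R H l h hl L hL => ?_⟩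
  obtain ⟨i, hi1, hi2, L', h1, h2, h3⟩ := hA Γ G R H l h (by omega) L hL
  obtain ⟨M, C, -, g2, -, g4, g5, g6, g7, g8⟩ := hB Γ G R H l h (by omega) i hi1 hi2 L' h1 h2
  refine ⟨i, hi1, hi2, M, C, g2, g4, g5, g6, g7, fun hC => ?_⟩
  have e1 := stp R L' C j d g8 hC
  have e2 := stp R L L' j (16 * d) h3 e1
  have e3 : 16 * (16 * d) = 256 * d := by ring
  rwa [e3] at e2

end H78CY
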