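import Pool.Agent.H78.CY.StE
import Pool.Agent.H78.CY.Lab

/-!
[H78 CY STEPE] STEP E (40 min).

PROOF. `T = max (T of lal for (E, b + 1)) (max (T of lab for (E, b + C0)) b)`. Notation of `StE.lean`:
`La = sW τ V ⊓ rgSt τ a`, `J = D`, `L = La`, `M = D ⊓ La`, `Z0 = Z ⊔ M`; the local hypotheses of `lal` and
`lab` are the statements of `stE` (`J ⊓ L ≤ M` is `le_rfl`; `Nm La M`: `nm_inf`, `nm_self`). `exCc` gives
`C` with `IsCc (D ⊔ La) D M C` (`D ⊔ La` normalises `M`: `nm_left`).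
CASE 1: `PS p G (i - C0) ≤ sW τ W`. By `stE10` (with `T0 = PS p G (i - C0)`) and `PS_anti`
(`l - (b + 1) ≤ i - 1`) `¬ PS p G (l - (b + 1)) ≤ D ⊔ La`; `lal`.
CASE 2: `¬ PS p G (i - C0) ≤ sW τ W`. `lab` with `r = r`; the hypothesis `¬ PS p G (l - (b + C0) - 1) ≤ C`:
otherwise `PS p G (i - C0) ≤ PS p G (l - (b + C0) - 1) ≤ C ≤ sW τ W` (`stE8`; `l - (b + C0) - 1 ≤ i - C0`
by natural subtraction).
In the second alternative of the link lemma: if `st R La x ≤ st R C x` and `g ∈ st R La x` then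
`x⁻¹ g x ∈ La ⊓ C ≤ La ⊓ sW τ W` fixes `a`, so it fixes `w` (`fixW`).
-/

namespace H78CY

open Subgroup H78TP
open scoped commutatorElement

universe u v w

theorem stepE (p n : ℕ) [Fact p.Prime] (m f : ℕ → ℕ) (j : ℕ) (hS : QS.{u} p n m f j)
    (E b C0 : ℕ) (hE : 0 < E) : ∃ T : ℕ, ∀ (Γ : Type u) [Group Γ] [Finite Γ]
      (G R H : Subgroup Γ) (l : ℕ), FHyp p n m f l G R H → T < l → ∀ i, l - b ≤ i → i < l →
      ∀ (k : Type v) [Field k] [CharP k p] (U : Type w) [AddCommGroup U] [Module k U]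
      (τ : Representation k Γ U) (r : ℕ) (Z Eg D : Subgroup Γ) (lam mu : Γ → k)
      (V W : Submodule k U), WHyp p r τ G i (PS p G (i - C0)) Z Eg lam mu D V W →
      ∀ a w w' : U, a ∈ V → a = w + w' → w ∈ W → w' ∈ WC τ D V mu → w ≠ 0 →
      Many (8 * E) (gd R (sW τ V ⊓ rgSt τ a) (j + 1)) ∨
      Few E (fun x => ¬ st R (sW τ V ⊓ rgSt τ a) x ≤ st R (sW τ W ⊓ rgSt τ w) x) := by
  obtain ⟨T1, hT1⟩ := lal p n m f j hS E (b + 1) hE
  obtain ⟨T2, hT2⟩ := lab p n m f j hS E (b + C0) hE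
  refine ⟨max T1 (max T2 b), fun Γ _ _ G R H l hF hl i hi1 hi2 k _ _ U _ _ τ r Z Eg D lam mu V W h
    a w w' ha haw hw hw' hw0 => ?_⟩
  have hl1 : T1 < l := lt_of_le_of_lt (le_max_left _ _) hl
  have hl2 : T2 < l := lt_of_le_of_lt ((le_max_left _ _).trans (le_max_right _ _)) hl
  obtain ⟨s1, s3, s2, s4, s7, s5, s6⟩ := stE h a ha
  have nLM : Nm (sW τ V ⊓ rgSt τ a) (D ⊓ (sW τ V ⊓ rgSt τ a)) := nm_inf s1 (nm_self _)
  obtain ⟨C, hC⟩ := exCc (Y := D ⊔ (sW τ V ⊓ rgSt τ a)) (J := D)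
    (M := D ⊓ (sW τ V ⊓ rgSt τ a)) (nm_left s3 nLM)
  have hC8 := stE8 h a w w' ha haw hw hw' hw0 C hC
  have fin : Many (8 * E) (gd R (sW τ V ⊓ rgSt τ a) (j + 1)) ∨
      Few E (fun x => ¬ st R (sW τ V ⊓ rgSt τ a) x ≤ st R C x) →
      Many (8 * E) (gd R (sW τ V ⊓ rgSt τ a) (j + 1)) ∨
      Few E (fun x => ¬ st R (sW τ V ⊓ rgSt τ a) x ≤ st R (sW τ W ⊓ rgSt τ w) x) := by
    intro key
    rcases key with key | key
    · exact Or.inl key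
    · right
      refine fewM key ?_
      intro x hx hc
      apply hx
      intro g hg
      have h1 := hc hg
      rw [mem_st] at hg h1 ⊢
      exact ⟨hg.1, hC8 h1.2, fixW h a w w' haw hw hw' hg.2.2 (hC8 h1.2)⟩
  apply fin
  by_cases hcase : PS p G (i - C0) ≤ sW τ W
  · refine hT1 Γ G R H l hF hl1 D (sW τ V ⊓ rgSt τ a) (D ⊓ (sW τ V ⊓ rgSt τ a)) C s1 inf_le_left
      le_rfl s3 nLM s2 hC ?_
    intro hc
    exact stE10 h a w w' ha haw hw hw' hw0 hcase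
      ((PS_anti G (by omega : l - (b + 1) ≤ i - 1)).trans hc)
  · refine hT2 Γ G R H l hF hl2 r D (sW τ V ⊓ rgSt τ a) (D ⊓ (sW τ V ⊓ rgSt τ a))
      (Z ⊔ (D ⊓ (sW τ V ⊓ rgSt τ a))) C h.z.hr s1 inf_le_left le_rfl s3 nLM s2 hC le_sup_right s4
      s7 s5 s6 ?_
    intro hc
    exact hcase (((PS_anti G (by omega : l - (b + C0) - 1 ≤ i - C0)).trans hc).trans hC8)

end H78CY
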