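import Pool.Agent.H78.CY.Orb
import Pool.Agent.H78.CY.TrF
import Pool.Agent.H78.CY.PsI

/-!
[H78 CY STEPF1] STEP F, CASE I (40 min): `P_{l-b}` does not stabilise the component `W`.

PROOF. Let `L' = sW τ W`, `s = 4 n m'`, `T = max (T of qs_f for (4, b)) (b + s !)`. If `L'.index ≤ s` then
`PS p G (s !) ≤ L'` (`PS_index'`) and `s ! ≤ l - b`, so `PS p G (l - b) ≤ L'` (`PS_anti`): contradiction. So
`s < L'.index`. Call `x` bad if there is `v ∈ W`, `v ≠ 0`, fixed by all `x⁻¹ g x ∈ L'`, `g ∈ R`. By `orbB`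
`4 |{bad}| ≤ 4 n m' |L'| ≤ |Γ|` (`|R| ≤ n`; `Subgroup.card_mul_index`). By `qs_f`
`4 |{x | ¬ gd R L' j x}| ≤ |Γ|`. So at least half of the `x` are neither. For these `x`:
`st R (L' ⊓ rgSt τ w) x ≤ st R L' x` and equality is impossible: otherwise all `x⁻¹ g x ∈ L'`, `g ∈ R`, fix
`w`, so `x` is bad. By `gd_of_lt` (`D = st R L' x`) `gd R (L' ⊓ rgSt τ w) (j + 1) x`.
(`(Nat.card R : k) ≠ 0` from `h.lh.cop` and `CharP.cast_eq_zero_iff`.)
-/

namespace H78CY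

open Subgroup H78TP
open scoped commutatorElement

universe u v w

private theorem f1_or {Γ : Type*} [Finite Γ] {A B C : Γ → Prop} (h : ∀ x, A x → B x ∨ C x) :
    Nat.card {x : Γ // A x} ≤ Nat.card {x : Γ // B x} + Nat.card {x : Γ // C x} := by
  rw [← Nat.card_sum]
  classical
  apply Nat.card_le_card_of_injective (fun x : {x : Γ // A x} =>
    if hx : B (x : Γ) then (Sum.inl ⟨x.1, hx⟩ : {x : Γ // B x} ⊕ {x : Γ // C x})
    else Sum.inr ⟨x.1, (h x.1 x.2).resolve_left hx⟩)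
  intro x y hxy
  by_cases hx : B (x : Γ)
  · by_cases hy : B (y : Γ)
    · simp only [hx, hy, dite_true] at hxy
      exact Subtype.ext (congrArg (fun t : {x : Γ // B x} => t.1) (Sum.inl.inj hxy))
    · simp only [hx, hy, dite_true, dite_false] at hxy
      cases hxy
  · by_cases hy : B (y : Γ)
    · simp only [hx, hy, dite_true, dite_false] at hxy
      cases hxy
    · simp only [hx, hy, dite_false] at hxy
      exact Subtype.ext (congrArg (fun t : {x : Γ // C x} => t.1) (Sum.inr.inj hxy))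

theorem stepF1 (p n : ℕ) [Fact p.Prime] (m f : ℕ → ℕ) (j : ℕ) (hS : QS.{u} p n m f j)
    (b m' : ℕ) : ∃ T : ℕ, ∀ (Γ : Type u) [Group Γ] [Finite Γ]
      (G R H : Subgroup Γ) (l : ℕ), FHyp p n m f l G R H → T < l →
      ∀ (k : Type v) [Field k] [CharP k p] (U : Type w) [AddCommGroup U] [Module k U]
      [Module.Finite k U] (τ : Representation k Γ U) (W : Submodule k U) (w : U), w ∈ W →
      w ≠ 0 → iSupIndep (cpW τ W) → Module.finrank k (Fx τ R) ≤ m' →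
      ¬ PS p G (l - b) ≤ sW τ W → Many 2 (gd R (sW τ W ⊓ rgSt τ w) (j + 1)) := by
  obtain ⟨T, hT⟩ := qs_f p n m f j hS 4 b
  obtain ⟨s, hs⟩ : ∃ s, s = 4 * (n * m') := ⟨_, rfl⟩
  refine ⟨max T (b + s.factorial), fun Γ _ _ G R H l hF hl k _ _ U _ _ _ τ W w hw hw0 hind hfin
    hnb => ?_⟩
  have hl1 : T < l := lt_of_le_of_lt (le_max_left _ _) hl
  have hl2 : b + s.factorial < l := lt_of_le_of_lt (le_max_right _ _) hl
  have hidx : s < (sW τ W).index := by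
    by_contra hc
    push Not at hc
    exact hnb ((PS_anti G (by omega : s.factorial ≤ l - b)).trans
      (PS_index' hF.lh.sol G (sW τ W) s hc))
  have hRk : (Nat.card R : k) ≠ 0 := by
    rw [Ne, CharP.cast_eq_zero_iff k p]
    exact hF.lh.cop
  have hb := orbB τ W hind R hRk
  have hg : 4 * Nat.card {x : Γ // ¬ gd R (sW τ W) j x} ≤ Nat.card Γ :=
    hT Γ G R H l hF hl1 (sW τ W) hnb
  have h1 : Nat.card Γ ≤ Nat.card {x : Γ // gd R (sW τ W ⊓ rgSt τ w) (j + 1) x} +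
      (Nat.card {x : Γ // ∃ v ∈ W, v ≠ 0 ∧ ∀ g ∈ R, x⁻¹ * g * x ∈ sW τ W →
      τ (x⁻¹ * g * x) v = v} + Nat.card {x : Γ // ¬ gd R (sW τ W) j x}) := by
    have h2 : Nat.card Γ = Nat.card {x : Γ // True} :=
      (Nat.card_congr (Equiv.subtypeUnivEquiv (fun _ => trivial))).symm
    rw [h2]
    refine (f1_or (A := fun _ : Γ => True) (B := fun x => gd R (sW τ W ⊓ rgSt τ w) (j + 1) x)
      (C := fun x => (∃ v ∈ W, v ≠ 0 ∧ ∀ g ∈ R, x⁻¹ * g * x ∈ sW τ W →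
      τ (x⁻¹ * g * x) v = v) ∨ ¬ gd R (sW τ W) j x) ?_).trans
      (Nat.add_le_add_left (f1_or (fun _ hx => hx)) _)
    intro x _
    by_cases hx1 : ∃ v ∈ W, v ≠ 0 ∧ ∀ g ∈ R, x⁻¹ * g * x ∈ sW τ W → τ (x⁻¹ * g * x) v = v
    · exact Or.inr (Or.inl hx1)
    by_cases hx2 : gd R (sW τ W) j x
    swap
    · exact Or.inr (Or.inr hx2)
    left
    refine gd_of_lt (D := st R (sW τ W) x) (st_mono inf_le_left x) ?_ hx2
    intro hc
    apply hx1
    refine ⟨w, hw, hw0, fun g hg1 hg2 => ?_⟩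
    exact (hc (x := g) ⟨hg1, hg2⟩).2.2
  have h2 := Subgroup.index_mul_card (sW τ W)
  have h3 : 4 * Nat.card {x : Γ // ∃ v ∈ W, v ≠ 0 ∧ ∀ g ∈ R, x⁻¹ * g * x ∈ sW τ W →
      τ (x⁻¹ * g * x) v = v} ≤ Nat.card Γ := by
    calc 4 * Nat.card {x : Γ // ∃ v ∈ W, v ≠ 0 ∧ ∀ g ∈ R, x⁻¹ * g * x ∈ sW τ W →
        τ (x⁻¹ * g * x) v = v}
        ≤ 4 * (Nat.card R * Module.finrank k (Fx τ R) * Nat.card (sW τ W)) :=
          Nat.mul_le_mul_left _ hb
      _ ≤ 4 * (n * m' * Nat.card (sW τ W)) :=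
          Nat.mul_le_mul_left _ (Nat.mul_le_mul_right _ (Nat.mul_le_mul hF.lh.cR hfin))
      _ = s * Nat.card (sW τ W) := by rw [hs]; ring
      _ ≤ (sW τ W).index * Nat.card (sW τ W) := Nat.mul_le_mul_right _ hidx.le
      _ = Nat.card Γ := h2
  unfold Many
  omega

end H78CY
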