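import Pool.Agent.H78.CY.Loc
import Pool.Agent.H78.CY.Ftr
import Pool.Agent.H78.CY.Fls
import Pool.Agent.H78.CY.Fav

/-!
STEP F, CASE II (helper78): assembly.
-/

namespace H78CY

open Subgroup H78TP
open scoped commutatorElement

universe u v w

theorem card_sub {Γ : Type*} [Group Γ] (L' E : Subgroup Γ) (hE : E ≤ L') (P : Γ → Prop)
    (P' : L' → Prop) (h : ∀ e : L', (e : Γ) ∈ E → (P' e ↔ P e)) :
    Nat.card {e : L' // e ∈ E.subgroupOf L' ∧ P' e} = Nat.card {e : Γ // e ∈ E ∧ P e} := by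
  apply Nat.card_congr
  exact
    { toFun := fun e => ⟨e.1.1, e.2.1, (h e.1 e.2.1).1 e.2.2⟩
      invFun := fun e => ⟨⟨e.1, hE e.2.1⟩, e.2.1, (h ⟨e.1, hE e.2.1⟩ e.2.1).2 e.2.2⟩
      left_inv := fun e => rfl
      right_inv := fun e => rfl }

theorem stepF2 (p n : ℕ) [Fact p.Prime] (m f : ℕ → ℕ) (j : ℕ) (hS : QS.{u} p n m f j)
    (b m' : ℕ) : ∃ C0 T : ℕ, 1 ≤ C0 ∧ ∀ (Γ : Type u) [Group Γ] [Finite Γ]
      (G R H : Subgroup Γ) (l : ℕ), FHyp p n m f l G R H → T < l → ∀ i, l - b ≤ i → i < l →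
      ∀ (k : Type v) [Field k] [CharP k p] [IsAlgClosed k] (U : Type w) [AddCommGroup U]
      [Module k U] [Module.Finite k U]
      (τ : Representation k Γ U) (r : ℕ) (Z E D : Subgroup Γ) (lam mu : Γ → k)
      (V W : Submodule k U), WHyp p r τ G i (PS p G (i - C0)) Z E lam mu D V W →
      PS p G (i - C0) ≤ sW τ W → Module.finrank k (Fx τ R) ≤ m' → ∀ w ∈ W, w ≠ 0 →
      Many (128 * n) (gd R (sW τ W ⊓ rgSt τ w) (j + 1)) := by
  choose Λ hΛ using fun a => dK.{u, v, w} p n m f j (qs_qp p n m f j hS) b (dd n a)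
  obtain ⟨TL, hL⟩ := stepL.{u, v, w} p n m f j hS (256 * n) b
  refine ⟨1 + cz (dQ n m') + ∑ a ∈ Finset.range (n + 1), Λ a,
    TL + (1 + cz (dQ n m') + ∑ a ∈ Finset.range (n + 1), Λ a) + b +
      ∑ a ∈ Finset.range (n + 1), (b + cz (dd n a) + 1), by omega, ?_⟩
  intro Γ _ _ G R H l h hl i hi1 hi2 k _ _ _ U _ _ _ τ r Z E D lam mu V W hW hT hm w hw hw0
  set C0 := 1 + cz (dQ n m') + ∑ a ∈ Finset.range (n + 1), Λ a with hC0
  have hC0i : C0 ≤ i := by omega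
  have hΛC : ∀ a ≤ n, Λ a ≤ C0 := by
    intro a ha
    have : Λ a ≤ ∑ a ∈ Finset.range (n + 1), Λ a :=
      Finset.single_le_sum (f := Λ) (fun _ _ => Nat.zero_le _)
        (Finset.mem_range.2 (by omega))
    omega
  have hlC : ∀ a ≤ n, b + cz (dd n a) + 1 ≤ l := by
    intro a ha
    have : b + cz (dd n a) + 1 ≤ ∑ a ∈ Finset.range (n + 1), (b + cz (dd n a) + 1) :=
      Finset.single_le_sum (f := fun a => b + cz (dd n a) + 1) (fun _ _ => Nat.zero_le _)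
        (Finset.mem_range.2 (by omega))
    omega
  have hR0 : (Nat.card R : k) ≠ 0 := by
    intro h0
    rw [CharP.cast_eq_zero_iff k p] at h0
    exact h.lh.cop h0
  have hEL : E ≤ sW τ W := EW hW
  have hDL : D ≤ sW τ W := (DE hW).trans hEL
  have hk := kh hW
  have hlQ : r ^ dQ n m' < D.relIndex E := lQ C0 (dQ n m') (by omega) hC0i hW hT
  refine fav E (gd R (sW τ W ⊓ rgSt τ w) (j + 1))
    (fun x => ¬ gd R (sW τ W ⊓ sW τ (Submodule.span k {w})) j x) n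
    (hL Γ G R H l h (by omega) i hi1 hi2 k U τ hW.z.un W w hw0) ?_
  intro x hx
  have hdvd := tr5 (sW τ W) R x
  have hcK : Nat.card ((rgCj x⁻¹ R ⊓ sW τ W).subgroupOf (sW τ W)) ≤ n :=
    (Nat.le_of_dvd Nat.card_pos hdvd).trans h.lh.cR
  have hK0 : (Nat.card ((rgCj x⁻¹ R ⊓ sW τ W).subgroupOf (sW τ W)) : k) ≠ 0 := by
    intro h0
    rw [CharP.cast_eq_zero_iff k p] at h0
    exact h.lh.cop (h0.trans hdvd)
  have key := loc hk ((rgCj x⁻¹ R ⊓ sW τ W).subgroupOf (sW τ W)) n m' (Nat.card R) j hcK hK0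
    ((tr3 hW R hR0 x).trans hm)
    (by rw [Subgroup.relIndex_subgroupOf hEL]; exact hlQ)
    (fun a ha => by
      rw [tr4 (sW τ W) (rgCj x⁻¹ R) E D hEL hDL]
      exact hΛ a Γ G R H l h (hlC a ha) i hi1 hi2 C0 (hΛC a ha) hC0i k U τ r Z E D lam mu V W
        hW hT x)
    ⟨w, hw⟩ (by
      intro h0
      exact hw0 (congrArg Subtype.val h0))
    (by
      rw [card_sub (sW τ W) E hEL
        (fun e => ¬ gd R (sW τ W ⊓ sW τ (Submodule.span k {w})) j (x * e))]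
      · rw [Nat.card_congr (Subgroup.subgroupOfEquivOfLe hEL).toEquiv]
        exact hx
      · intro e he
        exact not_congr (Iff.of_eq (congrArg (fun t => 2 ^ j * t ≤ Nat.card R)
          (tr1 τ W R x e e.2 ⟨w, hw⟩))))
  rw [card_sub (sW τ W) E hEL (fun e => gd R (sW τ W ⊓ rgSt τ w) (j + 1) (x * e)),
    Nat.card_congr (Subgroup.subgroupOfEquivOfLe hEL).toEquiv] at key
  · exact key
  · intro e he
    exact Iff.of_eq (congrArg (fun t => 2 ^ (j + 1) * t ≤ Nat.card R)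
      (tr2 τ W R x e e.2 ⟨w, hw⟩))

end H78CY
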