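import Pool.Agent.H78.CY.StZ
import Pool.Agent.H78.CY.Lab

/-!
[H78 CY STEPZ] STEP Z (30 min).

PROOF. `T = max (T of lal for (E, b + 1)) b`. Let `L = rgSt τ u`, `J = Z`, `M = Z ⊓ L`. `Z` is normal
(`zNormal`), so `Nm L Z`, `Nm L M`; `Nm Z M`: `z m z⁻¹ = ⁅z, m⁆ m`. `exCc` gives `C` with
`IsCc (Z ⊔ L) Z M C`. `¬ PS p G (l - (b + 1)) ≤ Z ⊔ L` by `stZ` and `PS_anti` (`l - (b + 1) ≤ i - 1`). `lal`
applies. In the second alternative: if `st R L x ≤ st R C x` and `g ∈ st R L x` then `x⁻¹ g x ∈ L ⊓ C`, so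
it is in `sW τ V` and fixes `u`, hence it fixes `a` (part (2) of the proof of `stZ`; the statement is
`fixA` below, prove it first or copy it).
-/

namespace H78CY

open Subgroup H78TP
open scoped commutatorElement

universe u v w

variable {k Γ U : Type*} [Field k] [Group Γ] [AddCommGroup U] [Module k U]


theorem fixA [Finite Γ] {p r i : ℕ} {τ : Representation k Γ U}
    {G T0 Z E : Subgroup Γ} {lam : Γ → k} (h : ZHyp p r τ G i T0 Z E) (hl : lam ∈ Wt τ Z ⊤)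
    (u a a' : U) (hu : u = a + a') (ha : a ∈ WS τ Z ⊤ lam) (ha' : a' ∈ WC τ Z ⊤ lam) {g : Γ}
    (h1 : τ g u = u) (h2 : g ∈ sW τ (WS τ Z ⊤ lam)) : τ g a = a := by
  have h3 : ∀ t, t ∈ Z ↔ g⁻¹ * t * g ∈ Z := by
    intro t
    constructor
    · intro ht
      have h4 := (zNormal h).conj_mem t ht g⁻¹
      rwa [inv_inv] at h4
    · intro ht
      have h4 := (zNormal h).conj_mem _ ht g
      have e : g * (g⁻¹ * t * g) * g⁻¹ = t := by group
      rwa [e] at h4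
  have h5 : τ g a' ∈ WC τ Z ⊤ lam :=
    wc_inv h3 (fun v _ => Submodule.mem_top) ((sWV' h hl g).1 h2) ha'
  have h6 : τ g a ∈ WS τ Z ⊤ lam := (h2 a).2 ha
  rw [hu, map_add] at h1
  have h7 : τ g a - a = a' - τ g a' := by
    rw [sub_eq_sub_iff_add_eq_add, h1, add_comm]
  have h8 : τ g a - a ∈ WC τ Z ⊤ lam := by
    rw [h7]
    exact Submodule.sub_mem _ ha' h5
  exact sub_eq_zero.1 (wc_disj τ Z ⊤ hl (Submodule.sub_mem _ h6 ha) h8)

theorem stepZ (p n : ℕ) [Fact p.Prime] (m f : ℕ → ℕ) (j : ℕ) (hS : QS.{u} p n m f j)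
    (E b : ℕ) (hE : 0 < E) : ∃ T : ℕ, ∀ (Γ : Type u) [Group Γ] [Finite Γ]
      (G R H : Subgroup Γ) (l : ℕ), FHyp p n m f l G R H → T < l → ∀ i, l - b ≤ i → i < l →
      ∀ (k : Type v) [Field k] [CharP k p] (U : Type w) [AddCommGroup U] [Module k U]
      (τ : Representation k Γ U) (r : ℕ) (T0 Z Eg : Subgroup Γ) (lam : Γ → k),
      ZHyp p r τ G i T0 Z Eg → lam ∈ Wt τ Z ⊤ → ∀ u a a' : U, u = a + a' →
      a ∈ WS τ Z ⊤ lam → a' ∈ WC τ Z ⊤ lam → a ≠ 0 →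
      Many (8 * E) (gd R (rgSt τ u) (j + 1)) ∨
      Few E (fun x => ¬ st R (rgSt τ u) x ≤ st R (sW τ (WS τ Z ⊤ lam) ⊓ rgSt τ a) x) := by
  obtain ⟨T, hT⟩ := lal p n m f j hS E (b + 1) hE
  refine ⟨max T b, fun Γ _ _ G R H l hF hl i hi1 hi2 k _ _ U _ _ τ r T0 Z Eg lam h hl1 u a a' hu ha
    ha' ha0 => ?_⟩
  have hlT : T < l := lt_of_le_of_lt (le_max_left _ _) hl
  obtain ⟨s1, s2, s3⟩ := stZ h hl1 u a a' hu ha ha' ha0
  have hZn := zNormal h
  have nJM : Nm Z (Z ⊓ rgSt τ u) := by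
    intro z hz y hy
    have h1 := s1 z hz y hy.1
    have e : z * y * z⁻¹ = ⁅z, y⁆ * y := by
      rw [commutatorElement_def]
      group
    rw [e]
    exact (Z ⊓ rgSt τ u).mul_mem h1 hy
  have nLM : Nm (rgSt τ u) (Z ⊓ rgSt τ u) := nm_inf (nm_of_normal hZn _) (nm_self _)
  obtain ⟨C, hC⟩ := exCc (Y := Z ⊔ rgSt τ u) (J := Z) (M := Z ⊓ rgSt τ u) (nm_left nJM nLM)
  have key := hT Γ G R H l hF hlT Z (rgSt τ u) (Z ⊓ rgSt τ u) C (nm_of_normal hZn _) inf_le_left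
    le_rfl nJM nLM s1 hC (by
      intro hc
      exact s2 ((PS_anti G (by omega : l - (b + 1) ≤ i - 1)).trans hc))
  rcases key with key | key
  · exact Or.inl key
  · right
    refine fewM key ?_
    intro x hx hc
    apply hx
    intro g hg
    have h1 := hc hg
    rw [mem_st] at hg h1 ⊢
    exact ⟨hg.1, s3 C hC h1.2, fixA h hl1 u a a' hu ha ha' hg.2 (s3 C hC h1.2)⟩

end H78CY
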