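import Pool.Agent.H78.CY.StepAB
import Pool.Agent.H78.CY.ModC
import Pool.Agent.H78.CY.ExW
import Pool.Agent.H78.CY.StepZ
import Pool.Agent.H78.CY.StepE
import Pool.Agent.H78.CY.StepF1
import Pool.Agent.H78.CY.StepF2

/-!
THE STRICT STEP `S(j) → Q(j+1)` (helper78): assembly.
-/

namespace H78CY

open Subgroup H78TP
open scoped commutatorElement

universe u

theorem manyD {Γ : Type*} {d d' : ℕ} {B : Γ → Prop} (h : Many d B) (hd : d ≤ d') :
    Many d' B := le_trans h (Nat.mul_le_mul_right _ hd)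

theorem strict (p n : ℕ) [Fact p.Prime] (m f : ℕ → ℕ) (j : ℕ) (hS : QS.{u} p n m f j) :
    QP.{u} p n m f (j + 1) := by
  apply trF
  obtain ⟨d0, hd0⟩ : ∃ d0 : ℕ, d0 = 128 * n + 2 := ⟨_, rfl⟩
  refine ⟨256 * (16 * (16 * d0)), by omega, fun b => ?_⟩
  obtain ⟨m', hm'⟩ : ∃ m' : ℕ, m' = ∑ b' ∈ Finset.range (b + 1), m b' := ⟨_, rfl⟩
  have hm : ∀ b' ≤ b, m b' ≤ m' := by
    intro b' hb
    rw [hm']
    exact Finset.single_le_sum (f := m) (fun _ _ => Nat.zero_le _)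
      (Finset.mem_range.2 (by omega))
  obtain ⟨C0, TF2, hC0, hF2⟩ := stepF2.{u, 0, u} p n m f j hS b m'
  obtain ⟨TF1, hF1⟩ := stepF1.{u, 0, u} p n m f j hS (b + C0) m'
  obtain ⟨TE, hE⟩ := stepE.{u, 0, u} p n m f j hS (2 * d0) b C0 (by omega)
  obtain ⟨TZ, hZ⟩ := stepZ.{u, 0, u} p n m f j hS (2 * (16 * d0)) b (by omega)
  obtain ⟨TA, hA⟩ := stepAB p n m f j hS b (16 * (16 * d0)) (by omega)
  refine ⟨TF2 + TF1 + TE + TZ + TA + b + C0, fun Γ _ _ G R H l h hl L hL => ?_⟩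
  obtain ⟨i, hi1, hi2, M, C, h1, h2, h3, h4, h5, h6⟩ := hA Γ G R H l h (by omega) L hL
  apply h6
  have hi : 1 ≤ i := by omega
  obtain ⟨U, _, _, _, τ, u, hU, hu, hCu, hfr⟩ := modC p n m f h i hi hi2 M C h1 h2 h3 h4 h5
  have hn : ∀ a, (PS p G a).Normal := by
    intro a
    haveI := h.nG
    exact ⟨fun x hx y => PS_nm (Y := ⊤) (fun y _ x hx => h.nG.conj_mem x hx y) a y trivial x hx⟩
  obtain ⟨r, Z, Eg, hz⟩ := exZ p hU u hu (PS p G (i - C0)) (hn _)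
    (PS_anti G (by omega))
  obtain ⟨lam, mu, D, V, W, a, a', w, w', hW, hua, haV, ha', haw, hwW, hw', ha0, hw0⟩ :=
    exW p r hz u hu
  have hfr' : Module.finrank (AlgebraicClosure (ZMod p)) (Fx τ R) ≤ m' :=
    hfr.trans (hm _ (by omega))
  have hF : Many d0 (gd R (sW τ W ⊓ rgSt τ w) (j + 1)) := by
    by_cases hT : PS p G (i - C0) ≤ sW τ W
    · exact manyD (hF2 Γ G R H l h (by omega) i hi1 hi2 (AlgebraicClosure (ZMod p)) U τ r Z Eg D
        lam mu V W hW hT hfr' w hwW hw0) (by omega)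
    · refine manyD (hF1 Γ G R H l h (by omega) (AlgebraicClosure (ZMod p)) U τ W w hwW hw0
        (cmp_ind hW) hfr' (fun hh => hT ?_)) (by omega)
      exact (PS_anti G (by omega)).trans hh
  have hE' := stp R _ _ j d0 (hE Γ G R H l h (by omega) i hi1 hi2 (AlgebraicClosure (ZMod p)) U τ
    r Z Eg D lam mu V W hW a w w' haV haw hwW hw' hw0) hF
  have hVe := hW.hV
  subst hVe
  have hZ' := stp R _ _ j (16 * d0) (hZ Γ G R H l h (by omega) i hi1 hi2
    (AlgebraicClosure (ZMod p)) U τ r (PS p G (i - C0)) Z Eg lam hz hW.hl u a a' hua haV ha' ha0)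
    hE'
  refine manyM hZ' (fun x hx => gd_mono (st_mono (fun g hg => ?_) x) hx)
  exact hCu g hg

end H78CY
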