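import Pool.Agent.H78.CY.Strict

/-!
THEOREM D (helper78): the bound for the length of the lower `p`-series.
-/

namespace H78CY

open Subgroup H78TP
open scoped commutatorElement

universe u

theorem qs_zero (p n : ℕ) (m f : ℕ → ℕ) : QS.{u} p n m f 0 := by
  intro e b
  refine ⟨0, fun Γ _ _ G R H l h hl L hL => ?_⟩
  have h1 : ∀ x, gd R L 0 x := by
    intro x
    unfold gd
    rw [pow_zero, one_mul]
    exact Subgroup.card_le_of_le (st_le R L x)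
  haveI : IsEmpty {x : Γ // x ∈ G ⊔ H ∧ ¬ gd R L 0 x} := ⟨fun x => x.2.2 (h1 x.1)⟩
  rw [Nat.card_of_isEmpty, mul_zero]
  exact Nat.zero_le _

theorem qs_all (p n : ℕ) [Fact p.Prime] (m f : ℕ → ℕ) : ∀ j, QS.{u} p n m f j
  | 0 => qs_zero p n m f
  | j + 1 => bst p n m f (j + 1) (strict p n m f j (qs_all p n m f j))

theorem thmD (p n : ℕ) [Fact p.Prime] (m f : ℕ → ℕ) : ∃ t : ℕ, ∀ (Γ : Type u) [Group Γ]
    [Finite Γ] (G R H : Subgroup Γ) (l : ℕ), LHyp p n m f l G R H → PS p G (l - 1) ≠ ⊥ →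
    l ≤ t := by
  obtain ⟨d, hd, hQ⟩ := qs_qp p n m f n (qs_all p n m f n)
  obtain ⟨T, hT⟩ := hQ 1
  refine ⟨T, fun Γ _ _ G R H l h hne => ?_⟩
  by_contra hl
  push Not at hl
  have h1 := hT Γ G R H l h hl ⊥ (fun h2 => hne (le_bot_iff.1 h2))
  have h2 : ∀ x, ¬ gd R (⊥ : Subgroup Γ) n x := by
    intro x hx
    unfold gd at hx
    have h3 : 1 ≤ Nat.card (st R (⊥ : Subgroup Γ) x) := Nat.card_pos
    have h4 : n < 2 ^ n := Nat.lt_two_pow_self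
    have h5 : 2 ^ n * 1 ≤ 2 ^ n * Nat.card (st R (⊥ : Subgroup Γ) x) := Nat.mul_le_mul_left _ h3
    have h6 := h.cR
    omega
  haveI : IsEmpty {x : Γ // x ∈ G ⊔ H ∧ gd R (⊥ : Subgroup Γ) n x} := ⟨fun x => h2 x.1 x.2.2⟩
  have h7 : Nat.card {x : Γ // x ∈ G ⊔ H ∧ gd R (⊥ : Subgroup Γ) n x} = 0 :=
    Nat.card_of_isEmpty
  rw [h7, mul_zero] at h1
  have h3 : 0 < Nat.card (G ⊔ H : Subgroup Γ) := Nat.card_pos
  omega

end H78CY
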