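import Pool.Agent.H78.CY.WeiC
import Pool.Agent.H78.CY.ExE

/-!
[H78 CY WFA] Basic facts on `Z`, `E` and a weight `lam` of `Z` (50 min).

PROOFS. All are short. `NS p G (i - 1) ≤ PS p G (i - 1) ≤ T0`. `zNormal`: `h.hZ`; `NS`, `T0` are normal.
`z_comm`: `⁅s, t⁆` acts trivially for `s ∈ Z`, `t ∈ Z ≤ T0`. `z_ord`: `s_ord`.
`lam_T0`: for `t ∈ T0`, `z ∈ Z`: `t⁻¹ z t = z ⁅z⁻¹, t⁻¹⁆` and `τ ⁅z⁻¹, t⁻¹⁆ = 1`; evaluate on a nonzero
vector of `WS τ Z ⊤ lam` (`lam` is determined on `Z` by the action on this space: this is the way to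
prove all identities for `lam`). `sWV`: for `g ∈ sW τ V` and `v ∈ V`: `τ z (τ g v) = lam z • τ g v`, so
`τ (g⁻¹ z g) v = lam z • v`, i.e. `lam (g⁻¹ z g) = lam z`; conversely if `lam (g⁻¹ z g) = lam z` for all
`z ∈ Z` then `τ z (τ g v) = τ g (τ (g⁻¹ z g) v) = lam z • τ g v`. `sWV'` expresses the same by `cjf`
(`lam` vanishes outside `Z`, `Z` is normal). `T0V`: `lam_T0` and `sWV`. `EV`: `E ≤ T0`.
`form1`: `⁅e e', f⁆ = e ⁅e', f⁆ e⁻¹ ⁅e, f⁆`, `e` fixes `lam`. `form2`: `⁅e, f f'⁆ = ⁅e, f⁆ f ⁅e, f'⁆ f⁻¹`.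
`form3`: `⁅f, e⁆ = ⁅e, f⁆⁻¹`. `form4`: by `form1` `lam ⁅e, f⁆ ^ r = lam ⁅e ^ r, f⁆ = 1` as `e ^ r ∈ Z` and
`f ∈ T0`. `formC`: `g` fixes `lam` and `⁅g e g⁻¹, g f g⁻¹⁆ = g ⁅e, f⁆ g⁻¹`. `exD`: `form1`; `form3`.
-/

namespace H78CY

open Subgroup H78TP
open scoped commutatorElement

variable {k Γ U : Type*} [Field k] [Group Γ] [AddCommGroup U] [Module k U]


variable {p r i : ℕ} {τ : Representation k Γ U} {G T0 Z E : Subgroup Γ} {lam : Γ → k}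

theorem zT0 (h : ZHyp p r τ G i T0 Z E) : NS p G (i - 1) ≤ T0 :=
  (NS_le_PS G (i - 1)).trans h.PT

theorem eT0 (h : ZHyp p r τ G i T0 Z E) : E ≤ T0 := h.ES.trans (zT0 h)

theorem zNormal (h : ZHyp p r τ G i T0 Z E) : Z.Normal := by
  refine ⟨fun g hg x => ?_⟩
  rw [h.hZ] at hg ⊢
  have h1 : Nm (⊤ : Subgroup Γ) (NS p G (i - 1)) := NS_nm (nm_of_normal h.un.nG _) (i - 1)
  refine ⟨h1 x (Subgroup.mem_top x) g hg.1, fun t ht => ?_⟩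
  have h2 : x⁻¹ * t * x ∈ T0 := by
    have h3 := h.nT.conj_mem t ht x⁻¹
    rwa [inv_inv] at h3
  have h4 := hg.2 _ h2
  have e : ⁅x * g * x⁻¹, t⁆ = x * ⁅g, x⁻¹ * t * x⁆ * x⁻¹ := by
    rw [commutatorElement_def, commutatorElement_def]
    group
  rw [e, map_mul, map_mul, h4, mul_one, ← map_mul, mul_inv_cancel, map_one]

theorem z_comm (h : ZHyp p r τ G i T0 Z E) : ∀ s ∈ Z, ∀ t ∈ Z, ∀ v, τ s (τ t v) = τ t (τ s v) := by
  intro s hs t ht v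
  have h1 := ((h.hZ s).1 hs).2 t (zT0 h ((h.hZ t).1 ht).1)
  have e : s * t = ⁅s, t⁆ * (t * s) := by
    rw [commutatorElement_def]
    group
  rw [← Module.End.mul_apply, ← map_mul, e, map_mul, h1, one_mul, map_mul, Module.End.mul_apply]

theorem z_ord [Fact p.Prime] [CharP k p] [Finite Γ] (h : ZHyp p r τ G i T0 Z E) :
    ∀ x ∈ E, ∃ q : ℕ, (q : k) ≠ 0 ∧ τ (x ^ q) = 1 := by
  intro x hx
  obtain ⟨q, h1, -, -, h2⟩ := s_ord p h.un (h.ES hx)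
  exact ⟨q, h1, h2⟩

/-- the action of `g` after `x` in terms of the conjugate -/
private theorem wfa_cj (τ : Representation k Γ U) (g z : Γ) (v : U) :
    τ z (τ g v) = τ g (τ (g⁻¹ * z * g) v) := by
  rw [← Module.End.mul_apply, ← map_mul, ← Module.End.mul_apply, ← map_mul]
  congr 2
  group

private theorem wfa_ne (τ : Representation k Γ U) (g : Γ) {v : U} (hv : v ≠ 0) : τ g v ≠ 0 := by
  intro h
  apply hv
  have h1 : τ g⁻¹ (τ g v) = v := by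
    rw [← Module.End.mul_apply, ← map_mul, inv_mul_cancel, map_one]
    rfl
  rw [h, map_zero] at h1
  exact h1.symm

private theorem wfa_eq {a b : k} {v : U} (hv : v ≠ 0) (h : a • v = b • v) : a = b := by
  have h1 : (a - b) • v = 0 := by rw [sub_smul, h, sub_self]
  rcases smul_eq_zero.1 h1 with h2 | h2
  · exact sub_eq_zero.1 h2
  · exact absurd h2 hv

/-- `lam` is determined by the action -/
private theorem wfa_lam (hl : lam ∈ Wt τ Z ⊤) {z z' : Γ} (hz : z ∈ Z) (hz' : z' ∈ Z)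
    (he : τ z = τ z') : lam z = lam z' := by
  obtain ⟨v, hv, hv0⟩ := Submodule.exists_mem_ne_zero_of_ne_bot hl.2
  apply wfa_eq hv0
  rw [← hv.2 z hz, ← hv.2 z' hz', he]

private theorem wfa_one (hl : lam ∈ Wt τ Z ⊤) : lam 1 = 1 := by
  obtain ⟨v, hv, hv0⟩ := Submodule.exists_mem_ne_zero_of_ne_bot hl.2
  apply wfa_eq hv0
  rw [← hv.2 1 Z.one_mem, map_one, one_smul]
  rfl

private theorem wfa_lam1 (hl : lam ∈ Wt τ Z ⊤) {z : Γ} (hz : z ∈ Z)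
    (he : τ z = 1) : lam z = 1 := by
  rw [wfa_lam hl hz Z.one_mem (he.trans (map_one τ).symm), wfa_one hl]

theorem lam_T0 (h : ZHyp p r τ G i T0 Z E) (hl : lam ∈ Wt τ Z ⊤) :
    ∀ t ∈ T0, ∀ z ∈ Z, lam (t⁻¹ * z * t) = lam z := by
  intro t ht z hz
  have h1 : t⁻¹ * z * t ∈ Z := by
    have h3 := (zNormal h).conj_mem z hz t⁻¹
    rwa [inv_inv] at h3
  apply wfa_lam hl h1 hz
  have h2 := ((h.hZ z⁻¹).1 (Z.inv_mem hz)).2 t⁻¹ (T0.inv_mem ht)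
  have e : t⁻¹ * z * t = z * ⁅z⁻¹, t⁻¹⁆ := by
    rw [commutatorElement_def]
    group
  rw [e, map_mul, h2, mul_one]

theorem sWV [Finite Γ] (h : ZHyp p r τ G i T0 Z E) (hl : lam ∈ Wt τ Z ⊤) (g : Γ) :
    g ∈ sW τ (WS τ Z ⊤ lam) ↔ ∀ z ∈ Z, lam (g⁻¹ * z * g) = lam z := by
  have hcj : ∀ z ∈ Z, g⁻¹ * z * g ∈ Z := by
    intro z hz
    have h3 := (zNormal h).conj_mem z hz g⁻¹
    rwa [inv_inv] at h3
  constructor
  · intro hg z hz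
    obtain ⟨v, hv, hv0⟩ := Submodule.exists_mem_ne_zero_of_ne_bot hl.2
    have h1 : τ g v ∈ WS τ Z ⊤ lam := (hg v).2 hv
    have h2 := h1.2 z hz
    rw [wfa_cj, hv.2 _ (hcj z hz), map_smul] at h2
    exact wfa_eq (wfa_ne τ g hv0) h2
  · intro hg
    apply sW_of
    intro v hv
    refine ⟨Submodule.mem_top, fun z hz => ?_⟩
    rw [wfa_cj, hv.2 _ (hcj z hz), map_smul, hg z hz]

theorem sWV' [Finite Γ] (h : ZHyp p r τ G i T0 Z E) (hl : lam ∈ Wt τ Z ⊤) (g : Γ) :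
    g ∈ sW τ (WS τ Z ⊤ lam) ↔ cjf g lam = lam := by
  rw [sWV h hl]
  constructor
  · intro h1
    funext z
    by_cases hz : z ∈ Z
    · exact h1 z hz
    · have h2 : g⁻¹ * z * g ∉ Z := by
        intro h3
        apply hz
        have h4 := (zNormal h).conj_mem _ h3 g
        have e : g * (g⁻¹ * z * g) * g⁻¹ = z := by group
        rwa [e] at h4
      show lam (g⁻¹ * z * g) = lam z
      rw [hl.1 _ h2, hl.1 _ hz]
  · intro h1 z _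
    exact congrFun h1 z

theorem T0V [Finite Γ] (h : ZHyp p r τ G i T0 Z E) (hl : lam ∈ Wt τ Z ⊤) :
    T0 ≤ sW τ (WS τ Z ⊤ lam) := by
  intro t ht
  rw [sWV h hl]
  exact lam_T0 h hl t ht

theorem EV [Finite Γ] (h : ZHyp p r τ G i T0 Z E) (hl : lam ∈ Wt τ Z ⊤) :
    E ≤ sW τ (WS τ Z ⊤ lam) := (eT0 h).trans (T0V h hl)

/-- conjugation by an element of `E` does not change `lam` -/
private theorem wfa_E (h : ZHyp p r τ G i T0 Z E) (hl : lam ∈ Wt τ Z ⊤) {e z : Γ} (he : e ∈ E)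
    (hz : z ∈ Z) : e * z * e⁻¹ ∈ Z ∧ lam (e * z * e⁻¹) = lam z := by
  refine ⟨(zNormal h).conj_mem z hz e, ?_⟩
  have h1 := lam_T0 h hl e⁻¹ (eT0 h (E.inv_mem he)) z hz
  rwa [inv_inv] at h1

theorem form1 (h : ZHyp p r τ G i T0 Z E) (hl : lam ∈ Wt τ Z ⊤) {e e' f : Γ} (he : e ∈ E)
    (he' : e' ∈ E) (hf : f ∈ E) : lam ⁅e * e', f⁆ = lam ⁅e, f⁆ * lam ⁅e', f⁆ := by
  have h1 := wfa_E h hl he (h.com e' he' f hf)
  have e1 : ⁅e * e', f⁆ = (e * ⁅e', f⁆ * e⁻¹) * ⁅e, f⁆ := by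
    rw [commutatorElement_def, commutatorElement_def, commutatorElement_def]
    group
  rw [e1, wt_mul hl h1.1 (h.com e he f hf), h1.2, mul_comm]

theorem form2 (h : ZHyp p r τ G i T0 Z E) (hl : lam ∈ Wt τ Z ⊤) {e f f' : Γ} (he : e ∈ E)
    (hf : f ∈ E) (hf' : f' ∈ E) : lam ⁅e, f * f'⁆ = lam ⁅e, f⁆ * lam ⁅e, f'⁆ := by
  have h1 := wfa_E h hl hf (h.com e he f' hf')
  have e1 : ⁅e, f * f'⁆ = ⁅e, f⁆ * (f * ⁅e, f'⁆ * f⁻¹) := by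
    rw [commutatorElement_def, commutatorElement_def, commutatorElement_def]
    group
  rw [e1, wt_mul hl (h.com e he f hf) h1.1, h1.2]

theorem form3 (h : ZHyp p r τ G i T0 Z E) (hl : lam ∈ Wt τ Z ⊤) {e f : Γ} (he : e ∈ E)
    (hf : f ∈ E) : lam ⁅f, e⁆ = (lam ⁅e, f⁆)⁻¹ := by
  have h1 := h.com e he f hf
  have h2 := wt_mul hl (h.com f hf e he) h1
  have e1 : ⁅f, e⁆ * ⁅e, f⁆ = 1 := by
    rw [commutatorElement_def, commutatorElement_def]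
    group
  rw [e1, wfa_one hl] at h2
  exact eq_inv_of_mul_eq_one_left h2.symm

theorem form4 (h : ZHyp p r τ G i T0 Z E) (hl : lam ∈ Wt τ Z ⊤) {e f : Γ} (he : e ∈ E)
    (hf : f ∈ E) : lam ⁅e, f⁆ ^ r = 1 := by
  have h1 : ∀ n : ℕ, lam ⁅e, f⁆ ^ n = lam ⁅e ^ n, f⁆ := by
    intro n
    induction n with
    | zero =>
      rw [pow_zero, pow_zero, commutatorElement_one_left, wfa_one hl]
    | succ n ih =>
      rw [pow_succ, ih, pow_succ, form1 h hl (E.pow_mem he n) he hf]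
  rw [h1]
  have h2 : e ^ r ∈ Z := h.pow e he
  exact wfa_lam1 hl (h.com _ (E.pow_mem he r) f hf) (((h.hZ _).1 h2).2 f (eT0 h hf))

theorem formC [Finite Γ] (h : ZHyp p r τ G i T0 Z E) (hl : lam ∈ Wt τ Z ⊤) {g e f : Γ}
    (hg : g ∈ sW τ (WS τ Z ⊤ lam)) (he : e ∈ E) (hf : f ∈ E) :
    lam ⁅g * e * g⁻¹, g * f * g⁻¹⁆ = lam ⁅e, f⁆ := by
  have h1 : g⁻¹ ∈ sW τ (WS τ Z ⊤ lam) := (sW τ (WS τ Z ⊤ lam)).inv_mem hg
  rw [sWV h hl] at h1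
  have h2 := h1 _ (h.com e he f hf)
  have e1 : ⁅g * e * g⁻¹, g * f * g⁻¹⁆ = g⁻¹⁻¹ * ⁅e, f⁆ * g⁻¹ := by
    rw [commutatorElement_def, commutatorElement_def]
    group
  rw [e1]
  exact h2

theorem exD (h : ZHyp p r τ G i T0 Z E) (hl : lam ∈ Wt τ Z ⊤) :
    ∃ D : Subgroup Γ, ∀ g, g ∈ D ↔ g ∈ E ∧ ∀ f ∈ E, lam ⁅g, f⁆ = 1 := by
  refine ⟨⟨⟨⟨{g | g ∈ E ∧ ∀ f ∈ E, lam ⁅g, f⁆ = 1}, ?_⟩, ?_⟩, ?_⟩, fun g => Iff.rfl⟩
  · rintro a b ⟨ha, ha'⟩ ⟨hb, hb'⟩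
    refine ⟨E.mul_mem ha hb, fun f hf => ?_⟩
    rw [form1 h hl ha hb hf, ha' f hf, hb' f hf, one_mul]
  · refine ⟨E.one_mem, fun f _ => ?_⟩
    rw [commutatorElement_one_left, wfa_one hl]
  · rintro a ⟨ha, ha'⟩
    refine ⟨E.inv_mem ha, fun f hf => ?_⟩
    have h1 := form1 h hl (E.inv_mem ha) ha hf
    rw [inv_mul_cancel, commutatorElement_one_left, wfa_one hl, ha' f hf, mul_one] at h1
    exact h1.symm

end H78CY
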