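import Pool.Agent.H78.CY.WfA

/-!
[H78 CY WFB] Basic facts on `D`, `V` and on a weight `mu` of `D` on `V` (50 min).

PROOFS. `ZD`: for `z ∈ Z`, `f ∈ E ≤ T0`: `τ ⁅z, f⁆ = 1`, so `lam ⁅z, f⁆ = 1`. `nDV`: `formC` (if `g` fixes
`lam`, so does `g⁻¹`; `E` is normal). `dV`: `D ≤ E` preserves `V` (`EV`). `d_comm`: for `d, d' ∈ D`,
`v ∈ V`: `τ (d d') v = τ ⁅d, d'⁆ (τ (d' d) v) = lam ⁅d, d'⁆ • τ (d' d) v = τ (d' d) v`, since `⁅d, d'⁆ ∈ Z` and
`τ (d' d) v ∈ V = WS τ Z ⊤ lam`. `mu_Z`: evaluate on a nonzero vector of `W ≤ V`.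
`W_scal`: definition of `WS`. `EW`: for `e ∈ E`, `d ∈ D`, `w ∈ W`: `τ d (τ e w) = τ e (τ (e⁻¹ d e) w)` and
`e⁻¹ d e = ⁅e⁻¹, d⁆ d`, `⁅e⁻¹, d⁆ ∈ Z`, `lam ⁅e⁻¹, d⁆ = (lam ⁅d, e⁻¹⁆)⁻¹ = 1`, so this is `mu d • τ e w`; and
`τ e w ∈ V`.
`WleV`: for `g ∈ sW τ W`, `w ∈ W` nonzero, `z ∈ Z`: `τ z (τ g w) = lam z • τ g w` (`τ g w ∈ W ≤ V`), so
`lam (g⁻¹ z g) = lam z`; `sWV`. `sWW`: `→`: `WleV`, and `g` normalises `D` (`nDV`), so
`τ d (τ g w) = mu d • τ g w` gives `mu (g⁻¹ d g) = mu d`. `←`: `WS_cjf`-type computation. `sWW'` : the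
same with `cjf` (`mu` vanishes outside `D`).
`e_comm`: for `e, f ∈ E`, `⁅e, f⁆ ∈ Z` acts on `W ≤ V` as `lam ⁅e, f⁆`.
`kh`: `KHyp` for the group `sW τ W` acting on `W`: `nE`, `nD` (`nDV`), `sc` (`W_scal`), `pow`, `com`
(`Z ≤ D`); `nd`: `rsW τ W ⁅e, f⁆ = 1` means `lam ⁅e, f⁆ = 1` (as `W ≠ ⊥`), and `E ≤ sW τ W`; `ord`:
`z_ord`; `rk`: `r ≠ p` are primes, `CharP.cast_eq_zero_iff`.
-/

namespace H78CY

open Subgroup H78TP
open scoped commutatorElement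

variable {k Γ U : Type*} [Field k] [Group Γ] [AddCommGroup U] [Module k U]


variable {p r i : ℕ} {τ : Representation k Γ U} {G T0 Z E D : Subgroup Γ} {lam mu : Γ → k}
  {V W : Submodule k U}

private theorem wfb_cj (τ : Representation k Γ U) (g z : Γ) (v : U) :
    τ z (τ g v) = τ g (τ (g⁻¹ * z * g) v) := by
  rw [← Module.End.mul_apply, ← map_mul, ← Module.End.mul_apply, ← map_mul]
  congr 2
  group

private theorem wfb_ne (τ : Representation k Γ U) (g : Γ) {v : U} (hv : v ≠ 0) : τ g v ≠ 0 := by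
  intro h
  apply hv
  have h1 : τ g⁻¹ (τ g v) = v := by
    rw [← Module.End.mul_apply, ← map_mul, inv_mul_cancel, map_one]
    rfl
  rw [h, map_zero] at h1
  exact h1.symm

private theorem wfb_eq {a b : k} {v : U} (hv : v ≠ 0) (h : a • v = b • v) : a = b := by
  have h1 : (a - b) • v = 0 := by rw [sub_smul, h, sub_self]
  rcases smul_eq_zero.1 h1 with h2 | h2
  · exact sub_eq_zero.1 h2
  · exact absurd h2 hv

private theorem wfb_lam1 (hl : lam ∈ Wt τ Z ⊤) {z : Γ} (hz : z ∈ Z)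
    (he : τ z = 1) : lam z = 1 := by
  obtain ⟨v, hv, hv0⟩ := Submodule.exists_mem_ne_zero_of_ne_bot hl.2
  apply wfb_eq hv0
  rw [← hv.2 z hz, he, one_smul]
  rfl

theorem ZD (h : WHyp p r τ G i T0 Z E lam mu D V W) : Z ≤ D := by
  intro z hz
  rw [h.hD]
  refine ⟨h.z.ZE hz, fun f hf => ?_⟩
  exact wfb_lam1 h.hl (h.z.com z (h.z.ZE hz) f hf) (((h.z.hZ z).1 hz).2 f (eT0 h.z hf))

theorem DE (h : WHyp p r τ G i T0 Z E lam mu D V W) : D ≤ E := fun g hg => ((h.hD g).1 hg).1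

theorem nDV [Finite Γ] (h : WHyp p r τ G i T0 Z E lam mu D V W) : Nm (sW τ V) D := by
  intro y hy x hx
  rw [h.hV] at hy
  rw [h.hD] at hx ⊢
  refine ⟨h.z.nE.conj_mem x hx.1 y, fun f hf => ?_⟩
  have h1 : y⁻¹ * f * y ∈ E := by
    have h3 := h.z.nE.conj_mem f hf y⁻¹
    rwa [inv_inv] at h3
  have h2 := formC h.z h.hl hy hx.1 h1
  have e : y * (y⁻¹ * f * y) * y⁻¹ = f := by group
  rw [e, hx.2 _ h1] at h2
  exact h2

theorem dV [Finite Γ] (h : WHyp p r τ G i T0 Z E lam mu D V W) : ∀ d ∈ D, ∀ v ∈ V, τ d v ∈ V := by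
  intro d hd v hv
  have h1 := EV h.z h.hl (DE h hd)
  rw [← h.hV] at h1
  exact (h1 v).2 hv

theorem V_scal (h : WHyp p r τ G i T0 Z E lam mu D V W) : ∀ z ∈ Z, ∀ v ∈ V, τ z v = lam z • v := by
  intro z hz v hv
  rw [h.hV] at hv
  exact hv.2 z hz

theorem d_comm [Finite Γ] (h : WHyp p r τ G i T0 Z E lam mu D V W) :
    ∀ d ∈ D, ∀ d' ∈ D, ∀ v ∈ V, τ d (τ d' v) = τ d' (τ d v) := by
  intro d hd d' hd' v hv
  have h1 : ⁅d, d'⁆ ∈ Z := h.z.com d (DE h hd) d' (DE h hd')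
  have h2 : lam ⁅d, d'⁆ = 1 := ((h.hD d).1 hd).2 d' (DE h hd')
  have e : d * d' = ⁅d, d'⁆ * (d' * d) := by
    rw [commutatorElement_def]
    group
  have h3 : τ (d' * d) v ∈ V := by
    rw [map_mul, Module.End.mul_apply]
    exact dV h d' hd' _ (dV h d hd v hv)
  rw [← Module.End.mul_apply, ← map_mul, e, map_mul, Module.End.mul_apply, V_scal h _ h1 _ h3, h2,
    one_smul, map_mul, Module.End.mul_apply]

theorem WV (h : WHyp p r τ G i T0 Z E lam mu D V W) : W ≤ V := by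
  intro w hw
  rw [h.hW] at hw
  exact hw.1

theorem W_ne (h : WHyp p r τ G i T0 Z E lam mu D V W) : W ≠ ⊥ := by
  rw [h.hW]
  exact h.hm.2

theorem W_scal (h : WHyp p r τ G i T0 Z E lam mu D V W) : ∀ d ∈ D, ∀ w ∈ W, τ d w = mu d • w := by
  intro d hd w hw
  rw [h.hW] at hw
  exact hw.2 d hd

theorem mu_Z (h : WHyp p r τ G i T0 Z E lam mu D V W) : ∀ z ∈ Z, mu z = lam z := by
  intro z hz
  obtain ⟨w, hw, hw0⟩ := Submodule.exists_mem_ne_zero_of_ne_bot (W_ne h)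
  apply wfb_eq hw0
  rw [← W_scal h z (ZD h hz) w hw, ← V_scal h z hz w (WV h hw)]

theorem EW [Finite Γ] (h : WHyp p r τ G i T0 Z E lam mu D V W) : E ≤ sW τ W := by
  intro e he
  apply sW_of
  intro w hw
  have hwV := WV h hw
  have h1 := EV h.z h.hl he
  rw [← h.hV] at h1
  rw [h.hW]
  refine ⟨(h1 w).2 hwV, fun d hd => ?_⟩
  have hde : d ∈ E := DE h hd
  have hZ : ⁅e⁻¹, d⁆ ∈ Z := h.z.com _ (E.inv_mem he) d hde
  have hl1 : lam ⁅e⁻¹, d⁆ = 1 := by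
    rw [form3 h.z h.hl hde (E.inv_mem he), ((h.hD d).1 hd).2 _ (E.inv_mem he), inv_one]
  have e1 : e⁻¹ * d * e = ⁅e⁻¹, d⁆ * d := by
    rw [commutatorElement_def]
    group
  rw [wfb_cj, e1, map_mul, Module.End.mul_apply, W_scal h d hd w hw, map_smul,
    V_scal h _ hZ w hwV, hl1, one_smul, map_smul]

theorem WleV [Finite Γ] (h : WHyp p r τ G i T0 Z E lam mu D V W) : sW τ W ≤ sW τ V := by
  intro g hg
  rw [h.hV, sWV h.z h.hl]
  intro z hz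
  obtain ⟨w, hw, hw0⟩ := Submodule.exists_mem_ne_zero_of_ne_bot (W_ne h)
  have h1 : g⁻¹ * z * g ∈ Z := by
    have h3 := (zNormal h.z).conj_mem z hz g⁻¹
    rwa [inv_inv] at h3
  have h2 := V_scal h z hz _ (WV h ((hg w).2 hw))
  rw [wfb_cj, V_scal h _ h1 _ (WV h hw), map_smul] at h2
  exact wfb_eq (wfb_ne τ g hw0) h2

theorem sWW [Finite Γ] (h : WHyp p r τ G i T0 Z E lam mu D V W) (g : Γ) :
    g ∈ sW τ W ↔ g ∈ sW τ V ∧ ∀ d ∈ D, mu (g⁻¹ * d * g) = mu d := by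
  have hcj : ∀ x ∈ sW τ V, ∀ d ∈ D, x⁻¹ * d * x ∈ D := by
    intro x hx d hd
    have h3 := nDV h x⁻¹ ((sW τ V).inv_mem hx) d hd
    rwa [inv_inv] at h3
  constructor
  · intro hg
    refine ⟨WleV h hg, fun d hd => ?_⟩
    obtain ⟨w, hw, hw0⟩ := Submodule.exists_mem_ne_zero_of_ne_bot (W_ne h)
    have h1 := hcj g (WleV h hg) d hd
    have h2 := W_scal h d hd _ ((hg w).2 hw)
    rw [wfb_cj, W_scal h _ h1 _ hw, map_smul] at h2
    exact wfb_eq (wfb_ne τ g hw0) h2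
  · rintro ⟨hg, hg'⟩
    apply sW_of
    intro w hw
    have hwV := WV h hw
    rw [h.hW]
    refine ⟨(hg w).2 hwV, fun d hd => ?_⟩
    rw [wfb_cj, W_scal h _ (hcj g hg d hd) _ hw, map_smul, hg' d hd]

theorem sWW' [Finite Γ] (h : WHyp p r τ G i T0 Z E lam mu D V W) (g : Γ) :
    g ∈ sW τ W ↔ g ∈ sW τ V ∧ cjf g mu = mu := by
  rw [sWW h]
  constructor
  · rintro ⟨h1, h2⟩
    refine ⟨h1, ?_⟩
    funext d
    by_cases hd : d ∈ D
    · exact h2 d hd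
    · have h3 : g⁻¹ * d * g ∉ D := by
        intro h3
        apply hd
        have h4 := nDV h g h1 _ h3
        have e : g * (g⁻¹ * d * g) * g⁻¹ = d := by group
        rwa [e] at h4
      show mu (g⁻¹ * d * g) = mu d
      rw [h.hm.1 _ h3, h.hm.1 _ hd]
  · rintro ⟨h1, h2⟩
    exact ⟨h1, fun d _ => congrFun h2 d⟩

theorem e_comm (h : WHyp p r τ G i T0 Z E lam mu D V W) :
    ∀ e ∈ E, ∀ f ∈ E, ∀ v ∈ V, τ ⁅e, f⁆ v = lam ⁅e, f⁆ • v := fun e he f hf v hv =>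
  V_scal h _ (h.z.com e he f hf) v hv

theorem kh [Fact p.Prime] [CharP k p] [Finite Γ] (h : WHyp p r τ G i T0 Z E lam mu D V W) :
    KHyp r (rsW τ W) (E.subgroupOf (sW τ W)) (D.subgroupOf (sW τ W)) := by
  have hp : p.Prime := Fact.out
  refine
    { hr := h.z.hr
      rk := ?_
      nE := ?_
      nD := ?_
      DE := ?_
      sc := ?_
      pow := ?_
      com := ?_
      nd := ?_
      ord := ?_ }
  · rw [Ne, CharP.cast_eq_zero_iff k p]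
    intro h1
    exact h.z.hrp ((Nat.prime_dvd_prime_iff_eq hp h.z.hr).1 h1).symm
  · refine ⟨fun e he g => ?_⟩
    rw [Subgroup.mem_subgroupOf] at he ⊢
    exact h.z.nE.conj_mem _ he _
  · refine ⟨fun e he g => ?_⟩
    rw [Subgroup.mem_subgroupOf] at he ⊢
    exact nDV h g.1 (WleV h g.2) _ he
  · intro d hd
    rw [Subgroup.mem_subgroupOf] at hd ⊢
    exact DE h hd
  · intro d hd
    rw [Subgroup.mem_subgroupOf] at hd
    refine ⟨mu d.1, fun v => Subtype.ext ?_⟩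
    rw [rsW_coe, W_scal h _ hd _ v.2]
    rfl
  · intro e he
    rw [Subgroup.mem_subgroupOf] at he ⊢
    exact ZD h (h.z.pow _ he)
  · intro e he f hf
    rw [Subgroup.mem_subgroupOf] at he hf ⊢
    exact ZD h (h.z.com _ he _ hf)
  · intro e he h1
    rw [Subgroup.mem_subgroupOf] at he ⊢
    rw [h.hD]
    refine ⟨he, fun f hf => ?_⟩
    obtain ⟨w, hw, hw0⟩ := Submodule.exists_mem_ne_zero_of_ne_bot (W_ne h)
    have h2 := h1 ⟨f, EW h hf⟩ hf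
    have h3 := congrArg (fun φ : Module.End k W => ((φ ⟨w, hw⟩ : W) : U)) h2
    have h4 : τ ⁅e.1, f⁆ w = w := h3
    rw [e_comm h _ he _ hf w (WV h hw)] at h4
    apply wfb_eq hw0
    rw [h4, one_smul]
  · intro e he
    rw [Subgroup.mem_subgroupOf] at he
    obtain ⟨q, hq, hq'⟩ := z_ord h.z e.1 he
    refine ⟨q, hq, ?_⟩
    apply LinearMap.ext
    intro v
    apply Subtype.ext
    rw [rsW_coe]
    have e1 : ((e ^ q : sW τ W) : Γ) = e.1 ^ q := rfl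
    rw [e1, hq']
    rfl

end H78CY
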